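import Pool.Agent.Lib.MP_754fa1_al.T.T01

/-!
# A01a. Atoms

`sl_even`, `sl_odd`: induction on `k`. `sl_symm`: `M i j` even: `sl_even`; odd: `L i = L j` by `OddEq`, `sl_odd`.
`sl_lt`: `sl L i j (k + 1) = sl L i j k + L (lst i j (k+1))` (induction), or use `sl_even`, `sl_odd`.
`sl_le`: induction. `spt_al`: `al i j (k+1) = s_i al j i k` is reduced (`len_al`), `spt_mul`; `al i j 2` has support `{i, j}`.

`atom_spt`: `spt_simple`, `spt_al` (`2 ≤ 2 k - 1`). `atom_inv`: `al_top_inv`, `al_inv_odd`.
`atom_le`: values: `L i ≤ C`, `sl ≤ C k` (`sl_le`), `k L i - (k - 1) L j ≤ k C ≤ C (2 k - 1)`; lengths by `len_al`.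
`atom_pos`: `sl_lt` with `0 < M i j`; `k L i - (k - 1) L j ≥ L i`.
`atom_len`: `1`, `M i j`, `2 k - 1 ≤ M i j`.
-/

open Pool.Agent.Lib.MP_754fa1_al

namespace Pool.Agent.Lib.KLT

universe u v w

variable {B : Type u} {W : Type v} [Group W] {M : CoxeterMatrix B}

theorem sl_even (L : B → ℕ) (i j : B) (k : ℕ) : sl L i j (2 * k) = k * (L i + L j) := by
  induction k with
  | zero => rw [Nat.mul_zero, Nat.zero_mul]; rfl
  | succ k ih =>
    have h1 : sl L i j (2 * (k + 1)) = L i + (L j + sl L i j (2 * k)) := rfl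
    rw [h1, ih]
    ring

theorem sl_odd (L : B → ℕ) (i j : B) (k : ℕ) :
    sl L i j (2 * k + 1) = (k + 1) * L i + k * L j := by
  have h1 : sl L i j (2 * k + 1) = L i + sl L j i (2 * k) := rfl
  rw [h1, sl_even]
  ring

theorem sl_symm {L : B → ℕ} (hE : OddEq M L) (i j : B) :
    sl L i j (M i j) = sl L j i (M i j) := by
  rcases Nat.even_or_odd' (M i j) with ⟨k, hk | hk⟩
  · rw [hk, sl_even, sl_even, add_comm]
  · have h1 : L i = L j := hE i j ⟨k, hk⟩
    rw [hk, sl_odd, sl_odd, h1]

theorem sl_lt {L : B → ℕ} (hL : ∀ i, 0 < L i) (i j : B) {k l : ℕ} (h : k < l) :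
    sl L i j k < sl L i j l := by
  have h1 : ∀ (k : ℕ) (i j : B), sl L i j k < sl L i j (k + 1) := by
    intro k
    induction k with
    | zero =>
      intro i j
      show 0 < L i + 0
      exact hL i
    | succ k ih =>
      intro i j
      show L i + sl L j i k < L i + sl L j i (k + 1)
      exact Nat.add_lt_add_left (ih j i) _
  exact strictMono_nat_of_lt_succ (fun n => h1 n i j) h

theorem sl_le {L : B → ℕ} {C : ℕ} (hC : ∀ i, L i ≤ C) (i j : B) (k : ℕ) :
    sl L i j k ≤ C * k := by
  induction k generalizing i j with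
  | zero => exact Nat.zero_le _
  | succ k ih =>
    show L i + sl L j i k ≤ C * (k + 1)
    have h1 := hC i
    have h2 := ih j i
    rw [Nat.mul_succ]
    omega

theorem spt_al (cs : CoxeterSystem M W) {i j : B} (hij : i ≠ j) {k : ℕ} (h2 : 2 ≤ k)
    (hk : k ≤ M i j ∨ M i j = 0) : spt cs (al cs i j k) = {i, j} := by
  have key : ∀ (k : ℕ) (i j : B), i ≠ j → (k + 2 ≤ M i j ∨ M i j = 0) →
      spt cs (al cs i j (k + 2)) = {i, j} := by
    intro k
    induction k with
    | zero =>
      intro i j hij hk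
      have hm : M j i = M i j := M.symmetric j i
      have e : al cs i j (0 + 2) = cs.simple i * al cs j i 1 := rfl
      have hR : Rd cs (cs.simple i) (al cs j i 1) := by
        unfold Rd
        rw [← e, len_al cs hij hk, cs.length_simple, len_al cs hij.symm (by omega)]
      rw [e, spt_mul cs hR, al_one, spt_simple, spt_simple]
      rfl
    | succ k ih =>
      intro i j hij hk
      have hm : M j i = M i j := M.symmetric j i
      have e : al cs i j (k + 1 + 2) = cs.simple i * al cs j i (k + 2) := rfl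
      have hR : Rd cs (cs.simple i) (al cs j i (k + 2)) := by
        unfold Rd
        rw [← e, len_al cs hij hk, cs.length_simple, len_al cs hij.symm (by omega)]
        omega
      rw [e, spt_mul cs hR, spt_simple, ih j i hij.symm (by omega)]
      ext x
      simp only [Set.mem_union, Set.mem_insert_iff, Set.mem_singleton_iff]
      tauto
  obtain ⟨l, rfl⟩ : ∃ l, k = l + 2 := ⟨k - 2, by omega⟩
  exact key l i j hij hk

variable {cs : CoxeterSystem M W} {L : B → ℕ}

theorem atom_dih {J : Set B} {δ : W} {n : ℕ} (h : Atom cs L J δ n) : Dih M J := by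
  cases h with
  | one i => exact Or.inl ⟨i, rfl⟩
  | full i j h3 => exact Or.inr ⟨i, j, h3, rfl⟩
  | mid i j k hk hM hl => exact Or.inr ⟨i, j, by omega, rfl⟩

theorem atom_spt {J : Set B} {δ : W} {n : ℕ} (h : Atom cs L J δ n) : spt cs δ = J := by
  cases h with
  | one i => exact spt_simple cs i
  | full i j h3 => exact spt_al cs (ne_of_three h3) (by omega) (Or.inl le_rfl)
  | mid i j k hk hM hl =>
    exact spt_al cs (ne_of_three (M := M) (by omega)) (by omega) (Or.inl (by omega))

theorem atom_inv {J : Set B} {δ : W} {n : ℕ} (h : Atom cs L J δ n) : δ⁻¹ = δ := by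
  cases h with
  | one i => exact cs.inv_simple i
  | full i j h3 => exact al_top_inv cs (by omega)
  | mid i j k hk hM hl =>
    have e : 2 * k - 1 = 2 * (k - 1) + 1 := by omega
    rw [e]
    exact al_inv_odd cs i j (k - 1)

theorem atom_pos (hL : ∀ i, 0 < L i) {J : Set B} {δ : W} {n : ℕ} (h : Atom cs L J δ n) :
    0 < n := by
  cases h with
  | one i => exact hL i
  | full i j h3 => exact sl_lt hL i j (k := 0) (by omega)
  | mid i j k hk hM hl =>
    obtain ⟨t, rfl⟩ : ∃ t, k = t + 1 := ⟨k - 1, by omega⟩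
    have h1 : (t + 1 - 1) * L j ≤ t * L i := by
      rw [Nat.add_sub_cancel]
      exact Nat.mul_le_mul_left t hl.le
    have h2 : (t + 1) * L i = t * L i + L i := by ring
    have h3 := hL i
    omega

theorem atom_le {C : ℕ} (hC : ∀ i, L i ≤ C) {J : Set B} {δ : W} {n : ℕ}
    (h : Atom cs L J δ n) : n ≤ C * cs.length δ := by
  cases h with
  | one i => rw [cs.length_simple, Nat.mul_one]; exact hC i
  | full i j h3 =>
    rw [len_al cs (ne_of_three h3) (Or.inl le_rfl)]
    exact sl_le hC i j _
  | mid i j k hk hM hl =>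
    rw [len_al cs (ne_of_three (M := M) (show 3 ≤ M i j by omega)) (Or.inl (by omega))]
    calc k * L i - (k - 1) * L j ≤ k * L i := Nat.sub_le _ _
      _ ≤ k * C := Nat.mul_le_mul_left k (hC i)
      _ = C * k := Nat.mul_comm _ _
      _ ≤ C * (2 * k - 1) := Nat.mul_le_mul_left C (by omega)

/-- the length of an atom is at most `D` times the cardinality of its support -/
theorem atom_len [Finite B] {D : ℕ} (hD : ∀ i j, M i j ≤ D) {J : Set B} {δ : W} {n : ℕ}
    (h : Atom cs L J δ n) : cs.length δ ≤ D * J.ncard := by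
  cases h with
  | one i =>
    rw [cs.length_simple, Set.ncard_singleton, Nat.mul_one]
    have h1 := hD i i
    rw [M.diagonal i] at h1
    exact h1
  | full i j h3 =>
    rw [len_al cs (ne_of_three h3) (Or.inl le_rfl), Set.ncard_pair (ne_of_three h3)]
    have h1 := hD i j
    omega
  | mid i j k hk hM hl =>
    have h3 : 3 ≤ M i j := by omega
    rw [len_al cs (ne_of_three h3) (Or.inl (by omega)), Set.ncard_pair (ne_of_three h3)]
    have h1 := hD i j
    omega

end Pool.Agent.Lib.KLT
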