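import Pool.Agent.Lib.MP_754fa1_al.T.A01a

/-!
# A01b. Products of commuting atoms

All by induction on `SpV`. `spv_spt`: `spt_mul`, `cm_rd`. `spv_mem`: `mem_wp_spt`. `spv_sph`: `sph_dih`, `sph_union`.
`spv_inv`: `(δ ε)⁻¹ = ε δ = δ ε` (`cm_comm`). `spv_le_len`: `cm_rd`. `spv_len`: `ℓ(δ) ≤ D |J| ≤ D |B|` with
`atom_len`, `Set.ncard_union_eq` (disjoint by `cm_disj`).

`atom_spv`: `cons` with `nil`. `spv_mul`: induction on the first: `(J ∪ J') ∪ K = J ∪ (J' ∪ K)`; `Cm J (J' ∪ K)`.

`spv_split`: induction on `SpV I δ n`. `nil`: `1 = 1 * 1`. `cons` (atom `α` on `I₁`, rest on `I₂`): `I₁` is `{c}` or `{c, d}` with `3 ≤ M c d`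
(`atom_dih`), so `I₁ ⊆ J` or `I₁ ⊆ K` (`c ∈ J`, `d ∈ K` would give `M c d = 2`). If `I₁ ⊆ J`: `(I₁ ∪ I₂) ∩ J = I₁ ∪ (I₂ ∩ J)` and
`(I₁ ∪ I₂) ∩ K = I₂ ∩ K` (`cm_disj`), take `α δ₁`, `δ₂`. If `I₁ ⊆ K`: `α δ₁ δ₂ = δ₁ (α δ₂)` (`cm_comm`: `Cm I₁ (I₂ ∩ J)`).

`spv_empty`: `spv_spt`, `spt_empty`, and the value: `cons` has non-empty support; so the only case is `nil`.
(Do `cases`/induction with a generalised index `J = ∅`.)
`spv_sub_pair`: by cases: `nil`; `cons`: atom on `J₁`, rest on `K₁`, `J₁ ∪ K₁ ⊆ {i, j}`, `Cm J₁ K₁`, `3 ≤ M i j`: if `K₁ ≠ ∅` then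
`J₁`, `K₁` are non-empty, disjoint (`cm_disj`), so they are `{i}`, `{j}` in some order and `M i j = 2`, a contradiction; so `K₁ = ∅` and
`spv_empty` gives `ε = 1`, `m = 0`. `spv_single`: similarly: `J₁ = {i}`, `K₁ = ∅` and the atom is `one i` (`full`, `mid` have two
elements in the support: `i ≠ j` as `3 ≤ M i j`).
-/

open Pool.Agent.Lib.MP_754fa1_al

namespace Pool.Agent.Lib.KLT

universe u v w

variable {B : Type u} {W : Type v} [Group W] {M : CoxeterMatrix B}
variable {cs : CoxeterSystem M W} {L : B → ℕ}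

private theorem A01b_atom_mem {J : Set B} {δ : W} {n : ℕ} (h : Atom cs L J δ n) :
    δ ∈ WP cs J := by
  have h1 := mem_wp_spt cs δ
  rw [atom_spt h] at h1
  exact h1

private theorem A01b_dih_ne {J : Set B} (h : Dih M J) : J.Nonempty := by
  rcases h with ⟨c, rfl⟩ | ⟨c, d, -, rfl⟩
  · exact ⟨c, rfl⟩
  · exact ⟨c, Set.mem_insert c {d}⟩

theorem spv_spt {J : Set B} {δ : W} {n : ℕ} (h : SpV cs L J δ n) : spt cs δ = J := by
  induction h with
  | nil => exact spt_one cs
  | @cons J K δ ε n m ha hb hc ih =>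
    have h1 := mem_wp_spt cs ε
    rw [ih] at h1
    rw [spt_mul cs (cm_rd cs hc (A01b_atom_mem ha) h1), atom_spt ha, ih]

theorem spv_mem {J : Set B} {δ : W} {n : ℕ} (h : SpV cs L J δ n) : δ ∈ WP cs J := by
  have h1 := mem_wp_spt cs δ
  rw [spv_spt h] at h1
  exact h1

theorem spv_sph {J : Set B} {δ : W} {n : ℕ} (h : SpV cs L J δ n) : Sph M J := by
  induction h with
  | nil =>
    intro i hi
    exact absurd hi (Set.notMem_empty i)
  | @cons J K δ ε n m ha hb hc ih => exact sph_union (sph_dih (atom_dih ha)) ih hc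

theorem spv_inv {J : Set B} {δ : W} {n : ℕ} (h : SpV cs L J δ n) : δ⁻¹ = δ := by
  induction h with
  | nil => exact inv_one
  | @cons J K δ ε n m ha hb hc ih =>
    rw [mul_inv_rev, ih, atom_inv ha]
    exact (cm_comm cs hc (A01b_atom_mem ha) (spv_mem hb)).symm

private theorem A01b_len {J K : Set B} {δ ε : W} {n m : ℕ} (ha : Atom cs L J δ n)
    (hb : SpV cs L K ε m) (hc : Cm M J K) :
    cs.length (δ * ε) = cs.length δ + cs.length ε :=
  cm_rd cs hc (A01b_atom_mem ha) (spv_mem hb)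

theorem spv_le_len {C : ℕ} (hC : ∀ i, L i ≤ C) {J : Set B} {δ : W} {n : ℕ}
    (h : SpV cs L J δ n) : n ≤ C * cs.length δ := by
  induction h with
  | nil => exact Nat.zero_le _
  | @cons J K δ ε n m ha hb hc ih =>
    rw [A01b_len ha hb hc, mul_add]
    exact add_le_add (atom_le hC ha) ih

theorem spv_len [Finite B] (cs : CoxeterSystem M W) (L : B → ℕ) :
    ∃ N, ∀ (J : Set B) (δ : W) (n : ℕ), SpV cs L J δ n → cs.length δ ≤ N := by
  obtain ⟨D, hD⟩ := Finite.exists_le (fun p : B × B => M p.1 p.2)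
  have hD' : ∀ i j, M i j ≤ D := fun i j => hD (i, j)
  refine ⟨D * (Set.univ : Set B).ncard, ?_⟩
  intro J δ n h
  have key : cs.length δ ≤ D * J.ncard := by
    induction h with
    | nil =>
      rw [cs.length_one]
      exact Nat.zero_le _
    | @cons J K δ ε n m ha hb hc ih =>
      rw [A01b_len ha hb hc, Set.ncard_union_eq (cm_disj hc) (Set.toFinite J) (Set.toFinite K),
        mul_add]
      exact add_le_add (atom_len hD' ha) ih
  exact key.trans (Nat.mul_le_mul_left D (Set.ncard_le_ncard (Set.subset_univ J)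
    (Set.toFinite _)))

theorem atom_spv {J : Set B} {δ : W} {n : ℕ} (h : Atom cs L J δ n) : SpV cs L J δ n := by
  have h1 := SpV.cons h (SpV.nil (cs := cs) (L := L))
    (fun j _ k hk => absurd hk (Set.notMem_empty k))
  rw [Set.union_empty, mul_one, add_zero] at h1
  exact h1

theorem spv_mul {J K : Set B} {δ ε : W} {n m : ℕ} (h : SpV cs L J δ n) (h' : SpV cs L K ε m)
    (hc : Cm M J K) : SpV cs L (J ∪ K) (δ * ε) (n + m) := by
  revert hc
  induction h with
  | nil =>
    intro _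
    rw [Set.empty_union, one_mul, zero_add]
    exact h'
  | @cons J₁ K₁ α β a b ha hb hc₁ ih =>
    intro hc
    have h1 : Cm M K₁ K := cm_mono hc Set.subset_union_right subset_rfl
    have h2 : Cm M J₁ (K₁ ∪ K) := by
      intro j hj k hk
      rcases hk with hk | hk
      · exact hc₁ j hj k hk
      · exact hc j (Or.inl hj) k hk
    have h3 := SpV.cons ha (ih h1) h2
    rw [← Set.union_assoc, ← mul_assoc, ← add_assoc] at h3
    exact h3

theorem spv_split {I J K : Set B} {δ : W} {n : ℕ} (hc : Cm M J K) (h : SpV cs L I δ n)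
    (hI : I ⊆ J ∪ K) :
    ∃ (δ₁ δ₂ : W) (n₁ n₂ : ℕ), SpV cs L (I ∩ J) δ₁ n₁ ∧ SpV cs L (I ∩ K) δ₂ n₂ ∧
      δ = δ₁ * δ₂ ∧ n = n₁ + n₂ := by
  revert hI
  induction h with
  | nil =>
    intro _
    refine ⟨1, 1, 0, 0, ?_, ?_, (one_mul 1).symm, rfl⟩
    · rw [Set.empty_inter]
      exact SpV.nil
    · rw [Set.empty_inter]
      exact SpV.nil
  | @cons I₁ I₂ α β a b ha hb hc₁ ih =>
    intro hI
    obtain ⟨δ₁, δ₂, n₁, n₂, h1, h2, e1, e2⟩ := ih (Set.subset_union_right.trans hI)
    have hI₁ : I₁ ⊆ J ∪ K := Set.subset_union_left.trans hI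
    have hdis := cm_disj hc
    have hcase : I₁ ⊆ J ∨ I₁ ⊆ K := by
      rcases atom_dih ha with ⟨c, hcc⟩ | ⟨c, d, h3, hcc⟩
      · rw [hcc] at hI₁ ⊢
        rcases hI₁ (Set.mem_singleton c) with h4 | h4
        · exact Or.inl (Set.singleton_subset_iff.mpr h4)
        · exact Or.inr (Set.singleton_subset_iff.mpr h4)
      · rw [hcc] at hI₁ ⊢
        rcases hI₁ (Set.mem_insert c {d}) with h4 | h4
        · rcases hI₁ (Set.mem_insert_of_mem c rfl) with h5 | h5
          · exact Or.inl (Set.insert_subset h4 (Set.singleton_subset_iff.mpr h5))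
          · exfalso
            have := hc c h4 d h5
            omega
        · rcases hI₁ (Set.mem_insert_of_mem c rfl) with h5 | h5
          · exfalso
            have h6 := hc d h5 c h4
            rw [M.symmetric d c] at h6
            omega
          · exact Or.inr (Set.insert_subset h4 (Set.singleton_subset_iff.mpr h5))
    rcases hcase with h4 | h4
    · have e3 : (I₁ ∪ I₂) ∩ J = I₁ ∪ (I₂ ∩ J) := by
        rw [Set.union_inter_distrib_right, Set.inter_eq_left.mpr h4]
      have e4 : (I₁ ∪ I₂) ∩ K = I₂ ∩ K := by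
        rw [Set.union_inter_distrib_right,
          Set.disjoint_iff_inter_eq_empty.mp (Set.disjoint_of_subset_left h4 hdis),
          Set.empty_union]
      refine ⟨α * δ₁, δ₂, a + n₁, n₂, ?_, ?_, ?_, ?_⟩
      · rw [e3]
        exact SpV.cons ha h1 (cm_mono hc₁ subset_rfl Set.inter_subset_left)
      · rw [e4]
        exact h2
      · rw [e1, mul_assoc]
      · rw [e2, add_assoc]
    · have e3 : (I₁ ∪ I₂) ∩ K = I₁ ∪ (I₂ ∩ K) := by
        rw [Set.union_inter_distrib_right, Set.inter_eq_left.mpr h4]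
      have e4 : (I₁ ∪ I₂) ∩ J = I₂ ∩ J := by
        rw [Set.union_inter_distrib_right,
          Set.disjoint_iff_inter_eq_empty.mp (Set.disjoint_of_subset_left h4 hdis.symm),
          Set.empty_union]
      refine ⟨δ₁, α * δ₂, n₁, a + n₂, ?_, ?_, ?_, ?_⟩
      · rw [e4]
        exact h1
      · rw [e3]
        exact SpV.cons ha h2 (cm_mono hc₁ subset_rfl Set.inter_subset_left)
      · have h5 := cm_comm cs (cm_mono hc₁ subset_rfl Set.inter_subset_left)
          (A01b_atom_mem ha) (spv_mem h1)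
        rw [e1, ← mul_assoc, ← mul_assoc, h5]
      · rw [e2]
        omega

theorem spv_empty {δ : W} {n : ℕ} (h : SpV cs L ∅ δ n) : δ = 1 ∧ n = 0 := by
  generalize hJ : (∅ : Set B) = J at h
  cases h with
  | nil => exact ⟨rfl, rfl⟩
  | @cons J₁ K₁ α β a b ha hb hc =>
    exfalso
    obtain ⟨c, hcc⟩ := A01b_dih_ne (atom_dih ha)
    have h1 : c ∈ J₁ ∪ K₁ := Or.inl hcc
    rw [← hJ] at h1
    exact h1

theorem spv_single {i : B} {δ : W} {n : ℕ} (h : SpV cs L {i} δ n) :
    δ = cs.simple i ∧ n = L i := by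
  generalize hJ : ({i} : Set B) = J at h
  cases h with
  | nil =>
    exfalso
    have h1 : i ∈ ({i} : Set B) := rfl
    rw [hJ] at h1
    exact h1
  | @cons J₁ K₁ α β a b ha hb hc =>
    have hsub : ∀ c ∈ J₁ ∪ K₁, c = i := by
      intro c hcc
      rw [← hJ] at hcc
      exact hcc
    have hK : K₁ = ∅ := by
      rw [Set.eq_empty_iff_forall_notMem]
      intro k hk
      obtain ⟨c, hcc⟩ := A01b_dih_ne (atom_dih ha)
      have h1 := hsub c (Or.inl hcc)
      have h2 := hsub k (Or.inr hk)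
      have h3 := hc c hcc k hk
      rw [h1, h2, M.diagonal] at h3
      omega
    subst hK
    obtain ⟨e1, e2⟩ := spv_empty hb
    rw [e1, e2, mul_one, add_zero]
    cases ha with
    | one c =>
      have h1 : c = i := hsub c (Or.inl rfl)
      rw [h1]
      exact ⟨rfl, rfl⟩
    | full c d h3 =>
      exfalso
      have h1 : c = i := hsub c (Or.inl (Set.mem_insert c {d}))
      have h2 : d = i := hsub d (Or.inl (Set.mem_insert_of_mem c rfl))
      rw [h1, h2, M.diagonal] at h3
      omega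
    | mid c d k hk hM hL =>
      exfalso
      have h1 : c = i := hsub c (Or.inl (Set.mem_insert c {d}))
      have h2 : d = i := hsub d (Or.inl (Set.mem_insert_of_mem c rfl))
      rw [h1, h2] at hL
      omega

theorem spv_sub_pair {i j : B} (h3 : 3 ≤ M i j) {J : Set B} (hJ : J ⊆ {i, j}) {δ : W} {n : ℕ}
    (h : SpV cs L J δ n) : (δ = 1 ∧ n = 0) ∨ Atom cs L J δ n := by
  cases h with
  | nil => exact Or.inl ⟨rfl, rfl⟩
  | @cons J₁ K₁ α β a b ha hb hc =>
    right
    have hK : K₁ = ∅ := by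
      rw [Set.eq_empty_iff_forall_notMem]
      intro k hk
      obtain ⟨c, hcc⟩ := A01b_dih_ne (atom_dih ha)
      have h1 := hJ (Or.inl hcc)
      have h2 := hJ (Or.inr hk)
      have h4 := hc c hcc k hk
      have h5 := M.symmetric i j
      rcases h1 with h1 | h1
      · rcases h2 with h2 | h2
        · rw [h1, h2, M.diagonal] at h4
          omega
        · rw [h1, Set.mem_singleton_iff.mp h2] at h4
          omega
      · rw [Set.mem_singleton_iff] at h1
        rcases h2 with h2 | h2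
        · rw [h1, h2] at h4
          omega
        · rw [h1, Set.mem_singleton_iff.mp h2, M.diagonal] at h4
          omega
    subst hK
    obtain ⟨e1, e2⟩ := spv_empty hb
    rw [e1, e2, mul_one, add_zero, Set.union_empty]
    exact ha

end Pool.Agent.Lib.KLT
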