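import Pool.Agent.Lib.MP_754fa1_al.T.A01b

/-!
# A01c. The function `av`

`fac_trans`: `x = p δ q`, `δ = a z b` with lengths adding. `fac_suf`: `Suf z x` means `x = (x z⁻¹) z` reduced. `fac_inv`.
`fac_eq`: lengths. `fac_simple`: if `i ∈ spt x` then a reduced word of `x` (`cs.exists_isReduced`) contains `i` (`spt_iff`); split it.

`av_bdd`: let `C` bound `L` (`Finite B`). `SpV J δ n`, `Fac δ x` give `n ≤ C ℓ(δ) ≤ C ℓ(x)` (`spv_le_len`).
`spv_le_av`: `le_csSup`. `av_attained`: `Nat.sSup_mem`; the set contains `0` (`nil`, `Fac 1 x`). `av_le`: from `av_attained`.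
`av_mono`: `fac_trans`. `av_inv`: `spv_inv`: `Fac δ x → Fac δ⁻¹ x⁻¹ = Fac δ x⁻¹`. `av_one`: a factor of `1` is `1`; `SpV J 1 n` has
`J = spt 1 = ∅`, `n = 0` (`spv_empty`). `av_bound`: `spv_len`, `spv_le_len`. `av_pos`: `x ≠ 1` has a left descent `i`, `s_i` is a
factor, `SpV {i} s_i (L i)`.
`exists_tgt`: take a suffix `u` of `x` of minimal length with `av u = av x`.
`tgt_suf_av`: monotonicity and `Tgt`.
-/

open Pool.Agent.Lib.MP_754fa1_al

namespace Pool.Agent.Lib.KLT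

universe u v w

variable {B : Type u} {W : Type v} [Group W] {M : CoxeterMatrix B}

theorem fac_refl (cs : CoxeterSystem M W) (x : W) : Fac cs x x :=
  ⟨1, 1, by simp, by simp⟩

theorem fac_trans (cs : CoxeterSystem M W) {x y z : W} (h : Fac cs x y) (h' : Fac cs y z) :
    Fac cs x z := by
  obtain ⟨p, q, e1, l1⟩ := h
  obtain ⟨p', q', e2, l2⟩ := h'
  have e3 : z = (p' * p) * x * (q * q') := by
    rw [e2, e1]
    simp only [mul_assoc]
  refine ⟨p' * p, q * q', e3, ?_⟩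
  have h1 := cs.length_mul_le p' p
  have h2 := cs.length_mul_le q q'
  have h3 := cs.length_mul_le (p' * p * x) (q * q')
  have h4 := cs.length_mul_le (p' * p) x
  rw [← e3] at h3
  omega

theorem fac_suf (cs : CoxeterSystem M W) {z x : W} (h : Suf cs z x) : Fac cs z x := by
  obtain ⟨y, e, l⟩ := (suf_iff cs z x).1 h
  exact ⟨y, 1, by rw [mul_one]; exact e, by rw [cs.length_one, add_zero]; exact l⟩

theorem fac_left (cs : CoxeterSystem M W) {x y : W} (h : Rd cs x y) : Fac cs x (x * y) :=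
  ⟨1, y, by rw [one_mul], by rw [cs.length_one, zero_add]; exact h⟩

theorem fac_right (cs : CoxeterSystem M W) {x y : W} (h : Rd cs x y) : Fac cs y (x * y) :=
  ⟨x, 1, by rw [mul_one], by rw [cs.length_one, add_zero]; exact h⟩

theorem fac_inv (cs : CoxeterSystem M W) {z x : W} (h : Fac cs z x) : Fac cs z⁻¹ x⁻¹ := by
  obtain ⟨p, q, e, l⟩ := h
  refine ⟨q⁻¹, p⁻¹, ?_, ?_⟩
  · rw [e, mul_inv_rev, mul_inv_rev, mul_assoc]
  · rw [cs.length_inv, cs.length_inv, cs.length_inv, cs.length_inv]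
    omega

theorem fac_len (cs : CoxeterSystem M W) {z x : W} (h : Fac cs z x) :
    cs.length z ≤ cs.length x := by
  obtain ⟨p, q, _, l⟩ := h
  omega

theorem fac_eq (cs : CoxeterSystem M W) {z x : W} (h : Fac cs z x)
    (h' : cs.length x ≤ cs.length z) : z = x := by
  obtain ⟨p, q, e, l⟩ := h
  have hp : cs.length p = 0 := by omega
  have hq : cs.length q = 0 := by omega
  rw [cs.length_eq_zero_iff] at hp hq
  rw [e, hp, hq, one_mul, mul_one]

theorem fac_simple (cs : CoxeterSystem M W) {x : W} {i : B} (h : i ∈ spt cs x) :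
    Fac cs (cs.simple i) x := by
  obtain ⟨ω, hω, rfl⟩ := cs.exists_isReduced x
  rw [spt_iff cs hω] at h
  obtain ⟨s, t, rfl⟩ := List.append_of_mem h
  have e : cs.wordProd (s ++ i :: t) = cs.wordProd s * cs.simple i * cs.wordProd t := by
    rw [cs.wordProd_append, cs.wordProd_cons, mul_assoc]
  refine ⟨cs.wordProd s, cs.wordProd t, e, ?_⟩
  have h0 := hω.eq
  rw [List.length_append, List.length_cons] at h0
  have h1 := cs.length_wordProd_le s
  have h2 := cs.length_wordProd_le t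
  have h3 := cs.length_mul_le (cs.wordProd s * cs.simple i) (cs.wordProd t)
  have h4 := cs.length_mul_le (cs.wordProd s) (cs.simple i)
  rw [← e] at h3
  rw [cs.length_simple] at h4 ⊢
  omega

variable [Finite B] (cs : CoxeterSystem M W) (L : B → ℕ)

private theorem a01c_bd (L : B → ℕ) : ∃ C, ∀ i, L i ≤ C := by
  obtain ⟨C, hC⟩ := (Set.finite_range L).bddAbove
  exact ⟨C, fun i => hC ⟨i, rfl⟩⟩

theorem av_bdd (x : W) : BddAbove {n | ∃ (J : Set B) (δ : W), SpV cs L J δ n ∧ Fac cs δ x} := by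
  obtain ⟨C, hC⟩ := a01c_bd L
  refine ⟨C * cs.length x, ?_⟩
  rintro n ⟨J, δ, h1, h2⟩
  exact (spv_le_len hC h1).trans (Nat.mul_le_mul_left C (fac_len cs h2))

theorem spv_le_av {x : W} {J : Set B} {δ : W} {n : ℕ} (h : SpV cs L J δ n) (h' : Fac cs δ x) :
    n ≤ av cs L x :=
  le_csSup (av_bdd cs L x) ⟨J, δ, h, h'⟩

theorem av_attained (x : W) : ∃ (J : Set B) (δ : W), SpV cs L J δ (av cs L x) ∧ Fac cs δ x := by
  have h1 : ({n | ∃ (J : Set B) (δ : W), SpV cs L J δ n ∧ Fac cs δ x}).Nonempty :=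
    ⟨0, ∅, 1, SpV.nil, 1, x, by simp, by simp⟩
  exact Nat.sSup_mem h1 (av_bdd cs L x)

theorem av_le {x : W} {N : ℕ} (h : ∀ (J : Set B) (δ : W) (n : ℕ), SpV cs L J δ n → Fac cs δ x →
    n ≤ N) : av cs L x ≤ N := by
  obtain ⟨J, δ, h1, h2⟩ := av_attained cs L x
  exact h J δ _ h1 h2

theorem av_mono {z x : W} (h : Fac cs z x) : av cs L z ≤ av cs L x :=
  av_le cs L fun _ _ _ h1 h2 => spv_le_av cs L h1 (fac_trans cs h2 h)

theorem av_inv (x : W) : av cs L x⁻¹ = av cs L x := by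
  have key : ∀ x : W, av cs L x⁻¹ ≤ av cs L x := by
    intro x
    refine av_le cs L fun J δ n h1 h2 => spv_le_av cs L h1 ?_
    have h3 := fac_inv cs h2
    rw [inv_inv, spv_inv h1] at h3
    exact h3
  refine le_antisymm (key x) ?_
  have h := key x⁻¹
  rwa [inv_inv] at h

theorem av_one : av cs L 1 = 0 := by
  refine Nat.le_zero.1 (av_le cs L fun J δ n h1 h2 => ?_)
  have h3 := fac_len cs h2
  rw [cs.length_one, Nat.le_zero, cs.length_eq_zero_iff] at h3
  subst h3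
  have h4 := spv_spt h1
  rw [spt_one] at h4
  subst h4
  exact (spv_empty h1).2.le

theorem av_bound : ∃ N, ∀ x : W, av cs L x ≤ N := by
  obtain ⟨C, hC⟩ := a01c_bd L
  obtain ⟨N, hN⟩ := spv_len cs L
  exact ⟨C * N, fun x => av_le cs L fun J δ n h1 _ =>
    (spv_le_len hC h1).trans (Nat.mul_le_mul_left C (hN J δ n h1))⟩

theorem av_ge_of_spt {x : W} {i : B} (h : i ∈ spt cs x) : L i ≤ av cs L x :=
  spv_le_av cs L (atom_spv (Atom.one i)) (fac_simple cs h)

theorem av_pos (hL : ∀ i, 0 < L i) {x : W} (h : x ≠ 1) : 0 < av cs L x := by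
  have h1 : (spt cs x).Nonempty := by
    rw [Set.nonempty_iff_ne_empty]
    exact fun h2 => h (spt_empty cs h2)
  obtain ⟨i, hi⟩ := h1
  exact (hL i).trans_le (av_ge_of_spt cs L hi)

theorem exists_tgt (x : W) : ∃ u, Tgt cs L u ∧ Suf cs u x ∧ av cs L u = av cs L x := by
  classical
  have hex : ∃ n, ∃ u, Suf cs u x ∧ av cs L u = av cs L x ∧ cs.length u = n :=
    ⟨_, x, suf_refl cs x, rfl, rfl⟩
  obtain ⟨u, h1, h2, h3⟩ := Nat.find_spec hex
  refine ⟨u, fun y hy hne => ?_, h1, h2⟩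
  refine lt_of_le_of_ne (av_mono cs L (fac_suf cs hy)) fun h4 => ?_
  have h5 : cs.length y < cs.length u := by
    by_contra h6
    exact hne (suf_eq cs hy (not_lt.1 h6))
  exact Nat.find_min hex (h3 ▸ h5) ⟨y, suf_trans cs hy h1, h4.trans h2, rfl⟩

end Pool.Agent.Lib.KLT
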