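import Pool.Agent.Lib.MP_754fa1_al.T.A01c

/-!
# A02. Values in dihedral parabolic subgroups

Throughout `3 ≤ M i j` (so `i ≠ j`, `M i j ≠ 0`), `m = M i j`, `w₀ = al i j m`.

`pair_spv`: let `SpV J δ n`, `Fac δ w`, `w ∈ WP {i, j}`. `δ ∈ WP {i, j}` (`fac_wp`), so `J = spt δ ⊆ {i, j}`; `spv_sub_pair`: `δ = 1` or an
atom with `J ⊆ {i, j}`; cases: `one`: `δ = s_i` or `s_j`. `full i' j'` or `mid i' j' k`: `{i', j'} ⊆ {i, j}`, `i' ≠ j'`, so
`(i', j') = (i, j)` or `(j, i)`; `full j i`: `al j i (M j i) = w₀` (`al_top`, `M.symmetric`), `sl_symm`.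

`av_simple`: `δ` a factor of `s_i`: `δ = 1` or `δ = s_i` (lengths, `fac_eq`): if `SpV J s_i n` then `J = spt s_i = {i}` and `n = L i`
(`spv_single`).

`av_full`: `≥`: `w₀` itself. `≤`: `pair_spv`: the values `0`, `L i`, `L j`, `k L i - (k - 1) L j`, `k L j - (k - 1) L i` are all
`≤ sl L i j m` (`sl_even` with `m = 2 k`; for `L i ≤ sl L i j m` use `sl L i j 1 = L i`, `sl_lt`; for `L j` use `sl_symm`).

`av_mid` (`m = 2 k`, `L j < L i`, `δ = al i j (2 k - 1)`): `≥` itself. `≤`: a factor of `δ` has length `≤ 2 k - 1`, so it is not `w₀`;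
the factor `al j i (2 k - 1)` does not occur as `L i < L j` is false. `L i, L j ≤ k L i - (k - 1) L j`.

`av_other` (`L j ≤ L i`, `i ∈ spt w`, `w ≠ w₀`, and `w ≠ al i j (m - 1)` or `L i = L j`): `≥`: `av_ge_of_spt`. `≤`: `pair_spv`: `w₀` is not a
factor (`fac_eq`, `pair_len_le`); the factor `δ = al i j (2 k - 1)` with `L j < L i`, `m = 2 k` has length `m - 1`; since
`w ≠ w₀`, `ℓ(w) ≤ m - 1` (`pair_len_eq`), so `w = δ` by `fac_eq`, excluded; the factor `al j i (2k-1)` needs `L i < L j`.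
-/

open Pool.Agent.Lib.MP_754fa1_al

namespace Pool.Agent.Lib.KLT

universe u v w

variable {B : Type u} {W : Type v} [Group W] {M : CoxeterMatrix B}
variable [Finite B] (cs : CoxeterSystem M W) (L : B → ℕ)

omit [Finite B] in
private theorem a02_ne {i j : B} (h3 : 3 ≤ M i j) : i ≠ j := by
  rintro rfl
  rw [M.diagonal] at h3
  omega

omit [Finite B] in
private theorem a02_pair {i j a b : B} {J : Set B} (hJ : J ⊆ {i, j}) (hab : a ≠ b)
    (ha : a ∈ J) (hb : b ∈ J) : (a = i ∧ b = j) ∨ (a = j ∧ b = i) := by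
  rcases hJ ha with h1 | h1 <;> rcases hJ hb with h2 | h2
  · exact absurd (h1.trans h2.symm) hab
  · exact Or.inl ⟨h1, h2⟩
  · exact Or.inr ⟨h1, h2⟩
  · exact absurd (h1.trans (Set.mem_singleton_iff.1 h2).symm) hab

omit [Finite B] in
theorem pair_spv (hE : OddEq M L) {i j : B} (h3 : 3 ≤ M i j) {w : W} (hw : w ∈ WP cs {i, j})
    {J : Set B} {δ : W} {n : ℕ} (h : SpV cs L J δ n) (hf : Fac cs δ w) :
    (δ = 1 ∧ n = 0) ∨ (δ = cs.simple i ∧ n = L i) ∨ (δ = cs.simple j ∧ n = L j) ∨
    (δ = al cs i j (M i j) ∧ n = sl L i j (M i j)) ∨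
    (∃ k, 2 ≤ k ∧ M i j = 2 * k ∧
      ((L j < L i ∧ δ = al cs i j (2 * k - 1) ∧ n = k * L i - (k - 1) * L j) ∨
       (L i < L j ∧ δ = al cs j i (2 * k - 1) ∧ n = k * L j - (k - 1) * L i))) := by
  have hδ : δ ∈ WP cs {i, j} := fac_wp cs hf hw
  have hJ : J ⊆ {i, j} := by
    rw [← spv_spt h]
    exact (wp_iff_spt cs).1 hδ
  rcases spv_sub_pair h3 hJ h with h0 | ha
  · exact Or.inl h0
  · cases ha with
    | one a =>
      rcases hJ (Set.mem_singleton a) with h1 | h1
      · right; left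
        rw [h1]
        exact ⟨rfl, rfl⟩
      · right; right; left
        rw [Set.mem_singleton_iff.1 h1]
        exact ⟨rfl, rfl⟩
    | full a b hab =>
      right; right; right; left
      rcases a02_pair hJ (a02_ne hab) (Set.mem_insert _ _)
        (Set.mem_insert_of_mem _ (Set.mem_singleton _)) with ⟨h1, h2⟩ | ⟨h1, h2⟩
      · subst h1 h2
        exact ⟨rfl, rfl⟩
      · subst h1 h2
        rw [al_top cs a b (by omega), sl_symm hE a b, M.symmetric a b]
        exact ⟨rfl, rfl⟩
    | mid a b k hk hM hL =>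
      right; right; right; right
      have hab : a ≠ b := by
        apply a02_ne (M := M)
        omega
      rcases a02_pair hJ hab (Set.mem_insert _ _)
        (Set.mem_insert_of_mem _ (Set.mem_singleton _)) with ⟨h1, h2⟩ | ⟨h1, h2⟩
      · subst h1 h2
        exact ⟨k, hk, hM, Or.inl ⟨hL, rfl, rfl⟩⟩
      · subst h1 h2
        exact ⟨k, hk, by rw [M.symmetric]; exact hM, Or.inr ⟨hL, rfl, rfl⟩⟩

theorem av_simple (i : B) : av cs L (cs.simple i) = L i := by
  apply le_antisymm
  · apply av_le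
    intro J δ n h hf
    have hδ : δ ∈ WP cs {i} := fac_wp cs hf ((simple_mem_wp cs).2 (Set.mem_singleton i))
    rcases (wp_single cs).1 hδ with rfl | rfl
    · have hJ : J = ∅ := by rw [← spv_spt h, spt_one]
      rw [hJ] at h
      rw [(spv_empty h).2]
      exact Nat.zero_le _
    · have hJ : J = {i} := by rw [← spv_spt h, spt_simple]
      rw [hJ] at h
      exact (spv_single h).2.le
  · exact spv_le_av cs L (atom_spv (Atom.one i)) (fac_refl cs _)

omit [Finite B] in
private theorem a02_sl (i j : B) {k : ℕ} (hk : 1 ≤ k) : L i ≤ sl L i j k := by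
  obtain ⟨l, rfl⟩ : ∃ l, k = l + 1 := ⟨k - 1, by omega⟩
  show L i ≤ L i + sl L j i l
  omega

theorem av_full (hE : OddEq M L) {i j : B} (h3 : 3 ≤ M i j) :
    av cs L (al cs i j (M i j)) = sl L i j (M i j) := by
  apply le_antisymm
  · apply av_le
    intro J δ n h hf
    rcases pair_spv cs L hE h3 (al_mem cs i j _) h hf with h0 | h0 | h0 | h0 | ⟨k, hk, hm, h0⟩
    · rw [h0.2]
      exact Nat.zero_le _
    · rw [h0.2]
      exact a02_sl L i j (by omega)
    · rw [h0.2, sl_symm hE i j]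
      exact a02_sl L j i (by omega)
    · exact h0.2.le
    · rw [hm, sl_even]
      rcases h0 with ⟨_, _, rfl⟩ | ⟨_, _, rfl⟩
      · exact (Nat.sub_le _ _).trans (Nat.mul_le_mul_left k (Nat.le_add_right _ _))
      · exact (Nat.sub_le _ _).trans (Nat.mul_le_mul_left k (Nat.le_add_left _ _))
  · exact spv_le_av cs L (atom_spv (Atom.full i j h3)) (fac_refl cs _)

theorem av_mid {i j : B} {k : ℕ} (hE : OddEq M L) (hk : 2 ≤ k) (hm : M i j = 2 * k)
    (hL : L j < L i) : av cs L (al cs i j (2 * k - 1)) = k * L i - (k - 1) * L j := by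
  have h3 : 3 ≤ M i j := by omega
  have hij := a02_ne h3
  have hkey : L i ≤ k * L i - (k - 1) * L j := by
    obtain ⟨l, rfl⟩ : ∃ l, k = l + 1 := ⟨k - 1, by omega⟩
    rw [Nat.add_sub_cancel]
    have h1 : l * L j ≤ l * L i := Nat.mul_le_mul_left l hL.le
    have h2 : (l + 1) * L i = l * L i + L i := by ring
    omega
  apply le_antisymm
  · apply av_le
    intro J δ n h hf
    rcases pair_spv cs L hE h3 (al_mem cs i j _) h hf with h0 | h0 | h0 | h0 | ⟨l, hl, hml, h0⟩
    · rw [h0.2]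
      exact Nat.zero_le _
    · rw [h0.2]
      exact hkey
    · rw [h0.2]
      omega
    · exfalso
      have h4 := fac_len cs hf
      rw [h0.1, len_al cs hij (Or.inl le_rfl), len_al cs hij (Or.inl (by omega))] at h4
      omega
    · have hlk : l = k := by omega
      subst hlk
      rcases h0 with ⟨_, _, rfl⟩ | ⟨h5, _, _⟩
      · exact le_rfl
      · omega
  · exact spv_le_av cs L (atom_spv (Atom.mid i j k hk hm hL)) (fac_refl cs _)

theorem av_other (hE : OddEq M L) {i j : B} (h3 : 3 ≤ M i j) (hl : L j ≤ L i) {w : W}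
    (hw : w ∈ WP cs {i, j}) (hi : i ∈ spt cs w) (h0 : w ≠ al cs i j (M i j))
    (h1 : w ≠ al cs i j (M i j - 1) ∨ L i = L j) : av cs L w = L i := by
  have hij := a02_ne h3
  have hm : M i j ≠ 0 := by omega
  have hlen := pair_len_le cs hij hm hw
  apply le_antisymm
  · apply av_le
    intro J δ n h hf
    rcases pair_spv cs L hE h3 hw h hf with h4 | h4 | h4 | h4 | ⟨k, hk, hmk, h4⟩
    · rw [h4.2]
      exact Nat.zero_le _
    · exact h4.2.le
    · rw [h4.2]
      exact hl
    · exfalso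
      apply h0
      rw [← h4.1]
      symm
      apply fac_eq cs hf
      rw [h4.1, len_al cs hij (Or.inl le_rfl)]
      exact hlen
    · rcases h4 with ⟨h5, h6, _⟩ | ⟨h5, _, _⟩
      · exfalso
        have h7 : cs.length w ≠ M i j := fun e => h0 (pair_len_eq cs hij hm hw e)
        have h8 : δ = w := by
          apply fac_eq cs hf
          rw [h6, len_al cs hij (Or.inl (by omega))]
          omega
        rcases h1 with h1 | h1
        · apply h1
          rw [← h8, h6, hmk]
        · omega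
      · omega
  · exact av_ge_of_spt cs L hi

end Pool.Agent.Lib.KLT
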