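import Pool.Agent.Lib.MP_754fa1_al.T.A02

/-!
# A03a. Additivity of `av`

`av_cm`: `≥`: `av_attained` for `p`, `q`: `SpV J₁ δ₁ (av p)`, `Fac δ₁ p`, `J₁ = spt δ₁ ⊆ J` (`fac_wp`, `wp_iff_spt`), the same for `q`;
`spv_mul`, `cm_fac_mul`, `spv_le_av`. `≤`: `av_attained` for `p q`: `SpV I δ n`, `Fac δ (p q)`; `cm_fac`: `δ = p' q'`, `Fac p' p`, `Fac q' q`,
`p' ∈ WP J`, `q' ∈ WP K`; `I = spt δ ⊆ J ∪ K`; `spv_split`: `δ = δ₁ δ₂`, `n = n₁ + n₂`; `cm_uniq`: `δ₁ = p'`, `δ₂ = q'`; `spv_le_av`.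

`tgt_cm`: `Suf y (p q)`, `y ≠ p q`: `cm_suf`: `y = p' q'`, `p' ≠ p` or `q' ≠ q`; `av_cm`, `av_mono`.

`cs_cm`: suffixes `u`, `u'`: take `u u'`; `cm_suf_mul`, `av_cm` (`u ∈ WP J` as `Suf u w`, `w ∈ WP J`: `wp_suf`).

`suf_av_cm`: `Suf z (p q)`, `av z = av (p q)` imply `z = p' q'` with `Suf p' p`, `av p' = av p`, and the same for `q`.
-/

open Pool.Agent.Lib.MP_754fa1_al

namespace Pool.Agent.Lib.KLT

universe u v w

variable {B : Type u} {W : Type v} [Group W] {M : CoxeterMatrix B}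
variable [Finite B] (cs : CoxeterSystem M W) (L : B → ℕ)

theorem av_cm {J K : Set B} (hc : Cm M J K) {p q : W} (hp : p ∈ WP cs J) (hq : q ∈ WP cs K) :
    av cs L (p * q) = av cs L p + av cs L q := by
  apply le_antisymm
  · obtain ⟨I, δ, h, hf⟩ := av_attained cs L (p * q)
    obtain ⟨p', hp', q', hq', e, fp, fq⟩ := cm_fac cs hc hp hq hf
    have hI : I ⊆ J ∪ K := by
      rw [← spv_spt h]
      exact (wp_iff_spt cs).1 ((cm_union cs hc).2 ⟨p', hp', q', hq', e⟩)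
    obtain ⟨δ₁, δ₂, n₁, n₂, h1, h2, e1, e2⟩ := spv_split hc h hI
    have hδ₁ : δ₁ ∈ WP cs J := wp_mono cs Set.inter_subset_right (spv_mem h1)
    have hδ₂ : δ₂ ∈ WP cs K := wp_mono cs Set.inter_subset_right (spv_mem h2)
    obtain ⟨r1, r2⟩ := cm_uniq cs hc hp' hq' hδ₁ hδ₂ (e.symm.trans e1)
    rw [r1] at fp
    rw [r2] at fq
    rw [e2]
    exact add_le_add (spv_le_av cs L h1 fp) (spv_le_av cs L h2 fq)
  · obtain ⟨J1, d1, h1, f1⟩ := av_attained cs L p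
    obtain ⟨K1, d2, h2, f2⟩ := av_attained cs L q
    have hJ : J1 ⊆ J := by
      rw [← spv_spt h1]
      exact (wp_iff_spt cs).1 (fac_wp cs f1 hp)
    have hK : K1 ⊆ K := by
      rw [← spv_spt h2]
      exact (wp_iff_spt cs).1 (fac_wp cs f2 hq)
    exact spv_le_av cs L (spv_mul h1 h2 (cm_mono hc hJ hK)) (cm_fac_mul cs hc hp hq f1 f2)

theorem tgt_cm {J K : Set B} (hc : Cm M J K) {p q : W} (hp : p ∈ WP cs J) (hq : q ∈ WP cs K)
    (h : Tgt cs L p) (h' : Tgt cs L q) : Tgt cs L (p * q) := by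
  intro y hy hne
  obtain ⟨p', hp', q', hq', rfl, s1, s2⟩ := cm_suf cs hc hp hq hy
  rw [av_cm cs L hc hp' hq', av_cm cs L hc hp hq]
  by_cases h1 : p' = p
  · have h2 : q' ≠ q := fun h2 => hne (by rw [h1, h2])
    have h3 := h' q' s2 h2
    rw [h1]
    omega
  · have h2 := h p' s1 h1
    have h3 : av cs L q' ≤ av cs L q := av_mono cs L (fac_suf cs s2)
    omega

theorem cs_cm {J K : Set B} (hc : Cm M J K) {w q w' q' : W} (hw : w ∈ WP cs J)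
    (hq : q ∈ WP cs J) (hw' : w' ∈ WP cs K) (hq' : q' ∈ WP cs K) (h : Cs cs L w q)
    (h' : Cs cs L w' q') : Cs cs L (w * w') (q * q') := by
  obtain ⟨u, a1, a2, a3⟩ := h
  obtain ⟨u', b1, b2, b3⟩ := h'
  refine ⟨u * u', cm_suf_mul cs hc hw hw' a1 b1, cm_suf_mul cs hc hq hq' a2 b2, ?_⟩
  rw [av_cm cs L hc (wp_suf cs a1 hw) (wp_suf cs b1 hw'), av_cm cs L hc hw hw', a3, b3]

theorem suf_av_cm {J K : Set B} (hc : Cm M J K) {p q z : W} (hp : p ∈ WP cs J)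
    (hq : q ∈ WP cs K) (h : Suf cs z (p * q)) (ha : av cs L z = av cs L (p * q)) :
    ∃ p' ∈ WP cs J, ∃ q' ∈ WP cs K, z = p' * q' ∧ Suf cs p' p ∧ Suf cs q' q ∧
      av cs L p' = av cs L p ∧ av cs L q' = av cs L q := by
  obtain ⟨p', hp', q', hq', rfl, s1, s2⟩ := cm_suf cs hc hp hq h
  rw [av_cm cs L hc hp' hq', av_cm cs L hc hp hq] at ha
  have h1 : av cs L p' ≤ av cs L p := av_mono cs L (fac_suf cs s1)
  have h2 : av cs L q' ≤ av cs L q := av_mono cs L (fac_suf cs s2)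
  exact ⟨p', hp', q', hq', rfl, s1, s2, by omega, by omega⟩

end Pool.Agent.Lib.KLT
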