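import Pool.Agent.Lib.MP_754fa1_al.T.A03a

/-!
# A03b. Special elements: splitting off a generator, upgrading, values

`spv_iso`: `spv_split` with `{s}` and `J \ {s}` (`Cm {s} (J \ {s})`), `spv_single`.

`upgrade`: induction on `SpV J δ n`. `nil`: no `j`. `cons` (atom `α` on `J₁`, rest `ε` on `K₁`). If `j ∈ K₁`: `j` is not a left descent
of `ε` (`cm_ld_iff`); by induction `SpV K₁ (s_j ε) m'`, `m < m'`; `s_j (α ε) = α (s_j ε)`, `cons`. If `j ∈ J₁`: `j` is not a left descent of `α`; the
atoms `one`, `full` have all elements of the support as left descents (`pair_top_rd`); so `α = al i j' (2 k - 1)` is `mid` and `j = j'`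
(`i` is a left descent, `ld_al`): `s_j α = al j i (2 k) = al i j (2 k)` (`al_top`) is the `full i j` atom with value
`k (L i + L j) > k L i - (k - 1) L j`. That `s_j δ = δ s_j`: `s_j δ` is `SpV` hence an involution, and `δ` is:
`s_j δ = (s_j δ)⁻¹ = δ⁻¹ s_j = δ s_j`.

`atom_av`: `av_simple`, `av_full`, `av_mid`. `spv_av`: induction with `av_cm`.
-/


open Pool.Agent.Lib.MP_754fa1_al

namespace Pool.Agent.Lib.KLT

universe u v w

variable {B : Type u} {W : Type v} [Group W] {M : CoxeterMatrix B}

theorem spv_iso {cs : CoxeterSystem M W} {L : B → ℕ} {J : Set B} {δ : W} {n : ℕ}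
    (h : SpV cs L J δ n) {s : B} (hs : s ∈ J) (hc : Cm M {s} (J \ {s})) :
    ∃ (δ' : W) (n' : ℕ), δ = cs.simple s * δ' ∧ SpV cs L (J \ {s}) δ' n' ∧ n = L s + n' := by
  have hI : J ⊆ {s} ∪ (J \ {s}) := by
    intro x hx
    by_cases hxs : x = s
    · exact Or.inl hxs
    · exact Or.inr ⟨hx, hxs⟩
  obtain ⟨δ₁, δ₂, n₁, n₂, h1, h2, hδ, hn⟩ := spv_split hc h hI
  have e1 : J ∩ {s} = {s} := by
    ext x
    constructor
    · exact fun hx => hx.2
    · intro hx
      rw [Set.mem_singleton_iff] at hx
      exact ⟨hx ▸ hs, hx⟩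
  have e2 : J ∩ (J \ {s}) = J \ {s} := by
    ext x
    constructor
    · exact fun hx => hx.2
    · exact fun hx => ⟨hx.1, hx⟩
  rw [e1] at h1
  rw [e2] at h2
  obtain ⟨h3, h4⟩ := spv_single h1
  exact ⟨δ₂, n₂, by rw [hδ, h3], h2, by rw [hn, h4]⟩

private theorem A03b_up {cs : CoxeterSystem M W} {L : B → ℕ} {J : Set B} {δ : W} {n : ℕ}
    (hL : ∀ i, 0 < L i) (h : SpV cs L J δ n) {j : B} (hj : j ∈ J)
    (hd : ¬ cs.IsLeftDescent δ j) :
    ∃ n', n < n' ∧ SpV cs L J (cs.simple j * δ) n' := by
  induction h with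
  | nil => exact absurd hj (Set.notMem_empty j)
  | @cons J₁ K α ε a m h₁ h' hc ih =>
    have hα : α ∈ WP cs J₁ := spv_mem (atom_spv h₁)
    have hε : ε ∈ WP cs K := spv_mem h'
    rw [cm_ld_iff cs hc hα hε, not_or] at hd
    rcases hj with hj | hj
    · cases h₁ with
      | one i =>
        rw [Set.mem_singleton_iff] at hj
        subst hj
        exfalso
        apply hd.1
        show cs.length (cs.simple j * cs.simple j) < cs.length (cs.simple j)
        rw [cs.simple_mul_simple_self, cs.length_one, cs.length_simple]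
        exact one_pos
      | full i i' h3 =>
        exfalso
        apply hd.1
        have h4 := pair_top_rd cs (ne_of_three h3) (show M i i' ≠ 0 by omega)
        rcases hj with rfl | hj
        · exact h4.2.2.1
        · rw [Set.mem_singleton_iff] at hj
          subst hj
          exact h4.2.2.2
      | mid i i' k hk hM hLt =>
        have hne : i ≠ i' := ne_of_three (M := M) (show 3 ≤ M i i' by omega)
        rcases hj with rfl | hj
        · exfalso
          exact hd.1 (ld_al cs hne (by omega) (Or.inl (by omega)))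
        · rw [Set.mem_singleton_iff] at hj
          subst hj
          have hM' : M j i = 2 * k := by rw [M.symmetric]; exact hM
          have h5 : cs.simple j * al cs i j (2 * k - 1) = al cs j i (M j i) := by
            rw [hM']
            obtain ⟨l, hl⟩ : ∃ l, 2 * k = l + 1 := ⟨2 * k - 1, by omega⟩
            rw [hl, al_succ]
            rfl
          have h6 : Atom cs L {j, i} (al cs j i (M j i)) (sl L j i (M j i)) :=
            Atom.full j i (by omega)
          have hc' : Cm M {j, i} K := by
            rw [Set.pair_comm]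
            exact hc
          have h7 := SpV.cons h6 h' hc'
          rw [Set.pair_comm j i, ← h5, mul_assoc] at h7
          refine ⟨_, ?_, h7⟩
          rw [hM', sl_even]
          have h8 : k * L i - (k - 1) * L j ≤ k * L i := Nat.sub_le _ _
          have h9 : 0 < k * L j := Nat.mul_pos (by omega) (hL j)
          have h10 : k * (L j + L i) = k * L j + k * L i := Nat.mul_add _ _ _
          omega
    · obtain ⟨n', hn', h2⟩ := ih hj hd.2
      refine ⟨a + n', by omega, ?_⟩
      have h3 : cs.simple j * (α * ε) = α * (cs.simple j * ε) := by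
        have h4 := cm_comm cs hc hα ((simple_mem_wp cs).2 hj)
        rw [← mul_assoc, ← h4, mul_assoc]
      rw [h3]
      exact SpV.cons h₁ h2 hc

theorem upgrade {cs : CoxeterSystem M W} {L : B → ℕ} {J : Set B} {δ : W} {n : ℕ}
    (hL : ∀ i, 0 < L i) (h : SpV cs L J δ n) {j : B} (hj : j ∈ J)
    (hd : ¬ cs.IsLeftDescent δ j) :
    ∃ n', n < n' ∧ SpV cs L J (cs.simple j * δ) n' ∧ cs.simple j * δ = δ * cs.simple j := by
  obtain ⟨n', h1, h2⟩ := A03b_up hL h hj hd
  refine ⟨n', h1, h2, ?_⟩
  have h3 := spv_inv h2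
  have h4 := spv_inv h
  rw [mul_inv_rev, h4, cs.inv_simple] at h3
  exact h3.symm

variable [Finite B] {cs : CoxeterSystem M W} {L : B → ℕ}

theorem atom_av (hE : OddEq M L) {J : Set B} {δ : W} {n : ℕ} (h : Atom cs L J δ n) :
    av cs L δ = n := by
  cases h with
  | one i => exact av_simple cs L i
  | full i j h3 => exact av_full cs L hE h3
  | mid i j k hk hM hLt => exact av_mid cs L hE hk hM hLt

theorem spv_av (hE : OddEq M L) {J : Set B} {δ : W} {n : ℕ} (h : SpV cs L J δ n) :
    av cs L δ = n := by
  induction h with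
  | nil => exact av_one cs L
  | cons h₁ h' hc ih =>
    rw [av_cm cs L hc (spv_mem (atom_spv h₁)) (spv_mem h'), atom_av hE h₁, ih]

end Pool.Agent.Lib.KLT
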