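import Pool.Agent.Lib.MP_754fa1_al.T.A03b

/-!
# A03c. Special elements are tight

`atom_tgt`: `Suf y δ`, `y ≠ δ`, so `ℓ(y) < ℓ(δ)`; take the factor `ε` of `y` of value `av y` (`av_attained`). `one`: `y = 1`, `av_one`. `full`:
`pair_spv` and `ε ≠ w₀` (length); all other values are `< sl L i j m` (`m ≥ 3`). `mid`: `ℓ(ε) < 2 k - 1` so `ε ∈ {1, s_i, s_j}`, values
`0, L i, L j < k L i - (k - 1) L j`. `spv_tgt`: induction with `tgt_cm`, `Tgt 1` is vacuous (a suffix of `1` is `1`).

`atom_suf_eq`: `Suf δ w`, `w ∈ WP J`, `av w = n` imply `w = δ`. `one`: `wp_single` (C05). `full`: `ℓ(w) ≥ m`, `pair_len_eq`. `mid`: `ℓ(w) ≥ 2 k - 1`; if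
`ℓ(w) = 2 k = m` then `w = w₀` and `av w = k (L i + L j) ≠ n`; else `w = δ` (`suf_eq`). `spv_suf_eq`: induction: `cm_suf` for
`Suf (δ ε) (p q)` where `w = p q` (`cm_union`); `cm_uniq`; `av p ≥ av δ`, `av q ≥ av ε` (`av_mono`), the sum is equal, so both are equal.
-/

open Pool.Agent.Lib.MP_754fa1_al

namespace Pool.Agent.Lib.KLT

universe u v w

variable {B : Type u} {W : Type v} [Group W] {M : CoxeterMatrix B}
variable [Finite B] {cs : CoxeterSystem M W} {L : B → ℕ}

omit [Finite B] in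
private theorem A03c_mem {J : Set B} {δ : W} {n : ℕ} (h : Atom cs L J δ n) : δ ∈ WP cs J := by
  have h1 := mem_wp_spt cs δ
  rw [atom_spt h] at h1
  exact h1

private theorem A03c_mid_lt {a b k : ℕ} (hk : 2 ≤ k) (h : b < a) :
    a < k * a - (k - 1) * b := by
  obtain ⟨t, rfl⟩ : ∃ t, k = t + 2 := ⟨k - 2, by omega⟩
  have h1 : t + 2 - 1 = t + 1 := by omega
  rw [h1]
  have h2 : (t + 1) * b < (t + 1) * a := Nat.mul_lt_mul_of_pos_left h (Nat.succ_pos t)
  have h3 : (t + 2) * a = (t + 1) * a + a := by ring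
  omega

private theorem A03c_mid_full {a b k : ℕ} (hk : 2 ≤ k) (hb : 0 < b) :
    k * a - (k - 1) * b < k * (a + b) := by
  have h1 : 0 < k * b := Nat.mul_pos (by omega) hb
  have h2 : k * (a + b) = k * a + k * b := by ring
  omega

omit [Finite B] in
private theorem A03c_one_lt (hL : ∀ i, 0 < L i) (i j : B) {m : ℕ} (hm : 3 ≤ m) :
    L i < sl L i j m := by
  have h1 : sl L i j 1 = L i := rfl
  have h2 := sl_lt hL i j (k := 1) (l := m) (by omega)
  rw [h1] at h2
  exact h2

theorem atom_tgt (hL : ∀ i, 0 < L i) (hE : OddEq M L) {J : Set B} {δ : W} {n : ℕ}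
    (h : Atom cs L J δ n) : Tgt cs L δ := by
  intro y hy hne
  rw [atom_av hE h]
  have hyJ : y ∈ WP cs J := wp_suf cs hy (A03c_mem h)
  have hlen : cs.length y < cs.length δ := by
    rcases Nat.lt_or_ge (cs.length y) (cs.length δ) with h1 | h1
    · exact h1
    · exact absurd (suf_eq cs hy h1) hne
  obtain ⟨J', ε, hε, hf⟩ := av_attained cs L y
  have hfl := fac_len cs hf
  cases h with
  | one i =>
    rcases (wp_single cs).mp hyJ with h1 | h1
    · rw [h1, av_one]
      exact hL i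
    · exact absurd h1 hne
  | full i j h3 =>
    have hij := ne_of_three h3
    have hji : 3 ≤ M j i := by rw [M.symmetric j i]; exact h3
    rcases pair_spv cs L hE h3 hyJ hε hf with ⟨-, h1⟩ | ⟨-, h1⟩ | ⟨-, h1⟩ | ⟨h1, -⟩ |
      ⟨k, hk, hM, ⟨h4, -, h1⟩ | ⟨h4, -, h1⟩⟩
    · rw [h1]
      exact lt_of_lt_of_le (hL i) (A03c_one_lt hL i j h3).le
    · rw [h1]
      exact A03c_one_lt hL i j h3
    · rw [h1, sl_symm hE]
      exact A03c_one_lt hL j i h3
    · exfalso
      rw [h1] at hfl
      omega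
    · rw [h1, hM, sl_even]
      exact A03c_mid_full hk (hL j)
    · rw [h1, sl_symm hE, hM, sl_even]
      exact A03c_mid_full hk (hL i)
  | mid i j k hk hM hl =>
    have h3 : 3 ≤ M i j := by omega
    have hij := ne_of_three h3
    have hpos := A03c_mid_lt hk hl
    rcases pair_spv cs L hE h3 hyJ hε hf with ⟨-, h1⟩ | ⟨-, h1⟩ | ⟨-, h1⟩ | ⟨h1, -⟩ |
      ⟨k', hk', hM', ⟨h4, h1, -⟩ | ⟨h4, -, h1⟩⟩
    · rw [h1]
      omega
    · rw [h1]
      exact hpos
    · rw [h1]
      omega
    · exfalso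
      rw [h1, len_al cs hij (Or.inl le_rfl)] at hfl
      rw [len_al cs hij (Or.inl (by omega))] at hlen
      omega
    · exfalso
      have hkk : k' = k := by omega
      rw [h1, hkk] at hfl
      omega
    · omega

theorem spv_tgt (hL : ∀ i, 0 < L i) (hE : OddEq M L) {J : Set B} {δ : W} {n : ℕ}
    (h : SpV cs L J δ n) : Tgt cs L δ := by
  induction h with
  | nil =>
    intro y hy hne
    exact absurd (suf_eq cs hy (by rw [cs.length_one]; exact Nat.zero_le _)) hne
  | @cons J K δ ε n m ha hb hc ih =>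
    exact tgt_cm cs L hc (A03c_mem ha) (spv_mem hb) (atom_tgt hL hE ha) ih

theorem atom_suf_eq (hL : ∀ i, 0 < L i) (hE : OddEq M L) {J : Set B} {δ w : W} {n : ℕ}
    (h : Atom cs L J δ n) (hw : w ∈ WP cs J) (hs : Suf cs δ w) (ha : av cs L w = n) : w = δ := by
  have hsl := suf_len cs hs
  cases h with
  | one i =>
    rcases (wp_single cs).mp hw with h1 | h1
    · exfalso
      rw [h1, cs.length_one, cs.length_simple] at hsl
      omega
    · exact h1
  | full i j h3 =>
    have hij := ne_of_three h3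
    have h4 := pair_len_le cs hij (by omega) hw
    rw [len_al cs hij (Or.inl le_rfl)] at hsl
    exact pair_len_eq cs hij (by omega) hw (by omega)
  | mid i j k hk hM hl =>
    have h3 : 3 ≤ M i j := by omega
    have hij := ne_of_three h3
    have h4 := pair_len_le cs hij (by omega) hw
    have h5 : cs.length (al cs i j (2 * k - 1)) = 2 * k - 1 := len_al cs hij (Or.inl (by omega))
    rw [h5] at hsl
    rcases Nat.lt_or_ge (cs.length w) (2 * k) with h6 | h6
    · exact (suf_eq cs hs (by omega)).symm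
    · exfalso
      have h7 := pair_len_eq cs hij (by omega) hw (by omega)
      rw [h7, av_full cs L hE h3, hM, sl_even] at ha
      have h8 := A03c_mid_full (a := L i) (b := L j) hk (hL j)
      omega

theorem spv_suf_eq (hL : ∀ i, 0 < L i) (hE : OddEq M L) {J : Set B} {δ w : W} {n : ℕ}
    (h : SpV cs L J δ n) (hw : w ∈ WP cs J) (hs : Suf cs δ w) (ha : av cs L w = n) : w = δ := by
  induction h generalizing w with
  | nil =>
    have h1 := (wp_iff_spt cs).mp hw
    exact spt_empty cs (Set.subset_empty_iff.mp h1)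
  | @cons J K δ ε n m hat hb hc ih =>
    obtain ⟨p, hp, q, hq, rfl⟩ := (cm_union cs hc).mp hw
    obtain ⟨p', hp', q', hq', e, h1, h2⟩ := cm_suf cs hc hp hq hs
    obtain ⟨e1, e2⟩ := cm_uniq cs hc (A03c_mem hat) (spv_mem hb) hp' hq' e
    rw [← e1] at h1
    rw [← e2] at h2
    have h3 := av_mono cs L (fac_suf cs h1)
    have h4 := av_mono cs L (fac_suf cs h2)
    rw [atom_av hE hat] at h3
    rw [spv_av hE hb] at h4
    rw [av_cm cs L hc hp hq] at ha
    rw [atom_suf_eq hL hE hat hp h1 (by omega), ih hq h2 (by omega)]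

end Pool.Agent.Lib.KLT
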