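import Pool.Agent.Lib.MP_754fa1_al.T.T03b

/-!
# T03. The trichotomy

`trich_in`: as in `trich_out`, but `s ∈ J`, `r ∉ J`, `{c, d} = {r, s}`. Then case B.
Proof. `m = M r s`, `w = al r s m`. `q ≠ 1`, `p ≠ 1`. `s` is not a left descent of `q` (`LM J y`, `ld_lm_iff`), so `r` is the only one, and
`q ≠ w`. `r` is not a right descent of `p` (no common descent; `rd_rm_iff`, `ld_lm_iff`). So `s` is the right descent of `p`,
`p ≠ w`, and `ℓ(p) ≥ 2` (if `p = s_s` then `p q` is reduced). So `r` is a right descent of `p s_s`, and of `x z s_s = g' (p s_s)`.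
`s` is a right descent of `x z` hence of `z` (`rd_rm_iff` for `J`). Let `z = z'' s_s` reduced; `x z''` is reduced. `r ∉ spt z''`, so
`peel_right`: `M r e ≠ 0` for all `e ∈ spt z''`. `spt z = spt z'' ∪ {s}`, so `M r e ≠ 0` for all `e ∈ J \ {s}`.
For `e ∈ J \ {s}`: `3 ≤ M s e` would give `M r e = 0` (`hM r s e`), a contradiction, so `M s e = 2` (`hJ`); `3 ≤ M r e` would give `M s e = 0`
(`hM s r e`), so `M r e = 2`. So `Cm {r, s} (J \ {s})`. By `split_iso` `z = s_s z'`, `z' ∈ WP K`, `K = J \ {s}`. Write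
`x = x₁ p₀` with respect to `{r, s}`. `x s_s = x₁ (p₀ s_s)`. `right_part` (`I = {r, s}`, `x s_s`, `z'`; `x z = (x s_s) z'` reduced) gives
`RM {r, s} (x₁ z')` and `x z = (x₁ z') (p₀ s_s)`; so by `rm_uniq` `p = p₀ s_s`. So `p₀ s_s q` is not reduced: case B with
`x₁, p₀, q, y₁ = y'`.

`trich`: `x z` is reduced. Apply `red_pair` to `g = x z`, `y`. First alternative: `trich_common`. Second: if there is a common
descent use `trich_common`. Otherwise: `c, d ∈ J` is impossible: `q ≠ 1` has a left descent in `{c, d} ⊆ J`, against `LM J y`. `c, d ∉ J`: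
`trich_out`. Exactly one of `c, d` in `J`: `trich_in` (`{c, d} = {d, c}`, `M.symmetric`).
-/

open Pool.Agent.Lib.MP_754fa1_al

namespace Pool.Agent.Lib.KLT

universe u v w

variable {B : Type u} {W : Type v} [Group W] {M : CoxeterMatrix B}

theorem trich_in (cs : CoxeterSystem M W) (hM : Tri M) {J : Set B} (hJ : Sph M J)
    {x y z : W} (hx : RM cs J x) (hy : LM cs J y) (hz : spt cs z = J) {r s : B}
    (hrs : 3 ≤ M r s) {g' p q y' : W} (e : x * z = g' * p) (hg : RM cs {r, s} g')
    (hp : p ∈ WP cs {r, s}) (e' : y = q * y') (hy' : LM cs {r, s} y') (hq : q ∈ WP cs {r, s})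
    (hpq : ¬ Rd cs p q) (hno : ∀ a, ¬ (cs.IsRightDescent (x * z) a ∧ cs.IsLeftDescent y a))
    (hr : r ∉ J) (hs : s ∈ J) : CaseB cs J x y := by
  have hrs' : r ≠ s := ne_of_three hrs
  have hrm : r ∈ ({r, s} : Set B) := Or.inl rfl
  have hsm : s ∈ ({r, s} : Set B) := Or.inr rfl
  have hq1 : q ≠ 1 := by
    rintro rfl
    exact hpq (by simp [Rd])
  have hp1 : p ≠ 1 := by
    rintro rfl
    exact hpq (by simp [Rd])
  have hsq : ¬ cs.IsLeftDescent q s := fun h => hy s hs (by
    rw [e']
    exact (ld_lm_iff cs hy' hq hsm).2 h)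
  have hrq : cs.IsLeftDescent q r := by
    obtain ⟨i, hi⟩ := cs.exists_leftDescent_of_ne_one hq1
    rcases ld_wp cs hq hi with h | h
    · rw [← h]
      exact hi
    · have h' : i = s := h
      rw [h'] at hi
      exact absurd hi hsq
  have hyr : cs.IsLeftDescent y r := by
    rw [e']
    exact (ld_lm_iff cs hy' hq hrm).2 hrq
  have hrp : ¬ cs.IsRightDescent p r := fun h => hno r ⟨by
    rw [e]
    exact (rd_rm_iff cs hg hp hrm).2 h, hyr⟩
  have hsp : cs.IsRightDescent p s := by
    obtain ⟨i, hi⟩ := cs.exists_rightDescent_of_ne_one hp1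
    rcases rd_wp cs hp hi with h | h
    · rw [h] at hi
      exact absurd hi hrp
    · have h' : i = s := h
      rw [← h']
      exact hi
  have hss : cs.simple s ∈ WP cs ({r, s} : Set B) := (simple_mem_wp cs).2 hsm
  have hps1 : p * cs.simple s ≠ 1 := by
    intro h
    have h1 : p = cs.simple s := by
      rw [mul_eq_one_iff_eq_inv, cs.inv_simple] at h
      exact h
    apply hpq
    have h2 := (cs.not_isLeftDescent_iff).1 hsq
    unfold Rd
    rw [h1, cs.length_simple, h2]
    omega
  have hpsm : p * cs.simple s ∈ WP cs ({r, s} : Set B) := mul_mem hp hss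
  have hsps : ¬ cs.IsRightDescent (p * cs.simple s) s := by
    intro h
    unfold CoxeterSystem.IsRightDescent at h hsp
    rw [cs.simple_mul_simple_cancel_right] at h
    omega
  have hrps : cs.IsRightDescent (p * cs.simple s) r := by
    obtain ⟨i, hi⟩ := cs.exists_rightDescent_of_ne_one hps1
    rcases rd_wp cs hpsm hi with h | h
    · rw [← h]
      exact hi
    · have h' : i = s := h
      rw [h'] at hi
      exact absurd hi hsps
  have hzJ : z ∈ WP cs J := by
    rw [← hz]
    exact mem_wp_spt cs z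
  have hxz : Rd cs x z := rm_len cs hx hzJ
  have hsz : cs.IsRightDescent z s := by
    refine (rd_rm_iff cs hx hzJ hs).1 ?_
    rw [e]
    exact (rd_rm_iff cs hg hp hsm).2 hsp
  have hsz' : cs.length (z * cs.simple s) + 1 = cs.length z := (cs.isRightDescent_iff).1 hsz
  have hzz : z * cs.simple s * cs.simple s = z := cs.simple_mul_simple_cancel_right s
  have hR1 : Rd cs (z * cs.simple s) (cs.simple s) := by
    unfold Rd
    rw [hzz, cs.length_simple]
    omega
  have hzJ' : z * cs.simple s ∈ WP cs J := mul_mem hzJ ((simple_mem_wp cs).2 hs)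
  have hR2 : Rd cs x (z * cs.simple s) := rm_len cs hx hzJ'
  have hspt : spt cs z = spt cs (z * cs.simple s) ∪ {s} := by
    have h := spt_mul cs hR1
    rw [hzz, spt_simple] at h
    exact h
  have hr'' : r ∉ spt cs (z * cs.simple s) := by
    intro h
    apply hr
    rw [← hz, hspt]
    exact Or.inl h
  have hd'' : cs.IsRightDescent (x * (z * cs.simple s)) r := by
    rw [← mul_assoc, e, mul_assoc]
    exact (rd_rm_iff cs hg hpsm hrm).2 hrps
  have hre := (peel_right cs hR2 hr'' hd'').2
  have hcm : Cm M ({r, s} : Set B) (J \ {s}) := by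
    intro j hj k hk
    have hks : k ≠ s := hk.2
    have hkJ : k ∈ J := hk.1
    have hrk : r ≠ k := by
      rintro rfl
      exact hr hkJ
    have hk'' : k ∈ spt cs (z * cs.simple s) := by
      have h : k ∈ spt cs z := by
        rw [hz]
        exact hkJ
      rw [hspt] at h
      rcases h with h | h
      · exact h
      · exact absurd h hks
    have h0 : M r k ≠ 0 := hre k hk''
    have h1 : M r k ≠ 1 := M.off_diagonal r k hrk
    have h2 : M s k ≠ 0 := hJ s hs k hkJ
    have h3 : M s k ≠ 1 := M.off_diagonal s k (Ne.symm hks)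
    have h4 : ¬ 3 ≤ M s k := fun h => h0 (hM r s k hrs' (Ne.symm hks) hrk hrs h)
    have h5 : ¬ 3 ≤ M r k := fun h => h2 (hM s r k (Ne.symm hrs') hrk (Ne.symm hks)
      (by rw [M.symmetric]; exact hrs) h)
    rcases hj with hj | hj
    · rw [hj]
      omega
    · have hj' : j = s := hj
      rw [hj']
      omega
  have hcs : Cm M ({s} : Set B) (J \ {s}) :=
    cm_mono hcm (fun a ha => Or.inr ha) (fun a ha => ha)
  obtain ⟨z', hz'm, hz'e, -⟩ := split_iso cs hs hcs hz
  obtain ⟨x₁, p₀, hx₀, hx₁, hp₀⟩ := rm_exists cs ({r, s} : Set B) x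
  have hl1 : cs.length (x * cs.simple s) = cs.length x + 1 := by
    have h := rm_len cs hx ((simple_mem_wp cs).2 hs)
    unfold Rd at h
    rw [cs.length_simple] at h
    exact h
  have hl2 : cs.length z = 1 + cs.length z' := by
    have h := cm_rd cs hcs ((simple_mem_wp cs).2 rfl : cs.simple s ∈ WP cs ({s} : Set B)) hz'm
    unfold Rd at h
    rw [cs.length_simple, ← hz'e] at h
    exact h
  have hR3 : Rd cs (x * cs.simple s) z' := by
    unfold Rd at hxz ⊢
    rw [hl1, mul_assoc, ← hz'e, hxz, hl2]
    omega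
  have hex : x * cs.simple s = x₁ * (p₀ * cs.simple s) := by
    rw [hx₀, mul_assoc]
  obtain ⟨h1, h2⟩ := right_part cs hcm hz'm hR3 hex hx₁ (mul_mem hp₀ hss)
  have h3 : g' * p = (x₁ * z') * (p₀ * cs.simple s) := by
    rw [← h2, mul_assoc, ← hz'e, e]
  have h4 := (rm_uniq cs hg h1 hp (mul_mem hp₀ hss) h3).2
  refine ⟨r, s, x₁, p₀, q, y', hs, hr, hrs, hcm, hx₀, hx₁, hp₀, e', hy', hq, ?_⟩
  rw [← h4]
  exact hpq

/-- the trichotomy -/
theorem trich (cs : CoxeterSystem M W) (hM : Tri M) {J : Set B} (hJ : Sph M J)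
    {x y z : W} (hx : RM cs J x) (hy : LM cs J y) (hz : spt cs z = J)
    (h : ¬ Rd cs (x * z) y) : CaseA cs J x y ∨ CaseB cs J x y := by
  rcases red_pair cs hM h with ⟨c, hc, hc'⟩ | ⟨c, d, hcd, g', p, q, y', e, hg, hp, e', hy', hq, hpq⟩
  · exact trich_common cs hM hJ hx hy hz hc hc'
  · by_cases hno : ∃ a, cs.IsRightDescent (x * z) a ∧ cs.IsLeftDescent y a
    · obtain ⟨a, ha, ha'⟩ := hno
      exact trich_common cs hM hJ hx hy hz ha ha'
    · have hno' : ∀ a, ¬ (cs.IsRightDescent (x * z) a ∧ cs.IsLeftDescent y a) :=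
        fun a ha => hno ⟨a, ha⟩
      by_cases hc : c ∈ J
      · by_cases hd : d ∈ J
        · exfalso
          have hq1 : q ≠ 1 := by
            rintro rfl
            exact hpq (by simp [Rd])
          obtain ⟨i, hi⟩ := cs.exists_leftDescent_of_ne_one hq1
          have him := ld_wp cs hq hi
          have hiJ : i ∈ J := by
            rcases him with h | h
            · rw [h]
              exact hc
            · have h' : i = d := h
              rw [h']
              exact hd
          exact hy i hiJ (by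
            rw [e']
            exact (ld_lm_iff cs hy' hq him).2 hi)
        · right
          have hpair : ({c, d} : Set B) = {d, c} := Set.pair_comm c d
          rw [hpair] at hg hp hy' hq
          exact trich_in cs hM hJ hx hy hz (by rw [M.symmetric]; exact hcd) e hg hp e' hy' hq hpq
            hno' hd hc
      · by_cases hd : d ∈ J
        · right
          exact trich_in cs hM hJ hx hy hz hcd e hg hp e' hy' hq hpq hno' hc hd
        · left
          exact trich_out cs hM hx hz hcd e hg hp e' hy' hq hpq hno' hc hd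

end Pool.Agent.Lib.KLT
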