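import Pool.Agent.Lib.MP_754fa1_al.T.A03c
import Pool.Agent.Lib.MP_754fa1_al.T.T03

/-!
# A04b. Cases A and B do not occur for tight elements

`no_caseA`: `x = x₁ p`, `p ≠ 1` (else `p q` is reduced), `p ∈ WP J'`, `Cm J' J`; `p δ` is a suffix of `x δ`: `ℓ(x δ) = ℓ(x) + ℓ(δ) = ℓ(x₁) + ℓ(p) + ℓ(δ)`
(`rm_len` twice), so `n = av (x δ) ≥ av (p δ) = av p + av δ = av p + n > n` (`av_cm`, `spv_av`, `av_pos`).

`no_caseB`: `K = J \ {s}`, `Cm {r, s} K`. `spv_iso`: `δ = s_s δ'`, `SpV K δ' n'`, `n = L s + n'`. `s` is not a right descent of `p` (`RM J x`, `rd_rm_iff`), not a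
left descent of `q` (`LM J y`).
(1) `p s_s δ'` is a suffix of `x δ` (lengths: `ℓ(x δ) = ℓ(x₁) + ℓ(p) + 1 + ℓ(δ')`), so `av (p s_s) + n' = av (p s_s δ') ≤ n`, `av (p s_s) ≤ L s`.
(2) `δ' q y₁ = s_s u` is a proper suffix of `u = δ y = s_s δ' q y₁` (`s` is a left descent of `δ`, so of `u`; lengths), so its value is `< n`; `δ' q` is a
factor of it (`LM {r,s} y₁` and `LM K y₁` by `cm_lm'`, so `Rd (δ' q) y₁`), so `n' + av q < n`, `av q < L s`.
`q ≠ 1` (`p s_s` times `1` is reduced). So `q` has a left descent in `{r, s}`, which is `r`, and `s ∉ spt q` by `av_ge_of_spt` and (2). So `q = s_r`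
(`wp_single`, `wp_iff_spt`). `p s_s s_r` is not reduced, so `r` is a right descent of `p s_s`; `s` is one too. So `p s_s = al r s m`
(`wp_two_ld` for the inverse, `al_top_inv`), `av (p s_s) = sl L r s m > L s` (`av_full`, `sl_symm`, `sl_lt`), against (1).
-/

open Pool.Agent.Lib.MP_754fa1_al

namespace Pool.Agent.Lib.KLT

universe u v w

variable {B : Type u} {W : Type v} [Group W] {M : CoxeterMatrix B}
variable [Finite B] {cs : CoxeterSystem M W} {L : B → ℕ}

theorem no_caseA (hL : ∀ i, 0 < L i) (hE : OddEq M L) {J : Set B} {δ y x : W} {n : ℕ}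
    (h : SpV cs L J δ n) (hx : RM cs J x) (ha : av cs L (x * δ) = n) : ¬ CaseA cs J x y := by
  rintro ⟨J', x₁, p, q, y₁, _, hc, ex, hx₁, hp, _, _, _, hpq⟩
  have hp1 : p ≠ 1 := by
    rintro rfl
    exact hpq (by simp [Rd])
  have hδ : δ ∈ WP cs J := spv_mem h
  have l1 : Rd cs x δ := rm_len cs hx hδ
  have l2 : Rd cs x₁ p := rm_len cs hx₁ hp
  have l3 : Rd cs p δ := cm_rd cs hc hp hδ
  have hsuf : Suf cs (p * δ) (x * δ) := by
    refine (suf_iff cs _ _).2 ⟨x₁, by rw [ex, mul_assoc], ?_⟩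
    unfold Rd at l1 l2 l3
    rw [← ex] at l2
    omega
  have h1 := av_mono cs L (fac_suf cs hsuf)
  rw [av_cm cs L hc hp hδ, spv_av hE h, ha] at h1
  have h2 := av_pos cs L hL hp1
  omega

theorem no_caseB (hL : ∀ i, 0 < L i) (hE : OddEq M L) {J : Set B} {δ y x : W} {n : ℕ}
    (h : SpV cs L J δ n) (hx : RM cs J x) (hy : LM cs J y) (ha : av cs L (x * δ) = n)
    (hu : Tgt cs L (δ * y)) (hau : av cs L (δ * y) = n) : ¬ CaseB cs J x y := by
  rintro ⟨r, s, x₁, p, q, y₁, hs, hr, h3, hc, ex, hx₁, hp, ey, hy₁, hq, hpq⟩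
  have hrs : r ≠ s := ne_of_three h3
  have hrm : r ∈ ({r, s} : Set B) := Or.inl rfl
  have hsm : s ∈ ({r, s} : Set B) := Or.inr rfl
  have hcs : Cm M {s} (J \ {s}) := cm_mono hc (by
    intro a ha
    exact Or.inr ha) le_rfl
  obtain ⟨δ', n', eδ, h', en⟩ := spv_iso h hs hcs
  have hδ : δ ∈ WP cs J := spv_mem h
  have hδ' : δ' ∈ WP cs (J \ {s}) := spv_mem h'
  have hss : cs.simple s ∈ WP cs ({r, s} : Set B) := (simple_mem_wp cs).2 hsm
  have hps : p * cs.simple s ∈ WP cs ({r, s} : Set B) := mul_mem hp hss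
  have hsp : ¬ cs.IsRightDescent p s := by
    intro h1
    apply hx s hs
    rw [ex]
    exact (rd_rm_iff cs hx₁ hp hsm).2 h1
  have lps : cs.length (p * cs.simple s) = cs.length p + 1 := (cs.not_isRightDescent_iff).1 hsp
  have l1 : Rd cs x δ := rm_len cs hx hδ
  have l2 : Rd cs x₁ p := rm_len cs hx₁ hp
  have l3 : Rd cs (cs.simple s) δ' := cm_rd cs hcs ((simple_mem_wp cs).2 rfl) hδ'
  have l4 : Rd cs (p * cs.simple s) δ' := cm_rd cs hc hps hδ'
  unfold Rd at l1 l2 l3 l4
  rw [← ex] at l2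
  rw [← eδ, cs.length_simple] at l3
  -- (1)
  have h1 : av cs L (p * cs.simple s) ≤ L s := by
    have hsuf : Suf cs (p * cs.simple s * δ') (x * δ) := by
      refine (suf_iff cs _ _).2 ⟨x₁, ?_, ?_⟩
      · rw [ex, eδ]
        simp only [mul_assoc]
      · omega
    have h2 := av_mono cs L (fac_suf cs hsuf)
    rw [av_cm cs L hc hps hδ', spv_av hE h', ha] at h2
    omega
  -- (2)
  have h2 : av cs L q < L s := by
    have hds : cs.IsLeftDescent δ s := by
      unfold CoxeterSystem.IsLeftDescent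
      rw [eδ, cs.simple_mul_simple_cancel_left, ← eδ]
      omega
    have hdu : cs.IsLeftDescent (δ * y) s := (ld_lm_iff cs hy hδ hs).2 hds
    have hne : cs.simple s * (δ * y) ≠ δ * y := by
      intro h4
      unfold CoxeterSystem.IsLeftDescent at hdu
      rw [h4] at hdu
      exact lt_irrefl _ hdu
    have h4 := hu _ (suf_simple cs hdu) hne
    rw [hau] at h4
    have e1 : cs.simple s * (δ * y) = δ' * q * y₁ := by
      rw [eδ, ey]
      simp only [mul_assoc]
      rw [cs.simple_mul_simple_cancel_left]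
    rw [e1] at h4
    have hyK : LM cs (J \ {s}) y := fun j hj => hy j hj.1
    have hy₁' : LM cs ({r, s} ∪ (J \ {s})) y₁ := cm_lm' cs hc hyK ey hy₁ hq
    have hm : δ' * q ∈ WP cs ({r, s} ∪ (J \ {s})) :=
      mul_mem (wp_mono cs Set.subset_union_right hδ') (wp_mono cs Set.subset_union_left hq)
    have h5 := av_mono cs L (fac_left cs (lm_len cs hy₁' hm))
    rw [← cm_comm cs hc hq hδ', av_cm cs L hc hq hδ', spv_av hE h', cm_comm cs hc hq hδ'] at h5
    omega
  -- (3)
  have hq1 : q ≠ 1 := by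
    rintro rfl
    exact hpq (by simp [Rd])
  have hsq : s ∉ spt cs q := fun h4 => absurd (av_ge_of_spt cs L h4) (not_le.2 h2)
  have hqr : q = cs.simple r := by
    have h4 : q ∈ WP cs {r} := by
      rw [wp_iff_spt]
      intro a ha
      rcases (wp_iff_spt cs).1 hq ha with h5 | h5
      · exact h5
      · rw [Set.mem_singleton_iff.1 h5] at ha
        exact absurd ha hsq
    exact ((wp_single cs).1 h4).resolve_left hq1
  have hdr : cs.IsRightDescent (p * cs.simple s) r := by
    by_contra h4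
    apply hpq
    have h5 := (cs.not_isRightDescent_iff).1 h4
    unfold Rd
    rw [hqr, cs.length_simple]
    exact h5
  have hds : cs.IsRightDescent (p * cs.simple s) s := by
    unfold CoxeterSystem.IsRightDescent
    rw [cs.simple_mul_simple_cancel_right]
    omega
  have hm0 : M r s ≠ 0 := by omega
  have htop : p * cs.simple s = al cs r s (M r s) := by
    by_contra h4
    have h5 : p * cs.simple s ≠ 1 := by
      intro h6
      rw [h6, cs.length_one] at lps
      omega
    rcases pair_rd_unique cs hrs hm0 hps h5 h4 with ⟨_, h6⟩ | ⟨h6, _⟩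
    · exact h6 hds
    · exact h6 hdr
  rw [htop, av_full cs L hE h3, sl_symm hE] at h1
  have h4 := sl_lt hL s r (k := 1) (l := M r s) (by omega)
  have h5 : sl L s r 1 = L s := rfl
  omega

end Pool.Agent.Lib.KLT
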