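import Pool.Agent.Lib.MP_754fa1_al.T.A04a
import Pool.Agent.Lib.MP_754fa1_al.T.A04b

/-!
# A04. Reducedness for tight elements

`tight_red`: `trich` with `no_caseA`, `no_caseB`.
-/

open Pool.Agent.Lib.MP_754fa1_al

namespace Pool.Agent.Lib.KLT

universe u v w

variable {B : Type u} {W : Type v} [Group W] {M : CoxeterMatrix B}
variable [Finite B] {cs : CoxeterSystem M W} {L : B → ℕ}

theorem tight_red (hL : ∀ i, 0 < L i) (hE : OddEq M L) (hM : Tri M) {J : Set B} {δ y x : W}
    {n : ℕ} (h : SpV cs L J δ n) (hx : RM cs J x) (hy : LM cs J y) (ha : av cs L (x * δ) = n)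
    (hu : Tgt cs L (δ * y)) (hau : av cs L (δ * y) = n) {z : W} (hz : spt cs z = J) :
    Rd cs (x * z) y := by
  by_contra hcon
  rcases trich cs hM (spv_sph h) hx hy hz hcon with hA | hB
  · exact no_caseA hL hE h hx ha hA
  · exact no_caseB hL hE h hx hy ha hu hau hB

end Pool.Agent.Lib.KLT
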