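import Pool.Agent.Lib.MP_754fa1_al.T.A03c
import Pool.Agent.Lib.MP_754fa1_al.T.T03

/-!
# A04a. The form of tight elements

`tgt_form`: `av_attained`: `SpV J δ n`, `n = av u`, `u = p δ q` with lengths adding. The suffix `δ q` has `av (δ q) ≥ n = av u`, so by `Tgt`
`δ q = u`, `p = 1`. `LM J q`: if `j ∈ J` is a left descent of `q`, `q = s_j q'`, then `δ s_j` is reduced (`u = δ s_j q'` reduced), so `j` is
not a right descent of `δ`, hence not a left descent (`δ⁻¹ = δ`, `spv_inv`); `upgrade`: `SpV J (δ s_j) n'`, `n < n'`, and `δ s_j` is a factor of `u`, so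
`n' ≤ av u = n`, a contradiction.

`ext_form`: `u = δ y`, `SpV J δ n`, `LM J y`, `x u` reduced, `av (x u) = n`. Then `RM J x` and `av (x δ) = n`. If `j ∈ J` is a right descent of `x`,
`x = x' s_j`: `j` is not a left descent of `u` (`x u` reduced), so not of `δ` (`u = δ y` reduced, `lm_len`); `upgrade` : `SpV J (s_j δ) n'`,
`n < n'`; `x u = x' (s_j δ) y` with lengths adding, so `n' ≤ av (x u) = n`, a contradiction. `x δ` is a factor of `x u` and `δ` of `x δ`
(`spv_av`: only `≤`/`≥` needed: `spv_le_av`).
-/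

open Pool.Agent.Lib.MP_754fa1_al

namespace Pool.Agent.Lib.KLT

universe u v w

variable {B : Type u} {W : Type v} [Group W] {M : CoxeterMatrix B}
variable [Finite B] {cs : CoxeterSystem M W} {L : B → ℕ}

theorem tgt_form (hL : ∀ i, 0 < L i) {u : W} (h : Tgt cs L u) :
    ∃ (J : Set B) (δ y : W), SpV cs L J δ (av cs L u) ∧ u = δ * y ∧ LM cs J y := by
  obtain ⟨J, δ, hδ, p, q, hu, hl⟩ := av_attained cs L u
  have l1 := cs.length_mul_le p (δ * q)
  have l2 := cs.length_mul_le δ q
  rw [← mul_assoc, ← hu] at l1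
  have hs : Suf cs (δ * q) u := by
    unfold Suf
    have e1 : u * (δ * q)⁻¹ = p := by rw [hu]; group
    rw [e1]
    omega
  have hF : Fac cs δ (δ * q) := ⟨1, q, by rw [one_mul], by rw [cs.length_one]; omega⟩
  have e2 : δ * q = u := by
    by_contra hne
    have h1 := h _ hs hne
    have h2 := spv_le_av cs L hδ hF
    omega
  refine ⟨J, δ, q, hδ, e2.symm, fun j hj hd => ?_⟩
  have h1 := cs.isLeftDescent_iff.1 hd
  have l3 : cs.length u = cs.length δ + cs.length q := by rw [← e2] at *; omega
  have e3 : u = δ * cs.simple j * (cs.simple j * q) := by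
    rw [← e2, mul_assoc, ← mul_assoc (cs.simple j), cs.simple_mul_simple_self, one_mul]
  have l4 := cs.length_mul_le (δ * cs.simple j) (cs.simple j * q)
  rw [← e3] at l4
  have l5 := cs.length_mul_le δ (cs.simple j)
  rw [cs.length_simple] at l5
  have hnd : ¬ cs.IsLeftDescent δ j := by
    intro h2
    rw [← spv_inv hδ, cs.isLeftDescent_inv_iff] at h2
    have h3 := cs.isRightDescent_iff.1 h2
    omega
  obtain ⟨n', hn, hsp, hcomm⟩ := upgrade hL hδ hj hnd
  have hF' : Fac cs (cs.simple j * δ) u := by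
    refine ⟨1, cs.simple j * q, ?_, ?_⟩
    · rw [one_mul, hcomm]; exact e3
    · rw [cs.length_one, hcomm]; omega
  have h4 := spv_le_av cs L hsp hF'
  omega

theorem ext_form (hL : ∀ i, 0 < L i) {J : Set B} {δ y x : W} {n : ℕ} (h : SpV cs L J δ n)
    (hy : LM cs J y) (hr : Rd cs x (δ * y)) (ha : av cs L (x * (δ * y)) = n) :
    RM cs J x ∧ av cs L (x * δ) = n := by
  have l1 : cs.length (δ * y) = cs.length δ + cs.length y := lm_len cs hy (spv_mem h)
  have l2 : cs.length (x * (δ * y)) = cs.length x + cs.length (δ * y) := hr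
  constructor
  · intro j hj hd
    have h1 := cs.isRightDescent_iff.1 hd
    have e1 : x * (δ * y) = x * cs.simple j * (cs.simple j * δ) * y := by
      rw [mul_assoc x, ← mul_assoc (cs.simple j), cs.simple_mul_simple_self, one_mul, mul_assoc]
    have l3 := cs.length_mul_le (x * cs.simple j * (cs.simple j * δ)) y
    have l4 := cs.length_mul_le (x * cs.simple j) (cs.simple j * δ)
    have l5 := cs.length_mul_le (cs.simple j) δ
    rw [cs.length_simple] at l5
    rw [← e1] at l3
    have hnd : ¬ cs.IsLeftDescent δ j := by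
      intro h2
      have h3 := cs.isLeftDescent_iff.1 h2
      omega
    obtain ⟨n', hn, hsp, -⟩ := upgrade hL h hj hnd
    have hF : Fac cs (cs.simple j * δ) (x * (δ * y)) :=
      ⟨x * cs.simple j, y, e1, by omega⟩
    have h4 := spv_le_av cs L hsp hF
    omega
  · have l3 := cs.length_mul_le (x * δ) y
    have l4 := cs.length_mul_le x δ
    rw [mul_assoc] at l3
    have hr1 : Rd cs (x * δ) y := by
      unfold Rd
      rw [mul_assoc]
      omega
    have hr2 : Rd cs x δ := by
      unfold Rd
      omega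
    have h1 := av_mono cs L (fac_left cs hr1)
    rw [mul_assoc, ha] at h1
    exact le_antisymm h1 (spv_le_av cs L h (fac_right cs hr2))

end Pool.Agent.Lib.KLT
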