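import Pool.Agent.Lib.MP_754fa1_al.OP

/-!
# Definitions for the class `Tri`

The weight function is `L : B → ℕ`; `m i j = M i j`, `0` means infinity.
-/

open LaurentPolynomial
open Pool.Agent.Lib.MP_754fa1_al

namespace Pool.Agent.Lib.KLT

universe u v w

variable {B : Type u} {W : Type v} [Group W] {M : CoxeterMatrix B}

/-- The class of Coxeter systems: if `3 ≤ m r s < ∞` and `3 ≤ m s t < ∞` with `r, s, t` distinct,
then `m r t = ∞`. -/
def Tri (M : CoxeterMatrix B) : Prop :=
  ∀ r s t : B, r ≠ s → s ≠ t → r ≠ t → 3 ≤ M r s → 3 ≤ M s t → M r t = 0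

/-- `L` is equal at the two ends of an edge with odd label. -/
def OddEq (M : CoxeterMatrix B) (L : B → ℕ) : Prop := ∀ i j : B, Odd (M i j) → L i = L j

/-- the alternating product of `k` letters starting with `i` -/
def al (cs : CoxeterSystem M W) : B → B → ℕ → W
  | _, _, 0 => 1
  | i, j, k + 1 => cs.simple i * al cs j i k

/-- the weight of the alternating word with `k` letters starting with `i` -/
def sl (L : B → ℕ) : B → B → ℕ → ℕ
  | _, _, 0 => 0
  | i, j, k + 1 => L i + sl L j i k

/-- the two sets of generators commute (`m j k = 2`) -/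
def Cm (M : CoxeterMatrix B) (J K : Set B) : Prop := ∀ j ∈ J, ∀ k ∈ K, M j k = 2

/-- all labels in `J` are finite -/
def Sph (M : CoxeterMatrix B) (J : Set B) : Prop := ∀ i ∈ J, ∀ j ∈ J, M i j ≠ 0

/-- the parabolic subgroup -/
def WP (cs : CoxeterSystem M W) (J : Set B) : Subgroup W := Subgroup.closure (cs.simple '' J)

/-- no right descent in `J` -/
def RM (cs : CoxeterSystem M W) (J : Set B) (x : W) : Prop := ∀ j ∈ J, ¬ cs.IsRightDescent x j

/-- no left descent in `J` -/
def LM (cs : CoxeterSystem M W) (J : Set B) (x : W) : Prop := ∀ j ∈ J, ¬ cs.IsLeftDescent x j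

/-- the support of `x` -/
def spt (cs : CoxeterSystem M W) (x : W) : Set B := {i | x ∉ WP cs {i}ᶜ}

/-- the product `x y` is reduced -/
def Rd (cs : CoxeterSystem M W) (x y : W) : Prop :=
  cs.length (x * y) = cs.length x + cs.length y

/-- `δ` is a reduced factor of `x` -/
def Fac (cs : CoxeterSystem M W) (δ x : W) : Prop :=
  ∃ p q : W, x = p * δ * q ∧ cs.length x = cs.length p + cs.length δ + cs.length q

/-- the atoms: a generator `s_i` with value `L i`, the longest element of a finite dihedral
parabolic subgroup with value its weight, and for `m i j = 2 k`, `L j < L i` the element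
`s_i s_j ... s_i` with `2 k - 1` letters with value `k L i - (k - 1) L j` -/
inductive Atom (cs : CoxeterSystem M W) (L : B → ℕ) : Set B → W → ℕ → Prop
  | one (i : B) : Atom cs L {i} (cs.simple i) (L i)
  | full (i j : B) (h : 3 ≤ M i j) : Atom cs L {i, j} (al cs i j (M i j)) (sl L i j (M i j))
  | mid (i j : B) (k : ℕ) (hk : 2 ≤ k) (hM : M i j = 2 * k) (hL : L j < L i) :
      Atom cs L {i, j} (al cs i j (2 * k - 1)) (k * L i - (k - 1) * L j)

/-- products of commuting atoms: `SpV cs L J δ n`: `δ` has support `J` and value `n` -/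
inductive SpV (cs : CoxeterSystem M W) (L : B → ℕ) : Set B → W → ℕ → Prop
  | nil : SpV cs L ∅ 1 0
  | cons {J K : Set B} {δ ε : W} {n m : ℕ} (h : Atom cs L J δ n) (h' : SpV cs L K ε m)
      (hc : Cm M J K) : SpV cs L (J ∪ K) (δ * ε) (n + m)

/-- the value of `x`: the maximal value of a special factor of `x` -/
noncomputable def av (cs : CoxeterSystem M W) (L : B → ℕ) (x : W) : ℕ :=
  sSup {n | ∃ (J : Set B) (δ : W), SpV cs L J δ n ∧ Fac cs δ x}

/-- every proper suffix has smaller value -/
def Tgt (cs : CoxeterSystem M W) (L : B → ℕ) (x : W) : Prop :=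
  ∀ y, Suf cs y x → y ≠ x → av cs L y < av cs L x

/-- `w` has a suffix with the same value which is a suffix of `q` -/
def Cs (cs : CoxeterSystem M W) (L : B → ℕ) (w q : W) : Prop :=
  ∃ u, Suf cs u w ∧ Suf cs u q ∧ av cs L u = av cs L w

/-- some suffix `u` of `w` with the same value has `av (u y) < m` -/
def Cy (cs : CoxeterSystem M W) (L : B → ℕ) (m : ℕ) (w y : W) : Prop :=
  ∃ u, Suf cs u w ∧ av cs L u = av cs L w ∧ av cs L (u * y) < m

section algebra

variable {cs : CoxeterSystem M W} {L : B → ℕ} {H : Type w} [Ring H] [Algebra Lau H]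

/-- the span of the `C_z` with `av z > m` -/
noncomputable def Ia (D : KL cs L H) (m : ℕ) : Submodule Lau H :=
  Submodule.span Lau (D.c '' {z | m < av cs L z})

/-- `h ∈ v^n Λ + I_{>m}` -/
def Gd (D : KL cs L H) (m : ℕ) (n : ℤ) (h : H) : Prop :=
  ∃ k ∈ Ia D m, D.Lat n (h - k)

/-- `h` is a combination of `C_w`, `w ∈ W_J`, with coefficients of degree at most `av w`, and
those `w` for which the coefficient has degree exactly `av w` satisfy `P` -/
def LL (D : KL cs L H) (J : Set B) (P : W → Prop) (h : H) : Prop :=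
  ∀ w, (w ∉ WP cs J → D.cB.repr h w = 0) ∧ DegLe (av cs L w) (D.cB.repr h w) ∧
    ((D.cB.repr h w).coeff (av cs L w) ≠ 0 → P w)

open Classical in
/-- the part of `h` on the `T_z` with support `K` -/
noncomputable def tr (D : Hecke cs L H) (K : Set B) : H →ₗ[Lau] H :=
  D.t.constr ℕ (fun z => if spt cs z = K then D.t z else 0)

/-- all standard coordinates outside `W_J` are zero -/
def HP (D : Hecke cs L H) (J : Set B) (h : H) : Prop := ∀ z, z ∉ WP cs J → D.t.repr h z = 0

end algebra

end Pool.Agent.Lib.KLT
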