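import Pool.Agent.Lib.MP_754fa1_al.G1a
import Pool.Agent.Lib.MP_754fa1_al.T.Def

/-!
# C01. The exchange property for every Coxeter system

Proof. Copy `G1a.lean` (same library, right-angled case); only `g1_liftable` needs a new proof. For
`i j` with `m = M i j > 0` put `ρ = s_i s_j` and, for fixed `t`, `f p = if t = s_j * ρ ^ p then 1 else 0
: ZMod 2`. By induction on `k`
`(g1perm cs i * g1perm cs j) ^ k (t, e) = (ρ ^ k * t * (ρ ^ k)⁻¹, e + ∑ p ∈ range (2 * k), f p)`:
`g1ind cs j (ρ^k t ρ^{-k}) = 1` iff `ρ^k t ρ^{-k} = s_j` iff `t = ρ^{-k} s_j ρ^k = s_j ρ^{2k}`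
(as `s_j ρ s_j = ρ⁻¹`), and `g1ind cs i (s_j ρ^k t ρ^{-k} s_j) = 1` iff `t = s_j ρ^{2k+1}`. For `k = m`:
`ρ ^ m = 1` (`cs.simple_mul_simple_pow`), `f (p + m) = f p`, so the sum over `range (2 m)` is
`∑ p ∈ range m, (f p + f p) = 0`. For `M i j = 0` the power is `1`. The definitions `g1ind`, `g1perm` of
`G1a` need no hypothesis on `M` and can be used; `g1_count`, `simple_mem_ris`, `exch_right`,
`exch_left` use the hypothesis only through `g1_liftable`.

`fold`: take a reduced word `ω` of `x`; `ω ++ [j]` is a reduced word of `x s_j` (`h2`); by `exch_left`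
`s_i x s_j` is the product of `(ω ++ [j]).eraseIdx k`; if `k < ω.length` then `s_i x` is the product
of `ω.eraseIdx k` and has length `< ℓ(x)`, against `h1`; if `k = ω.length` then `s_i x s_j = x`.

`exch_mul_right`: apply `exch_right` to the word `ω ++ ω'`, `ω`, `ω'` reduced words of `x`, `y`; if the
letter erased lies in `ω'` then `y s_i` is the product of `ω'.eraseIdx _`, so it is shorter than `y`; if it lies
in `ω` then `x' =` the product of `ω.eraseIdx k`. `exch_mul_left` is the mirror image.
-/

open LaurentPolynomial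
open Pool.Agent.Lib.MP_754fa1_al

namespace Pool.Agent.Lib.KLT

universe u v w

variable {B : Type u} {W : Type v} [Group W] {M : CoxeterMatrix B}

private theorem c01_srs (cs : CoxeterSystem M W) (i j : B) (k : ℕ) :
    ((cs.simple i * cs.simple j) ^ k)⁻¹ * cs.simple j
      = cs.simple j * (cs.simple i * cs.simple j) ^ k := by
  induction k with
  | zero => simp
  | succ k ih =>
    rw [pow_succ', mul_inv_rev, mul_inv_rev, cs.inv_simple, cs.inv_simple]
    calc ((cs.simple i * cs.simple j) ^ k)⁻¹ * (cs.simple j * cs.simple i) * cs.simple j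
        = (((cs.simple i * cs.simple j) ^ k)⁻¹ * cs.simple j) * (cs.simple i * cs.simple j) := by
          simp only [mul_assoc]
      _ = cs.simple j * ((cs.simple i * cs.simple j) ^ k * (cs.simple i * cs.simple j)) := by
          rw [ih, mul_assoc]
      _ = cs.simple j * (cs.simple i * cs.simple j * (cs.simple i * cs.simple j) ^ k) := by
          rw [← pow_succ, pow_succ']

private theorem c01_j (cs : CoxeterSystem M W) (i j : B) (k : ℕ) (t : W) :
    (cs.simple i * cs.simple j) ^ k * t * ((cs.simple i * cs.simple j) ^ k)⁻¹ = cs.simple j ↔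
      t = cs.simple j * (cs.simple i * cs.simple j) ^ (2 * k) := by
  rw [two_mul, pow_add, ← mul_assoc, ← c01_srs]
  generalize (cs.simple i * cs.simple j) ^ k = R
  constructor
  · intro h
    have h1 : t = R⁻¹ * (R * t * R⁻¹) * R := by group
    rw [h1, h]
  · rintro rfl
    group

private theorem c01_i (cs : CoxeterSystem M W) (i j : B) (k : ℕ) (t : W) :
    cs.simple j * ((cs.simple i * cs.simple j) ^ k * t * ((cs.simple i * cs.simple j) ^ k)⁻¹)
        * cs.simple j = cs.simple i ↔
      t = cs.simple j * (cs.simple i * cs.simple j) ^ (2 * k + 1) := by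
  have e1 : cs.simple j * (cs.simple i * cs.simple j) ^ (2 * k + 1)
      = ((cs.simple i * cs.simple j) ^ k)⁻¹ * (cs.simple j * cs.simple i * cs.simple j)
        * (cs.simple i * cs.simple j) ^ k := by
    rw [show 2 * k + 1 = k + 1 + k by ring, pow_add, pow_succ, ← mul_assoc, ← mul_assoc,
      ← c01_srs]
    simp only [mul_assoc]
  rw [e1]
  have e2 : ∀ u : W, cs.simple j * u * cs.simple j = cs.simple i ↔
      u = cs.simple j * cs.simple i * cs.simple j := by
    intro u
    constructor
    · intro h
      rw [← h]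
      simp [mul_assoc]
    · rintro rfl
      simp [mul_assoc]
  rw [e2]
  constructor
  · intro h
    rw [← h]
    group
  · rintro rfl
    group

open Classical in
private theorem c01_pow (cs : CoxeterSystem M W) (i j : B) (k : ℕ) (t : W) (e : ZMod 2) :
    ((g1perm cs i * g1perm cs j) ^ k) (t, e)
      = ((cs.simple i * cs.simple j) ^ k * t * ((cs.simple i * cs.simple j) ^ k)⁻¹,
        e + ∑ p ∈ Finset.range (2 * k),
          if t = cs.simple j * (cs.simple i * cs.simple j) ^ p then (1 : ZMod 2) else 0) := by
  induction k with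
  | zero => simp
  | succ k ih =>
    rw [pow_succ', Equiv.Perm.mul_apply, ih, Equiv.Perm.mul_apply, g1perm_apply, g1perm_apply]
    refine Prod.ext ?_ ?_
    · show cs.simple i * (cs.simple j * ((cs.simple i * cs.simple j) ^ k * t
          * ((cs.simple i * cs.simple j) ^ k)⁻¹) * cs.simple j) * cs.simple i
        = (cs.simple i * cs.simple j) ^ (k + 1) * t * ((cs.simple i * cs.simple j) ^ (k + 1))⁻¹
      rw [pow_succ' (cs.simple i * cs.simple j) k, mul_inv_rev (cs.simple i * cs.simple j),
        mul_inv_rev (cs.simple i) (cs.simple j), cs.inv_simple, cs.inv_simple]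
      simp only [mul_assoc]
    · show e + (∑ p ∈ Finset.range (2 * k),
          if t = cs.simple j * (cs.simple i * cs.simple j) ^ p then (1 : ZMod 2) else 0)
          + g1ind cs j ((cs.simple i * cs.simple j) ^ k * t
            * ((cs.simple i * cs.simple j) ^ k)⁻¹)
          + g1ind cs i (cs.simple j * ((cs.simple i * cs.simple j) ^ k * t
            * ((cs.simple i * cs.simple j) ^ k)⁻¹) * cs.simple j)
        = e + ∑ p ∈ Finset.range (2 * (k + 1)),
          if t = cs.simple j * (cs.simple i * cs.simple j) ^ p then (1 : ZMod 2) else 0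
      rw [show 2 * (k + 1) = 2 * k + 1 + 1 by ring, Finset.sum_range_succ, Finset.sum_range_succ]
      have h1 : g1ind cs j ((cs.simple i * cs.simple j) ^ k * t
            * ((cs.simple i * cs.simple j) ^ k)⁻¹)
          = if t = cs.simple j * (cs.simple i * cs.simple j) ^ (2 * k) then (1 : ZMod 2) else 0 := by
        unfold g1ind
        exact if_congr (c01_j cs i j k t) rfl rfl
      have h2 : g1ind cs i (cs.simple j * ((cs.simple i * cs.simple j) ^ k * t
            * ((cs.simple i * cs.simple j) ^ k)⁻¹) * cs.simple j)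
          = if t = cs.simple j * (cs.simple i * cs.simple j) ^ (2 * k + 1)
            then (1 : ZMod 2) else 0 := by
        unfold g1ind
        exact if_congr (c01_i cs i j k t) rfl rfl
      rw [h1, h2]
      ring

private theorem c01_liftable (cs : CoxeterSystem M W) : M.IsLiftable (g1perm cs) := by
  classical
  intro i j
  ext ⟨t, e⟩ : 1
  rw [c01_pow, cs.simple_mul_simple_pow]
  refine Prod.ext ?_ ?_
  · simp
  · show e + (∑ p ∈ Finset.range (2 * M i j),
          if t = cs.simple j * (cs.simple i * cs.simple j) ^ p then (1 : ZMod 2) else 0) = e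
    rw [two_mul, Finset.sum_range_add]
    have h : ∀ p : ℕ, (if t = cs.simple j * (cs.simple i * cs.simple j) ^ (M i j + p)
        then (1 : ZMod 2) else 0)
        = if t = cs.simple j * (cs.simple i * cs.simple j) ^ p then (1 : ZMod 2) else 0 := by
      intro p
      rw [pow_add, cs.simple_mul_simple_pow, one_mul]
    rw [Finset.sum_congr rfl (fun p _ => h p), zmod2_add_self, add_zero]

open Classical in
private theorem c01_count (cs : CoxeterSystem M W) (ω : List B) (t : W) (e : ZMod 2) :
    cs.lift ⟨g1perm cs, c01_liftable cs⟩ (cs.wordProd ω) (t, e)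
      = (cs.wordProd ω * t * (cs.wordProd ω)⁻¹, e + ((cs.rightInvSeq ω).count t : ZMod 2)) := by
  induction ω with
  | nil => simp
  | cons i ω ih =>
    rw [cs.wordProd_cons, map_mul, cs.lift_apply_simple]
    show g1perm cs i (cs.lift ⟨g1perm cs, c01_liftable cs⟩ (cs.wordProd ω) (t, e)) = _
    rw [ih, g1perm_apply]
    refine Prod.ext ?_ ?_
    · simp [mul_assoc]
    · show e + ((cs.rightInvSeq ω).count t : ZMod 2)
        + g1ind cs i (cs.wordProd ω * t * (cs.wordProd ω)⁻¹)
        = e + ((cs.rightInvSeq (i :: ω)).count t : ZMod 2)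
      rw [CoxeterSystem.rightInvSeq, List.count_cons, Nat.cast_add, add_assoc]
      congr 2
      unfold g1ind
      have h : cs.wordProd ω * t * (cs.wordProd ω)⁻¹ = cs.simple i
          ↔ (cs.wordProd ω)⁻¹ * cs.simple i * cs.wordProd ω = t := by
        constructor
        · intro h; rw [← h]; group
        · intro h; rw [← h]; group
      by_cases ht : cs.wordProd ω * t * (cs.wordProd ω)⁻¹ = cs.simple i
      · rw [if_pos ht, if_pos (by rw [beq_iff_eq]; exact h.mp ht)]; simp
      · rw [if_neg ht, if_neg (by rw [beq_iff_eq]; exact fun h' => ht (h.mpr h'))]; simp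

private theorem c01_mem (cs : CoxeterSystem M W) (ω : List B) (i : B)
    (hd : cs.IsRightDescent (cs.wordProd ω) i) : cs.simple i ∈ cs.rightInvSeq ω := by
  classical
  obtain ⟨ω', hω', hω'2⟩ := cs.exists_isReduced (cs.wordProd ω * cs.simple i)
  have hprod : cs.wordProd (ω'.concat i) = cs.wordProd ω := by
    rw [List.concat_eq_append, cs.wordProd_append, ← hω'2]
    simp
  have hred : cs.IsReduced (ω'.concat i) := by
    show cs.length (cs.wordProd (ω'.concat i)) = (ω'.concat i).length
    rw [hprod, List.length_concat, ← hω'.eq, ← hω'2]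
    exact ((cs.isRightDescent_iff).mp hd).symm
  have hmem : cs.simple i ∈ cs.rightInvSeq (ω'.concat i) := by
    rw [cs.rightInvSeq_concat]
    simp
  have hcount : (cs.rightInvSeq (ω'.concat i)).count (cs.simple i) = 1 :=
    List.count_eq_one_of_mem hred.nodup_rightInvSeq hmem
  have h1 := c01_count cs ω (cs.simple i) 0
  have h2 := c01_count cs (ω'.concat i) (cs.simple i) 0
  rw [hprod, h1] at h2
  have h3 := congrArg Prod.snd h2
  simp only [zero_add] at h3
  rw [hcount, Nat.cast_one] at h3
  by_contra hcon
  rw [List.count_eq_zero_of_not_mem hcon, Nat.cast_zero] at h3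
  exact absurd h3 (by decide)

theorem exch_right (cs : CoxeterSystem M W) (ω : List B) (hω : cs.IsReduced ω) (i : B)
    (hd : cs.IsRightDescent (cs.wordProd ω) i) :
    ∃ k, k < ω.length ∧ cs.wordProd ω * cs.simple i = cs.wordProd (ω.eraseIdx k) := by
  have h := c01_mem cs ω i hd
  obtain ⟨k, hk, hk2⟩ := List.mem_iff_getElem.mp h
  refine ⟨k, by simpa using hk, ?_⟩
  rw [← cs.wordProd_mul_getD_rightInvSeq ω k, List.getD_eq_getElem _ _ hk, hk2]

theorem exch_left (cs : CoxeterSystem M W) (ω : List B) (hω : cs.IsReduced ω) (i : B)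
    (hd : cs.IsLeftDescent (cs.wordProd ω) i) :
    ∃ k, k < ω.length ∧ cs.simple i * cs.wordProd ω = cs.wordProd (ω.eraseIdx k) := by
  have hd' : cs.IsRightDescent (cs.wordProd ω.reverse) i := by
    rw [cs.wordProd_reverse]
    exact cs.isRightDescent_inv_iff.mpr hd
  have h := c01_mem cs ω.reverse i hd'
  rw [cs.rightInvSeq_reverse, List.mem_reverse] at h
  obtain ⟨k, hk, hk2⟩ := List.mem_iff_getElem.mp h
  refine ⟨k, by simpa using hk, ?_⟩
  rw [← cs.getD_leftInvSeq_mul_wordProd ω k, List.getD_eq_getElem _ _ hk, hk2]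

private theorem c01_len (cs : CoxeterSystem M W) (ω : List B) {k : ℕ} (hk : k < ω.length) :
    cs.length (cs.wordProd (ω.eraseIdx k)) < ω.length := by
  refine lt_of_le_of_lt (cs.length_wordProd_le _) ?_
  rw [List.length_eraseIdx_of_lt hk]
  omega

theorem fold (cs : CoxeterSystem M W) {i j : B} {x : W} (h1 : ¬ cs.IsLeftDescent x i)
    (h2 : ¬ cs.IsRightDescent x j) (h3 : cs.IsLeftDescent (x * cs.simple j) i) :
    cs.simple i * x = x * cs.simple j := by
  obtain ⟨ω, hω, rfl⟩ := cs.exists_isReduced x
  have hp : cs.wordProd (ω ++ [j]) = cs.wordProd ω * cs.simple j := by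
    rw [cs.wordProd_append, cs.wordProd_singleton]
  have hr : cs.IsReduced (ω ++ [j]) := by
    show cs.length (cs.wordProd (ω ++ [j])) = (ω ++ [j]).length
    rw [hp, cs.not_isRightDescent_iff.mp h2, hω.eq]
    simp
  rw [← hp] at h3
  obtain ⟨k, hk, hk2⟩ := exch_left cs _ hr i h3
  rw [List.length_append, List.length_singleton] at hk
  rcases Nat.lt_or_ge k ω.length with h | h
  · exfalso
    rw [List.eraseIdx_append_of_lt_length h, hp, cs.wordProd_append, cs.wordProd_singleton,
      ← mul_assoc] at hk2
    have h4 := mul_right_cancel hk2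
    apply h1
    show cs.length (cs.simple i * cs.wordProd ω) < cs.length (cs.wordProd ω)
    rw [h4, hω.eq]
    exact c01_len cs ω h
  · have hkk : k = ω.length := by omega
    rw [List.eraseIdx_append_of_length_le h, hkk, Nat.sub_self] at hk2
    simp only [List.eraseIdx_cons_zero, List.append_nil] at hk2
    rw [hp, ← mul_assoc] at hk2
    calc cs.simple i * cs.wordProd ω
        = cs.simple i * cs.wordProd ω * cs.simple j * cs.simple j := by
          rw [cs.simple_mul_simple_cancel_right]
      _ = cs.wordProd ω * cs.simple j := by rw [hk2]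

theorem exch_mul_right (cs : CoxeterSystem M W) {x y : W} {i : B} (h : Rd cs x y)
    (hd : cs.IsRightDescent (x * y) i) :
    cs.IsRightDescent y i ∨
      ∃ x', x * y * cs.simple i = x' * y ∧ cs.length x' < cs.length x := by
  obtain ⟨ω, hω, rfl⟩ := cs.exists_isReduced x
  obtain ⟨ω', hω', rfl⟩ := cs.exists_isReduced y
  have hr : cs.IsReduced (ω ++ ω') := by
    show cs.length (cs.wordProd (ω ++ ω')) = (ω ++ ω').length
    rw [cs.wordProd_append, h, hω.eq, hω'.eq, List.length_append]
  rw [← cs.wordProd_append] at hd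
  obtain ⟨k, hk, hk2⟩ := exch_right cs _ hr i hd
  rw [List.length_append] at hk
  rw [cs.wordProd_append] at hk2
  rcases Nat.lt_or_ge k ω.length with hlt | hge
  · right
    rw [List.eraseIdx_append_of_lt_length hlt, cs.wordProd_append] at hk2
    refine ⟨_, hk2, ?_⟩
    rw [hω.eq]
    exact c01_len cs ω hlt
  · left
    rw [List.eraseIdx_append_of_length_le hge, cs.wordProd_append, mul_assoc] at hk2
    have h4 := mul_left_cancel hk2
    show cs.length (cs.wordProd ω' * cs.simple i) < cs.length (cs.wordProd ω')
    rw [h4, hω'.eq]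
    exact c01_len cs ω' (by omega)

theorem exch_mul_left (cs : CoxeterSystem M W) {x y : W} {i : B} (h : Rd cs x y)
    (hd : cs.IsLeftDescent (x * y) i) :
    cs.IsLeftDescent x i ∨
      ∃ y', cs.simple i * (x * y) = x * y' ∧ cs.length y' < cs.length y := by
  obtain ⟨ω, hω, rfl⟩ := cs.exists_isReduced x
  obtain ⟨ω', hω', rfl⟩ := cs.exists_isReduced y
  have hr : cs.IsReduced (ω ++ ω') := by
    show cs.length (cs.wordProd (ω ++ ω')) = (ω ++ ω').length
    rw [cs.wordProd_append, h, hω.eq, hω'.eq, List.length_append]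
  rw [← cs.wordProd_append] at hd
  obtain ⟨k, hk, hk2⟩ := exch_left cs _ hr i hd
  rw [List.length_append] at hk
  rw [cs.wordProd_append] at hk2
  rcases Nat.lt_or_ge k ω.length with hlt | hge
  · left
    rw [List.eraseIdx_append_of_lt_length hlt, cs.wordProd_append, ← mul_assoc] at hk2
    have h4 := mul_right_cancel hk2
    show cs.length (cs.simple i * cs.wordProd ω) < cs.length (cs.wordProd ω)
    rw [h4, hω.eq]
    exact c01_len cs ω hlt
  · right
    rw [List.eraseIdx_append_of_length_le hge, cs.wordProd_append] at hk2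
    refine ⟨_, hk2, ?_⟩
    rw [hω'.eq]
    exact c01_len cs ω' (by omega)

end Pool.Agent.Lib.KLT
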