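import Pool.Agent.Lib.MP_754fa1_al.T.Def

/-!
# C02a. The (dual) geometric representation

`geo i` is the reflection `φ ↦ φ - φ(i) g_i` of `B → ℝ`, where `g_i(k) = -2 cos(π / m i k)` (for
`m i k = 0` Lean's `π / 0 = 0` gives the correct value `-2`).

`gc_self`: `M i i = 1`, `cos π = -1`. `gc_symm`: `M.symmetric`.

`geo_pair`, `geo_pair'`: computation: `(geo i (geo j φ))(k)` for `k = i, j`.

`geo_liftable`: let `m = M i j`. `m = 0`: power `0`. `m = 1`: then `i = j` (`M.off_diagonal`) and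
`geo i * geo i = 1`. `m ≥ 2`: `θ = π / m`, `c = gc M i j = -2 cos θ`, `R = geo i * geo j`.
Recommended: Mathlib's `Module.reflection_mul_reflection_pow_apply` (Mathlib.LinearAlgebra.Reflection)
with `t = c ^ 2 - 2 = 2 cos (2 θ)`: both brackets vanish for `m ≥ 3`, by
`sin (2 θ) * S_k (2 cos 2θ) = sin ((k + 1) 2 θ)` (`Polynomial.Chebyshev`, or by induction) with
`sin (2 θ) ≠ 0`: if `m = 2 p` the factor `S_{p-1}` occurs in both, `sin (2 p θ) = sin π = 0`; if
`m = 2 p + 1` the factor `S_p + S_{p-1}` occurs in both, and `sin ((2p+2) θ) + sin (2 p θ) =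
2 sin ((2p+1) θ) cos θ = 0`. For `m = 2`, `c = 0` and a direct computation gives `R ^ 2 = 1`
(`R φ (k) = φ k - φ i g_i(k) - φ j g_j(k)`).
Alternative proof: `R φ = φ - a(φ) g_i - b(φ) g_j` with `a, b` linear in the pair `P φ = (φ i, φ j)`, and
`P (R φ) = A (P φ)` for a `2 x 2` matrix `A` of determinant `1` and trace `2 cos 2θ`; `A ^ m = 1` and
`det (A - 1) = 2 - 2 cos 2 θ ≠ 0`, so `∑_{k<m} A ^ k = 0`, hence `R ^ m φ = φ`.
-/

namespace Pool.Agent.Lib.KLT

universe u v w

variable {B : Type u}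

/-- twice the bilinear form -/
noncomputable def gc (M : CoxeterMatrix B) (i k : B) : ℝ := -2 * Real.cos (Real.pi / M i k)

theorem gc_self (M : CoxeterMatrix B) (i : B) : gc M i i = 2 := by
  unfold gc
  rw [M.diagonal i]
  simp

theorem gc_symm (M : CoxeterMatrix B) (i k : B) : gc M i k = gc M k i := by
  unfold gc
  rw [M.symmetric i k]

theorem gc_self' (M : CoxeterMatrix B) (i : B) : (LinearMap.proj i : (B → ℝ) →ₗ[ℝ] ℝ) (gc M i) = 2 :=
  gc_self M i

/-- the reflection -/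
noncomputable def geo (M : CoxeterMatrix B) (i : B) : (B → ℝ) ≃ₗ[ℝ] (B → ℝ) :=
  Module.reflection (gc_self' M i)

theorem geo_apply (M : CoxeterMatrix B) (i : B) (φ : B → ℝ) (k : B) :
    geo M i φ k = φ k - φ i * gc M i k := by
  unfold geo
  rw [Module.reflection_apply]
  simp

private theorem C02a_S (m : ℕ) (hm : 3 ≤ m) (t : ℝ)
    (ht : t = 2 * Real.cos (2 * (Real.pi / m))) :
    ((Polynomial.Chebyshev.S ℝ (((m : ℤ) - 2) / 2)).eval t *
      ((Polynomial.Chebyshev.S ℝ (((m : ℤ) - 1) / 2)).eval t +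
        (Polynomial.Chebyshev.S ℝ (((m : ℤ) - 3) / 2)).eval t) = 0) ∧
    ((Polynomial.Chebyshev.S ℝ (((m : ℤ) - 1) / 2)).eval t *
      ((Polynomial.Chebyshev.S ℝ ((m : ℤ) / 2)).eval t +
        (Polynomial.Chebyshev.S ℝ (((m : ℤ) - 2) / 2)).eval t) = 0) := by
  have hm0 : (0 : ℝ) < m := by
    have : 0 < m := by omega
    exact_mod_cast this
  have hm3 : (3 : ℝ) ≤ m := by exact_mod_cast hm
  have hpi := Real.pi_pos
  have hsin : Real.sin (2 * (Real.pi / m)) ≠ 0 := by
    apply ne_of_gt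
    apply Real.sin_pos_of_pos_of_lt_pi
    · positivity
    · rw [← mul_div_assoc, div_lt_iff₀ hm0]
      nlinarith
  have hS : ∀ k : ℤ, (Polynomial.Chebyshev.S ℝ k).eval t * Real.sin (2 * (Real.pi / m)) =
      Real.sin ((k + 1) * (2 * (Real.pi / m))) := by
    intro k
    rw [ht]
    exact Polynomial.Chebyshev.S_two_mul_real_cos (2 * (Real.pi / m)) k
  rcases Nat.even_or_odd' m with ⟨p, hp | hp⟩
  · have e1 : ((m : ℤ) - 2) / 2 = (p : ℤ) - 1 := by omega
    have e2 : ((m : ℤ) - 1) / 2 = (p : ℤ) - 1 := by omega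
    have h0 : (Polynomial.Chebyshev.S ℝ ((p : ℤ) - 1)).eval t = 0 := by
      have h1 := hS ((p : ℤ) - 1)
      have h2 : ((((p : ℤ) - 1 : ℤ) : ℝ) + 1) * (2 * (Real.pi / m)) = Real.pi := by
        have h3 : (m : ℝ) = 2 * p := by
          rw [hp]; push_cast; ring
        push_cast
        rw [h3] at hm0 ⊢
        have hp0 : (p : ℝ) ≠ 0 := by
          intro h; rw [h] at hm0; simp at hm0
        field_simp
        ring
      rw [h2, Real.sin_pi] at h1
      exact (mul_eq_zero.1 h1).resolve_right hsin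
    rw [e1, e2, h0]
    simp
  · have e1 : ((m : ℤ) - 2) / 2 = (p : ℤ) - 1 := by omega
    have e2 : ((m : ℤ) - 1) / 2 = (p : ℤ) := by omega
    have e3 : ((m : ℤ) - 3) / 2 = (p : ℤ) - 1 := by omega
    have e4 : (m : ℤ) / 2 = (p : ℤ) := by omega
    have h0 : (Polynomial.Chebyshev.S ℝ (p : ℤ)).eval t +
        (Polynomial.Chebyshev.S ℝ ((p : ℤ) - 1)).eval t = 0 := by
      have h1 := hS (p : ℤ)
      have h2 := hS ((p : ℤ) - 1)
      have h3 : (m : ℝ) = 2 * p + 1 := by
        rw [hp]; push_cast; ring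
      have h4 : ((((p : ℤ) : ℤ) : ℝ) + 1) * (2 * (Real.pi / m)) = Real.pi + Real.pi / m := by
        push_cast
        have : (m : ℝ) ≠ 0 := hm0.ne'
        rw [h3] at this ⊢
        field_simp
        ring
      have h5 : ((((p : ℤ) - 1 : ℤ) : ℝ) + 1) * (2 * (Real.pi / m)) = Real.pi - Real.pi / m := by
        push_cast
        have : (m : ℝ) ≠ 0 := hm0.ne'
        rw [h3] at this ⊢
        field_simp
        ring
      rw [h4] at h1
      rw [h5] at h2
      have h6 : Real.sin (Real.pi + Real.pi / m) + Real.sin (Real.pi - Real.pi / m) = 0 := by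
        rw [Real.sin_add, Real.sin_sub, Real.sin_pi]
        ring
      have h7 : ((Polynomial.Chebyshev.S ℝ (p : ℤ)).eval t +
        (Polynomial.Chebyshev.S ℝ ((p : ℤ) - 1)).eval t) * Real.sin (2 * (Real.pi / m)) = 0 := by
        rw [add_mul, h1, h2, h6]
      exact (mul_eq_zero.1 h7).resolve_right hsin
    rw [e1, e2, e3, e4, h0]
    simp

theorem geo_liftable (M : CoxeterMatrix B) : M.IsLiftable (geo M) := by
  intro i j
  rcases Nat.eq_zero_or_pos (M i j) with h0 | h0
  · rw [h0, pow_zero]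
  rcases Nat.lt_or_ge (M i j) 2 with h1 | h1
  · have h2 : M i j = 1 := by omega
    have h3 : i = j := by
      by_contra h
      exact M.off_diagonal i j h h2
    subst h3
    rw [h2, pow_one]
    apply LinearEquiv.ext
    intro φ
    exact Module.involutive_reflection (gc_self' M i) φ
  have ht : (LinearMap.proj i : (B → ℝ) →ₗ[ℝ] ℝ) (gc M j) *
      (LinearMap.proj j : (B → ℝ) →ₗ[ℝ] ℝ) (gc M i) - 2 =
      2 * Real.cos (2 * (Real.pi / (M i j : ℕ))) := by
    have e1 : (LinearMap.proj i : (B → ℝ) →ₗ[ℝ] ℝ) (gc M j) = gc M i j := gc_symm M j i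
    have e2 : (LinearMap.proj j : (B → ℝ) →ₗ[ℝ] ℝ) (gc M i) = gc M i j := rfl
    rw [e1, e2]
    unfold gc
    rw [Real.cos_two_mul]
    ring
  apply LinearEquiv.ext
  intro φ
  have key := Module.reflection_mul_reflection_pow_apply (gc_self' M i) (gc_self' M j) (M i j) φ
  show ((geo M i * geo M j) ^ (M i j)) φ = φ
  unfold geo
  rw [key]
  rcases Nat.lt_or_ge (M i j) 3 with h3 | h3
  · have h4 : M i j = 2 := by omega
    have e1 : (LinearMap.proj i : (B → ℝ) →ₗ[ℝ] ℝ) (gc M j) = 0 := by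
      show gc M j i = 0
      rw [gc_symm]
      unfold gc
      rw [h4]
      simp
    have e2 : (LinearMap.proj j : (B → ℝ) →ₗ[ℝ] ℝ) (gc M i) = 0 := by
      show gc M i j = 0
      unfold gc
      rw [h4]
      simp
    rw [h4, e1, e2]
    have i1 : (((2 : ℕ) : ℤ) - 2) / 2 = 0 := by norm_num
    have i2 : (((2 : ℕ) : ℤ) - 1) / 2 = 0 := by norm_num
    have i3 : (((2 : ℕ) : ℤ) - 3) / 2 = -1 := by norm_num
    have i4 : (((2 : ℕ) : ℤ)) / 2 = 1 := by norm_num
    rw [i1, i2, i3, i4]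
    simp only [Polynomial.Chebyshev.S_zero, Polynomial.Chebyshev.S_one,
      Polynomial.Chebyshev.S_neg_one, Polynomial.eval_one, Polynomial.eval_X,
      Polynomial.eval_zero]
    module
  · obtain ⟨h5, h6⟩ := C02a_S (M i j) h3 _ ht
    rw [h5, h6]
    simp

end Pool.Agent.Lib.KLT
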