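import Pool.Agent.Lib.MP_754fa1_al.T.C02a

/-!
# C02b. `s_i s_j` has order `m i j`

`(s_i s_j) ^ (M i j) = 1` is `cs.simple_mul_simple_pow`. So it suffices that `(s_i s_j) ^ l = 1`,
`l > 0` implies `M i j ∣ l` (and `M i j ≠ 0`). `i = j`: `M i i = 1`. Let `i ≠ j`, so `M i j ≠ 1`. Apply
`cs.lift ⟨geo M, geo_liftable M⟩`: `(geo i * geo j) ^ l = 1`. Put `c = gc M i j`.

* `M i j = 0`: `c = -2`. On pairs `(φ i, φ j)`: `geo j (p, q) = (p + 2 q, -q)`, `geo i (p, q) =
  (-p, q + 2 p)`, so `R (p, q) = (-p - 2 q, 2 p + 3 q)`, and `R ^ l (1, 0) = (1 - 2 l, 2 l)` by induction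
  (`R^l (p,q) = (p - 2 l (p + q), q + 2 l (p + q))`). So `R ^ l ≠ 1` for `l > 0`.
* `m = M i j ≥ 2`: `θ = π / m`, `c = -2 cos θ`. For real `α` a vector with
  `(φ i, φ j) = (sin (α + θ), - sin α)` is mapped by `geo i * geo j` to one with
  `(φ i, φ j) = (sin (α + 3 θ), - sin (α + 2 θ))` up to the direction of rotation
  (check: `geo j (p, q) = (p - c q, -q) = (sin (α + θ) - 2 cos θ sin α, sin α) = (- sin (α - θ), sin α)`,
  then `geo i (p, q) = (-p, q - c p) = (sin (α - θ), sin α - 2 cos θ sin (α - θ)) =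
  (sin (α - θ), - sin (α - 2 θ))`, i.e. `α` is replaced by `α - 2 θ`). So
  `R ^ l = 1` gives, for all `α`, `sin (α - 2 l θ) = sin α`; `α = 0` and `α = π/2` give
  `sin (2 l θ) = 0`, `cos (2 l θ) = 1`, so `2 l π / m = 2 π k` for an integer `k`
  (`Real.cos_eq_one_iff`), i.e. `m ∣ l`.

`simple_inj`: if `s_i = s_j` then `(s_i s_j) ^ 1 = 1`, so `M i j ∣ 1`, `M i j = 1`, `i = j` (`M.off_diagonal`).
-/

namespace Pool.Agent.Lib.KLT

universe u v w

variable {B : Type u} {W : Type v} [Group W] {M : CoxeterMatrix B}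

private theorem C02b_i (M : CoxeterMatrix B) (i j : B) (φ : B → ℝ) :
    (geo M i * geo M j) φ i = -(φ i - gc M i j * φ j) := by
  rw [LinearEquiv.mul_apply, geo_apply, geo_apply, gc_self, gc_symm M j i]
  ring

private theorem C02b_j (M : CoxeterMatrix B) (i j : B) (φ : B → ℝ) :
    (geo M i * geo M j) φ j = -φ j - gc M i j * (φ i - gc M i j * φ j) := by
  rw [LinearEquiv.mul_apply, geo_apply, geo_apply, geo_apply, gc_self, gc_symm M j i]
  ring

private theorem C02b_zero (M : CoxeterMatrix B) (i j : B) (hc : gc M i j = -2) (φ : B → ℝ) (l : ℕ) :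
    ((geo M i * geo M j) ^ l) φ i = φ i - 2 * l * (φ i + φ j) ∧
    ((geo M i * geo M j) ^ l) φ j = φ j + 2 * l * (φ i + φ j) := by
  induction l with
  | zero => simp
  | succ l ih =>
    rw [pow_succ', LinearEquiv.mul_apply, C02b_i, C02b_j, ih.1, ih.2, hc]
    push_cast
    constructor <;> ring

private theorem C02b_t1 (β θ : ℝ) :
    Real.sin (β + θ) - -2 * Real.cos θ * -Real.sin β = -Real.sin (β - θ) := by
  rw [Real.sin_add, Real.sin_sub]
  ring

private theorem C02b_t2 (β θ : ℝ) :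
    -(-Real.sin β) - -2 * Real.cos θ * -Real.sin (β - θ) = -Real.sin (β - θ - θ) := by
  have h := C02b_t1 (β - θ) θ
  rw [sub_add_cancel] at h
  rw [neg_neg]
  exact h

private theorem C02b_fin (M : CoxeterMatrix B) (i j : B) (θ α : ℝ)
    (hc : gc M i j = -2 * Real.cos θ) (φ : B → ℝ) (h1 : φ i = Real.sin (α + θ))
    (h2 : φ j = -Real.sin α) (l : ℕ) :
    ((geo M i * geo M j) ^ l) φ i = Real.sin (α - 2 * l * θ + θ) ∧
    ((geo M i * geo M j) ^ l) φ j = -Real.sin (α - 2 * l * θ) := by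
  induction l with
  | zero => simp [h1, h2]
  | succ l ih =>
    rw [pow_succ', LinearEquiv.mul_apply, C02b_i, C02b_j, ih.1, ih.2, hc]
    generalize hβ : α - 2 * (l : ℝ) * θ = β
    have e1 : α - 2 * ((l + 1 : ℕ) : ℝ) * θ + θ = β - θ := by
      rw [← hβ]; push_cast; ring
    have e2 : α - 2 * ((l + 1 : ℕ) : ℝ) * θ = (β - θ) - θ := by
      rw [← hβ]; push_cast; ring
    rw [e1, e2, C02b_t1, C02b_t2]
    exact ⟨neg_neg _, rfl⟩

theorem pow_eq_one_dvd (cs : CoxeterSystem M W) {i j : B} {l : ℕ}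
    (h : (cs.simple i * cs.simple j) ^ l = 1) : M i j ∣ l := by
  classical
  by_cases hij : i = j
  · subst hij
    rw [M.diagonal i]
    exact one_dvd l
  have hm1 : M i j ≠ 1 := M.off_diagonal i j hij
  have hR : (geo M i * geo M j) ^ l = 1 := by
    have h1 := congrArg (cs.lift ⟨geo M, geo_liftable M⟩) h
    rw [map_pow, map_mul, map_one, cs.lift_apply_simple, cs.lift_apply_simple] at h1
    exact h1
  rcases Nat.eq_zero_or_pos (M i j) with h0 | h0
  · have hc : gc M i j = -2 := by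
      unfold gc
      rw [h0]
      simp
    obtain ⟨h1, _⟩ := C02b_zero M i j hc (Function.update (0 : B → ℝ) i 1) l
    rw [hR] at h1
    have e1 : Function.update (0 : B → ℝ) i 1 i = 1 := Function.update_self ..
    have e2 : Function.update (0 : B → ℝ) i 1 j = 0 := by
      rw [Function.update_of_ne (Ne.symm hij)]
      rfl
    have h2 : ((1 : (B → ℝ) ≃ₗ[ℝ] (B → ℝ)) (Function.update (0 : B → ℝ) i 1)) i = 1 := e1
    rw [h2, e1, e2] at h1
    have h3 : (l : ℝ) = 0 := by linarith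
    have h4 : l = 0 := by exact_mod_cast h3
    rw [h4]
    exact dvd_zero _
  · set θ : ℝ := Real.pi / M i j with hθ
    have hc : gc M i j = -2 * Real.cos θ := rfl
    let φ : B → ℝ := Function.update (Function.update (0 : B → ℝ) j (-Real.sin (Real.pi / 2))) i
      (Real.sin (Real.pi / 2 + θ))
    have e1 : φ i = Real.sin (Real.pi / 2 + θ) := Function.update_self ..
    have e2 : φ j = -Real.sin (Real.pi / 2) := by
      show Function.update _ i _ j = _
      rw [Function.update_of_ne (Ne.symm hij), Function.update_self]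
    obtain ⟨_, h1⟩ := C02b_fin M i j θ (Real.pi / 2) hc φ e1 e2 l
    rw [hR] at h1
    have h2 : ((1 : (B → ℝ) ≃ₗ[ℝ] (B → ℝ)) φ) j = φ j := rfl
    rw [h2, e2, Real.sin_pi_div_two, Real.sin_pi_div_two_sub] at h1
    have h3 : Real.cos (2 * l * θ) = 1 := by linarith
    rw [Real.cos_eq_one_iff] at h3
    obtain ⟨n, hn⟩ := h3
    have hm0 : ((M i j : ℕ) : ℝ) ≠ 0 := by
      have : M i j ≠ 0 := by omega
      exact_mod_cast this
    have hpi := Real.pi_pos
    have h4 : (n : ℝ) * (M i j : ℕ) = l := by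
      rw [hθ] at hn
      field_simp at hn
      nlinarith [hn, hpi]
    have h5 : (n : ℤ) * ((M i j : ℕ) : ℤ) = (l : ℤ) := by exact_mod_cast h4
    have h6 : ((M i j : ℕ) : ℤ) ∣ (l : ℤ) := ⟨n, by rw [← h5]; ring⟩
    exact_mod_cast h6

theorem simple_inj (cs : CoxeterSystem M W) : Function.Injective cs.simple := by
  intro i j h
  by_contra hij
  have h1 : (cs.simple i * cs.simple j) ^ 1 = 1 := by
    rw [pow_one, ← h]
    exact cs.simple_mul_simple_self i
  have h2 := pow_eq_one_dvd cs h1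
  exact M.off_diagonal i j hij (Nat.dvd_one.1 h2)

end Pool.Agent.Lib.KLT
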