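import Pool.Agent.Lib.MP_754fa1_al.T.C01
import Pool.Agent.Lib.MP_754fa1_al.T.C02b

/-!
# C03. Alternating products

`al_add`: induction on `k` (generalizing `i j`); `al_snoc` is the case `l = 1`. `al_two_mul`:
`al i j (2 k) = (s_i s_j) ^ k`, induction. `al_inv`: `al_two_mul` and `al_snoc`.

`al_top`: `M i j = 2 p`: both sides are `(s_i s_j)^p`, `(s_j s_i)^p = (s_i s_j)^{-p}`, and
`(s_i s_j)^{2p} = 1`; `M i j = 2 p + 1`: `(s_i s_j)^p s_i` and `(s_j s_i)^p s_j = (s_i s_j)^{-p} s_j`
(`s_j = s_j⁻¹`).

`al_eq_dvd`: `al i j k = al j i l` with `k ≡ l mod 2` gives `(s_i s_j) ^ ((k + l)/2 ...)= 1`: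
`k = 2 p`, `l = 2 q`: `ρ^{p+q} = 1`; `k = 2 p + 1, l = 2 q + 1`: `ρ^p s_i = ρ^{-q} s_j`, so
`ρ^{p+q} s_i s_j = ρ^{p+q+1} = 1`; in both cases `ρ^{(k+l)/2} = 1`, so `M i j ∣ (k+l)/2` (`pow_eq_one_dvd`).
`al_eq_dvd'`: `al i j k = al i j l`, `l ≤ k`, `k ≡ l`: `ρ^{(k-l)/2} = 1`.

`len_al`: induction on `k` (generalizing `i j`), `k + 1 ≤ M i j` or `M i j = 0`. `ℓ(al j i k) = k`
by induction hypothesis (`M j i = M i j`). If `ℓ (al i j (k+1)) ≠ k + 1` then `i` is a left descent of
`al j i k`; take the word `alternating` (`List`) `ω` of length `k` for `al j i k`; it is reduced; by `exch_left`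
`al i j (k+1) = s_i al j i k` is the product of the word `ω.eraseIdx p` in the letters `i, j` with
`k - 1` letters. Every product of a word of `n` letters in `{i, j}` is `al i j l` or `al j i l` with
`l ≤ n`, `l ≡ n mod 2` (induction on the word). So `al i j (k+1) = al i j l` or `al j i l` with
`l ≤ k - 1`, `l ≡ k + 1 mod 2`, hence `M i j ∣ (k+1-l)/2` or `(k+1+l)/2`, which is positive and
`≤ k`; so `0 < M i j ≤ k`, a contradiction.

`al_ne`: if `al i j k = al j i l` then `k = l` by `len_al`, and `M i j ∣ k` by `al_eq_dvd`, `0 < k < M i j`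
or `M i j = 0 < k`, a contradiction.

`ld_al`: `s_i al i j k = al j i (k - 1)` has length `k - 1`. `ld_al_top`: `al_top`. `ld_al_iff`: if
`k ≠ M i j` then `s_j al i j k = al j i (k + 1)` has length `k + 1`.
`rd_al`, `rd_al_iff`: from the left versions for the inverse (`al_inv`), `cs.isRightDescent_inv_iff`.
-/

namespace Pool.Agent.Lib.KLT

universe u v w

variable {B : Type u} {W : Type v} [Group W] {M : CoxeterMatrix B}

/-- the last letter of the alternating word with `k` letters starting with `i` -/
def lst (i j : B) (k : ℕ) : B := if Even k then j else i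

theorem al_zero (cs : CoxeterSystem M W) (i j : B) : al cs i j 0 = 1 := rfl

theorem al_succ (cs : CoxeterSystem M W) (i j : B) (k : ℕ) :
    al cs i j (k + 1) = cs.simple i * al cs j i k := rfl

theorem al_one (cs : CoxeterSystem M W) (i j : B) : al cs i j 1 = cs.simple i := by
  rw [al_succ, al_zero, mul_one]

theorem al_add (cs : CoxeterSystem M W) (i j : B) (k l : ℕ) :
    al cs i j (k + l) = al cs i j k * (if Even k then al cs i j l else al cs j i l) := by
  induction k generalizing i j with
  | zero => simp [al_zero]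
  | succ k ih =>
    rw [show k + 1 + l = (k + l) + 1 by ring, al_succ, ih, al_succ, mul_assoc]
    by_cases hk : Even k
    · have h1 : ¬ Even (k + 1) := by
        rw [Nat.even_add_one]; exact fun h => h hk
      rw [if_pos hk, if_neg h1]
    · have h1 : Even (k + 1) := Nat.even_add_one.2 hk
      rw [if_neg hk, if_pos h1]

theorem al_snoc (cs : CoxeterSystem M W) (i j : B) (k : ℕ) :
    al cs i j (k + 1) = al cs i j k * cs.simple (lst i j (k + 1)) := by
  rw [al_add, al_one, al_one]
  unfold lst
  by_cases hk : Even k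
  · have h1 : ¬ Even (k + 1) := by
      rw [Nat.even_add_one]; exact fun h => h hk
    rw [if_pos hk, if_neg h1]
  · have h1 : Even (k + 1) := Nat.even_add_one.2 hk
    rw [if_neg hk, if_pos h1]

private theorem c03_two (cs : CoxeterSystem M W) (i j : B) (k : ℕ) :
    al cs i j (2 * k) = (cs.simple i * cs.simple j) ^ k := by
  induction k with
  | zero => simp [al_zero]
  | succ k ih =>
    rw [show 2 * (k + 1) = (2 * k + 1) + 1 by ring, al_succ, al_succ, ih, pow_succ', mul_assoc]

private theorem c03_lst (i j : B) (k : ℕ) : lst i j (2 * k + 1) = i := by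
  unfold lst
  rw [if_neg]
  rw [Nat.even_add_one]
  exact fun h => h (even_two_mul k)

private theorem c03_rinv (cs : CoxeterSystem M W) (i j : B) (k : ℕ) :
    ((cs.simple i * cs.simple j) ^ k)⁻¹ = (cs.simple j * cs.simple i) ^ k := by
  rw [← inv_pow, mul_inv_rev, cs.inv_simple, cs.inv_simple]

private theorem c03_odd (cs : CoxeterSystem M W) (i j : B) (k : ℕ) :
    al cs i j (2 * k + 1) = (cs.simple i * cs.simple j) ^ k * cs.simple i := by
  rw [al_snoc, c03_lst, c03_two]

theorem al_inv_even (cs : CoxeterSystem M W) (i j : B) (k : ℕ) :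
    (al cs i j (2 * k))⁻¹ = al cs j i (2 * k) := by
  rw [c03_two, c03_two, c03_rinv]

theorem al_inv_odd (cs : CoxeterSystem M W) (i j : B) (k : ℕ) :
    (al cs i j (2 * k + 1))⁻¹ = al cs i j (2 * k + 1) := by
  rw [c03_odd, mul_inv_rev, cs.inv_simple, c03_rinv, ← c03_two, ← c03_odd, ← al_succ]

private theorem c03_eq (cs : CoxeterSystem M W) {i j : B} {k l : ℕ} (hkl : k % 2 = l % 2)
    (h : al cs i j k = al cs j i l) : M i j ∣ (k + l) / 2 := by
  apply pow_eq_one_dvd cs
  rcases Nat.even_or_odd' k with ⟨p, rfl | rfl⟩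
  · rcases Nat.even_or_odd' l with ⟨q, rfl | rfl⟩
    · rw [c03_two, c03_two, ← c03_rinv cs i j] at h
      rw [show (2 * p + 2 * q) / 2 = p + q by omega, pow_add, h, inv_mul_cancel]
    · omega
  · rcases Nat.even_or_odd' l with ⟨q, rfl | rfl⟩
    · omega
    · rw [c03_odd, c03_odd, ← c03_rinv cs i j] at h
      rw [show (2 * p + 1 + (2 * q + 1)) / 2 = q + (p + 1) by omega, pow_add, pow_succ, ← mul_assoc _ (cs.simple i), h, mul_assoc _ (cs.simple j), cs.simple_mul_simple_self, mul_one,
        mul_inv_cancel]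

private theorem c03_eq2 (cs : CoxeterSystem M W) {i j : B} {k l : ℕ} (hkl : k % 2 = l % 2)
    (hl : l ≤ k) (h : al cs i j k = al cs i j l) : M i j ∣ (k - l) / 2 := by
  apply pow_eq_one_dvd cs
  have key : ∀ p q : ℕ, q ≤ p → (cs.simple i * cs.simple j) ^ p = (cs.simple i * cs.simple j) ^ q →
      (cs.simple i * cs.simple j) ^ (p - q) = 1 := by
    intro p q hq e
    have e1 : (cs.simple i * cs.simple j) ^ q * (cs.simple i * cs.simple j) ^ (p - q)
        = (cs.simple i * cs.simple j) ^ q * 1 := by
      rw [← pow_add, Nat.add_sub_cancel' hq, e, mul_one]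
    exact mul_left_cancel e1
  rcases Nat.even_or_odd' k with ⟨p, rfl | rfl⟩
  · rcases Nat.even_or_odd' l with ⟨q, rfl | rfl⟩
    · rw [c03_two, c03_two] at h
      rw [show (2 * p - 2 * q) / 2 = p - q by omega]
      exact key p q (by omega) h
    · omega
  · rcases Nat.even_or_odd' l with ⟨q, rfl | rfl⟩
    · omega
    · rw [c03_odd, c03_odd] at h
      rw [show (2 * p + 1 - (2 * q + 1)) / 2 = p - q by omega]
      exact key p q (by omega) (mul_right_cancel h)

theorem al_top (cs : CoxeterSystem M W) (i j : B) (h : M i j ≠ 0) :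
    al cs i j (M i j) = al cs j i (M i j) := by
  have hr := cs.simple_mul_simple_pow i j
  rcases Nat.even_or_odd' (M i j) with ⟨p, hp | hp⟩
  · rw [hp] at hr ⊢
    rw [c03_two, c03_two, ← c03_rinv cs i j, eq_inv_iff_mul_eq_one, ← pow_add, ← two_mul]
    exact hr
  · rw [hp] at hr ⊢
    rw [c03_odd, c03_odd, ← c03_rinv cs i j, eq_inv_mul_iff_mul_eq, ← mul_assoc, ← pow_add, ← two_mul]
    have e : (cs.simple i * cs.simple j) ^ (2 * p) * cs.simple i * cs.simple j = 1 := by
      rw [mul_assoc, ← pow_succ]
      exact hr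
    calc (cs.simple i * cs.simple j) ^ (2 * p) * cs.simple i
        = (cs.simple i * cs.simple j) ^ (2 * p) * cs.simple i * cs.simple j * cs.simple j := by
          rw [cs.simple_mul_simple_cancel_right]
      _ = cs.simple j := by rw [e, one_mul]

private def c03_w : B → B → ℕ → List B
  | _, _, 0 => []
  | i, j, k + 1 => i :: c03_w j i k

private theorem c03_w_prod (cs : CoxeterSystem M W) (i j : B) (k : ℕ) :
    cs.wordProd (c03_w i j k) = al cs i j k := by
  induction k generalizing i j with
  | zero => exact cs.wordProd_nil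
  | succ k ih =>
    rw [al_succ, ← ih]
    exact cs.wordProd_cons i _

private theorem c03_w_len (i j : B) (k : ℕ) : (c03_w i j k).length = k := by
  induction k generalizing i j with
  | zero => rfl
  | succ k ih =>
    show (c03_w j i k).length + 1 = k + 1
    rw [ih]

private theorem c03_w_mem (i j : B) (k : ℕ) : ∀ a ∈ c03_w i j k, a = i ∨ a = j := by
  induction k generalizing i j with
  | zero =>
    intro a ha
    exact absurd ha (by simp [c03_w])
  | succ k ih =>
    intro a ha
    rcases List.mem_cons.1 (show a ∈ i :: c03_w j i k from ha) with h | h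
    · exact Or.inl h
    · exact (ih j i a h).symm

private theorem c03_s (cs : CoxeterSystem M W) (b c : B) (l : ℕ) (a : B) (ha : a = b ∨ a = c) :
    ∃ l', l' ≤ l + 1 ∧ l' % 2 = (l + 1) % 2 ∧
      (cs.simple a * al cs b c l = al cs b c l' ∨ cs.simple a * al cs b c l = al cs c b l') := by
  rcases ha with rfl | rfl
  · cases l with
    | zero => exact ⟨1, le_refl _, rfl, Or.inl (by rw [al_zero, al_one, mul_one])⟩
    | succ l =>
      refine ⟨l, by omega, by omega, Or.inr ?_⟩
      rw [al_succ, cs.simple_mul_simple_cancel_left]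
  · exact ⟨l + 1, le_refl _, rfl, Or.inr (al_succ cs a b l).symm⟩

private theorem c03_word (cs : CoxeterSystem M W) (i j : B) (ω : List B)
    (h : ∀ a ∈ ω, a = i ∨ a = j) :
    ∃ l, l ≤ ω.length ∧ l % 2 = ω.length % 2 ∧
      (cs.wordProd ω = al cs i j l ∨ cs.wordProd ω = al cs j i l) := by
  induction ω with
  | nil => exact ⟨0, le_refl _, rfl, Or.inl (cs.wordProd_nil)⟩
  | cons a ω ih =>
    obtain ⟨l, h1, h2, h3⟩ := ih (fun b hb => h b (List.mem_cons_of_mem _ hb))
    have ha := h a (List.mem_cons_self ..)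
    rw [cs.wordProd_cons, List.length_cons]
    rcases h3 with h3 | h3
    · obtain ⟨l', g1, g2, g3⟩ := c03_s cs i j l a ha
      rw [h3]
      exact ⟨l', by omega, by omega, g3⟩
    · obtain ⟨l', g1, g2, g3⟩ := c03_s cs j i l a ha.symm
      rw [h3]
      exact ⟨l', by omega, by omega, g3.symm⟩

theorem len_al (cs : CoxeterSystem M W) {i j : B} (hij : i ≠ j) {k : ℕ}
    (hk : k ≤ M i j ∨ M i j = 0) : cs.length (al cs i j k) = k := by
  induction k generalizing i j with
  | zero => rw [al_zero, cs.length_one]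
  | succ k ih =>
    have ih' := ih hij.symm (by rw [M.symmetric j i]; omega)
    rw [al_succ]
    rcases cs.length_simple_mul (al cs j i k) i with h | h
    · rw [h, ih']
    · exfalso
      have hred : cs.IsReduced (c03_w j i k) := by
        show cs.length (cs.wordProd _) = _
        rw [c03_w_prod, c03_w_len, ih']
      have hd : cs.IsLeftDescent (cs.wordProd (c03_w j i k)) i := by
        rw [c03_w_prod]
        show cs.length _ < cs.length _
        omega
      obtain ⟨p, hp, hp2⟩ := exch_left cs _ hred i hd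
      rw [c03_w_len] at hp
      have hlen : ((c03_w j i k).eraseIdx p).length = k - 1 := by
        rw [List.length_eraseIdx_of_lt (by rw [c03_w_len]; exact hp), c03_w_len]
      obtain ⟨l, l1, l2, l3⟩ := c03_word cs i j ((c03_w j i k).eraseIdx p) (fun a ha =>
        (c03_w_mem j i k a ((List.eraseIdx_sublist _ _).mem ha)).symm)
      rw [hlen] at l1 l2
      rw [c03_w_prod, ← al_succ] at hp2
      have hdv : ∃ q, 0 < q ∧ q ≤ k ∧ M i j ∣ q := by
        rcases l3 with l3 | l3
        · refine ⟨(k + 1 - l) / 2, by omega, by omega, ?_⟩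
          exact c03_eq2 cs (by omega) (by omega) (hp2.trans l3)
        · refine ⟨(k + 1 + l) / 2, by omega, by omega, ?_⟩
          exact c03_eq cs (by omega) (hp2.trans l3)
      obtain ⟨q, q1, q2, q3⟩ := hdv
      rcases hk with hk | hk
      · have := Nat.le_of_dvd q1 q3
        omega
      · rw [hk] at q3
        have := Nat.eq_zero_of_zero_dvd q3
        omega

theorem al_ne (cs : CoxeterSystem M W) {i j : B} (hij : i ≠ j) {k l : ℕ} (h0 : 0 < k)
    (hk : k < M i j ∨ M i j = 0) (hl : l ≤ M i j ∨ M i j = 0) : al cs i j k ≠ al cs j i l := by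
  intro h
  have h1 : cs.length (al cs i j k) = k := len_al cs hij (by omega)
  have h2 : cs.length (al cs j i l) = l := len_al cs hij.symm (by rw [M.symmetric j i]; exact hl)
  have hkl : k = l := by rw [← h1, h, h2]
  subst hkl
  have h3 := c03_eq cs rfl h
  rw [show (k + k) / 2 = k by omega] at h3
  rcases hk with hk | hk
  · have := Nat.le_of_dvd h0 h3
    omega
  · rw [hk] at h3
    have := Nat.eq_zero_of_zero_dvd h3
    omega

theorem ld_al (cs : CoxeterSystem M W) {i j : B} (hij : i ≠ j) {k : ℕ} (h0 : 0 < k)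
    (hk : k ≤ M i j ∨ M i j = 0) : cs.IsLeftDescent (al cs i j k) i := by
  obtain ⟨k, rfl⟩ : ∃ l, k = l + 1 := ⟨k - 1, by omega⟩
  show cs.length _ < cs.length _
  rw [len_al cs hij hk, al_succ, cs.simple_mul_simple_cancel_left,
    len_al cs hij.symm (by rw [M.symmetric j i]; omega)]
  omega

theorem ld_al_iff (cs : CoxeterSystem M W) {i j : B} (hij : i ≠ j) {k : ℕ} (h0 : 0 < k)
    (hk : k ≤ M i j ∨ M i j = 0) : cs.IsLeftDescent (al cs i j k) j ↔ k = M i j := by
  constructor
  · intro h
    by_contra hne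
    have h1 : cs.length (al cs j i (k + 1)) = k + 1 :=
      len_al cs hij.symm (by rw [M.symmetric j i]; omega)
    have h2 : cs.length (al cs i j k) = k := len_al cs hij hk
    have h3 : cs.length (cs.simple j * al cs i j k) < cs.length (al cs i j k) := h
    rw [← al_succ, h1, h2] at h3
    omega
  · intro h
    have h1 : al cs i j k = al cs j i k := by
      rw [h]
      exact al_top cs i j (by omega)
    rw [h1]
    exact ld_al cs hij.symm h0 (by rw [M.symmetric j i]; exact hk)

theorem rd_al (cs : CoxeterSystem M W) {i j : B} (hij : i ≠ j) {k : ℕ} (h0 : 0 < k)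
    (hk : k ≤ M i j ∨ M i j = 0) : cs.IsRightDescent (al cs i j k) (lst i j k) := by
  obtain ⟨k, rfl⟩ : ∃ l, k = l + 1 := ⟨k - 1, by omega⟩
  show cs.length _ < cs.length _
  rw [len_al cs hij hk, al_snoc, cs.simple_mul_simple_cancel_right, len_al cs hij (by omega)]
  omega

private theorem c03_lst2 (i j : B) (k : ℕ) : lst j i k = lst i j (k + 1) := by
  unfold lst
  by_cases hk : Even k
  · have h1 : ¬ Even (k + 1) := by
      rw [Nat.even_add_one]; exact fun h => h hk
    rw [if_pos hk, if_neg h1]
  · have h1 : Even (k + 1) := Nat.even_add_one.2 hk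
    rw [if_neg hk, if_pos h1]

theorem rd_al_iff (cs : CoxeterSystem M W) {i j : B} (hij : i ≠ j) {k : ℕ} (h0 : 0 < k)
    (hk : k ≤ M i j ∨ M i j = 0) :
    cs.IsRightDescent (al cs i j k) (lst j i k) ↔ k = M i j := by
  constructor
  · intro h
    by_contra hne
    have h1 : cs.length (al cs i j (k + 1)) = k + 1 := len_al cs hij (by omega)
    have h2 : cs.length (al cs i j k) = k := len_al cs hij hk
    have h3 : cs.length (al cs i j k * cs.simple (lst j i k)) < cs.length (al cs i j k) := h
    rw [c03_lst2, ← al_snoc, h1, h2] at h3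
    omega
  · intro h
    have h1 : al cs i j k = al cs j i k := by
      rw [h]
      exact al_top cs i j (by omega)
    rw [h1]
    exact rd_al cs hij.symm h0 (by rw [M.symmetric j i]; exact hk)

end Pool.Agent.Lib.KLT
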