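import Pool.Agent.Lib.MP_754fa1_al.G2a
import Pool.Agent.Lib.MP_754fa1_al.T.C01
import Pool.Agent.Lib.MP_754fa1_al.T.C02b

/-!
# C04a. Parabolic subgroups

`wp_word`: `⇐` clear. `⇒`: `Subgroup.closure_induction`: every `x ∈ WP J` is the product of a word
with letters in `J` (generators, `1`, products, inverses by `wordProd_reverse`); among such words take one of
minimal length. It is reduced: otherwise take the longest reduced prefix `ω₁`, next letter `j`: `j` is a
right descent of `π(ω₁)`, and `exch_right` replaces `ω₁ ++ [j]` by `ω₁.eraseIdx k`, a shorter word with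
letters in `J`.

`simple_mem_wp`: if `s_i ∈ WP J` then `s_i = π(ω)`, `ω` reduced with letters in `J`, `ω.length = 1`
(`cs.length_simple`), so `s_i = s_j`, `j ∈ J`, and `i = j` by `simple_inj`.

`wp_letters`: induction on the length of `ω = i :: ω'`: `i` is a left descent of `x`; with the reduced
`J`-word `ω₁` of `x`, `exch_left` gives `s_i x = π(ω₁.eraseIdx k) ∈ WP J`, so `s_i ∈ WP J`, `i ∈ J`; and
`π(ω') = s_i x ∈ WP J`.

`ld_wp`: `x = s_i (s_i x)` has a reduced word starting with `i`. `rd_wp`: inverse.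
`spt_iff`: `i ∉ spt x` iff `x ∈ WP {i}ᶜ` iff (`wp_word`, `wp_letters`) all letters of `ω` are `≠ i`.
`wp_iff_spt`: `wp_word`, `wp_letters`, `spt_iff`. `spt_mul`: the concatenation of reduced words is reduced.
`spt_suf`: `Suf u x`: `x = (x u⁻¹) u` reduced. `spt_inv`: reverse word.
`spt_empty`: reduced word with no letters.
`wp_inter`: `x ∈ WP J`, `x ∈ WP K` then a reduced word has its letters in `J ∩ K`.
-/

open Pool.Agent.Lib.MP_754fa1_al

namespace Pool.Agent.Lib.KLT

universe u v w

variable {B : Type u} {W : Type v} [Group W] {M : CoxeterMatrix B}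

theorem wp_mono (cs : CoxeterSystem M W) {J K : Set B} (h : J ⊆ K) : WP cs J ≤ WP cs K :=
  Subgroup.closure_mono (Set.image_mono h)

private theorem c04a_gen (cs : CoxeterSystem M W) {J : Set B} {i : B} (h : i ∈ J) :
    cs.simple i ∈ WP cs J := Subgroup.subset_closure ⟨i, h, rfl⟩

private theorem c04a_mem (cs : CoxeterSystem M W) {J : Set B} (ω : List B)
    (h : ∀ i ∈ ω, i ∈ J) : cs.wordProd ω ∈ WP cs J := by
  induction ω with
  | nil => rw [cs.wordProd_nil]; exact one_mem _
  | cons a ω ih =>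
    rw [cs.wordProd_cons]
    exact mul_mem (c04a_gen cs (h a (List.mem_cons_self ..)))
      (ih (fun i hi => h i (List.mem_cons_of_mem _ hi)))

private theorem c04a_red (cs : CoxeterSystem M W) {J : Set B} (ω : List B)
    (h : ∀ i ∈ ω, i ∈ J) : ∃ ω' : List B, cs.IsReduced ω' ∧ cs.wordProd ω' = cs.wordProd ω ∧
      ∀ i ∈ ω', i ∈ J := by
  induction ω with
  | nil =>
    refine ⟨[], ?_, rfl, h⟩
    show cs.length (cs.wordProd []) = 0
    rw [cs.wordProd_nil, cs.length_one]
  | cons a ω ih =>
    obtain ⟨ω', h1, h2, h3⟩ := ih (fun i hi => h i (List.mem_cons_of_mem _ hi))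
    have ha := h a (List.mem_cons_self ..)
    by_cases hd : cs.IsLeftDescent (cs.wordProd ω') a
    · obtain ⟨k, hk, hk2⟩ := exch_left cs ω' h1 a hd
      refine ⟨ω'.eraseIdx k, ?_, ?_, fun i hi => h3 i ((List.eraseIdx_sublist _ _).mem hi)⟩
      · show cs.length (cs.wordProd _) = _
        rw [← hk2, List.length_eraseIdx_of_lt hk]
        have e := cs.isLeftDescent_iff.1 hd
        rw [h1.eq] at e
        omega
      · rw [← hk2, cs.wordProd_cons, h2]
    · refine ⟨a :: ω', ?_, ?_, ?_⟩
      · show cs.length (cs.wordProd _) = _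
        rw [cs.wordProd_cons, List.length_cons, cs.not_isLeftDescent_iff.1 hd, h1.eq]
      · rw [cs.wordProd_cons, cs.wordProd_cons, h2]
      · intro i hi
        rcases List.mem_cons.1 hi with rfl | hi
        · exact ha
        · exact h3 i hi

theorem wp_word (cs : CoxeterSystem M W) {J : Set B} {x : W} :
    x ∈ WP cs J ↔ ∃ ω : List B, cs.IsReduced ω ∧ cs.wordProd ω = x ∧ ∀ i ∈ ω, i ∈ J := by
  constructor
  · intro hx
    have key : ∃ ω : List B, cs.wordProd ω = x ∧ ∀ i ∈ ω, i ∈ J := by
      unfold WP at hx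
      induction hx using Subgroup.closure_induction with
      | mem y hy =>
        obtain ⟨i, hi, rfl⟩ := hy
        exact ⟨[i], cs.wordProd_singleton i, fun j hj => by rw [List.mem_singleton.1 hj]; exact hi⟩
      | one => exact ⟨[], cs.wordProd_nil, fun i hi => absurd hi (List.not_mem_nil)⟩
      | mul y z _ _ hy hz =>
        obtain ⟨ω, h1, h2⟩ := hy
        obtain ⟨ω', h3, h4⟩ := hz
        refine ⟨ω ++ ω', by rw [cs.wordProd_append, h1, h3], ?_⟩
        intro i hi
        rcases List.mem_append.1 hi with hi | hi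
        · exact h2 i hi
        · exact h4 i hi
      | inv y _ hy =>
        obtain ⟨ω, h1, h2⟩ := hy
        exact ⟨ω.reverse, by rw [cs.wordProd_reverse, h1], fun i hi => h2 i (List.mem_reverse.1 hi)⟩
    obtain ⟨ω, h1, h2⟩ := key
    obtain ⟨ω', h3, h4, h5⟩ := c04a_red cs ω h2
    exact ⟨ω', h3, h4.trans h1, h5⟩
  · rintro ⟨ω, _, rfl, h⟩
    exact c04a_mem cs ω h

theorem simple_mem_wp (cs : CoxeterSystem M W) {J : Set B} {i : B} :
    cs.simple i ∈ WP cs J ↔ i ∈ J := by
  constructor
  · intro h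
    obtain ⟨ω, h1, h2, h3⟩ := (wp_word cs).1 h
    have e : ω.length = 1 := by rw [← h1.eq, h2, cs.length_simple]
    obtain ⟨j, rfl⟩ := List.length_eq_one_iff.1 e
    rw [cs.wordProd_singleton] at h2
    rw [← simple_inj cs h2]
    exact h3 j (List.mem_singleton_self j)
  · exact c04a_gen cs

theorem wp_letters (cs : CoxeterSystem M W) {J : Set B} {x : W} (hx : x ∈ WP cs J) {ω : List B}
    (hω : cs.IsReduced ω) (e : cs.wordProd ω = x) : ∀ i ∈ ω, i ∈ J := by
  induction ω generalizing x with
  | nil => intro i hi; exact absurd hi (List.not_mem_nil)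
  | cons a ω ih =>
    have hω' : cs.IsReduced ω := hω.drop 1
    rw [cs.wordProd_cons] at e
    have e2 : cs.simple a * x = cs.wordProd ω := by rw [← e, cs.simple_mul_simple_cancel_left]
    have hd : cs.IsLeftDescent x a := by
      show cs.length _ < cs.length _
      rw [e2, hω'.eq, ← e, ← cs.wordProd_cons, hω.eq, List.length_cons]
      omega
    obtain ⟨ω₁, h1, h2, h3⟩ := (wp_word cs).1 hx
    rw [← h2] at hd
    obtain ⟨k, hk, hk2⟩ := exch_left cs ω₁ h1 a hd
    rw [h2] at hk2
    have hm : cs.simple a * x ∈ WP cs J := by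
      rw [hk2]
      exact c04a_mem cs _ (fun i hi => h3 i ((List.eraseIdx_sublist _ _).mem hi))
    have ha : a ∈ J := by
      rw [← simple_mem_wp cs]
      have := mul_mem hm (inv_mem hx)
      rwa [mul_inv_cancel_right] at this
    intro i hi
    rcases List.mem_cons.1 hi with rfl | hi
    · exact ha
    · exact ih hm hω' e2.symm i hi

theorem ld_wp (cs : CoxeterSystem M W) {J : Set B} {x : W} {i : B} (hx : x ∈ WP cs J)
    (h : cs.IsLeftDescent x i) : i ∈ J := by
  obtain ⟨ω, h1, h2⟩ := cs.exists_isReduced (cs.simple i * x)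
  have e : cs.wordProd (i :: ω) = x := by
    rw [cs.wordProd_cons, ← h2, cs.simple_mul_simple_cancel_left]
  have hr : cs.IsReduced (i :: ω) := by
    show cs.length (cs.wordProd _) = _
    have e2 := cs.isLeftDescent_iff.1 h
    rw [e, List.length_cons, ← h1.eq, ← h2, e2]
  exact wp_letters cs hx hr e i (List.mem_cons_self ..)

theorem rd_wp (cs : CoxeterSystem M W) {J : Set B} {x : W} {i : B} (hx : x ∈ WP cs J)
    (h : cs.IsRightDescent x i) : i ∈ J :=
  ld_wp cs (inv_mem hx) (cs.isLeftDescent_inv_iff.2 h)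

theorem spt_iff (cs : CoxeterSystem M W) {ω : List B} (hω : cs.IsReduced ω) (i : B) :
    i ∈ spt cs (cs.wordProd ω) ↔ i ∈ ω := by
  show cs.wordProd ω ∉ WP cs {i}ᶜ ↔ _
  constructor
  · intro h
    by_contra hi
    exact h (c04a_mem cs ω (fun j hj => fun hji => hi (by
      rw [Set.mem_singleton_iff] at hji
      rwa [← hji])))
  · intro h hm
    exact wp_letters cs hm hω rfl i h rfl

theorem wp_iff_spt (cs : CoxeterSystem M W) {J : Set B} {x : W} :
    x ∈ WP cs J ↔ spt cs x ⊆ J := by
  obtain ⟨ω, h1, rfl⟩ := cs.exists_isReduced x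
  constructor
  · intro h i hi
    exact wp_letters cs h h1 rfl i ((spt_iff cs h1 i).1 hi)
  · intro h
    exact c04a_mem cs ω (fun i hi => h ((spt_iff cs h1 i).2 hi))

theorem mem_wp_spt (cs : CoxeterSystem M W) (x : W) : x ∈ WP cs (spt cs x) :=
  (wp_iff_spt cs).2 subset_rfl

private theorem c04a_nil (cs : CoxeterSystem M W) : cs.IsReduced ([] : List B) := by
  show cs.length (cs.wordProd []) = 0
  rw [cs.wordProd_nil, cs.length_one]

theorem spt_one (cs : CoxeterSystem M W) : spt cs 1 = ∅ := by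
  ext i
  rw [← cs.wordProd_nil, spt_iff cs (c04a_nil cs)]
  simp

theorem spt_empty (cs : CoxeterSystem M W) {x : W} (h : spt cs x = ∅) : x = 1 := by
  obtain ⟨ω, h1, rfl⟩ := cs.exists_isReduced x
  have : ω = [] := by
    rw [List.eq_nil_iff_forall_not_mem]
    intro i hi
    have := (spt_iff cs h1 i).2 hi
    rw [h] at this
    exact this
  rw [this, cs.wordProd_nil]

theorem spt_simple (cs : CoxeterSystem M W) (i : B) : spt cs (cs.simple i) = {i} := by
  have h1 : cs.IsReduced [i] := by
    show cs.length (cs.wordProd [i]) = 1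
    rw [cs.wordProd_singleton, cs.length_simple]
  ext j
  rw [← cs.wordProd_singleton, spt_iff cs h1]
  simp

theorem spt_inv (cs : CoxeterSystem M W) (x : W) : spt cs x⁻¹ = spt cs x := by
  obtain ⟨ω, h1, rfl⟩ := cs.exists_isReduced x
  ext i
  rw [← cs.wordProd_reverse, spt_iff cs h1.reverse, spt_iff cs h1, List.mem_reverse]

theorem spt_mul (cs : CoxeterSystem M W) {x y : W} (h : Rd cs x y) :
    spt cs (x * y) = spt cs x ∪ spt cs y := by
  obtain ⟨ω, h1, rfl⟩ := cs.exists_isReduced x
  obtain ⟨ω', h2, rfl⟩ := cs.exists_isReduced y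
  have hr : cs.IsReduced (ω ++ ω') := by
    show cs.length (cs.wordProd (ω ++ ω')) = (ω ++ ω').length
    rw [cs.wordProd_append, h, h1.eq, h2.eq, List.length_append]
  ext i
  rw [← cs.wordProd_append, spt_iff cs hr, Set.mem_union, spt_iff cs h1, spt_iff cs h2,
    List.mem_append]

theorem spt_suf (cs : CoxeterSystem M W) {u x : W} (h : Suf cs u x) : spt cs u ⊆ spt cs x := by
  have hr : Rd cs (x * u⁻¹) u := by
    show cs.length (x * u⁻¹ * u) = _
    rw [inv_mul_cancel_right]
    exact h
  have e := spt_mul cs hr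
  rw [inv_mul_cancel_right] at e
  rw [e]
  exact Set.subset_union_right

theorem wp_inter (cs : CoxeterSystem M W) {J K : Set B} {x : W} (h : x ∈ WP cs J)
    (h' : x ∈ WP cs K) : x ∈ WP cs (J ∩ K) :=
  (wp_iff_spt cs).2 (Set.subset_inter ((wp_iff_spt cs).1 h) ((wp_iff_spt cs).1 h'))

theorem wp_suf (cs : CoxeterSystem M W) {J : Set B} {u x : W} (h : Suf cs u x)
    (hx : x ∈ WP cs J) : u ∈ WP cs J :=
  (wp_iff_spt cs).2 ((spt_suf cs h).trans ((wp_iff_spt cs).1 hx))

end Pool.Agent.Lib.KLT
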