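import Pool.Agent.Lib.MP_754fa1_al.T.C04a

/-!
# C04b. Coset decompositions

`rm_exists`: strong induction on `ℓ(x)`: if `RM J x` take `(x, 1)`; else `j ∈ J` is a right descent and
`x s_j = y z`, so `x = y (z s_j)`.

`rm_len`. Claim: if `x` is of minimal length in its coset `x WP J` then `Rd x z` for all `z ∈ WP J`:
induction on `ℓ(z)`; `z = z' s`, `s ∈ J` a right descent of `z` (`rd_wp`), `Rd x z'`. If not `Rd x z` then
`s` is a right descent of `x z'`, and `exch_mul_right` gives: `s` a right descent of `z'` (impossible), or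
`x z' s = x' z'` with `ℓ(x') < ℓ(x)`, `x' = x (z' s z'⁻¹) ∈ x WP J`, against minimality.
Now let `RM J x` and let `x₀` be of minimal length in `x WP J`, `x = x₀ z₀`; `ℓ(x) = ℓ(x₀) + ℓ(z₀)`. If
`z₀ ≠ 1` it has a right descent `s ∈ J`, `x s = x₀ (z₀ s)` is shorter, against `RM J x`. So `x = x₀`.

`rm_uniq`: `x' = x (z z'⁻¹)`, so `ℓ(x') = ℓ(x) + ℓ(z z'⁻¹)` and symmetrically; so `z = z'`.

`rd_rm_iff`: compare `ℓ(x z s_j) = ℓ(x) + ℓ(z s_j)` and `ℓ(x z) = ℓ(x) + ℓ(z)`.

The `L` versions are obtained by inversion (`rm_inv_iff`).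

`rm_of_mul`: `x = x₁ p` with lengths adding and `RM J x` do not imply `RM J x₁` in general; see C06.
-/

open Pool.Agent.Lib.MP_754fa1_al

namespace Pool.Agent.Lib.KLT

universe u v w

variable {B : Type u} {W : Type v} [Group W] {M : CoxeterMatrix B}

theorem rd_inv_iff (cs : CoxeterSystem M W) {x y : W} : Rd cs y⁻¹ x⁻¹ ↔ Rd cs x y := by
  unfold Rd
  rw [← mul_inv_rev, cs.length_inv, cs.length_inv, cs.length_inv, add_comm (cs.length y)]

theorem rm_inv_iff (cs : CoxeterSystem M W) {J : Set B} {x : W} : RM cs J x⁻¹ ↔ LM cs J x := by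
  unfold RM LM
  simp only [cs.isRightDescent_inv_iff]

theorem lm_inv_iff (cs : CoxeterSystem M W) {J : Set B} {x : W} : LM cs J x⁻¹ ↔ RM cs J x := by
  unfold RM LM
  simp only [cs.isLeftDescent_inv_iff]

theorem rm_exists (cs : CoxeterSystem M W) (J : Set B) (x : W) :
    ∃ y z, x = y * z ∧ RM cs J y ∧ z ∈ WP cs J := by
  have key : ∀ n : ℕ, ∀ x : W, cs.length x = n →
      ∃ y z, x = y * z ∧ RM cs J y ∧ z ∈ WP cs J := by
    intro n
    induction n using Nat.strong_induction_on with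
    | _ n ih =>
      intro x hn
      by_cases hx : RM cs J x
      · exact ⟨x, 1, (mul_one x).symm, hx, one_mem _⟩
      · unfold RM at hx
        push Not at hx
        obtain ⟨j, hj, hd⟩ := hx
        have h1 : cs.length (x * cs.simple j) < n := by
          rw [← hn]
          exact hd
        obtain ⟨y, z, e, hy, hz⟩ := ih _ h1 (x * cs.simple j) rfl
        refine ⟨y, z * cs.simple j, ?_, hy, ?_⟩
        · rw [← mul_assoc, ← e, mul_assoc, cs.simple_mul_simple_self, mul_one]
        · exact mul_mem hz ((simple_mem_wp cs).2 hj)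
  exact key _ x rfl

private theorem C04b_min (cs : CoxeterSystem M W) {J : Set B} {x : W}
    (hmin : ∀ z ∈ WP cs J, cs.length x ≤ cs.length (x * z)) :
    ∀ n : ℕ, ∀ z : W, z ∈ WP cs J → cs.length z = n → Rd cs x z := by
  intro n
  induction n with
  | zero =>
    intro z _ hn
    have h1 : z = 1 := (cs.length_eq_zero_iff).1 hn
    subst h1
    unfold Rd
    simp
  | succ n ih =>
    intro z hz hn
    have h1 : z ≠ 1 := by
      rintro rfl
      rw [cs.length_one] at hn
      omega
    obtain ⟨s, hs⟩ := cs.exists_rightDescent_of_ne_one h1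
    have hsJ : s ∈ J := rd_wp cs hz hs
    have hsz : cs.simple s ∈ WP cs J := (simple_mem_wp cs).2 hsJ
    have hz' : z * cs.simple s ∈ WP cs J := mul_mem hz hsz
    have hl : cs.length (z * cs.simple s) + 1 = cs.length z := (cs.isRightDescent_iff).1 hs
    have hl' : cs.length (z * cs.simple s) = n := by omega
    have hr : Rd cs x (z * cs.simple s) := ih _ hz' hl'
    have e1 : x * (z * cs.simple s) * cs.simple s = x * z := by
      rw [mul_assoc, mul_assoc, cs.simple_mul_simple_self, mul_one]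
    by_cases hd : cs.IsRightDescent (x * (z * cs.simple s)) s
    · exfalso
      rcases exch_mul_right cs hr hd with h2 | ⟨x', h2, h3⟩
      · have h4 := (cs.isRightDescent_iff).1 h2
        rw [mul_assoc, cs.simple_mul_simple_self, mul_one] at h4
        omega
      · have h5 : x' = x * ((z * cs.simple s) * cs.simple s * (z * cs.simple s)⁻¹) := by
          have : x' * (z * cs.simple s) = x * (z * cs.simple s) * cs.simple s := h2.symm
          calc x' = x' * (z * cs.simple s) * (z * cs.simple s)⁻¹ := by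
                rw [mul_inv_cancel_right]
            _ = x * (z * cs.simple s) * cs.simple s * (z * cs.simple s)⁻¹ := by rw [this]
            _ = _ := by simp only [mul_assoc]
        have h6 := hmin _ (mul_mem (mul_mem hz' hsz) (inv_mem hz'))
        rw [← h5] at h6
        omega
    · have h2 := (cs.not_isRightDescent_iff).1 hd
      rw [e1] at h2
      unfold Rd at hr ⊢
      omega

theorem rm_len (cs : CoxeterSystem M W) {J : Set B} {x z : W} (hx : RM cs J x)
    (hz : z ∈ WP cs J) : Rd cs x z := by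
  classical
  have hex : ∃ n : ℕ, ∃ w ∈ WP cs J, cs.length (x * w) = n := ⟨_, 1, one_mem _, rfl⟩
  obtain ⟨w, hw, hwn⟩ := Nat.find_spec hex
  have hmin : ∀ u ∈ WP cs J, cs.length (x * w) ≤ cs.length (x * w * u) := by
    intro u hu
    rw [hwn, mul_assoc]
    exact Nat.find_min' hex ⟨w * u, mul_mem hw hu, rfl⟩
  have h1 : Rd cs (x * w) w⁻¹ := C04b_min cs hmin _ w⁻¹ (inv_mem hw) rfl
  have h2 : w = 1 := by
    by_contra hne
    have hne' : w⁻¹ ≠ 1 := fun h => hne (inv_eq_one.1 h)
    obtain ⟨s, hs⟩ := cs.exists_rightDescent_of_ne_one hne'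
    have hsJ : s ∈ J := rd_wp cs (inv_mem hw) hs
    apply hx s hsJ
    have h3 := (cs.isRightDescent_iff).1 hs
    have h4 := cs.length_mul_le (x * w) (w⁻¹ * cs.simple s)
    have h5 : x * w * (w⁻¹ * cs.simple s) = x * cs.simple s := by
      rw [mul_assoc, mul_inv_cancel_left]
    rw [h5] at h4
    unfold Rd at h1
    rw [mul_inv_cancel_right] at h1
    unfold CoxeterSystem.IsRightDescent
    omega
  rw [h2, mul_one] at hmin
  exact C04b_min cs hmin _ z hz rfl

theorem rm_uniq (cs : CoxeterSystem M W) {J : Set B} {x x' z z' : W} (hx : RM cs J x)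
    (hx' : RM cs J x') (hz : z ∈ WP cs J) (hz' : z' ∈ WP cs J) (e : x * z = x' * z') :
    x = x' ∧ z = z' := by
  have h1 : x' = x * (z * z'⁻¹) := by
    rw [← mul_assoc, e, mul_inv_cancel_right]
  have h2 : x = x' * (z' * z⁻¹) := by
    rw [← mul_assoc, ← e, mul_inv_cancel_right]
  have h3 := rm_len cs hx (mul_mem hz (inv_mem hz'))
  have h4 := rm_len cs hx' (mul_mem hz' (inv_mem hz))
  unfold Rd at h3 h4
  rw [← h1] at h3
  rw [← h2] at h4
  have h5 : cs.length (z * z'⁻¹) = 0 := by omega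
  rw [cs.length_eq_zero_iff, mul_inv_eq_one] at h5
  subst h5
  exact ⟨mul_right_cancel e, rfl⟩

theorem rd_rm_iff (cs : CoxeterSystem M W) {J : Set B} {x z : W} (hx : RM cs J x)
    (hz : z ∈ WP cs J) {j : B} (hj : j ∈ J) :
    cs.IsRightDescent (x * z) j ↔ cs.IsRightDescent z j := by
  have h1 := rm_len cs hx hz
  have h2 := rm_len cs hx (mul_mem hz ((simple_mem_wp cs).2 hj))
  unfold Rd at h1 h2
  unfold CoxeterSystem.IsRightDescent
  rw [mul_assoc, h1, h2]
  omega

theorem lm_exists (cs : CoxeterSystem M W) (J : Set B) (x : W) :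
    ∃ z y, x = z * y ∧ LM cs J y ∧ z ∈ WP cs J := by
  obtain ⟨y, z, e, hy, hz⟩ := rm_exists cs J x⁻¹
  refine ⟨z⁻¹, y⁻¹, ?_, (lm_inv_iff cs).2 hy, inv_mem hz⟩
  rw [← mul_inv_rev, ← e, inv_inv]

theorem lm_len (cs : CoxeterSystem M W) {J : Set B} {z y : W} (hy : LM cs J y)
    (hz : z ∈ WP cs J) : Rd cs z y := by
  rw [← rd_inv_iff]
  exact rm_len cs ((rm_inv_iff cs).2 hy) (inv_mem hz)

theorem lm_uniq (cs : CoxeterSystem M W) {J : Set B} {y y' z z' : W} (hy : LM cs J y)
    (hy' : LM cs J y') (hz : z ∈ WP cs J) (hz' : z' ∈ WP cs J) (e : z * y = z' * y') :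
    z = z' ∧ y = y' := by
  have e' : y⁻¹ * z⁻¹ = y'⁻¹ * z'⁻¹ := by
    rw [← mul_inv_rev, e, mul_inv_rev]
  obtain ⟨h1, h2⟩ := rm_uniq cs ((rm_inv_iff cs).2 hy) ((rm_inv_iff cs).2 hy') (inv_mem hz)
    (inv_mem hz') e'
  exact ⟨inv_injective h2, inv_injective h1⟩

theorem ld_lm_iff (cs : CoxeterSystem M W) {J : Set B} {z y : W} (hy : LM cs J y)
    (hz : z ∈ WP cs J) {j : B} (hj : j ∈ J) :
    cs.IsLeftDescent (z * y) j ↔ cs.IsLeftDescent z j := by
  have h := rd_rm_iff cs ((rm_inv_iff cs).2 hy) (inv_mem hz) hj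
  rw [← mul_inv_rev, cs.isRightDescent_inv_iff, cs.isRightDescent_inv_iff] at h
  exact h

end Pool.Agent.Lib.KLT
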