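import Pool.Agent.Lib.MP_754fa1_al.T.C03
import Pool.Agent.Lib.MP_754fa1_al.T.C04b

/-!
# C05. Two descents

`wp_single`: the reduced words with letters `i` are `[]`, `[i]` (`wp_word`). `not_rd_of_common`: `x y = (x s_c)(s_c y)`.
`al_mem`: induction. `wp_pair`: `⇒` by `wp_word` and induction on the (reduced) word: if
`y = al i j k` or `al j i k` with `k ≤ M` or `M = 0` then `s_i y`, `s_j y` are again of this form:
`s_i al j i k = al i j (k+1)` if `k < M` or `M = 0`; for `k = M` use `al_top` first:
`s_i al j i M = s_i al i j M = al j i (M - 1)`; `s_i al i j k = al j i (k-1)` for `k ≥ 1`, and `al i j 0 = 1 = al j i 0`.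
(The word need not be reduced for this argument.)

`pair_cases`: the descents of the elements of `WP {i, j}`: `ld_al`, `ld_al_iff`, `al_top`.

`wp_two_ld`: `z ∈ WP {i, j}` with left descents `i` and `j`: by `wp_pair` `z = al i j k` or `al j i k`,
`k > 0`, and `ld_al_iff` gives `k = M i j` (so `M i j ≠ 0`); with `al_top`, `z = al i j (M i j)`.

`two_ld`: `lm_exists` for `J = {i, j}`: `x = z y`; `i, j` are left descents of `z` by `ld_lm_iff`; use
`wp_two_ld` and `lm_len`.

`two_ld_step`: `x = al i j M y` reduced, `M = M i j ≥ 2` (`M i i = 1` only on the diagonal), so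
`s_i x = al j i (M - 1) y` reduced, and `s_j s_i x = al i j (M - 2) y` has smaller length than `s_i x`.
The `rd` versions follow by inversion: `x⁻¹ = al i j M * y`, so `x = y⁻¹ * (al i j M)⁻¹`, and
`(al i j M)⁻¹ = al i j M` (`M` odd: `al_inv_odd`; `M` even: `al_inv_even`, `al_top`) : `al_top_inv`.

`ld_comm_step`: `M i j = 2`, `i ≠ j`: if `j` is a left descent of `s_i x` and `i` is not a left descent of ... it is
stated as: `i` a left descent of `x`, `j` a left descent of `s_i x`, `M i j = 2` imply `j` is a left descent of `x`: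
`x = s_i (s_i x) = s_i s_j y = s_j s_i y` with `ℓ(x) = ℓ(y) + 2`, so `s_j x = s_i y` is shorter.
-/

open Pool.Agent.Lib.MP_754fa1_al

namespace Pool.Agent.Lib.KLT

universe u v w

variable {B : Type u} {W : Type v} [Group W] {M : CoxeterMatrix B}

theorem wp_single (cs : CoxeterSystem M W) {i : B} {x : W} :
    x ∈ WP cs {i} ↔ x = 1 ∨ x = cs.simple i := by
  constructor
  · intro hx
    unfold WP at hx
    induction hx using Subgroup.closure_induction with
    | mem x hx =>
      obtain ⟨k, hk, rfl⟩ := hx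
      rw [Set.mem_singleton_iff] at hk
      subst hk
      exact Or.inr rfl
    | one => exact Or.inl rfl
    | mul x y _ _ h1 h2 =>
      rcases h1 with rfl | rfl
      · rw [one_mul]
        exact h2
      · rcases h2 with rfl | rfl
        · rw [mul_one]
          exact Or.inr rfl
        · left
          exact cs.simple_mul_simple_self i
    | inv x _ h =>
      rcases h with rfl | rfl
      · rw [inv_one]
        exact Or.inl rfl
      · rw [cs.inv_simple]
        exact Or.inr rfl
  · rintro (rfl | rfl)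
    · exact one_mem _
    · exact Subgroup.subset_closure ⟨i, rfl, rfl⟩

theorem not_rd_of_common (cs : CoxeterSystem M W) {x y : W} {c : B}
    (h : cs.IsRightDescent x c) (h' : cs.IsLeftDescent y c) : ¬ Rd cs x y := by
  intro hR
  have h1 : x * y = (x * cs.simple c) * (cs.simple c * y) := by
    rw [mul_assoc, ← mul_assoc (cs.simple c) (cs.simple c) y, cs.simple_mul_simple_self, one_mul]
  have h2 : cs.length (x * y) ≤ cs.length (x * cs.simple c) + cs.length (cs.simple c * y) := by
    rw [h1]
    exact cs.length_mul_le _ _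
  have h3 : cs.length (x * cs.simple c) < cs.length x := h
  have h4 : cs.length (cs.simple c * y) < cs.length y := h'
  unfold Rd at hR
  omega

theorem al_mem (cs : CoxeterSystem M W) (i j : B) (k : ℕ) : al cs i j k ∈ WP cs {i, j} := by
  induction k generalizing i j with
  | zero => exact one_mem _
  | succ k ih =>
    rw [al_succ]
    refine mul_mem (Subgroup.subset_closure ⟨i, Set.mem_insert i {j}, rfl⟩) ?_
    have h1 := ih j i
    rw [Set.pair_comm] at h1
    exact h1

private theorem C05_step (cs : CoxeterSystem M W) {i j : B} {y : W}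
    (h : ∃ k, (k ≤ M i j ∨ M i j = 0) ∧ (y = al cs i j k ∨ y = al cs j i k)) :
    ∃ k, (k ≤ M i j ∨ M i j = 0) ∧
      (cs.simple i * y = al cs i j k ∨ cs.simple i * y = al cs j i k) := by
  obtain ⟨k, hk, h | h⟩ := h
  · rcases k with _ | k
    · refine ⟨1, by omega, Or.inl ?_⟩
      rw [h, al_zero, al_one, mul_one]
    · refine ⟨k, by omega, Or.inr ?_⟩
      rw [h, al_succ, ← mul_assoc, cs.simple_mul_simple_self, one_mul]
  · by_cases hk2 : k = M i j ∧ M i j ≠ 0
    · obtain ⟨hk2, hM⟩ := hk2
      have hM' : M j i ≠ 0 := by rw [M.symmetric]; exact hM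
      have h1 := al_top cs j i hM'
      rw [M.symmetric j i] at h1
      rw [hk2, h1] at h
      obtain ⟨m, hm⟩ : ∃ m, M i j = m + 1 := ⟨M i j - 1, by omega⟩
      refine ⟨m, by omega, Or.inr ?_⟩
      rw [h, hm, al_succ, ← mul_assoc, cs.simple_mul_simple_self, one_mul]
    · refine ⟨k + 1, by omega, Or.inl ?_⟩
      rw [h, al_succ]

private theorem C05_swap (cs : CoxeterSystem M W) {i j : B} {y : W}
    (h : ∃ k, (k ≤ M i j ∨ M i j = 0) ∧ (y = al cs i j k ∨ y = al cs j i k)) :
    ∃ k, (k ≤ M j i ∨ M j i = 0) ∧ (y = al cs j i k ∨ y = al cs i j k) := by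
  obtain ⟨k, hk, h⟩ := h
  refine ⟨k, ?_, h.symm⟩
  rw [M.symmetric j i]
  exact hk

theorem wp_pair (cs : CoxeterSystem M W) {i j : B} (hij : i ≠ j) {x : W} :
    x ∈ WP cs {i, j} ↔
      ∃ k, (k ≤ M i j ∨ M i j = 0) ∧ (x = al cs i j k ∨ x = al cs j i k) := by
  constructor
  · intro hx
    unfold WP at hx
    have key : ∀ z ∈ cs.simple '' ({i, j} : Set B), ∀ y,
        (∃ k, (k ≤ M i j ∨ M i j = 0) ∧ (y = al cs i j k ∨ y = al cs j i k)) →
        ∃ k, (k ≤ M i j ∨ M i j = 0) ∧ (z * y = al cs i j k ∨ z * y = al cs j i k) := by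
      rintro z ⟨l, hl, rfl⟩ y hy
      rcases hl with rfl | hl
      · exact C05_step cs hy
      · rw [Set.mem_singleton_iff] at hl
        subst hl
        exact C05_swap cs (C05_step cs (C05_swap cs hy))
    induction hx using Subgroup.closure_induction_left with
    | one => exact ⟨0, Or.inl (Nat.zero_le _), Or.inl rfl⟩
    | mul_left z hz y _ h => exact key z hz y h
    | inv_mul_cancel z hz y _ h =>
      have hz' := hz
      obtain ⟨l, hl, rfl⟩ := hz'
      rw [cs.inv_simple]
      exact key _ hz y h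
  · rintro ⟨k, -, rfl | rfl⟩
    · exact al_mem cs i j k
    · have h1 := al_mem cs j i k
      rw [Set.pair_comm] at h1
      exact h1

theorem al_top_inv (cs : CoxeterSystem M W) {i j : B} (h : M i j ≠ 0) :
    (al cs i j (M i j))⁻¹ = al cs i j (M i j) := by
  rcases Nat.even_or_odd' (M i j) with ⟨k, hk | hk⟩
  · have h1 := al_top cs i j h
    rw [hk] at h1 ⊢
    rw [al_inv_even, h1]
  · rw [hk, al_inv_odd]

private theorem C05_not_one (cs : CoxeterSystem M W) {i : B} : ¬ cs.IsLeftDescent 1 i := by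
  intro h
  have h1 : cs.length (cs.simple i * 1) < cs.length 1 := h
  rw [cs.length_one] at h1
  omega

theorem wp_two_ld (cs : CoxeterSystem M W) {z : W} {i j : B} (hij : i ≠ j)
    (hz : z ∈ WP cs {i, j}) (hi : cs.IsLeftDescent z i) (hj : cs.IsLeftDescent z j) :
    M i j ≠ 0 ∧ z = al cs i j (M i j) := by
  obtain ⟨k, hk, h⟩ := (wp_pair cs hij).mp hz
  have hk0 : 0 < k := by
    rcases Nat.eq_zero_or_pos k with h0 | h0
    · exfalso
      rw [h0, al_zero, al_zero, or_self] at h
      rw [h] at hi
      exact C05_not_one cs hi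
    · exact h0
  rcases h with h | h
  · rw [h] at hj
    have h1 := (ld_al_iff cs hij hk0 hk).mp hj
    refine ⟨by omega, ?_⟩
    rw [h, ← h1]
  · rw [h] at hi
    have hk' : k ≤ M j i ∨ M j i = 0 := by
      rw [M.symmetric j i]
      exact hk
    have h1 := (ld_al_iff cs (Ne.symm hij) hk0 hk').mp hi
    have h2 := M.symmetric j i
    have hM : M j i ≠ 0 := by omega
    refine ⟨by omega, ?_⟩
    rw [h, h1, al_top cs j i hM, h2]

theorem two_ld (cs : CoxeterSystem M W) {x : W} {i j : B} (hij : i ≠ j)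
    (hi : cs.IsLeftDescent x i) (hj : cs.IsLeftDescent x j) :
    M i j ≠ 0 ∧ ∃ y, x = al cs i j (M i j) * y ∧ Rd cs (al cs i j (M i j)) y := by
  obtain ⟨z, y, hx, hy, hz⟩ := lm_exists cs {i, j} x
  have hi' : cs.IsLeftDescent z i :=
    (ld_lm_iff cs hy hz (Set.mem_insert i {j})).mp (by rw [← hx]; exact hi)
  have hj' : cs.IsLeftDescent z j :=
    (ld_lm_iff cs hy hz (Set.mem_insert_of_mem i rfl)).mp (by rw [← hx]; exact hj)
  obtain ⟨h1, h2⟩ := wp_two_ld cs hij hz hi' hj'
  refine ⟨h1, y, ?_, ?_⟩
  · rw [← h2]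
    exact hx
  · rw [← h2]
    exact lm_len cs hy hz

theorem two_ld_step (cs : CoxeterSystem M W) {x : W} {i j : B} (hij : i ≠ j)
    (hi : cs.IsLeftDescent x i) (hj : cs.IsLeftDescent x j) :
    cs.IsLeftDescent (cs.simple i * x) j := by
  obtain ⟨hM, y, hx, hR⟩ := two_ld cs hij hi hj
  have hM1 : M i j ≠ 1 := M.off_diagonal i j hij
  obtain ⟨m, hm⟩ : ∃ m, M i j = m + 2 := ⟨M i j - 2, by omega⟩
  have hl : cs.length x = M i j + cs.length y := by
    have h1 : cs.length (al cs i j (M i j) * y) =
      cs.length (al cs i j (M i j)) + cs.length y := hR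
    rw [hx, h1, len_al cs hij (Or.inl le_rfl)]
  have h2 : cs.simple j * (cs.simple i * x) = al cs i j m * y := by
    rw [hx, hm, al_succ, al_succ]
    rw [mul_assoc, ← mul_assoc (cs.simple i) (cs.simple i), cs.simple_mul_simple_self, one_mul,
      mul_assoc, ← mul_assoc (cs.simple j) (cs.simple j), cs.simple_mul_simple_self, one_mul]
  have h3 : cs.length (cs.simple j * (cs.simple i * x)) ≤ m + cs.length y := by
    rw [h2]
    refine (cs.length_mul_le _ _).trans ?_
    rw [len_al cs hij (Or.inl (by omega))]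
  have h4 := cs.isLeftDescent_iff.mp hi
  show cs.length (cs.simple j * (cs.simple i * x)) < cs.length (cs.simple i * x)
  omega

theorem two_rd (cs : CoxeterSystem M W) {x : W} {i j : B} (hij : i ≠ j)
    (hi : cs.IsRightDescent x i) (hj : cs.IsRightDescent x j) :
    M i j ≠ 0 ∧ ∃ y, x = y * al cs i j (M i j) ∧ Rd cs y (al cs i j (M i j)) := by
  obtain ⟨hM, y, hx, hR⟩ := two_ld cs hij (cs.isLeftDescent_inv_iff.mpr hi)
    (cs.isLeftDescent_inv_iff.mpr hj)
  refine ⟨hM, y⁻¹, ?_, ?_⟩
  · have h1 : x = (x⁻¹)⁻¹ := (inv_inv x).symm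
    rw [h1, hx, mul_inv_rev, al_top_inv cs hM]
  · have h1 := (rd_inv_iff cs).mpr hR
    rw [al_top_inv cs hM] at h1
    exact h1

theorem two_rd_step (cs : CoxeterSystem M W) {x : W} {i j : B} (hij : i ≠ j)
    (hi : cs.IsRightDescent x i) (hj : cs.IsRightDescent x j) :
    cs.IsRightDescent (x * cs.simple i) j := by
  have h1 := two_ld_step cs hij (cs.isLeftDescent_inv_iff.mpr hi)
    (cs.isLeftDescent_inv_iff.mpr hj)
  have h2 : cs.simple i * x⁻¹ = (x * cs.simple i)⁻¹ := by
    rw [mul_inv_rev, cs.inv_simple]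
  rw [h2] at h1
  exact cs.isLeftDescent_inv_iff.mp h1

theorem ld_comm_step (cs : CoxeterSystem M W) {x : W} {i j : B} (hij : M i j = 2)
    (hi : cs.IsLeftDescent x i) (hj : cs.IsLeftDescent (cs.simple i * x) j) :
    cs.IsLeftDescent x j := by
  have h0 := al_top cs i j (by omega)
  rw [hij] at h0
  have hc : cs.simple i * cs.simple j = cs.simple j * cs.simple i := by
    rw [al_succ, al_succ, al_succ, al_succ, al_zero, al_zero, mul_one, mul_one] at h0
    exact h0
  have h1 : cs.simple j * x = cs.simple i * (cs.simple j * (cs.simple i * x)) := by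
    rw [← mul_assoc (cs.simple i), hc, mul_assoc, ← mul_assoc (cs.simple i) (cs.simple i),
      cs.simple_mul_simple_self, one_mul]
  have h2 : cs.length (cs.simple j * x) ≤
      cs.length (cs.simple i) + cs.length (cs.simple j * (cs.simple i * x)) := by
    rw [h1]
    exact cs.length_mul_le _ _
  rw [cs.length_simple] at h2
  have h3 := cs.isLeftDescent_iff.mp hj
  have h4 := cs.isLeftDescent_iff.mp hi
  show cs.length (cs.simple j * x) < cs.length x
  omega

theorem rd_comm_step (cs : CoxeterSystem M W) {x : W} {i j : B} (hij : M i j = 2)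
    (hi : cs.IsRightDescent x i) (hj : cs.IsRightDescent (x * cs.simple i) j) :
    cs.IsRightDescent x j := by
  have h2 : cs.simple i * x⁻¹ = (x * cs.simple i)⁻¹ := by
    rw [mul_inv_rev, cs.inv_simple]
  have h1 : cs.IsLeftDescent (cs.simple i * x⁻¹) j := by
    rw [h2]
    exact cs.isLeftDescent_inv_iff.mpr hj
  exact cs.isLeftDescent_inv_iff.mp
    (ld_comm_step cs hij (cs.isLeftDescent_inv_iff.mpr hi) h1)

end Pool.Agent.Lib.KLT
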