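import Pool.Agent.Lib.MP_754fa1_al.T.C05

/-!
# C05b. Finite dihedral parabolic subgroups

Let `i ≠ j`, `m = M i j ≠ 0`, `w = al i j m`, `z ∈ WP {i, j}`. By `wp_pair`, `z = al a b k`, `k ≤ m`, with
`(a, b) = (i, j)` or `(j, i)`. `len_al` gives `pair_len_le`; `pair_len_eq` by `al_top`.

`pair_suf`: choose `(c, d) ∈ {(i, j), (j, i)}` with `al c d ((m - k) + k) = al c d (m - k) * al a b k` (`al_add`: by the parity of
`m - k`); the left side is `w` (`al_top`), lengths by `len_al`. `pair_pre` is the mirror image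
(apply `pair_suf` to `z⁻¹` and invert; `al_top_inv`), or `al_add` directly.

`pair_rd_unique`: `z ≠ 1, w` has exactly one right descent: `rd_al`, `rd_al_iff`. `pair_ld_unique` similarly.

`pair_top_rd`: `w` has right descents `i` and `j`. `pair_top_rm`: if `h w` is reduced then `RM {i, j} h`: if
`h = h' s_a`, `a ∈ {i, j}`, then `h w = h' (s_a w)` has length `≤ ℓ(h) - 1 + m - 1`.
-/

open Pool.Agent.Lib.MP_754fa1_al

namespace Pool.Agent.Lib.KLT

universe u v w

variable {B : Type u} {W : Type v} [Group W] {M : CoxeterMatrix B}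

private theorem C05b_symm {i j : B} {k : ℕ} (hk : k ≤ M i j ∨ M i j = 0) :
    k ≤ M j i ∨ M j i = 0 := by
  rw [M.symmetric j i]
  exact hk

/-- the alternating form of an element of a dihedral parabolic subgroup -/
private theorem C05b_form (cs : CoxeterSystem M W) {i j : B} (hij : i ≠ j) {z : W}
    (hz : z ∈ WP cs {i, j}) :
    ∃ k, (k ≤ M i j ∨ M i j = 0) ∧ cs.length z = k ∧ (z = al cs i j k ∨ z = al cs j i k) := by
  obtain ⟨k, hk, h | h⟩ := (wp_pair cs hij).1 hz
  · exact ⟨k, hk, by rw [h, len_al cs hij hk], Or.inl h⟩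
  · exact ⟨k, hk, by rw [h, len_al cs hij.symm (C05b_symm hk)], Or.inr h⟩

theorem pair_len_le (cs : CoxeterSystem M W) {i j : B} (hij : i ≠ j) (hm : M i j ≠ 0) {z : W}
    (hz : z ∈ WP cs {i, j}) : cs.length z ≤ M i j := by
  obtain ⟨k, hk, hl, _⟩ := C05b_form cs hij hz
  rcases hk with hk | hk
  · omega
  · exact absurd hk hm

theorem pair_len_eq (cs : CoxeterSystem M W) {i j : B} (hij : i ≠ j) (hm : M i j ≠ 0) {z : W}
    (hz : z ∈ WP cs {i, j}) (e : cs.length z = M i j) : z = al cs i j (M i j) := by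
  obtain ⟨k, hk, hl, h⟩ := C05b_form cs hij hz
  have hk' : k = M i j := by omega
  subst hk'
  rcases h with h | h
  · exact h
  · rw [al_top cs i j hm]
    exact h

private theorem C05b_suf (cs : CoxeterSystem M W) {a b : B} (hab : a ≠ b) {k : ℕ}
    (hm : M a b ≠ 0) (hk : k ≤ M a b) : Suf cs (al cs a b k) (al cs a b (M a b)) := by
  have hba : M b a = M a b := M.symmetric b a
  rw [suf_iff]
  have e : M a b - k + k = M a b := by omega
  have l1 : cs.length (al cs a b (M a b)) = M a b := len_al cs hab (Or.inl le_rfl)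
  have l2 : cs.length (al cs a b k) = k := len_al cs hab (Or.inl hk)
  by_cases hp : Even (M a b - k)
  · refine ⟨al cs a b (M a b - k), ?_, ?_⟩
    · have h := al_add cs a b (M a b - k) k
      rw [if_pos hp, e] at h
      exact h
    · have l3 : cs.length (al cs a b (M a b - k)) = M a b - k :=
        len_al cs hab (Or.inl (Nat.sub_le _ _))
      omega
  · refine ⟨al cs b a (M a b - k), ?_, ?_⟩
    · have h := al_add cs b a (M a b - k) k
      rw [if_neg hp, e] at h
      rw [al_top cs a b hm]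
      exact h
    · have l3 : cs.length (al cs b a (M a b - k)) = M a b - k :=
        len_al cs hab.symm (Or.inl (by rw [hba]; exact Nat.sub_le _ _))
      omega

theorem pair_suf (cs : CoxeterSystem M W) {i j : B} (hij : i ≠ j) (hm : M i j ≠ 0) {z : W}
    (hz : z ∈ WP cs {i, j}) : Suf cs z (al cs i j (M i j)) := by
  obtain ⟨k, hk, hl, h⟩ := C05b_form cs hij hz
  have hk' : k ≤ M i j := by
    rcases hk with hk | hk
    · exact hk
    · exact absurd hk hm
  rcases h with h | h
  · rw [h]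
    exact C05b_suf cs hij hm hk'
  · rw [h, al_top cs i j hm]
    have hba : M i j = M j i := M.symmetric i j
    rw [hba] at hm hk' ⊢
    exact C05b_suf cs hij.symm hm hk'

theorem pair_pre (cs : CoxeterSystem M W) {i j : B} (hij : i ≠ j) (hm : M i j ≠ 0) {z : W}
    (hz : z ∈ WP cs {i, j}) : Rd cs z (z⁻¹ * al cs i j (M i j)) := by
  have h := pair_suf cs hij hm (inv_mem hz)
  have hw := al_top_inv cs hm
  unfold Suf at h
  rw [inv_inv, cs.length_inv] at h
  have h1 : cs.length (z⁻¹ * al cs i j (M i j)) = cs.length (al cs i j (M i j) * z) := by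
    rw [← cs.length_inv (al cs i j (M i j) * z), mul_inv_rev, hw]
  unfold Rd
  rw [mul_inv_cancel_left, h1]
  omega

theorem pair_rd_unique (cs : CoxeterSystem M W) {i j : B} (hij : i ≠ j) (hm : M i j ≠ 0) {z : W}
    (hz : z ∈ WP cs {i, j}) (h1 : z ≠ 1) (hw : z ≠ al cs i j (M i j)) :
    (cs.IsRightDescent z i ∧ ¬ cs.IsRightDescent z j) ∨
      (¬ cs.IsRightDescent z i ∧ cs.IsRightDescent z j) := by
  obtain ⟨k, hk, hl, h⟩ := C05b_form cs hij hz
  have hk0 : 0 < k := by
    rcases Nat.eq_zero_or_pos k with h0 | h0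
    · rw [h0] at hl
      exact absurd ((cs.length_eq_zero_iff).1 hl) h1
    · exact h0
  have hkM : k ≠ M i j := by
    intro hkM
    exact hw (pair_len_eq cs hij hm hz (by omega))
  have hba : M j i = M i j := M.symmetric j i
  rcases h with h | h
  · have r1 := rd_al cs hij hk0 hk
    have r2 : ¬ cs.IsRightDescent (al cs i j k) (lst j i k) := fun h3 =>
      hkM ((rd_al_iff cs hij hk0 hk).1 h3)
    rw [← h] at r1 r2
    unfold lst at r1 r2
    by_cases hp : Even k
    · rw [if_pos hp] at r1 r2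
      exact Or.inr ⟨r2, r1⟩
    · rw [if_neg hp] at r1 r2
      exact Or.inl ⟨r1, r2⟩
  · have r1 := rd_al cs hij.symm hk0 (C05b_symm hk)
    have r2 : ¬ cs.IsRightDescent (al cs j i k) (lst i j k) := fun h3 =>
      hkM (by rw [← hba]; exact (rd_al_iff cs hij.symm hk0 (C05b_symm hk)).1 h3)
    rw [← h] at r1 r2
    unfold lst at r1 r2
    by_cases hp : Even k
    · rw [if_pos hp] at r1 r2
      exact Or.inl ⟨r1, r2⟩
    · rw [if_neg hp] at r1 r2
      exact Or.inr ⟨r2, r1⟩

theorem pair_ld_unique (cs : CoxeterSystem M W) {i j : B} (hij : i ≠ j) (hm : M i j ≠ 0) {z : W}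
    (hz : z ∈ WP cs {i, j}) (h1 : z ≠ 1) (hw : z ≠ al cs i j (M i j)) :
    (cs.IsLeftDescent z i ∧ ¬ cs.IsLeftDescent z j) ∨
      (¬ cs.IsLeftDescent z i ∧ cs.IsLeftDescent z j) := by
  have h := pair_rd_unique cs hij hm (inv_mem hz) (fun h => h1 (inv_eq_one.1 h))
    (fun h => hw (by rw [← inv_inv z, h, al_top_inv cs hm]))
  rw [cs.isRightDescent_inv_iff, cs.isRightDescent_inv_iff] at h
  exact h

theorem pair_top_rd (cs : CoxeterSystem M W) {i j : B} (hij : i ≠ j) (hm : M i j ≠ 0) :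
    cs.IsRightDescent (al cs i j (M i j)) i ∧ cs.IsRightDescent (al cs i j (M i j)) j ∧
      cs.IsLeftDescent (al cs i j (M i j)) i ∧ cs.IsLeftDescent (al cs i j (M i j)) j := by
  have h1 : cs.IsLeftDescent (al cs i j (M i j)) i :=
    ld_al cs hij (Nat.pos_of_ne_zero hm) (Or.inl le_rfl)
  have h2 : cs.IsLeftDescent (al cs i j (M i j)) j :=
    (ld_al_iff cs hij (Nat.pos_of_ne_zero hm) (Or.inl le_rfl)).2 rfl
  have h3 := h1
  have h4 := h2
  rw [← cs.isRightDescent_inv_iff, al_top_inv cs hm] at h3 h4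
  exact ⟨h3, h4, h1, h2⟩

theorem pair_top_rm (cs : CoxeterSystem M W) {i j : B} (hij : i ≠ j) (hm : M i j ≠ 0) {h : W}
    (hr : Rd cs h (al cs i j (M i j))) : RM cs {i, j} h := by
  obtain ⟨_, _, h1, h2⟩ := pair_top_rd cs hij hm
  intro a ha hd
  rcases ha with ha | ha
  · rw [ha] at hd
    exact not_rd_of_common cs hd h1 hr
  · rw [Set.mem_singleton_iff.1 ha] at hd
    exact not_rd_of_common cs hd h2 hr

end Pool.Agent.Lib.KLT
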