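import Pool.Agent.Lib.MP_754fa1_al.T.C05

/-!
# C06a. Commuting parabolic subgroups (1)

`simple_comm`: `(s_j s_k)^2 = 1` and `s_j⁻¹ = s_j`. `cm_comm`: by words (`wp_word`).
`cm_disj`: `j ∈ J ∩ K` gives `M j j = 2`, but `M j j = 1` (`M.diagonal`).
`cm_rd` (`Rd p q`): `q ∈ WP K` has left descents in `K` only (`ld_wp`), so `LM J q`; `lm_len`.
`cm_ld_iff`: a left descent `c` of `p q` lies in `J ∪ K` (`p q ∈ WP (J ∪ K)`, `ld_wp`). For `c ∈ J` use `ld_lm_iff`
(`LM J q`) and that `c` is not a left descent of `q`; for `c ∈ K` write `p q = q p` (`cm_comm`) and argue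
in the same way. `cm_rd_iff`: inversion.
`cm_uniq`: `p'⁻¹ p = q' q⁻¹ ∈ WP J ∩ WP K = WP ∅ = 1` (`wp_inter`, `spt`).
`cm_union`: `⊇` clear; `⊆`: the set of products `p q` is closed under multiplication (closure induction),
or by words (`wp_word`).
`rm_union`: unfold.
`cm_rm`: suppose `k ∈ K` is a right descent of `x₁`: `x₁ = x₂ s_k`, `x = x₂ s_k p = x₂ p s_k`, so
`ℓ(x s_k) = ℓ(x₂ p) ≤ ℓ(x₁) - 1 + ℓ(p) < ℓ(x)` (`rm_len`), against `RM K x`.
-/

open Pool.Agent.Lib.MP_754fa1_al

namespace Pool.Agent.Lib.KLT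

universe u v w

variable {B : Type u} {W : Type v} [Group W] {M : CoxeterMatrix B}

theorem cm_symm {J K : Set B} (h : Cm M J K) : Cm M K J := by
  intro k hk j hj
  rw [M.symmetric]
  exact h j hj k hk

theorem cm_mono {J K J' K' : Set B} (h : Cm M J K) (hJ : J' ⊆ J) (hK : K' ⊆ K) : Cm M J' K' :=
  fun j hj k hk => h j (hJ hj) k (hK hk)

theorem cm_union_left {J K I : Set B} (h : Cm M J I) (h' : Cm M K I) : Cm M (J ∪ K) I := by
  rintro j (hj | hj) k hk
  · exact h j hj k hk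
  · exact h' j hj k hk

theorem cm_disj {J K : Set B} (h : Cm M J K) : Disjoint J K := by
  rw [Set.disjoint_left]
  intro j hj hk
  have h1 := h j hj j hk
  rw [M.diagonal] at h1
  exact absurd h1 (by norm_num)

private theorem c06_simple_comm (cs : CoxeterSystem M W) {j k : B} (h : M j k = 2) :
    Commute (cs.simple j) (cs.simple k) := by
  have h1 := cs.simple_mul_simple_pow j k
  rw [h, pow_two] at h1
  have h2 : cs.simple j * cs.simple k = (cs.simple j * cs.simple k)⁻¹ :=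
    eq_inv_of_mul_eq_one_left h1
  rw [mul_inv_rev, cs.inv_simple, cs.inv_simple] at h2
  exact h2

theorem cm_comm (cs : CoxeterSystem M W) {J K : Set B} (hc : Cm M J K) {p q : W}
    (hp : p ∈ WP cs J) (hq : q ∈ WP cs K) : p * q = q * p := by
  have h1 : ∀ j ∈ J, ∀ q : W, q ∈ WP cs K → Commute (cs.simple j) q := by
    intro j hj q hq
    unfold WP at hq
    induction hq using Subgroup.closure_induction with
    | mem x hx =>
      obtain ⟨k, hk, rfl⟩ := hx
      exact c06_simple_comm cs (hc j hj k hk)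
    | one => exact Commute.one_right _
    | mul x y _ _ hx hy => exact hx.mul_right hy
    | inv x _ hx => exact hx.inv_right
  have h2 : Commute p q := by
    unfold WP at hp
    induction hp using Subgroup.closure_induction with
    | mem x hx =>
      obtain ⟨j, hj, rfl⟩ := hx
      exact h1 j hj q hq
    | one => exact Commute.one_left _
    | mul x y _ _ hx hy => exact hx.mul_left hy
    | inv x _ hx => exact hx.inv_left
  exact h2

theorem cm_lm (cs : CoxeterSystem M W) {J K : Set B} (hc : Cm M J K) {q : W}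
    (hq : q ∈ WP cs K) : LM cs J q ∧ RM cs J q := by
  constructor
  · intro j hj hd
    exact Set.disjoint_left.1 (cm_disj hc) hj (ld_wp cs hq hd)
  · intro j hj hd
    exact Set.disjoint_left.1 (cm_disj hc) hj (rd_wp cs hq hd)

theorem cm_rd (cs : CoxeterSystem M W) {J K : Set B} (hc : Cm M J K) {p q : W}
    (hp : p ∈ WP cs J) (hq : q ∈ WP cs K) : Rd cs p q :=
  lm_len cs (cm_lm cs hc hq).1 hp

private theorem c06_mul_mem (cs : CoxeterSystem M W) {J K : Set B} {p q : W}
    (hp : p ∈ WP cs J) (hq : q ∈ WP cs K) : p * q ∈ WP cs (J ∪ K) :=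
  mul_mem (wp_mono cs Set.subset_union_left hp) (wp_mono cs Set.subset_union_right hq)

theorem cm_ld_iff (cs : CoxeterSystem M W) {J K : Set B} (hc : Cm M J K) {p q : W}
    (hp : p ∈ WP cs J) (hq : q ∈ WP cs K) (c : B) :
    cs.IsLeftDescent (p * q) c ↔ cs.IsLeftDescent p c ∨ cs.IsLeftDescent q c := by
  have h1 : c ∈ J → (cs.IsLeftDescent (p * q) c ↔ cs.IsLeftDescent p c) :=
    fun hj => ld_lm_iff cs (cm_lm cs hc hq).1 hp hj
  have h2 : c ∈ K → (cs.IsLeftDescent (p * q) c ↔ cs.IsLeftDescent q c) := by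
    intro hk
    rw [cm_comm cs hc hp hq]
    exact ld_lm_iff cs (cm_lm cs (cm_symm hc) hp).1 hq hk
  constructor
  · intro h
    rcases ld_wp cs (c06_mul_mem cs hp hq) h with hj | hk
    · exact Or.inl ((h1 hj).1 h)
    · exact Or.inr ((h2 hk).1 h)
  · rintro (h | h)
    · exact (h1 (ld_wp cs hp h)).2 h
    · exact (h2 (ld_wp cs hq h)).2 h

theorem cm_rd_iff (cs : CoxeterSystem M W) {J K : Set B} (hc : Cm M J K) {p q : W}
    (hp : p ∈ WP cs J) (hq : q ∈ WP cs K) (c : B) :
    cs.IsRightDescent (p * q) c ↔ cs.IsRightDescent p c ∨ cs.IsRightDescent q c := by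
  have h1 : c ∈ J → (cs.IsRightDescent (p * q) c ↔ cs.IsRightDescent p c) := by
    intro hj
    rw [cm_comm cs hc hp hq]
    exact rd_rm_iff cs (cm_lm cs hc hq).2 hp hj
  have h2 : c ∈ K → (cs.IsRightDescent (p * q) c ↔ cs.IsRightDescent q c) :=
    fun hk => rd_rm_iff cs (cm_lm cs (cm_symm hc) hp).2 hq hk
  constructor
  · intro h
    rcases rd_wp cs (c06_mul_mem cs hp hq) h with hj | hk
    · exact Or.inl ((h1 hj).1 h)
    · exact Or.inr ((h2 hk).1 h)
  · rintro (h | h)
    · exact (h1 (rd_wp cs hp h)).2 h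
    · exact (h2 (rd_wp cs hq h)).2 h

theorem cm_uniq (cs : CoxeterSystem M W) {J K : Set B} (hc : Cm M J K) {p p' q q' : W}
    (hp : p ∈ WP cs J) (hq : q ∈ WP cs K) (hp' : p' ∈ WP cs J) (hq' : q' ∈ WP cs K)
    (e : p * q = p' * q') : p = p' ∧ q = q' :=
  lm_uniq cs (cm_lm cs hc hq).1 (cm_lm cs hc hq').1 hp hp' e

theorem cm_union (cs : CoxeterSystem M W) {J K : Set B} (hc : Cm M J K) {x : W} :
    x ∈ WP cs (J ∪ K) ↔ ∃ p ∈ WP cs J, ∃ q ∈ WP cs K, x = p * q := by
  constructor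
  · intro hx
    unfold WP at hx
    induction hx using Subgroup.closure_induction with
    | mem x hx =>
      obtain ⟨i, hi | hi, rfl⟩ := hx
      · exact ⟨cs.simple i, (simple_mem_wp cs).2 hi, 1, one_mem _, (mul_one _).symm⟩
      · exact ⟨1, one_mem _, cs.simple i, (simple_mem_wp cs).2 hi, (one_mul _).symm⟩
    | one => exact ⟨1, one_mem _, 1, one_mem _, (mul_one _).symm⟩
    | mul x y _ _ hx hy =>
      obtain ⟨p, hp, q, hq, rfl⟩ := hx
      obtain ⟨p', hp', q', hq', rfl⟩ := hy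
      refine ⟨p * p', mul_mem hp hp', q * q', mul_mem hq hq', ?_⟩
      have h1 := cm_comm cs hc hp' hq
      calc p * q * (p' * q') = p * (q * p') * q' := by group
        _ = p * (p' * q) * q' := by rw [h1]
        _ = p * p' * (q * q') := by group
    | inv x _ hx =>
      obtain ⟨p, hp, q, hq, rfl⟩ := hx
      refine ⟨p⁻¹, inv_mem hp, q⁻¹, inv_mem hq, ?_⟩
      rw [mul_inv_rev]
      exact (cm_comm cs hc (inv_mem hp) (inv_mem hq)).symm
  · rintro ⟨p, hp, q, hq, rfl⟩
    exact c06_mul_mem cs hp hq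

theorem rm_union (cs : CoxeterSystem M W) {J K : Set B} {x : W} :
    RM cs (J ∪ K) x ↔ RM cs J x ∧ RM cs K x := by
  constructor
  · intro h
    exact ⟨fun j hj => h j (Or.inl hj), fun j hj => h j (Or.inr hj)⟩
  · rintro ⟨h, h'⟩ j (hj | hj)
    · exact h j hj
    · exact h' j hj

theorem lm_union (cs : CoxeterSystem M W) {J K : Set B} {x : W} :
    LM cs (J ∪ K) x ↔ LM cs J x ∧ LM cs K x := by
  constructor
  · intro h
    exact ⟨fun j hj => h j (Or.inl hj), fun j hj => h j (Or.inr hj)⟩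
  · rintro ⟨h, h'⟩ j (hj | hj)
    · exact h j hj
    · exact h' j hj

theorem cm_rm (cs : CoxeterSystem M W) {J K : Set B} (hc : Cm M J K) {x x₁ p : W}
    (hx : RM cs K x) (e : x = x₁ * p) (hx₁ : RM cs J x₁) (hp : p ∈ WP cs J) :
    RM cs (J ∪ K) x₁ := by
  rw [rm_union]
  refine ⟨hx₁, fun k hk hd => hx k hk ?_⟩
  have h1 : cs.length (x₁ * p) = cs.length x₁ + cs.length p := rm_len cs hx₁ hp
  have h2 := cm_comm cs hc hp ((simple_mem_wp cs).2 hk)
  have h3 := cs.isRightDescent_iff.1 hd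
  have h4 := cs.length_mul_le (x₁ * cs.simple k) p
  unfold CoxeterSystem.IsRightDescent
  rw [e, mul_assoc, h2, ← mul_assoc]
  omega

theorem cm_lm' (cs : CoxeterSystem M W) {J K : Set B} (hc : Cm M J K) {y q y₁ : W}
    (hy : LM cs K y) (e : y = q * y₁) (hy₁ : LM cs J y₁) (hq : q ∈ WP cs J) :
    LM cs (J ∪ K) y₁ := by
  rw [lm_union]
  refine ⟨hy₁, fun k hk hd => hy k hk ?_⟩
  have h1 : cs.length (q * y₁) = cs.length q + cs.length y₁ := lm_len cs hy₁ hq
  have h2 := cm_comm cs hc hq ((simple_mem_wp cs).2 hk)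
  have h3 := cs.isLeftDescent_iff.1 hd
  have h4 := cs.length_mul_le q (cs.simple k * y₁)
  unfold CoxeterSystem.IsLeftDescent
  rw [e, ← mul_assoc, ← h2, mul_assoc]
  omega

end Pool.Agent.Lib.KLT
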