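import Pool.Agent.Lib.MP_754fa1_al.T.C06a

/-!
# C06b. Commuting parabolic subgroups (2): suffixes and factors

Let `p ∈ WP J`, `q ∈ WP K`, `Cm M J K`.

`cm_suf`: let `Suf z (p q)`, `p q = g z` reduced. `z, g ∈ WP (J ∪ K)` (`wp_suf`, the same for prefixes by
`spt_mul`), so `z = p' q'`, `g = p'' q''` (`cm_union`) and `p q = (p'' p') (q'' q')` (`cm_comm`), so
`p = p'' p'`, `q = q'' q'` (`cm_uniq`). Lengths: `ℓ(p q) = ℓ(p) + ℓ(q) ≤ ℓ(p'') + ℓ(p') + ℓ(q'') + ℓ(q') =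
ℓ(g) + ℓ(z) = ℓ(p q)` (`cm_rd`), so both inequalities are equalities.

`cm_fac`: the same with three factors. `cm_suf_mul`, `cm_fac_mul`: `p = a p'`, `q = b q'` reduced; then
`p q = (a b) (p' q')`, lengths by `cm_rd`. For `Fac`: `p = a p' b`, `q = c q' d`, `p q = (a c) (p' q') (b d)`.

`fac_wp`: `Fac z x`, `x ∈ WP J` imply `z ∈ WP J`: supports (`spt_mul`).
-/

open Pool.Agent.Lib.MP_754fa1_al

namespace Pool.Agent.Lib.KLT

universe u v w

variable {B : Type u} {W : Type v} [Group W] {M : CoxeterMatrix B}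

private theorem C06b_rd3 (cs : CoxeterSystem M W) {p z q : W}
    (h : cs.length (p * z * q) = cs.length p + cs.length z + cs.length q) :
    Rd cs p z ∧ Rd cs (p * z) q := by
  have h1 := cs.length_mul_le (p * z) q
  have h2 := cs.length_mul_le p z
  unfold Rd
  omega

private theorem C06b_mem3 (cs : CoxeterSystem M W) {J : Set B} {p z q : W}
    (h : cs.length (p * z * q) = cs.length p + cs.length z + cs.length q)
    (hx : p * z * q ∈ WP cs J) : p ∈ WP cs J ∧ z ∈ WP cs J ∧ q ∈ WP cs J := by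
  obtain ⟨h1, h2⟩ := C06b_rd3 cs h
  rw [wp_iff_spt, spt_mul cs h2, spt_mul cs h1] at hx
  simp only [Set.union_subset_iff] at hx
  exact ⟨(wp_iff_spt cs).2 hx.1.1, (wp_iff_spt cs).2 hx.1.2, (wp_iff_spt cs).2 hx.2⟩

private theorem C06b_mem2 (cs : CoxeterSystem M W) {J : Set B} {g z : W} (h : Rd cs g z)
    (hx : g * z ∈ WP cs J) : g ∈ WP cs J ∧ z ∈ WP cs J := by
  rw [wp_iff_spt, spt_mul cs h] at hx
  simp only [Set.union_subset_iff] at hx
  exact ⟨(wp_iff_spt cs).2 hx.1, (wp_iff_spt cs).2 hx.2⟩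

theorem fac_wp (cs : CoxeterSystem M W) {J : Set B} {z x : W} (h : Fac cs z x)
    (hx : x ∈ WP cs J) : z ∈ WP cs J := by
  obtain ⟨p, q, e, hl⟩ := h
  rw [e] at hl hx
  exact (C06b_mem3 cs hl hx).2.1

theorem cm_suf (cs : CoxeterSystem M W) {J K : Set B} (hc : Cm M J K) {p q z : W}
    (hp : p ∈ WP cs J) (hq : q ∈ WP cs K) (h : Suf cs z (p * q)) :
    ∃ p' ∈ WP cs J, ∃ q' ∈ WP cs K, z = p' * q' ∧ Suf cs p' p ∧ Suf cs q' q := by
  have hpq : p * q ∈ WP cs (J ∪ K) := (cm_union cs hc).2 ⟨p, hp, q, hq, rfl⟩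
  obtain ⟨g, hg⟩ : ∃ g, g = p * q * z⁻¹ := ⟨_, rfl⟩
  have e : p * q = g * z := by rw [hg]; group
  have hr : Rd cs g z := by
    unfold Rd
    rw [← e, hg]
    exact h
  rw [e] at hpq
  obtain ⟨hgm, hzm⟩ := C06b_mem2 cs hr hpq
  obtain ⟨p', hp', q', hq', ez⟩ := (cm_union cs hc).1 hzm
  obtain ⟨p'', hp'', q'', hq'', eg⟩ := (cm_union cs hc).1 hgm
  have e2 : p * q = (p'' * p') * (q'' * q') := by
    rw [e, eg, ez]
    have := cm_comm cs hc hp' hq''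
    calc p'' * q'' * (p' * q') = p'' * (q'' * p') * q' := by group
      _ = p'' * (p' * q'') * q' := by rw [this]
      _ = (p'' * p') * (q'' * q') := by group
  obtain ⟨e3, e4⟩ := cm_uniq cs hc hp hq (mul_mem hp'' hp') (mul_mem hq'' hq') e2
  have l1 := cm_rd cs hc hp hq
  have l2 := cm_rd cs hc hp' hq'
  have l3 := cm_rd cs hc hp'' hq''
  have l4 := cs.length_mul_le p'' p'
  have l5 := cs.length_mul_le q'' q'
  unfold Rd at hr l1 l2 l3
  rw [← e, eg, ez] at hr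
  rw [← e3] at l4
  rw [← e4] at l5
  refine ⟨p', hp', q', hq', ez, ?_, ?_⟩
  · unfold Suf
    have : p * p'⁻¹ = p'' := by rw [e3]; group
    rw [this]
    omega
  · unfold Suf
    have : q * q'⁻¹ = q'' := by rw [e4]; group
    rw [this]
    omega

theorem cm_fac (cs : CoxeterSystem M W) {J K : Set B} (hc : Cm M J K) {p q z : W}
    (hp : p ∈ WP cs J) (hq : q ∈ WP cs K) (h : Fac cs z (p * q)) :
    ∃ p' ∈ WP cs J, ∃ q' ∈ WP cs K, z = p' * q' ∧ Fac cs p' p ∧ Fac cs q' q := by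
  have hpq : p * q ∈ WP cs (J ∪ K) := (cm_union cs hc).2 ⟨p, hp, q, hq, rfl⟩
  obtain ⟨a, b, e, hl⟩ := h
  have hl' := hl
  rw [e] at hl' hpq
  obtain ⟨ham, hzm, hbm⟩ := C06b_mem3 cs hl' hpq
  obtain ⟨p', hp', q', hq', ez⟩ := (cm_union cs hc).1 hzm
  obtain ⟨p1, hp1, q1, hq1, ea⟩ := (cm_union cs hc).1 ham
  obtain ⟨p2, hp2, q2, hq2, eb⟩ := (cm_union cs hc).1 hbm
  have e2 : p * q = (p1 * p' * p2) * (q1 * q' * q2) := by
    rw [e, ea, ez, eb]
    have c1 := cm_comm cs hc hp' hq1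
    have c2 := cm_comm cs hc hp2 (mul_mem hq1 hq')
    calc p1 * q1 * (p' * q') * (p2 * q2) = p1 * (q1 * p') * q' * p2 * q2 := by group
      _ = p1 * (p' * q1) * q' * p2 * q2 := by rw [c1]
      _ = p1 * p' * ((q1 * q') * p2) * q2 := by group
      _ = p1 * p' * (p2 * (q1 * q')) * q2 := by rw [c2]
      _ = (p1 * p' * p2) * (q1 * q' * q2) := by group
  obtain ⟨e3, e4⟩ := cm_uniq cs hc hp hq (mul_mem (mul_mem hp1 hp') hp2)
    (mul_mem (mul_mem hq1 hq') hq2) e2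
  have l1 := cm_rd cs hc hp hq
  have l2 := cm_rd cs hc hp' hq'
  have l3 := cm_rd cs hc hp1 hq1
  have l4 := cm_rd cs hc hp2 hq2
  have l5 := cs.length_mul_le (p1 * p') p2
  have l6 := cs.length_mul_le p1 p'
  have l7 := cs.length_mul_le (q1 * q') q2
  have l8 := cs.length_mul_le q1 q'
  unfold Rd at l1 l2 l3 l4
  rw [ea, ez, eb] at hl
  rw [← e3] at l5
  rw [← e4] at l7
  exact ⟨p', hp', q', hq', ez, ⟨p1, p2, e3, by omega⟩, ⟨q1, q2, e4, by omega⟩⟩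

theorem cm_suf_mul (cs : CoxeterSystem M W) {J K : Set B} (hc : Cm M J K) {p q p' q' : W}
    (hp : p ∈ WP cs J) (hq : q ∈ WP cs K) (h : Suf cs p' p) (h' : Suf cs q' q) :
    Suf cs (p' * q') (p * q) := by
  have hp' := wp_suf cs h hp
  have hq' := wp_suf cs h' hq
  have ha : p * p'⁻¹ ∈ WP cs J := mul_mem hp (inv_mem hp')
  have hb : q * q'⁻¹ ∈ WP cs K := mul_mem hq (inv_mem hq')
  have c1 := cm_comm cs hc hp' hb
  have e : p * q * (p' * q')⁻¹ = (p * p'⁻¹) * (q * q'⁻¹) := by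
    calc p * q * (p' * q')⁻¹ = p * p'⁻¹ * (p' * (q * q'⁻¹)) * p'⁻¹ := by group
      _ = p * p'⁻¹ * ((q * q'⁻¹) * p') * p'⁻¹ := by rw [c1]
      _ = (p * p'⁻¹) * (q * q'⁻¹) := by group
  have l1 := cm_rd cs hc hp hq
  have l2 := cm_rd cs hc hp' hq'
  have l3 := cm_rd cs hc ha hb
  unfold Rd at l1 l2 l3
  unfold Suf at h h' ⊢
  rw [e]
  omega

theorem cm_fac_mul (cs : CoxeterSystem M W) {J K : Set B} (hc : Cm M J K) {p q p' q' : W}
    (hp : p ∈ WP cs J) (hq : q ∈ WP cs K) (h : Fac cs p' p) (h' : Fac cs q' q) :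
    Fac cs (p' * q') (p * q) := by
  obtain ⟨p1, p2, e1, l1⟩ := h
  obtain ⟨q1, q2, e2, l2⟩ := h'
  have l1' := l1
  have l2' := l2
  have hp0 := hp
  have hq0 := hq
  rw [e1] at l1' hp0
  rw [e2] at l2' hq0
  obtain ⟨hp1, hp', hp2⟩ := C06b_mem3 cs l1' hp0
  obtain ⟨hq1, hq', hq2⟩ := C06b_mem3 cs l2' hq0
  have c1 := cm_comm cs hc (mul_mem hp' hp2) hq1
  have c2 := cm_comm cs hc hp2 hq'
  have a1 := cm_rd cs hc hp hq
  have a2 := cm_rd cs hc hp' hq'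
  have a3 := cm_rd cs hc hp1 hq1
  have a4 := cm_rd cs hc hp2 hq2
  unfold Rd at a1 a2 a3 a4
  refine ⟨p1 * q1, p2 * q2, ?_, by omega⟩
  calc p * q = (p1 * p' * p2) * (q1 * q' * q2) := by rw [← e1, ← e2]
    _ = p1 * ((p' * p2) * q1) * q' * q2 := by group
    _ = p1 * (q1 * (p' * p2)) * q' * q2 := by rw [c1]
    _ = p1 * q1 * p' * (p2 * q') * q2 := by group
    _ = p1 * q1 * p' * (q' * p2) * q2 := by rw [c2]
    _ = p1 * q1 * (p' * q') * (p2 * q2) := by group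

end Pool.Agent.Lib.KLT
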