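import Pool.Agent.Lib.MP_754fa1_al.T.C06b

/-!
# C07. Peeling

`peel_right`: `x z` reduced, `c ∉ spt z` a right descent of `x z`; then `c` is a right descent of `x` and
`M c e ≠ 0` for all `e ∈ spt z`. Induction on `ℓ(z)`. `z = 1`: clear. Else let `e` be a right descent of `z`,
`z = z' s_e`; `e ≠ c` as `e ∈ spt z`. `x z = (x z') s_e` is reduced, so `e`, `c` are right descents of
`x z`; `two_rd` gives `M c e ≠ 0`, `two_rd_step` gives that `c` is a right descent of `x z s_e = x z'`.
`x z'` is reduced, `spt z = spt z' ∪ {e}` (`spt_mul`), so induction applies.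

`peel_pre`: if moreover `z = z₁ z₂` reduced then `c` is a right descent of `x z₁`: apply `peel_right` to
`(x z₁) z₂`.

`peel_left` : the mirror image (invert).

`right_part`: `Cm M I K`, `z ∈ WP K`, `x z` reduced, `x = x₁ p`, `RM I x₁`, `p ∈ WP I`; then `RM I (x₁ z)` and
`x z = (x₁ z) p`. The second is `cm_comm`. For the first: `x₁ z` is reduced because `ℓ(x z) = ℓ(x₁) + ℓ(p) + ℓ(z)`
(`rm_len`) and `x z = x₁ z p`, so `ℓ(x₁ z) ≥ ℓ(x₁) + ℓ(z)`. If `c ∈ I` is a right descent of `x₁ z`, then `c ∉ spt z ⊆ K`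
(`cm_disj`), so `peel_right` gives that `c` is a right descent of `x₁`, against `RM I x₁`.
-/

open Pool.Agent.Lib.MP_754fa1_al

namespace Pool.Agent.Lib.KLT

universe u v w

variable {B : Type u} {W : Type v} [Group W] {M : CoxeterMatrix B}

private theorem C07_aux (cs : CoxeterSystem M W) {x : W} {c : B} : ∀ (n : ℕ) (z : W),
    cs.length z = n → Rd cs x z → c ∉ spt cs z → cs.IsRightDescent (x * z) c →
    cs.IsRightDescent x c ∧ ∀ e ∈ spt cs z, M c e ≠ 0 := by
  intro n
  induction n with
  | zero =>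
    intro z hn _ _ hd
    have hz : z = 1 := cs.length_eq_zero_iff.mp hn
    subst hz
    rw [mul_one] at hd
    refine ⟨hd, fun e he => ?_⟩
    rw [spt_one] at he
    exact absurd he (Set.notMem_empty e)
  | succ n ih =>
    intro z hn hR hc hd
    have hz1 : z ≠ 1 := by
      rintro rfl
      rw [cs.length_one] at hn
      omega
    obtain ⟨e, he⟩ := cs.exists_rightDescent_of_ne_one hz1
    have hl : cs.length (z * cs.simple e) + 1 = cs.length z := cs.isRightDescent_iff.mp he
    have hzz : z * cs.simple e * cs.simple e = z := cs.simple_mul_simple_cancel_right e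
    have hRe : Rd cs (z * cs.simple e) (cs.simple e) := by
      unfold Rd
      rw [hzz, cs.length_simple, hl]
    have hspt : spt cs z = spt cs (z * cs.simple e) ∪ {e} := by
      have h1 := spt_mul cs hRe
      rw [hzz, spt_simple] at h1
      exact h1
    have hec : e ≠ c := by
      rintro rfl
      apply hc
      rw [hspt]
      exact Or.inr rfl
    have hR1 : cs.length (x * z) = cs.length x + cs.length z := hR
    have hxz : x * z * cs.simple e = x * (z * cs.simple e) := mul_assoc _ _ _
    have hle := cs.length_mul_le x (z * cs.simple e)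
    have hge : cs.length (x * z) ≤ cs.length (x * (z * cs.simple e)) + 1 := by
      have h1 := cs.length_mul_le (x * (z * cs.simple e)) (cs.simple e)
      rw [cs.length_simple, mul_assoc, hzz] at h1
      exact h1
    have hR' : Rd cs x (z * cs.simple e) := by
      unfold Rd
      omega
    have hde : cs.IsRightDescent (x * z) e := by
      show cs.length (x * z * cs.simple e) < cs.length (x * z)
      rw [hxz]
      omega
    have hM := (two_rd cs hec hde hd).1
    have hd' : cs.IsRightDescent (x * (z * cs.simple e)) c := by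
      rw [← hxz]
      exact two_rd_step cs hec hde hd
    obtain ⟨h1, h2⟩ := ih (z * cs.simple e) (by omega) hR'
      (fun h => hc (by rw [hspt]; exact Or.inl h)) hd'
    refine ⟨h1, fun e' he' => ?_⟩
    rw [hspt] at he'
    rcases he' with he' | he'
    · exact h2 e' he'
    · rw [Set.mem_singleton_iff] at he'
      rw [he', M.symmetric]
      exact hM

theorem peel_right (cs : CoxeterSystem M W) {x z : W} {c : B} (h : Rd cs x z)
    (hc : c ∉ spt cs z) (hd : cs.IsRightDescent (x * z) c) :
    cs.IsRightDescent x c ∧ ∀ e ∈ spt cs z, M c e ≠ 0 :=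
  C07_aux cs _ z rfl h hc hd

theorem peel_pre (cs : CoxeterSystem M W) {x z₁ z₂ : W} {c : B} (h : Rd cs x (z₁ * z₂))
    (h' : Rd cs z₁ z₂) (hc : c ∉ spt cs (z₁ * z₂)) (hd : cs.IsRightDescent (x * (z₁ * z₂)) c) :
    cs.IsRightDescent (x * z₁) c := by
  have h1 : cs.length (x * (z₁ * z₂)) = cs.length x + cs.length (z₁ * z₂) := h
  have h2 : cs.length (z₁ * z₂) = cs.length z₁ + cs.length z₂ := h'
  have h3 := cs.length_mul_le x z₁
  have h4 := cs.length_mul_le (x * z₁) z₂
  rw [← mul_assoc] at h1 hd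
  have hR : Rd cs (x * z₁) z₂ := by
    unfold Rd
    omega
  refine (peel_right cs hR (fun h5 => hc ?_) hd).1
  rw [spt_mul cs h']
  exact Or.inr h5

theorem peel_left (cs : CoxeterSystem M W) {z y : W} {c : B} (h : Rd cs z y)
    (hc : c ∉ spt cs z) (hd : cs.IsLeftDescent (z * y) c) :
    cs.IsLeftDescent y c ∧ ∀ e ∈ spt cs z, M c e ≠ 0 := by
  have h1 : Rd cs y⁻¹ z⁻¹ := (rd_inv_iff cs).mpr h
  have h2 : cs.IsRightDescent (y⁻¹ * z⁻¹) c := by
    rw [← mul_inv_rev]
    exact cs.isRightDescent_inv_iff.mpr hd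
  have h3 := peel_right cs h1 (by rw [spt_inv]; exact hc) h2
  rw [spt_inv] at h3
  exact ⟨cs.isRightDescent_inv_iff.mp h3.1, h3.2⟩

theorem right_part (cs : CoxeterSystem M W) {I K : Set B} (hc : Cm M I K) {x x₁ p z : W}
    (hz : z ∈ WP cs K) (h : Rd cs x z) (e : x = x₁ * p) (hx₁ : RM cs I x₁) (hp : p ∈ WP cs I) :
    RM cs I (x₁ * z) ∧ x * z = (x₁ * z) * p := by
  have he : x * z = (x₁ * z) * p := by
    rw [e, mul_assoc, cm_comm cs hc hp hz, mul_assoc]
  refine ⟨?_, he⟩
  have h1 : cs.length (x * z) = cs.length x + cs.length z := h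
  have h2 : cs.length (x₁ * p) = cs.length x₁ + cs.length p := rm_len cs hx₁ hp
  have h3 := cs.length_mul_le x₁ z
  have h4 := cs.length_mul_le (x₁ * z) p
  rw [← he] at h4
  rw [← e] at h2
  have hR : Rd cs x₁ z := by
    unfold Rd
    omega
  intro c hcI hd
  have hcz : c ∉ spt cs z := fun h5 =>
    Set.disjoint_left.mp (cm_disj hc) hcI ((wp_iff_spt cs).mp hz h5)
  exact hx₁ c hcI (peel_right cs hR hcz hd).1

end Pool.Agent.Lib.KLT
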