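import Pool.Agent.Lib.MP_754fa1_al.EI
import Pool.Agent.Lib.MP_754fa1_al.T.C04b

/-!
# D01. Coordinates and multiplication by `C_s`

`D.c_simple hL` : `C_s = T_s + v^{-L s}`. `repr_cs_down`, `repr_cs_up`: expand `h` (or use `Hecke.repr_s_mul` of `EI` and
`D.t_quad`): `T_s T_z = T_{sz}` or `T_{sz} + ξ T_z`; the `z`-coordinate of `T_s h` is `h(sz)` if `s` is not a left descent of
`z`, and `h(sz) + ξ_s h(z)` if it is; add `v^{-L s} h(z)`; `ξ + v^{-L} = v^L`. It suffices to check `h = T_y` (`t_induction`).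
The right versions: `Hecke.repr_mul_s_up`, `repr_mul_s_down` of `EI`.

`repr_c_ne`: from `D.c_sub` (or `lat_c_sub_t`). `repr_c_one`, `repr_c_len`: from `D.c_tri` (`C_w - T_w` is a combination of
`T_y` with `ℓ(y) < ℓ(w)`; `Hecke.mem_sp_iff`).

`repr_c_ld`: `i` a left descent of `w`, not of `z`: `C_i C_w = η C_w` (`cs_mul_c`), and the `z`-coordinate (`repr_cs_up`) gives
`p(s z) + v^{-L} p(z) = (v^L + v^{-L}) p(z)`, so `p(z) = v^{-L} p(s z)`. `repr_c_rd`: the mirror image (`c_mul_t`,
`c_simple`).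

`cs_c_up`: use `D.c_eq (cs.simple i * w)`: `bar` invariance: `bar` is multiplicative, `bar_c`. `Lat (-1)`: the `z`-coordinate of
`C_i C_w - T_{s w}`: if `i` is a left descent of `z`: `p(s z) + v^{L} p(z) - [z = s w]` with `p = D.t.repr (D.c w)`; `v^L p(z)` has
degree `≤ -1` by hypothesis; `p(s z) - [s z = w]` has degree `≤ -1`. If not: `p(s z)` has degree `≤ - L - 1`, `v^{-L} p(z)` has degree `≤ -L ≤ -1`, and
`z ≠ s w` as `i` is a left descent of `s w`. `c_cs_up`: the mirror image.
-/

open LaurentPolynomial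
open Pool.Agent.Lib.MP_754fa1_al

namespace Pool.Agent.Lib.KLT

universe u v w

variable {B : Type u} {W : Type v} [Group W] {M : CoxeterMatrix B}
variable {cs : CoxeterSystem M W} {L : B → ℕ} {H : Type w} [Ring H] [Algebra Lau H]
variable (D : KL cs L H)

private theorem repr_mul_cs_down_aux (hL : ∀ i, 0 < L i) (i : B) (h : H) {z : W}
    (hz : cs.IsRightDescent z i) :
    D.t.repr (h * D.c (cs.simple i)) z =
      D.t.repr h (z * cs.simple i) + T (L i : ℤ) * D.t.repr h z := by
  rw [D.c_simple hL, mul_add, mul_smul_comm, mul_one, map_add, Finsupp.add_apply, map_smul,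
    Finsupp.smul_apply, D.toHecke.repr_mul_s_down i h z hz, smul_eq_mul, xi]
  ring

theorem repr_cs_down (hL : ∀ i, 0 < L i) (i : B) (h : H) {z : W} (hz : cs.IsLeftDescent z i) :
    D.t.repr (D.c (cs.simple i) * h) z =
      D.t.repr h (cs.simple i * z) + T (L i : ℤ) * D.t.repr h z := by
  have h1 := repr_mul_cs_down_aux D.opp hL i (MulOpposite.op h) (z := z⁻¹)
    (by rw [cs.isRightDescent_inv_iff]; exact hz)
  rw [KL.opp_c, KL.opp_repr, KL.opp_repr, KL.opp_repr, cs.inv_simple, ← MulOpposite.op_mul,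
    MulOpposite.unop_op, MulOpposite.unop_op, inv_inv, mul_inv_rev, inv_inv, cs.inv_simple] at h1
  exact h1

theorem repr_cs_up (hL : ∀ i, 0 < L i) (i : B) (h : H) {z : W} (hz : ¬ cs.IsLeftDescent z i) :
    D.t.repr (D.c (cs.simple i) * h) z =
      D.t.repr h (cs.simple i * z) + T (-(L i : ℤ)) * D.t.repr h z := by
  rw [D.c_simple hL, add_mul, smul_mul_assoc, one_mul, map_add, Finsupp.add_apply, map_smul,
    Finsupp.smul_apply, D.toHecke.repr_s_mul i h z hz, smul_eq_mul]

theorem repr_mul_cs_down (hL : ∀ i, 0 < L i) (i : B) (h : H) {z : W}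
    (hz : cs.IsRightDescent z i) :
    D.t.repr (h * D.c (cs.simple i)) z =
      D.t.repr h (z * cs.simple i) + T (L i : ℤ) * D.t.repr h z := by
  exact repr_mul_cs_down_aux D hL i h hz

theorem repr_mul_cs_up (hL : ∀ i, 0 < L i) (i : B) (h : H) {z : W}
    (hz : ¬ cs.IsRightDescent z i) :
    D.t.repr (h * D.c (cs.simple i)) z =
      D.t.repr h (z * cs.simple i) + T (-(L i : ℤ)) * D.t.repr h z := by
  rw [D.c_simple hL, mul_add, mul_smul_comm, mul_one, map_add, Finsupp.add_apply, map_smul,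
    Finsupp.smul_apply, D.toHecke.repr_mul_s_up i h z hz, smul_eq_mul]

theorem repr_c_ne {w z : W} (h : z ≠ w) : DegLe (-1) (D.t.repr (D.c w) z) := by
  have e1 : D.c w = (D.c w - D.t w) + D.t w := by abel
  have e2 : D.t.repr (D.c w) z = D.t.repr (D.c w - D.t w) z := by
    conv_lhs => rw [e1]
    rw [map_add, Finsupp.add_apply, Module.Basis.repr_self, Finsupp.single_eq_of_ne h, add_zero]
  rw [e2]
  intro n hn
  exact D.c_sub w z n (by omega)

/-- the coordinate of `C_w` at `w` is `1` -/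
theorem repr_c_one (w : W) : D.t.repr (D.c w) w = 1 := by
  have h1 := D.toHecke.mem_sp_iff.1 (D.c_tri w) w le_rfl
  rw [map_sub, Finsupp.sub_apply, Module.Basis.repr_self, Finsupp.single_eq_same,
    sub_eq_zero] at h1
  exact h1

theorem repr_c_len {w z : W} (h : cs.length w ≤ cs.length z) (hz : z ≠ w) :
    D.t.repr (D.c w) z = 0 := by
  have h1 := D.toHecke.mem_sp_iff.1 (D.c_tri w) z h
  rw [map_sub, Finsupp.sub_apply, Module.Basis.repr_self, Finsupp.single_eq_of_ne hz,
    sub_zero] at h1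
  exact h1

theorem repr_c_ld (hL : ∀ i, 0 < L i) {i : B} {w z : W} (hw : cs.IsLeftDescent w i)
    (hz : ¬ cs.IsLeftDescent z i) :
    D.t.repr (D.c w) z = T (-(L i : ℤ)) * D.t.repr (D.c w) (cs.simple i * z) := by
  have h1 := repr_cs_up D hL i (D.c w) hz
  rw [D.cs_mul_c hL hw, map_smul, Finsupp.smul_apply, smul_eq_mul, eta] at h1
  have h2 : T (L i : ℤ) * D.t.repr (D.c w) z = D.t.repr (D.c w) (cs.simple i * z) := by
    linear_combination h1
  rw [← h2, ← mul_assoc, ← T_add, neg_add_cancel, T_zero, one_mul]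

theorem repr_c_rd (hL : ∀ i, 0 < L i) {i : B} {w z : W} (hw : cs.IsRightDescent w i)
    (hz : ¬ cs.IsRightDescent z i) :
    D.t.repr (D.c w) z = T (-(L i : ℤ)) * D.t.repr (D.c w) (z * cs.simple i) := by
  have h1 := repr_mul_cs_up D hL i (D.c w) hz
  have h0 : D.c w * D.c (cs.simple i) = eta (L i) • D.c w := by
    rw [D.c_simple hL, mul_add, D.c_mul_t hL hw, mul_smul_comm, mul_one, eta, add_smul]
  rw [h0, map_smul, Finsupp.smul_apply, smul_eq_mul, eta] at h1
  have h2 : T (L i : ℤ) * D.t.repr (D.c w) z = D.t.repr (D.c w) (z * cs.simple i) := by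
    linear_combination h1
  rw [← h2, ← mul_assoc, ← T_add, neg_add_cancel, T_zero, one_mul]

theorem cs_c_up (hL : ∀ i, 0 < L i) {i : B} {w : W} (hw : ¬ cs.IsLeftDescent w i)
    (h : ∀ z, cs.IsLeftDescent z i → DegLe (-(L i : ℤ) - 1) (D.t.repr (D.c w) z)) :
    D.c (cs.simple i) * D.c w = D.c (cs.simple i * w) := by
  apply D.c_eq
  · rw [map_mul, D.bar_c, D.bar_c]
  · intro z
    have hL' := hL i
    rw [map_sub, Finsupp.sub_apply, Module.Basis.repr_self]
    by_cases hz : cs.IsLeftDescent z i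
    · rw [repr_cs_down D hL i (D.c w) hz]
      have h2 : DegLe (-1) (T (L i : ℤ) * D.t.repr (D.c w) z) :=
        ((DegLe.T le_rfl).mul (h z hz)).mono (by omega)
      by_cases hzw : z = cs.simple i * w
      · subst hzw
        rw [Finsupp.single_eq_same, cs.simple_mul_simple_cancel_left, repr_c_one,
          add_sub_cancel_left]
        exact h2
      · rw [Finsupp.single_eq_of_ne hzw, sub_zero]
        refine DegLe.add (repr_c_ne D ?_) h2
        rintro rfl
        exact hzw (by rw [cs.simple_mul_simple_cancel_left])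
    · rw [repr_cs_up D hL i (D.c w) hz]
      have hzw : z ≠ cs.simple i * w := by
        rintro rfl
        rw [cs.isLeftDescent_iff_not_isLeftDescent_mul, cs.simple_mul_simple_cancel_left] at hz
        exact hz hw
      rw [Finsupp.single_eq_of_ne hzw, sub_zero]
      have hz' : cs.IsLeftDescent (cs.simple i * z) i := by
        rw [cs.isLeftDescent_iff_not_isLeftDescent_mul, cs.simple_mul_simple_cancel_left]
        exact hz
      refine DegLe.add ((h _ hz').mono (by omega)) ?_
      have h3 : DegLe 0 (D.t.repr (D.c w) z) := D.lat_c w z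
      exact ((DegLe.T le_rfl).mul h3).mono (by omega)

theorem c_cs_up (hL : ∀ i, 0 < L i) {i : B} {w : W} (hw : ¬ cs.IsRightDescent w i)
    (h : ∀ z, cs.IsRightDescent z i → DegLe (-(L i : ℤ) - 1) (D.t.repr (D.c w) z)) :
    D.c w * D.c (cs.simple i) = D.c (w * cs.simple i) := by
  have h1 := cs_c_up D.opp hL (i := i) (w := w⁻¹) (by rw [cs.isLeftDescent_inv_iff]; exact hw)
    (by
      intro z hz
      rw [KL.opp_c, KL.opp_repr, inv_inv, MulOpposite.unop_op]
      exact h _ (by rw [cs.isRightDescent_inv_iff]; exact hz))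
  rw [KL.opp_c, KL.opp_c, KL.opp_c, cs.inv_simple, inv_inv, ← MulOpposite.op_mul, mul_inv_rev,
    inv_inv, cs.inv_simple] at h1
  exact MulOpposite.op_injective h1

end Pool.Agent.Lib.KLT
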