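import Pool.Agent.Lib.MP_754fa1_al.T.D01

/-!
# D01b. Parabolic subalgebras

`HP D J h`: all `T`-coordinates outside `W_J` vanish. `hp_iff_span`: `Finsupp` (basis). `hp_s_mul`: `s ∈ J`, `T_s T_z` is a combination of `T_{s z}`,
`T_z`. `hp_mul`: by `hp_iff_span` (span induction on the first factor) it is enough that `T_z k ∈ H_J` for `z ∈ W_J`; use a reduced word of
`z` with letters in `J` (`wp_word`, `len_induction_left` or list induction) and `T_z = T_s T_{z'}`. `hp_bar`: `bar T_z` for `z ∈ W_J`: the same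
word induction, `bar (T_s T_{z'}) = bar T_s * bar T_{z'}`, `D.bar_t_simple`, `hp_mul`.

`hp_c`: `w ∈ W_J`. Put `h = C_w`, `h₁` the part of `h` in `H_J`, `h₂ = h - h₁`. `bar h = h` gives `bar h₂ - h₂ = h₁ - bar h₁ ∈ H_J`. Suppose
`h₂ ≠ 0`, take `z ∉ W_J` with `D.t.repr h₂ z ≠ 0` of maximal length `n`; `h₂ ∈ Sp (n + 1)`, so `Hecke.b_top` (applied with `b = D.bar`)
gives `D.t.repr (bar h₂) z = invert (D.t.repr h₂ z)`; and `D.t.repr (bar h₂) z = D.t.repr h₂ z` as `z ∉ W_J`. So
`p = D.t.repr h₂ z = D.t.repr (C_w) z` satisfies `invert p = p` and `DegLe (-1) p` (`repr_c_ne`), so `p = 0` (`bar_neg`), a contradiction.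

`hp_iff_c`: `⇐`: `h = ∑ (coordinate) C_w` over `w ∈ W_J`, `hp_c`. `⇒`: by strong induction on `n` with `h ∈ Sp n ∩ H_J`: subtract
`∑ p_z C_z` over the `z` of length `n - 1` (`repr_c_one`, `repr_c_len`). Or: span induction: `T_z` for `z ∈ W_J` is in the span of `C_w`, `w ∈ W_J`,
by strong induction on `ℓ(z)` (`T_z - C_z ∈ H_J ∩ Sp (ℓ z)`).
-/

open LaurentPolynomial
open Pool.Agent.Lib.MP_754fa1_al

namespace Pool.Agent.Lib.KLT

universe u v w

variable {B : Type u} {W : Type v} [Group W] {M : CoxeterMatrix B}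
variable {cs : CoxeterSystem M W} {L : B → ℕ} {H : Type w} [Ring H] [Algebra Lau H]

section hecke
variable (D : Hecke cs L H)

theorem hp_zero (J : Set B) : HP D J 0 := by
  intro z _
  rw [map_zero, Finsupp.zero_apply]

theorem hp_add {J : Set B} {h k : H} (a : HP D J h) (b : HP D J k) : HP D J (h + k) := by
  intro z hz
  rw [map_add, Finsupp.add_apply, a z hz, b z hz, add_zero]

theorem hp_neg {J : Set B} {h : H} (a : HP D J h) : HP D J (-h) := by
  intro z hz
  rw [map_neg, Finsupp.neg_apply, a z hz, neg_zero]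

theorem hp_sub {J : Set B} {h k : H} (a : HP D J h) (b : HP D J k) : HP D J (h - k) := by
  intro z hz
  rw [map_sub, Finsupp.sub_apply, a z hz, b z hz, sub_zero]

theorem hp_smul {J : Set B} (p : Lau) {h : H} (a : HP D J h) : HP D J (p • h) := by
  intro z hz
  rw [map_smul, Finsupp.smul_apply, a z hz, smul_zero]

theorem hp_t {J : Set B} {z : W} (hz : z ∈ WP cs J) : HP D J (D.t z) := by
  classical
  intro y hy
  rw [Module.Basis.repr_self, Finsupp.single_apply, if_neg]
  rintro rfl
  exact hy hz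

theorem hp_mono {J K : Set B} (hJ : J ⊆ K) {h : H} (a : HP D J h) : HP D K h :=
  fun z hz => a z fun h' => hz (wp_mono cs hJ h')

theorem hp_iff_span {J : Set B} {h : H} :
    HP D J h ↔ h ∈ Submodule.span Lau (D.t '' {z | z ∈ WP cs J}) := by
  rw [Module.Basis.mem_span_image]
  constructor
  · intro h1 z hz
    rw [Finset.mem_coe, Finsupp.mem_support_iff] at hz
    by_contra h2
    exact hz (h1 z h2)
  · intro h1 z hz
    by_contra h2
    exact hz (h1 (Finset.mem_coe.2 (Finsupp.mem_support_iff.2 h2)))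

theorem hp_one (J : Set B) : HP D J 1 := by
  rw [← D.t_one]
  exact hp_t D (Subgroup.one_mem _)

private theorem D01b_ind {J : Set B} {p : H → Prop} (ht : ∀ z, z ∈ WP cs J → p (D.t z))
    (h0 : p 0) (ha : ∀ a b, p a → p b → p (a + b)) (hs : ∀ (r : Lau) a, p a → p (r • a)) {h : H}
    (hh : HP D J h) : p h := by
  have h1 := (hp_iff_span D).1 hh
  induction h1 using Submodule.span_induction with
  | mem x hx =>
    obtain ⟨y, hy, rfl⟩ := hx
    exact ht y hy
  | zero => exact h0
  | add x y hx' hy' hx hy =>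
    exact ha x y (hx ((hp_iff_span D).2 hx')) (hy ((hp_iff_span D).2 hy'))
  | smul r x hx' hx => exact hs r x (hx ((hp_iff_span D).2 hx'))

private theorem D01b_s_mul {J : Set B} {i : B} (hi : i ∈ J) {k : H} (hk : HP D J k) :
    HP D J (D.t (cs.simple i) * k) := by
  refine D01b_ind D (J := J) (p := fun k => HP D J (D.t (cs.simple i) * k)) ?_ ?_ ?_ ?_ hk
  · intro z hz
    have h1 : cs.simple i * z ∈ WP cs J := Subgroup.mul_mem _ ((simple_mem_wp cs).2 hi) hz
    by_cases hd : cs.IsLeftDescent z i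
    · rw [D.s_mul_down i z hd]
      exact hp_add D (hp_t D h1) (hp_smul D _ (hp_t D hz))
    · rw [D.s_mul_up i z hd]
      exact hp_t D h1
  · rw [mul_zero]
    exact hp_zero D J
  · intro a b ha hb
    rw [mul_add]
    exact hp_add D ha hb
  · intro r a ha
    rw [mul_smul_comm]
    exact hp_smul D r ha

private theorem D01b_word {i : B} {ω : List B} (h : cs.IsReduced (i :: ω)) :
    cs.IsReduced ω ∧ D.t (cs.wordProd (i :: ω)) = D.t (cs.simple i) * D.t (cs.wordProd ω) := by
  have h1 : cs.IsReduced ω := by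
    have := CoxeterSystem.IsReduced.drop h 1
    simpa using this
  refine ⟨h1, ?_⟩
  rw [cs.wordProd_cons]
  symm
  apply D.t_mul
  have h2 : cs.length (cs.wordProd (i :: ω)) = (i :: ω).length := h
  have h3 : cs.length (cs.wordProd ω) = ω.length := h1
  rw [cs.wordProd_cons] at h2
  rw [h2, h3, cs.length_simple, List.length_cons, add_comm]

private theorem D01b_t_mul {J : Set B} (ω : List B) (hω : cs.IsReduced ω)
    (hJ : ∀ i ∈ ω, i ∈ J) {k : H} (hk : HP D J k) : HP D J (D.t (cs.wordProd ω) * k) := by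
  induction ω with
  | nil =>
    rw [cs.wordProd_nil, D.t_one, one_mul]
    exact hk
  | cons i ω ih =>
    obtain ⟨h1, h2⟩ := D01b_word D hω
    rw [h2, mul_assoc]
    exact D01b_s_mul D (hJ i List.mem_cons_self)
      (ih h1 fun j hj => hJ j (List.mem_cons_of_mem _ hj))

theorem hp_mul {J : Set B} {h k : H} (a : HP D J h) (b : HP D J k) : HP D J (h * k) := by
  refine D01b_ind D (J := J) (p := fun h => HP D J (h * k)) ?_ ?_ ?_ ?_ a
  · intro z hz
    obtain ⟨ω, h1, rfl, h2⟩ := (wp_word cs).1 hz
    exact D01b_t_mul D ω h1 h2 b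
  · rw [zero_mul]
    exact hp_zero D J
  · intro x y hx hy
    rw [add_mul]
    exact hp_add D hx hy
  · intro r x hx
    rw [smul_mul_assoc]
    exact hp_smul D r hx

end hecke

variable (D : KL cs L H)

theorem hp_bar {J : Set B} {h : H} (a : HP D.toHecke J h) : HP D.toHecke J (D.bar h) := by
  have key : ∀ ω : List B, cs.IsReduced ω → (∀ i ∈ ω, i ∈ J) →
      HP D.toHecke J (D.bar (D.t (cs.wordProd ω))) := by
    intro ω
    induction ω with
    | nil =>
      intro _ _
      rw [cs.wordProd_nil, D.t_one, map_one]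
      exact hp_one D.toHecke J
    | cons i ω ih =>
      intro hω hJ
      obtain ⟨h1, h2⟩ := D01b_word D.toHecke hω
      rw [h2, map_mul, D.bar_t_simple]
      refine hp_mul D.toHecke (hp_sub D.toHecke ?_ (hp_smul D.toHecke _ (hp_one D.toHecke J)))
        (ih h1 fun j hj => hJ j (List.mem_cons_of_mem _ hj))
      exact hp_t D.toHecke ((simple_mem_wp cs).2 (hJ i List.mem_cons_self))
  refine D01b_ind D.toHecke (J := J) (p := fun h => HP D.toHecke J (D.bar h)) ?_ ?_ ?_ ?_ a
  · intro z hz
    obtain ⟨ω, h1, rfl, h2⟩ := (wp_word cs).1 hz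
    exact key ω h1 h2
  · rw [map_zero]
    exact hp_zero D.toHecke J
  · intro x y hx hy
    rw [map_add]
    exact hp_add D.toHecke hx hy
  · intro r x hx
    rw [D.bar_smul]
    exact hp_smul D.toHecke _ hx

theorem hp_c {J : Set B} {w : W} (hw : w ∈ WP cs J) : HP D.toHecke J (D.c w) := by
  classical
  set h : H := D.c w with hh
  let f : W →₀ Lau := (D.t.repr h).filter (fun z => z ∈ WP cs J)
  let h₁ : H := D.t.repr.symm f
  have e1 : ∀ z, D.t.repr h₁ z = if z ∈ WP cs J then D.t.repr h z else 0 := by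
    intro z
    have : D.t.repr h₁ = f := LinearEquiv.apply_symm_apply _ _
    rw [this, Finsupp.filter_apply]
  have e2 : ∀ z, D.t.repr (h - h₁) z = if z ∈ WP cs J then 0 else D.t.repr h z := by
    intro z
    rw [map_sub, Finsupp.sub_apply, e1]
    split_ifs
    · rw [sub_self]
    · rw [sub_zero]
  have hp1 : HP D.toHecke J h₁ := by
    intro z hz
    rw [e1, if_neg hz]
  have hb : D.bar h = h := D.bar_c w
  have step : ∀ m, (∀ z, z ∉ WP cs J → m + 1 ≤ cs.length z → D.t.repr h z = 0) →
      ∀ z, z ∉ WP cs J → m ≤ cs.length z → D.t.repr h z = 0 := by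
    intro m hm z hz hl
    rcases Nat.eq_or_lt_of_le hl with h4 | h4
    · have h5 : h - h₁ ∈ D.Sp (m + 1) := by
        rw [D.mem_sp_iff]
        intro y hy
        rw [e2]
        split_ifs with h6
        · rfl
        · exact hm y h6 hy
      have h6 := D.toHecke.b_top D.bar D.bar_alg D.bar_t h5 h4.symm
      have h7 : D.bar (h - h₁) = (h - h₁) + (h₁ - D.bar h₁) := by
        rw [map_sub, hb]
        abel
      have h8 : HP D.toHecke J (h₁ - D.bar h₁) := hp_sub D.toHecke hp1 (hp_bar D hp1)
      rw [h7, map_add, Finsupp.add_apply, h8 z hz, add_zero, e2, if_neg hz] at h6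
      refine bar_neg h6.symm (repr_c_ne D ?_)
      rintro rfl
      exact hz hw
    · exact hm z hz h4
  obtain ⟨n, hn⟩ := D.exists_sp h
  have all : ∀ k, ∀ z, z ∉ WP cs J → n - k ≤ cs.length z → D.t.repr h z = 0 := by
    intro k
    induction k with
    | zero =>
      intro z _ hz
      exact D.mem_sp_iff.1 hn z hz
    | succ k ih =>
      rcases Nat.eq_zero_or_pos (n - k) with h0 | h0
      · intro z hz _
        exact ih z hz (by omega)
      · have h1 : n - k = (n - (k + 1)) + 1 := by omega
        rw [h1] at ih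
        exact step _ ih
  intro z hz
  exact all n z hz (by omega)

private theorem D01b_span_le {J : Set B} {h : H}
    (hh : h ∈ Submodule.span Lau (D.c '' {z | z ∈ WP cs J})) : HP D.toHecke J h := by
  induction hh using Submodule.span_induction with
  | mem x hx =>
    obtain ⟨y, hy, rfl⟩ := hx
    exact hp_c D hy
  | zero => exact hp_zero D.toHecke J
  | add x y _ _ hx hy => exact hp_add D.toHecke hx hy
  | smul r x _ hx => exact hp_smul D.toHecke r hx

private theorem D01b_t_span {J : Set B} : ∀ (n : ℕ) (z : W), cs.length z = n → z ∈ WP cs J →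
    D.t z ∈ Submodule.span Lau (D.c '' {z | z ∈ WP cs J}) := by
  intro n
  induction n using Nat.strong_induction_on with
  | _ n ih =>
    intro z hn hz
    have h1 : D.t z = D.c z - (D.c z - D.t z) := by rw [sub_sub_cancel]
    rw [h1]
    refine Submodule.sub_mem _ (Submodule.subset_span ⟨z, hz, rfl⟩) ?_
    have h2 : HP D.toHecke J (D.c z - D.t z) :=
      hp_sub D.toHecke (hp_c D hz) (hp_t D.toHecke hz)
    have h3 : D.c z - D.t z ∈ D.Sp (cs.length z) := D.c_tri z
    rw [D.sum_repr (D.c z - D.t z), Finsupp.sum]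
    apply Submodule.sum_mem
    intro y hy
    rw [Finsupp.mem_support_iff] at hy
    apply Submodule.smul_mem
    have h4 : cs.length y < cs.length z := by
      by_contra h
      exact hy (D.mem_sp_iff.1 h3 y (not_lt.1 h))
    have h5 : y ∈ WP cs J := by
      by_contra h
      exact hy (h2 y h)
    exact ih _ (by omega) y rfl h5

private theorem D01b_span_c {J : Set B} {h : H} :
    HP D.toHecke J h ↔ h ∈ Submodule.span Lau (D.c '' {z | z ∈ WP cs J}) := by
  constructor
  · intro hh
    refine D01b_ind D.toHecke (J := J)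
      (p := fun h => h ∈ Submodule.span Lau (D.c '' {z | z ∈ WP cs J})) ?_ ?_ ?_ ?_ hh
    · intro z hz
      exact D01b_t_span D _ z rfl hz
    · exact Submodule.zero_mem _
    · exact fun a b => Submodule.add_mem _
    · exact fun r a => Submodule.smul_mem _ r
  · exact D01b_span_le D

theorem hp_iff_c {J : Set B} {h : H} :
    HP D.toHecke J h ↔ ∀ w, w ∉ WP cs J → D.cB.repr h w = 0 := by
  rw [D01b_span_c, ← D.coe_cB, Module.Basis.mem_span_image]
  constructor
  · intro h1 z hz
    by_contra h2
    exact hz (h1 (Finset.mem_coe.2 (Finsupp.mem_support_iff.2 h2)))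
  · intro h1 z hz
    rw [Finset.mem_coe, Finsupp.mem_support_iff] at hz
    by_contra h2
    exact hz (h1 z h2)

theorem hp_iff_span_c {J : Set B} {h : H} :
    HP D.toHecke J h ↔ h ∈ Submodule.span Lau (D.c '' {z | z ∈ WP cs J}) :=
  D01b_span_c D

end Pool.Agent.Lib.KLT
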