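import Pool.Agent.Lib.MP_754fa1_al.T.D01b
import Pool.Agent.Lib.MP_754fa1_al.T.A02

/-!
# D02. Dihedral Hecke algebra, equal parameters: the `C`-basis

`3 ≤ M i j = m`, `L i = L j = a`. Define `EQ i j k h` (`k ≤ m`): `HP {i, j} h`, and for `l ≤ m`:
`h(al i j l) = if l ≤ k then v^{a (l - k)} else 0`, and for `l < m`: `h(al j i l) = if l < k then v^{a (l - k)} else 0` (here `h(z) = D.t.repr h z`).
(For `k = m` the two are consistent with `al i j m = al j i m`, see `al_top`; the elements of `W_{ij}` are the `al i j l`, `l ≤ m`, and the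
`al j i l`, `0 < l < m`: `wp_pair`.)

(1) `EQ i j 1 (C_i)`: `C_i = T_i + v^{-a}`.
(2) `EQ j i k h`, `1 ≤ k < m`, and (if `k ≥ 2`) `EQ i j (k - 1) h'` imply `EQ i j (k + 1) (C_i h - h')` (`h' = 0` if `k = 1`).
Check with `repr_cs_down` at `z = al i j l`, `1 ≤ l ≤ m`: `(C_i h)(z) = h(al j i (l - 1)) + v^a h(al i j l)`:
`l < k`: `v^{a(l-1-k)} + v^{a(l-k+1)}`; subtract `h'(al i j l) = v^{a(l-k+1)}` (`l ≤ k - 1`): `v^{a(l-(k+1))}` as required.
`l = k`: `h(al j i (k-1)) = v^{-a}`, `h(al i j k) = 0` (as `k < m`), `h'(al i j k) = 0`. `l = k + 1`: `h(al j i k) = 1`, rest `0`. `l > k + 1`: `0`.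
At `z = al j i l`, `l < m` (`i` not a left descent; includes `z = 1`), `repr_cs_up`: `(C_i h)(z) = v^{-a} (C_i h)(s_i z)`,
`s_i z = al i j (l + 1)`, and the same holds for `h'` (by `EQ`), so `(C_i h - h')(al j i l) = v^{-a} (C_i h - h')(al i j (l+1))`: `= v^{a(l - (k+1))}` for
`l + 1 ≤ k + 1`, i.e. `l < k + 1`. Outside `W_{ij}`: `hp_mul`.
(3) By induction on `k`: `EQ i j k (C (al i j k))` for all `1 ≤ k ≤ m` and both orders of `i, j`: the element `g = C_i C(al j i k) - C(al i j (k-1))` is
`bar`-invariant and `Lat (-1) (g - T_{al i j (k+1)})` by the formula, so `g = C(al i j (k+1))` (`D.c_eq`). This also gives `eq_mul`.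
-/

open LaurentPolynomial
open Pool.Agent.Lib.MP_754fa1_al

namespace Pool.Agent.Lib.KLT

universe u v w

variable {B : Type u} {W : Type v} [Group W] {M : CoxeterMatrix B}
variable {cs : CoxeterSystem M W} {L : B → ℕ} {H : Type w} [Ring H] [Algebra Lau H]
variable (D : KL cs L H)

/-- the value of the coordinates of `C_{al i j k}` in the dihedral parabolic subgroup -/
private def D02_EQ (i j : B) (k : ℕ) (h : H) : Prop :=
  HP D.toHecke {i, j} h ∧ ∀ z, z ∈ WP cs {i, j} →
    ((cs.length z < k ∨ z = al cs i j k) →
      D.t.repr h z = T ((L i : ℤ) * ((cs.length z : ℤ) - k))) ∧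
    (¬ (cs.length z < k ∨ z = al cs i j k) → D.t.repr h z = 0)

private theorem D02_T {x y : ℤ} (h : x = y) : (T x : Lau) = T y := by rw [h]

private theorem D02_ne {i j : B} (h3 : 3 ≤ M i j) : i ≠ j := by
  rintro rfl
  rw [M.diagonal] at h3
  omega

private theorem D02_ld {i j : B} (h3 : 3 ≤ M i j) {z : W} (hz : z ∈ WP cs {i, j}) {k : ℕ}
    (hl : cs.length z = k) (h : cs.IsLeftDescent z i) : z = al cs i j k := by
  have hij := D02_ne h3
  obtain ⟨k', hk', h1⟩ := (wp_pair cs hij).1 hz
  have hk : k' ≤ M i j := by
    rcases hk' with h2 | h2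
    · exact h2
    · omega
  have hji : M j i = M i j := M.symmetric j i
  rcases h1 with h1 | h1
  · have h2 := len_al cs hij (Or.inl hk)
    rw [← h1, hl] at h2
    rw [h2]; exact h1
  · have h2 := len_al cs hij.symm (k := k') (Or.inl (by omega))
    rw [← h1, hl] at h2
    subst h2
    have h0 : 0 < k := by
      rcases Nat.eq_zero_or_pos k with h0 | h0
      · exfalso
        have h5 : z = 1 := by rw [h1, h0, al_zero]
        rw [h5] at h
        unfold CoxeterSystem.IsLeftDescent at h
        rw [cs.length_one] at h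
        omega
      · exact h0
    rw [h1] at h
    have h6 := (ld_al_iff cs hij.symm h0 (Or.inl (by omega))).1 h
    rw [h1, h6, hji, al_top cs i j (by omega)]

private theorem D02_nld {i j : B} (h3 : 3 ≤ M i j) {z : W} (hz : z ∈ WP cs {i, j}) {k : ℕ}
    (hl : cs.length z = k) (h : ¬ cs.IsLeftDescent z i) : z = al cs j i k := by
  have hij := D02_ne h3
  obtain ⟨k', hk', h1⟩ := (wp_pair cs hij).1 hz
  have hk : k' ≤ M i j := by
    rcases hk' with h2 | h2
    · exact h2
    · omega
  have hji : M j i = M i j := M.symmetric j i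
  rcases h1 with h1 | h1
  · have h2 := len_al cs hij (Or.inl hk)
    rw [← h1, hl] at h2
    subst h2
    rcases Nat.eq_zero_or_pos k with h0 | h0
    · rw [h1, h0, al_zero, al_zero]
    · exfalso
      apply h
      rw [h1]
      exact ld_al cs hij h0 (Or.inl hk)
  · have h2 := len_al cs hij.symm (k := k') (Or.inl (by omega))
    rw [← h1, hl] at h2
    rw [h2]; exact h1

private theorem D02_step (hL : ∀ i, 0 < L i) {i j : B} (h3 : 3 ≤ M i j) (he : L i = L j) {k : ℕ}
    (h1 : 1 ≤ k) (hk : k < M i j) {h h' : H} (a : D02_EQ D j i k h)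
    (b : (k = 1 ∧ h' = 0) ∨ (2 ≤ k ∧ D02_EQ D i j (k - 1) h')) :
    D02_EQ D i j (k + 1) (D.c (cs.simple i) * h - h') := by
  have hij := D02_ne h3
  have hji : M j i = M i j := M.symmetric j i
  have hpc : ({j, i} : Set B) = {i, j} := Set.pair_comm j i
  have ha1 : HP D.toHecke {i, j} h := by rw [← hpc]; exact a.1
  have hb1 : HP D.toHecke {i, j} h' := by
    rcases b with b | b
    · rw [b.2]; exact hp_zero D.toHecke _
    · exact b.2.1
  refine ⟨hp_sub D.toHecke (hp_mul D.toHecke (hp_c D ((simple_mem_wp cs).2 (by simp))) ha1) hb1, ?_⟩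
  intro z hz
  have hsz : cs.simple i * z ∈ WP cs {i, j} :=
    mul_mem ((simple_mem_wp cs).2 (by simp)) hz
  have hz' : z ∈ WP cs {j, i} := by rw [hpc]; exact hz
  have hsz' : cs.simple i * z ∈ WP cs {j, i} := by rw [hpc]; exact hsz
  obtain ⟨e1, e1'⟩ := a.2 _ hsz'
  obtain ⟨e2, e2'⟩ := a.2 _ hz'
  have hlk : cs.length (al cs j i k) = k := len_al cs hij.symm (Or.inl (by omega))
  have hlk1 : cs.length (al cs i j (k - 1)) = k - 1 := len_al cs hij (Or.inl (by omega))
  have hlk2 : cs.length (al cs i j (k + 1)) = k + 1 := len_al cs hij (Or.inl (by omega))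
  have hnd : ¬ cs.IsLeftDescent (al cs j i k) i := by
    intro h5
    have h6 := (ld_al_iff cs hij.symm h1 (Or.inl (by omega))).1 h5
    omega
  -- the third value
  have e3 : (cs.length z + 1 < k ∨ (2 ≤ k ∧ z = al cs i j (k - 1)) →
      D.t.repr h' z = T ((L i : ℤ) * ((cs.length z : ℤ) - k + 1))) := by
    intro h5
    rcases b with b | b
    · exfalso
      rcases h5 with h5 | h5 <;> omega
    · rw [(b.2.2 z hz).1 (by
        rcases h5 with h5 | h5
        · left; omega
        · right; exact h5.2)]
      apply D02_T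
      rw [Nat.cast_sub h1]
      push_cast
      ring
  have e3' : ¬ (cs.length z + 1 < k ∨ (2 ≤ k ∧ z = al cs i j (k - 1))) →
      D.t.repr h' z = 0 := by
    intro h5
    rcases b with b | b
    · rw [b.2, map_zero]; rfl
    · refine (b.2.2 z hz).2 fun h6 => h5 ?_
      rcases h6 with h6 | h6
      · left; omega
      · right; exact ⟨b.1, h6⟩
  rw [map_sub, Finsupp.sub_apply]
  by_cases hd : cs.IsLeftDescent z i
  · have hls : cs.length (cs.simple i * z) + 1 = cs.length z := cs.isLeftDescent_iff.1 hd
    have hcast : (cs.length (cs.simple i * z) : ℤ) = (cs.length z : ℤ) - 1 := by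
      rw [← hls]; push_cast; ring
    have hzne : z ≠ al cs j i k := by
      rintro h5
      rw [h5] at hd
      exact hnd hd
    rw [repr_cs_down D hL i h hd]
    rcases lt_trichotomy (cs.length z) k with hl | hl | hl
    · -- l < k
      have f3 : D.t.repr h' z = T ((L i : ℤ) * ((cs.length z : ℤ) - k + 1)) := by
        apply e3
        rcases Nat.lt_or_ge (cs.length z + 1) k with h5 | h5
        · left; exact h5
        · right
          refine ⟨by omega, D02_ld h3 hz (by omega) hd⟩
      have f12 : D.t.repr h (cs.simple i * z) + T (L i : ℤ) * D.t.repr h z - D.t.repr h' z =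
          T ((L i : ℤ) * ((cs.length z : ℤ) - (k + 1 : ℕ))) := by
        rw [e1 (Or.inl (by omega)), e2 (Or.inl hl), f3, ← T_add, hcast, ← he]
        have g1 : (T ((L i : ℤ) + (L i : ℤ) * ((cs.length z : ℤ) - k)) : Lau) =
            T ((L i : ℤ) * ((cs.length z : ℤ) - k + 1)) := D02_T (by ring)
        rw [g1, add_sub_cancel_right]
        exact D02_T (by push_cast; ring)
      refine ⟨fun _ => f12, fun h5 => ?_⟩
      exact absurd (Or.inl (by omega)) h5
    · -- l = k
      have f3 : D.t.repr h' z = 0 := by
        apply e3'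
        rintro (h5 | h5)
        · omega
        · have h6 := congrArg cs.length h5.2
          omega
      have f2 : D.t.repr h z = 0 := by
        apply e2'
        rintro (h5 | h5)
        · omega
        · exact hzne h5
      have f12 : D.t.repr h (cs.simple i * z) + T (L i : ℤ) * D.t.repr h z - D.t.repr h' z =
          T ((L i : ℤ) * ((cs.length z : ℤ) - (k + 1 : ℕ))) := by
        rw [e1 (Or.inl (by omega)), f2, f3, mul_zero, add_zero, sub_zero, hcast, ← he]
        exact D02_T (by push_cast; ring)
      refine ⟨fun _ => f12, fun h5 => ?_⟩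
      exact absurd (Or.inl (by omega)) h5
    · -- l > k
      have f3 : D.t.repr h' z = 0 := by
        apply e3'
        rintro (h5 | h5)
        · omega
        · have h6 := congrArg cs.length h5.2
          omega
      have f2 : D.t.repr h z = 0 := by
        apply e2'
        rintro (h5 | h5)
        · omega
        · exact hzne h5
      rw [f2, f3, mul_zero, add_zero, sub_zero]
      have hiff : z = al cs i j (k + 1) ↔ cs.simple i * z = al cs j i k := by
        rw [al_succ]
        constructor
        · intro h5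
          rw [h5, cs.simple_mul_simple_cancel_left]
        · intro h5
          rw [← h5, cs.simple_mul_simple_cancel_left]
      constructor
      · intro h5
        have h6 : z = al cs i j (k + 1) := by
          rcases h5 with h5 | h5
          · omega
          · exact h5
        rw [e1 (Or.inr (hiff.1 h6)), hcast, ← he]
        exact D02_T (by push_cast; ring)
      · intro h5
        apply e1'
        rintro (h6 | h6)
        · omega
        · exact h5 (Or.inr (hiff.2 h6))
  · have hls : cs.length (cs.simple i * z) = cs.length z + 1 := cs.not_isLeftDescent_iff.1 hd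
    have hsd : cs.IsLeftDescent (cs.simple i * z) i := by
      rw [cs.isLeftDescent_iff, cs.simple_mul_simple_cancel_left]
      exact hls.symm
    have hcast : (cs.length (cs.simple i * z) : ℤ) = (cs.length z : ℤ) + 1 := by
      rw [hls]; push_cast; ring
    have hsne : cs.simple i * z ≠ al cs j i k := by
      rintro h5
      rw [h5] at hsd
      exact hnd hsd
    have hzk1 : ¬ (2 ≤ k ∧ z = al cs i j (k - 1)) := by
      rintro ⟨h5, h6⟩
      apply hd
      rw [h6]
      exact ld_al cs hij (by omega) (Or.inl (by omega))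
    have hzk2 : z ≠ al cs i j (k + 1) := by
      intro h6
      apply hd
      rw [h6]
      exact ld_al cs hij (by omega) (Or.inl (by omega))
    rw [repr_cs_up D hL i h hd]
    rcases lt_trichotomy (cs.length z) k with hl | hl | hl
    · have f12 : D.t.repr h (cs.simple i * z) + T (-(L i : ℤ)) * D.t.repr h z - D.t.repr h' z =
          T ((L i : ℤ) * ((cs.length z : ℤ) - (k + 1 : ℕ))) := by
        have f2 := e2 (Or.inl hl)
        rw [← he] at f2
        have f0 : D.t.repr h (cs.simple i * z) = D.t.repr h' z := by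
          rcases Nat.lt_or_ge (cs.length z + 1) k with h5 | h5
          · rw [e1 (Or.inl (by omega)), e3 (Or.inl h5), hcast, ← he]
            exact D02_T (by ring)
          · rw [e1' (by
              rintro (h6 | h6)
              · omega
              · exact hsne h6), e3' (by
              rintro (h6 | h6)
              · omega
              · exact hzk1 h6)]
        rw [f0, f2, add_sub_cancel_left, ← T_add]
        exact D02_T (by push_cast; ring)
      refine ⟨fun _ => f12, fun h5 => ?_⟩
      exact absurd (Or.inl (by omega)) h5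
    · have f3 : D.t.repr h' z = 0 := by
        apply e3'
        rintro (h5 | h5)
        · omega
        · exact hzk1 h5
      have f1 : D.t.repr h (cs.simple i * z) = 0 := by
        apply e1'
        rintro (h5 | h5)
        · omega
        · exact hsne h5
      have hzk : z = al cs j i k := D02_nld h3 hz hl hd
      have f12 : D.t.repr h (cs.simple i * z) + T (-(L i : ℤ)) * D.t.repr h z - D.t.repr h' z =
          T ((L i : ℤ) * ((cs.length z : ℤ) - (k + 1 : ℕ))) := by
        rw [f1, f3, sub_zero, zero_add, e2 (Or.inr hzk), ← T_add, ← he]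
        exact D02_T (by push_cast; ring)
      refine ⟨fun _ => f12, fun h5 => ?_⟩
      exact absurd (Or.inl (by omega)) h5
    · have f3 : D.t.repr h' z = 0 := by
        apply e3'
        rintro (h5 | h5)
        · omega
        · exact hzk1 h5
      have f1 : D.t.repr h (cs.simple i * z) = 0 := by
        apply e1'
        rintro (h5 | h5)
        · omega
        · exact hsne h5
      have f2 : D.t.repr h z = 0 := by
        apply e2'
        rintro (h5 | h5)
        · omega
        · have h6 := congrArg cs.length h5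
          omega
      rw [f1, f2, f3, mul_zero, add_zero, sub_zero]
      refine ⟨fun h5 => ?_, fun _ => rfl⟩
      exfalso
      rcases h5 with h5 | h5
      · omega
      · exact hzk2 h5

private theorem D02_uniq (hL : ∀ i, 0 < L i) {i j : B} (h3 : 3 ≤ M i j) {k : ℕ}
    (hk : k ≤ M i j) {g : H} (a : D02_EQ D i j k g) (hb : D.bar g = g) :
    g = D.c (al cs i j k) := by
  have hij := D02_ne h3
  have hlk : cs.length (al cs i j k) = k := len_al cs hij (Or.inl hk)
  refine D.c_eq _ hb fun z => ?_
  rw [map_sub, Finsupp.sub_apply, D.t.repr_self]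
  by_cases hz : z ∈ WP cs {i, j}
  · obtain ⟨e1, e1'⟩ := a.2 z hz
    by_cases hzk : z = al cs i j k
    · rw [e1 (Or.inr hzk), ← hzk, Finsupp.single_eq_same, hzk, hlk, sub_self, mul_zero, T_zero,
        sub_self]
      exact DegLe.zero
    · rw [Finsupp.single_eq_of_ne hzk, sub_zero]
      by_cases hl : cs.length z < k
      · rw [e1 (Or.inl hl)]
        apply DegLe.T
        have h1 : (0 : ℤ) < L i := by exact_mod_cast hL i
        have h2 : (cs.length z : ℤ) - k ≤ -1 := by omega
        nlinarith
      · rw [e1' (by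
          rintro (h5 | h5)
          · exact hl h5
          · exact hzk h5)]
        exact DegLe.zero
  · rw [a.1 z hz, Finsupp.single_eq_of_ne, sub_zero]
    · exact DegLe.zero
    · rintro rfl
      exact hz (al_mem cs i j k)

private theorem D02_base (hL : ∀ i, 0 < L i) {i j : B} (h3 : 3 ≤ M i j) :
    D02_EQ D i j 1 (D.c (al cs i j 1)) := by
  have hij := D02_ne h3
  have hsm : cs.simple i ∈ WP cs {i, j} := (simple_mem_wp cs).2 (by simp)
  have h1m : (1 : W) ∈ WP cs {i, j} := one_mem _
  rw [al_one]
  refine ⟨hp_c D hsm, ?_⟩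
  intro z hz
  have hrep : D.t.repr (D.c (cs.simple i)) z =
      (Finsupp.single (cs.simple i) (1 : Lau)) z + T (-(L i : ℤ)) *
        (Finsupp.single (1 : W) (1 : Lau)) z := by
    rw [D.c_simple hL, ← D.t_one, map_add, map_smul, Finsupp.add_apply, Finsupp.smul_apply,
      D.t.repr_self, D.t.repr_self, smul_eq_mul]
  have hne : cs.simple i ≠ (1 : W) := by
    intro h5
    have h6 := congrArg cs.length h5
    rw [cs.length_simple, cs.length_one] at h6
    omega
  rw [al_one]
  constructor
  · intro h5
    rcases h5 with h5 | h5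
    · have h6 : z = 1 := cs.length_eq_zero_iff.1 (by omega)
      rw [hrep, h6, Finsupp.single_eq_same, Finsupp.single_eq_of_ne hne.symm, zero_add, mul_one,
        cs.length_one]
      exact D02_T (by push_cast; ring)
    · rw [hrep, h5, Finsupp.single_eq_same, Finsupp.single_eq_of_ne hne, mul_zero, add_zero,
        cs.length_simple, ← T_zero]
      exact D02_T (by push_cast; ring)
  · intro h5
    have h6 : z ≠ cs.simple i := fun h => h5 (Or.inr h)
    have h7 : z ≠ 1 := by
      intro h
      apply h5
      left
      rw [h, cs.length_one]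
      exact Nat.one_pos
    rw [hrep, Finsupp.single_eq_of_ne h6, Finsupp.single_eq_of_ne h7, mul_zero, add_zero]

private theorem D02_bar_cc (i : B) (w : W) {h' : H} (hb : D.bar h' = h') :
    D.bar (D.c (cs.simple i) * D.c w - h') = D.c (cs.simple i) * D.c w - h' := by
  rw [map_sub, map_mul, D.bar_c, D.bar_c, hb]

private theorem D02_main (hL : ∀ i, 0 < L i) (k : ℕ) : ∀ {i j : B}, 3 ≤ M i j → L i = L j →
    1 ≤ k → k ≤ M i j → D02_EQ D i j k (D.c (al cs i j k)) := by
  induction k using Nat.strong_induction_on with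
  | _ k ih =>
    intro i j h3 he h1 hk
    have hji : M j i = M i j := M.symmetric j i
    rcases eq_or_lt_of_le h1 with h2 | h2
    · rw [← h2]
      exact D02_base D hL h3
    · obtain ⟨l, rfl⟩ : ∃ l, k = l + 1 := ⟨k - 1, by omega⟩
      have a := ih l (by omega) (i := j) (j := i) (by omega) he.symm (by omega) (by omega)
      rcases eq_or_lt_of_le (show 1 ≤ l by omega) with h4 | h4
      · have b := D02_step D hL h3 he (k := l) (by omega) (by omega) a
          (Or.inl ⟨h4.symm, (rfl : (0 : H) = 0)⟩)
        have c := D02_uniq D hL h3 hk b (D02_bar_cc D i _ (map_zero _))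
        rw [← c]; exact b
      · have a' := ih (l - 1) (by omega) h3 he (by omega) (by omega)
        have b := D02_step D hL h3 he (k := l) (by omega) (by omega) a (Or.inr ⟨h4, a'⟩)
        have c := D02_uniq D hL h3 hk b (D02_bar_cc D i _ (D.bar_c _))
        rw [← c]; exact b

theorem eq_coord (hL : ∀ i, 0 < L i) {i j : B} (h3 : 3 ≤ M i j) (he : L i = L j) {k : ℕ}
    (hk : k ≤ M i j) {z : W} (hz : z ∈ WP cs {i, j}) :
    ((cs.length z < k ∨ z = al cs i j k) →
      D.t.repr (D.c (al cs i j k)) z = T ((L i : ℤ) * ((cs.length z : ℤ) - k))) ∧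
    (¬ (cs.length z < k ∨ z = al cs i j k) → D.t.repr (D.c (al cs i j k)) z = 0) := by
  rcases Nat.eq_zero_or_pos k with h0 | h0
  · subst h0
    rw [al_zero]
    constructor
    · rintro (h5 | h5)
      · omega
      · rw [h5, repr_c_one, cs.length_one, ← T_zero]
        exact D02_T (by push_cast; ring)
    · intro h5
      refine repr_c_len D (by rw [cs.length_one]; exact Nat.zero_le _) fun h6 => h5 (Or.inr h6)
  · exact (D02_main D hL k h3 he h0 hk).2 z hz

theorem eq_mul_one (hL : ∀ i, 0 < L i) {i j : B} (h3 : 3 ≤ M i j) (he : L i = L j) :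
    D.c (cs.simple i) * D.c (cs.simple j) = D.c (al cs i j 2) := by
  have hji : M j i = M i j := M.symmetric j i
  have a := D02_main D hL 1 (i := j) (j := i) (by omega) he.symm le_rfl (by omega)
  have b := D02_step D hL h3 he (k := 1) le_rfl (by omega) a
    (Or.inl ⟨rfl, (rfl : (0 : H) = 0)⟩)
  have c := D02_uniq D hL h3 (by omega) b (D02_bar_cc D i _ (map_zero _))
  rw [sub_zero, al_one] at c
  exact c

theorem eq_mul (hL : ∀ i, 0 < L i) {i j : B} (h3 : 3 ≤ M i j) (he : L i = L j) {k : ℕ}
    (hk : k + 3 ≤ M i j) :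
    D.c (cs.simple i) * D.c (al cs j i (k + 2)) =
      D.c (al cs i j (k + 3)) + D.c (al cs i j (k + 1)) := by
  have hji : M j i = M i j := M.symmetric j i
  have a := D02_main D hL (k + 2) (i := j) (j := i) (by omega) he.symm (by omega) (by omega)
  have a' := D02_main D hL (k + 1) h3 he (by omega) (by omega)
  have b := D02_step D hL h3 he (k := k + 2) (by omega) (by omega) a (Or.inr ⟨by omega, a'⟩)
  have c := D02_uniq D hL h3 hk b (D02_bar_cc D i _ (D.bar_c _))
  exact sub_eq_iff_eq_add.1 c

end Pool.Agent.Lib.KLT
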