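import Pool.Agent.Lib.MP_754fa1_al.T.D03b

/-!
# D03. Dihedral Hecke algebra, unequal parameters: `C(al i j (2k+1))`, `C(al j i (2k+2))`

`M i j = 2 n`, `n ≥ 2`, `a = L i > b = L j`.

`pr_lat`: all elements of `W_{ij}` are `al i j l`, `al j i l`, `l ≤ 2 n` (`wp_pair`). For `z = al i j l`, `l ≤ 2 k + 1`, the degree of the
coordinate is `≤ - a (k + 1 - (l+1)/2) + b (k - l/2)` (`q_deg`) if `k + 1 - l/2 ≥ 1` (always, as `l/2 ≤ k`). `l = 2 p`: `-a(k+1-p) + b(k-p) ≤ -a`;
`l = 2 p + 1`, `p < k`: `-(a - b)(k - p) ≤ -1`; `l = 2 k + 1`: the coordinate is `Q_1 = 1`. For `z = al j i l`: `l = 2p` as before;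
`l = 2 p + 1`: `Q_{k - p}`, for `p = k` it is `0`, for `p < k` the degree is `≤ -a (k + 1 - p) + b (k - p - 1) ≤ -1`.
`pe_lat`: `sl L j i l < sl L j i (2k+2)` for `l < 2k+2` (`sl_lt`), and `sl L i j l ≤ sl L i j (2k+1) = sl L j i (2k+2) - b` for `l ≤ 2k+1`.

`ue_main`: by induction on `k` with `2 k + 1 < 2 n`, simultaneously `PR k (C (al i j (2k+1)))`, `PE k (C_j C(al i j (2k+1)))` and
`C_j C(al i j (2k+1)) = C (al j i (2k+2))`. `k = 0`: `pr_zero`, `pr_pe`. `PE` and `pe_lat` and `bar`-invariance (`D.bar` multiplicative, `bar_c`)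
give `C_j C(al i j (2k+1)) = C (al j i (2k+2))` by `D.c_eq`. Step: `g_{k+1} = C_i C(al j i (2k+2)) - ζ C(al i j (2k+1)) - C(al i j (2k-1))` (last
term `0` for `k = 0`) satisfies `PR (k + 1)` by `pe_pr`, is `bar`-invariant (`bar_smul`, `invert (eta _) = eta _`), and `pr_lat` with `D.c_eq`
gives `g_{k+1} = C (al i j (2k+3))`.
-/

open LaurentPolynomial
open Pool.Agent.Lib.MP_754fa1_al

namespace Pool.Agent.Lib.KLT

universe u v w

variable {B : Type u} {W : Type v} [Group W] {M : CoxeterMatrix B}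
variable {cs : CoxeterSystem M W} {L : B → ℕ} {H : Type w} [Ring H] [Algebra Lau H]
variable (D : KL cs L H)

theorem invert_eta (n : ℕ) : invert (eta n) = eta n := by
  unfold eta
  rw [map_add, invert_T, invert_T, neg_neg, add_comm]

private theorem D03_repr (h : H) (w z : W) (hz : z ≠ w) :
    D.t.repr (h - D.t w) z = D.t.repr h z := by
  classical
  rw [map_sub, Finsupp.sub_apply, Module.Basis.repr_self, Finsupp.single_apply,
    if_neg (Ne.symm hz), sub_zero]

private theorem D03_repr_self (h : H) (w : W) (hw : D.t.repr h w = 1) :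
    D.t.repr (h - D.t w) w = 0 := by
  classical
  rw [map_sub, Finsupp.sub_apply, Module.Basis.repr_self, Finsupp.single_apply,
    if_pos rfl, hw, sub_self]

private theorem D03_cases {i j : B} (hij : i ≠ j) (hm : M i j ≠ 0) {z : W}
    (hz : z ∈ WP cs {i, j}) :
    (∃ l, l ≤ M i j ∧ z = al cs j i l) ∨ (∃ l, l < M i j ∧ z = al cs i j l) := by
  obtain ⟨l, hl, h⟩ := (wp_pair cs hij).1 hz
  have hl' : l ≤ M i j := hl.resolve_right hm
  rcases h with h | h
  · rcases Nat.lt_or_ge l (M i j) with h1 | h1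
    · exact Or.inr ⟨l, h1, h⟩
    · have h2 : l = M i j := le_antisymm hl' h1
      subst h2
      exact Or.inl ⟨M i j, le_rfl, by rw [h, al_top cs i j hm]⟩
  · exact Or.inl ⟨l, hl', h⟩

theorem pr_lat {i j : B} {n : ℕ} (hn : M i j = 2 * n) (hl : L j < L i) {k : ℕ}
    (hk : k < n) {h : H} (hr : PR D i j k h) : D.Lat (-1) (h - D.t (al cs i j (2 * k + 1))) := by
  have hij : i ≠ j := by
    rintro rfl
    exact lt_irrefl _ hl
  have hm : M i j ≠ 0 := by omega
  have hm' : M j i = M i j := M.symmetric j i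
  obtain ⟨hHP, h1, h2, h3⟩ := hr
  intro z
  by_cases hz : z ∈ WP cs {i, j}
  · rcases D03_cases (cs := cs) hij hm hz with ⟨l, hl1, rfl⟩ | ⟨l, hl1, rfl⟩
    · have hne : al cs j i l ≠ al cs i j (2 * k + 1) :=
        (al_ne cs hij (by omega) (Or.inl (by omega)) (Or.inl hl1)).symm
      rw [D03_repr D h _ _ hne]
      rcases Nat.lt_or_ge (2 * k + 1) l with h4 | h4
      · rw [(h3 l h4 hl1).2]
        exact DegLe.zero
      · rw [h2 l h4]
        refine DegLe.mono ((DegLe.T le_rfl).mul (q_deg (L j) _)) ?_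
        have e1 : ((k + 1 - (l + 1) / 2 : ℕ) : ℤ) = (k : ℤ) + 1 - ((l + 1) / 2 : ℕ) := by
          omega
        rw [e1]
        have h5 : ((l / 2 : ℕ) : ℤ) ≤ k := by omega
        have h6 : ((l / 2 : ℕ) : ℤ) ≤ ((l + 1) / 2 : ℕ) := by omega
        have h7 : ((l + 1) / 2 : ℕ) ≤ (k : ℤ) + 1 := by omega
        have h8 : (L j : ℤ) < L i := by exact_mod_cast hl
        have h9 : (0 : ℤ) ≤ L j := by omega
        nlinarith [mul_le_mul_of_nonneg_left h6 h9,
          mul_nonneg (sub_nonneg.2 h8.le) (sub_nonneg.2 h5)]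
    · by_cases hlk : l = 2 * k + 1
      · subst hlk
        rw [D03_repr_self]
        · exact DegLe.zero
        · rw [h1 _ le_rfl]
          have e1 : (2 * k + 1 + 1) / 2 = k + 1 := by omega
          have e2 : k + 1 - (2 * k + 1) / 2 = 1 := by omega
          rw [e1, e2]
          have e3 : -((L i : ℤ) * ((k : ℤ) + 1 - ((k + 1 : ℕ) : ℤ))) = 0 := by
            push_cast
            ring
          rw [e3, T_zero, one_mul]
          rfl
      · have hne : al cs i j l ≠ al cs i j (2 * k + 1) := by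
          intro h
          have h4 := congrArg cs.length h
          rw [len_al cs hij (Or.inl hl1.le), len_al cs hij (Or.inl (by omega))] at h4
          exact hlk h4
        rw [D03_repr D h _ _ hne]
        rcases Nat.lt_or_ge (2 * k + 1) l with h4 | h4
        · rw [(h3 l h4 hl1.le).1]
          exact DegLe.zero
        · rw [h1 l h4]
          refine DegLe.mono ((DegLe.T le_rfl).mul (q_deg (L j) _)) ?_
          have e1 : ((k + 1 - l / 2 : ℕ) : ℤ) = (k : ℤ) + 1 - (l / 2 : ℕ) := by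
            omega
          rw [e1]
          have h8 : (L j : ℤ) < L i := by exact_mod_cast hl
          have h9 : (0 : ℤ) ≤ L j := by omega
          rcases Nat.even_or_odd' l with ⟨p, hp | hp⟩
          · have e2 : (((l + 1) / 2 : ℕ) : ℤ) = p := by omega
            have e3 : ((l / 2 : ℕ) : ℤ) = p := by omega
            rw [e2, e3]
            have h5 : (p : ℤ) ≤ k := by omega
            nlinarith [mul_nonneg (sub_nonneg.2 h8.le) (sub_nonneg.2 h5)]
          · have e2 : (((l + 1) / 2 : ℕ) : ℤ) = p + 1 := by omega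
            have e3 : ((l / 2 : ℕ) : ℤ) = p := by omega
            rw [e2, e3]
            have h5 : (p : ℤ) + 1 ≤ k := by omega
            nlinarith [mul_nonneg (sub_nonneg.2 h8.le) (sub_nonneg.2 h5)]
  · have hne : z ≠ al cs i j (2 * k + 1) := by
      rintro rfl
      exact hz (al_mem cs i j _)
    rw [D03_repr D h _ _ hne, hHP z hz]
    exact DegLe.zero

theorem pe_lat (hL : ∀ i, 0 < L i) {i j : B} {n : ℕ} (hn : M i j = 2 * n) {k : ℕ}
    (hk : k < n) {h : H} (hr : PE D i j k h) : D.Lat (-1) (h - D.t (al cs j i (2 * k + 2))) := by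
  have hij : i ≠ j := by
    rintro rfl
    rw [M.diagonal i] at hn
    omega
  have hm : M i j ≠ 0 := by omega
  have hm' : M j i = M i j := M.symmetric j i
  obtain ⟨hHP, h1, h2, h3, h4⟩ := hr
  intro z
  by_cases hz : z ∈ WP cs {i, j}
  · rcases D03_cases (cs := cs) hij hm hz with ⟨l, hl1, rfl⟩ | ⟨l, hl1, rfl⟩
    · by_cases hlk : l = 2 * k + 2
      · subst hlk
        rw [D03_repr_self]
        · exact DegLe.zero
        · rw [h1 _ le_rfl, sub_self, T_zero]
      · have hne : al cs j i l ≠ al cs j i (2 * k + 2) := by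
          intro h
          have h4 := congrArg cs.length h
          rw [len_al cs hij.symm (Or.inl (by omega)), len_al cs hij.symm (Or.inl (by omega))] at h4
          exact hlk h4
        rw [D03_repr D h _ _ hne]
        rcases Nat.lt_or_ge (2 * k + 2) l with h5 | h5
        · rw [h2 l h5 hl1]
          exact DegLe.zero
        · rw [h1 l h5]
          apply DegLe.T
          have h6 := sl_lt hL j i (show l < 2 * k + 2 by omega)
          omega
    · have hne : al cs i j l ≠ al cs j i (2 * k + 2) := by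
        intro h
        by_cases hlk : l = 2 * k + 2
        · exact al_ne cs hij (by omega) (Or.inl hl1) (Or.inl (by omega)) h
        · have h4 := congrArg cs.length h
          rw [len_al cs hij (Or.inl hl1.le), len_al cs hij.symm (Or.inl (by omega))] at h4
          exact hlk h4
      rw [D03_repr D h _ _ hne]
      rcases Nat.lt_or_ge (2 * k + 1) l with h5 | h5
      · rw [h4 l h5 hl1]
        exact DegLe.zero
      · rw [h3 l h5]
        apply DegLe.T
        have h6 : sl L j i (2 * k + 2) = L j + sl L i j (2 * k + 1) := rfl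
        have h7 : sl L i j l ≤ sl L i j (2 * k + 1) := by
          rcases Nat.eq_or_lt_of_le h5 with h8 | h8
          · rw [h8]
          · exact (sl_lt hL i j h8).le
        have h8 := hL j
        omega
  · have hne : z ≠ al cs j i (2 * k + 2) := by
      rintro rfl
      apply hz
      have h5 := al_mem cs j i (2 * k + 2)
      rwa [Set.pair_comm] at h5
    rw [D03_repr D h _ _ hne, hHP z hz]
    exact DegLe.zero

private theorem D03_j (hL : ∀ i, 0 < L i) {i j : B} {n : ℕ} (h3 : 3 ≤ M i j)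
    (hn : M i j = 2 * n) {k : ℕ} (hk : k < n)
    (h : PR D i j k (D.c (al cs i j (2 * k + 1)))) :
    D.c (cs.simple j) * D.c (al cs i j (2 * k + 1)) = D.c (al cs j i (2 * k + 2)) ∧
      PE D i j k (D.c (al cs j i (2 * k + 2))) := by
  have h1 := pr_pe D hL h3 (show 2 * k + 2 ≤ M i j by omega) h
  have h2 : D.c (cs.simple j) * D.c (al cs i j (2 * k + 1)) = D.c (al cs j i (2 * k + 2)) := by
    apply D.c_eq
    · rw [map_mul, D.bar_c, D.bar_c]
    · exact pe_lat D hL hn hk h1
  exact ⟨h2, h2 ▸ h1⟩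

private theorem D03_step (hL : ∀ i, 0 < L i) {i j : B} {n : ℕ} (h3 : 3 ≤ M i j)
    (hn : M i j = 2 * n) (hl : L j < L i) {k : ℕ} (hk : k + 1 < n)
    (h : PR D i j k (D.c (al cs i j (2 * k + 1)))) {g' : H}
    (hg' : (k = 0 ∧ g' = 0) ∨ (0 < k ∧ PR D i j (k - 1) g')) (hb : D.bar g' = g') :
    D.c (cs.simple i) * D.c (al cs j i (2 * k + 2)) -
        eta (L i - L j) • D.c (al cs i j (2 * k + 1)) - g' = D.c (al cs i j (2 * (k + 1) + 1)) ∧
      PR D i j (k + 1) (D.c (al cs i j (2 * (k + 1) + 1))) := by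
  obtain ⟨_, h1⟩ := D03_j D hL h3 hn (by omega) h
  have h2 := pe_pr D hL hn hl (show 2 * k + 3 ≤ 2 * n by omega) h1 h hg'
  have h4 : D.c (cs.simple i) * D.c (al cs j i (2 * k + 2)) -
        eta (L i - L j) • D.c (al cs i j (2 * k + 1)) - g' =
      D.c (al cs i j (2 * (k + 1) + 1)) := by
    apply D.c_eq
    · rw [map_sub, map_sub, map_mul, D.bar_c, D.bar_c, D.bar_smul, invert_eta, D.bar_c, hb]
    · exact pr_lat D hn hl hk h2
  exact ⟨h4, h4 ▸ h2⟩

private theorem D03_main (hL : ∀ i, 0 < L i) {i j : B} {n : ℕ} (h3 : 3 ≤ M i j)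
    (hn : M i j = 2 * n) (hl : L j < L i) (k : ℕ) :
    k < n → PR D i j k (D.c (al cs i j (2 * k + 1))) := by
  induction k using Nat.strong_induction_on with
  | _ k ih =>
    intro hk
    rcases k with _ | k
    · have h1 := pr_zero D hL h3
      have e : al cs i j (2 * 0 + 1) = cs.simple i := al_one cs i j
      rw [e]
      exact h1
    · have h1 := ih k (by omega) (by omega)
      rcases k with _ | k
      · exact (D03_step D hL h3 hn hl hk h1 (g' := 0) (Or.inl ⟨rfl, rfl⟩) (map_zero _)).2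
      · have h2 := ih k (by omega) (by omega)
        exact (D03_step D hL h3 hn hl hk h1 (g' := D.c (al cs i j (2 * k + 1)))
          (Or.inr ⟨by omega, by simpa using h2⟩) (D.bar_c _)).2

theorem ue_pr (hL : ∀ i, 0 < L i) {i j : B} {n : ℕ} (h3 : 3 ≤ M i j) (hn : M i j = 2 * n)
    (hl : L j < L i) {k : ℕ} (hk : k < n) : PR D i j k (D.c (al cs i j (2 * k + 1))) :=
  D03_main D hL h3 hn hl k hk

theorem ue_pe (hL : ∀ i, 0 < L i) {i j : B} {n : ℕ} (h3 : 3 ≤ M i j) (hn : M i j = 2 * n)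
    (hl : L j < L i) {k : ℕ} (hk : k < n) : PE D i j k (D.c (al cs j i (2 * k + 2))) :=
  (D03_j D hL h3 hn hk (D03_main D hL h3 hn hl k hk)).2

theorem ue_j (hL : ∀ i, 0 < L i) {i j : B} {n : ℕ} (h3 : 3 ≤ M i j) (hn : M i j = 2 * n)
    (hl : L j < L i) {k : ℕ} (hk : k < n) :
    D.c (cs.simple j) * D.c (al cs i j (2 * k + 1)) = D.c (al cs j i (2 * k + 2)) :=
  (D03_j D hL h3 hn hk (D03_main D hL h3 hn hl k hk)).1

theorem ue_i_zero (hL : ∀ i, 0 < L i) {i j : B} {n : ℕ} (h3 : 3 ≤ M i j) (hn : M i j = 2 * n)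
    (hl : L j < L i) :
    D.c (cs.simple i) * D.c (al cs j i 2) =
      D.c (al cs i j 3) + eta (L i - L j) • D.c (cs.simple i) := by
  have h1 := (D03_step D hL h3 hn hl (k := 0) (by omega)
    (D03_main D hL h3 hn hl 0 (by omega)) (g' := 0) (Or.inl ⟨rfl, rfl⟩) (map_zero _)).1
  have e : al cs i j (2 * 0 + 1) = cs.simple i := al_one cs i j
  rw [e, sub_zero, sub_eq_iff_eq_add] at h1
  exact h1

theorem ue_i (hL : ∀ i, 0 < L i) {i j : B} {n : ℕ} (h3 : 3 ≤ M i j) (hn : M i j = 2 * n)
    (hl : L j < L i) {k : ℕ} (hk : k + 2 < n) :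
    D.c (cs.simple i) * D.c (al cs j i (2 * k + 4)) =
      D.c (al cs i j (2 * k + 5)) + eta (L i - L j) • D.c (al cs i j (2 * k + 3)) +
        D.c (al cs i j (2 * k + 1)) := by
  have h2 := D03_main D hL h3 hn hl k (by omega)
  have h1 := (D03_step D hL h3 hn hl (k := k + 1) (by omega)
    (D03_main D hL h3 hn hl (k + 1) (by omega)) (g' := D.c (al cs i j (2 * k + 1)))
    (Or.inr ⟨by omega, by simpa using h2⟩) (D.bar_c _)).1
  have e1 : 2 * (k + 1) + 2 = 2 * k + 4 := by ring
  have e2 : 2 * (k + 1) + 1 = 2 * k + 3 := by ring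
  have e3 : 2 * (k + 1 + 1) + 1 = 2 * k + 5 := by ring
  rw [e1, e2, e3, sub_eq_iff_eq_add, sub_eq_iff_eq_add] at h1
  rw [h1]
  abel

end Pool.Agent.Lib.KLT
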