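import Pool.Agent.Lib.MP_754fa1_al.T.D01b
import Pool.Agent.Lib.MP_754fa1_al.T.A02

/-!
# D03a. The polynomials `Q_N` and the shape of the coordinates, unequal parameters

`M i j = 2 n`, `n ≥ 2`, `a = L i > b = L j`. `Q b N`: `Q 0 = 0`, `Q 1 = 1`, `Q (N + 2) = Q N - ξ_b Q (N + 1)`.

`q_rel`: `Q (N + 1) + v^b Q N = v^{-b N}`, induction: `Q_{N+2} + v^b Q_{N+1} = Q_N - ξ_b Q_{N+1} + v^b Q_{N+1} = Q_N + v^{-b} Q_{N+1}
= v^{-b} (Q_{N+1} + v^b Q_N)`. `q_deg`: `DegLe (b (N - 1)) (Q N)`, by two-step induction (`DegLe n (Q 0)` for all `n`).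

`PR i j k h`: `HP {i, j} h` and for `l ≤ 2 k + 1`:
`h(al i j l) = v^{-a (k + 1 - (l+1)/2)} Q_{k + 1 - l/2}`, `h(al j i l) = v^{-a (k + 1 - l/2)} Q_{k + 1 - (l+1)/2}`; zero for `l > 2 k + 1`
(`l ≤ 2 n`; in all uses `2 k + 1 < 2 n`). Here `(l+1)/2`, `l/2` are the numbers of letters `i`, `j` in `al i j l`.
`PE i j k h` (`2 k + 2 ≤ 2 n`): `HP {i, j} h` and `h(al j i l) = v^{sl L j i l - sl L j i (2k+2)}` for `l ≤ 2 k + 2`, `0` for `2 k + 2 < l ≤ 2 n`;
`h(al i j l) = v^{sl L i j l - sl L j i (2k+2)}` for `l ≤ 2 k + 1`, `0` for `2 k + 1 < l < 2 n`.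

`pr_zero`: `C_i = T_i + v^{-a}`: `h(1) = v^{-a}`, `h(s_i) = 1`, `h(s_j) = 0 = v^{-a} Q_0`.

`pr_pe`: `PR k h`, `2 k + 2 ≤ 2 n` imply `PE k (C_j h)`. At `z = al j i (l + 1)`, `l + 1 ≤ 2 n`, `j` is a left descent, `s_j z = al i j l`: with
`N = k - l/2`, `P = k + 1 - (l + 1)/2`: for `l ≤ 2 k`:
`h(al i j l) + v^b h(al j i (l+1)) = v^{-a P} (Q_{N+1} + v^b Q_N) = v^{-a P - b N}` (`(l+2)/2 = l/2 + 1`), which is
`v^{sl L j i (l+1) - sl L j i (2k+2)}`: `sl L j i (l + 1) = b (l/2 + 1) + a ((l+1)/2)`. For `l = 2 k + 1`: `1 + 0`. For `l > 2k + 1`: `0`.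
At `z = al i j l`, `l < 2 n` (`j` not a left descent; includes `1`), `s_j z = al j i (l+1)`: `(C_j h)(z) = v^{-b} (C_j h)(s_j z)`
(`repr_cs_up`, `repr_cs_down`). HP: `hp_mul`, `hp_c`.
-/

open LaurentPolynomial
open Pool.Agent.Lib.MP_754fa1_al

namespace Pool.Agent.Lib.KLT

universe u v w

/-- the polynomials `Q_N` -/
noncomputable def Q (b : ℕ) : ℕ → Lau
  | 0 => 0
  | 1 => 1
  | N + 2 => Q b N - xi b * Q b (N + 1)

theorem q_rel (b N : ℕ) : Q b (N + 1) + T (b : ℤ) * Q b N = T (-((b : ℤ) * N)) := by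
  induction N with
  | zero => simp [Q]
  | succ N ih =>
    have h1 : Q b (N + 1 + 1) = Q b N - xi b * Q b (N + 1) := rfl
    have h2 : (T (-(b : ℤ)) : Lau) * T (b : ℤ) = 1 := by
      rw [← T_add, neg_add_cancel, T_zero]
    have h3 : Q b (N + 1 + 1) + T (b : ℤ) * Q b (N + 1) =
        T (-(b : ℤ)) * (Q b (N + 1) + T (b : ℤ) * Q b N) := by
      rw [h1, xi, mul_add, ← mul_assoc, h2]
      ring
    rw [h3, ih, ← T_add]
    congr 1
    push_cast
    ring

private theorem D03a_deg (b N : ℕ) : DegLe ((b : ℤ) * ((N : ℤ) - 1)) (Q b N) ∧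
    DegLe ((b : ℤ) * (((N + 1 : ℕ) : ℤ) - 1)) (Q b (N + 1)) := by
  induction N with
  | zero =>
    refine ⟨DegLe.zero, ?_⟩
    have h1 : Q b (0 + 1) = 1 := rfl
    rw [h1]
    simpa using DegLe.one
  | succ N ih =>
    refine ⟨ih.2, ?_⟩
    have h1 : Q b (N + 1 + 1) = Q b N - xi b * Q b (N + 1) := rfl
    rw [h1]
    refine DegLe.sub (ih.1.mono ?_) (((DegLe.xi b).mul ih.2).mono ?_)
    · push_cast
      have : (0 : ℤ) ≤ b := Int.natCast_nonneg b
      nlinarith
    · push_cast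
      have : (0 : ℤ) ≤ b := Int.natCast_nonneg b
      nlinarith

theorem q_deg (b N : ℕ) : DegLe ((b : ℤ) * ((N : ℤ) - 1)) (Q b N) := (D03a_deg b N).1

theorem sl_eq {B : Type u} (L : B → ℕ) (i j : B) (l : ℕ) :
    sl L i j l = ((l + 1) / 2) * L i + (l / 2) * L j := by
  induction l generalizing i j with
  | zero => simp [sl]
  | succ l ih =>
    have h1 : sl L i j (l + 1) = L i + sl L j i l := rfl
    rw [h1, ih, show (l + 1 + 1) / 2 = l / 2 + 1 by omega]
    ring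

variable {B : Type u} {W : Type v} [Group W] {M : CoxeterMatrix B}
variable {cs : CoxeterSystem M W} {L : B → ℕ} {H : Type w} [Ring H] [Algebra Lau H]

/-- coordinates of `C(al i j (2k+1))` -/
def PR (D : KL cs L H) (i j : B) (k : ℕ) (h : H) : Prop :=
  HP D.toHecke {i, j} h ∧
  (∀ l, l ≤ 2 * k + 1 → D.t.repr h (al cs i j l) =
    T (-((L i : ℤ) * ((k : ℤ) + 1 - ((l + 1) / 2 : ℕ)))) * Q (L j) (k + 1 - l / 2)) ∧
  (∀ l, l ≤ 2 * k + 1 → D.t.repr h (al cs j i l) =
    T (-((L i : ℤ) * ((k : ℤ) + 1 - (l / 2 : ℕ)))) * Q (L j) (k + 1 - (l + 1) / 2)) ∧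
  (∀ l, 2 * k + 1 < l → l ≤ M i j →
    D.t.repr h (al cs i j l) = 0 ∧ D.t.repr h (al cs j i l) = 0)

/-- coordinates of `C(al j i (2k+2))` -/
def PE (D : KL cs L H) (i j : B) (k : ℕ) (h : H) : Prop :=
  HP D.toHecke {i, j} h ∧
  (∀ l, l ≤ 2 * k + 2 → D.t.repr h (al cs j i l) =
    T ((sl L j i l : ℤ) - sl L j i (2 * k + 2))) ∧
  (∀ l, 2 * k + 2 < l → l ≤ M i j → D.t.repr h (al cs j i l) = 0) ∧
  (∀ l, l ≤ 2 * k + 1 → D.t.repr h (al cs i j l) =
    T ((sl L i j l : ℤ) - sl L j i (2 * k + 2))) ∧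
  (∀ l, 2 * k + 1 < l → l < M i j → D.t.repr h (al cs i j l) = 0)

variable (D : KL cs L H)

private theorem D03a_wp (i j : B) : cs.simple i ∈ WP cs {i, j} ∧ cs.simple j ∈ WP cs {i, j} :=
  ⟨Subgroup.subset_closure ⟨i, Or.inl rfl, rfl⟩, Subgroup.subset_closure ⟨j, Or.inr rfl, rfl⟩⟩

private theorem D03a_ne {i j : B} (h3 : 3 ≤ M i j) : i ≠ j := by
  rintro rfl
  rw [M.diagonal] at h3
  omega

open Classical in
private theorem D03a_repr (hL : ∀ i, 0 < L i) (i : B) (z : W) :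
    D.t.repr (D.c (cs.simple i)) z =
      (if cs.simple i = z then 1 else 0) + T (-(L i : ℤ)) * (if (1 : W) = z then 1 else 0) := by
  rw [D.c_simple hL, map_add, map_smul, Finsupp.add_apply, Finsupp.smul_apply, D.t.repr_self,
    ← D.toHecke.t_one, D.t.repr_self, Finsupp.single_apply, Finsupp.single_apply, smul_eq_mul]

theorem pr_zero (hL : ∀ i, 0 < L i) {i j : B} (h3 : 3 ≤ M i j) :
    PR D i j 0 (D.c (cs.simple i)) := by
  classical
  have hij := D03a_ne h3
  have hM : M j i = M i j := M.symmetric j i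
  have hsi : al cs i j 1 = cs.simple i := al_one cs i j
  have hsj : al cs j i 1 = cs.simple j := al_one cs j i
  have h1i : cs.simple i ≠ 1 := by
    intro h
    have := congrArg cs.length h
    rw [cs.length_simple, cs.length_one] at this
    omega
  have h1j : cs.simple j ≠ 1 := by
    intro h
    have := congrArg cs.length h
    rw [cs.length_simple, cs.length_one] at this
    omega
  have hne : cs.simple i ≠ cs.simple j := by
    rw [← hsi, ← hsj]
    exact al_ne cs hij (by omega) (Or.inl (by omega)) (Or.inl (by omega))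
  have hv1 : D.t.repr (D.c (cs.simple i)) 1 = T (-(L i : ℤ)) := by
    rw [D03a_repr D hL, if_neg h1i, if_pos rfl, zero_add, mul_one]
  have hvi : D.t.repr (D.c (cs.simple i)) (cs.simple i) = 1 := by
    rw [D03a_repr D hL, if_pos rfl, if_neg h1i.symm, mul_zero, add_zero]
  have hvj : D.t.repr (D.c (cs.simple i)) (cs.simple j) = 0 := by
    rw [D03a_repr D hL, if_neg hne, if_neg h1j.symm, mul_zero, add_zero]
  have hbig : ∀ z, 2 ≤ cs.length z → D.t.repr (D.c (cs.simple i)) z = 0 := by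
    intro z hz
    rw [D03a_repr D hL, if_neg, if_neg, mul_zero, add_zero]
    · rintro rfl
      rw [cs.length_one] at hz
      omega
    · rintro rfl
      rw [cs.length_simple] at hz
      omega
  refine ⟨hp_c D (D03a_wp i j).1, ?_, ?_, ?_⟩
  · intro l hl
    have hl' : l = 0 ∨ l = 1 := by omega
    rcases hl' with rfl | rfl
    · rw [al_zero, hv1]
      simp [Q]
    · rw [hsi, hvi]
      simp [Q]
  · intro l hl
    have hl' : l = 0 ∨ l = 1 := by omega
    rcases hl' with rfl | rfl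
    · rw [al_zero, hv1]
      simp [Q]
    · rw [hsj, hvj]
      simp [Q]
  · intro l hl hlM
    refine ⟨hbig _ ?_, hbig _ ?_⟩
    · rw [len_al cs hij (Or.inl hlM)]
      omega
    · rw [len_al cs hij.symm (Or.inl (by omega))]
      omega

theorem pr_pe (hL : ∀ i, 0 < L i) {i j : B} (h3 : 3 ≤ M i j) {k : ℕ}
    (hk : 2 * k + 2 ≤ M i j) {h : H} (hr : PR D i j k h) : PE D i j k (D.c (cs.simple j) * h) := by
  have hij := D03a_ne h3
  have hM : M j i = M i j := M.symmetric j i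
  obtain ⟨hr1, hr2, hr3, hr4⟩ := hr
  have hld : ∀ l, l + 1 ≤ M i j → cs.IsLeftDescent (al cs j i (l + 1)) j := fun l hl =>
    ld_al cs hij.symm (Nat.succ_pos l) (Or.inl (by omega))
  have hsj : ∀ l, cs.simple j * al cs j i (l + 1) = al cs i j l := by
    intro l
    rw [al_succ, ← mul_assoc, cs.simple_mul_simple_self, one_mul]
  have hdown : ∀ l, l + 1 ≤ M i j → D.t.repr (D.c (cs.simple j) * h) (al cs j i (l + 1)) =
      D.t.repr h (al cs i j l) + T (L j : ℤ) * D.t.repr h (al cs j i (l + 1)) := by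
    intro l hl
    rw [repr_cs_down D hL j h (hld l hl), hsj]
  have hnld : ∀ l, l < M i j → ¬ cs.IsLeftDescent (al cs i j l) j := by
    intro l hl
    rcases Nat.eq_zero_or_pos l with rfl | h0
    · rw [al_zero]
      exact cs.not_isLeftDescent_one j
    · rw [ld_al_iff cs hij h0 (Or.inl hl.le)]
      omega
  have hup : ∀ l, l < M i j → D.t.repr (D.c (cs.simple j) * h) (al cs i j l) =
      T (-(L j : ℤ)) * D.t.repr (D.c (cs.simple j) * h) (al cs j i (l + 1)) := by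
    intro l hl
    have h2 : (T (-(L j : ℤ)) : Lau) * T (L j : ℤ) = 1 := by
      rw [← T_add, neg_add_cancel, T_zero]
    rw [repr_cs_up D hL j h (hnld l hl), ← al_succ, hdown l hl, mul_add, ← mul_assoc, h2, one_mul]
    ring
  have key1 : ∀ l, l ≤ 2 * k + 1 → D.t.repr (D.c (cs.simple j) * h) (al cs j i (l + 1)) =
      T ((sl L j i (l + 1) : ℤ) - sl L j i (2 * k + 2)) := by
    intro l hl
    rw [hdown l (by omega), hr2 l hl]
    rcases Nat.lt_or_ge (2 * k) l with hl2 | hl2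
    · have hl3 : l = 2 * k + 1 := by omega
      subst hl3
      rw [(hr4 (2 * k + 1 + 1) (by omega) (by omega)).2, mul_zero, add_zero]
      rw [show (2 * k + 1 + 1) / 2 = k + 1 by omega, show k + 1 - (2 * k + 1) / 2 = 1 by omega,
        sub_self]
      have h1 : Q (L j) 1 = 1 := rfl
      rw [h1]
      push_cast
      rw [sub_self, mul_zero, neg_zero, T_zero, one_mul]
    · rw [hr3 (l + 1) (by omega)]
      rw [show k + 1 - (l + 1 + 1) / 2 = k - l / 2 by omega,
        show k + 1 - l / 2 = k - l / 2 + 1 by omega]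
      have h1 := q_rel (L j) (k - l / 2)
      have h2 : T (-((L i : ℤ) * ((k : ℤ) + 1 - ((l + 1) / 2 : ℕ)))) * Q (L j) (k - l / 2 + 1) +
          T (L j : ℤ) * (T (-((L i : ℤ) * ((k : ℤ) + 1 - ((l + 1) / 2 : ℕ)))) *
            Q (L j) (k - l / 2)) =
          T (-((L i : ℤ) * ((k : ℤ) + 1 - ((l + 1) / 2 : ℕ)))) *
            (Q (L j) (k - l / 2 + 1) + T (L j : ℤ) * Q (L j) (k - l / 2)) := by ring
      rw [h2, h1, ← T_add]
      congr 1
      rw [sl_eq, sl_eq, show (l + 1 + 1) / 2 = l / 2 + 1 by omega,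
        show (2 * k + 2 + 1) / 2 = k + 1 by omega, show (2 * k + 2) / 2 = k + 1 by omega,
        Nat.cast_sub (by omega : l / 2 ≤ k)]
      push_cast
      ring
  have key2 : ∀ l, 2 * k + 1 < l → l + 1 ≤ M i j →
      D.t.repr (D.c (cs.simple j) * h) (al cs j i (l + 1)) = 0 := by
    intro l hl hlM
    rw [hdown l hlM, (hr4 l hl (by omega)).1, (hr4 (l + 1) (by omega) hlM).2, mul_zero, add_zero]
  have keyd : ∀ l, l ≤ 2 * k + 1 → D.t.repr (D.c (cs.simple j) * h) (al cs i j l) =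
      T ((sl L i j l : ℤ) - sl L j i (2 * k + 2)) := by
    intro l hl
    rw [hup l (by omega), key1 l hl, ← T_add]
    congr 1
    have h1 : sl L j i (l + 1) = L j + sl L i j l := rfl
    rw [h1]
    push_cast
    ring
  refine ⟨hp_mul D.toHecke (hp_c D (D03a_wp i j).2) hr1, ?_, ?_, keyd, ?_⟩
  · intro l hl
    rcases l with - | l
    · exact keyd 0 (by omega)
    · exact key1 l (by omega)
  · intro l hl hlM
    rcases l with - | l
    · omega
    · exact key2 l (by omega) hlM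
  · intro l hl hlM
    rw [hup l hlM, key2 l hl (by omega), mul_zero]

end Pool.Agent.Lib.KLT
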