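import Pool.Agent.Lib.MP_754fa1_al.T.D03a

/-!
# D03b. From `PE k` to `PR (k + 1)`

`a = L i`, `b = L j`, `b < a`, `M i j = 2 n`, `ζ = η_{a-b}`.

`q_rel2`: `N ≥ 1`: `η_a v^{-b N} = v^{-a} Q_{N+1} + ζ Q_N + v^a Q_{N-1}`: `ζ Q_N = v^{a-b} Q_N + v^{b-a} Q_N`, and
`v^{-a} (Q_{N+1} + v^b Q_N) = v^{-a} v^{-bN}`, `v^{a-b} (Q_N + v^b Q_{N-1}) = v^{a-b} v^{-b(N-1)} = v^a v^{-bN}` (`q_rel`).

`pr_eig`: `PR k h`, `l < 2 n`: `h(al j i l) = v^{-a} h(al i j (l + 1))`: for `l + 1 ≤ 2k+1` from the formulas (`(l + 2)/2 = l/2 + 1`), for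
`l = 2 k + 1` both are `0` (`Q 0 = 0`), for `l > 2k+1` both are `0`. (`2 k + 1 < 2 n`.)

`pe_pr`: let `PE k e`, `PR k g`, `2 k + 3 ≤ 2 n`, and `g'` with `PR (k - 1) g'` if `k ≥ 1`, `g' = 0` if `k = 0`. Then `PR (k + 1) (C_i e - ζ g - g')`.
At `z = al i j (l + 1)`, `l + 1 ≤ 2 n` (`i` a left descent, `s_i z = al j i l`), `S = sl L j i (2k+2) = (k+1)(a+b)`:
* `l + 1 ≤ 2 k + 1`: `(C_i e)(z) = v^{sl L j i l - S} + v^a v^{sl L i j (l+1) - S} = (v^{-a} + v^a) v^{sl L i j (l+1) - S}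
  = η_a v^{-a P - b N}` with `P = k + 1 - (l+2)/2`, `N = k + 1 - (l+1)/2 ≥ 1` (`sl_eq`). By `q_rel2` this is
  `v^{-a(P+1)} Q_{N+1} + ζ v^{-a P} Q_N + v^{-a (P-1)} Q_{N-1}`; the second term is `ζ g(z)`, the third is `g'(z)`: for
  `l + 1 ≤ 2 k - 1` by `PR (k-1)`; for `l + 1 = 2k, 2k+1` one has `N = 1`, `Q_0 = 0 = g'(z)`.
* `l + 1 = 2 k + 2`: `(C_i e)(z) = v^{sl L j i (2k+1) - S} + v^a * 0 = v^{-a}`, `g(z) = g'(z) = 0`, and `PR (k+1)` asks for `v^{-a} Q_1`.
* `l + 1 = 2 k + 3`: `1`. `l + 1 > 2 k + 3`: `0` (for `l + 1 = 2n` use `al_top`).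
At `z = al j i l`, `l < 2 n`: `(C_i e)(z) = v^{-a} (C_i e)(s_i z)` (`repr_cs_up`, `repr_cs_down`), and the same for `g`, `g'` (`pr_eig`), so
the value is `v^{-a}` times the value at `al i j (l + 1)`, which gives the formula for `l ≤ 2 k + 2`; at `l = 2k + 3`: `v^{-a} * 0 = 0 =
v^{..} Q_0`; for `l = 2 n` use `al_top`.
-/

open LaurentPolynomial
open Pool.Agent.Lib.MP_754fa1_al

namespace Pool.Agent.Lib.KLT

universe u v w

private theorem D03b_inv (a : ℤ) : (T (-a) : Lau) * T a = 1 := by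
  rw [← T_add, neg_add_cancel, T_zero]

theorem q_rel2 {a b : ℕ} (hab : b < a) (N : ℕ) :
    eta a * T (-((b : ℤ) * ((N : ℤ) + 1))) =
      T (-(a : ℤ)) * Q b (N + 2) + eta (a - b) * Q b (N + 1) + T (a : ℤ) * Q b N := by
  have h1 := q_rel b (N + 1)
  have h2 := q_rel b N
  have e1 : (T ((a - b : ℕ) : ℤ) : Lau) = T (a : ℤ) * T (-(b : ℤ)) := by
    rw [← T_add]
    congr 1
    push_cast [hab.le]
    ring
  have e2 : (T (-((a - b : ℕ) : ℤ)) : Lau) = T (-(a : ℤ)) * T (b : ℤ) := by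
    rw [← T_add]
    congr 1
    push_cast [hab.le]
    ring
  have e3 : (T (-((b : ℤ) * ((N : ℤ) + 1))) : Lau) = T (-(b : ℤ)) * T (-((b : ℤ) * N)) := by
    rw [← T_add]
    congr 1
    ring
  have e4 : (T (-((b : ℤ) * ((N + 1 : ℕ) : ℤ))) : Lau) = T (-((b : ℤ) * ((N : ℤ) + 1))) := by
    congr 1
  have h3 := D03b_inv (b : ℤ)
  rw [e4] at h1
  have h4 : (T (a : ℤ) : Lau) * T (-((b : ℤ) * ((N : ℤ) + 1))) =
      T (a : ℤ) * T (-(b : ℤ)) * Q b (N + 1) + T (a : ℤ) * Q b N := by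
    rw [e3, ← h2]
    linear_combination T (a : ℤ) * Q b N * h3
  have h5 : (T (-(a : ℤ)) : Lau) * T (-((b : ℤ) * ((N : ℤ) + 1))) =
      T (-(a : ℤ)) * Q b (N + 2) + T (-(a : ℤ)) * T (b : ℤ) * Q b (N + 1) := by
    rw [← h1]
    ring
  rw [eta, eta, e1, e2, add_mul, h4, h5]
  ring

variable {B : Type u} {W : Type v} [Group W] {M : CoxeterMatrix B}
variable {cs : CoxeterSystem M W} {L : B → ℕ} {H : Type w} [Ring H] [Algebra Lau H]
variable (D : KL cs L H)

theorem pr_eig {i j : B} {k n : ℕ} (hn : M i j = 2 * n) (hk : k < n) {h : H}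
    (hr : PR D i j k h) {l : ℕ} (hl : l < 2 * n) :
    D.t.repr h (al cs j i l) = T (-(L i : ℤ)) * D.t.repr h (al cs i j (l + 1)) := by
  obtain ⟨-, hr2, hr3, hr4⟩ := hr
  rcases Nat.lt_trichotomy l (2 * k + 1) with h1 | h1 | h1
  · rw [hr3 l h1.le, hr2 (l + 1) (by omega), ← mul_assoc, ← T_add,
      show (l + 1 + 1) / 2 = l / 2 + 1 by omega]
    congr 2
    push_cast
    ring
  · rw [hr3 l h1.le, (hr4 (l + 1) (by omega) (by omega)).1,
      show k + 1 - (l + 1) / 2 = 0 by omega]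
    have h0 : Q (L j) 0 = 0 := rfl
    rw [h0, mul_zero, mul_zero]
  · rw [(hr4 l h1 (by omega)).2, (hr4 (l + 1) (by omega) (by omega)).1, mul_zero]

private theorem D03b_wp (i j : B) : cs.simple i ∈ WP cs {i, j} :=
  Subgroup.subset_closure ⟨i, Or.inl rfl, rfl⟩

private theorem D03b_ne {i j : B} (h3 : 3 ≤ M i j) : i ≠ j := by
  rintro rfl
  rw [M.diagonal] at h3
  omega

theorem pe_pr (hL : ∀ i, 0 < L i) {i j : B} {n : ℕ} (hn : M i j = 2 * n) (hl : L j < L i)
    {k : ℕ} (hk : 2 * k + 3 ≤ 2 * n) {e g g' : H} (he : PE D i j k e) (hg : PR D i j k g)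
    (hg' : (k = 0 ∧ g' = 0) ∨ (0 < k ∧ PR D i j (k - 1) g')) :
    PR D i j (k + 1) (D.c (cs.simple i) * e - eta (L i - L j) • g - g') := by
  have hij := D03b_ne (show 3 ≤ M i j by omega)
  have hM : M j i = M i j := M.symmetric j i
  have htop : al cs i j (2 * n) = al cs j i (2 * n) := by
    have h1 := al_top cs i j (by omega)
    rwa [hn] at h1
  obtain ⟨he1, he2, he3, he4, he5⟩ := he
  have hsub : ∀ z, D.t.repr (D.c (cs.simple i) * e - eta (L i - L j) • g - g') z =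
      D.t.repr (D.c (cs.simple i) * e) z - eta (L i - L j) * D.t.repr g z - D.t.repr g' z := by
    intro z
    rw [map_sub, map_sub, map_smul, Finsupp.sub_apply, Finsupp.sub_apply, Finsupp.smul_apply,
      smul_eq_mul]
  have hsi : ∀ l, cs.simple i * al cs i j (l + 1) = al cs j i l := by
    intro l
    rw [al_succ, ← mul_assoc, cs.simple_mul_simple_self, one_mul]
  have hdown : ∀ l, l + 1 ≤ 2 * n → D.t.repr (D.c (cs.simple i) * e) (al cs i j (l + 1)) =
      D.t.repr e (al cs j i l) + T (L i : ℤ) * D.t.repr e (al cs i j (l + 1)) := by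
    intro l hl
    rw [repr_cs_down D hL i e (ld_al cs hij (Nat.succ_pos l) (Or.inl (by omega))), hsi]
  have hnld : ∀ l, l < 2 * n → ¬ cs.IsLeftDescent (al cs j i l) i := by
    intro l hl
    rcases Nat.eq_zero_or_pos l with rfl | h0
    · rw [al_zero]
      exact cs.not_isLeftDescent_one i
    · rw [ld_al_iff cs hij.symm h0 (Or.inl (by omega))]
      omega
  have hup0 : ∀ l, l < 2 * n → D.t.repr (D.c (cs.simple i) * e) (al cs j i l) =
      T (-(L i : ℤ)) * D.t.repr (D.c (cs.simple i) * e) (al cs i j (l + 1)) := by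
    intro l hl
    rw [repr_cs_up D hL i e (hnld l hl), ← al_succ, hdown l hl, mul_add, ← mul_assoc,
      D03b_inv, one_mul]
    ring
  have hge : ∀ l, l < 2 * n →
      D.t.repr g' (al cs j i l) = T (-(L i : ℤ)) * D.t.repr g' (al cs i j (l + 1)) := by
    intro l hl
    rcases hg' with ⟨-, h2⟩ | ⟨-, h2⟩
    · rw [h2, map_zero, Finsupp.zero_apply, Finsupp.zero_apply, mul_zero]
    · exact pr_eig D hn (by omega) h2 hl
  have hup : ∀ l, l < 2 * n →
      D.t.repr (D.c (cs.simple i) * e - eta (L i - L j) • g - g') (al cs j i l) =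
      T (-(L i : ℤ)) *
        D.t.repr (D.c (cs.simple i) * e - eta (L i - L j) • g - g') (al cs i j (l + 1)) := by
    intro l hl
    rw [hsub, hsub, hup0 l hl, pr_eig D hn (by omega) hg hl, hge l hl]
    ring
  have hS : (sl L j i (2 * k + 2) : ℤ) = ((k : ℤ) + 1) * (L i + L j) := by
    rw [sl_eq, show (2 * k + 2 + 1) / 2 = k + 1 by omega, show (2 * k + 2) / 2 = k + 1 by omega]
    push_cast
    ring
  have hgz : ∀ l, 2 * k + 1 < l → l ≤ 2 * n → D.t.repr g (al cs i j l) = 0 :=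
    fun l h1 h2 => (hg.2.2.2 l h1 (by omega)).1
  have hgz' : ∀ l, 2 * k ≤ l → 0 < l → l ≤ 2 * n → D.t.repr g' (al cs i j l) = 0 := by
    intro l h0 h1 h2
    rcases hg' with ⟨-, h3⟩ | ⟨h4, h3⟩
    · rw [h3, map_zero, Finsupp.zero_apply]
    · exact (h3.2.2.2 l (by omega) (by omega)).1
  have keyA : ∀ l, l + 1 ≤ 2 * k + 1 →
      D.t.repr (D.c (cs.simple i) * e - eta (L i - L j) • g - g') (al cs i j (l + 1)) =
      T (-((L i : ℤ) * (((k + 1 : ℕ) : ℤ) + 1 - ((l + 1 + 1) / 2 : ℕ)))) *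
        Q (L j) (k + 1 + 1 - (l + 1) / 2) := by
    intro l hl1
    obtain ⟨N, hN⟩ : ∃ N, k = (l + 1) / 2 + N := ⟨k - (l + 1) / 2, by omega⟩
    have hA : D.t.repr (D.c (cs.simple i) * e) (al cs i j (l + 1)) =
        eta (L i) * T ((sl L i j (l + 1) : ℤ) - sl L j i (2 * k + 2)) := by
      rw [hdown l (by omega), he2 l (by omega), he4 (l + 1) hl1, eta, add_mul, add_comm]
      congr 1
      rw [← T_add]
      congr 1
      have h1 : sl L i j (l + 1) = L i + sl L j i l := rfl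
      rw [h1]
      push_cast
      ring
    have hB : (T ((sl L i j (l + 1) : ℤ) - sl L j i (2 * k + 2)) : Lau) =
        T (-((L i : ℤ) * ((k : ℤ) + 1 - ((l + 1 + 1) / 2 : ℕ)))) *
          T (-((L j : ℤ) * ((N : ℤ) + 1))) := by
      rw [← T_add]
      congr 1
      rw [hS, sl_eq]
      have h1 : (k : ℤ) = ((l + 1) / 2 : ℕ) + (N : ℤ) := by exact_mod_cast hN
      rw [h1]
      push_cast
      ring
    have hG : D.t.repr g (al cs i j (l + 1)) =
        T (-((L i : ℤ) * ((k : ℤ) + 1 - ((l + 1 + 1) / 2 : ℕ)))) * Q (L j) (N + 1) := by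
      rw [hg.2.1 (l + 1) hl1, show k + 1 - (l + 1) / 2 = N + 1 by omega]
    have hG' : D.t.repr g' (al cs i j (l + 1)) =
        T (-((L i : ℤ) * ((k : ℤ) + 1 - ((l + 1 + 1) / 2 : ℕ)))) *
          (T (L i : ℤ) * Q (L j) N) := by
      rcases Nat.lt_or_ge (l + 1) (2 * k) with h2 | h2
      · rcases hg' with ⟨h4, -⟩ | ⟨h4, h3⟩
        · omega
        · rw [h3.2.1 (l + 1) (by omega), show k - 1 + 1 - (l + 1) / 2 = N by omega, ← mul_assoc,
            ← T_add]
          congr 2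
          push_cast [h4]
          ring
      · rw [hgz' (l + 1) h2 (Nat.succ_pos l) (by omega)]
        have h3 : N = 0 := by omega
        have h4 : Q (L j) 0 = 0 := rfl
        rw [h3, h4, mul_zero, mul_zero]
    have hE : (T (-((L i : ℤ) * (((k + 1 : ℕ) : ℤ) + 1 - ((l + 1 + 1) / 2 : ℕ)))) : Lau) =
        T (-((L i : ℤ) * ((k : ℤ) + 1 - ((l + 1 + 1) / 2 : ℕ)))) * T (-(L i : ℤ)) := by
      rw [← T_add]
      congr 1
      push_cast
      ring
    rw [hsub, hA, hB, hG, hG', hE, show k + 1 + 1 - (l + 1) / 2 = N + 2 by omega]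
    linear_combination T (-((L i : ℤ) * ((k : ℤ) + 1 - ((l + 1 + 1) / 2 : ℕ)))) *
      q_rel2 hl N
  have keyB : D.t.repr (D.c (cs.simple i) * e - eta (L i - L j) • g - g')
      (al cs i j (2 * k + 2)) = T (-(L i : ℤ)) := by
    rw [hsub, hgz _ (by omega) (by omega), hgz' _ (by omega) (by omega) (by omega),
      show 2 * k + 2 = 2 * k + 1 + 1 from rfl, hdown (2 * k + 1) (by omega),
      he2 (2 * k + 1) (by omega), he5 (2 * k + 1 + 1) (by omega) (by omega), mul_zero, mul_zero,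
      add_zero, sub_zero, sub_zero]
    congr 1
    rw [hS, sl_eq, show (2 * k + 1 + 1) / 2 = k + 1 by omega, show (2 * k + 1) / 2 = k by omega]
    push_cast
    ring
  have keyC : D.t.repr (D.c (cs.simple i) * e - eta (L i - L j) • g - g')
      (al cs i j (2 * k + 3)) = 1 := by
    rw [hsub, hgz _ (by omega) (by omega), hgz' _ (by omega) (by omega) (by omega),
      show 2 * k + 3 = 2 * k + 2 + 1 from rfl, hdown (2 * k + 2) (by omega),
      he2 (2 * k + 2) (by omega), he5 (2 * k + 2 + 1) (by omega) (by omega), mul_zero, mul_zero,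
      add_zero, sub_zero, sub_zero, sub_self, T_zero]
  have keyD : ∀ l, 2 * k + 3 < l → l ≤ 2 * n →
      D.t.repr (D.c (cs.simple i) * e - eta (L i - L j) • g - g') (al cs i j l) = 0 := by
    intro l h1 h2
    obtain ⟨m, rfl⟩ : ∃ m, l = m + 1 := ⟨l - 1, by omega⟩
    have h3 : D.t.repr e (al cs i j (m + 1)) = 0 := by
      rcases Nat.lt_or_ge (m + 1) (2 * n) with h4 | h4
      · exact he5 (m + 1) (by omega) (by omega)
      · have h5 : m + 1 = 2 * n := by omega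
        rw [h5, htop]
        exact he3 (2 * n) (by omega) (by omega)
    rw [hsub, hgz _ (by omega) h2, hgz' _ (by omega) (by omega) h2, hdown m h2,
      he3 m (by omega) (by omega), h3, mul_zero, mul_zero, add_zero, sub_zero, sub_zero]
  have key : ∀ l, l + 1 ≤ 2 * k + 3 →
      D.t.repr (D.c (cs.simple i) * e - eta (L i - L j) • g - g') (al cs i j (l + 1)) =
      T (-((L i : ℤ) * (((k + 1 : ℕ) : ℤ) + 1 - ((l + 1 + 1) / 2 : ℕ)))) *
        Q (L j) (k + 1 + 1 - (l + 1) / 2) := by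
    intro l h1
    have hq : Q (L j) 1 = 1 := rfl
    rcases Nat.lt_trichotomy l (2 * k + 1) with h2 | h2 | h2
    · exact keyA l (by omega)
    · subst h2
      rw [show 2 * k + 1 + 1 = 2 * k + 2 from rfl, keyB,
        show k + 1 + 1 - (2 * k + 2) / 2 = 1 by omega, hq, mul_one,
        show (2 * k + 2 + 1) / 2 = k + 1 by omega]
      congr 1
      push_cast
      ring
    · have h3 : l = 2 * k + 2 := by omega
      subst h3
      rw [show 2 * k + 2 + 1 = 2 * k + 3 from rfl, keyC,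
        show k + 1 + 1 - (2 * k + 3) / 2 = 1 by omega, hq, mul_one,
        show (2 * k + 3 + 1) / 2 = k + 2 by omega]
      push_cast
      rw [show (k : ℤ) + 1 + 1 - (k + 2) = 0 by ring, mul_zero, neg_zero, T_zero]
  have key' : ∀ l, l ≤ 2 * k + 2 →
      D.t.repr (D.c (cs.simple i) * e - eta (L i - L j) • g - g') (al cs j i l) =
      T (-((L i : ℤ) * (((k + 1 : ℕ) : ℤ) + 1 - (l / 2 : ℕ)))) *
        Q (L j) (k + 1 + 1 - (l + 1) / 2) := by
    intro l h1
    rw [hup l (by omega), key l (by omega), ← mul_assoc, ← T_add,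
      show (l + 1 + 1) / 2 = l / 2 + 1 by omega]
    congr 2
    push_cast
    ring
  refine ⟨hp_sub D.toHecke (hp_sub D.toHecke (hp_mul D.toHecke (hp_c D (D03b_wp i j)) he1)
    (hp_smul D.toHecke _ hg.1)) ?_, ?_, ?_, ?_⟩
  · rcases hg' with ⟨-, h2⟩ | ⟨-, h2⟩
    · rw [h2]
      exact hp_zero D.toHecke _
    · exact h2.1
  · intro l h1
    rcases l with - | l
    · rw [al_zero, ← al_zero cs j i, key' 0 (by omega)]
    · exact key l (by omega)
  · intro l h1
    rcases Nat.lt_or_ge (2 * k + 2) l with h2 | h2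
    · have h3 : l = 2 * k + 3 := by omega
      subst h3
      have h4 : Q (L j) 0 = 0 := rfl
      rw [hup (2 * k + 3) (by omega), keyD (2 * k + 3 + 1) (by omega) (by omega), mul_zero,
        show k + 1 + 1 - (2 * k + 3 + 1) / 2 = 0 by omega, h4, mul_zero]
    · exact key' l h2
  · intro l h1 h2
    refine ⟨keyD l (by omega) (by omega), ?_⟩
    rcases Nat.lt_or_ge l (2 * n) with h3 | h3
    · rw [hup l h3, keyD (l + 1) (by omega) (by omega), mul_zero]
    · have h4 : l = 2 * n := by omega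
      rw [h4, ← htop]
      exact keyD (2 * n) (by omega) le_rfl

end Pool.Agent.Lib.KLT
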