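import Pool.Agent.Lib.MP_754fa1_al.T.D03

/-!
# D04. Unequal parameters: the other elements

`M i j = 2 n`, `n ≥ 2`, `a = L i > b = L j`.

`ue_rj` : `C(al i j (2k+1)) C_j = C(al i j (2k+2))`: apply `ue_j` to `D.opp` (`D.opp.c x = op (D.c x⁻¹)`, `OP.lean`): inverses by `al_inv_odd`,
`al_inv_even`. `ue_ri_zero`, `ue_ri` similarly from `ue_i_zero`, `ue_i` (not needed for `2 k + 4 = 2n`).

`ue_jj`: `2 k + 3 ≤ 2 n`: `C(al j i (2k+2)) C_j = C(al j i (2k+3))`: by `c_cs_up` (D01): `j` is not a right descent of `al j i (2k+2)`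
(`rd_al_iff`, `2k+2 < 2n`). Degree condition: `z` with right descent `j`: outside `W_{ij}` the coordinate is `0`; by `ue_pe`:
`z = al j i l`, `l ≤ 2 k + 2`, right descent `j`, so `l` odd (or `l = 2 n`, excluded by `2k+2 < 2n`), `l ≤ 2 k + 1`:
`sl L j i l - sl L j i (2k+2) ≤ - a ≤ - b - 1`. `z = al i j l`, `l ≤ 2 k + 1`, right descent `j`, so `l` is even, `l ≤ 2k`:
`sl L i j l ≤ k (a + b)`, difference `≤ - a - b`.
`ue_jj'`: `C_j C(al i j (2k+2)) = C(al j i (2k+3))`: `ue_jj` for `D.opp`.

`ue_top_l`, `ue_top_r`: `C_i`, `C_j` act on `C(w₀)` by `η` (`cs_mul_c`, `pair_top_rd`) - for both sides, any parameters.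

`ue_mid`: `δ = al i j (2n - 1)`: `C_j C_δ = C(w₀) = C_δ C_j` (`ue_j`, `ue_rj` with `k = n - 1`, `al_top`), `C_i C_δ = η_a C_δ = C_δ C_i`.
-/

open LaurentPolynomial
open Pool.Agent.Lib.MP_754fa1_al

namespace Pool.Agent.Lib.KLT

universe u v w

variable {B : Type u} {W : Type v} [Group W] {M : CoxeterMatrix B}
variable {cs : CoxeterSystem M W} {L : B → ℕ} {H : Type w} [Ring H] [Algebra Lau H]
variable (D : KL cs L H)

theorem ue_rj (hL : ∀ i, 0 < L i) {i j : B} {n : ℕ} (h3 : 3 ≤ M i j) (hn : M i j = 2 * n)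
    (hl : L j < L i) {k : ℕ} (hk : k < n) :
    D.c (al cs i j (2 * k + 1)) * D.c (cs.simple j) = D.c (al cs i j (2 * k + 2)) := by
  have h := ue_j D.opp hL h3 hn hl hk
  rw [KL.opp_c, KL.opp_c, KL.opp_c, cs.inv_simple, al_inv_odd, ← MulOpposite.op_mul] at h
  have e : (al cs j i (2 * k + 2))⁻¹ = al cs i j (2 * k + 2) := al_inv_even cs j i (k + 1)
  rw [e] at h
  exact MulOpposite.op_injective h

private theorem D04_lst_e (i j : B) {l : ℕ} (h : Even l) : lst i j l = j := if_pos h

private theorem D04_lst_o (i j : B) {l : ℕ} (h : ¬ Even l) : lst i j l = i := if_neg h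

/-- the right descent `j` of `al i j l`, `l < m`: `l` is even and positive -/
private theorem D04_rd (cs : CoxeterSystem M W) {i j : B} (hij : i ≠ j) {l : ℕ}
    (hl : l < M i j) (h : cs.IsRightDescent (al cs i j l) j) : Even l ∧ 0 < l := by
  rcases Nat.eq_zero_or_pos l with h0 | h0
  · subst h0
    exact absurd h (cs.not_isRightDescent_one j)
  · refine ⟨?_, h0⟩
    by_contra he
    have h1 := (rd_al_iff cs hij h0 (Or.inl hl.le)).1 (by rw [D04_lst_o j i he]; exact h)
    omega

/-- the right descent `j` of `al j i l`, `l < m`: `l` is odd -/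
private theorem D04_rd' (cs : CoxeterSystem M W) {i j : B} (hij : i ≠ j) {l : ℕ}
    (hl : l < M j i) (h : cs.IsRightDescent (al cs j i l) j) : ¬ Even l := by
  rcases Nat.eq_zero_or_pos l with h0 | h0
  · subst h0
    exact absurd h (cs.not_isRightDescent_one j)
  · intro he
    have h1 := (rd_al_iff cs hij.symm h0 (Or.inl hl.le)).1 (by rw [D04_lst_e i j he]; exact h)
    omega

theorem ue_jj (hL : ∀ i, 0 < L i) {i j : B} {n : ℕ} (h3 : 3 ≤ M i j) (hn : M i j = 2 * n)
    (hl : L j < L i) {k : ℕ} (hk : k + 1 < n) :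
    D.c (al cs j i (2 * k + 2)) * D.c (cs.simple j) = D.c (al cs j i (2 * k + 3)) := by
  have hij : i ≠ j := ne_of_three h3
  have hsy : M j i = M i j := (M.symmetric i j).symm
  have he : Even (2 * k + 3) ↔ False := by
    simp only [iff_false, Nat.not_even_iff_odd]
    exact ⟨k + 1, by ring⟩
  have e1 : al cs j i (2 * k + 3) = al cs j i (2 * k + 2) * cs.simple j := by
    rw [al_snoc cs j i (2 * k + 2), D04_lst_o j i (fun h => he.1 h)]
  rw [e1]
  have hev : Even (2 * k + 2) := ⟨k + 1, by ring⟩
  obtain ⟨p1, p2, p3, p4, p5⟩ := ue_pe D hL h3 hn hl (k := k) (by omega)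
  apply c_cs_up D hL
  · intro hd
    have h1 := (rd_al_iff cs hij.symm (k := 2 * k + 2) (by omega) (Or.inl (by omega))).1
      (by rw [D04_lst_e i j hev]; exact hd)
    omega
  · intro z hz
    by_cases hw : z ∈ WP cs {i, j}
    · obtain ⟨l, hlm, hzl⟩ := (wp_pair cs hij).1 hw
      have hlm' : l ≤ M i j := by
        rcases hlm with h | h
        · exact h
        · omega
      have hmain : ∀ l, l ≤ M i j → z = al cs j i l →
          DegLe (-(L j : ℤ) - 1) (D.t.repr (D.c (al cs j i (2 * k + 2))) z) := by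
        intro l hlm h
        subst h
        by_cases h2 : 2 * k + 2 < l
        · rw [p3 l h2 hlm]
          exact DegLe.zero
        · have h4 := D04_rd' cs hij (l := l) (by omega) hz
          have h5 : l ≠ 2 * k + 2 := by
            rintro rfl
            exact h4 hev
          rw [p2 l (by omega)]
          apply DegLe.T
          have h6 : sl L j i l ≤ sl L j i (2 * k + 1) := by
            rcases Nat.eq_or_lt_of_le (show l ≤ 2 * k + 1 by omega) with h | h
            · rw [h]
            · exact (sl_lt hL j i h).le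
          have h7 : sl L j i (2 * k + 1) = (k + 1) * L j + k * L i := sl_odd L j i k
          have h8 : sl L j i (2 * k + 2) = (k + 1) * (L j + L i) := sl_even L j i (k + 1)
          rw [h7] at h6
          rw [h8]
          have h9 : (k + 1) * (L j + L i) = ((k + 1) * L j + k * L i) + L i := by ring
          rw [h9]
          push_cast
          zify at h6 hl
          linarith
      rcases hzl with h | h
      · by_cases h2 : l = M i j
        · exact hmain l hlm' (by rw [h, h2]; exact (al_top cs i j (by omega)))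
        · by_cases h3' : 2 * k + 1 < l
          · rw [h, p5 l h3' (by omega)]
            exact DegLe.zero
          · rw [h] at hz
            obtain ⟨⟨p, hp⟩, h0⟩ := D04_rd cs hij (l := l) (by omega) hz
            rw [h, p4 l (by omega)]
            apply DegLe.T
            have h7 : sl L i j l = p * (L i + L j) := by
              rw [hp, ← two_mul]
              exact sl_even L i j p
            have h8 : sl L j i (2 * k + 2) = (k + 1) * (L j + L i) := sl_even L j i (k + 1)
            rw [h7, h8]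
            have h9 : p * (L i + L j) ≤ k * (L i + L j) := Nat.mul_le_mul_right _ (by omega)
            have h10 : (k + 1) * (L j + L i) = k * (L i + L j) + (L i + L j) := by ring
            rw [h10]
            have h11 := hL i
            generalize p * (L i + L j) = X at *
            generalize k * (L i + L j) = Y at *
            push_cast
            omega
      · exact hmain l hlm' h
    · rw [p1 z hw]
      exact DegLe.zero

theorem ue_jj' (hL : ∀ i, 0 < L i) {i j : B} {n : ℕ} (h3 : 3 ≤ M i j) (hn : M i j = 2 * n)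
    (hl : L j < L i) {k : ℕ} (hk : k + 1 < n) :
    D.c (cs.simple j) * D.c (al cs i j (2 * k + 2)) = D.c (al cs j i (2 * k + 3)) := by
  have h := ue_jj D.opp hL h3 hn hl hk
  rw [KL.opp_c, KL.opp_c, KL.opp_c, cs.inv_simple, ← MulOpposite.op_mul] at h
  have e : (al cs j i (2 * k + 2))⁻¹ = al cs i j (2 * k + 2) := al_inv_even cs j i (k + 1)
  have e' : (al cs j i (2 * k + 3))⁻¹ = al cs j i (2 * k + 3) := al_inv_odd cs j i (k + 1)
  rw [e, e'] at h
  exact MulOpposite.op_injective h

theorem c_mul_cs (hL : ∀ i, 0 < L i) {i : B} {x : W} (h : cs.IsRightDescent x i) :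
    D.c x * D.c (cs.simple i) = eta (L i) • D.c x := by
  have h1 := D.opp.cs_mul_c hL (i := i) (x := x⁻¹) (cs.isLeftDescent_inv_iff.2 h)
  rw [KL.opp_c, KL.opp_c, cs.inv_simple, inv_inv, ← MulOpposite.op_mul,
    ← MulOpposite.op_smul] at h1
  exact MulOpposite.op_injective h1

theorem ue_mid_j (hL : ∀ i, 0 < L i) {i j : B} {n : ℕ} (h3 : 3 ≤ M i j) (hn : M i j = 2 * n)
    (hl : L j < L i) :
    D.c (cs.simple j) * D.c (al cs i j (2 * n - 1)) = D.c (al cs i j (2 * n)) ∧
      D.c (al cs i j (2 * n - 1)) * D.c (cs.simple j) = D.c (al cs i j (2 * n)) := by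
  have e1 : 2 * n - 1 = 2 * (n - 1) + 1 := by omega
  have e2 : 2 * (n - 1) + 2 = 2 * n := by omega
  have h1 := ue_j D hL h3 hn hl (k := n - 1) (by omega)
  have h2 := ue_rj D hL h3 hn hl (k := n - 1) (by omega)
  rw [e2] at h1 h2
  rw [e1]
  refine ⟨?_, h2⟩
  rw [h1]
  have h3' := al_top cs i j (by omega)
  rw [hn] at h3'
  rw [h3']

private theorem D04_absorb (hL : ∀ i, 0 < L i) {J : Set B} {w : W}
    (hw : ∀ i ∈ J, cs.IsLeftDescent w i) {h : H} (hh : HP D.toHecke J h) :
    ∃ p : Lau, h * D.c w = p • D.c w := by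
  have key : ∀ ω : List B, cs.IsReduced ω → (∀ i ∈ ω, i ∈ J) →
      ∃ p : Lau, D.t (cs.wordProd ω) * D.c w = p • D.c w := by
    intro ω
    induction ω with
    | nil =>
      intro _ _
      exact ⟨1, by rw [cs.wordProd_nil, D.t_one, one_mul, one_smul]⟩
    | cons i ω ih =>
      intro hω hJ
      have h1 : cs.IsReduced ω := by
        have := CoxeterSystem.IsReduced.drop hω 1
        simpa using this
      have h2 : D.t (cs.wordProd (i :: ω)) = D.t (cs.simple i) * D.t (cs.wordProd ω) := by
        rw [cs.wordProd_cons]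
        symm
        apply D.t_mul
        have h2 : cs.length (cs.wordProd (i :: ω)) = (i :: ω).length := hω
        have h3 : cs.length (cs.wordProd ω) = ω.length := h1
        rw [cs.wordProd_cons] at h2
        rw [h2, h3, cs.length_simple, List.length_cons, add_comm]
      obtain ⟨p, hp⟩ := ih h1 fun j hj => hJ j (List.mem_cons_of_mem _ hj)
      refine ⟨p * T (L i : ℤ), ?_⟩
      rw [h2, mul_assoc, hp, mul_smul_comm, D.t_mul_c hL (hw i (hJ i List.mem_cons_self)),
        smul_smul]
  have h1 := (hp_iff_span D.toHecke).1 hh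
  induction h1 using Submodule.span_induction with
  | mem x hx =>
    obtain ⟨z, hz, rfl⟩ := hx
    obtain ⟨ω, h2, rfl, h3⟩ := (wp_word cs).1 hz
    exact key ω h2 h3
  | zero => exact ⟨0, by rw [zero_mul, zero_smul]⟩
  | add x y hx' hy' hx hy =>
    obtain ⟨p, hp⟩ := hx ((hp_iff_span D.toHecke).2 hx')
    obtain ⟨q, hq⟩ := hy ((hp_iff_span D.toHecke).2 hy')
    exact ⟨p + q, by rw [add_mul, hp, hq, add_smul]⟩
  | smul r x hx' hx =>
    obtain ⟨p, hp⟩ := hx ((hp_iff_span D.toHecke).2 hx')
    exact ⟨r * p, by rw [smul_mul_assoc, hp, smul_smul]⟩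

/-- an element with left factor in `W_{ij}` times `C(w₀)` is a multiple of `C(w₀)` -/
theorem top_absorb (hL : ∀ i, 0 < L i) {i j : B} (hij : i ≠ j) (hm : M i j ≠ 0) {h : H}
    (hh : HP D.toHecke {i, j} h) :
    (∃ p : Lau, h * D.c (al cs i j (M i j)) = p • D.c (al cs i j (M i j))) ∧
      ∃ p : Lau, D.c (al cs i j (M i j)) * h = p • D.c (al cs i j (M i j)) := by
  have hd : ∀ a ∈ ({i, j} : Set B), cs.IsLeftDescent (al cs i j (M i j)) a := by
    intro a ha
    rcases ha with rfl | ha
    · exact ld_al cs hij (by omega) (Or.inl le_rfl)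
    · rw [Set.mem_singleton_iff] at ha
      subst ha
      exact (ld_al_iff cs hij (by omega) (Or.inl le_rfl)).2 rfl
  refine ⟨D04_absorb D hL hd hh, ?_⟩
  have hh' : HP D.opp.toHecke {i, j} (MulOpposite.op h) := by
    intro z hz
    have h1 := KL.opp_repr D (MulOpposite.op h) z
    rw [MulOpposite.unop_op] at h1
    rw [h1]
    apply hh
    intro h2
    exact hz (by simpa using Subgroup.inv_mem _ h2)
  obtain ⟨p, hp⟩ := D04_absorb D.opp hL hd hh'
  refine ⟨p, ?_⟩
  rw [KL.opp_c, al_top_inv cs hm, ← MulOpposite.op_mul, ← MulOpposite.op_smul] at hp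
  exact MulOpposite.op_injective hp

end Pool.Agent.Lib.KLT
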