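import Pool.Agent.Lib.MP_754fa1_al.T.D04

/-!
# D05b. The coordinates at `1` and `s` in the unequal parameter case

`M i j = 2 n`, `n ≥ 2`, `a = L i > b = L j`; `p(z) = D.t.repr (D.c w) z`. Elements of `W_{ij}`:
* `w = 1`: `C_1 = 1`, `av = 0`: `p(1) = 1`, `p(s) = 0`. `w = s_j`: `C_j = T_j + v^{-b}`, `av = b`.
* `w = al i j (2k+1)`, `k < n`: `ue_pr` with `l = 0, 1`: `p(1) = v^{-a(k+1)} Q_{k+1}`, degree `≤ -a(k+1) + b k` (`q_deg`); `p(s_i) = v^{-a k} Q_{k+1}`,
  degree `≤ -(a-b) k`; `p(s_j) = v^{-a(k+1)} Q_k`, degree `≤ -a(k+1) + b(k-1)`. `av w = a` for `k < n - 1` (`av_other`), `av w = n a - (n-1) b` for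
  `k = n - 1` (`av_mid`). `i` is a right descent of `w`, so for `s = i` only the degree matters:
  `-(a-b)k ≤ 0`; `-(a-b)(n-1) = a - (n a - (n-1) b)`. For `s = j` the degree is `< b - av w`: `-a(k+1) + b(k-1) < b - a` for `k ≥ 1`
  (for `k = 0`, `Q_0 = 0`); `-a n + b (n-2) < b - n a + (n-1) b`.
* `w = al j i (2k+2)`, `k < n`: `ue_pe`, `S = (k+1)(a+b)` (`sl_eq`): `p(1) = v^{-S}`, `p(s_i) = v^{a-S}`, `p(s_j) = v^{b-S}`; `av w = a` if `k < n-1`, `S > a`, so
  strict inequalities; `k = n - 1`: `w = w₀`, `av w = S` (`av_full`, `al_top`), equalities, and `s` is a right descent (`pair_top_rd`).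
* `w = al i j (2k+2)`: the inverse of `al j i (2k+2)`; `p_{z,w} = p_{z⁻¹,w⁻¹}` (`repr_c_inv`: `D.opp`, uniqueness of the basis: `D.opp.c w = op (C_{w⁻¹})`
  is not what is needed; instead use `ue_rj`: `C_w = C(al i j (2k+1)) C_j` and `repr_mul_cs_down/up` at `1`, `s_i`, `s_j`:
  `p(s_j) = g(1) + v^b g(s_j)`, `p(1) = v^{-b} p(s_j)`, `p(s_i) = g(s_i s_j) + v^{-b} g(s_i) = v^{-b} (g(s_i) + v^b g(s_i s_j))` with `g = C(al i j (2k+1))`:
  `ue_pr`: `g(1) + v^b g(s_j) = v^{-a(k+1)} (Q_{k+1} + v^b Q_k) = v^{-a(k+1) - b k}`; `g(s_i) + v^b g(s_i s_j) = v^{-a k} (Q_{k+1} + v^b Q_k) = v^{-(a+b)k}`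
  (`q_rel`; `s_i s_j = al i j 2`; for `k = 0`: `g(s_i s_j) = 0`)), so `p(1) = v^{-S}`, `p(s_j) = v^{b-S}`, `p(s_i) = v^{a - S}`: the same bounds.
* `w = al j i (2k+3)`, `k + 1 < n`: `C_w = E C_j` with `E = C(al j i (2k+2))` (`ue_jj`), `E` by `ue_pe`: `p(s_j) = E(1) + v^b E(s_j) = v^{-S} + v^{2b-S}`,
  `p(1) = v^{-b} p(s_j)`, `p(s_i) = E(s_i s_j) + v^{-b} E(s_i)`, `E(s_i) = v^{a-S}`, `E(s_i s_j) = v^{a+b-S}` if `k ≥ 1`, `0` if `k = 0`. `av w = a`. `j` is a right descent
  of `w`; `2b - S ≤ b - a`; `b - S ≤ -a`; `a + b - S < 0` for `k ≥ 1`; `a - b - S < 0`.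
-/

open LaurentPolynomial
open Pool.Agent.Lib.MP_754fa1_al

namespace Pool.Agent.Lib.KLT

universe u v w

variable {B : Type u} {W : Type v} [Group W] {M : CoxeterMatrix B} [Finite B]
variable {cs : CoxeterSystem M W} {L : B → ℕ} {H : Type w} [Ring H] [Algebra Lau H]
variable (D : KL cs L H)

private theorem D05b_lt {N e : ℤ} {p : Lau} {P : Prop} (h : DegLe e p) (he : e < N) :
    DegLe N p ∧ (p.coeff N ≠ 0 → P) :=
  ⟨h.mono he.le, fun hc => absurd (h N he) hc⟩

private theorem D05b_le {N e : ℤ} {p : Lau} {P : Prop} (h : DegLe e p) (he : e ≤ N) (hP : P) :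
    DegLe N p ∧ (p.coeff N ≠ 0 → P) :=
  ⟨h.mono he, fun _ => hP⟩

private def D05b_B (D : KL cs L H) (i j : B) (w : W) : Prop :=
  DegLe (-(av cs L w : ℤ)) (D.t.repr (D.c w) 1) ∧
  (DegLe ((L i : ℤ) - av cs L w) (D.t.repr (D.c w) (cs.simple i)) ∧
    ((D.t.repr (D.c w) (cs.simple i)).coeff ((L i : ℤ) - av cs L w) ≠ 0 →
      cs.IsRightDescent w i)) ∧
  (DegLe ((L j : ℤ) - av cs L w) (D.t.repr (D.c w) (cs.simple j)) ∧
    ((D.t.repr (D.c w) (cs.simple j)).coeff ((L j : ℤ) - av cs L w) ≠ 0 →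
      cs.IsRightDescent w j))

omit [Finite B] in
private theorem D05b_rd (cs : CoxeterSystem M W) {i j : B} (hij : i ≠ j) (h3 : 3 ≤ M i j) :
    ¬ cs.IsRightDescent (cs.simple i) j := by
  intro h
  have h1 := (rd_al_iff cs hij (k := 1) Nat.one_pos (Or.inl (by omega))).1
  rw [al_one] at h1
  have h2 : lst j i 1 = j := if_neg (by decide)
  rw [h2] at h1
  have h4 := h1 h
  omega

omit [Finite B] in
private theorem D05b_rds (cs : CoxeterSystem M W) (i : B) :
    cs.IsRightDescent (cs.simple i) i := by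
  unfold CoxeterSystem.IsRightDescent
  rw [cs.simple_mul_simple_self, cs.length_one, cs.length_simple]
  exact Nat.one_pos

omit [Finite B] in
private theorem D05b_ne (cs : CoxeterSystem M W) {i j : B} (hij : i ≠ j) (h3 : 3 ≤ M i j) :
    cs.simple i ≠ cs.simple j := by
  intro h
  apply D05b_rd cs hij h3
  rw [h]
  exact D05b_rds cs j

private theorem D05b_one (hL : ∀ i, 0 < L i) (i j : B) : D05b_B D i j 1 := by
  have h1 : ∀ s : B, D.t.repr (D.c 1) (cs.simple s) = 0 := fun s => by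
    apply repr_c_len D
    · rw [cs.length_one]
      exact Nat.zero_le _
    · intro h
      have := congrArg cs.length h
      rw [cs.length_one, cs.length_simple] at this
      exact one_ne_zero this
  refine ⟨?_, ?_, ?_⟩
  · rw [av_one, repr_c_one D]
    exact DegLe.one
  · rw [h1]
    exact ⟨DegLe.zero, fun h => absurd rfl h⟩
  · rw [h1]
    exact ⟨DegLe.zero, fun h => absurd rfl h⟩

omit [Finite B] in
private theorem D05b_c1 (hL : ∀ i, 0 < L i) (j : B) :
    D.t.repr (D.c (cs.simple j)) 1 = T (-(L j : ℤ)) := by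
  classical
  rw [D.c_simple hL, ← D.toHecke.t_one, map_add, Finsupp.add_apply, map_smul, Finsupp.smul_apply,
    Module.Basis.repr_self, Module.Basis.repr_self, Finsupp.single_eq_same, smul_eq_mul, mul_one,
    Finsupp.single_apply, if_neg, zero_add]
  intro h
  have := congrArg cs.length h
  rw [cs.length_one, cs.length_simple] at this
  exact one_ne_zero this

private theorem D05b_sj (hL : ∀ i, 0 < L i) {i j : B} (hij : i ≠ j) (h3 : 3 ≤ M i j) :
    D05b_B D i j (cs.simple j) := by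
  have h1 : D.t.repr (D.c (cs.simple j)) (cs.simple i) = 0 := by
    apply repr_c_len D
    · rw [cs.length_simple, cs.length_simple]
    · exact D05b_ne cs hij h3
  refine ⟨?_, ?_, ?_⟩
  · rw [av_simple, D05b_c1 D hL]
    exact DegLe.T le_rfl
  · rw [h1]
    exact ⟨DegLe.zero, fun h => absurd rfl h⟩
  · rw [av_simple, repr_c_one D, sub_self]
    exact ⟨DegLe.one, fun _ => D05b_rds cs j⟩

private theorem D05b_A (hL : ∀ i, 0 < L i) (hE : OddEq M L) {i j : B} {n : ℕ} (h3 : 3 ≤ M i j)
    (hn : M i j = 2 * n) (hl : L j < L i) {k : ℕ} (hk : k < n) :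
    D05b_B D i j (al cs i j (2 * k + 1)) := by
  have hij : i ≠ j := ne_of_three h3
  have hl' : (L j : ℤ) < L i := by exact_mod_cast hl
  have hb : (0 : ℤ) < L j := by exact_mod_cast hL j
  obtain ⟨-, g1, g2, -⟩ := ue_pr D hL h3 hn hl hk
  have p1 : DegLe (-((L i : ℤ) * (k + 1)) + L j * k)
      (D.t.repr (D.c (al cs i j (2 * k + 1))) 1) := by
    have h1 := g1 0 (by omega)
    rw [al_zero] at h1
    rw [h1]
    refine ((DegLe.T le_rfl).mul (q_deg (L j) _)).mono (le_of_eq ?_)
    norm_num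
  have p2 : DegLe (-((L i : ℤ) * k) + L j * k)
      (D.t.repr (D.c (al cs i j (2 * k + 1))) (cs.simple i)) := by
    have h1 := g1 1 (by omega)
    rw [al_one] at h1
    rw [h1]
    refine ((DegLe.T le_rfl).mul (q_deg (L j) _)).mono (le_of_eq ?_)
    norm_num
  have p3 : D.t.repr (D.c (al cs i j (2 * k + 1))) (cs.simple j) =
      T (-((L i : ℤ) * ((k : ℤ) + 1))) * Q (L j) k := by
    have h1 := g2 1 (by omega)
    rw [al_one] at h1
    rw [h1]
    norm_num
  have hrd : cs.IsRightDescent (al cs i j (2 * k + 1)) i := by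
    have h1 := rd_al cs hij (k := 2 * k + 1) (by omega) (Or.inl (by omega))
    have h2 : lst i j (2 * k + 1) = i := if_neg (by
      rw [Nat.not_even_iff_odd]; exact ⟨k, rfl⟩)
    rwa [h2] at h1
  rcases Nat.lt_or_ge (k + 1) n with hkn | hkn
  · have hav : av cs L (al cs i j (2 * k + 1)) = L i := by
      rcases Nat.eq_zero_or_pos k with h0 | h0
      · subst h0
        have e1 : al cs i j (2 * 0 + 1) = cs.simple i := al_one cs i j
        rw [e1, av_simple]
      · apply av_other cs L hE h3 hl.le (al_mem cs i j _)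
        · rw [spt_al cs hij (by omega) (Or.inl (by omega))]
          exact Or.inl rfl
        · intro h
          have := congrArg cs.length h
          rw [len_al cs hij (Or.inl (by omega)), len_al cs hij (Or.inl le_rfl)] at this
          omega
        · left
          intro h
          have := congrArg cs.length h
          rw [len_al cs hij (Or.inl (by omega)), len_al cs hij (Or.inl (by omega))] at this
          omega
    refine ⟨?_, ?_, ?_⟩
    · rw [hav]
      apply p1.mono
      nlinarith [mul_nonneg (sub_nonneg.2 hl'.le) (Nat.cast_nonneg (α := ℤ) k)]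
    · rw [hav]
      apply D05b_le p2 _ hrd
      nlinarith [mul_nonneg (sub_nonneg.2 hl'.le) (Nat.cast_nonneg (α := ℤ) k)]
    · rw [hav, p3]
      rcases Nat.eq_zero_or_pos k with h0 | h0
      · subst h0
        have e1 : Q (L j) 0 = 0 := rfl
        rw [e1, mul_zero]
        exact ⟨DegLe.zero, fun h => absurd rfl h⟩
      · apply D05b_lt ((DegLe.T le_rfl).mul (q_deg (L j) k))
        nlinarith [mul_nonneg (sub_nonneg.2 hl'.le) (Nat.cast_nonneg (α := ℤ) k)]
  · have hkn' : k + 1 = n := by omega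
    have hav : (av cs L (al cs i j (2 * k + 1)) : ℤ) = (k + 1) * L i - k * L j := by
      have e1 : 2 * k + 1 = 2 * n - 1 := by omega
      rw [e1, av_mid cs L hE (by omega) hn hl]
      have e2 : (n - 1) * L j ≤ n * L i := Nat.mul_le_mul (by omega) hl.le
      rw [Nat.cast_sub e2]
      have e3 : n - 1 = k := by omega
      rw [e3, ← hkn']
      push_cast
      ring
    have hk1 : 1 ≤ k := by omega
    refine ⟨?_, ?_, ?_⟩
    · rw [hav]
      apply p1.mono
      nlinarith
    · rw [hav]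
      apply D05b_le p2 _ hrd
      nlinarith
    · rw [hav, p3]
      apply D05b_lt ((DegLe.T le_rfl).mul (q_deg (L j) k))
      nlinarith

private theorem D05b_avE (hE : OddEq M L) {i j : B} {n : ℕ} (h3 : 3 ≤ M i j)
    (hn : M i j = 2 * n) (hl : L j < L i) {l : ℕ} (h2 : 2 ≤ l) (h2n : l < 2 * n)
    (hodd : l ≠ 2 * n - 1) : av cs L (al cs i j l) = L i := by
  have hij : i ≠ j := ne_of_three h3
  apply av_other cs L hE h3 hl.le (al_mem cs i j _)
  · rw [spt_al cs hij (by omega) (Or.inl (by omega))]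
    exact Or.inl rfl
  · intro h
    have := congrArg cs.length h
    rw [len_al cs hij (Or.inl (by omega)), len_al cs hij (Or.inl le_rfl)] at this
    omega
  · left
    intro h
    have := congrArg cs.length h
    rw [len_al cs hij (Or.inl (by omega)), len_al cs hij (Or.inl (by omega))] at this
    omega

private theorem D05b_avF (hE : OddEq M L) {i j : B} {n : ℕ} (h3 : 3 ≤ M i j)
    (hn : M i j = 2 * n) (hl : L j < L i) {l : ℕ} (h2 : 2 ≤ l) (h2n : l < 2 * n) :
    av cs L (al cs j i l) = L i := by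
  have hij : i ≠ j := ne_of_three h3
  have hm : M j i = M i j := M.symmetric j i
  apply av_other cs L hE h3 hl.le
  · rw [Set.pair_comm]
    exact al_mem cs j i _
  · rw [spt_al cs hij.symm (by omega) (Or.inl (by omega))]
    exact Or.inr rfl
  · intro h
    have := congrArg cs.length h
    rw [len_al cs hij.symm (Or.inl (by omega)), len_al cs hij (Or.inl le_rfl)] at this
    omega
  · left
    exact (al_ne cs hij (by omega) (Or.inl (by omega)) (Or.inl (by omega))).symm

private theorem D05b_E (hL : ∀ i, 0 < L i) (hE : OddEq M L) {i j : B} {n : ℕ} (h3 : 3 ≤ M i j)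
    (hn : M i j = 2 * n) (hl : L j < L i) {k : ℕ} (hk : k < n) :
    D05b_B D i j (al cs j i (2 * k + 2)) := by
  have hij : i ≠ j := ne_of_three h3
  have hl' : (L j : ℤ) < L i := by exact_mod_cast hl
  have hb : (0 : ℤ) < L j := by exact_mod_cast hL j
  obtain ⟨-, g1, -, g2, -⟩ := ue_pe D hL h3 hn hl hk
  have hS : (sl L j i (2 * k + 2) : ℤ) = (k + 1) * (L i + L j) := by
    have e1 : 2 * k + 2 = 2 * (k + 1) := by ring
    rw [e1, sl_even]
    push_cast
    ring
  have p1 : D.t.repr (D.c (al cs j i (2 * k + 2))) 1 = T (-((k + 1) * ((L i : ℤ) + L j))) := by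
    have h1 := g1 0 (by omega)
    rw [al_zero, hS] at h1
    rw [h1]
    congr 1
    have e1 : sl L j i 0 = 0 := rfl
    rw [e1]
    push_cast
    ring
  have p2 : D.t.repr (D.c (al cs j i (2 * k + 2))) (cs.simple i) =
      T ((L i : ℤ) - (k + 1) * ((L i : ℤ) + L j)) := by
    have h1 := g2 1 (by omega)
    rw [al_one, hS] at h1
    rw [h1]
    rfl
  have p3 : D.t.repr (D.c (al cs j i (2 * k + 2))) (cs.simple j) =
      T ((L j : ℤ) - (k + 1) * ((L i : ℤ) + L j)) := by
    have h1 := g1 1 (by omega)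
    rw [al_one, hS] at h1
    rw [h1]
    rfl
  have hk0 : (0 : ℤ) ≤ k := Nat.cast_nonneg k
  rcases Nat.lt_or_ge (k + 1) n with hkn | hkn
  · have hav : av cs L (al cs j i (2 * k + 2)) = L i :=
      D05b_avF hE h3 hn hl (by omega) (by omega)
    refine ⟨?_, ?_, ?_⟩
    · rw [hav, p1]
      apply DegLe.T
      nlinarith
    · rw [hav, p2]
      apply D05b_lt (DegLe.T le_rfl)
      nlinarith
    · rw [hav, p3]
      apply D05b_lt (DegLe.T le_rfl)
      nlinarith
  · have hkn' : k + 1 = n := by omega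
    have e1 : 2 * k + 2 = M i j := by omega
    have e2 : al cs j i (2 * k + 2) = al cs i j (M i j) := by
      rw [e1, al_top cs i j (by omega)]
    obtain ⟨r1, r2, -, -⟩ := pair_top_rd cs hij (show M i j ≠ 0 by omega)
    have hav : (av cs L (al cs j i (2 * k + 2)) : ℤ) = (k + 1) * (L i + L j) := by
      rw [e2, av_full cs L hE h3, ← e1]
      have e3 : 2 * k + 2 = 2 * (k + 1) := by ring
      rw [e3, sl_even]
      push_cast
      ring
    refine ⟨?_, ?_, ?_⟩
    · rw [hav, p1]
      exact DegLe.T le_rfl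
    · rw [hav, p2]
      exact D05b_le (DegLe.T le_rfl) le_rfl (by rw [e2]; exact r1)
    · rw [hav, p3]
      exact D05b_le (DegLe.T le_rfl) le_rfl (by rw [e2]; exact r2)

omit [Finite B] in
private theorem D05b_two (cs : CoxeterSystem M W) (i j : B) :
    cs.simple i * cs.simple j = al cs i j 2 := by
  have e1 : al cs i j 2 = cs.simple i * (cs.simple j * 1) := rfl
  rw [e1, mul_one]

private theorem D05b_F (hL : ∀ i, 0 < L i) (hE : OddEq M L) {i j : B} {n : ℕ} (h3 : 3 ≤ M i j)
    (hn : M i j = 2 * n) (hl : L j < L i) {k : ℕ} (hk : k + 1 < n) :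
    D05b_B D i j (al cs i j (2 * k + 2)) := by
  have hij : i ≠ j := ne_of_three h3
  have hl' : (L j : ℤ) < L i := by exact_mod_cast hl
  have hb : (0 : ℤ) < L j := by exact_mod_cast hL j
  obtain ⟨-, g1, g2, g3⟩ := ue_pr D hL h3 hn hl (show k < n by omega)
  have hq := q_rel (L j) k
  have q1 : D.t.repr (D.c (al cs i j (2 * k + 1))) 1 =
      T (-((L i : ℤ) * ((k : ℤ) + 1))) * Q (L j) (k + 1) := by
    have h1 := g1 0 (by omega)
    rw [al_zero] at h1
    rw [h1]
    norm_num
  have q2 : D.t.repr (D.c (al cs i j (2 * k + 1))) (cs.simple i) =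
      T (-((L i : ℤ) * (k : ℤ))) * Q (L j) (k + 1) := by
    have h1 := g1 1 (by omega)
    rw [al_one] at h1
    rw [h1]
    norm_num
  have q3 : D.t.repr (D.c (al cs i j (2 * k + 1))) (cs.simple j) =
      T (-((L i : ℤ) * ((k : ℤ) + 1))) * Q (L j) k := by
    have h1 := g2 1 (by omega)
    rw [al_one] at h1
    rw [h1]
    norm_num
  have q4 : D.t.repr (D.c (al cs i j (2 * k + 1))) (al cs i j 2) =
      T (-((L i : ℤ) * (k : ℤ))) * Q (L j) k := by
    rcases Nat.eq_zero_or_pos k with h0 | h0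
    · subst h0
      rw [(g3 2 (by omega) (by omega)).1]
      have e1 : Q (L j) 0 = 0 := rfl
      rw [e1, mul_zero]
    · have h1 := g1 2 (by omega)
      rw [h1]
      norm_num
  have p3 : D.t.repr (D.c (al cs i j (2 * k + 2))) (cs.simple j) =
      T ((L j : ℤ) - (k + 1) * ((L i : ℤ) + L j)) := by
    rw [← ue_rj D hL h3 hn hl (show k < n by omega),
      repr_mul_cs_down D hL j _ (D05b_rds cs j), cs.simple_mul_simple_self, q1, q3]
    have e1 : (T (-((L i : ℤ) * ((k : ℤ) + 1))) * Q (L j) (k + 1) : Lau) +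
        T (L j : ℤ) * (T (-((L i : ℤ) * ((k : ℤ) + 1))) * Q (L j) k) =
        T (-((L i : ℤ) * ((k : ℤ) + 1))) * (Q (L j) (k + 1) + T (L j : ℤ) * Q (L j) k) := by
      ring
    rw [e1, hq, ← T_add]
    congr 1
    ring
  have p1 : D.t.repr (D.c (al cs i j (2 * k + 2))) 1 = T (-((k + 1) * ((L i : ℤ) + L j))) := by
    rw [← ue_rj D hL h3 hn hl (show k < n by omega),
      repr_mul_cs_up D hL j _ (cs.not_isRightDescent_one j), one_mul, q1, q3]
    have e0 : (T (-(L j : ℤ)) : Lau) * T (L j : ℤ) = 1 := by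
      rw [← T_add, neg_add_cancel, T_zero]
    have e1 : (T (-((L i : ℤ) * ((k : ℤ) + 1))) * Q (L j) k : Lau) +
        T (-(L j : ℤ)) * (T (-((L i : ℤ) * ((k : ℤ) + 1))) * Q (L j) (k + 1)) =
        T (-(L j : ℤ)) * T (-((L i : ℤ) * ((k : ℤ) + 1))) *
          (Q (L j) (k + 1) + T (L j : ℤ) * Q (L j) k) := by
      linear_combination (-(T (-((L i : ℤ) * ((k : ℤ) + 1))) * Q (L j) k : Lau)) * e0
    rw [e1, hq, ← T_add, ← T_add]
    congr 1
    ring
  have p2 : D.t.repr (D.c (al cs i j (2 * k + 2))) (cs.simple i) =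
      T ((L i : ℤ) - (k + 1) * ((L i : ℤ) + L j)) := by
    rw [← ue_rj D hL h3 hn hl (show k < n by omega),
      repr_mul_cs_up D hL j _ (D05b_rd cs hij h3), D05b_two, q2, q4]
    have e0 : (T (-(L j : ℤ)) : Lau) * T (L j : ℤ) = 1 := by
      rw [← T_add, neg_add_cancel, T_zero]
    have e1 : (T (-((L i : ℤ) * (k : ℤ))) * Q (L j) k : Lau) +
        T (-(L j : ℤ)) * (T (-((L i : ℤ) * (k : ℤ))) * Q (L j) (k + 1)) =
        T (-(L j : ℤ)) * T (-((L i : ℤ) * (k : ℤ))) *
          (Q (L j) (k + 1) + T (L j : ℤ) * Q (L j) k) := by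
      linear_combination (-(T (-((L i : ℤ) * (k : ℤ))) * Q (L j) k : Lau)) * e0
    rw [e1, hq, ← T_add, ← T_add]
    congr 1
    ring
  have hk0 : (0 : ℤ) ≤ k := Nat.cast_nonneg k
  have hav : av cs L (al cs i j (2 * k + 2)) = L i :=
    D05b_avE hE h3 hn hl (by omega) (by omega) (by omega)
  refine ⟨?_, ?_, ?_⟩
  · rw [hav, p1]
    apply DegLe.T
    nlinarith
  · rw [hav, p2]
    apply D05b_lt (DegLe.T le_rfl)
    nlinarith
  · rw [hav, p3]
    apply D05b_lt (DegLe.T le_rfl)
    nlinarith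

private theorem D05b_G (hL : ∀ i, 0 < L i) (hE : OddEq M L) {i j : B} {n : ℕ} (h3 : 3 ≤ M i j)
    (hn : M i j = 2 * n) (hl : L j < L i) {k : ℕ} (hk : k + 1 < n) :
    D05b_B D i j (al cs j i (2 * k + 3)) := by
  have hij : i ≠ j := ne_of_three h3
  have hm : M j i = M i j := M.symmetric j i
  have hl' : (L j : ℤ) < L i := by exact_mod_cast hl
  have hb : (0 : ℤ) < L j := by exact_mod_cast hL j
  have hk0 : (0 : ℤ) ≤ k := Nat.cast_nonneg k
  obtain ⟨-, g1, -, g2, g3⟩ := ue_pe D hL h3 hn hl (show k < n by omega)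
  have hS : (sl L j i (2 * k + 2) : ℤ) = (k + 1) * (L i + L j) := by
    have e1 : 2 * k + 2 = 2 * (k + 1) := by ring
    rw [e1, sl_even]
    push_cast
    ring
  have q1 : D.t.repr (D.c (al cs j i (2 * k + 2))) 1 = T (-((k + 1) * ((L i : ℤ) + L j))) := by
    have h1 := g1 0 (by omega)
    rw [al_zero, hS] at h1
    rw [h1]
    congr 1
    have e1 : sl L j i 0 = 0 := rfl
    rw [e1]
    push_cast
    ring
  have q2 : D.t.repr (D.c (al cs j i (2 * k + 2))) (cs.simple i) =
      T ((L i : ℤ) - (k + 1) * ((L i : ℤ) + L j)) := by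
    have h1 := g2 1 (by omega)
    rw [al_one, hS] at h1
    rw [h1]
    rfl
  have q3 : D.t.repr (D.c (al cs j i (2 * k + 2))) (cs.simple j) =
      T ((L j : ℤ) - (k + 1) * ((L i : ℤ) + L j)) := by
    have h1 := g1 1 (by omega)
    rw [al_one, hS] at h1
    rw [h1]
    rfl
  have q4 : DegLe (-1) (D.t.repr (D.c (al cs j i (2 * k + 2))) (al cs i j 2)) := by
    rcases Nat.eq_zero_or_pos k with h0 | h0
    · subst h0
      rw [g3 2 (by omega) (by omega)]
      exact DegLe.zero
    · rw [g2 2 (by omega), hS]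
      apply DegLe.T
      have e1 : sl L i j 2 = L i + (L j + 0) := rfl
      rw [e1]
      push_cast
      have h1 : (1 : ℤ) ≤ k := by exact_mod_cast h0
      nlinarith
  have hav : av cs L (al cs j i (2 * k + 3)) = L i :=
    D05b_avF hE h3 hn hl (by omega) (by omega)
  have hrd : cs.IsRightDescent (al cs j i (2 * k + 3)) j := by
    have h1 := rd_al cs hij.symm (k := 2 * k + 3) (by omega) (Or.inl (by omega))
    have h2 : lst j i (2 * k + 3) = j := if_neg (by
      rw [Nat.not_even_iff_odd]; exact ⟨k + 1, by ring⟩)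
    rwa [h2] at h1
  refine ⟨?_, ?_, ?_⟩
  · rw [hav, ← ue_jj D hL h3 hn hl hk,
      repr_mul_cs_up D hL j _ (cs.not_isRightDescent_one j), one_mul, q1, q3, ← T_add]
    apply DegLe.add
    · apply DegLe.T
      nlinarith
    · apply DegLe.T
      nlinarith
  · rw [hav, ← ue_jj D hL h3 hn hl hk,
      repr_mul_cs_up D hL j _ (D05b_rd cs hij h3), D05b_two, q2, ← T_add]
    apply D05b_lt (e := -1) _ (by omega)
    apply DegLe.add q4
    apply DegLe.T
    nlinarith
  · rw [hav]
    refine D05b_le (e := (L j : ℤ) - L i) ?_ le_rfl hrd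
    rw [← ue_jj D hL h3 hn hl hk, repr_mul_cs_down D hL j _ (D05b_rds cs j),
      cs.simple_mul_simple_self, q1, q3, ← T_add]
    apply DegLe.add
    · apply DegLe.T
      nlinarith
    · apply DegLe.T
      nlinarith

private theorem D05b_all (hL : ∀ i, 0 < L i) (hE : OddEq M L) {i j : B} (h3 : 3 ≤ M i j)
    (hl : L j < L i) {w : W} (hw : w ∈ WP cs {i, j}) : D05b_B D i j w := by
  have hij : i ≠ j := ne_of_three h3
  rcases Nat.even_or_odd' (M i j) with ⟨n, hn | hn⟩
  · obtain ⟨l, hl1, hwl⟩ := (wp_pair cs hij).1 hw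
    have hl2 : l ≤ 2 * n := by
      rcases hl1 with h | h
      · omega
      · omega
    have hE' : ∀ l, l ≤ 2 * n → D05b_B D i j (al cs j i l) := by
      intro l hl2
      rcases Nat.even_or_odd' l with ⟨k, hk | hk⟩
      · rcases Nat.eq_zero_or_pos k with h0 | h0
        · have e1 : l = 0 := by omega
          rw [e1, al_zero]
          exact D05b_one D hL i j
        · have e1 : l = 2 * (k - 1) + 2 := by omega
          rw [e1]
          exact D05b_E D hL hE h3 hn hl (by omega)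
      · rcases Nat.eq_zero_or_pos k with h0 | h0
        · have e1 : l = 1 := by omega
          rw [e1, al_one]
          exact D05b_sj D hL hij h3
        · have e1 : l = 2 * (k - 1) + 3 := by omega
          rw [e1]
          exact D05b_G D hL hE h3 hn hl (by omega)
    rcases hwl with h | h
    · rw [h]
      rcases Nat.even_or_odd' l with ⟨k, hk | hk⟩
      · rcases Nat.eq_zero_or_pos k with h0 | h0
        · have e1 : l = 0 := by omega
          rw [e1, al_zero]
          exact D05b_one D hL i j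
        · rcases Nat.lt_or_ge k n with hkn | hkn
          · have e1 : l = 2 * (k - 1) + 2 := by omega
            rw [e1]
            exact D05b_F D hL hE h3 hn hl (by omega)
          · have e1 : l = M i j := by omega
            rw [e1, al_top cs i j (by omega), hn]
            exact hE' _ le_rfl
      · rw [hk]
        exact D05b_A D hL hE h3 hn hl (by omega)
    · rw [h]
      exact hE' l hl2
  · exact absurd (hE i j ⟨n, hn⟩) hl.ne'

theorem o2_one_lt (hL : ∀ i, 0 < L i) (hE : OddEq M L) {i j : B} (h3 : 3 ≤ M i j)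
    (hl : L j < L i) {w : W} (hw : w ∈ WP cs {i, j}) :
    DegLe (-(av cs L w : ℤ)) (D.t.repr (D.c w) 1) :=
  (D05b_all D hL hE h3 hl hw).1

theorem o2_s_lt (hL : ∀ i, 0 < L i) (hE : OddEq M L) {i j : B} (h3 : 3 ≤ M i j)
    (hl : L j < L i) {w : W} (hw : w ∈ WP cs {i, j}) {s : B} (hs : s = i ∨ s = j) :
    DegLe ((L s : ℤ) - av cs L w) (D.t.repr (D.c w) (cs.simple s)) ∧
      ((D.t.repr (D.c w) (cs.simple s)).coeff ((L s : ℤ) - av cs L w) ≠ 0 →
        cs.IsRightDescent w s) := by
  rcases hs with rfl | rfl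
  · exact (D05b_all D hL hE h3 hl hw).2.1
  · exact (D05b_all D hL hE h3 hl hw).2.2

end Pool.Agent.Lib.KLT
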