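import Pool.Agent.Lib.MP_754fa1_al.T.D05a
import Pool.Agent.Lib.MP_754fa1_al.T.D05b

/-!
# D05. The coordinates at `1` and `s`

Trichotomy `L i = L j`, `L j < L i`, `L i < L j`; in the last case apply `o2_one_lt`, `o2_s_lt` with `i`, `j` exchanged (`M.symmetric`,
`Set.pair_comm`).
`o2_rank1`: `w ∈ WP {i}`: `w = 1` or `s_i` (`wp_single`), `D.c_simple`, `C_1 = 1` (`D.c_eq 1`: `bar 1 = 1`, or `c_one` below).
-/

open LaurentPolynomial
open Pool.Agent.Lib.MP_754fa1_al

namespace Pool.Agent.Lib.KLT

universe u v w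

variable {B : Type u} {W : Type v} [Group W] {M : CoxeterMatrix B} [Finite B]
variable {cs : CoxeterSystem M W} {L : B → ℕ} {H : Type w} [Ring H] [Algebra Lau H]
variable (D : KL cs L H)

omit [Finite B] in
theorem c_one : D.c 1 = 1 := by
  symm
  apply D.c_eq
  · exact map_one _
  · rw [D.t_one, sub_self]
    exact D.lat_zero _

omit [Finite B] in
private theorem D05_one_one : D.t.repr (1 : H) 1 = 1 := by
  rw [← D.t_one, Module.Basis.repr_self, Finsupp.single_eq_same]

omit [Finite B] in
private theorem D05_one_s (i : B) : D.t.repr (1 : H) (cs.simple i) = 0 := by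
  classical
  rw [← D.t_one, Module.Basis.repr_self, Finsupp.single_apply, if_neg]
  intro h
  have h1 := congrArg cs.length h
  rw [cs.length_one, cs.length_simple] at h1
  omega

omit [Finite B] in
private theorem D05_s_one (hL : ∀ i, 0 < L i) (i : B) :
    D.t.repr (D.c (cs.simple i)) 1 = T (-(L i : ℤ)) := by
  classical
  rw [D.c_simple hL, map_add, map_smul, Finsupp.add_apply, Finsupp.smul_apply, D05_one_one,
    Module.Basis.repr_self, Finsupp.single_apply, if_neg, zero_add, smul_eq_mul, mul_one]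
  intro h
  have h1 := congrArg cs.length h
  rw [cs.length_one, cs.length_simple] at h1
  omega

omit [Finite B] in
private theorem D05_s_s (hL : ∀ i, 0 < L i) (i : B) :
    D.t.repr (D.c (cs.simple i)) (cs.simple i) = 1 := by
  rw [D.c_simple hL, map_add, map_smul, Finsupp.add_apply, Finsupp.smul_apply, D05_one_s,
    Module.Basis.repr_self, Finsupp.single_eq_same, smul_zero, add_zero]

theorem o2_one (hL : ∀ i, 0 < L i) (hE : OddEq M L) {J : Set B} (hJ : Dih M J) {w : W}
    (hw : w ∈ WP cs J) : DegLe (-(av cs L w : ℤ)) (D.t.repr (D.c w) 1) := by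
  rcases hJ with ⟨c, rfl⟩ | ⟨i, j, h3, rfl⟩
  · rcases (wp_single cs).1 hw with rfl | rfl
    · rw [c_one, D05_one_one, av_one]
      exact DegLe.one
    · rw [D05_s_one D hL, av_simple]
      exact DegLe.T le_rfl
  · rcases lt_trichotomy (L i) (L j) with h | h | h
    · exact o2_one_lt D hL hE (i := j) (j := i) (by rw [M.symmetric]; exact h3) h
        (by rw [Set.pair_comm]; exact hw)
    · exact o2_one_eq D hL hE h3 h hw
    · exact o2_one_lt D hL hE h3 h hw

theorem o2_s (hL : ∀ i, 0 < L i) (hE : OddEq M L) {J : Set B} (hJ : Dih M J) {w : W}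
    (hw : w ∈ WP cs J) {s : B} (hs : s ∈ J) :
    DegLe ((L s : ℤ) - av cs L w) (D.t.repr (D.c w) (cs.simple s)) ∧
      ((D.t.repr (D.c w) (cs.simple s)).coeff ((L s : ℤ) - av cs L w) ≠ 0 →
        cs.IsRightDescent w s) := by
  rcases hJ with ⟨c, rfl⟩ | ⟨i, j, h3, rfl⟩
  · rw [Set.mem_singleton_iff] at hs
    subst hs
    rcases (wp_single cs).1 hw with rfl | rfl
    · rw [c_one, D05_one_s]
      exact ⟨DegLe.zero, fun h => absurd rfl h⟩
    · rw [D05_s_s D hL, av_simple, sub_self]
      refine ⟨DegLe.one, fun _ => ?_⟩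
      show cs.length (cs.simple s * cs.simple s) < cs.length (cs.simple s)
      rw [cs.simple_mul_simple_self, cs.length_one, cs.length_simple]
      exact one_pos
  · have hs' : s = i ∨ s = j := hs
    rcases lt_trichotomy (L i) (L j) with h | h | h
    · exact o2_s_lt D hL hE (i := j) (j := i) (by rw [M.symmetric]; exact h3) h
        (by rw [Set.pair_comm]; exact hw) hs'.symm
    · exact o2_s_eq D hL hE h3 h hw hs'
    · exact o2_s_lt D hL hE h3 h hw hs'

end Pool.Agent.Lib.KLT
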