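import Pool.Agent.Lib.MP_754fa1_al.T.D02

/-!
# D05a. The coordinates at `1` and `s` in the equal parameter case

`3 ≤ M i j = m`, `L i = L j = a`. `wp_pair`: `w = al i j k` or `al j i k`, `k ≤ m`; `eq_coord` (for both orders of `i, j`).
The coordinate at `1` is `v^{-a k}`; `av w` is `0` for `k = 0` (`av_one`), `a` for `0 < k < m` (`av_other`; if `i ∉ spt w` then `w = s_j`,
`av_simple`), `a m = sl L i j m` for `k = m` (`av_full`; `sl L i j m = a m` by induction when `L i = L j`).
The coordinate at `s` (`s ∈ {i, j}`): `k = 0`: `0`. `k = 1`: `1` if `w = s` (`s` is a right descent, degree `0 = L s - av w`), `0` otherwise. `2 ≤ k < m`: `v^{a(1-k)}`,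
`a (1 - k) < 0 = L s - av w`. `k = m`: `v^{a - a m}`, `L s - av w = a - a m`, and `s` is a right descent (`pair_top_rd`).
-/

open LaurentPolynomial
open Pool.Agent.Lib.MP_754fa1_al

namespace Pool.Agent.Lib.KLT

universe u v w

variable {B : Type u} {W : Type v} [Group W] {M : CoxeterMatrix B} [Finite B]
variable {cs : CoxeterSystem M W} {L : B → ℕ} {H : Type w} [Ring H] [Algebra Lau H]
variable (D : KL cs L H)

omit [Finite B] in
theorem sl_const {L : B → ℕ} {i j : B} (he : L i = L j) (k : ℕ) : sl L i j k = k * L i := by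
  have key : ∀ (k : ℕ) (i j : B), L i = L j → sl L i j k = k * L i := by
    intro k
    induction k with
    | zero =>
      intro i j _
      rw [zero_mul]
      rfl
    | succ k ih =>
      intro i j h
      have h1 : sl L i j (k + 1) = L i + sl L j i k := rfl
      rw [h1, ih j i h.symm, h]
      ring
  exact key k i j he

omit [Finite B] in
private theorem D05a_ne {i j : B} (h3 : 3 ≤ M i j) : i ≠ j := by
  rintro rfl
  rw [M.diagonal] at h3
  omega

private theorem D05a_av (hE : OddEq M L) {i j : B} (h3 : 3 ≤ M i j) (he : L i = L j) {w : W}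
    (hw : w ∈ WP cs {i, j}) (h1 : w ≠ 1) (h0 : w ≠ al cs i j (M i j)) : av cs L w = L i := by
  have hij := D05a_ne h3
  have hji : M j i = M i j := M.symmetric j i
  have h2 : spt cs w ≠ ∅ := fun h => h1 (spt_empty cs h)
  obtain ⟨c, hc⟩ := Set.nonempty_iff_ne_empty.2 h2
  have h4 : spt cs w ⊆ {i, j} := (wp_iff_spt cs).1 hw
  rcases h4 hc with h5 | h5
  · rw [h5] at hc
    exact av_other cs L hE h3 he.symm.le hw hc h0 (Or.inr he)
  · rw [Set.mem_singleton_iff.1 h5] at hc
    rw [he]
    refine av_other cs L hE (i := j) (j := i) (by omega) he.le (by rw [Set.pair_comm]; exact hw)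
      hc ?_ (Or.inr he.symm)
    rw [hji, ← al_top cs i j (by omega)]
    exact h0

private theorem D05a_avk (cs : CoxeterSystem M W) (hE : OddEq M L) {i j : B} (h3 : 3 ≤ M i j)
    (he : L i = L j) {k : ℕ} (hk : k ≤ M i j) :
    (k = 0 → av cs L (al cs i j k) = 0) ∧
    (0 < k → k < M i j → av cs L (al cs i j k) = L i) ∧
    (k = M i j → av cs L (al cs i j k) = k * L i) := by
  have hij := D05a_ne h3
  have hlen : ∀ l, l ≤ M i j → cs.length (al cs i j l) = l := fun l hl => len_al cs hij (Or.inl hl)
  refine ⟨?_, ?_, ?_⟩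
  · rintro rfl
    rw [al_zero]
    exact av_one cs L
  · intro h1 h2
    refine D05a_av hE h3 he (al_mem cs i j k) ?_ ?_
    · intro h
      have h4 := hlen k hk
      rw [h, cs.length_one] at h4
      omega
    · intro h
      have h4 := hlen k hk
      rw [h, hlen _ le_rfl] at h4
      omega
  · rintro rfl
    rw [av_full cs L hE h3, sl_const he]

private theorem D05a_one (hL : ∀ i, 0 < L i) (hE : OddEq M L) {i j : B} (h3 : 3 ≤ M i j)
    (he : L i = L j) {k : ℕ} (hk : k ≤ M i j) :
    DegLe (-(av cs L (al cs i j k) : ℤ)) (D.t.repr (D.c (al cs i j k)) 1) := by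
  have h1 := (eq_coord D hL h3 he hk (z := 1) (one_mem _)).1 (by
    rcases Nat.eq_zero_or_pos k with h | h
    · right
      rw [h, al_zero]
    · left
      rw [cs.length_one]
      exact h)
  rw [h1, cs.length_one]
  apply DegLe.T
  obtain ⟨a0, a1, a2⟩ := D05a_avk cs hE h3 he hk
  rcases Nat.eq_zero_or_pos k with h | h
  · rw [a0 h, h]
    push_cast
    simp
  · rcases Nat.lt_or_ge k (M i j) with h4 | h4
    · rw [a1 h h4]
      have h5 : (1 : ℤ) ≤ k := by exact_mod_cast h
      have h6 : (0 : ℤ) ≤ L i := by positivity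
      push_cast
      nlinarith
    · rw [a2 (by omega)]
      push_cast
      linarith

private theorem D05a_s (hL : ∀ i, 0 < L i) (hE : OddEq M L) {i j : B} (h3 : 3 ≤ M i j)
    (he : L i = L j) {k : ℕ} (hk : k ≤ M i j) {s : B} (hs : s = i ∨ s = j) :
    DegLe ((L s : ℤ) - av cs L (al cs i j k)) (D.t.repr (D.c (al cs i j k)) (cs.simple s)) ∧
      ((D.t.repr (D.c (al cs i j k)) (cs.simple s)).coeff
        ((L s : ℤ) - av cs L (al cs i j k)) ≠ 0 → cs.IsRightDescent (al cs i j k) s) := by
  have hij := D05a_ne h3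
  have hsJ : cs.simple s ∈ WP cs {i, j} := by
    rw [simple_mem_wp]
    exact hs
  have hLs : L s = L i := by
    rcases hs with h | h
    · rw [h]
    · rw [h, he]
  obtain ⟨c1, c2⟩ := eq_coord D hL h3 he hk hsJ
  rw [cs.length_simple] at c1 c2
  obtain ⟨a0, a1, a2⟩ := D05a_avk cs hE h3 he hk
  rcases (show k = 0 ∨ k = 1 ∨ (2 ≤ k ∧ k < M i j) ∨ (2 ≤ k ∧ k = M i j) by omega) with
    h | h | h | h
  · have h5 : D.t.repr (D.c (al cs i j k)) (cs.simple s) = 0 := by
      apply c2
      rintro (h6 | h6)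
      · omega
      · have h7 := congrArg cs.length h6
        rw [cs.length_simple, len_al cs hij (Or.inl hk)] at h7
        omega
    rw [h5]
    exact ⟨DegLe.zero, fun h => absurd rfl h⟩
  · by_cases hsi : s = i
    · have h5 : D.t.repr (D.c (al cs i j k)) (cs.simple s) =
          T ((L i : ℤ) * (((1 : ℕ) : ℤ) - k)) := by
        apply c1
        right
        rw [h, al_one, hsi]
      rw [h5, a1 (by omega) (by omega), hLs, h]
      refine ⟨DegLe.T (by push_cast; simp), fun _ => ?_⟩
      have h6 := rd_al cs hij (k := 1) one_pos (Or.inl (by omega))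
      have h7 : lst i j 1 = i := if_neg (by decide)
      rw [h7] at h6
      rw [hsi]
      exact h6
    · have h5 : D.t.repr (D.c (al cs i j k)) (cs.simple s) = 0 := by
        apply c2
        rintro (h6 | h6)
        · omega
        · rw [h, al_one] at h6
          exact hsi (simple_inj cs h6)
      rw [h5]
      exact ⟨DegLe.zero, fun h => absurd rfl h⟩
  · have h5 : D.t.repr (D.c (al cs i j k)) (cs.simple s) =
        T ((L i : ℤ) * (((1 : ℕ) : ℤ) - k)) := c1 (Or.inl (by omega))
    have h6 : DegLe (-1) (D.t.repr (D.c (al cs i j k)) (cs.simple s)) := by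
      rw [h5]
      apply DegLe.T
      have h7 : (2 : ℤ) ≤ k := by exact_mod_cast h.1
      have h8 : (1 : ℤ) ≤ L i := by exact_mod_cast hL i
      push_cast
      nlinarith
    rw [a1 (by omega) h.2, hLs, sub_self]
    exact ⟨h6.mono (by omega), fun h7 => absurd (h6 0 (by omega)) h7⟩
  · have h5 : D.t.repr (D.c (al cs i j k)) (cs.simple s) =
        T ((L i : ℤ) * (((1 : ℕ) : ℤ) - k)) := c1 (Or.inl (by omega))
    refine ⟨?_, fun _ => ?_⟩
    · rw [h5, a2 h.2, hLs]
      apply DegLe.T
      push_cast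
      linarith
    · rw [h.2]
      rcases hs with h6 | h6
      · rw [h6]
        exact (pair_top_rd cs hij (by omega)).1
      · rw [h6]
        exact (pair_top_rd cs hij (by omega)).2.1

theorem o2_one_eq (hL : ∀ i, 0 < L i) (hE : OddEq M L) {i j : B} (h3 : 3 ≤ M i j)
    (he : L i = L j) {w : W} (hw : w ∈ WP cs {i, j}) :
    DegLe (-(av cs L w : ℤ)) (D.t.repr (D.c w) 1) := by
  have hij := D05a_ne h3
  have hji : M j i = M i j := M.symmetric j i
  obtain ⟨k, hk, h1⟩ := (wp_pair cs hij).1 hw
  have hk' : k ≤ M i j := by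
    rcases hk with h | h
    · exact h
    · omega
  rcases h1 with rfl | rfl
  · exact D05a_one D hL hE h3 he hk'
  · exact D05a_one D hL hE (i := j) (j := i) (by omega) he.symm (by omega)

theorem o2_s_eq (hL : ∀ i, 0 < L i) (hE : OddEq M L) {i j : B} (h3 : 3 ≤ M i j)
    (he : L i = L j) {w : W} (hw : w ∈ WP cs {i, j}) {s : B} (hs : s = i ∨ s = j) :
    DegLe ((L s : ℤ) - av cs L w) (D.t.repr (D.c w) (cs.simple s)) ∧
      ((D.t.repr (D.c w) (cs.simple s)).coeff ((L s : ℤ) - av cs L w) ≠ 0 →
        cs.IsRightDescent w s) := by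
  have hij := D05a_ne h3
  have hji : M j i = M i j := M.symmetric j i
  obtain ⟨k, hk, h1⟩ := (wp_pair cs hij).1 hw
  have hk' : k ≤ M i j := by
    rcases hk with h | h
    · exact h
    · omega
  rcases h1 with rfl | rfl
  · exact D05a_s D hL hE h3 he hk' hs
  · exact D05a_s D hL hE (i := j) (j := i) (by omega) he.symm (by omega) hs.symm

end Pool.Agent.Lib.KLT
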