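import Pool.Agent.Lib.MP_754fa1_al.T.D05

/-!
# D06f. `O1` for equal parameters, away from `w₀`

`3 ≤ M i j = m`, `L i = L j = a`, `w₀ = al i j m`. For `κ : Lau` and `s ∈ {i, j}` let `UF κ s h`: `h = y + f C(w₀)` with `y` in the additive group generated by
`κ • C_w`, `w ∈ WP {i, j}`, `w ≠ 1, w₀`, `w` with left descent `s`.

(1) `C_i y`, `y` a generator `κ • C_w` with `w` of left descent `j`, `w ≠ w₀`: `w = al j i l`, `1 ≤ l < m`: `C_i C_w = C(al i j (l+1)) + [l ≥ 2] C(al i j (l-1))` (`eq_mul_one`,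
`eq_mul`; `al i j m = w₀`); so `UF κ j h` implies `UF κ i (C_i h)` (`C_i C(w₀) = η C(w₀)`).
(2) Claim: for `q ∈ WP {i, j}`, `q ≠ 1, w₀`, `1 ≤ k < m`, both orders of `i, j`: `UF κ i (C(al i j k) C_q)` with `κ = η_a` if the right descent of `al i j k` (`lst i j k`) is the left
descent of `q`, `κ = 1` otherwise. Strong induction on `k`. `k = 1`: `C_i C_q = η_a C_q` if `i` is the left descent of `q`; else by (1) with `κ = 1`. `k = 2`: `C(al i j 2) C_q = C_i (C_j C_q)`,
use (1) and the case `k = 1` (exchanged). `k ≥ 3`: `C(al i j k) = C_i C(al j i (k-1)) - C(al i j (k-2))`; the three elements have the same right descent; (1).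

`o1_eq`: `p = 1`, `q = 1`, `p = w₀`, `q = w₀` as in D06e. Otherwise: the coordinate at `w ≠ w₀` is `κ` times an integer, of degree `≤ a`; it vanishes at `w = 1`; for `w ≠ 1, w₀`,
`av w = a` (`av_other`, or `av_simple`). If it is non-zero: let `s` be the right descent of `q`; `C_p C_q T_s = v^a C_p C_q` (`c_mul_t`), so `s` is a right descent of `w` (`eig_span`), so `s_s` is a
suffix of `w` and of `q`, `av s_s = a`: `Cs w q`.
-/

open LaurentPolynomial
open Pool.Agent.Lib.MP_754fa1_al

namespace Pool.Agent.Lib.KLT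

universe u v w

variable {B : Type u} {W : Type v} [Group W] {M : CoxeterMatrix B} [Finite B]
variable {cs : CoxeterSystem M W} {L : B → ℕ} {H : Type w} [Ring H] [Algebra Lau H]
variable (D : KL cs L H)

omit [Finite B] in
private theorem D06f_ne {i j : B} (h3 : 3 ≤ M i j) : i ≠ j := by
  rintro rfl
  rw [M.diagonal] at h3
  omega

omit [Finite B] in
private theorem D06f_lst (i j : B) (k : ℕ) : lst j i k = lst i j (k + 1) := by
  unfold lst
  by_cases h : Even k
  · rw [if_pos h, if_neg (by rw [Nat.even_add_one]; exact fun h' => h' h)]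
  · rw [if_neg h, if_pos (by rw [Nat.even_add_one]; exact h)]

/-- the additive subgroup of the combinations of the `κ C_w`, `s` a left descent of `w`, and of the
multiples of `C(w₀)` -/
private def D06f_US (D : KL cs L H) (w₀ : W) (J : Set B) (s : B) (κ : Lau) : AddSubgroup H :=
  AddSubgroup.closure
    ({g | ∃ w ∈ WP cs J, w ≠ w₀ ∧ cs.IsLeftDescent w s ∧ g = κ • D.c w} ∪
      {g | ∃ f : Lau, g = f • D.c w₀})

omit [Finite B] in
private theorem D06f_top {w₀ : W} {J : Set B} {s : B} {κ : Lau} (f : Lau) :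
    f • D.c w₀ ∈ D06f_US D w₀ J s κ :=
  AddSubgroup.subset_closure (Or.inr ⟨f, rfl⟩)

omit [Finite B] in
private theorem D06f_gen {w₀ w : W} {J : Set B} {s : B} {κ : Lau} (hw : w ∈ WP cs J)
    (hs : cs.IsLeftDescent w s) : κ • D.c w ∈ D06f_US D w₀ J s κ := by
  by_cases h0 : w = w₀
  · rw [h0]
    exact D06f_top D κ
  · exact AddSubgroup.subset_closure (Or.inl ⟨w, hw, h0, hs, rfl⟩)

omit [Finite B] in
private theorem D06f_form {i j : B} (h3 : 3 ≤ M i j) {w : W} (hw : w ∈ WP cs {i, j})
    (h0 : w ≠ al cs i j (M i j)) (hs : cs.IsLeftDescent w j) :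
    ∃ l, 1 ≤ l ∧ l < M i j ∧ w = al cs j i l := by
  have hij := D06f_ne h3
  have hji : M j i = M i j := M.symmetric j i
  obtain ⟨k, hk, h1⟩ := (wp_pair cs hij).1 hw
  have hk' : k ≤ M i j := by
    rcases hk with h | h
    · exact h
    · omega
  have hk0 : 0 < k := by
    rcases Nat.eq_zero_or_pos k with h | h
    · exfalso
      subst h
      have h2 : w = 1 := by
        rcases h1 with h1 | h1
        · rw [h1, al_zero]
        · rw [h1, al_zero]
      rw [h2] at hs
      unfold CoxeterSystem.IsLeftDescent at hs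
      rw [cs.length_one] at hs
      omega
    · exact h
  have hkm : k ≠ M i j := by
    intro h
    subst h
    rcases h1 with h1 | h1
    · exact h0 h1
    · exact h0 (by rw [h1, al_top cs i j (by omega)])
  rcases h1 with h1 | h1
  · exfalso
    rw [h1] at hs
    exact hkm ((ld_al_iff cs hij hk0 (Or.inl hk')).1 hs)
  · exact ⟨k, hk0, by omega, h1⟩

omit [Finite B] in
private theorem D06f_step (hL : ∀ i, 0 < L i) {i j : B} (h3 : 3 ≤ M i j) (he : L i = L j)
    {κ : Lau} {h : H} (hh : h ∈ D06f_US D (al cs i j (M i j)) {i, j} j κ) :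
    D.c (cs.simple i) * h ∈ D06f_US D (al cs i j (M i j)) {i, j} i κ := by
  have hij := D06f_ne h3
  unfold D06f_US at hh
  induction hh using AddSubgroup.closure_induction with
  | mem x hx =>
    rcases hx with ⟨w, hw, h0, hs, rfl⟩ | ⟨f, rfl⟩
    · obtain ⟨l, h1, h2, rfl⟩ := D06f_form h3 hw h0 hs
      rw [mul_smul_comm]
      rcases eq_or_lt_of_le h1 with h4 | h4
      · subst h4
        rw [al_one, eq_mul_one D hL h3 he]
        exact D06f_gen D (al_mem cs i j 2) (ld_al cs hij (by omega) (Or.inl (by omega)))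
      · obtain ⟨k, rfl⟩ : ∃ k, l = k + 2 := ⟨l - 2, by omega⟩
        rw [eq_mul D hL h3 he (by omega), smul_add]
        exact add_mem
          (D06f_gen D (al_mem cs i j _) (ld_al cs hij (by omega) (Or.inl (by omega))))
          (D06f_gen D (al_mem cs i j _) (ld_al cs hij (by omega) (Or.inl (by omega))))
    · rw [mul_smul_comm, D.cs_mul_c hL (pair_top_rd cs hij (by omega)).2.2.1, smul_smul]
      exact D06f_top D _
  | zero =>
    rw [mul_zero]
    exact zero_mem _
  | add x y _ _ hx hy =>
    rw [mul_add]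
    exact add_mem hx hy
  | neg x _ hx =>
    rw [mul_neg]
    exact neg_mem hx

open Classical in
private noncomputable def D06f_k (cs : CoxeterSystem M W) (L : B → ℕ) (c : B) (q : W) : Lau :=
  if cs.IsLeftDescent q c then eta (L c) else 1

omit [Finite B] in
private theorem D06f_claim (hL : ∀ i, 0 < L i) (w₀ : W) (J : Set B) {q : W} (hq : q ∈ WP cs J)
    (hq1 : q ≠ 1) (hq0 : q ≠ w₀) (k : ℕ) :
    ∀ i j : B, 3 ≤ M i j → L i = L j → al cs i j (M i j) = w₀ → ({i, j} : Set B) = J →
      1 ≤ k → k < M i j →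
      D.c (al cs i j k) * D.c q ∈ D06f_US D w₀ J i (D06f_k cs L (lst i j k) q) := by
  induction k using Nat.strong_induction_on with
  | _ k ih =>
    intro i j h3 he hw0 hJ h1 hk
    have hij := D06f_ne h3
    have hji : M j i = M i j := M.symmetric j i
    have hw0' : al cs j i (M j i) = w₀ := by
      rw [hji, ← al_top cs i j (by omega)]
      exact hw0
    have hJ' : ({j, i} : Set B) = J := by
      rw [Set.pair_comm]
      exact hJ
    have step : ∀ {κ : Lau} {h : H}, h ∈ D06f_US D w₀ J j κ →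
        D.c (cs.simple i) * h ∈ D06f_US D w₀ J i κ := by
      intro κ h hh
      rw [← hw0, ← hJ] at hh ⊢
      exact D06f_step D hL h3 he hh
    rcases (show k = 1 ∨ k = 2 ∨ 3 ≤ k by omega) with rfl | rfl | h3k
    · have e : lst i j 1 = i := if_neg (by decide)
      rw [al_one, e]
      unfold D06f_k
      by_cases hd : cs.IsLeftDescent q i
      · rw [if_pos hd, D.cs_mul_c hL hd]
        exact D06f_gen D hq hd
      · rw [if_neg hd]
        have hd' : cs.IsLeftDescent q j := by
          rcases pair_ld_unique cs hij (by omega) (z := q) (by rw [hJ]; exact hq) hq1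
            (by rw [hw0]; exact hq0) with h5 | h5
          · exact absurd h5.1 hd
          · exact h5.2
        have h6 := D06f_gen D (w₀ := w₀) (κ := 1) hq hd'
        rw [one_smul] at h6
        exact step h6
    · rw [← eq_mul_one D hL h3 he, mul_assoc]
      have h6 := ih 1 (by omega) j i (by omega) he.symm hw0' hJ' le_rfl (by omega)
      rw [al_one, D06f_lst] at h6
      exact step h6
    · obtain ⟨n, rfl⟩ : ∃ n, k = n + 3 := ⟨k - 3, by omega⟩
      have h6 := ih (n + 2) (by omega) j i (by omega) he.symm hw0' hJ' (by omega) (by omega)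
      have h7 := ih (n + 1) (by omega) i j h3 he hw0 hJ (by omega) (by omega)
      have e7 : lst i j (n + 1) = lst i j (n + 3) := by
        rw [← D06f_lst i j (n + 2), ← D06f_lst j i (n + 1)]
      rw [D06f_lst] at h6
      rw [e7] at h7
      have h8 : D.c (al cs i j (n + 3)) = D.c (cs.simple i) * D.c (al cs j i (n + 2)) -
          D.c (al cs i j (n + 1)) := by
        rw [eq_mul D hL h3 he (by omega), add_sub_cancel_right]
      rw [h8, sub_mul, mul_assoc]
      exact sub_mem (step h6) h7

omit [Finite B] in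
private theorem D06f_coord {w₀ : W} {J : Set B} {s : B} {κ : Lau} {h : H}
    (hh : h ∈ D06f_US D w₀ J s κ) {w : W} (hw : w ≠ w₀) :
    ∃ n : ℤ, D.cB.repr h w = n • κ ∧ (n ≠ 0 → cs.IsLeftDescent w s) := by
  classical
  unfold D06f_US at hh
  induction hh using AddSubgroup.closure_induction with
  | mem x hx =>
    rcases hx with ⟨z, hz, h0, hs, rfl⟩ | ⟨f, rfl⟩
    · rw [map_smul, Finsupp.smul_apply, ← D.cB_apply, Module.Basis.repr_self]
      by_cases hzw : z = w
      · subst hzw
        refine ⟨1, ?_, fun _ => hs⟩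
        rw [Finsupp.single_eq_same, smul_eq_mul, mul_one, one_smul]
      · refine ⟨0, ?_, fun h5 => absurd rfl h5⟩
        rw [Finsupp.single_apply, if_neg hzw, smul_zero, zero_smul]
    · refine ⟨0, ?_, fun h5 => absurd rfl h5⟩
      rw [map_smul, Finsupp.smul_apply, ← D.cB_apply, Module.Basis.repr_self,
        Finsupp.single_apply, if_neg (fun h5 => hw h5.symm), smul_zero, zero_smul]
  | zero =>
    refine ⟨0, ?_, fun h5 => absurd rfl h5⟩
    rw [map_zero, zero_smul]
    rfl
  | add x y _ _ hx hy =>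
    obtain ⟨n, h1, h2⟩ := hx
    obtain ⟨m, h3, h4⟩ := hy
    refine ⟨n + m, ?_, ?_⟩
    · rw [map_add, Finsupp.add_apply, h1, h3, add_smul]
    · intro h5
      by_cases hn : n = 0
      · exact h4 (by
          intro hm
          exact h5 (by rw [hn, hm, add_zero]))
      · exact h2 hn
  | neg x _ hx =>
    obtain ⟨n, h1, h2⟩ := hx
    refine ⟨-n, ?_, ?_⟩
    · rw [map_neg, Finsupp.neg_apply, h1, neg_smul]
    · intro h5
      exact h2 (by
        intro hn
        exact h5 (by rw [hn, neg_zero]))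

omit [Finite B] in
private theorem D06f_k_deg (cs : CoxeterSystem M W) (L : B → ℕ) (c : B) (q : W) {a : ℕ}
    (h : L c = a) : DegLe a (D06f_k cs L c q) := by
  unfold D06f_k
  split_ifs
  · rw [← h]
    exact DegLe.eta _
  · exact DegLe.one.mono (by omega)

omit [Finite B] in
private theorem D06f_suf {s : B} {x : W} (h : cs.IsRightDescent x s) :
    Suf cs (cs.simple s) x := by
  unfold Suf
  rw [cs.inv_simple, cs.length_simple]
  exact (cs.isRightDescent_iff.1 h).symm

private theorem D06f_av (hE : OddEq M L) {i j : B} (h3 : 3 ≤ M i j) (he : L i = L j) {w : W}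
    (hw : w ∈ WP cs {i, j}) (h1 : w ≠ 1) (h0 : w ≠ al cs i j (M i j)) : av cs L w = L i := by
  have hij := D06f_ne h3
  have hji : M j i = M i j := M.symmetric j i
  have h2 : spt cs w ≠ ∅ := fun h => h1 (spt_empty cs h)
  obtain ⟨c, hc⟩ := Set.nonempty_iff_ne_empty.2 h2
  have h4 : spt cs w ⊆ {i, j} := (wp_iff_spt cs).1 hw
  rcases h4 hc with h5 | h5
  · rw [h5] at hc
    exact av_other cs L hE h3 he.symm.le hw hc h0 (Or.inr he)
  · rw [Set.mem_singleton_iff.1 h5] at hc
    rw [he]
    refine av_other cs L hE (i := j) (j := i) (by omega) he.le (by rw [Set.pair_comm]; exact hw)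
      hc ?_ (Or.inr he.symm)
    rw [hji, ← al_top cs i j (by omega)]
    exact h0

theorem o1_eq (hL : ∀ i, 0 < L i) (hE : OddEq M L) {i j : B} (h3 : 3 ≤ M i j)
    (he : L i = L j) {p q w : W} (hp : p ∈ WP cs {i, j})
    (hq : q ∈ WP cs {i, j}) (hw : w ∈ WP cs {i, j}) (hw0 : w ≠ al cs i j (M i j)) :
    DegLe (av cs L w) (D.cB.repr (D.c p * D.c q) w) ∧
      ((D.cB.repr (D.c p * D.c q) w).coeff (av cs L w) ≠ 0 → Cs cs L w q) := by
  classical
  have hij := D06f_ne h3
  have hji : M j i = M i j := M.symmetric j i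
  by_cases hp1 : p = 1
  · rw [hp1, c_one, one_mul, ← D.cB_apply, Module.Basis.repr_self, Finsupp.single_apply]
    by_cases hqw : q = w
    · rw [if_pos hqw]
      refine ⟨DegLe.one.mono (by omega), fun _ => ?_⟩
      rw [hqw]
      exact ⟨w, suf_refl cs w, suf_refl cs w, rfl⟩
    · rw [if_neg hqw]
      exact ⟨DegLe.zero, fun h => absurd rfl h⟩
  by_cases hq1 : q = 1
  · rw [hq1, c_one, mul_one, ← D.cB_apply, Module.Basis.repr_self, Finsupp.single_apply]
    by_cases hpw : p = w
    · rw [if_pos hpw]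
      refine ⟨DegLe.one.mono (by omega), fun h => ?_⟩
      exfalso
      have h5 := av_pos cs L hL (x := w) (by rw [← hpw]; exact hp1)
      exact h (DegLe.one _ (by omega))
    · rw [if_neg hpw]
      exact ⟨DegLe.zero, fun h => absurd rfl h⟩
  have hzero : ∀ f : Lau, D.cB.repr (f • D.c (al cs i j (M i j))) w = 0 := by
    intro f
    rw [map_smul, Finsupp.smul_apply, ← D.cB_apply, Module.Basis.repr_self,
      Finsupp.single_apply, if_neg (fun h => hw0 h.symm), smul_zero]
  by_cases hp0 : p = al cs i j (M i j)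
  · obtain ⟨f, hf⟩ := (top_absorb D hL hij (by omega) (hp_c D hq)).2
    rw [hp0, hf, hzero]
    exact ⟨DegLe.zero, fun h => absurd rfl h⟩
  by_cases hq0 : q = al cs i j (M i j)
  · obtain ⟨f, hf⟩ := (top_absorb D hL hij (by omega) (hp_c D hp)).1
    rw [hq0, hf, hzero]
    exact ⟨DegLe.zero, fun h => absurd rfl h⟩
  obtain ⟨s, κ, hs, hκ, hmem⟩ : ∃ (s : B) (κ : Lau), (s = i ∨ s = j) ∧ DegLe (L i) κ ∧
      D.c p * D.c q ∈ D06f_US D (al cs i j (M i j)) {i, j} s κ := by
    have hJ' : ({j, i} : Set B) = {i, j} := Set.pair_comm j i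
    have hlst : ∀ k, L (lst i j k) = L i := by
      intro k
      unfold lst
      split_ifs
      · exact he.symm
      · rfl
    have hlst' : ∀ k, L (lst j i k) = L i := by
      intro k
      unfold lst
      split_ifs
      · rfl
      · exact he.symm
    rcases pair_ld_unique cs hij (by omega) hp hp1 hp0 with h5 | h5
    · obtain ⟨l, h6, h7, h8⟩ := D06f_form (i := j) (j := i) (by omega)
        (by rw [hJ']; exact hp) (by rw [hji, ← al_top cs i j (by omega)]; exact hp0) h5.1
      refine ⟨i, _, Or.inl rfl, D06f_k_deg cs L _ q (hlst l), ?_⟩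
      rw [h8]
      exact D06f_claim D hL _ _ hq hq1 hq0 l i j h3 he rfl rfl h6 (by omega)
    · obtain ⟨l, h6, h7, h8⟩ := D06f_form h3 hp hp0 h5.2
      refine ⟨j, _, Or.inr rfl, D06f_k_deg cs L _ q (hlst' l), ?_⟩
      rw [h8]
      exact D06f_claim D hL _ _ hq hq1 hq0 l j i (by omega) he.symm
        (by rw [hji, ← al_top cs i j (by omega)]) hJ' h6 (by omega)
  obtain ⟨n, hn, hn'⟩ := D06f_coord D hmem hw0
  by_cases h0 : n = 0
  · rw [hn, h0, zero_smul]
    exact ⟨DegLe.zero, fun h => absurd rfl h⟩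
  have hd := hn' h0
  have hw1 : w ≠ 1 := by
    rintro rfl
    unfold CoxeterSystem.IsLeftDescent at hd
    rw [cs.length_one] at hd
    omega
  have hav := D06f_av (cs := cs) hE h3 he hw hw1 hw0
  rw [hav]
  constructor
  · rw [hn]
    intro k hk
    have h9 := hκ k hk
    change n • (κ.coeff k) = 0
    rw [h9, smul_zero]
  · intro hne
    have hne' : D.cB.repr (D.c p * D.c q) w ≠ 0 := by
      intro h9
      rw [h9] at hne
      exact hne rfl
    obtain ⟨c, hc, hcq⟩ : ∃ c, L c = L i ∧ cs.IsRightDescent q c := by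
      rcases pair_rd_unique cs hij (by omega) hq hq1 hq0 with h5 | h5
      · exact ⟨i, rfl, h5.1⟩
      · exact ⟨j, he.symm, h5.2⟩
    have hcw : cs.IsRightDescent w c := by
      apply D.eig_span hL (i := c) (h := D.c p * D.c q) _ w hne'
      rw [mul_assoc, D.c_mul_t hL hcq, mul_smul_comm]
    refine ⟨cs.simple c, D06f_suf hcw, D06f_suf hcq, ?_⟩
    rw [hav, av_simple, hc]

end Pool.Agent.Lib.KLT
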