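import Pool.Agent.Lib.MP_754fa1_al.T.D06e
import Pool.Agent.Lib.MP_754fa1_al.T.D06f

/-!
# D06. `O1`: the products `C_p C_q` in dihedral and rank one parabolic subalgebras

`lat_mul_al`: `Lat n h` implies `Lat (n + sl L i j k) (h T(al i j k))` for `k ≤ m`: induction: `T(al i j (k+1)) = T_i T(al j i k)`, and `h T_i ∈ Lat (n + L i)`
(`Hecke.repr_mul_s_up/down`).
`o1_top`: coordinate at `w₀ = al i j m` (`3 ≤ m = M i j`): `C_p C_q = ∑_z q_z C_p T_z` over `z ∈ WP {i, j}` (`hp_c`), `q_z` of degree `≤ 0`, zero for `z = w₀` unless `q = w₀`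
(`repr_c_len`). For `z = al i j l` or `al j i l`, `l < m`: `C_p T_z ∈ Lat (sl .. l)`, `sl .. l ≤ sl L i j m - 1` (`sl_lt`, `sl_symm`). So all coordinates of `C_p C_q` (also with respect to
`C`: `D.lat_iff`) have degree `≤ sl L i j m - 1 = av w₀ - 1` if `q ≠ w₀`, and `≤ av w₀` in any case; for `q = w₀`: `Cs w₀ w₀`.

`o1_dih`: `J = {c}`: elements `1, s_c`; `C_c C_c = η C_c`: degree `L c = av s_c`, `Cs s_c s_c`. `J = {i, j}`: `w ∉ WP`: `hp_mul`, `hp_c`, `hp_iff_c`. `w = w₀`: `o1_top`. `w ≠ w₀`: `o1_eq` or `o1_lt`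
(if `L i < L j` exchange `i, j`; `M i j` is even by `OddEq`).
-/

open LaurentPolynomial
open Pool.Agent.Lib.MP_754fa1_al

namespace Pool.Agent.Lib.KLT

universe u v w

variable {B : Type u} {W : Type v} [Group W] {M : CoxeterMatrix B} [Finite B]
variable {cs : CoxeterSystem M W} {L : B → ℕ} {H : Type w} [Ring H] [Algebra Lau H]
variable (D : KL cs L H)

omit [Finite B] in
private theorem D06_ne {i j : B} (h3 : 3 ≤ M i j) : i ≠ j := by
  rintro rfl
  rw [M.diagonal] at h3
  omega

omit [Finite B] in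
private theorem D06_lat_s (i : B) {n : ℤ} {h : H} (hh : D.Lat n h) :
    D.Lat (n + L i) (h * D.t (cs.simple i)) := by
  intro z
  by_cases hz : cs.IsRightDescent z i
  · rw [D.toHecke.repr_mul_s_down i h z hz]
    refine DegLe.add ((hh _).mono (by omega)) ?_
    rw [add_comm]
    exact (DegLe.xi (L i)).mul (hh z)
  · rw [D.toHecke.repr_mul_s_up i h z hz]
    exact (hh _).mono (by omega)

omit [Finite B] in
theorem lat_mul_al (hL : ∀ i, 0 < L i) {i j : B} (hij : i ≠ j) {k : ℕ}
    (hk : k ≤ M i j ∨ M i j = 0) {n : ℤ} {h : H} (hh : D.Lat n h) :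
    D.Lat (n + sl L i j k) (h * D.t (al cs i j k)) := by
  have key : ∀ (k : ℕ) (i j : B), i ≠ j → (k ≤ M i j ∨ M i j = 0) → ∀ (n : ℤ) (h : H),
      D.Lat n h → D.Lat (n + sl L i j k) (h * D.t (al cs i j k)) := by
    intro k
    induction k with
    | zero =>
      intro i j _ _ n h hh
      have h1 : sl L i j 0 = 0 := rfl
      rw [al_zero, D.t_one, mul_one, h1]
      simpa using hh
    | succ k ih =>
      intro i j hij hk n h hh
      have hji : M j i = M i j := M.symmetric j i
      have h1 : sl L i j (k + 1) = L i + sl L j i k := rfl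
      have hk' : k ≤ M j i ∨ M j i = 0 := by
        rcases hk with h2 | h2
        · left
          omega
        · right
          omega
      have h2 : D.t (al cs i j (k + 1)) = D.t (cs.simple i) * D.t (al cs j i k) := by
        rw [al_succ, D.t_mul]
        rw [← al_succ, len_al cs hij hk, len_al cs hij.symm hk', cs.length_simple]
        ring
      rw [h2, ← mul_assoc, h1]
      have h3 := ih j i hij.symm hk' (n + L i) _ (D06_lat_s D i hh)
      push_cast
      rw [← add_assoc]
      exact h3
  exact key k i j hij hk n h hh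

private theorem D06_lat (hL : ∀ i, 0 < L i) (hE : OddEq M L) {i j : B} (h3 : 3 ≤ M i j)
    {p q : W} (hq : q ∈ WP cs {i, j}) :
    D.Lat (sl L i j (M i j)) (D.c p * D.c q) ∧
      (q ≠ al cs i j (M i j) → D.Lat ((sl L i j (M i j) : ℤ) - 1) (D.c p * D.c q)) := by
  have hij := D06_ne h3
  have hji : M j i = M i j := M.symmetric j i
  have hc : D.c p * D.c q = ∑ z ∈ (D.t.repr (D.c q)).support,
      D.t.repr (D.c q) z • (D.c p * D.t z) := by
    conv_lhs => rw [← D.t.linearCombination_repr (D.c q)]
    rw [Finsupp.linearCombination_apply, Finsupp.sum, Finset.mul_sum]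
    exact Finset.sum_congr rfl fun z _ => mul_smul_comm _ _ _
  have hz : ∀ z ∈ (D.t.repr (D.c q)).support, z ∈ WP cs {i, j} := by
    intro z hz
    by_contra hcon
    exact (Finsupp.mem_support_iff.1 hz) (hp_c D hq z hcon)
  have hlat : ∀ z ∈ WP cs {i, j}, ∃ l : ℕ, l ≤ M i j ∧ (z ≠ al cs i j (M i j) → l < M i j) ∧
      (D.Lat (sl L i j l) (D.c p * D.t z) ∨ D.Lat (sl L j i l) (D.c p * D.t z)) := by
    intro z hz
    obtain ⟨l, hl, h1⟩ := (wp_pair cs hij).1 hz
    have hl' : l ≤ M i j := by
      rcases hl with h | h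
      · exact h
      · omega
    refine ⟨l, hl', ?_, ?_⟩
    · intro h2
      rcases Nat.lt_or_ge l (M i j) with h4 | h4
      · exact h4
      · exfalso
        have h5 : l = M i j := by omega
        subst h5
        rcases h1 with h1 | h1
        · exact h2 h1
        · exact h2 (by rw [h1, al_top cs i j (by omega)])
    · rcases h1 with h1 | h1
      · left
        have h2 := lat_mul_al D hL hij (k := l) (Or.inl hl') (D.lat_c p)
        rw [zero_add] at h2
        rw [h1]
        exact h2
      · right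
        have h2 := lat_mul_al D hL hij.symm (k := l) (Or.inl (by omega)) (D.lat_c p)
        rw [zero_add] at h2
        rw [h1]
        exact h2
  have hsym : sl L i j (M i j) = sl L j i (M i j) := sl_symm hE i j
  constructor
  · rw [hc]
    refine D.toHecke.lat_sum _ _ fun z hzs => ?_
    obtain ⟨l, h1, -, h2⟩ := hlat z (hz z hzs)
    have h4 : D.Lat (sl L i j (M i j)) (D.c p * D.t z) := by
      rcases h2 with h2 | h2
      · refine D.toHecke.lat_mono h2 ?_
        rcases eq_or_lt_of_le h1 with h5 | h5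
        · rw [h5]
        · have := sl_lt hL i j h5
          omega
      · refine D.toHecke.lat_mono h2 ?_
        rcases eq_or_lt_of_le h1 with h5 | h5
        · rw [h5, hsym]
        · have := sl_lt hL j i h5
          omega
    have h5 := D.toHecke.lat_smul (D.lat_c q z) h4
    rw [zero_add] at h5
    exact h5
  · intro hq0
    rw [hc]
    refine D.toHecke.lat_sum _ _ fun z hzs => ?_
    have hz0 : z ≠ al cs i j (M i j) := by
      rintro rfl
      refine (Finsupp.mem_support_iff.1 hzs) (repr_c_len D ?_ (fun h => hq0 h.symm))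
      rw [len_al cs hij (Or.inl le_rfl)]
      exact pair_len_le cs hij (by omega) hq
    obtain ⟨l, h1, h0, h2⟩ := hlat z (hz z hzs)
    have h1' := h0 hz0
    have h4 : D.Lat ((sl L i j (M i j) : ℤ) - 1) (D.c p * D.t z) := by
      rcases h2 with h2 | h2
      · refine D.toHecke.lat_mono h2 ?_
        have := sl_lt hL i j h1'
        omega
      · refine D.toHecke.lat_mono h2 ?_
        have := sl_lt hL j i h1'
        omega
    have h5 := D.toHecke.lat_smul (D.lat_c q z) h4
    rw [zero_add] at h5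
    exact h5

theorem o1_top (hL : ∀ i, 0 < L i) (hE : OddEq M L) {i j : B} (h3 : 3 ≤ M i j)
    {p q : W} (hp : p ∈ WP cs {i, j}) (hq : q ∈ WP cs {i, j}) :
    DegLe (av cs L (al cs i j (M i j))) (D.cB.repr (D.c p * D.c q) (al cs i j (M i j))) ∧
      ((D.cB.repr (D.c p * D.c q) (al cs i j (M i j))).coeff (av cs L (al cs i j (M i j))) ≠ 0 →
        Cs cs L (al cs i j (M i j)) q) := by
  have hij := D06_ne h3
  rw [av_full cs L hE h3]
  by_cases hq0 : q = al cs i j (M i j)
  · have h1 := D.lat_iff.1 (D06_lat D hL hE h3 (p := p) hq).1 (al cs i j (M i j))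
    refine ⟨h1, fun _ => ?_⟩
    rw [hq0]
    exact ⟨_, suf_refl cs _, suf_refl cs _, rfl⟩
  · have h1 := D.lat_iff.1 ((D06_lat D hL hE h3 (p := p) hq).2 hq0) (al cs i j (M i j))
    exact ⟨h1.mono (by omega), fun h2 => absurd (h1 _ (by omega)) h2⟩

private theorem D06_one (hL : ∀ i, 0 < L i) {c : B} {p q w : W} (hp : p ∈ WP cs {c})
    (hq : q ∈ WP cs {c}) :
    DegLe (av cs L w) (D.cB.repr (D.c p * D.c q) w) ∧
      ((D.cB.repr (D.c p * D.c q) w).coeff (av cs L w) ≠ 0 → Cs cs L w q) := by
  classical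
  have hc1 : ∀ z : W, D.cB.repr (D.c z) w = if z = w then 1 else 0 := by
    intro z
    rw [← D.cB_apply, Module.Basis.repr_self, Finsupp.single_apply]
  rcases (wp_single cs).1 hp with hp | hp
  · rw [hp, c_one, one_mul, hc1]
    split_ifs with h
    · refine ⟨DegLe.one.mono (by omega), fun _ => ?_⟩
      rw [h]
      exact ⟨w, suf_refl cs w, suf_refl cs w, rfl⟩
    · exact ⟨DegLe.zero, fun h => absurd rfl h⟩
  · rcases (wp_single cs).1 hq with hq | hq
    · rw [hq, c_one, mul_one, hc1]
      split_ifs with h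
      · refine ⟨DegLe.one.mono (by omega), fun h1 => ?_⟩
        exfalso
        rw [← h, hp, av_simple] at h1
        exact h1 (DegLe.one _ (by have := hL c; omega))
      · exact ⟨DegLe.zero, fun h => absurd rfl h⟩
    · have hld : cs.IsLeftDescent (cs.simple c) c := by
        unfold CoxeterSystem.IsLeftDescent
        rw [cs.simple_mul_simple_self, cs.length_one, cs.length_simple]
        exact one_pos
      rw [hp, hq, D.cs_mul_c hL hld, map_smul, Finsupp.smul_apply, hc1, smul_eq_mul]
      split_ifs with h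
      · rw [← h, av_simple, mul_one]
        exact ⟨DegLe.eta _, fun _ => ⟨_, suf_refl cs _, suf_refl cs _, rfl⟩⟩
      · rw [mul_zero]
        exact ⟨DegLe.zero, fun h => absurd rfl h⟩

theorem o1_dih (hL : ∀ i, 0 < L i) (hE : OddEq M L) {J : Set B} (hJ : Dih M J)
    {p q : W} (hp : p ∈ WP cs J) (hq : q ∈ WP cs J) :
    LL D J (fun w => Cs cs L w q) (D.c p * D.c q) := by
  intro w
  have hHP : ∀ w, w ∉ WP cs J → D.cB.repr (D.c p * D.c q) w = 0 :=
    (hp_iff_c D).1 (hp_mul D.toHecke (hp_c D hp) (hp_c D hq))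
  refine ⟨hHP w, ?_⟩
  by_cases hw : w ∈ WP cs J
  swap
  · rw [hHP w hw]
    exact ⟨DegLe.zero, fun h => absurd rfl h⟩
  rcases hJ with ⟨c, rfl⟩ | ⟨i, j, h3, rfl⟩
  · exact D06_one D hL hp hq
  · have hij := D06_ne h3
    have hji : M j i = M i j := M.symmetric j i
    by_cases hw0 : w = al cs i j (M i j)
    · rw [hw0]
      exact o1_top D hL hE h3 hp hq
    · rcases lt_trichotomy (L i) (L j) with hl | hl | hl
      · obtain ⟨n, hn⟩ : ∃ n, M i j = 2 * n := by
          rcases Nat.even_or_odd (M i j) with ⟨n, hn⟩ | hodd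
          · exact ⟨n, by omega⟩
          · exact absurd (hE i j hodd) (by omega)
        have hJ' : ({j, i} : Set B) = {i, j} := Set.pair_comm j i
        refine o1_lt D hL hE (i := j) (j := i) (n := n) (by omega) (by omega) hl
          (by rw [hJ']; exact hp) (by rw [hJ']; exact hq) (by rw [hJ']; exact hw) ?_
        rw [← hn, ← al_top cs i j (by omega)]
        exact hw0
      · exact o1_eq D hL hE h3 hl hp hq hw hw0
      · obtain ⟨n, hn⟩ : ∃ n, M i j = 2 * n := by
          rcases Nat.even_or_odd (M i j) with ⟨n, hn⟩ | hodd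
          · exact ⟨n, by omega⟩
          · exact absurd (hE i j hodd) (by omega)
        refine o1_lt D hL hE (n := n) h3 hn hl hp hq hw ?_
        rw [← hn]
        exact hw0

end Pool.Agent.Lib.KLT
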