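import Pool.Agent.Lib.MP_754fa1_al.T.D04

/-!
# D06a. The central element `Z` and the elements `S_k`

`Zc = C_i C_j + C_j C_i - η_j C_i - η_i C_j + η_{a+b}` (`η_i = eta (L i)`, `a = L i`, `b = L j`), `zet = η_i η_j - η_{a+b}`; for `b ≤ a`:
`zet = eta (a - b)` (`zet_eq`: `(v^a + v^{-a})(v^b + v^{-b})`). `C_i C_i = η_i C_i` (`cs_mul_c` with `x = s_i`).
`zc_i`: if `C_i h = η_i h` then `Z h = C_i C_j h + η_i C_j h - η_j η_i h - η_i C_j h + η_{a+b} h = C_i C_j h - zet h`.
`zc_j`: if `C_j h = η_j h` then `Z h = C_j C_i h - zet h`. `zc_comm_i`: `Z C_i = C_i C_j C_i - zet C_i = C_i Z`. Similarly `zc_comm_j`.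

`Sk 0 = 1`, `Sk 1 = Z`, `Sk (k+2) = Z Sk (k+1) - Sk k`. `sk_comm_i`, `sk_comm_j`, `sk_comm_z`: two-step induction. `sk_comm`: two-step induction.

`zc_c`: (unequal parameters, `M i j = 2 n`, `n ≥ 2`, `b < a`): `Z C_i = C(al i j 3)`; `Z C(al i j (2k+3)) = C(al i j (2k+5)) + C(al i j (2k+1))` for `k + 2 < n`;
`Z C_δ = η_i C(w₀) - zet C_δ`, `δ = al i j (2n - 1)`, `w₀ = al i j (2n)`: by `zc_i` (`cs_mul_c`, `ld_al`), `ue_j`, `ue_i_zero`, `ue_i`, `ue_mid_j`,
`C_i C(w₀) = η_i C(w₀)`.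
`sk_i`: `S_k C_i = C(al i j (2k+1))` for `k < n`, two-step induction.
`sk_ji`, `sk_ij`, `sk_jij`: `ue_j`, `ue_rj`, `ue_jj`.
-/

open LaurentPolynomial
open Pool.Agent.Lib.MP_754fa1_al

namespace Pool.Agent.Lib.KLT

universe u v w

variable {B : Type u} {W : Type v} [Group W] {M : CoxeterMatrix B}
variable {cs : CoxeterSystem M W} {L : B → ℕ} {H : Type w} [Ring H] [Algebra Lau H]

/-- the central element -/
noncomputable def Zc (D : KL cs L H) (i j : B) : H :=
  D.c (cs.simple i) * D.c (cs.simple j) + D.c (cs.simple j) * D.c (cs.simple i) -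
    eta (L j) • D.c (cs.simple i) - eta (L i) • D.c (cs.simple j) + eta (L i + L j) • (1 : H)

/-- Chebyshev elements -/
noncomputable def Sk (D : KL cs L H) (i j : B) : ℕ → H
  | 0 => 1
  | 1 => Zc D i j
  | k + 2 => Zc D i j * Sk D i j (k + 1) - Sk D i j k

/-- `η_i η_j - η_{a+b}` -/
noncomputable def zet (a b : ℕ) : Lau := eta a * eta b - eta (a + b)

theorem zet_eq {a b : ℕ} (h : b ≤ a) : zet a b = eta (a - b) := by
  unfold zet eta
  have e1 : (T ((a - b : ℕ) : ℤ) : Lau) = T (a : ℤ) * T (-(b : ℤ)) := by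
    rw [← T_add]
    congr 1
    push_cast [h]
    ring
  have e2 : (T (-((a - b : ℕ) : ℤ)) : Lau) = T (-(a : ℤ)) * T (b : ℤ) := by
    rw [← T_add]
    congr 1
    push_cast [h]
    ring
  have e3 : (T ((a + b : ℕ) : ℤ) : Lau) = T (a : ℤ) * T (b : ℤ) := by
    rw [← T_add]
    congr 1
  have e4 : (T (-((a + b : ℕ) : ℤ)) : Lau) = T (-(a : ℤ)) * T (-(b : ℤ)) := by
    rw [← T_add]
    congr 1
    push_cast
    ring
  rw [e1, e2, e3, e4]
  ring

variable (D : KL cs L H)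

private theorem D06a_cc (hL : ∀ i, 0 < L i) (i : B) :
    D.c (cs.simple i) * D.c (cs.simple i) = eta (L i) • D.c (cs.simple i) := by
  apply D.cs_mul_c hL
  unfold CoxeterSystem.IsLeftDescent
  rw [cs.simple_mul_simple_self, cs.length_one, cs.length_simple]
  exact Nat.zero_lt_one

theorem zc_i {i j : B} {h : H} (hh : D.c (cs.simple i) * h = eta (L i) • h) :
    Zc D i j * h = D.c (cs.simple i) * (D.c (cs.simple j) * h) - zet (L i) (L j) • h := by
  unfold Zc zet
  simp only [add_mul, sub_mul, smul_mul_assoc, one_mul, mul_assoc, hh, mul_smul_comm]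
  module

theorem zc_j {i j : B} {h : H} (hh : D.c (cs.simple j) * h = eta (L j) • h) :
    Zc D i j * h = D.c (cs.simple j) * (D.c (cs.simple i) * h) - zet (L i) (L j) • h := by
  unfold Zc zet
  simp only [add_mul, sub_mul, smul_mul_assoc, one_mul, mul_assoc, hh, mul_smul_comm]
  module

theorem zc_comm_i (hL : ∀ i, 0 < L i) (i j : B) :
    Zc D i j * D.c (cs.simple i) = D.c (cs.simple i) * Zc D i j := by
  rw [zc_i D (D06a_cc D hL i)]
  unfold Zc zet
  simp only [mul_add, mul_sub, mul_smul_comm, mul_one, ← mul_assoc, D06a_cc D hL i,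
    smul_mul_assoc]
  module

theorem zc_comm_j (hL : ∀ i, 0 < L i) (i j : B) :
    Zc D i j * D.c (cs.simple j) = D.c (cs.simple j) * Zc D i j := by
  rw [zc_j D (D06a_cc D hL j)]
  unfold Zc zet
  simp only [mul_add, mul_sub, mul_smul_comm, mul_one, ← mul_assoc, D06a_cc D hL j,
    smul_mul_assoc]
  module

private theorem D06a_two {i j : B} (x : H) (hx : Zc D i j * x = x * Zc D i j) (k : ℕ) :
    Sk D i j k * x = x * Sk D i j k := by
  have key : ∀ k, Sk D i j k * x = x * Sk D i j k ∧ Sk D i j (k + 1) * x = x * Sk D i j (k + 1) := by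
    intro k
    induction k with
    | zero =>
      refine ⟨?_, ?_⟩
      · have e : Sk D i j 0 = 1 := rfl
        rw [e, one_mul, mul_one]
      · have e : Sk D i j (0 + 1) = Zc D i j := rfl
        rw [e, hx]
    | succ k ih =>
      refine ⟨ih.2, ?_⟩
      have e : Sk D i j (k + 1 + 1) = Zc D i j * Sk D i j (k + 1) - Sk D i j k := rfl
      rw [e, sub_mul, mul_sub, mul_assoc, ih.1, ih.2, ← mul_assoc, ← mul_assoc, hx]
  exact (key k).1

theorem sk_comm_i (hL : ∀ i, 0 < L i) (i j : B) (k : ℕ) :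
    Sk D i j k * D.c (cs.simple i) = D.c (cs.simple i) * Sk D i j k :=
  D06a_two D _ (zc_comm_i D hL i j) k

theorem sk_comm_j (hL : ∀ i, 0 < L i) (i j : B) (k : ℕ) :
    Sk D i j k * D.c (cs.simple j) = D.c (cs.simple j) * Sk D i j k :=
  D06a_two D _ (zc_comm_j D hL i j) k

theorem sk_comm_z (i j : B) (k : ℕ) : Sk D i j k * Zc D i j = Zc D i j * Sk D i j k :=
  D06a_two D _ rfl k

theorem sk_comm (i j : B) (k l : ℕ) : Sk D i j k * Sk D i j l = Sk D i j l * Sk D i j k :=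
  D06a_two D _ (sk_comm_z D i j l).symm k

theorem zc_c_zero (hL : ∀ i, 0 < L i) {i j : B} {n : ℕ} (h3 : 3 ≤ M i j) (hn : M i j = 2 * n)
    (hl : L j < L i) : Zc D i j * D.c (cs.simple i) = D.c (al cs i j 3) := by
  rw [zc_i D (D06a_cc D hL i), zet_eq hl.le]
  have h1 := ue_j D hL h3 hn hl (k := 0) (by omega)
  have e : al cs i j (2 * 0 + 1) = cs.simple i := al_one cs i j
  rw [e] at h1
  rw [h1, ue_i_zero D hL h3 hn hl, add_sub_cancel_right]

theorem zc_c (hL : ∀ i, 0 < L i) {i j : B} {n : ℕ} (h3 : 3 ≤ M i j) (hn : M i j = 2 * n)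
    (hl : L j < L i) {k : ℕ} (hk : k + 2 < n) :
    Zc D i j * D.c (al cs i j (2 * k + 3)) =
      D.c (al cs i j (2 * k + 5)) + D.c (al cs i j (2 * k + 1)) := by
  have hij : i ≠ j := by
    rintro rfl
    exact lt_irrefl _ hl
  have h0 : D.c (cs.simple i) * D.c (al cs i j (2 * k + 3)) =
      eta (L i) • D.c (al cs i j (2 * k + 3)) :=
    D.cs_mul_c hL (ld_al cs hij (by omega) (Or.inl (by omega)))
  rw [zc_i D h0, zet_eq hl.le]
  have h1 := ue_j D hL h3 hn hl (k := k + 1) (by omega)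
  have e1 : 2 * (k + 1) + 1 = 2 * k + 3 := by ring
  have e2 : 2 * (k + 1) + 2 = 2 * k + 4 := by ring
  rw [e1, e2] at h1
  rw [h1, ue_i D hL h3 hn hl hk]
  module

theorem zc_mid (hL : ∀ i, 0 < L i) {i j : B} {n : ℕ} (h3 : 3 ≤ M i j) (hn : M i j = 2 * n)
    (hl : L j < L i) : Zc D i j * D.c (al cs i j (2 * n - 1)) =
      eta (L i) • D.c (al cs i j (2 * n)) - eta (L i - L j) • D.c (al cs i j (2 * n - 1)) := by
  have hij : i ≠ j := by
    rintro rfl
    exact lt_irrefl _ hl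
  have h0 : D.c (cs.simple i) * D.c (al cs i j (2 * n - 1)) =
      eta (L i) • D.c (al cs i j (2 * n - 1)) :=
    D.cs_mul_c hL (ld_al cs hij (by omega) (Or.inl (by omega)))
  have h1 : D.c (cs.simple i) * D.c (al cs i j (2 * n)) =
      eta (L i) • D.c (al cs i j (2 * n)) :=
    D.cs_mul_c hL (ld_al cs hij (by omega) (Or.inl (by omega)))
  rw [zc_i D h0, zet_eq hl.le, (ue_mid_j D hL h3 hn hl).1, h1]

theorem sk_i (hL : ∀ i, 0 < L i) {i j : B} {n : ℕ} (h3 : 3 ≤ M i j) (hn : M i j = 2 * n)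
    (hl : L j < L i) {k : ℕ} (hk : k < n) :
    Sk D i j k * D.c (cs.simple i) = D.c (al cs i j (2 * k + 1)) := by
  have key : ∀ k, (k < n → Sk D i j k * D.c (cs.simple i) = D.c (al cs i j (2 * k + 1))) ∧
      (k + 1 < n → Sk D i j (k + 1) * D.c (cs.simple i) = D.c (al cs i j (2 * (k + 1) + 1))) := by
    intro k
    induction k with
    | zero =>
      refine ⟨fun _ => ?_, fun _ => ?_⟩
      · have e : Sk D i j 0 = 1 := rfl
        have e' : al cs i j (2 * 0 + 1) = cs.simple i := al_one cs i j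
        rw [e, e', one_mul]
      · have e : Sk D i j (0 + 1) = Zc D i j := rfl
        rw [e, zc_c_zero D hL h3 hn hl]
    | succ k ih =>
      refine ⟨ih.2, fun h => ?_⟩
      have e : Sk D i j (k + 1 + 1) = Zc D i j * Sk D i j (k + 1) - Sk D i j k := rfl
      rw [e, sub_mul, mul_assoc, ih.1 (by omega), ih.2 (by omega)]
      have e1 : 2 * (k + 1) + 1 = 2 * k + 3 := by ring
      have e2 : 2 * (k + 1 + 1) + 1 = 2 * k + 5 := by ring
      rw [e1, e2, zc_c D hL h3 hn hl (by omega), add_sub_cancel_right]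
  exact (key k).1 hk

end Pool.Agent.Lib.KLT
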