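import Pool.Agent.Lib.MP_754fa1_al.T.D06a

/-!
# D06b. The elements `S_k S_l C_i`

`M i j = 2 n`, `n ≥ 2`, `b = L j < a = L i`, `δ = al i j (2n-1)`, `w₀ = al i j (2n)`.
`Mid` is the additive group generated by `C(al i j (2l+1))`, `l + 1 < n`. `XF e h`: `h = x + d C_δ + f C(w₀)`, `x ∈ Mid`, `DegLe e d`.

`mid_z`: `x ∈ Mid` implies `Z x = x' + k C_δ` with `x' ∈ Mid`, `k : ℤ`: closure induction; generators by `zc_c_zero`, `zc_c` (for `l + 1 = n - 1`
the element `C(al i j (2l+3))` is `C_δ`; `n = 2`: `Z C_i = C(al i j 3) = C_δ`).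
`z_top`: `Z C(w₀) = p C(w₀)` (`top_absorb`; `Z ∈ H_{ij}`).

`xf_z`: `XF e h`, `0 ≤ e` imply `XF (e + (a - b)) (Z h)`: `Z h = x' + k C_δ + d (η_i C(w₀) - η_{a-b} C_δ) + f p C(w₀)`; the `C_δ`-coefficient
`k - η_{a-b} d` has degree `≤ e + (a - b)`. `xf_sub`, `xf_mono`: clear.
`xf_sk`: for `k, l < n`: `XF (k (a - b)) (S_k (S_l C_i))`: two-step induction on `k`: `k = 0`: `S_l C_i = C(al i j (2l+1))` (`sk_i`), which is in `Mid`
or equal to `C_δ` (coefficient `1`, degree `0`). `k = 1`: `xf_z`. Step: `S_{k+2} y = Z S_{k+1} y - S_k y`, degrees `≤ (k+2)(a-b)`.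
`xf_sk'`: `XF (l (a - b)) (S_k (S_l C_i))` by `sk_comm`.
`xf_min`: the coefficient `d` is unique (the `C_w` are a basis, `cB`), but it is enough to have the two forms: state both.
-/

open LaurentPolynomial
open Pool.Agent.Lib.MP_754fa1_al

namespace Pool.Agent.Lib.KLT

universe u v w

variable {B : Type u} {W : Type v} [Group W] {M : CoxeterMatrix B}
variable {cs : CoxeterSystem M W} {L : B → ℕ} {H : Type w} [Ring H] [Algebra Lau H]

/-- integer combinations of the `C(al i j (2l+1))`, `l + 1 < n` -/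
def Mid (D : KL cs L H) (i j : B) (n : ℕ) : AddSubgroup H :=
  AddSubgroup.closure {h | ∃ l, l + 1 < n ∧ h = D.c (al cs i j (2 * l + 1))}

/-- `h = x + d C_δ + f C(w₀)` -/
def XF (D : KL cs L H) (i j : B) (n : ℕ) (e : ℤ) (h : H) : Prop :=
  ∃ x ∈ Mid D i j n, ∃ d f : Lau, DegLe e d ∧
    h = x + d • D.c (al cs i j (2 * n - 1)) + f • D.c (al cs i j (2 * n))

variable (D : KL cs L H)

theorem mid_z (hL : ∀ i, 0 < L i) {i j : B} {n : ℕ} (h3 : 3 ≤ M i j) (hn : M i j = 2 * n)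
    (hl : L j < L i) {x : H} (hx : x ∈ Mid D i j n) :
    ∃ x' ∈ Mid D i j n, ∃ k : ℤ, Zc D i j * x = x' + (k : Lau) • D.c (al cs i j (2 * n - 1)) := by
  unfold Mid at hx
  induction hx using AddSubgroup.closure_induction with
  | mem h hh =>
    obtain ⟨l, hl1, rfl⟩ := hh
    rcases Nat.eq_zero_or_pos l with h0 | h0
    · subst h0
      have e1 : al cs i j (2 * 0 + 1) = cs.simple i := by
        change cs.simple i * 1 = cs.simple i
        rw [mul_one]
      rw [e1, zc_c_zero D hL h3 hn hl]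
      by_cases h2 : 2 < n
      · refine ⟨_, AddSubgroup.subset_closure ⟨1, by omega, rfl⟩, 0, ?_⟩
        rw [Int.cast_zero, zero_smul, add_zero]
      · have h4 : 2 * n - 1 = 3 := by omega
        refine ⟨0, AddSubgroup.zero_mem _, 1, ?_⟩
        rw [h4, Int.cast_one, one_smul, zero_add]
    · obtain ⟨k, rfl⟩ : ∃ k, l = k + 1 := ⟨l - 1, by omega⟩
      have e1 : 2 * (k + 1) + 1 = 2 * k + 3 := by ring
      rw [e1, zc_c D hL h3 hn hl (k := k) (by omega)]
      have g1 : D.c (al cs i j (2 * k + 1)) ∈ Mid D i j n :=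
        AddSubgroup.subset_closure ⟨k, by omega, rfl⟩
      by_cases h2 : k + 3 < n
      · refine ⟨D.c (al cs i j (2 * k + 5)) + D.c (al cs i j (2 * k + 1)),
          AddSubgroup.add_mem _ (AddSubgroup.subset_closure ⟨k + 2, by omega, ?_⟩) g1, 0, ?_⟩
        · have e2 : 2 * (k + 2) + 1 = 2 * k + 5 := by ring
          rw [e2]
        · rw [Int.cast_zero, zero_smul, add_zero]
      · have h4 : 2 * n - 1 = 2 * k + 5 := by omega
        refine ⟨_, g1, 1, ?_⟩
        rw [h4, Int.cast_one, one_smul, add_comm]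
  | zero =>
    refine ⟨0, AddSubgroup.zero_mem _, 0, ?_⟩
    rw [mul_zero, Int.cast_zero, zero_smul, add_zero]
  | add u w _ _ hu hw =>
    obtain ⟨u', hu', k, hk⟩ := hu
    obtain ⟨w', hw', l, hl'⟩ := hw
    refine ⟨u' + w', AddSubgroup.add_mem _ hu' hw', k + l, ?_⟩
    rw [mul_add, hk, hl', Int.cast_add, add_smul]
    abel
  | neg u _ hu =>
    obtain ⟨u', hu', k, hk⟩ := hu
    refine ⟨-u', AddSubgroup.neg_mem _ hu', -k, ?_⟩
    rw [mul_neg, hk, Int.cast_neg, neg_smul]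
    abel

theorem z_top (hL : ∀ i, 0 < L i) {i j : B} {n : ℕ} (h3 : 3 ≤ M i j) (hn : M i j = 2 * n) :
    ∃ p : Lau, Zc D i j * D.c (al cs i j (2 * n)) = p • D.c (al cs i j (2 * n)) := by
  have hij : i ≠ j := ne_of_three h3
  obtain ⟨-, -, h1, h2⟩ := pair_top_rd cs hij (show M i j ≠ 0 by omega)
  rw [hn] at h1 h2
  have e1 := D.cs_mul_c hL h1
  have e2 := D.cs_mul_c hL h2
  refine ⟨eta (L i + L j), ?_⟩
  unfold Zc
  rw [add_mul, sub_mul, sub_mul, add_mul, smul_mul_assoc, smul_mul_assoc, smul_mul_assoc, one_mul,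
    mul_assoc, mul_assoc, e1, e2, mul_smul_comm, mul_smul_comm, e1, e2, smul_smul, smul_smul,
    mul_comm (eta (L j)) (eta (L i))]
  abel

theorem xf_mono {i j : B} {n : ℕ} {e e' : ℤ} {h : H} (hh : XF D i j n e h) (he : e ≤ e') :
    XF D i j n e' h := by
  obtain ⟨x, hx, d, f, hd, h1⟩ := hh
  exact ⟨x, hx, d, f, hd.mono he, h1⟩

theorem xf_sub {i j : B} {n : ℕ} {e : ℤ} {h k : H} (hh : XF D i j n e h)
    (hk : XF D i j n e k) : XF D i j n e (h - k) := by
  obtain ⟨x, hx, d, f, hd, h1⟩ := hh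
  obtain ⟨x', hx', d', f', hd', h1'⟩ := hk
  refine ⟨x - x', AddSubgroup.sub_mem _ hx hx', d - d', f - f', hd.sub hd', ?_⟩
  rw [h1, h1', sub_smul, sub_smul]
  abel

theorem xf_z (hL : ∀ i, 0 < L i) {i j : B} {n : ℕ} (h3 : 3 ≤ M i j) (hn : M i j = 2 * n)
    (hl : L j < L i) {e : ℤ} (he : 0 ≤ e) {h : H} (hh : XF D i j n e h) :
    XF D i j n (e + (L i - L j)) (Zc D i j * h) := by
  obtain ⟨x, hx, d, f, hd, h1⟩ := hh
  obtain ⟨x', hx', k, hk⟩ := mid_z D hL h3 hn hl hx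
  obtain ⟨p, hp⟩ := z_top D hL h3 hn
  have hcast : ((L i - L j : ℕ) : ℤ) = (L i : ℤ) - L j := Nat.cast_sub hl.le
  refine ⟨x', hx', (k : Lau) - d * eta (L i - L j), d * eta (L i) + f * p, ?_, ?_⟩
  · have g1 : DegLe 0 (k : Lau) := by
      have : (k : Lau) = k • (1 : Lau) := by simp
      intro m hm
      rw [this]
      have h2 := (DegLe.one : DegLe 0 (1 : Lau)) m hm
      have h3 : (k • (1 : Lau)).coeff m = k • ((1 : Lau).coeff m) := rfl
      rw [h3, h2, smul_zero]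
    refine (g1.mono (by omega)).sub ?_
    have g2 := hd.mul (DegLe.eta (L i - L j))
    rwa [hcast] at g2
  · rw [h1, mul_add, mul_add, hk, mul_smul_comm, mul_smul_comm, zc_mid D hL h3 hn hl, hp,
      smul_sub, smul_smul, smul_smul, smul_smul, sub_smul, add_smul]
    abel

private theorem D06b_aux (hL : ∀ i, 0 < L i) {i j : B} {n : ℕ} (h3 : 3 ≤ M i j)
    (hn : M i j = 2 * n) (hl : L j < L i) {l : ℕ} (hl' : l < n) (k : ℕ) :
    XF D i j n ((k : ℤ) * (L i - L j)) (Sk D i j k * (Sk D i j l * D.c (cs.simple i))) := by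
  have hpos : (0 : ℤ) ≤ (L i : ℤ) - L j := by omega
  have h0 : XF D i j n 0 (Sk D i j l * D.c (cs.simple i)) := by
    rw [sk_i D hL h3 hn hl hl']
    by_cases h1 : l + 1 < n
    · refine ⟨_, AddSubgroup.subset_closure ⟨l, h1, rfl⟩, 0, 0, DegLe.zero, ?_⟩
      rw [zero_smul, zero_smul, add_zero, add_zero]
    · have e1 : 2 * n - 1 = 2 * l + 1 := by omega
      refine ⟨0, AddSubgroup.zero_mem _, 1, 0, DegLe.one, ?_⟩
      rw [e1, zero_smul, add_zero, one_smul, zero_add]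
  induction k using Nat.twoStepInduction with
  | zero =>
    have e1 : Sk D i j 0 = 1 := rfl
    rw [e1, one_mul, Nat.cast_zero, zero_mul]
    exact h0
  | one =>
    have e1 : Sk D i j 1 = Zc D i j := rfl
    rw [e1, Nat.cast_one, one_mul]
    have h1 := xf_z D hL h3 hn hl le_rfl h0
    rwa [zero_add] at h1
  | more k ih1 ih2 =>
    have e1 : Sk D i j (k + 2) = Zc D i j * Sk D i j (k + 1) - Sk D i j k := rfl
    rw [e1, sub_mul, mul_assoc]
    apply xf_sub
    · have h1 := xf_z D hL h3 hn hl (by positivity) ih2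
      refine xf_mono D h1 (le_of_eq ?_)
      push_cast
      ring
    · refine xf_mono D ih1 ?_
      push_cast
      nlinarith

theorem xf_sk (hL : ∀ i, 0 < L i) {i j : B} {n : ℕ} (h3 : 3 ≤ M i j) (hn : M i j = 2 * n)
    (hl : L j < L i) {k l : ℕ} (hk : k < n) (hl' : l < n) :
    XF D i j n ((k : ℤ) * (L i - L j)) (Sk D i j k * (Sk D i j l * D.c (cs.simple i))) ∧
    XF D i j n ((l : ℤ) * (L i - L j)) (Sk D i j k * (Sk D i j l * D.c (cs.simple i))) := by
  refine ⟨D06b_aux D hL h3 hn hl hl' k, ?_⟩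
  rw [← mul_assoc, sk_comm, mul_assoc]
  exact D06b_aux D hL h3 hn hl hk l

end Pool.Agent.Lib.KLT
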