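import Pool.Agent.Lib.MP_754fa1_al.T.D06b

/-!
# D06c. The products `C_p C_q`, unequal parameters

`M i j = 2 n`, `n ≥ 2`, `b = L j < a = L i`, `δ = al i j (2n-1)`, `w₀ = al i j (2n)`.
`tw l r k` (`l, r : Bool`): `al i j (2k+1)`, with an additional letter `j` on the left if `l`, and on the right if `r`.
`Vd n l r k`: `k < n` if `l = r = false`, `k + 1 < n` otherwise.

`tw_c`: `C(tw l r k) = (C_j if l) * (S_k C_i) * (C_j if r)`: `sk_i`, then `ue_j`, `ue_rj`, `ue_jj` (`C_j C(al i j (2k+1)) = C(al j i (2k+2))`, etc.).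
`tw_cases`: `w ∈ WP {i, j}` is `1`, `s_j`, `w₀` or `tw l r k` with `Vd n l r k` (`wp_pair`, parity of the length).

`KK r l' h`: `h ↦ η_i h` if `r = l' = false`; `Z h + η_{a-b} h` if exactly one is true; `η_j (Z h + η_{a-b} h)` if both are true. `kk_core`: for
`y = S_k (S_l C_i)`: `(S_k C_i) (C_j if r) (C_j if l') (S_l C_i) = KK r l' (S_k (S_l C_i))`: move the central `S_l` to the left (`sk_comm_i`,
`sk_comm_j`), and `C_i C_i = η_i C_i`, `C_i C_j C_i = Z C_i + zet C_i` (`zc_i` with `h = C_i`, `zet_eq`), `C_i C_j C_j C_i = η_j C_i C_j C_i`; finally `Z` commutes with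
`S_k` (`sk_comm_z`).
`tw_mul`: `C(tw l r k) C(tw l' r' k') = (C_j if l) * KK r l' (S_k (S_k' C_i)) * (C_j if r')`.

`YF e h`: `h = y + d C_δ + f C(w₀)`, `DegLe e d`, `y` in the additive group generated by the `p • C(al i j (2l+1))`, `l + 1 < n`, `DegLe a p`.
`yf_kk`: if `XF e h` then `YF (a + e) (KK false false h)`, `YF 0 (KK true false h)`, `YF 0 (KK false true h)`, `YF b (KK true true h)`:
write `h = x + d C_δ + f C(w₀)`; `η_i x` etc. by closure induction. `Z h + η_{a-b} h = x' + k C_δ + η_{a-b} x + d (Z C_δ + η_{a-b} C_δ) + (multiple of C(w₀))`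
(`mid_z`, `z_top`), and `Z C_δ + η_{a-b} C_δ = η_i C(w₀)` (`zc_mid`). So the coefficient of `C_δ` is the integer `k`; `η_{a-b} x`, `x'` have coefficients of degree
`≤ a - b`; times `η_j`: degree `≤ a`, and `η_j k` has degree `≤ b`.
-/

open LaurentPolynomial
open Pool.Agent.Lib.MP_754fa1_al

namespace Pool.Agent.Lib.KLT

universe u v w

variable {B : Type u} {W : Type v} [Group W] {M : CoxeterMatrix B}

/-- `al i j (2k+1)` with an additional letter `j` on the left or on the right -/
def tw (cs : CoxeterSystem M W) (i j : B) : Bool → Bool → ℕ → W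
  | false, false, k => al cs i j (2 * k + 1)
  | true, false, k => al cs j i (2 * k + 2)
  | false, true, k => al cs i j (2 * k + 2)
  | true, true, k => al cs j i (2 * k + 3)

/-- the range of `k` -/
def Vd (n : ℕ) : Bool → Bool → ℕ → Prop
  | false, false, k => k < n
  | true, false, k => k + 1 < n
  | false, true, k => k + 1 < n
  | true, true, k => k + 1 < n

variable {cs : CoxeterSystem M W} {L : B → ℕ} {H : Type w} [Ring H] [Algebra Lau H]

/-- `C_j` or `1` -/
noncomputable def bj (D : KL cs L H) (j : B) : Bool → H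
  | true => D.c (cs.simple j)
  | false => 1

/-- the operators of the products -/
noncomputable def KK (D : KL cs L H) (i j : B) : Bool → Bool → H → H
  | false, false, h => eta (L i) • h
  | true, false, h => Zc D i j * h + eta (L i - L j) • h
  | false, true, h => Zc D i j * h + eta (L i - L j) • h
  | true, true, h => eta (L j) • (Zc D i j * h + eta (L i - L j) • h)

/-- combinations of the `C(al i j (2l+1))`, `l + 1 < n`, with coefficients of degree `≤ L i` -/
noncomputable def MidA (D : KL cs L H) (i j : B) (n : ℕ) : AddSubgroup H :=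
  AddSubgroup.closure {h | ∃ (l : ℕ) (p : Lau), l + 1 < n ∧ DegLe (L i) p ∧
    h = p • D.c (al cs i j (2 * l + 1))}

/-- `h = y + d C_δ + f C(w₀)` -/
def YF (D : KL cs L H) (i j : B) (n : ℕ) (e : ℤ) (h : H) : Prop :=
  ∃ y ∈ MidA D i j n, ∃ d f : Lau, DegLe e d ∧
    h = y + d • D.c (al cs i j (2 * n - 1)) + f • D.c (al cs i j (2 * n))

theorem tw_cases (cs : CoxeterSystem M W) {i j : B} {n : ℕ} (h3 : 3 ≤ M i j)
    (hn : M i j = 2 * n) {w : W} (hw : w ∈ WP cs {i, j}) :
    w = 1 ∨ w = cs.simple j ∨ w = al cs i j (2 * n) ∨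
      ∃ (l r : Bool) (k : ℕ), Vd n l r k ∧ w = tw cs i j l r k := by
  have hij : i ≠ j := by
    rintro rfl
    rw [M.diagonal] at h3
    omega
  obtain ⟨k, hk, hw⟩ := (wp_pair cs hij).1 hw
  have hk' : k ≤ 2 * n := by omega
  have htop : al cs i j (2 * n) = al cs j i (2 * n) := by
    rw [← hn]
    exact al_top cs i j (by omega)
  rcases Nat.eq_zero_or_pos k with rfl | hk0
  · left
    rcases hw with hw | hw
    · rw [hw, al]
    · rw [hw, al]
  rcases eq_or_lt_of_le hk' with rfl | hkn
  · right; right; left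
    rcases hw with hw | hw
    · exact hw
    · rw [hw, htop]
  rcases Nat.even_or_odd' k with ⟨l, rfl | rfl⟩
  · obtain ⟨l, rfl⟩ : ∃ l', l = l' + 1 := ⟨l - 1, by omega⟩
    right; right; right
    rcases hw with hw | hw
    · refine ⟨false, true, l, ?_, ?_⟩
      · show l + 1 < n
        omega
      · rw [hw]
        rfl
    · refine ⟨true, false, l, ?_, ?_⟩
      · show l + 1 < n
        omega
      · rw [hw]
        rfl
  · rcases hw with hw | hw
    · right; right; right
      refine ⟨false, false, l, ?_, ?_⟩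
      · show l < n
        omega
      · rw [hw]
        rfl
    · rcases Nat.eq_zero_or_pos l with rfl | hl
      · right; left
        rw [hw]
        show cs.simple j * 1 = cs.simple j
        rw [mul_one]
      · obtain ⟨l, rfl⟩ : ∃ l', l = l' + 1 := ⟨l - 1, by omega⟩
        right; right; right
        refine ⟨true, true, l, ?_, ?_⟩
        · show l + 1 < n
          omega
        · rw [hw]
          rfl

variable (D : KL cs L H)

theorem tw_c (hL : ∀ i, 0 < L i) {i j : B} {n : ℕ} (h3 : 3 ≤ M i j) (hn : M i j = 2 * n)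
    (hl : L j < L i) {l r : Bool} {k : ℕ} (hk : Vd n l r k) :
    D.c (tw cs i j l r k) = bj D j l * (Sk D i j k * D.c (cs.simple i)) * bj D j r := by
  have hkn : k < n := by
    cases l <;> cases r
    · exact hk
    · exact (Nat.lt_succ_self k).trans hk
    · exact (Nat.lt_succ_self k).trans hk
    · exact (Nat.lt_succ_self k).trans hk
  rw [sk_i D hL h3 hn hl hkn]
  cases l <;> cases r
  · show D.c (al cs i j (2 * k + 1)) = 1 * D.c (al cs i j (2 * k + 1)) * 1
    rw [one_mul, mul_one]
  · show D.c (al cs i j (2 * k + 2)) = 1 * D.c (al cs i j (2 * k + 1)) * D.c (cs.simple j)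
    rw [one_mul, ue_rj D hL h3 hn hl hkn]
  · show D.c (al cs j i (2 * k + 2)) = D.c (cs.simple j) * D.c (al cs i j (2 * k + 1)) * 1
    rw [mul_one, ue_j D hL h3 hn hl hkn]
  · show D.c (al cs j i (2 * k + 3)) =
      D.c (cs.simple j) * D.c (al cs i j (2 * k + 1)) * D.c (cs.simple j)
    rw [ue_j D hL h3 hn hl hkn, ue_jj D hL h3 hn hl hk]

private theorem D06c_sq (hL : ∀ i, 0 < L i) (i : B) :
    D.c (cs.simple i) * D.c (cs.simple i) = eta (L i) • D.c (cs.simple i) := by
  apply D.cs_mul_c hL
  rw [cs.isLeftDescent_iff, cs.simple_mul_simple_self, cs.length_one, cs.length_simple]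

private theorem D06c_core (hL : ∀ i, 0 < L i) {i j : B} (hl : L j < L i) (r l' : Bool)
    (k k' : ℕ) :
    (Sk D i j k * D.c (cs.simple i)) * bj D j r * bj D j l' * (Sk D i j k' * D.c (cs.simple i)) =
      KK D i j r l' (Sk D i j k * (Sk D i j k' * D.c (cs.simple i))) := by
  have hx := D06c_sq D hL i
  have hy := D06c_sq D hL j
  have hZ : D.c (cs.simple i) * (D.c (cs.simple j) * D.c (cs.simple i)) =
      Zc D i j * D.c (cs.simple i) + eta (L i - L j) • D.c (cs.simple i) := by
    rw [zc_i D hx, zet_eq hl.le, sub_add_cancel]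
  have c1 := sk_comm_i D hL i j k'
  have c2 := sk_comm_j D hL i j k'
  have c3 := sk_comm_z D i j k'
  have c4 := sk_comm_z D i j k
  generalize Sk D i j k = s at *
  generalize Sk D i j k' = s' at *
  generalize D.c (cs.simple i) = x at *
  have e1 : s * x * (s' * x) = eta (L i) • (s * (s' * x)) := by
    rw [mul_assoc, ← mul_assoc x, ← c1, mul_assoc s' x x, hx, mul_smul_comm, mul_smul_comm]
  have e2 : s * x * D.c (cs.simple j) * (s' * x) =
      Zc D i j * (s * (s' * x)) + eta (L i - L j) • (s * (s' * x)) := by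
    have e3 : s * x * D.c (cs.simple j) * (s' * x) =
        s * (s' * (x * (D.c (cs.simple j) * x))) := by
      rw [mul_assoc (s * x), ← mul_assoc (D.c (cs.simple j)) s', ← c2, mul_assoc s x,
        mul_assoc s' (D.c (cs.simple j)), ← mul_assoc x s', ← c1, mul_assoc s' x]
    rw [e3, hZ, mul_add, mul_add, mul_smul_comm, mul_smul_comm]
    congr 1
    rw [← mul_assoc s', c3, mul_assoc (Zc D i j), ← mul_assoc s, c4, mul_assoc (Zc D i j)]
  cases r <;> cases l'
  · show s * x * 1 * 1 * (s' * x) = eta (L i) • (s * (s' * x))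
    rw [mul_one, mul_one, e1]
  · show s * x * 1 * D.c (cs.simple j) * (s' * x) =
      Zc D i j * (s * (s' * x)) + eta (L i - L j) • (s * (s' * x))
    rw [mul_one, e2]
  · show s * x * D.c (cs.simple j) * 1 * (s' * x) =
      Zc D i j * (s * (s' * x)) + eta (L i - L j) • (s * (s' * x))
    rw [mul_one, e2]
  · show s * x * D.c (cs.simple j) * D.c (cs.simple j) * (s' * x) =
      eta (L j) • (Zc D i j * (s * (s' * x)) + eta (L i - L j) • (s * (s' * x)))
    rw [mul_assoc (s * x) (D.c (cs.simple j)) (D.c (cs.simple j)), hy, mul_smul_comm,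
      smul_mul_assoc, e2]

theorem tw_mul (hL : ∀ i, 0 < L i) {i j : B} {n : ℕ} (h3 : 3 ≤ M i j) (hn : M i j = 2 * n)
    (hl : L j < L i) {l r l' r' : Bool} {k k' : ℕ} (hk : Vd n l r k) (hk' : Vd n l' r' k') :
    D.c (tw cs i j l r k) * D.c (tw cs i j l' r' k') =
      bj D j l * KK D i j r l' (Sk D i j k * (Sk D i j k' * D.c (cs.simple i))) * bj D j r' := by
  rw [tw_c D hL h3 hn hl hk, tw_c D hL h3 hn hl hk', ← D06c_core D hL hl]
  simp only [mul_assoc]

private theorem D06c_int (k : ℤ) : DegLe 0 (k : Lau) := by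
  have hnat : ∀ m : ℕ, DegLe 0 ((m : ℕ) : Lau) := by
    intro m
    induction m with
    | zero => rw [Nat.cast_zero]; exact DegLe.zero
    | succ m ih => rw [Nat.cast_succ]; exact ih.add DegLe.one
  obtain ⟨m, rfl | rfl⟩ := k.eq_nat_or_neg
  · rw [Int.cast_natCast]
    exact hnat m
  · rw [Int.cast_neg, Int.cast_natCast]
    exact (hnat m).neg

private theorem D06c_smul {i j : B} {n : ℕ} {p : Lau} (hp : DegLe (L i) p) {x : H}
    (hx : x ∈ Mid D i j n) : p • x ∈ MidA D i j n := by
  unfold Mid at hx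
  induction hx using AddSubgroup.closure_induction with
  | mem x hx =>
    obtain ⟨l, hl, rfl⟩ := hx
    exact AddSubgroup.subset_closure ⟨l, p, hl, hp, rfl⟩
  | zero => rw [smul_zero]; exact zero_mem _
  | add x y _ _ hx hy => rw [smul_add]; exact add_mem hx hy
  | neg x _ hx => rw [smul_neg]; exact neg_mem hx

theorem yf_kk (hL : ∀ i, 0 < L i) {i j : B} {n : ℕ} (h3 : 3 ≤ M i j) (hn : M i j = 2 * n)
    (hl : L j < L i) {e : ℤ} {h : H} (hh : XF D i j n e h) :
    YF D i j n (L i + e) (KK D i j false false h) ∧ YF D i j n 0 (KK D i j true false h) ∧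
    YF D i j n 0 (KK D i j false true h) ∧ YF D i j n (L j) (KK D i j true true h) := by
  obtain ⟨x, hx, d, f, hd, rfl⟩ := hh
  obtain ⟨x', hx', k, hk⟩ := mid_z D hL h3 hn hl hx
  obtain ⟨p, hp⟩ := z_top D hL h3 hn
  have hmid := zc_mid D hL h3 hn hl
  have hsum : Zc D i j * (x + d • D.c (al cs i j (2 * n - 1)) + f • D.c (al cs i j (2 * n))) +
      eta (L i - L j) • (x + d • D.c (al cs i j (2 * n - 1)) + f • D.c (al cs i j (2 * n))) =
      ((1 : Lau) • x' + eta (L i - L j) • x) + (k : Lau) • D.c (al cs i j (2 * n - 1)) +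
        (d * eta (L i) + f * p + eta (L i - L j) * f) • D.c (al cs i j (2 * n)) := by
    rw [mul_add, mul_add, mul_smul_comm, mul_smul_comm, hk, hp, hmid]
    simp only [smul_add, smul_sub, add_smul, smul_smul, one_smul]
    rw [mul_comm (eta (L i - L j)) d]
    abel
  have hab : DegLe (L i) (eta (L i - L j)) := (DegLe.eta _).mono (by omega)
  have hj : DegLe (L i) (eta (L j)) := (DegLe.eta _).mono (by omega)
  have h2 : YF D i j n 0 (Zc D i j *
      (x + d • D.c (al cs i j (2 * n - 1)) + f • D.c (al cs i j (2 * n))) +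
      eta (L i - L j) • (x + d • D.c (al cs i j (2 * n - 1)) + f • D.c (al cs i j (2 * n)))) :=
    ⟨_, add_mem (D06c_smul D (DegLe.one.mono (by omega)) hx') (D06c_smul D hab hx), _, _,
      D06c_int k, hsum⟩
  refine ⟨?_, h2, h2, ?_⟩
  · refine ⟨eta (L i) • x, D06c_smul D (DegLe.eta _) hx, eta (L i) * d, eta (L i) * f,
      (DegLe.eta _).mul hd, ?_⟩
    show eta (L i) • (x + d • D.c (al cs i j (2 * n - 1)) + f • D.c (al cs i j (2 * n))) = _
    rw [smul_add, smul_add, smul_smul, smul_smul]
  · refine ⟨eta (L j) • x' + (eta (L j) * eta (L i - L j)) • x,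
      add_mem (D06c_smul D hj hx') (D06c_smul D ?_ hx), eta (L j) * (k : Lau),
      eta (L j) * (d * eta (L i) + f * p + eta (L i - L j) * f), ?_, ?_⟩
    · exact ((DegLe.eta _).mul (DegLe.eta _)).mono (by omega)
    · exact ((DegLe.eta _).mul (D06c_int k)).mono (by omega)
    · show eta (L j) • (Zc D i j *
        (x + d • D.c (al cs i j (2 * n - 1)) + f • D.c (al cs i j (2 * n))) +
        eta (L i - L j) • (x + d • D.c (al cs i j (2 * n - 1)) + f • D.c (al cs i j (2 * n)))) = _
      rw [hsum]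
      simp only [smul_add, smul_smul, one_smul, mul_one]

end Pool.Agent.Lib.KLT
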