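import Pool.Agent.Lib.MP_754fa1_al.T.D06c

/-!
# D06d. Coordinates of the products, unequal parameters

Notation of D06c. `yf_coord`: let `YF e h` and `w ≠ w₀` with non-zero coordinate in `(C_j if l) * h * (C_j if r)`. Then either `w = tw l r m`, `m + 1 < n`,
and the coordinate has degree `≤ L i`, or `l = r = false`, `w = δ`, and the coordinate has degree `≤ e`.
Proof: `h = y + d C_δ + f C(w₀)`. The generators of `MidA`: `p • C(al i j (2m+1))` becomes `p • C(tw l r m)` (`ue_j`, `ue_rj`, `ue_jj` resp. `ue_jj'`). If `l` or `r` is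
true, `C_δ` becomes `C(w₀)` or `η_j C(w₀)` (`ue_mid_j`, `pair_top_rd`, `cs_mul_c`, `c_mul_cs`). `C(w₀)` becomes a multiple of `C(w₀)`. The `tw l r m` (`m + 1 < n`), `δ`, `w₀` are
distinct for distinct `m` (lengths), so the coordinate of a sum at `tw l r m` is the sum of the coefficients (`D.cB.repr` is linear, `cB_apply`): prove by closure
induction that for `y ∈ MidA` the coordinates of `(C_j if l) * y * (C_j if r)` are zero outside `{tw l r m | m + 1 < n}` and have degree `≤ L i`.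

`prod_tw`: `p = tw l r k`, `q = tw l' r' k'` valid: the coordinate of `C_p C_q` at `w ≠ w₀`: by `tw_mul`, `xf_sk` (the second form, bound `k' (a-b)`), `yf_kk`, `yf_coord`:
if non-zero then `w = tw l r' m`, `m + 1 < n`, of degree `≤ L i`; or `l = r' = false`, `w = δ`, of degree `≤ e'` where `e' = a + k'(a - b)` if `r = l' = false`,
and `e' ≤ b` otherwise. In the second case: `k' ≤ n - 1`, so `e' ≤ a + (n-1)(a-b) = n a - (n-1) b`, and `e' < n a - (n-1) b` unless `r = l' = false` and `k' = n - 1`,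
i.e. `q = tw false false (n-1) = δ`.
-/

open LaurentPolynomial
open Pool.Agent.Lib.MP_754fa1_al

namespace Pool.Agent.Lib.KLT

universe u v w

variable {B : Type u} {W : Type v} [Group W] {M : CoxeterMatrix B}
variable {cs : CoxeterSystem M W} {L : B → ℕ} {H : Type w} [Ring H] [Algebra Lau H]
variable (D : KL cs L H)

private theorem D06d_ne {w z : W} (h : w ≠ z) : D.cB.repr (D.c w) z = 0 := by
  rw [← D.cB_apply, D.cB.repr_self, Finsupp.single_eq_of_ne (Ne.symm h)]

private theorem D06d_eq (w : W) : D.cB.repr (D.c w) w = 1 := by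
  rw [← D.cB_apply, D.cB.repr_self, Finsupp.single_eq_same]

private theorem D06d_gen (hL : ∀ i, 0 < L i) {i j : B} {n : ℕ} (h3 : 3 ≤ M i j)
    (hn : M i j = 2 * n) (hl : L j < L i) (l r : Bool) {m : ℕ} (hm : m + 1 < n) :
    bj D j l * D.c (al cs i j (2 * m + 1)) * bj D j r = D.c (tw cs i j l r m) := by
  have hv : Vd n l r m := by
    cases l <;> cases r
    · exact (Nat.lt_succ_self m).trans hm
    · exact hm
    · exact hm
    · exact hm
  rw [tw_c D hL h3 hn hl hv, sk_i D hL h3 hn hl (by omega)]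

private theorem D06d_top (hL : ∀ i, 0 < L i) {i j : B} {n : ℕ} (h3 : 3 ≤ M i j)
    (hn : M i j = 2 * n) (l r : Bool) :
    ∃ p : Lau, bj D j l * D.c (al cs i j (2 * n)) * bj D j r = p • D.c (al cs i j (2 * n)) := by
  have hij : i ≠ j := ne_of_three h3
  obtain ⟨-, h1, -, h2⟩ := pair_top_rd cs hij (show M i j ≠ 0 by omega)
  rw [hn] at h1 h2
  have e1 := c_mul_cs D hL h1
  have e2 := D.cs_mul_c hL h2
  cases l <;> cases r
  · exact ⟨1, by
      show 1 * D.c (al cs i j (2 * n)) * 1 = _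
      rw [one_mul, mul_one, one_smul]⟩
  · exact ⟨eta (L j), by
      show 1 * D.c (al cs i j (2 * n)) * D.c (cs.simple j) = _
      rw [one_mul, e1]⟩
  · exact ⟨eta (L j), by
      show D.c (cs.simple j) * D.c (al cs i j (2 * n)) * 1 = _
      rw [mul_one, e2]⟩
  · exact ⟨eta (L j) * eta (L j), by
      show D.c (cs.simple j) * D.c (al cs i j (2 * n)) * D.c (cs.simple j) = _
      rw [e2, smul_mul_assoc, e1, smul_smul]⟩

private theorem D06d_del (hL : ∀ i, 0 < L i) {i j : B} {n : ℕ} (h3 : 3 ≤ M i j)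
    (hn : M i j = 2 * n) (hl : L j < L i) (l r : Bool) :
    (l = false ∧ r = false) ∨ ∃ p : Lau,
      bj D j l * D.c (al cs i j (2 * n - 1)) * bj D j r = p • D.c (al cs i j (2 * n)) := by
  obtain ⟨m1, m2⟩ := ue_mid_j D hL h3 hn hl
  have hij : i ≠ j := ne_of_three h3
  obtain ⟨-, h1, -, -⟩ := pair_top_rd cs hij (show M i j ≠ 0 by omega)
  rw [hn] at h1
  have e1 := c_mul_cs D hL h1
  cases l <;> cases r
  · exact Or.inl ⟨rfl, rfl⟩
  · exact Or.inr ⟨1, by
      show 1 * D.c (al cs i j (2 * n - 1)) * D.c (cs.simple j) = _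
      rw [one_mul, m2, one_smul]⟩
  · exact Or.inr ⟨1, by
      show D.c (cs.simple j) * D.c (al cs i j (2 * n - 1)) * 1 = _
      rw [mul_one, m1, one_smul]⟩
  · exact Or.inr ⟨eta (L j), by
      show D.c (cs.simple j) * D.c (al cs i j (2 * n - 1)) * D.c (cs.simple j) = _
      rw [m1, e1]⟩

private theorem D06d_mid (hL : ∀ i, 0 < L i) {i j : B} {n : ℕ} (h3 : 3 ≤ M i j)
    (hn : M i j = 2 * n) (hl : L j < L i) (l r : Bool) (w : W) {y : H}
    (hy : y ∈ MidA D i j n) :
    (D.cB.repr (bj D j l * y * bj D j r) w ≠ 0 → ∃ m, m + 1 < n ∧ w = tw cs i j l r m) ∧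
      DegLe (L i) (D.cB.repr (bj D j l * y * bj D j r) w) := by
  unfold MidA at hy
  induction hy using AddSubgroup.closure_induction with
  | mem h hh =>
    obtain ⟨m, p, hm, hp, rfl⟩ := hh
    rw [mul_smul_comm, smul_mul_assoc, D06d_gen D hL h3 hn hl l r hm, map_smul,
      Finsupp.smul_apply, smul_eq_mul]
    by_cases hw : tw cs i j l r m = w
    · rw [← hw, D06d_eq, mul_one]
      exact ⟨fun _ => ⟨m, hm, rfl⟩, hp⟩
    · rw [D06d_ne D hw, mul_zero]
      exact ⟨fun h => absurd rfl h, DegLe.zero⟩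
  | zero =>
    rw [mul_zero, zero_mul, map_zero, Finsupp.zero_apply]
    exact ⟨fun h => absurd rfl h, DegLe.zero⟩
  | add u v _ _ hu hv =>
    rw [mul_add, add_mul, map_add, Finsupp.add_apply]
    refine ⟨fun h => ?_, hu.2.add hv.2⟩
    by_cases h0 : D.cB.repr (bj D j l * u * bj D j r) w = 0
    · rw [h0, zero_add] at h
      exact hv.1 h
    · exact hu.1 h0
  | neg u _ hu =>
    rw [mul_neg, neg_mul, map_neg, Finsupp.neg_apply]
    exact ⟨fun h => hu.1 (fun h0 => h (by rw [h0, neg_zero])), hu.2.neg⟩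

theorem yf_coord (hL : ∀ i, 0 < L i) {i j : B} {n : ℕ} (h3 : 3 ≤ M i j) (hn : M i j = 2 * n)
    (hl : L j < L i) {e : ℤ} {h : H} (hh : YF D i j n e h) (l r : Bool) {w : W}
    (hw : w ≠ al cs i j (2 * n)) (hc : D.cB.repr (bj D j l * h * bj D j r) w ≠ 0) :
    (∃ m, m + 1 < n ∧ w = tw cs i j l r m ∧
      DegLe (L i) (D.cB.repr (bj D j l * h * bj D j r) w)) ∨
    (l = false ∧ r = false ∧ w = al cs i j (2 * n - 1) ∧
      DegLe e (D.cB.repr (bj D j l * h * bj D j r) w)) := by
  have hij : i ≠ j := ne_of_three h3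
  obtain ⟨y, hy, d, f, hd, rfl⟩ := hh
  obtain ⟨p, hp⟩ := D06d_top D hL h3 hn l r
  obtain ⟨hy1, hy2⟩ := D06d_mid D hL h3 hn hl l r w hy
  have hx : D.cB.repr (bj D j l * (y + d • D.c (al cs i j (2 * n - 1)) +
      f • D.c (al cs i j (2 * n))) * bj D j r) w =
      D.cB.repr (bj D j l * y * bj D j r) w +
        d * D.cB.repr (bj D j l * D.c (al cs i j (2 * n - 1)) * bj D j r) w := by
    rw [mul_add, mul_add, add_mul, add_mul, mul_smul_comm, mul_smul_comm, smul_mul_assoc,
      smul_mul_assoc, hp, map_add, map_add, map_smul, map_smul, map_smul, Finsupp.add_apply,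
      Finsupp.add_apply, Finsupp.smul_apply, Finsupp.smul_apply, Finsupp.smul_apply,
      D06d_ne D (Ne.symm hw), smul_zero, smul_zero, add_zero, smul_eq_mul]
  rw [hx] at hc ⊢
  rcases D06d_del D hL h3 hn hl l r with ⟨hl0, hr0⟩ | ⟨p', hp'⟩
  · subst hl0 hr0
    have e0 : bj D j false * D.c (al cs i j (2 * n - 1)) * bj D j false =
        D.c (al cs i j (2 * n - 1)) := by
      show 1 * D.c (al cs i j (2 * n - 1)) * 1 = _
      rw [one_mul, mul_one]
    rw [e0] at hc ⊢
    by_cases hwd : al cs i j (2 * n - 1) = w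
    · right
      have h0 : D.cB.repr (bj D j false * y * bj D j false) w = 0 := by
        by_contra h0
        obtain ⟨m, hm, hm2⟩ := hy1 h0
        have l1 : cs.length (al cs i j (2 * n - 1)) = 2 * n - 1 :=
          len_al cs hij (Or.inl (by omega))
        have l2 : cs.length (al cs i j (2 * m + 1)) = 2 * m + 1 :=
          len_al cs hij (Or.inl (by omega))
        have l3 : w = al cs i j (2 * m + 1) := hm2
        rw [hwd, l3, l2] at l1
        omega
      rw [h0, ← hwd, D06d_eq, zero_add, mul_one]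
      exact ⟨rfl, rfl, rfl, hd⟩
    · left
      rw [D06d_ne D hwd, mul_zero, add_zero] at hc ⊢
      obtain ⟨m, hm, hm2⟩ := hy1 hc
      exact ⟨m, hm, hm2, hy2⟩
  · left
    rw [hp', map_smul, Finsupp.smul_apply, D06d_ne D (Ne.symm hw), smul_zero, mul_zero,
      add_zero] at hc ⊢
    obtain ⟨m, hm, hm2⟩ := hy1 hc
    exact ⟨m, hm, hm2, hy2⟩

theorem prod_tw (hL : ∀ i, 0 < L i) {i j : B} {n : ℕ} (h3 : 3 ≤ M i j) (hn : M i j = 2 * n)
    (hl : L j < L i) {l r l' r' : Bool} {k k' : ℕ} (hk : Vd n l r k) (hk' : Vd n l' r' k')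
    {w : W} (hw : w ≠ al cs i j (2 * n))
    (hc : D.cB.repr (D.c (tw cs i j l r k) * D.c (tw cs i j l' r' k')) w ≠ 0) :
    (∃ m, m + 1 < n ∧ w = tw cs i j l r' m ∧
      DegLe (L i) (D.cB.repr (D.c (tw cs i j l r k) * D.c (tw cs i j l' r' k')) w)) ∨
    (w = al cs i j (2 * n - 1) ∧
      ((tw cs i j l' r' k' = al cs i j (2 * n - 1) ∧
        DegLe ((n * L i - (n - 1) * L j : ℕ) : ℤ)
          (D.cB.repr (D.c (tw cs i j l r k) * D.c (tw cs i j l' r' k')) w)) ∨
       DegLe (((n * L i - (n - 1) * L j : ℕ) : ℤ) - 1)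
          (D.cB.repr (D.c (tw cs i j l r k) * D.c (tw cs i j l' r' k')) w))) := by
  have hkn : k < n := by
    cases l <;> cases r
    · exact hk
    · exact (Nat.lt_succ_self k).trans hk
    · exact (Nat.lt_succ_self k).trans hk
    · exact (Nat.lt_succ_self k).trans hk
  have hkn' : k' < n := by
    cases l' <;> cases r'
    · exact hk'
    · exact (Nat.lt_succ_self k').trans hk'
    · exact (Nat.lt_succ_self k').trans hk'
    · exact (Nat.lt_succ_self k').trans hk'
  have hxf := (xf_sk D hL h3 hn hl hkn hkn').2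
  obtain ⟨y1, y2, y3, y4⟩ := yf_kk D hL h3 hn hl hxf
  have hcast : ((n * L i - (n - 1) * L j : ℕ) : ℤ) = (L i : ℤ) + ((n : ℤ) - 1) * (L i - L j) := by
    have hle : (n - 1) * L j ≤ n * L i := Nat.mul_le_mul (Nat.sub_le _ _) hl.le
    rw [Nat.cast_sub hle]
    obtain ⟨m, rfl⟩ : ∃ m, n = m + 1 := ⟨n - 1, by omega⟩
    push_cast [Nat.add_sub_cancel]
    ring
  have hpos : (1 : ℤ) ≤ (L i : ℤ) - L j := by omega
  have hLi : (1 : ℤ) ≤ L i := by have := hL i; omega
  have hLj : (1 : ℤ) ≤ L j := by have := hL j; omega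
  have hn1 : (1 : ℤ) ≤ n := by omega
  have hprod : 0 ≤ ((n : ℤ) - 1) * (L i - L j) := mul_nonneg (by omega) (by omega)
  rw [hcast]
  rw [tw_mul D hL h3 hn hl hk hk'] at hc ⊢
  cases r <;> cases l'
  · rcases yf_coord D hL h3 hn hl y1 l r' hw hc with h | ⟨h1, h2, h4, h5⟩
    · exact Or.inl h
    · refine Or.inr ⟨h4, ?_⟩
      by_cases hk2 : k' = n - 1
      · left
        subst h2
        refine ⟨?_, h5.mono (le_of_eq ?_)⟩
        · show al cs i j (2 * k' + 1) = _
          have : 2 * k' + 1 = 2 * n - 1 := by omega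
          rw [this]
        · have : (k' : ℤ) = (n : ℤ) - 1 := by omega
          rw [this]
      · right
        refine h5.mono ?_
        have h6 : (k' : ℤ) + 1 ≤ (n : ℤ) - 1 := by omega
        nlinarith
  · rcases yf_coord D hL h3 hn hl y3 l r' hw hc with h | ⟨h1, h2, h4, h5⟩
    · exact Or.inl h
    · exact Or.inr ⟨h4, Or.inr (h5.mono (by omega))⟩
  · rcases yf_coord D hL h3 hn hl y2 l r' hw hc with h | ⟨h1, h2, h4, h5⟩
    · exact Or.inl h
    · exact Or.inr ⟨h4, Or.inr (h5.mono (by omega))⟩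
  · rcases yf_coord D hL h3 hn hl y4 l r' hw hc with h | ⟨h1, h2, h4, h5⟩
    · exact Or.inl h
    · exact Or.inr ⟨h4, Or.inr (h5.mono (by omega))⟩

end Pool.Agent.Lib.KLT
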