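import Pool.Agent.Lib.MP_754fa1_al.T.D06d
import Pool.Agent.Lib.MP_754fa1_al.T.D05

/-!
# D06e. `O1` for unequal parameters, away from `w₀`

`M i j = 2 n`, `b = L j < a = L i`. For `p, q, w ∈ WP {i, j}`, `w ≠ w₀ = al i j (2n)`: the coordinate of `C_p C_q` at `w` has degree `≤ av w`, and if its coefficient at
`av w` is non-zero then `Cs w q`.

`av_tw`: `av (tw l r m) = L i` for `m + 1 < n` (`av_other`; `i ∈ spt`; it is not `w₀`, nor `al i j (2n-1)`, by lengths); `av_mid` for `δ`.
`cs_tw`: `Cs (tw l r m) (tw l' r k)` for `m + 1 < n`, `Vd n l' r k`: if `r = false`: `u = s_i` is a suffix of both (`Suf` from `rd_al` or `al_snoc`), `av s_i = L i`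
(`av_simple`). If `r = true`: `u = al i j 2`, a suffix of both: `al i j (2k+2) = al i j (2k) * al i j 2`, `al j i (2k+3) = al j i (2k+1) * al i j 2` (`al_add`, `len_al`), and `av u = L i`
(`av_other`: `i ∈ spt`, length `2 < 2 n - 1`).

Cases (`tw_cases` for `p` and `q`):
* `p = 1` : `C_p C_q = C_q` (`c_one`): coordinate `1` at `w = q`, degree `0 ≤ av q`; `Cs q q` trivially. `q = 1`: coordinate `1` at `w = p`; the coefficient at `av p` is non-zero only if
  `av p = 0`, i.e. `p = 1 = q` (`av_pos`).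
* `p = w₀` or `q = w₀`: `C_p C_q` is a multiple of `C(w₀)` (`top_absorb`, `hp_c`), coordinate `0` at `w ≠ w₀`.
* `p = q = s_j`: `η_j C_j`, degree `b = av s_j`, `Cs s_j s_j`.
* `p = s_j`, `q = tw l' r' k'`: if `l' = true`: `j` is a left descent of `q`: `η_j C_q`, degree `b < a ≤ av q` (`cs_mul_c`). If `l' = false`: `C_j C_q = C(tw true r' k')` or `C(w₀)`:
  (`ue_j`, `ue_jj'`): coordinate `1`, degree `0 < av`, as the element is `≠ 1`.
* `q = s_j`, `p = tw l r k`: `r = true`: `η_j C_p` (`c_mul_cs`), degree `b < av p`. `r = false`: `C_p C_j = C(tw l true k)` or `C(w₀)` (`ue_rj`, `ue_jj`).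
* both `tw`: `prod_tw`, `av_tw`, `cs_tw`; for `w = δ`: if `q = δ`, `Cs δ δ`; otherwise the degree is `≤ av δ - 1`.
-/

open LaurentPolynomial
open Pool.Agent.Lib.MP_754fa1_al

namespace Pool.Agent.Lib.KLT

universe u v w

variable {B : Type u} {W : Type v} [Group W] {M : CoxeterMatrix B} [Finite B]
variable {cs : CoxeterSystem M W} {L : B → ℕ} {H : Type w} [Ring H] [Algebra Lau H]
variable (D : KL cs L H)

omit [Finite B] in
private theorem D06e_ne {i j : B} (h3 : 3 ≤ M i j) : i ≠ j := by
  rintro rfl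
  rw [M.diagonal] at h3
  omega

omit [Finite B] in
private theorem D06e_len (cs : CoxeterSystem M W) {i j : B} {n : ℕ} (h3 : 3 ≤ M i j)
    (hn : M i j = 2 * n) {k : ℕ} (hk : k ≤ 2 * n) :
    cs.length (al cs i j k) = k ∧ cs.length (al cs j i k) = k := by
  have hij := D06e_ne h3
  have hs : M j i = M i j := M.symmetric j i
  exact ⟨len_al cs hij (Or.inl (by omega)), len_al cs hij.symm (Or.inl (by omega))⟩

theorem av_tw (cs : CoxeterSystem M W) (hE : OddEq M L) {i j : B} {n : ℕ} (h3 : 3 ≤ M i j)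
    (hn : M i j = 2 * n) (hl : L j < L i) {l r : Bool} {m : ℕ} (hm : m + 1 < n) :
    av cs L (tw cs i j l r m) = L i := by
  have hij := D06e_ne h3
  have hs : M j i = M i j := M.symmetric j i
  have hmem : tw cs i j l r m ∈ WP cs {i, j} := by
    cases l <;> cases r
    · exact al_mem cs i j _
    · exact al_mem cs i j _
    · rw [Set.pair_comm]
      exact al_mem cs j i _
    · rw [Set.pair_comm]
      exact al_mem cs j i _
  have hspt : i ∈ spt cs (tw cs i j l r m) := by
    have h1 : ∀ k, 2 ≤ k → k ≤ 2 * n → i ∈ spt cs (al cs i j k) := by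
      intro k hk hk'
      rw [spt_al cs hij hk (Or.inl (by omega))]
      exact Or.inl rfl
    have h2 : ∀ k, 2 ≤ k → k ≤ 2 * n → i ∈ spt cs (al cs j i k) := by
      intro k hk hk'
      rw [spt_al cs hij.symm hk (Or.inl (by omega))]
      exact Or.inr rfl
    cases l <;> cases r
    · show i ∈ spt cs (al cs i j (2 * m + 1))
      rcases Nat.eq_zero_or_pos m with rfl | h0
      · rw [show 2 * 0 + 1 = 1 from rfl, al_one, spt_simple]
        exact rfl
      · exact h1 _ (by omega) (by omega)
    · exact h1 (2 * m + 2) (by omega) (by omega)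
    · exact h2 (2 * m + 2) (by omega) (by omega)
    · exact h2 (2 * m + 3) (by omega) (by omega)
  have hlen : cs.length (tw cs i j l r m) ≤ 2 * m + 3 := by
    cases l <;> cases r
    · exact ((D06e_len cs h3 hn (show 2 * m + 1 ≤ 2 * n by omega)).1).le.trans (by omega)
    · exact ((D06e_len cs h3 hn (show 2 * m + 2 ≤ 2 * n by omega)).1).le.trans (by omega)
    · exact ((D06e_len cs h3 hn (show 2 * m + 2 ≤ 2 * n by omega)).2).le.trans (by omega)
    · exact ((D06e_len cs h3 hn (show 2 * m + 3 ≤ 2 * n by omega)).2).le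
  refine av_other cs L hE h3 hl.le hmem hspt ?_ (Or.inl ?_)
  · intro h
    have h1 := (D06e_len cs h3 hn (le_refl (2 * n))).1
    rw [h, hn, h1] at hlen
    omega
  · intro h
    have h1 := (D06e_len cs h3 hn (show 2 * n - 1 ≤ 2 * n by omega)).1
    rw [hn] at h
    have h2 : cs.length (tw cs i j l r m) = 2 * n - 1 := by rw [h, h1]
    cases l <;> cases r
    · have h3' := (D06e_len cs h3 hn (show 2 * m + 1 ≤ 2 * n by omega)).1
      have h4 : cs.length (tw cs i j false false m) = 2 * m + 1 := h3'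
      omega
    · have h3' := (D06e_len cs h3 hn (show 2 * m + 2 ≤ 2 * n by omega)).1
      have h4 : cs.length (tw cs i j false true m) = 2 * m + 2 := h3'
      omega
    · have h3' := (D06e_len cs h3 hn (show 2 * m + 2 ≤ 2 * n by omega)).2
      have h4 : cs.length (tw cs i j true false m) = 2 * m + 2 := h3'
      omega
    · exact al_ne cs hij (show 0 < 2 * n - 1 by omega) (Or.inl (by omega))
        (Or.inl (show 2 * m + 3 ≤ M i j by omega)) h.symm

omit [Finite B] in
private theorem D06e_suf_one (cs : CoxeterSystem M W) {i j : B} {n : ℕ} (h3 : 3 ≤ M i j)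
    (hn : M i j = 2 * n) {l : Bool} {k : ℕ} (hk : Vd n l false k) :
    Suf cs (cs.simple i) (tw cs i j l false k) := by
  cases l
  · have hk' : k < n := hk
    show Suf cs (cs.simple i) (al cs i j (2 * k + 1))
    have h1 := al_snoc cs i j (2 * k)
    have h2 : lst i j (2 * k + 1) = i := by
      unfold lst
      rw [if_neg (by rw [Nat.not_even_iff_odd]; exact ⟨k, rfl⟩)]
    rw [h2] at h1
    rw [h1]
    refine suf_mul cs ?_
    rw [← h1, (D06e_len cs h3 hn (show 2 * k + 1 ≤ 2 * n by omega)).1,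
      (D06e_len cs h3 hn (show 2 * k ≤ 2 * n by omega)).1, cs.length_simple]
  · have hk' : k + 1 < n := hk
    show Suf cs (cs.simple i) (al cs j i (2 * k + 2))
    have h1 := al_snoc cs j i (2 * k + 1)
    have h2 : lst j i (2 * k + 1 + 1) = i := by
      unfold lst
      rw [if_pos (⟨k + 1, by ring⟩)]
    rw [h2] at h1
    have h1' : al cs j i (2 * k + 2) = al cs j i (2 * k + 1) * cs.simple i := h1
    rw [h1']
    refine suf_mul cs ?_
    rw [← h1', (D06e_len cs h3 hn (show 2 * k + 2 ≤ 2 * n by omega)).2,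
      (D06e_len cs h3 hn (show 2 * k + 1 ≤ 2 * n by omega)).2, cs.length_simple]

omit [Finite B] in
private theorem D06e_suf_two (cs : CoxeterSystem M W) {i j : B} {n : ℕ} (h3 : 3 ≤ M i j)
    (hn : M i j = 2 * n) {l : Bool} {k : ℕ} (hk : Vd n l true k) :
    Suf cs (al cs i j 2) (tw cs i j l true k) := by
  have hk' : k + 1 < n := by
    cases l
    · exact hk
    · exact hk
  cases l
  · show Suf cs (al cs i j 2) (al cs i j (2 * k + 2))
    have h1 := al_add cs i j (2 * k) 2
    rw [if_pos (⟨k, by ring⟩)] at h1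
    rw [h1]
    refine suf_mul cs ?_
    rw [← h1, (D06e_len cs h3 hn (show 2 * k + 2 ≤ 2 * n by omega)).1,
      (D06e_len cs h3 hn (show 2 * k ≤ 2 * n by omega)).1,
      (D06e_len cs h3 hn (show 2 ≤ 2 * n by omega)).1]
  · show Suf cs (al cs i j 2) (al cs j i (2 * k + 3))
    have h1 := al_add cs j i (2 * k + 1) 2
    rw [if_neg (by rw [Nat.not_even_iff_odd]; exact ⟨k, rfl⟩)] at h1
    have h1' : al cs j i (2 * k + 3) = al cs j i (2 * k + 1) * al cs i j 2 := h1
    rw [h1']
    refine suf_mul cs ?_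
    rw [← h1', (D06e_len cs h3 hn (show 2 * k + 3 ≤ 2 * n by omega)).2,
      (D06e_len cs h3 hn (show 2 * k + 1 ≤ 2 * n by omega)).2,
      (D06e_len cs h3 hn (show 2 ≤ 2 * n by omega)).1]

private theorem D06e_vd {n : ℕ} {l r : Bool} {m : ℕ} (hm : m + 1 < n) : Vd n l r m := by
  cases l <;> cases r
  · exact (Nat.lt_succ_self m).trans hm
  · exact hm
  · exact hm
  · exact hm

theorem cs_tw (cs : CoxeterSystem M W) (hE : OddEq M L) {i j : B} {n : ℕ} (h3 : 3 ≤ M i j)
    (hn : M i j = 2 * n) (hl : L j < L i) {l l' r : Bool} {m k : ℕ} (hm : m + 1 < n)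
    (hk : Vd n l' r k) : Cs cs L (tw cs i j l r m) (tw cs i j l' r k) := by
  cases r
  · refine ⟨cs.simple i, D06e_suf_one cs h3 hn (D06e_vd hm), D06e_suf_one cs h3 hn hk, ?_⟩
    rw [av_simple, av_tw cs hE h3 hn hl hm]
  · refine ⟨al cs i j 2, D06e_suf_two cs h3 hn (D06e_vd hm), D06e_suf_two cs h3 hn hk, ?_⟩
    have h1 : av cs L (tw cs i j false true 0) = L i :=
      av_tw cs hE h3 hn hl (show 0 + 1 < n by omega)
    rw [av_tw cs hE h3 hn hl hm]
    exact h1

omit [Finite B] in
private theorem D06e_refl (cs : CoxeterSystem M W) (L : B → ℕ) (w : W) : Cs cs L w w :=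
  ⟨w, suf_refl cs w, suf_refl cs w, rfl⟩

omit [Finite B] in
private theorem D06e_repr (x w : W) (a : Lau) :
    (x = w → D.cB.repr (a • D.c x) w = a) ∧ (x ≠ w → D.cB.repr (a • D.c x) w = 0) := by
  classical
  have h1 : D.cB.repr (a • D.c x) w = a * (Finsupp.single x (1 : Lau)) w := by
    rw [map_smul, ← D.cB_apply, D.cB.repr_self, Finsupp.smul_apply, smul_eq_mul]
  constructor
  · rintro rfl
    rw [h1, Finsupp.single_eq_same, mul_one]
  · intro h
    rw [h1, Finsupp.single_apply, if_neg h, mul_zero]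

omit [Finite B] in
private theorem D06e_fin {p q w x : W} {a : Lau} (h : D.c p * D.c q = a • D.c x)
    (hd : x = w → DegLe (av cs L w) a ∧ (a.coeff (av cs L w) ≠ 0 → Cs cs L w q)) :
    DegLe (av cs L w) (D.cB.repr (D.c p * D.c q) w) ∧
      ((D.cB.repr (D.c p * D.c q) w).coeff (av cs L w) ≠ 0 → Cs cs L w q) := by
  rw [h]
  by_cases hx : x = w
  · rw [(D06e_repr D x w a).1 hx]
    exact hd hx
  · rw [(D06e_repr D x w a).2 hx]
    exact ⟨DegLe.zero, fun h0 => absurd rfl h0⟩

private theorem D06e_finb (hL : ∀ i, 0 < L i) {p q w x : W} (h : D.c p * D.c q = D.c x)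
    (hx : x ≠ 1) :
    DegLe (av cs L w) (D.cB.repr (D.c p * D.c q) w) ∧
      ((D.cB.repr (D.c p * D.c q) w).coeff (av cs L w) ≠ 0 → Cs cs L w q) := by
  refine D06e_fin D (a := 1) (x := x) (by rw [h, one_smul]) ?_
  rintro rfl
  have h1 := av_pos cs L hL hx
  refine ⟨DegLe.one.mono (Int.natCast_nonneg _), fun h0 => absurd (DegLe.one _ ?_) h0⟩
  exact_mod_cast h1

theorem o1_lt (hL : ∀ i, 0 < L i) (hE : OddEq M L) {i j : B} {n : ℕ} (h3 : 3 ≤ M i j)
    (hn : M i j = 2 * n) (hl : L j < L i) {p q w : W} (hp : p ∈ WP cs {i, j})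
    (hq : q ∈ WP cs {i, j}) (hw : w ∈ WP cs {i, j}) (hw0 : w ≠ al cs i j (2 * n)) :
    DegLe (av cs L w) (D.cB.repr (D.c p * D.c q) w) ∧
      ((D.cB.repr (D.c p * D.c q) w).coeff (av cs L w) ≠ 0 → Cs cs L w q) := by
  have hij := D06e_ne h3
  have hs : M j i = M i j := M.symmetric j i
  have hm0 : M i j ≠ 0 := by omega
  have hne1 : ∀ k, 0 < k → k ≤ 2 * n → al cs i j k ≠ 1 ∧ al cs j i k ≠ 1 := by
    intro k hk hk'
    obtain ⟨h1, h2⟩ := D06e_len cs h3 hn hk'
    constructor
    · intro h
      rw [h, cs.length_one] at h1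
      omega
    · intro h
      rw [h, cs.length_one] at h2
      omega
  rcases eq_or_ne p 1 with rfl | hp1
  · refine D06e_fin D (a := 1) (x := q) (by rw [c_one, one_mul, one_smul]) ?_
    rintro rfl
    exact ⟨DegLe.one.mono (Int.natCast_nonneg _), fun _ => D06e_refl cs L q⟩
  rcases eq_or_ne q 1 with rfl | hq1
  · exact D06e_finb D hL (x := p) (by rw [c_one, mul_one]) hp1
  rcases eq_or_ne p (al cs i j (2 * n)) with rfl | hp2
  · obtain ⟨-, a, ha⟩ := top_absorb D hL hij hm0 (hp_c D hq)
    rw [hn] at ha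
    exact D06e_fin D ha (fun h => absurd h.symm hw0)
  rcases eq_or_ne q (al cs i j (2 * n)) with rfl | hq2
  · obtain ⟨⟨a, ha⟩, -⟩ := top_absorb D hL hij hm0 (hp_c D hp)
    rw [hn] at ha
    exact D06e_fin D ha (fun h => absurd h.symm hw0)
  have hetaj : DegLe (L j : ℤ) (eta (L j)) := DegLe.eta (L j)
  have hsjd : cs.IsLeftDescent (cs.simple j) j := by
    have h1 := ld_al cs hij.symm (show 0 < 1 by omega) (Or.inl (show 1 ≤ M j i by omega))
    rwa [al_one] at h1
  rcases tw_cases cs h3 hn hp with h | rfl | h | ⟨l, r, k, hk, rfl⟩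
  · exact absurd h hp1
  · rcases tw_cases cs h3 hn hq with h' | rfl | h' | ⟨l', r', k', hk', rfl⟩
    · exact absurd h' hq1
    · refine D06e_fin D (D.cs_mul_c hL hsjd) ?_
      rintro rfl
      rw [av_simple]
      exact ⟨hetaj, fun _ => D06e_refl cs L _⟩
    · exact absurd h' hq2
    · cases l'
      · cases r'
        · have hk2 : k' < n := hk'
          exact D06e_finb D hL (ue_j D hL h3 hn hl hk2) (hne1 _ (by omega) (by omega)).2
        · have hk2 : k' + 1 < n := hk'
          exact D06e_finb D hL (ue_jj' D hL h3 hn hl hk2) (hne1 _ (by omega) (by omega)).2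
      · have hk2 : k' + 1 < n := by
          cases r'
          · exact hk'
          · exact hk'
        have hld : cs.IsLeftDescent (tw cs i j true r' k') j := by
          cases r'
          · exact ld_al cs hij.symm (show 0 < 2 * k' + 2 by omega) (Or.inl (by omega))
          · exact ld_al cs hij.symm (show 0 < 2 * k' + 3 by omega) (Or.inl (by omega))
        refine D06e_fin D (D.cs_mul_c hL hld) ?_
        rintro rfl
        rw [av_tw cs hE h3 hn hl hk2]
        exact ⟨hetaj.mono (by exact_mod_cast hl.le), fun _ => D06e_refl cs L _⟩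
  · exact absurd h hp2
  · rcases tw_cases cs h3 hn hq with h' | rfl | h' | ⟨l', r', k', hk', rfl⟩
    · exact absurd h' hq1
    · cases r
      · cases l
        · have hk2 : k < n := hk
          exact D06e_finb D hL (ue_rj D hL h3 hn hl hk2) (hne1 _ (by omega) (by omega)).1
        · have hk2 : k + 1 < n := hk
          exact D06e_finb D hL (ue_jj D hL h3 hn hl hk2) (hne1 _ (by omega) (by omega)).2
      · have hk2 : k + 1 < n := by
          cases l
          · exact hk
          · exact hk
        have hrd : cs.IsRightDescent (tw cs i j l true k) j := by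
          cases l
          · have h1 := rd_al cs hij (show 0 < 2 * k + 2 by omega) (Or.inl (by omega))
            have h2 : lst i j (2 * k + 2) = j := by
              unfold lst
              rw [if_pos (⟨k + 1, by ring⟩)]
            rw [h2] at h1
            exact h1
          · have h1 := rd_al cs hij.symm (show 0 < 2 * k + 3 by omega) (Or.inl (by omega))
            have h2 : lst j i (2 * k + 3) = j := by
              unfold lst
              rw [if_neg (by rw [Nat.not_even_iff_odd]; exact ⟨k + 1, by ring⟩)]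
            rw [h2] at h1
            exact h1
        refine D06e_fin D (c_mul_cs D hL hrd) ?_
        rintro rfl
        rw [av_tw cs hE h3 hn hl hk2]
        refine ⟨hetaj.mono (by exact_mod_cast hl.le), fun h0 => absurd (hetaj _ ?_) h0⟩
        exact_mod_cast hl
    · exact absurd h' hq2
    · by_cases hX : D.cB.repr (D.c (tw cs i j l r k) * D.c (tw cs i j l' r' k')) w = 0
      · rw [hX]
        exact ⟨DegLe.zero, fun h0 => absurd rfl h0⟩
      · have hmid : av cs L (al cs i j (2 * n - 1)) = n * L i - (n - 1) * L j :=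
          av_mid cs L hE (by omega) hn hl
        rcases prod_tw D hL h3 hn hl hk hk' hw0 hX with ⟨m, hm, rfl, hdeg⟩ | ⟨rfl, h1 | h1⟩
        · rw [av_tw cs hE h3 hn hl hm]
          exact ⟨hdeg, fun _ => cs_tw cs hE h3 hn hl hm hk'⟩
        · rw [hmid]
          refine ⟨h1.2, fun _ => ?_⟩
          rw [h1.1]
          exact D06e_refl cs L _
        · rw [hmid]
          refine ⟨h1.mono (by omega), fun h0 => absurd (h1 _ ?_) h0⟩
          omega

end Pool.Agent.Lib.KLT
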