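import Pool.Agent.Lib.MP_754fa1_al.X1
import Pool.Agent.Lib.MP_754fa1_al.X2
import Pool.Agent.Lib.MP_754fa1_al.T.C03

/-!
# E01. Existence of the Hecke algebra for every Coxeter system

Copy `X1.lean`, with `exch_left`, `exch_right`, `fold` of C01 in place of the right-angled versions, and with `hc` : `s_i x = x s_j` implies `L i = L j` in place of `simple_conj` (there the conclusion was `i = j`): in `key_desc` the case `s_i x = x s_j` occurs with `L i = L j`, which is all that is used in `comm`
(`ξ_i = ξ_j`).

`odd_of_conj`: `M i j = 2 p + 1`: with `x = (s_i s_j)^p`: `s_i... `: `al i j (2p+1) = al j i (2p+1)` (`al_top`), i.e. `s_i y = y' ...`: `al i j (2p+1) = al i j (2p) s_i` and `= s_j al i j (2p)` (`al_top`: `al j i (2p+1) = s_j al i j (2p)`), so `s_j x = x s_i` with `x = al i j (2p)`.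
`conj_wt`: `s_i x = x s_j` means that `s_i` and `s_j` are conjugate.
-/

open LaurentPolynomial
open Pool.Agent.Lib.MP_754fa1_al

namespace Pool.Agent.Lib.KLT

universe u v w

variable {B : Type u} {W : Type v} [Group W] {M : CoxeterMatrix B}

/-- comparison of the descents of `x`, `s_i x`, `x s_j` -/
private theorem e01_key (cs : CoxeterSystem M W) (i j : B) (x : W) :
    ((cs.IsLeftDescent (x * cs.simple j) i ↔ cs.IsLeftDescent x i) ∧
      (cs.IsRightDescent (cs.simple i * x) j ↔ cs.IsRightDescent x j)) ∨
    (cs.simple i * x = x * cs.simple j ∧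
      ((¬ cs.IsLeftDescent x i ∧ cs.IsLeftDescent (x * cs.simple j) i ∧
        ¬ cs.IsRightDescent x j ∧ cs.IsRightDescent (cs.simple i * x) j) ∨
      (cs.IsLeftDescent x i ∧ ¬ cs.IsLeftDescent (x * cs.simple j) i ∧
        cs.IsRightDescent x j ∧ ¬ cs.IsRightDescent (cs.simple i * x) j))) := by
  have e1 : cs.simple i * x * cs.simple j = cs.simple i * (x * cs.simple j) := mul_assoc _ _ _
  have n1 := cs.length_simple_mul x i
  have n2 := cs.length_mul_simple x j
  have n3 := cs.length_simple_mul (x * cs.simple j) i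
  have n4 := cs.length_mul_simple (cs.simple i * x) j
  rw [e1] at n4
  have d1 : cs.IsLeftDescent x i ↔ cs.length (cs.simple i * x) < cs.length x := Iff.rfl
  have d2 : cs.IsRightDescent x j ↔ cs.length (x * cs.simple j) < cs.length x := Iff.rfl
  have d3 : cs.IsLeftDescent (x * cs.simple j) i ↔
      cs.length (cs.simple i * (x * cs.simple j)) < cs.length (x * cs.simple j) := Iff.rfl
  have d4 : cs.IsRightDescent (cs.simple i * x) j ↔
      cs.length (cs.simple i * (x * cs.simple j)) < cs.length (cs.simple i * x) := by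
    rw [← e1]
    exact Iff.rfl
  by_cases a : cs.IsLeftDescent x i
  · by_cases b : cs.IsRightDescent x j
    · by_cases c : cs.IsLeftDescent (x * cs.simple j) i
      · left
        have := d1.1 a
        have := d2.1 b
        have := d3.1 c
        refine ⟨iff_of_true c a, iff_of_true ?_ b⟩
        rw [d4]
        omega
      · right
        have u1 := d1.1 a
        have u2 := d2.1 b
        have u3 := mt d3.2 c
        have c' : ¬ cs.IsRightDescent (cs.simple i * x) j := by
          rw [d4]
          omega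
        have f1 : ¬ cs.IsLeftDescent (cs.simple i * x) i :=
          cs.isLeftDescent_iff_not_isLeftDescent_mul.1 a
        have f2 : cs.IsLeftDescent (cs.simple i * x * cs.simple j) i := by
          rw [e1]
          change cs.length (cs.simple i * (cs.simple i * (x * cs.simple j))) < _
          rw [cs.simple_mul_simple_cancel_left]
          omega
        have f3 := fold cs f1 c' f2
        rw [cs.simple_mul_simple_cancel_left] at f3
        have f4 : cs.simple i * x = x * cs.simple j := by
          conv_rhs => rw [f3]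
          rw [cs.simple_mul_simple_cancel_right]
        exact ⟨f4, Or.inr ⟨a, c, b, c'⟩⟩
    · left
      have u1 := d1.1 a
      have u2 := mt d2.2 b
      have c : cs.IsLeftDescent (x * cs.simple j) i := by
        rw [d3]
        omega
      refine ⟨iff_of_true c a, iff_of_false ?_ b⟩
      rw [d4]
      omega
  · by_cases b : cs.IsRightDescent x j
    · left
      have u1 := mt d1.2 a
      have u2 := d2.1 b
      refine ⟨iff_of_false ?_ a, iff_of_true ?_ b⟩
      · rw [d3]
        omega
      · rw [d4]
        omega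
    · by_cases c : cs.IsLeftDescent (x * cs.simple j) i
      · right
        have u1 := mt d1.2 a
        have u2 := mt d2.2 b
        have u3 := d3.1 c
        have c' : cs.IsRightDescent (cs.simple i * x) j := by
          rw [d4]
          omega
        have f3 := fold cs a b c
        exact ⟨f3, Or.inl ⟨a, c, b, c'⟩⟩
      · left
        have u1 := mt d1.2 a
        have u2 := mt d2.2 b
        have u3 := mt d3.2 c
        refine ⟨iff_of_false c a, iff_of_false ?_ b⟩
        rw [d4]
        omega

private theorem e01_comm (cs : CoxeterSystem M W) (L : B → ℕ)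
    (hc : ∀ (i j : B) (x : W), cs.simple i * x = x * cs.simple j → L i = L j)
    (i j : B) (v : W →₀ Lau) :
    X1.lmb cs L i (X1.rho cs L j v) = X1.rho cs L j (X1.lmb cs L i v) := by
  classical
  have h1 : (X1.lmb cs L i) ∘ₗ (X1.rho cs L j) = (X1.rho cs L j) ∘ₗ (X1.lmb cs L i) := by
    apply X1.ext_e
    intro x
    rw [LinearMap.comp_apply, LinearMap.comp_apply, X1.rho_e, X1.lmb_e, map_add, map_add,
      map_smul, map_smul, X1.lmb_e, X1.lmb_e, X1.rho_e, X1.rho_e, mul_assoc]
    rcases e01_key cs i j x with ⟨h2, h3⟩ | ⟨h2, h4 | h4⟩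
    · simp only [h2, h3, smul_add, smul_smul, mul_comm (if cs.IsRightDescent x j then xi (L j) else 0)]
      abel
    · obtain ⟨a, b, c, d⟩ := h4
      rw [if_neg a, if_pos b, if_neg c, if_pos d, h2, hc i j x h2, zero_smul]
    · obtain ⟨a, b, c, d⟩ := h4
      rw [if_pos a, if_neg b, if_pos c, if_neg d, h2, hc i j x h2, zero_smul]
  exact LinearMap.congr_fun h1 v

private theorem e01_hs_comm (cs : CoxeterSystem M W) (L : B → ℕ)
    (hc : ∀ (i j : B) (x : W), cs.simple i * x = x * cs.simple j → L i = L j)
    (h : X1.Hs cs L) (j : B) (v : W →₀ Lau) :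
    h.1 (X1.rho cs L j v) = X1.rho cs L j (h.1 v) := by
  have h1 : X1.Hs cs L ≤ Subalgebra.centralizer Lau {X1.rho cs L j} := by
    apply Algebra.adjoin_le
    rintro _ ⟨i, rfl⟩
    rw [SetLike.mem_coe, Subalgebra.mem_centralizer_iff]
    rintro g hg
    rw [Set.mem_singleton_iff.1 hg]
    apply LinearMap.ext
    intro v
    exact (e01_comm cs L hc i j v).symm
  have h2 := (Subalgebra.mem_centralizer_iff (R := Lau)).1 (h1 h.2) _ (Set.mem_singleton _)
  exact (LinearMap.congr_fun h2 v).symm

private theorem e01_ev_inj (cs : CoxeterSystem M W) (L : B → ℕ)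
    (hc : ∀ (i j : B) (x : W), cs.simple i * x = x * cs.simple j → L i = L j) :
    Function.Injective (X1.ev cs L) := by
  rw [injective_iff_map_eq_zero]
  intro h h0
  have h1 : ∀ x, h.1 (X1.e x) = 0 := by
    intro x
    induction x using len_induction_right cs with
    | h1 => exact h0
    | hs i x hx ih =>
      rw [← X1.rho_up cs L hx, e01_hs_comm cs L hc, ih, map_zero]
  apply Subtype.ext
  apply X1.ext_e
  intro x
  rw [h1]
  rfl

/-- the standard basis -/
private noncomputable def e01_basis (cs : CoxeterSystem M W) (L : B → ℕ)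
    (hc : ∀ (i j : B) (x : W), cs.simple i * x = x * cs.simple j → L i = L j) :
    Module.Basis W Lau (X1.Hs cs L) :=
  Module.Basis.ofRepr (LinearEquiv.ofBijective (X1.ev cs L)
    ⟨e01_ev_inj cs L hc, X1.ev_surj cs L⟩)

private theorem e01_ev_basis (cs : CoxeterSystem M W) (L : B → ℕ)
    (hc : ∀ (i j : B) (x : W), cs.simple i * x = x * cs.simple j → L i = L j) (x : W) :
    X1.ev cs L (e01_basis cs L hc x) = X1.e x := by
  have h1 : (e01_basis cs L hc).repr (e01_basis cs L hc x) = X1.e x := Module.Basis.repr_self _ x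
  exact h1

private theorem e01_basis_eq (cs : CoxeterSystem M W) (L : B → ℕ)
    (hc : ∀ (i j : B) (x : W), cs.simple i * x = x * cs.simple j → L i = L j) {x : W}
    {h : X1.Hs cs L} (hh : X1.ev cs L h = X1.e x) : e01_basis cs L hc x = h := by
  apply e01_ev_inj cs L hc
  rw [e01_ev_basis, hh]

private theorem e01_basis_s (cs : CoxeterSystem M W) (L : B → ℕ)
    (hc : ∀ (i j : B) (x : W), cs.simple i * x = x * cs.simple j → L i = L j) (i : B) :
    e01_basis cs L hc (cs.simple i) = X1.gen cs L i := by
  apply e01_basis_eq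
  change X1.lmb cs L i (X1.e 1) = _
  rw [X1.lmb_up cs L (cs.not_isLeftDescent_one i), mul_one]

private theorem e01_basis_up (cs : CoxeterSystem M W) (L : B → ℕ)
    (hc : ∀ (i j : B) (x : W), cs.simple i * x = x * cs.simple j → L i = L j) {i : B} {x : W}
    (hx : ¬ cs.IsLeftDescent x i) :
    e01_basis cs L hc (cs.simple i * x) = X1.gen cs L i * e01_basis cs L hc x := by
  apply e01_basis_eq
  change X1.lmb cs L i (X1.ev cs L (e01_basis cs L hc x)) = _
  rw [e01_ev_basis, X1.lmb_up cs L hx]

private theorem e01_basis_e (cs : CoxeterSystem M W) (L : B → ℕ)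
    (hc : ∀ (i j : B) (x : W), cs.simple i * x = x * cs.simple j → L i = L j) (x y : W)
    (h : cs.length (x * y) = cs.length x + cs.length y) :
    (e01_basis cs L hc x).1 (X1.e y) = X1.e (x * y) := by
  induction x using len_induction_left cs with
  | h1 =>
    have h0 : e01_basis cs L hc 1 = 1 := e01_basis_eq cs L hc rfl
    rw [h0, one_mul]
    rfl
  | hs i x hx ih =>
    rw [e01_basis_up cs L hc hx]
    change X1.lmb cs L i ((e01_basis cs L hc x).1 (X1.e y)) = _
    have h1 := cs.not_isLeftDescent_iff.1 hx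
    have h2 := cs.length_mul_le x y
    have h3 := cs.length_simple_mul (x * y) i
    rw [mul_assoc, h1] at h
    have h4 : ¬ cs.IsLeftDescent (x * y) i := by
      intro h5
      have h6 : cs.length (cs.simple i * (x * y)) < cs.length (x * y) := h5
      omega
    rw [ih (by omega), X1.lmb_up cs L h4, mul_assoc]

theorem exists_hecke_gen (cs : CoxeterSystem M W) (L : B → ℕ)
    (hc : ∀ (i j : B) (x : W), cs.simple i * x = x * cs.simple j → L i = L j) :
    ∃ (H : Type v) (_ : Ring H) (_ : Algebra Lau H), Nonempty (Hecke cs L H) := by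
  refine ⟨X1.Hs cs L, inferInstance, inferInstance, ⟨?_⟩⟩
  refine ⟨e01_basis cs L hc, ?_, ?_⟩
  · intro x y h
    symm
    apply e01_basis_eq
    change (e01_basis cs L hc x).1 (X1.ev cs L (e01_basis cs L hc y)) = _
    rw [e01_ev_basis, e01_basis_e cs L hc x y h]
  · intro i
    rw [e01_basis_s]
    have h1 : X1.gen cs L i * X1.gen cs L i = 1 + xi (L i) • X1.gen cs L i := by
      apply Subtype.ext
      apply LinearMap.ext
      intro v
      exact X1.lmb_sq cs L i v
    rw [sub_mul, mul_add, mul_add, ← Algebra.commutes, ← Algebra.smul_def, ← Algebra.smul_def,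
      ← map_mul (algebraMap Lau (X1.Hs cs L)), ← T_add, add_neg_cancel, T_zero, map_one, h1, xi,
      sub_smul]
    abel

theorem odd_conj (cs : CoxeterSystem M W) {i j : B} (h : Odd (M i j)) :
    ∃ x : W, cs.simple j * x = x * cs.simple i := by
  obtain ⟨p, hp⟩ := h
  refine ⟨al cs i j (2 * p), ?_⟩
  have h1 := al_top cs i j (by omega)
  rw [hp] at h1
  have h2 : al cs i j (2 * p + 1) = al cs i j (2 * p) * cs.simple i := by
    rw [al_snoc]
    unfold lst
    rw [if_neg (by rw [Nat.not_even_iff_odd]; exact ⟨p, rfl⟩)]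
  rw [← h2, h1, al_succ]

theorem conj_wt (cs : CoxeterSystem M W) (S₁ : Set B)
    (hS : ∀ i ∈ S₁, ∀ j, j ∉ S₁ → ¬ IsConj (cs.simple i) (cs.simple j)) (a b : ℕ)
    (i j : B) (x : W) (h : cs.simple i * x = x * cs.simple j) : wt S₁ a b i = wt S₁ a b j := by
  have h1 : IsConj (cs.simple j) (cs.simple i) := by
    rw [isConj_iff]
    exact ⟨x, by rw [← h, mul_inv_cancel_right]⟩
  unfold wt
  by_cases hi : i ∈ S₁
  · by_cases hj : j ∈ S₁
    · rw [if_pos hi, if_pos hj]
    · exact absurd h1.symm (hS i hi j hj)
  · by_cases hj : j ∈ S₁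
    · exact absurd h1 (hS j hj i hi)
    · rw [if_neg hi, if_neg hj]

theorem odd_mem (cs : CoxeterSystem M W) (S₁ : Set B)
    (hS : ∀ i ∈ S₁, ∀ j, j ∉ S₁ → ¬ IsConj (cs.simple i) (cs.simple j))
    (i j : B) (h : Odd (M i j)) : i ∈ S₁ ↔ j ∈ S₁ := by
  obtain ⟨x, hx⟩ := odd_conj cs h
  have h1 : IsConj (cs.simple i) (cs.simple j) := by
    rw [isConj_iff]
    exact ⟨x, by rw [← hx, mul_inv_cancel_right]⟩
  constructor
  · intro hi
    by_contra hj
    exact hS i hi j hj h1
  · intro hj
    by_contra hi
    exact hS j hj i hi h1.symm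

end Pool.Agent.Lib.KLT
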