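import Pool.Agent.Lib.MP_754fa1_al.T.S04

/-!
# S05. The critical ratios

`Crit N N r` (`FR.lean`): `r = p / q`, `1 ≤ p, q ≤ N`. `N = 2 N₀` with `N₀` from `spf_bound`. `lt_of_no_crit'`: if there is no critical ratio `ρ` with `b/a < ρ ≤ b'/a'` or `b'/a' ≤ ρ < b/a`, then `Lt S₁ a b a' b'`: let `A = α - α'`, `C = β - β'`, `|A|, |C| ≤ 2 N₀`; `0 < A a + C b` means `0 < A + θ C` (`θ = b/a`; multiply by `a > 0`). If
`A + θ' C ≤ 0`, `root_exists` (`FR.lean`) gives a critical ratio in the range. `lt_of_ratio`: if `b/a = b'/a'`.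
`const_T`: (a): as `cell_const`, `cell_ratio`: `cellC_of_lt`.
`join_T`: (b): as `cell_join`: `joinT` with `lt_of_no_crit'` for `(a, b) → (a₁, b₁)` and `(a, b) → (a₂, b₂)`.
-/

open Pool.Agent.Lib.MP_754fa1_al

namespace Pool.Agent.Lib.KLT

universe u v w

variable {B : Type u} {W : Type v} [Group W] {M : CoxeterMatrix B}
variable [Finite B] {cs : CoxeterSystem M W} {S₁ : Set B}

private theorem S05_iff {a b : ℕ} (ha : 0 < a) (α β α' β' : ℤ) :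
    α' * a + β' * b < α * a + β * b ↔
      (0 : ℚ) < ((α - α' : ℤ) : ℚ) + ((b : ℚ) / a) * ((β - β' : ℤ) : ℚ) := by
  have haq : (0 : ℚ) < a := by exact_mod_cast ha
  have e : (a : ℚ) * (((α - α' : ℤ) : ℚ) + ((b : ℚ) / a) * ((β - β' : ℤ) : ℚ)) =
      ((α * a + β * b - (α' * a + β' * b) : ℤ) : ℚ) := by
    push_cast
    field_simp
    ring
  rw [← mul_pos_iff_of_pos_left haq, e, Int.cast_pos, sub_pos]

private theorem S05_abs {N₀ : ℕ} {α α' : ℤ} (h : |α| ≤ N₀) (h' : |α'| ≤ N₀) :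
    |α - α'| ≤ ((2 * N₀ : ℕ) : ℤ) := by
  rw [abs_le] at h h' ⊢
  constructor <;> push_cast <;> omega

omit [Finite B] in
theorem lt_of_no_crit' {N₀ : ℕ}
    (hN : ∀ (J : Set B) (δ : W) (α β : ℤ), SpF cs S₁ J δ α β → |α| ≤ N₀ ∧ |β| ≤ N₀)
    {a b a' b' : ℕ} (ha : 0 < a) (hb : 0 < b) (ha' : 0 < a') (hb' : 0 < b')
    (hno : ∀ ρ, Crit (2 * N₀) (2 * N₀) ρ →
      ¬ (((b : ℚ) / a < ρ ∧ ρ ≤ (b' : ℚ) / a') ∨ ((b' : ℚ) / a' ≤ ρ ∧ ρ < (b : ℚ) / a))) :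
    Lt cs S₁ a b a' b' := by
  intro J J' δ δ' α β α' β' h1 h2 hlt
  rw [S05_iff ha] at hlt
  rw [S05_iff ha']
  by_contra hc
  rw [not_lt] at hc
  obtain ⟨k1, k2⟩ := hN J δ α β h1
  obtain ⟨k3, k4⟩ := hN J' δ' α' β' h2
  obtain ⟨ρ, r1, r2⟩ := root_exists (S05_abs k1 k3) (S05_abs k2 k4)
    (div_pos (by exact_mod_cast hb) (by exact_mod_cast ha))
    (div_pos (by exact_mod_cast hb') (by exact_mod_cast ha')) hlt hc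
  exact hno ρ r1 r2

omit [Finite B] in
theorem lt_of_ratio {a b a' b' : ℕ} (ha : 0 < a) (ha' : 0 < a')
    (heq : (b : ℚ) / a = (b' : ℚ) / a') : Lt cs S₁ a b a' b' := by
  intro J J' δ δ' α β α' β' _ _ hlt
  rw [S05_iff ha, heq] at hlt
  rw [S05_iff ha']
  exact hlt

theorem const_T {N₀ : ℕ}
    (hN : ∀ (J : Set B) (δ : W) (α β : ℤ), SpF cs S₁ J δ α β → |α| ≤ N₀ ∧ |β| ≤ N₀)
    {a b a' b' : ℕ} (ha : 0 < a) (hb : 0 < b) (ha' : 0 < a') (hb' : 0 < b')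
    (hno : ∀ ρ, Crit (2 * N₀) (2 * N₀) ρ →
      ¬ (((b : ℚ) / a ≤ ρ ∧ ρ ≤ (b' : ℚ) / a') ∨ ((b' : ℚ) / a' ≤ ρ ∧ ρ ≤ (b : ℚ) / a)))
    (x y : W) : CellC cs (wt S₁ a b) x y ↔ CellC cs (wt S₁ a' b') x y := by
  refine cellC_of_lt (lt_of_no_crit' hN ha hb ha' hb' ?_)
    (lt_of_no_crit' hN ha' hb' ha hb ?_) x y
  · intro ρ hρ hc
    refine hno ρ hρ ?_
    rcases hc with hc | hc
    · exact Or.inl ⟨hc.1.le, hc.2⟩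
    · exact Or.inr ⟨hc.1, hc.2.le⟩
  · intro ρ hρ hc
    refine hno ρ hρ ?_
    rcases hc with hc | hc
    · exact Or.inr ⟨hc.1.le, hc.2⟩
    · exact Or.inl ⟨hc.1, hc.2.le⟩

theorem ratio_T {a b a' b' : ℕ} (ha : 0 < a) (ha' : 0 < a')
    (heq : (b : ℚ) / a = (b' : ℚ) / a') (x y : W) :
    CellC cs (wt S₁ a b) x y ↔ CellC cs (wt S₁ a' b') x y :=
  cellC_of_lt (lt_of_ratio ha ha' heq) (lt_of_ratio ha' ha heq.symm) x y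

theorem join_T (hM : Tri M) (hO : ∀ i j : B, Odd (M i j) → (i ∈ S₁ ↔ j ∈ S₁)) {N₀ : ℕ}
    (hN : ∀ (J : Set B) (δ : W) (α β : ℤ), SpF cs S₁ J δ α β → |α| ≤ N₀ ∧ |β| ≤ N₀)
    {a b a₁ b₁ a₂ b₂ : ℕ} (ha : 0 < a) (hb : 0 < b) (ha₁ : 0 < a₁) (hb₁ : 0 < b₁)
    (ha₂ : 0 < a₂) (hb₂ : 0 < b₂) (h1 : (b₁ : ℚ) / a₁ < (b : ℚ) / a)
    (h2 : (b : ℚ) / a < (b₂ : ℚ) / a₂)
    (hno : ∀ ρ, Crit (2 * N₀) (2 * N₀) ρ → (b₁ : ℚ) / a₁ ≤ ρ → ρ ≤ (b₂ : ℚ) / a₂ →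
      ρ = (b : ℚ) / a)
    (huniq : ∀ {x u u' : W}, Tgt cs (wt S₁ a b) u → Suf cs u x →
      av cs (wt S₁ a b) u = av cs (wt S₁ a b) x → Tgt cs (wt S₁ a b) u' → Suf cs u' x →
      av cs (wt S₁ a b) u' = av cs (wt S₁ a b) x → u = u')
    (S S' S'' : Setoid W) (hS : ∀ x y, S x y ↔ CellC cs (wt S₁ a b) x y)
    (hS' : ∀ x y, S' x y ↔ CellC cs (wt S₁ a₁ b₁) x y)
    (hS'' : ∀ x y, S'' x y ↔ CellC cs (wt S₁ a₂ b₂) x y) : S = S' ⊔ S'' := by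
  refine joinT hM hO ha hb ha₁ hb₁ ha₂ hb₂ h1 h2 (lt_of_no_crit' hN ha hb ha₁ hb₁ ?_)
    (lt_of_no_crit' hN ha hb ha₂ hb₂ ?_) huniq S S' S'' hS hS' hS''
  · rintro ρ hρ (⟨hc, hc'⟩ | ⟨hc, hc'⟩)
    · linarith
    · have := hno ρ hρ hc (by linarith)
      linarith
  · rintro ρ hρ (⟨hc, hc'⟩ | ⟨hc, hc'⟩)
    · have := hno ρ hρ (by linarith) hc'
      linarith
    · linarith

end Pool.Agent.Lib.KLT
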