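import Pool.Agent.Lib.MP_754fa1_al.T.M10
import Pool.Agent.Lib.MP_754fa1_al.T.S05
import Pool.Agent.Lib.MP_754fa1_al.T.E01

/-!
# Fin. The theorem

As `Results/MP_754fa1_al/RightAngled.lean`, with `cell_iff`, `tgt_unique` of M10 (`CellT` and `CellC` are the same by definition), `const_T`, `ratio_T`, `join_T` of S05, `exists_hecke_gen`, `conj_wt`, `odd_mem` of E01, `exists_KL`.
`OddEq M (wt S₁ a b)` by `oddEq_wt` and `odd_mem`.
-/

open LaurentPolynomial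
open Pool.Agent.Lib.MP_754fa1_al

namespace Pool.Agent.Lib.KLT

universe u v w

variable {B : Type u} {W : Type v} [Group W] {M : CoxeterMatrix B}

theorem final [Finite B] (cs : CoxeterSystem M W) (hM : Tri M) (S₁ : Set B)
    (hS : ∀ i ∈ S₁, ∀ j, j ∉ S₁ → ¬ IsConj (cs.simple i) (cs.simple j)) :
    (∀ a b : ℕ, 0 < a → 0 < b →
      ∃ (H : Type v) (_ : Ring H) (_ : Algebra Lau H), Nonempty (KL cs (wt S₁ a b) H)) ∧
    ∃ LC : ℚ → Setoid W,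
      (∀ a b : ℕ, 0 < a → 0 < b → ∀ (H : Type w) [Ring H] [Algebra Lau H]
        (D : KL cs (wt S₁ a b) H), D.leftCells = LC ((b : ℚ) / (a : ℚ))) ∧
      ∃ N : ℕ,
        (∀ θ θ' : ℚ, 0 < θ → θ ≤ θ' → (∀ r, Crit N N r → ¬ (θ ≤ r ∧ r ≤ θ')) → LC θ = LC θ') ∧
        (∀ r, Crit N N r → ∀ θ θ' : ℚ, 0 < θ → θ < r → r < θ' →
          (∀ s, Crit N N s → θ ≤ s → s ≤ θ' → s = r) → LC r = LC θ ⊔ LC θ') := by
  classical
  have hO : ∀ i j : B, Odd (M i j) → (i ∈ S₁ ↔ j ∈ S₁) := odd_mem cs S₁ hS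
  have hex0 : ∀ a b : ℕ, ∃ (H : Type v) (_ : Ring H) (_ : Algebra Lau H),
      Nonempty (KL cs (wt S₁ a b) H) := by
    intro a b
    obtain ⟨H, i1, i2, ⟨D⟩⟩ := exists_hecke_gen cs (wt S₁ a b) (conj_wt cs S₁ hS a b)
    exact ⟨H, i1, i2, exists_KL cs _ D⟩
  have hwt : ∀ {a b : ℕ}, 0 < a → 0 < b → ∀ i, 0 < wt S₁ a b i := by
    intro a b ha hb i
    unfold wt
    split_ifs <;> assumption
  have hcell : ∀ {a b : ℕ}, 0 < a → 0 < b → ∀ {H : Type w} [Ring H] [Algebra Lau H]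
      (D : KL cs (wt S₁ a b) H) (x y : W), D.leftCells x y ↔ CellC cs (wt S₁ a b) x y := by
    intro a b ha hb H _ _ D x y
    exact cell_iff D (hwt ha hb) (oddEq_wt hO _ _) hM x y
  have hcell' : ∀ {a b : ℕ}, 0 < a → 0 < b → ∀ {H : Type v} [Ring H] [Algebra Lau H]
      (D : KL cs (wt S₁ a b) H) (x y : W), D.leftCells x y ↔ CellC cs (wt S₁ a b) x y := by
    intro a b ha hb H _ _ D x y
    exact cell_iff D (hwt ha hb) (oddEq_wt hO _ _) hM x y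
  refine ⟨fun a b _ _ => hex0 a b, ?_⟩
  have hex : ∀ θ : ℚ, 0 < θ → ∃ S : Setoid W, ∀ a b : ℕ, 0 < a → 0 < b → θ = (b : ℚ) / (a : ℚ) →
      ∀ x y, S x y ↔ CellC cs (wt S₁ a b) x y := by
    intro θ hθ
    have hn : (θ.num.toNat : ℤ) = θ.num := Int.toNat_of_nonneg (Rat.num_nonneg.2 hθ.le)
    have hn0 : 0 < θ.num.toNat := by
      have := Rat.num_pos.2 hθ
      omega
    have he : θ = ((θ.num.toNat : ℕ) : ℚ) / (θ.den : ℚ) := by
      have : ((θ.num.toNat : ℕ) : ℚ) = (θ.num : ℚ) := by exact_mod_cast hn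
      rw [this, Rat.num_div_den]
    obtain ⟨H, i1, i2, ⟨D⟩⟩ := hex0 θ.den θ.num.toNat
    refine ⟨D.leftCells, ?_⟩
    intro a b ha hb hab x y
    rw [← ratio_T (cs := cs) (S₁ := S₁) (a := θ.den) (b := θ.num.toNat) θ.den_pos ha
      (he.symm.trans hab) x y]
    exact hcell' θ.den_pos hn0 D x y
  have hex' : ∀ θ : ℚ, ∃ S : Setoid W, 0 < θ → ∀ a b : ℕ, 0 < a → 0 < b →
      θ = (b : ℚ) / (a : ℚ) → ∀ x y, S x y ↔ CellC cs (wt S₁ a b) x y := by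
    intro θ
    by_cases hθ : 0 < θ
    · obtain ⟨S, hS⟩ := hex θ hθ
      exact ⟨S, fun _ => hS⟩
    · exact ⟨⊥, fun h => absurd h hθ⟩
  choose LC hLC using hex'
  have rep : ∀ θ : ℚ, 0 < θ → ∃ a b : ℕ, 0 < a ∧ 0 < b ∧ θ = (b : ℚ) / (a : ℚ) := by
    intro θ hθ
    have hn : (θ.num.toNat : ℤ) = θ.num := Int.toNat_of_nonneg (Rat.num_nonneg.2 hθ.le)
    have hn0 : 0 < θ.num.toNat := by
      have := Rat.num_pos.2 hθ
      omega
    refine ⟨θ.den, θ.num.toNat, θ.den_pos, hn0, ?_⟩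
    have : ((θ.num.toNat : ℕ) : ℚ) = (θ.num : ℚ) := by exact_mod_cast hn
    rw [this, Rat.num_div_den]
  obtain ⟨N₀, hN⟩ := spf_bound cs S₁
  refine ⟨LC, ?_, 2 * N₀, ?_, ?_⟩
  · intro a b ha hb H _ _ D
    ext x y
    rw [hLC _ (div_pos (by exact_mod_cast hb) (by exact_mod_cast ha)) a b ha hb rfl x y]
    exact hcell ha hb D x y
  · intro θ θ' hθ hle hno
    have hθ' : 0 < θ' := lt_of_lt_of_le hθ hle
    obtain ⟨a, b, ha, hb, hab⟩ := rep θ hθ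
    obtain ⟨a', b', ha', hb', hab'⟩ := rep θ' hθ'
    ext x y
    rw [hLC θ hθ a b ha hb hab, hLC θ' hθ' a' b' ha' hb' hab']
    rcases eq_or_lt_of_le hle with heq | hlt
    · exact ratio_T ha ha' (by rw [← hab, ← hab', heq]) x y
    · refine const_T hN ha hb ha' hb' ?_ x y
      intro ρ hρ hc
      rw [← hab, ← hab'] at hc
      rcases hc with hc | hc
      · exact hno ρ hρ hc
      · linarith
  · intro r hr θ θ' hθ h1 h2 hno
    have hr0 : 0 < r := hθ.trans h1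
    have hθ' : 0 < θ' := hr0.trans h2
    obtain ⟨a, b, ha, hb, hab⟩ := rep r hr0
    obtain ⟨a₁, b₁, ha₁, hb₁, hab₁⟩ := rep θ hθ
    obtain ⟨a₂, b₂, ha₂, hb₂, hab₂⟩ := rep θ' hθ'
    obtain ⟨H, i1, i2, ⟨D⟩⟩ := hex0 a b
    refine join_T hM hO hN ha hb ha₁ hb₁ ha₂ hb₂ (by rw [← hab, ← hab₁]; exact h1)
      (by rw [← hab, ← hab₂]; exact h2) ?_ ?_ _ _ _ (hLC r hr0 a b ha hb hab)
      (hLC θ hθ a₁ b₁ ha₁ hb₁ hab₁) (hLC θ' hθ' a₂ b₂ ha₂ hb₂ hab₂)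
    · intro ρ hρ k1 k2
      rw [← hab₁] at k1
      rw [← hab₂] at k2
      rw [← hab]
      exact hno ρ hρ k1 k2
    · intro x u u' c1 c2 c3 c4 c5 c6
      exact tgt_unique D (hwt ha hb) (oddEq_wt hO _ _) hM c1 c2 c3 c4 c5 c6

end Pool.Agent.Lib.KLT
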