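import Pool.Agent.Lib.MP_754fa1_al.T.A03a
import Pool.Agent.Lib.MP_754fa1_al.T.D01

/-!
# M01. The submodules `Ia` and the condition `Gd`

`ia_iff`: `Ia D m` is the span of a part of the basis `cB`. `gd_iff`: `⇒`: the coordinates of `k ∈ Ia D m` vanish at `z` with `av z ≤ m`, and `D.lat_iff`. `⇐`: `k =` the part of `h` on the `z` with `m < av z`
(`cB.repr.symm` of a filtered `Finsupp`); `D.lat_iff` for `h - k`.
All the other statements follow from `gd_iff`, `ia_iff` coordinatewise.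
`gd_top`: `Lat`-version: `Gd m n h` and `av z ≤ m`.
-/

open LaurentPolynomial
open Pool.Agent.Lib.MP_754fa1_al

namespace Pool.Agent.Lib.KLT

universe u v w

variable {B : Type u} {W : Type v} [Group W] {M : CoxeterMatrix B}
variable {cs : CoxeterSystem M W} {L : B → ℕ} {H : Type w} [Ring H] [Algebra Lau H]
variable (D : KL cs L H)

theorem ia_iff {m : ℕ} {h : H} : h ∈ Ia D m ↔ ∀ z, av cs L z ≤ m → D.cB.repr h z = 0 := by
  rw [Ia, ← D.coe_cB, Module.Basis.mem_span_image]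
  constructor
  · intro hh z hz
    by_contra h2
    have h3 := hh (Finset.mem_coe.2 (Finsupp.mem_support_iff.2 h2))
    exact absurd h3 (not_lt.2 hz)
  · intro hh z hz
    rw [Finset.mem_coe, Finsupp.mem_support_iff] at hz
    by_contra h2
    exact hz (hh z (not_lt.1 h2))

theorem gd_iff {m : ℕ} {n : ℤ} {h : H} :
    Gd D m n h ↔ ∀ z, av cs L z ≤ m → DegLe n (D.cB.repr h z) := by
  classical
  constructor
  · rintro ⟨k, hk, hl⟩ z hz
    have h1 := (D.lat_iff.1 hl) z
    rw [map_sub, Finsupp.sub_apply, (ia_iff D).1 hk z hz, sub_zero] at h1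
    exact h1
  · intro hh
    refine ⟨D.cB.repr.symm ((D.cB.repr h).filter (fun z => m < av cs L z)), ?_, ?_⟩
    · rw [ia_iff]
      intro z hz
      rw [LinearEquiv.apply_symm_apply,
        Finsupp.filter_apply_neg (fun z => m < av cs L z) _ (not_lt.2 hz)]
    · rw [D.lat_iff]
      intro z
      rw [map_sub, LinearEquiv.apply_symm_apply, Finsupp.sub_apply]
      by_cases hz : m < av cs L z
      · rw [Finsupp.filter_apply_pos (fun z => m < av cs L z) _ hz, sub_self]
        exact DegLe.zero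
      · rw [Finsupp.filter_apply_neg (fun z => m < av cs L z) _ hz, sub_zero]
        exact hh z (not_lt.1 hz)

theorem c_mem_ia {m : ℕ} {z : W} (h : m < av cs L z) : D.c z ∈ Ia D m :=
  Submodule.subset_span ⟨z, h, rfl⟩

theorem gd_of_ia {m : ℕ} {n : ℤ} {h : H} (a : h ∈ Ia D m) : Gd D m n h :=
  ⟨h, a, by
    rw [sub_self]
    exact D.lat_zero n⟩

theorem gd_of_lat {m : ℕ} {n : ℤ} {h : H} (a : D.Lat n h) : Gd D m n h :=
  ⟨0, zero_mem _, by
    rw [sub_zero]
    exact a⟩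

theorem gd_zero (m : ℕ) (n : ℤ) : Gd D m n 0 := gd_of_ia D (zero_mem _)

theorem gd_mono {m : ℕ} {n n' : ℤ} {h : H} (a : Gd D m n h) (hn : n ≤ n') : Gd D m n' h := by
  obtain ⟨k, hk, hl⟩ := a
  exact ⟨k, hk, D.lat_mono hl hn⟩

theorem gd_add {m : ℕ} {n : ℤ} {h k : H} (a : Gd D m n h) (b : Gd D m n k) :
    Gd D m n (h + k) := by
  obtain ⟨k1, hk1, hl1⟩ := a
  obtain ⟨k2, hk2, hl2⟩ := b
  refine ⟨k1 + k2, add_mem hk1 hk2, ?_⟩
  rw [add_sub_add_comm]
  exact D.lat_add hl1 hl2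

theorem gd_neg {m : ℕ} {n : ℤ} {h : H} (a : Gd D m n h) : Gd D m n (-h) := by
  obtain ⟨k1, hk1, hl1⟩ := a
  refine ⟨-k1, neg_mem hk1, ?_⟩
  rw [← neg_sub']
  exact D.lat_neg hl1

theorem gd_sub {m : ℕ} {n : ℤ} {h k : H} (a : Gd D m n h) (b : Gd D m n k) :
    Gd D m n (h - k) := by
  rw [sub_eq_add_neg]
  exact gd_add D a (gd_neg D b)

theorem gd_smul {m : ℕ} {a n : ℤ} {p : Lau} {h : H} (hp : DegLe a p) (b : Gd D m n h) :
    Gd D m (a + n) (p • h) := by
  obtain ⟨k1, hk1, hl1⟩ := b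
  refine ⟨p • k1, Submodule.smul_mem _ _ hk1, ?_⟩
  rw [← smul_sub]
  exact D.lat_smul hp hl1

theorem gd_sum {ι : Type*} {m : ℕ} {n : ℤ} (s : Finset ι) (f : ι → H)
    (h : ∀ i ∈ s, Gd D m n (f i)) : Gd D m n (∑ i ∈ s, f i) := by
  classical
  induction s using Finset.induction_on with
  | empty =>
    rw [Finset.sum_empty]
    exact gd_zero D m n
  | insert a s ha ih =>
    rw [Finset.sum_insert ha]
    exact gd_add D (h a (Finset.mem_insert_self _ _))
      (ih fun i hi => h i (Finset.mem_insert_of_mem hi))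

end Pool.Agent.Lib.KLT
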