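import Pool.Agent.Lib.MP_754fa1_al.T.M02a
import Pool.Agent.Lib.MP_754fa1_al.T.T03

/-!
# M02c. The upper bound: case B

`ur_B`: `K ⊆ J`, `CaseB K x y`: `s ∈ K`, `r ∉ K`, `3 ≤ M r s`, `Cm {r, s} (K \ {s})`, `x = x₁ p`, `y = q y₁`, `p, q ∈ WP {r, s}`, `p s_s q` not reduced. `s` is not a right descent of `p` (it would be one of `x`: `rd_rm_iff` for `{r, s}`; `RM J x`), nor a left
descent of `q`. For a suffix `u` of `w` with `av u = av w`, `L5` (`Cm {s} (K \ {s})` by `cm_mono`) gives `g` with `v^{av w} tr K C_w = v^{L s} (g T_s)` and `LL (K \ {s}) P' g`. `T_p` commutes with `g` (`hp_comm`, `ll_hp`). So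
`v^{av w} T_x tr K C_w T_y = T_{x₁} (g * (v^{L s} T_{p s_s} T_q)) T_{y₁}` (`T_p T_s = T_{p s_s}`, `mul_s_up`). `caseB_prod`: `LL {r, s} (Cs · (s_s q)) (v^{L s} T_{p s_s} T_q)`. `ll_mul` with `K \ {s}` and `{r, s}`. `(K \ {s}) ∪ {r, s}` is spherical
(`sph_dih`, `sph_mono`, `sph_union`), `RM` of `x₁` and `LM` of `y₁` for it by `cm_rm`, `cm_lm'`. `q ≠ 1` (`p s_s` times `1` is reduced), so the length decreases. `ur_ll`: first statement with `u = w`. Second statement: take the `u` of `Cy m w y`; for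
`w'' = w' g'`, with `u₀` (`Suf u₀ w'`, `av u₀ = av w'`, `Suf (u₀ s_s) u`) and `u₂` (`Suf u₂ g'`, `Suf u₂ (s_s q)`, `av u₂ = av g'`): `u'' = u₀ u₂`. `av (u'' y₁) < m`: write `u = a (u₀ s_s)` reduced, `s_s q = b u₂` reduced, `u y` reduced (`lm_len`),
`u y = a u₀ s_s q y₁ = a u₀ b u₂ y₁ = (a b) (u₀ u₂ y₁)` (`u₀ ∈ WP (K \ {s})` and `b ∈ WP {r, s}` commute), lengths: `ℓ(u y) = ℓ(a) + ℓ(u₀) + 1 + ℓ(q) + ℓ(y₁) = ℓ(a) + ℓ(u₀) + ℓ(b) + ℓ(u₂) + ℓ(y₁)`
(`ℓ(u₀ s_s) = ℓ(u₀) + 1` by `cm_rd`, `ℓ(s_s q) = 1 + ℓ(q)`), so the product is reduced. (One can also apply `cy_reduce` with `u₁ = a u₀`... ; direct is easier.)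
-/

open LaurentPolynomial
open Pool.Agent.Lib.MP_754fa1_al

namespace Pool.Agent.Lib.KLT

universe u v w

variable {B : Type u} {W : Type v} [Group W] {M : CoxeterMatrix B} [Finite B]
variable {cs : CoxeterSystem M W} {L : B → ℕ} {H : Type w} [Ring H] [Algebra Lau H]
variable (D : KL cs L H)

omit [Finite B] in
private theorem M02c_suf_refl (cs : CoxeterSystem M W) (x : W) : Suf cs x x := by
  unfold Suf
  rw [mul_inv_cancel, cs.length_one, zero_add]

private theorem M02c_key (hL : ∀ i, 0 < L i) (hE : OddEq M L) (hM : Tri M) {m N : ℕ}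
    (hU : UR D m N) {J K : Set B} (hJ : Sph M J) (hK : K ⊆ J) {w x y : W} (hw : w ∈ WP cs J)
    (hx : RM cs J x) (hy : LM cs J y) (hN : cs.length x + cs.length y < N + 1)
    {r s : B} {x₁ p q y₁ : W} (hs : s ∈ K) (h3 : 3 ≤ M r s) (hc : Cm M {r, s} (K \ {s}))
    (ex : x = x₁ * p) (hx₁ : RM cs {r, s} x₁) (hp : p ∈ WP cs {r, s}) (ey : y = q * y₁)
    (hy₁ : LM cs {r, s} y₁) (hq : q ∈ WP cs {r, s}) (hpq : ¬ Rd cs (p * cs.simple s) q)
    {u : W} (hu : Suf cs u w) (ha : av cs L u = av cs L w) :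
    Gd D m m ((T (av cs L w : ℤ) : Lau) • (D.t x * tr D.toHecke K (D.c w) * D.t y)) ∧
      (av cs L (u * y) < m → Gd D m ((m : ℤ) - 1)
        ((T (av cs L w : ℤ) : Lau) • (D.t x * tr D.toHecke K (D.c w) * D.t y))) := by
  have hsm : s ∈ ({r, s} : Set B) := Or.inr rfl
  have hps : ¬ cs.IsRightDescent p s := fun h => hx s (hK hs) (by
    rw [ex]
    exact (rd_rm_iff cs hx₁ hp hsm).2 h)
  have hqs : ¬ cs.IsLeftDescent q s := fun h => hy s (hK hs) (by
    rw [ey]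
    exact (ld_lm_iff cs hy₁ hq hsm).2 h)
  have hcs : Cm M ({s} : Set B) (K \ {s}) :=
    cm_mono hc (fun a ha => Or.inr ha) (fun a ha => ha)
  obtain ⟨g, hg1, hg2⟩ := L5 D hL hE hM hJ hw hu ha hK hs hcs
  have hgp : D.t p * g = g * D.t p :=
    hp_comm D.toHecke hc (hp_t D.toHecke hp) (ll_hp D hg2)
  have e1 : D.t x = D.t x₁ * D.t p := by rw [ex, D.t_mul _ _ (rm_len cs hx₁ hp)]
  have e2 : D.t y = D.t q * D.t y₁ := by rw [ey, D.t_mul _ _ (lm_len cs hy₁ hq)]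
  have e3 : D.t p * D.t (cs.simple s) = D.t (p * cs.simple s) := D.mul_s_up s p hps
  have e : (T (av cs L w : ℤ) : Lau) • (D.t x * tr D.toHecke K (D.c w) * D.t y) =
      D.t x₁ * (g * ((T (L s : ℤ) : Lau) • (D.t (p * cs.simple s) * D.t q))) * D.t y₁ := by
    rw [← smul_mul_assoc, ← mul_smul_comm, hg1, e1, e2, ← e3]
    simp only [mul_smul_comm, smul_mul_assoc]
    have e4 : D.t x₁ * D.t p * (g * D.t (cs.simple s)) * (D.t q * D.t y₁) =
        D.t x₁ * (D.t p * g) * D.t (cs.simple s) * D.t q * D.t y₁ := by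
      simp only [mul_assoc]
    rw [e4, hgp]
    simp only [mul_assoc]
  have hll := ll_mul D (cm_symm hc) hg2 (caseB_prod D hL hE hM h3 hp hq hps hqs)
  have hJ' : Sph M ((K \ {s}) ∪ {r, s}) :=
    sph_union (sph_mono hJ (fun a ha => hK ha.1)) (sph_dih (Or.inr ⟨r, s, h3, rfl⟩)) (cm_symm hc)
  have hx' : RM cs ((K \ {s}) ∪ {r, s}) x₁ := by
    rw [Set.union_comm]
    exact cm_rm cs hc (fun j hj => hx j (hK hj.1)) ex hx₁ hp
  have hy' : LM cs ((K \ {s}) ∪ {r, s}) y₁ := by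
    rw [Set.union_comm]
    exact cm_lm' cs hc (fun j hj => hy j (hK hj.1)) ey hy₁ hq
  have hq1 : q ≠ 1 := by
    rintro rfl
    exact hpq (by simp [Rd])
  have hN' : cs.length x₁ + cs.length y₁ < N := by
    have l1 := rm_len cs hx₁ hp
    have l2 := lm_len cs hy₁ hq
    unfold Rd at l1 l2
    rw [← ex] at l1
    rw [← ey] at l2
    have l3 : 0 < cs.length q := by
      rcases Nat.eq_zero_or_pos (cs.length q) with h | h
      · exact absurd (cs.length_eq_zero_iff.1 h) hq1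
      · exact h
    omega
  have hfin := ur_ll D hU hJ' hx' hy' hN' hll
  rw [e]
  refine ⟨hfin.1, fun hum => hfin.2 ?_⟩
  rintro w'' - ⟨w', hw', g', hg', rfl, ⟨u₀, hu₀, hau₀, hu₀s⟩, u₂, hu₂, hu₂q, hau₂⟩
  have hu₀m := wp_suf cs hu₀ hw'
  refine ⟨u₀ * u₂, cm_suf_mul cs (cm_symm hc) hw' hg' hu₀ hu₂, ?_, ?_⟩
  · rw [av_cm cs L (cm_symm hc) hu₀m (wp_suf cs hu₂ hg'), hau₀, hau₂,
      ← av_cm cs L (cm_symm hc) hw' hg']
  · obtain ⟨a, ea, la⟩ := (suf_iff cs _ _).1 hu₀s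
    obtain ⟨b, eb, lb⟩ := (suf_iff cs _ _).1 hu₂q
    have huJ : u ∈ WP cs J := wp_suf cs hu hw
    have hruy : Rd cs u y := lm_len cs hy huJ
    have hsq : cs.simple s * q ∈ WP cs {r, s} := mul_mem ((simple_mem_wp cs).2 hsm) hq
    have hb : b ∈ WP cs {r, s} := by
      rw [wp_iff_spt]
      have h1 : Rd cs b u₂ := by
        unfold Rd
        rw [← eb]
        exact lb
      have h2 := (wp_iff_spt cs).1 hsq
      rw [eb, spt_mul cs h1] at h2
      exact fun i hi => h2 (Or.inl hi)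
    have hcomm : u₀ * b = b * u₀ := cm_comm cs (cm_symm hc) hu₀m hb
    have e5 : u * y = (a * b) * (u₀ * u₂ * y₁) := by
      rw [ea, ey]
      calc a * (u₀ * cs.simple s) * (q * y₁) = a * u₀ * (cs.simple s * q) * y₁ := by
            simp only [mul_assoc]
        _ = a * u₀ * (b * u₂) * y₁ := by rw [eb]
        _ = a * (u₀ * b) * (u₂ * y₁) := by simp only [mul_assoc]
        _ = a * (b * u₀) * (u₂ * y₁) := by rw [hcomm]
        _ = (a * b) * (u₀ * u₂ * y₁) := by simp only [mul_assoc]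
    have l0 : cs.length (u₀ * cs.simple s) = cs.length u₀ + 1 := by
      have h := cm_rd cs (cm_symm hcs) hu₀m
        ((simple_mem_wp cs).2 rfl : cs.simple s ∈ WP cs ({s} : Set B))
      unfold Rd at h
      rw [cs.length_simple] at h
      exact h
    have l1 : cs.length (cs.simple s * q) = cs.length q + 1 := (cs.not_isLeftDescent_iff).1 hqs
    have l2 := lm_len cs hy₁ hq
    have h6 : Rd cs (a * b) (u₀ * u₂ * y₁) := by
      unfold Rd at hruy l2 ⊢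
      rw [← ey] at l2
      have k1 := cs.length_mul_le (a * b) (u₀ * u₂ * y₁)
      have k2 := cs.length_mul_le a b
      have k3 := cs.length_mul_le (u₀ * u₂) y₁
      have k4 := cs.length_mul_le u₀ u₂
      rw [← e5] at k1 ⊢
      omega
    rw [e5] at hum
    exact lt_of_le_of_lt (av_mono cs L (fac_right cs h6)) hum

theorem ur_B (hL : ∀ i, 0 < L i) (hE : OddEq M L) (hM : Tri M) {m N : ℕ} (hU : UR D m N)
    {J K : Set B} (hJ : Sph M J) (hK : K ⊆ J) {w x y : W} (hw : w ∈ WP cs J)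
    (hx : RM cs J x) (hy : LM cs J y) (hN : cs.length x + cs.length y < N + 1)
    (hB : CaseB cs K x y) :
    Gd D m m ((T (av cs L w : ℤ) : Lau) • (D.t x * tr D.toHecke K (D.c w) * D.t y)) ∧
      (Cy cs L m w y → Gd D m ((m : ℤ) - 1)
        ((T (av cs L w : ℤ) : Lau) • (D.t x * tr D.toHecke K (D.c w) * D.t y))) := by
  obtain ⟨r, s, x₁, p, q, y₁, hs, -, h3, hc, ex, hx₁, hp, ey, hy₁, hq, hpq⟩ := hB
  refine ⟨(M02c_key D hL hE hM hU hJ hK hw hx hy hN hs h3 hc ex hx₁ hp ey hy₁ hq hpq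
    (M02c_suf_refl cs w) rfl).1, ?_⟩
  rintro ⟨u, hu, hau, hum⟩
  exact (M02c_key D hL hE hM hU hJ hK hw hx hy hN hs h3 hc ex hx₁ hp ey hy₁ hq hpq hu hau).2 hum

end Pool.Agent.Lib.KLT
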