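import Pool.Agent.Lib.MP_754fa1_al.T.M02b
import Pool.Agent.Lib.MP_754fa1_al.T.M02c

/-!
# M02. The upper bound

`TS D m`: `Ia D m` is two-sided.
`ur_all`: induction on `N`. `N = 0`: void. `N → N + 1`: let `J, w, x, y` with `ℓ(x) + ℓ(y) < N + 1`. If `m < av w`: `C_w ∈ Ia D m` (`c_mem_ia`), so the element is in `Ia D m` (`TS`, `Submodule.smul_mem`), `gd_of_ia`. Let `av w ≤ m`. `C_w = ∑_K tr K C_w`
(`tr_sum`), so the element is the sum over `K` of `v^{av w} T_x (tr K C_w) T_y`; `gd_sum`. `K ⊄ J`: `tr K C_w = 0` (`tr_zero_of_hp`, `hp_c`). `K ⊆ J`: if `x z y` is reduced for all `z` with `spt z = K`: `ur_red`. Otherwise `trich` (for `K`: `sph_mono`,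
`RM K x`, `LM K y`) gives case A or B: `ur_A`, `ur_B`.

`gd_mul`: `Lat a h`, `Lat b k` imply `Gd m (a + b + m) (h k)`: `h k = ∑ h_x k_y T_x T_y`, and `Gd m m (T_x T_y)`: `ur_all` with `J = ∅`, `w = 1` (`c_one`, `av_one`).
`gd_tt_small`: `av b < m`: `Gd m (m - 1) (T_a T_b)`: `ur_all` with `J = ∅`, `w = 1` and `Cy m 1 b` (`u = 1`).
`gd_cc_small`: `C_a C_b = T_a T_b + (C_a - T_a) C_b + T_a (C_b - T_b)`, `gd_mul` for the last two (`lat_c_sub_t`, `lat_c`, `lat_t`).
-/

open LaurentPolynomial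
open Pool.Agent.Lib.MP_754fa1_al

namespace Pool.Agent.Lib.KLT

universe u v w

variable {B : Type u} {W : Type v} [Group W] {M : CoxeterMatrix B}
variable {cs : CoxeterSystem M W} {L : B → ℕ} {H : Type w} [Ring H] [Algebra Lau H]

/-- `Ia D m` is a two-sided ideal -/
def TS (D : KL cs L H) (m : ℕ) : Prop := ∀ (g : H), ∀ a ∈ Ia D m, g * a ∈ Ia D m ∧ a * g ∈ Ia D m

variable [Finite B] (D : KL cs L H)

theorem ur_all (hL : ∀ i, 0 < L i) (hE : OddEq M L) (hM : Tri M) {m : ℕ} (hT : TS D m)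
    (N : ℕ) : UR D m N := by
  induction N with
  | zero =>
    intro J w x y _ _ _ _ h
    exact absurd h (Nat.not_lt_zero _)
  | succ N ih =>
    intro J w x y hJ hw hx hy hN
    by_cases hm : m < av cs L w
    · have h1 : (T (av cs L w : ℤ) : Lau) • (D.t x * D.c w * D.t y) ∈ Ia D m :=
        Submodule.smul_mem _ _ (hT _ _ (hT _ _ (c_mem_ia D hm)).1).2
      exact ⟨gd_of_ia D h1, fun _ => gd_of_ia D h1⟩
    · rw [not_lt] at hm
      have key : ∀ K : Set B,
          Gd D m m ((T (av cs L w : ℤ) : Lau) • (D.t x * tr D.toHecke K (D.c w) * D.t y)) ∧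
          (Cy cs L m w y → Gd D m ((m : ℤ) - 1)
            ((T (av cs L w : ℤ) : Lau) • (D.t x * tr D.toHecke K (D.c w) * D.t y))) := by
        intro K
        by_cases hK : K ⊆ J
        · by_cases hr : ∀ z, spt cs z = K → Rd cs (x * z) y
          · exact ur_red D hK hw hx hy hr hm
          · push Not at hr
            obtain ⟨z, hz, hr⟩ := hr
            rcases trich cs hM (sph_mono hJ hK) (fun j hj => hx j (hK hj))
              (fun j hj => hy j (hK hj)) hz hr with hA | hB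
            · exact ur_A D hL hE hM ih hJ hK hw hx hy hN hA
            · exact ur_B D hL hE hM ih hJ hK hw hx hy hN hB
        · rw [tr_zero_of_hp D.toHecke (hp_c D hw) hK, mul_zero, zero_mul, smul_zero]
          exact ⟨gd_zero D m _, fun _ => gd_zero D m _⟩
      have e : (T (av cs L w : ℤ) : Lau) • (D.t x * D.c w * D.t y) =
          ∑ K ∈ (Set.toFinite (Set.univ : Set (Set B))).toFinset,
            (T (av cs L w : ℤ) : Lau) • (D.t x * tr D.toHecke K (D.c w) * D.t y) := by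
        rw [← Finset.smul_sum, ← Finset.sum_mul, ← Finset.mul_sum, tr_sum]
      rw [e]
      exact ⟨gd_sum D _ _ fun K _ => (key K).1, fun hc => gd_sum D _ _ fun K _ => (key K).2 hc⟩

private theorem M02_tt (hL : ∀ i, 0 < L i) (hE : OddEq M L) (hM : Tri M) {m : ℕ}
    (hT : TS D m) (x y : W) : Gd D m m (D.t x * D.t y) ∧
      (av cs L y < m → Gd D m ((m : ℤ) - 1) (D.t x * D.t y)) := by
  have h1 := ur_all D hL hE hM hT (cs.length x + cs.length y + 1) ∅ 1 x y
    (fun i hi => absurd hi (Set.notMem_empty i)) (Subgroup.one_mem _)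
    (fun i hi => absurd hi (Set.notMem_empty i)) (fun i hi => absurd hi (Set.notMem_empty i))
    (Nat.lt_succ_self _)
  have e : (T (av cs L (1 : W) : ℤ) : Lau) • (D.t x * D.c 1 * D.t y) = D.t x * D.t y := by
    rw [av_one cs L, Nat.cast_zero, T_zero, one_smul, c_one D, mul_one]
  rw [e] at h1
  refine ⟨h1.1, fun h => h1.2 ⟨1, suf_refl cs 1, rfl, ?_⟩⟩
  rw [one_mul]
  exact h

theorem gd_mul (hL : ∀ i, 0 < L i) (hE : OddEq M L) (hM : Tri M) {m : ℕ} (hT : TS D m)
    {a b : ℤ} {h k : H} (hh : D.Lat a h) (hk : D.Lat b k) : Gd D m (a + b + m) (h * k) := by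
  have e : h * k = ∑ x ∈ (D.t.repr h).support, ∑ y ∈ (D.t.repr k).support,
      (D.t.repr h x * D.t.repr k y) • (D.t x * D.t y) := by
    conv_lhs => rw [← D.t.linearCombination_repr h, ← D.t.linearCombination_repr k]
    rw [Finsupp.linearCombination_apply, Finsupp.linearCombination_apply, Finsupp.sum,
      Finsupp.sum, Finset.sum_mul_sum]
    apply Finset.sum_congr rfl
    intro x _
    apply Finset.sum_congr rfl
    intro y _
    rw [smul_mul_smul_comm]
  rw [e]
  refine gd_sum D _ _ fun x _ => gd_sum D _ _ fun y _ => ?_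
  exact gd_smul D ((hh x).mul (hk y)) (M02_tt D hL hE hM hT x y).1

theorem gd_tt_small (hL : ∀ i, 0 < L i) (hE : OddEq M L) (hM : Tri M) {m : ℕ} (hT : TS D m)
    {a b : W} (hb : av cs L b < m) : Gd D m ((m : ℤ) - 1) (D.t a * D.t b) :=
  (M02_tt D hL hE hM hT a b).2 hb

theorem gd_cc_small (hL : ∀ i, 0 < L i) (hE : OddEq M L) (hM : Tri M) {m : ℕ} (hT : TS D m)
    {a b : W} (hb : av cs L b < m) : Gd D m ((m : ℤ) - 1) (D.c a * D.c b) := by
  have e : D.c a * D.c b = D.t a * D.t b + (D.c a - D.t a) * D.c b +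
      D.t a * (D.c b - D.t b) := by
    rw [sub_mul, mul_sub]
    abel
  rw [e]
  refine gd_add D (gd_add D (gd_tt_small D hL hE hM hT hb) ?_) ?_
  · exact gd_mono D (gd_mul D hL hE hM hT (D.lat_c_sub_t a) (D.lat_c b)) (by omega)
  · exact gd_mono D (gd_mul D hL hE hM hT (D.lat_t a) (D.lat_c_sub_t b)) (by omega)

end Pool.Agent.Lib.KLT
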