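import Pool.Agent.Lib.MP_754fa1_al.T.X1b
import Pool.Agent.Lib.MP_754fa1_al.T.D06

/-!
# X2. Products `C_p C_q` and `T_p T_q` in spherical parabolic subalgebras

`o1_sph`: `sph_induction`. `J = ∅`: `p = q = 1` (`WP ∅`: `spt_empty`), `C_1 C_1 = 1 = C_1`: coordinate `1` at `1`, `av 1 = 0`, `Cs 1 1`. `J = J₁ ∪ J'` with `J₁ = {i}` or `{i, j}` (`Dih`), `Cm J₁ J'`:
`p = p₁ p'`, `q = q₁ q'` (`cm_union`), `C_p C_q = C_{p₁} C_{p'} C_{q₁} C_{q'} = (C_{p₁} C_{q₁})(C_{p'} C_{q'})` (`c_cm`, `hp_comm`, `hp_c`); `o1_dih`, the induction hypothesis, `ll_mul`, and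
`ll_mono`: if `w = w₁ w'`, `Cs w₁ q₁`, `Cs w' q'` then `Cs w q` (`cs_cm`).

`ll_neg_mul`: if `h, k ∈ H_J` have `C`-coordinates of degree `≤ a`, `≤ b` and `a + b ≤ -1`, then `LL J P (h k)` for every `P`: expand `h k = ∑ h_p k_q C_p C_q` over `p, q ∈ WP J` (finite supports of
`D.cB.repr h`, `D.cB.repr k`), `ll_sum`, `ll_smul_neg`, `o1_sph`.
`o1_t`: `T_p = C_p + x`, `T_q = C_q + y` with `x, y ∈ H_J` and coordinates of degree `≤ -1` (`hp_sub`, `hp_t`, `hp_c`; `D.lat_iff`, `lat_c_sub_t`). `T_p T_q = C_p C_q + x C_q + C_p y + x y`; `o1_sph` and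
`ll_neg_mul` (coordinates of `C_p`: degree `≤ 0`).

`caseB_prod`: `3 ≤ M r s`, `p, q ∈ WP {r, s}`, `s` not a right descent of `p`, not a left descent of `q`. Then `LL {r, s} (Cs · (s q)) (v^{L s} T_{p s} T_q)`.
`T_p T_{s q} ... `: `T_{ps} T_{sq} = T_p T_s T_s T_q = T_p T_q + ξ_s T_{ps} T_q` (`t_sq`), so `ξ_s T_{ps} T_q = T_{ps} T_{sq} - T_p T_q`. Let `β_w` be the coordinate of `T_{ps} T_q`. The coordinate of
`ξ_s T_{ps} T_q` is `ξ_s β_w`; by `o1_t` it has degree `≤ av w`, and if its coefficient at `av w` is non-zero then `Cs w (s q)` or `Cs w q`; `Cs w q` implies `Cs w (s q)` (a suffix of `q` is a suffix of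
`s q`, which is reduced: `suf_trans`, `suf_mul`). Since `ξ_s` has degree exactly `L s` with top coefficient `1` (`coeff_xi_top`), `β_w` has degree `≤ av w - L s`
(if `β_w ≠ 0` let `d` be its degree (`DegLe.exists_top`); `coeff_mul_top` gives a non-zero coefficient of `ξ_s β_w` at `L s + d`), and the coefficient of `v^{L s} β_w` at `av w` is that of `ξ_s β_w`
at `av w` (`coeff_mul_top` for `ξ_s` and for `T (L s)`).
-/

open LaurentPolynomial
open Pool.Agent.Lib.MP_754fa1_al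

namespace Pool.Agent.Lib.KLT

universe u v w

variable {B : Type u} {W : Type v} [Group W] {M : CoxeterMatrix B} [Finite B]
variable {cs : CoxeterSystem M W} {L : B → ℕ} {H : Type w} [Ring H] [Algebra Lau H]
variable (D : KL cs L H)

omit [Finite B] in
private theorem X2_c_one : D.c 1 = 1 := by
  symm
  apply D.c_eq
  · rw [map_one]
  · rw [D.toHecke.t_one, sub_self]
    exact D.lat_zero (-1)

omit [Finite B] in
private theorem X2_expand (h : H) :
    h = ∑ z ∈ (D.cB.repr h).support, D.cB.repr h z • D.c z := by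
  conv_lhs => rw [← D.cB.linearCombination_repr h]
  rw [Finsupp.linearCombination_apply, D.coe_cB]
  rfl

theorem o1_sph (hL : ∀ i, 0 < L i) (hE : OddEq M L) (hM : Tri M) {J : Set B} (hJ : Sph M J)
    {p q : W} (hp : p ∈ WP cs J) (hq : q ∈ WP cs J) :
    LL D J (fun w => Cs cs L w q) (D.c p * D.c q) := by
  have step : ∀ (J₁ J' : Set B), Dih M J₁ → Cm M J₁ J' →
      (∀ p q : W, p ∈ WP cs J' → q ∈ WP cs J' → LL D J' (fun w => Cs cs L w q) (D.c p * D.c q)) →
      ∀ p q : W, p ∈ WP cs (J₁ ∪ J') → q ∈ WP cs (J₁ ∪ J') →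
        LL D (J₁ ∪ J') (fun w => Cs cs L w q) (D.c p * D.c q) := by
    intro J₁ J' hD hc ih p q hp hq
    obtain ⟨p₁, hp₁, p', hp', rfl⟩ := (cm_union cs hc).1 hp
    obtain ⟨q₁, hq₁, q', hq', rfl⟩ := (cm_union cs hc).1 hq
    have hcomm : D.c q₁ * D.c p' = D.c p' * D.c q₁ :=
      hp_comm D.toHecke hc (hp_c D hq₁) (hp_c D hp')
    have e1 : D.c (p₁ * p') * D.c (q₁ * q') = (D.c p₁ * D.c q₁) * (D.c p' * D.c q') := by
      rw [c_cm D hc hp₁ hp', c_cm D hc hq₁ hq', mul_assoc, ← mul_assoc (D.c p'), ← hcomm,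
        mul_assoc, mul_assoc]
    rw [e1]
    refine ll_mono D (le_refl _) ?_ (ll_mul D hc (o1_dih D hL hE hD hp₁ hq₁) (ih p' q' hp' hq'))
    rintro w _ ⟨a, ha, b, hb, rfl, h1, h2⟩
    exact cs_cm cs L hc ha hq₁ hb hq' h1 h2
  have main := sph_induction hM (P := fun J => ∀ p q : W, p ∈ WP cs J → q ∈ WP cs J →
      LL D J (fun w => Cs cs L w q) (D.c p * D.c q)) ?_ ?_ ?_ J hJ
  · exact main p q hp hq
  · intro p q hp hq
    have hp1 : p = 1 := spt_empty cs (Set.subset_empty_iff.mp ((wp_iff_spt cs).1 hp))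
    have hq1 : q = 1 := spt_empty cs (Set.subset_empty_iff.mp ((wp_iff_spt cs).1 hq))
    subst hp1 hq1
    rw [X2_c_one D, mul_one, ← X2_c_one D, ← D.cB_apply]
    intro w
    by_cases hw : w = 1
    · subst hw
      rw [Module.Basis.repr_self, Finsupp.single_eq_same]
      refine ⟨fun h => absurd (one_mem _) h, DegLe.one.mono (by omega), fun _ => ?_⟩
      exact ⟨1, suf_refl cs 1, suf_refl cs 1, rfl⟩
    · rw [Module.Basis.repr_self, Finsupp.single_eq_of_ne hw]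
      exact ⟨fun _ => rfl, DegLe.zero, fun h => absurd (lp_coeff_zero _) h⟩
  · intro i J _ hc ih
    exact step {i} J (Or.inl ⟨i, rfl⟩) hc ih
  · intro i j J _ h3 hc ih
    exact step {i, j} J (Or.inr ⟨i, j, h3, rfl⟩) hc ih

theorem ll_neg_mul (hL : ∀ i, 0 < L i) (hE : OddEq M L) (hM : Tri M) {J : Set B}
    (hJ : Sph M J) {h k : H} (hh : HP D.toHecke J h) (hk : HP D.toHecke J k) {a b : ℤ}
    (ha : ∀ z, DegLe a (D.cB.repr h z)) (hb : ∀ z, DegLe b (D.cB.repr k z)) (hab : a + b ≤ -1)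
    (P : W → Prop) : LL D J P (h * k) := by
  have e1 : h * k = ∑ p ∈ (D.cB.repr h).support, ∑ q ∈ (D.cB.repr k).support,
      (D.cB.repr h p * D.cB.repr k q) • (D.c p * D.c q) := by
    conv_lhs => rw [X2_expand D h, X2_expand D k]
    rw [Finset.sum_mul_sum]
    refine Finset.sum_congr rfl fun p _ => Finset.sum_congr rfl fun q _ => ?_
    rw [smul_mul_smul_comm]
  have hmem : ∀ {g : H}, HP D.toHecke J g → ∀ p ∈ (D.cB.repr g).support, p ∈ WP cs J := by
    intro g hg p hp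
    by_contra hcon
    exact (Finsupp.mem_support_iff.1 hp) ((hp_iff_c D).1 hg p hcon)
  rw [e1]
  refine ll_sum D _ _ fun p hp => ll_sum D _ _ fun q hq => ?_
  exact ll_smul_neg D (((ha p).mul (hb q)).mono hab)
    (o1_sph D hL hE hM hJ (hmem hh p hp) (hmem hk q hq))

theorem o1_t (hL : ∀ i, 0 < L i) (hE : OddEq M L) (hM : Tri M) {J : Set B} (hJ : Sph M J)
    {p q : W} (hp : p ∈ WP cs J) (hq : q ∈ WP cs J) :
    LL D J (fun w => Cs cs L w q) (D.t p * D.t q) := by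
  have hx : ∀ {p : W}, p ∈ WP cs J → HP D.toHecke J (D.t p - D.c p) ∧
      ∀ z, DegLe (-1) (D.cB.repr (D.t p - D.c p) z) := by
    intro p hp
    refine ⟨hp_sub D.toHecke (hp_t D.toHecke hp) (hp_c D hp), ?_⟩
    apply D.lat_iff.1
    have h1 := D.lat_neg (D.lat_c_sub_t p)
    rwa [neg_sub] at h1
  have h0 : ∀ p : W, ∀ z, DegLe 0 (D.cB.repr (D.c p) z) := fun p => D.lat_iff.1 (D.lat_c p)
  have e1 : D.t p * D.t q = ((D.c p * D.c q + (D.t p - D.c p) * D.c q) +
      D.c p * (D.t q - D.c q)) + (D.t p - D.c p) * (D.t q - D.c q) := by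
    noncomm_ring
  rw [e1]
  refine ll_add D (ll_add D (ll_add D (o1_sph D hL hE hM hJ hp hq) ?_) ?_) ?_
  · exact ll_neg_mul D hL hE hM hJ (hx hp).1 (hp_c D hq) (hx hp).2 (h0 q) (by norm_num) _
  · exact ll_neg_mul D hL hE hM hJ (hp_c D hp) (hx hq).1 (h0 p) (hx hq).2 (by norm_num) _
  · exact ll_neg_mul D hL hE hM hJ (hx hp).1 (hx hq).1 (hx hp).2 (hx hq).2 (by norm_num) _

theorem caseB_prod (hL : ∀ i, 0 < L i) (hE : OddEq M L) (hM : Tri M) {r s : B}
    (h3 : 3 ≤ M r s) {p q : W} (hp : p ∈ WP cs {r, s}) (hq : q ∈ WP cs {r, s})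
    (hps : ¬ cs.IsRightDescent p s) (hqs : ¬ cs.IsLeftDescent q s) :
    LL D {r, s} (fun w => Cs cs L w (cs.simple s * q))
      ((T (L s : ℤ) : Lau) • (D.t (p * cs.simple s) * D.t q)) := by
  have hJ : Sph M {r, s} := sph_dih (Or.inr ⟨r, s, h3, rfl⟩)
  have hsJ : cs.simple s ∈ WP cs {r, s} := (simple_mem_wp cs).2 (by simp)
  have hpsJ : p * cs.simple s ∈ WP cs {r, s} := mul_mem hp hsJ
  have hsqJ : cs.simple s * q ∈ WP cs {r, s} := mul_mem hsJ hq
  have e1 : D.t p * D.t (cs.simple s) = D.t (p * cs.simple s) := D.toHecke.mul_s_up s p hps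
  have e2 : D.t (cs.simple s) * D.t q = D.t (cs.simple s * q) := D.toHecke.s_mul_up s q hqs
  have e3 : D.t (p * cs.simple s) * D.t (cs.simple s * q) =
      D.t p * D.t q + xi (L s) • (D.t (p * cs.simple s) * D.t q) := by
    rw [← e1, ← e2, mul_assoc, ← mul_assoc (D.t (cs.simple s)), D.toHecke.t_sq, add_mul, one_mul,
      mul_add, smul_mul_assoc, mul_smul_comm, mul_assoc]
  have e4 : xi (L s) • (D.t (p * cs.simple s) * D.t q) =
      D.t (p * cs.simple s) * D.t (cs.simple s * q) + -(D.t p * D.t q) := by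
    rw [e3]; abel
  have hsq : Suf cs q (cs.simple s * q) := by
    apply suf_mul
    rw [cs.not_isLeftDescent_iff.1 hqs, cs.length_simple, add_comm]
  have hxi : LL D {r, s} (fun w => Cs cs L w (cs.simple s * q))
      (xi (L s) • (D.t (p * cs.simple s) * D.t q)) := by
    rw [e4]
    refine ll_add D (o1_t D hL hE hM hJ hpsJ hsqJ) (ll_neg D ?_)
    refine ll_mono D (le_refl _) ?_ (o1_t D hL hE hM hJ hp hq)
    rintro w _ ⟨u, h1, h2, h4⟩
    exact ⟨u, h1, suf_trans cs h2 hsq, h4⟩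
  have hHP : HP D.toHecke {r, s} (D.t (p * cs.simple s) * D.t q) :=
    hp_mul D.toHecke (hp_t D.toHecke hpsJ) (hp_t D.toHecke hq)
  generalize D.t (p * cs.simple s) * D.t q = h at hxi hHP
  intro w
  obtain ⟨_, a2, a3⟩ := hxi w
  rw [map_smul, Finsupp.smul_apply, smul_eq_mul] at a2 a3
  rw [map_smul, Finsupp.smul_apply, smul_eq_mul]
  have hβ : DegLe ((av cs L w : ℤ) - L s) (D.cB.repr h w) := by
    by_cases h0 : D.cB.repr h w = 0
    · rw [h0]; exact DegLe.zero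
    · obtain ⟨d, hd, hd'⟩ := DegLe.exists_top h0
      have h1 := coeff_mul_top (DegLe.xi (L s)) hd'
      rw [coeff_xi_top _ (hL s), one_mul] at h1
      have h2 : ¬ ((av cs L w : ℤ) < (L s : ℤ) + d) := by
        intro h3
        have h4 := a2 _ h3
        rw [h1] at h4
        exact hd h4
      exact hd'.mono (by omega)
  have hsum : (L s : ℤ) + ((av cs L w : ℤ) - L s) = av cs L w := by ring
  have hT : ((T (L s : ℤ) : Lau) * D.cB.repr h w).coeff (av cs L w) =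
      (D.cB.repr h w).coeff ((av cs L w : ℤ) - L s) := by
    have h1 := coeff_mul_top (DegLe.T (le_refl (L s : ℤ))) hβ
    rw [hsum, T_apply, if_pos rfl, one_mul] at h1
    exact h1
  have hX : (xi (L s) * D.cB.repr h w).coeff (av cs L w) =
      (D.cB.repr h w).coeff ((av cs L w : ℤ) - L s) := by
    have h1 := coeff_mul_top (DegLe.xi (L s)) hβ
    rw [hsum, coeff_xi_top _ (hL s), one_mul] at h1
    exact h1
  refine ⟨?_, ?_, ?_⟩
  · intro hw
    rw [(hp_iff_c D).1 hHP w hw, mul_zero]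
  · have h1 := (DegLe.T (le_refl (L s : ℤ))).mul hβ
    rwa [hsum] at h1
  · intro hw
    apply a3
    rw [hX, ← hT]
    exact hw

end Pool.Agent.Lib.KLT
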