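import Pool.Agent.Lib.MP_754fa1_al.T.X4a

/-!
# X4. The parts of `C_w` for spherical `J`

`L4`: `sph_induction` on `J` (generalising `w, u, K`). `J = ∅`: `w = 1`, `u = 1`, `K = ∅`, `C_1 = 1` (`c_one`), `tr_empty`: `LL ∅`: coordinate `1` at `1`. (This is `L4_dih`-like; direct.)
`J = J₁ ∪ J'`, `Dih J₁`, `Cm J₁ J'`: `w = w₁ w'` (`cm_union`), `C_w = C_{w₁} C_{w'}` (`c_cm`), `u = u₁ u'` with `Suf u₁ w₁`, `av u₁ = av w₁`, `Suf u' w'`, `av u' = av w'` (`suf_av_cm`), `K = (K ∩ J₁) ∪ (K ∩ J')`,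
`tr K C_w = tr (K ∩ J₁) C_{w₁} * tr (K ∩ J') C_{w'}` (`tr_cm`, `hp_c`), `av w = av w₁ + av w'` (`av_cm`), `T (a + b) = T a * T b`. `L4_dih`, the induction hypothesis, `ll_mul` (`Cm (K ∩ J₁) (K ∩ J')`), and
`ll_mono`: `w'' = p q`, with `u₁'` for `p` and `u₂'` for `q`: take `u₁' u₂'`: `cm_suf_mul` twice (`u₁' ∈ WP` by `wp_suf`), `av_cm`.

`L5`: `s ∈ K ⊆ J` with `Cm {s} (K \ {s})`. By `sph_cases` (for `s ∈ J`): `J = J₁ ∪ J'`, `J₁ = {s}` or `J₁ = {s, e}`, `3 ≤ M s e`, `J' = J \ J₁`, `Cm J₁ J'`. `e ∉ K` (otherwise `M s e = 2`). So `K ∩ J₁ = {s}`, `K ∩ J' = K \ {s}`.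
With `w = w₁ w'`, `u = u₁ u'` as before: `tr K C_w = tr {s} C_{w₁} * tr (K \ {s}) C_{w'} = p(s) T_s * X`, `X = tr (K \ {s}) C_{w'}`, `p(s) = D.t.repr (D.c w₁) s` (`tr_single`). Put `π = v^{av w₁ - L s} p(s)` (`DegLe 0 π` by `o2_s`) and
`g = π • (v^{av w'} X)`. Then `v^{av w} tr K C_w = v^{L s} (g T_s)` as `T_s X = X T_s` (`hp_comm`: `X ∈ H_{K \ {s}}`, `hp_tr`). `LL (K \ {s}) P' g` with `P' x := ∃ u₀, Suf u₀ x ∧ av u₀ = av x ∧ Suf (u₀ s_s) u`: the degree bound: `L4` for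
`w'` and `ll_smul`. If the coefficient of `π x` at `av` is non-zero, then `π` has non-zero coefficient at `0` and the coordinate of `v^{av w'} X` has non-zero top coefficient (`coeff_mul_top`); so `s` is a right descent of `w₁` (`o2_s`:
`(p(s)).coeff (L s - av w₁) ≠ 0`), so of `u₁` (`dih_suf_rd`), and there is `u₀` with `Suf u₀ x`, `av u₀ = av x`, `Suf u₀ u'`. `u₀ s_s = s_s u₀` is a suffix of `u₁ u'` (`cm_suf_mul`: `Suf s_s u₁`, `Suf u₀ u'`).
(In `L4` for `w'` apply with `J'`, `K \ {s} ⊆ J'`.)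
-/

open LaurentPolynomial
open Pool.Agent.Lib.MP_754fa1_al

namespace Pool.Agent.Lib.KLT

universe u v w

variable {B : Type u} {W : Type v} [Group W] {M : CoxeterMatrix B} [Finite B]
variable {cs : CoxeterSystem M W} {L : B → ℕ} {H : Type w} [Ring H] [Algebra Lau H]
variable (D : KL cs L H)

private theorem X4_step (hL : ∀ i, 0 < L i) (hE : OddEq M L) {J₁ J' : Set B}
    (hJ₁ : Dih M J₁) (hc : Cm M J₁ J')
    (ih : ∀ (w u : W) (K : Set B), w ∈ WP cs J' → Suf cs u w → av cs L u = av cs L w → K ⊆ J' →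
      LL D K (fun w' => ∃ u', Suf cs u' w' ∧ av cs L u' = av cs L w' ∧ Suf cs u' u)
        ((T (av cs L w : ℤ) : Lau) • tr D.toHecke K (D.c w)))
    (w u : W) (K : Set B) (hw : w ∈ WP cs (J₁ ∪ J')) (hu : Suf cs u w)
    (ha : av cs L u = av cs L w) (hK : K ⊆ J₁ ∪ J') :
      LL D K (fun w' => ∃ u', Suf cs u' w' ∧ av cs L u' = av cs L w' ∧ Suf cs u' u)
        ((T (av cs L w : ℤ) : Lau) • tr D.toHecke K (D.c w)) := by
  obtain ⟨w₁, hw₁, w₂, hw₂, rfl⟩ := (cm_union cs hc).1 hw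
  obtain ⟨u₁, hu₁, u₂, hu₂, rfl, s1, s2, a1, a2⟩ := suf_av_cm cs L hc hw₁ hw₂ hu ha
  have eK : K ∩ J₁ ∪ K ∩ J' = K := by
    rw [← Set.inter_union_distrib_left, Set.inter_eq_left.2 hK]
  have hcK : Cm M (K ∩ J₁) (K ∩ J') := cm_mono hc Set.inter_subset_right Set.inter_subset_right
  have l1 := L4_dih D hL hE hJ₁ hw₁ s1 a1 (K := K ∩ J₁) Set.inter_subset_right
  have l2 := ih w₂ u₂ (K ∩ J') hw₂ s2 a2 Set.inter_subset_right
  have l3 := ll_mul D hcK l1 l2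
  have e1 : (T (av cs L (w₁ * w₂) : ℤ) : Lau) • tr D.toHecke K (D.c (w₁ * w₂)) =
      ((T (av cs L w₁ : ℤ) : Lau) • tr D.toHecke (K ∩ J₁) (D.c w₁)) *
        ((T (av cs L w₂ : ℤ) : Lau) • tr D.toHecke (K ∩ J') (D.c w₂)) := by
    rw [av_cm cs L hc hw₁ hw₂, c_cm D hc hw₁ hw₂, smul_mul_smul_comm, Nat.cast_add, T_add,
      ← tr_cm D.toHecke hc (hp_c D hw₁) (hp_c D hw₂) Set.inter_subset_right
        Set.inter_subset_right, eK]
  rw [e1]
  refine ll_mono D (le_of_eq eK) ?_ l3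
  rintro x - ⟨p, hp, q, hq, rfl, ⟨u1, b1, b2, b3⟩, ⟨u2, c1, c2, c3⟩⟩
  have hpJ : p ∈ WP cs J₁ := wp_mono cs Set.inter_subset_right hp
  have hqJ : q ∈ WP cs J' := wp_mono cs Set.inter_subset_right hq
  have hu1 : u1 ∈ WP cs J₁ := wp_suf cs b1 hpJ
  have hu2 : u2 ∈ WP cs J' := wp_suf cs c1 hqJ
  refine ⟨u1 * u2, cm_suf_mul cs hc hpJ hqJ b1 c1, ?_, cm_suf_mul cs hc hu₁ hu₂ b3 c3⟩
  rw [av_cm cs L hc hu1 hu2, av_cm cs L hc hpJ hqJ, b2, c2]

theorem L4 (hL : ∀ i, 0 < L i) (hE : OddEq M L) (hM : Tri M) {J : Set B} (hJ : Sph M J)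
    {w u : W} (hw : w ∈ WP cs J) (hu : Suf cs u w) (ha : av cs L u = av cs L w) {K : Set B}
    (hK : K ⊆ J) :
    LL D K (fun w' => ∃ u', Suf cs u' w' ∧ av cs L u' = av cs L w' ∧ Suf cs u' u)
      ((T (av cs L w : ℤ) : Lau) • tr D.toHecke K (D.c w)) := by
  classical
  have key := sph_induction (M := M) hM (P := fun J => ∀ (w u : W) (K : Set B), w ∈ WP cs J →
      Suf cs u w → av cs L u = av cs L w → K ⊆ J →
      LL D K (fun w' => ∃ u', Suf cs u' w' ∧ av cs L u' = av cs L w' ∧ Suf cs u' u)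
        ((T (av cs L w : ℤ) : Lau) • tr D.toHecke K (D.c w))) ?_ ?_ ?_ J hJ
  · exact key w u K hw hu ha hK
  · intro w u K hw hu _ hK
    have hw1 : w = 1 := spt_empty cs (Set.subset_empty_iff.1 ((wp_iff_spt cs).1 hw))
    subst hw1
    have hu1 : u = 1 := suf_eq cs hu (by rw [cs.length_one]; exact Nat.zero_le _)
    subst hu1
    have hK0 : K = ∅ := Set.subset_empty_iff.1 hK
    subst hK0
    intro x
    have e1 : D.cB.repr ((T (av cs L (1 : W) : ℤ) : Lau) • tr D.toHecke ∅ (D.c 1)) x =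
        if (1 : W) = x then 1 else 0 := by
      have h1 : D.t.repr (1 : H) 1 = 1 := by
        rw [← D.toHecke.t_one, Module.Basis.repr_self, Finsupp.single_apply, if_pos rfl]
      rw [tr_empty, c_one, h1, av_one, one_smul, Nat.cast_zero, T_zero, one_smul, ← c_one D,
        ← D.cB_apply, Module.Basis.repr_self, Finsupp.single_apply]
    rw [e1]
    by_cases hx : (1 : W) = x
    · subst hx
      rw [if_pos rfl, av_one]
      exact ⟨fun h => absurd (one_mem _) h, DegLe.one, fun _ => ⟨1, suf_refl cs 1, rfl,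
        suf_refl cs 1⟩⟩
    · rw [if_neg hx]
      exact ⟨fun _ => rfl, DegLe.zero, fun h => absurd rfl h⟩
  · intro i J _ hc ih
    exact X4_step D hL hE (Or.inl ⟨i, rfl⟩) hc ih
  · intro i j J _ h3 hc ih
    exact X4_step D hL hE (Or.inr ⟨i, j, h3, rfl⟩) hc ih

theorem L5 (hL : ∀ i, 0 < L i) (hE : OddEq M L) (hM : Tri M) {J : Set B} (hJ : Sph M J)
    {w u : W} (hw : w ∈ WP cs J) (hu : Suf cs u w) (ha : av cs L u = av cs L w) {K : Set B}
    (hK : K ⊆ J) {s : B} (hs : s ∈ K) (hc : Cm M {s} (K \ {s})) :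
    ∃ g : H, (T (av cs L w : ℤ) : Lau) • tr D.toHecke K (D.c w) =
        (T (L s : ℤ) : Lau) • (g * D.t (cs.simple s)) ∧
      LL D (K \ {s}) (fun w' => ∃ u₀, Suf cs u₀ w' ∧ av cs L u₀ = av cs L w' ∧
        Suf cs (u₀ * cs.simple s) u) g := by
  have hsJ : s ∈ J := hK hs
  obtain ⟨J₁, hJ₁, hs₁, hsub, hcJ, hKJ⟩ : ∃ J₁ : Set B, Dih M J₁ ∧ s ∈ J₁ ∧ J₁ ⊆ J ∧
      Cm M J₁ (J \ J₁) ∧ K ∩ J₁ = {s} := by
    rcases sph_cases hM hJ hsJ with h | ⟨e, he, h3, h⟩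
    · refine ⟨{s}, Or.inl ⟨s, rfl⟩, rfl, Set.singleton_subset_iff.2 hsJ, h, ?_⟩
      exact Set.inter_eq_right.2 (Set.singleton_subset_iff.2 hs)
    · refine ⟨{s, e}, Or.inr ⟨s, e, h3, rfl⟩, Or.inl rfl, ?_, h, ?_⟩
      · rintro a (rfl | ha)
        · exact hsJ
        · rw [Set.mem_singleton_iff.1 ha]; exact he
      · ext a
        constructor
        · rintro ⟨haK, (rfl | ha)⟩
          · rfl
          · rw [Set.mem_singleton_iff] at ha
            subst ha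
            by_contra hne
            have h4 := hc s rfl a ⟨haK, hne⟩
            omega
        · intro ha
          rw [Set.mem_singleton_iff] at ha
          rw [ha]
          exact ⟨hs, Or.inl rfl⟩
  have eJ : J₁ ∪ (J \ J₁) = J := Set.union_sdiff_cancel hsub
  have eK2 : K ∩ (J \ J₁) = K \ {s} := by
    ext a
    constructor
    · rintro ⟨h1, h2, h3⟩
      refine ⟨h1, ?_⟩
      intro h4
      rw [Set.mem_singleton_iff] at h4
      exact h3 (h4 ▸ hs₁)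
    · rintro ⟨h1, h2⟩
      refine ⟨h1, hK h1, ?_⟩
      intro h3
      have h4 : a ∈ K ∩ J₁ := ⟨h1, h3⟩
      rw [hKJ] at h4
      exact h2 h4
  have hw' := hw
  rw [← eJ] at hw'
  obtain ⟨w₁, hw₁, w₂, hw₂, rfl⟩ := (cm_union cs hcJ).1 hw'
  obtain ⟨u₁, hu₁, u₂, hu₂, rfl, s1, s2, a1, a2⟩ := suf_av_cm cs L hcJ hw₁ hw₂ hu ha
  have hS : Sph M (J \ J₁) := sph_mono hJ Set.sdiff_subset
  have l2 := L4 D hL hE hM hS hw₂ s2 a2 (K := K \ {s}) (by rw [← eK2]; exact Set.inter_subset_right)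
  have eK : ({s} : Set B) ∪ K \ {s} = K := Set.union_sdiff_cancel (Set.singleton_subset_iff.2 hs)
  obtain ⟨o1, o2⟩ := o2_s D hL hE hJ₁ hw₁ hs₁
  set p : Lau := D.t.repr (D.c w₁) (cs.simple s) with hp
  set X : H := tr D.toHecke (K \ {s}) (D.c w₂) with hX
  have hXc : X * D.t (cs.simple s) = D.t (cs.simple s) * X := by
    symm
    exact hp_comm D.toHecke hc (hp_t D.toHecke ((simple_mem_wp cs).2 rfl)) (hp_tr D.toHecke _ _)
  set π : Lau := T ((av cs L w₁ : ℤ) - L s) * p with hπ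
  have hT := DegLe.T (le_refl ((av cs L w₁ : ℤ) - L s))
  have hπ0 : DegLe 0 π := by
    have h1 := hT.mul o1
    rwa [sub_add_sub_cancel, sub_self] at h1
  have hπc : π.coeff 0 ≠ 0 → cs.IsRightDescent w₁ s := by
    intro h1
    have h2 := coeff_mul_top hT o1
    rw [sub_add_sub_cancel, sub_self] at h2
    rw [hπ, h2] at h1
    exact o2 (right_ne_zero_of_mul h1)
  refine ⟨π • ((T (av cs L w₂ : ℤ) : Lau) • X), ?_, ?_⟩
  · have e1 : tr D.toHecke K (D.c (w₁ * w₂)) = (p • D.t (cs.simple s)) * X := by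
      rw [c_cm D hcJ hw₁ hw₂, hp, hX, ← tr_single, ← tr_cm D.toHecke hcJ (hp_c D hw₁) (hp_c D hw₂)
        (Set.singleton_subset_iff.2 hs₁) (by rw [← eK2]; exact Set.inter_subset_right), eK]
    rw [e1, av_cm cs L hcJ hw₁ hw₂, smul_smul, smul_mul_assoc, smul_mul_assoc, hXc, smul_smul,
      smul_smul]
    refine congrArg (fun r : Lau => r • (D.t (cs.simple s) * X)) ?_
    rw [hπ]
    have e2 : (T ((av cs L w₁ + av cs L w₂ : ℕ) : ℤ) : Lau) =
        T (L s : ℤ) * T ((av cs L w₁ : ℤ) - L s) * T (av cs L w₂ : ℤ) := by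
      rw [← T_add, ← T_add]
      refine congrArg T ?_
      push_cast
      ring
    rw [e2]
    ring
  · by_cases h0 : π.coeff 0 = 0
    · have h1 := hπ0.of_top h0
      exact ll_smul_neg D h1 l2
    · have h1 := hπc h0
      have h2 := dih_suf_rd hL hE hJ₁ hw₁ s1 a1 h1
      refine ll_mono D le_rfl ?_ (ll_smul D hπ0 l2)
      rintro x - ⟨u₀, b1, b2, b3⟩
      refine ⟨u₀, b1, b2, ?_⟩
      have h3 : Suf cs (cs.simple s) u₁ := by
        rw [suf_iff]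
        refine ⟨u₁ * cs.simple s, by simp, ?_⟩
        have h4 := cs.isRightDescent_iff.1 h2
        rw [cs.length_simple]
        omega
      have h4 := cm_suf_mul cs hcJ hu₁ hu₂ h3 b3
      rwa [cm_comm cs hcJ ((simple_mem_wp cs).2 hs₁) (wp_suf cs b3 hu₂)] at h4

end Pool.Agent.Lib.KLT
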