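import Pool.Agent.Lib.MP_754fa1_al.T.M01
import Pool.Agent.Lib.MP_754fa1_al.T.X4
import Pool.Agent.Lib.MP_754fa1_al.T.X2

/-!
# M02a. The upper bound: set-up

`UR D m N`: for all spherical `J`, `w ∈ WP J`, `RM J x`, `LM J y` with `ℓ(x) + ℓ(y) < N`: `v^{av w} T_x C_w T_y ∈ v^m Λ + I_{>m}`, and even `∈ v^{m-1} Λ + I_{>m}` if `Cy m w y`.

`ur_ll`: `h = ∑_w h_w C_w` (`w ∈ WP J`, finite support of `D.cB.repr h`), `h_w = r_w v^{av w}` with `r_w = T (- av w) * h_w`, `DegLe 0 r_w`. `T_x h T_y = ∑ r_w • (v^{av w} T_x C_w T_y)`: `gd_sum`, `gd_smul`. For the second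
statement: if the coefficient of `h_w` at `av w` is non-zero then `P w`, so `Cy m w y` and the summand is in `v^{m-1} Λ + I_{>m}`; otherwise `DegLe (-1) r_w` (`DegLe.of_top`).

`ur_red`: `K ⊆ J`, `x z y` reduced for all `z` with `spt z = K`; `av w ≤ m`. `tr K C_w = ∑ p_z T_z` over `spt z = K`; `T_x T_z T_y = T_{xzy}` (`rm_len` : `z ∈ WP K ⊆ WP J`), so the element is in `Lat (av w)` (`p_z` of degree `≤ 0`), `gd_of_lat`.
If `Cy m w y` (with `u`): `u ∈ WP J` (`wp_suf`), `u y` is reduced (`lm_len`), so `av w = av u ≤ av (u y) < m` (`av_mono`, `fac_left`), and `Lat (av w) ⊆ Lat (m - 1)`.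
-/

open LaurentPolynomial
open Pool.Agent.Lib.MP_754fa1_al

namespace Pool.Agent.Lib.KLT

universe u v w

variable {B : Type u} {W : Type v} [Group W] {M : CoxeterMatrix B}
variable {cs : CoxeterSystem M W} {L : B → ℕ} {H : Type w} [Ring H] [Algebra Lau H]

/-- the upper bound for lengths `< N` -/
def UR (D : KL cs L H) (m N : ℕ) : Prop :=
  ∀ (J : Set B) (w x y : W), Sph M J → w ∈ WP cs J → RM cs J x → LM cs J y →
    cs.length x + cs.length y < N →
    Gd D m m ((T (av cs L w : ℤ) : Lau) • (D.t x * D.c w * D.t y)) ∧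
      (Cy cs L m w y → Gd D m ((m : ℤ) - 1) ((T (av cs L w : ℤ) : Lau) • (D.t x * D.c w * D.t y)))

variable (D : KL cs L H)

private theorem M02a_expand (x y : W) (h : H) :
    D.t x * h * D.t y = ∑ w ∈ (D.cB.repr h).support,
      (T (-(av cs L w : ℤ)) * D.cB.repr h w : Lau) •
        ((T (av cs L w : ℤ) : Lau) • (D.t x * D.c w * D.t y)) := by
  conv_lhs => rw [← D.cB.linearCombination_repr h, Finsupp.linearCombination_apply, Finsupp.sum]
  rw [Finset.mul_sum, Finset.sum_mul]
  refine Finset.sum_congr rfl fun w _ => ?_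
  rw [smul_smul, mul_right_comm, ← T_add, neg_add_cancel, T_zero, one_mul, D.cB_apply,
    mul_smul_comm, smul_mul_assoc]

private theorem M02a_deg0 {p : Lau} {k : ℤ} (h : DegLe k p) :
    DegLe 0 (T (-k) * p : Lau) := by
  have h1 := DegLe.mul (DegLe.T (le_refl (-k))) h
  exact h1.mono (by omega)

theorem ur_ll {m N : ℕ} (hU : UR D m N) {J : Set B} (hJ : Sph M J) {x y : W} (hx : RM cs J x)
    (hy : LM cs J y) (hN : cs.length x + cs.length y < N) {P : W → Prop} {h : H}
    (a : LL D J P h) :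
    Gd D m m (D.t x * h * D.t y) ∧
      ((∀ w ∈ WP cs J, P w → Cy cs L m w y) → Gd D m ((m : ℤ) - 1) (D.t x * h * D.t y)) := by
  have hmem : ∀ w ∈ (D.cB.repr h).support, w ∈ WP cs J := by
    intro w hw
    by_contra hn
    exact (Finsupp.mem_support_iff.1 hw) ((a w).1 hn)
  rw [M02a_expand D x y h]
  constructor
  · refine gd_sum D _ _ fun w hw => ?_
    have h1 := (hU J w x y hJ (hmem w hw) hx hy hN).1
    have h2 := gd_smul D (M02a_deg0 (a w).2.1) h1
    rw [zero_add] at h2
    exact h2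
  · intro hP
    refine gd_sum D _ _ fun w hw => ?_
    by_cases hc : (D.cB.repr h w).coeff (av cs L w) = 0
    · have h1 := (hU J w x y hJ (hmem w hw) hx hy hN).1
      have h2 : DegLe ((av cs L w : ℤ) - 1) (D.cB.repr h w) := DegLe.of_top (a w).2.1 hc
      have h3 : DegLe (-1) (T (-(av cs L w : ℤ)) * D.cB.repr h w : Lau) := by
        have h4 := DegLe.mul (DegLe.T (le_refl (-(av cs L w : ℤ)))) h2
        exact h4.mono (by omega)
      have h5 := gd_smul D h3 h1
      exact gd_mono D h5 (by omega)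
    · have h0 := (a w).2.2 hc
      have h1 := (hU J w x y hJ (hmem w hw) hx hy hN).2 (hP w (hmem w hw) h0)
      have h2 := gd_smul D (M02a_deg0 (a w).2.1) h1
      rw [zero_add] at h2
      exact h2

variable [Finite B]

theorem ur_red {m : ℕ} {J K : Set B} (hK : K ⊆ J) {w x y : W} (hw : w ∈ WP cs J)
    (hx : RM cs J x) (hy : LM cs J y) (hr : ∀ z, spt cs z = K → Rd cs (x * z) y)
    (hm : av cs L w ≤ m) :
    Gd D m m ((T (av cs L w : ℤ) : Lau) • (D.t x * tr D.toHecke K (D.c w) * D.t y)) ∧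
      (Cy cs L m w y → Gd D m ((m : ℤ) - 1)
        ((T (av cs L w : ℤ) : Lau) • (D.t x * tr D.toHecke K (D.c w) * D.t y))) := by
  have h0 : D.Lat 0 (D.t x * tr D.toHecke K (D.c w) * D.t y) := by
    have e : D.t x * tr D.toHecke K (D.c w) * D.t y =
        ∑ z ∈ (D.t.repr (D.c w)).support,
          D.t.repr (D.c w) z • (if spt cs z = K then D.t (x * z * y) else 0) := by
      unfold tr
      rw [Module.Basis.constr_apply, Finsupp.sum, Finset.mul_sum, Finset.sum_mul]
      refine Finset.sum_congr rfl fun z _ => ?_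
      rw [mul_smul_comm, smul_mul_assoc]
      by_cases hz : spt cs z = K
      · rw [if_pos hz, if_pos hz]
        have hzJ : z ∈ WP cs J := wp_mono cs hK (by rw [← hz]; exact mem_wp_spt cs z)
        have h1 : Rd cs x z := rm_len cs hx hzJ
        have h2 : Rd cs (x * z) y := hr z hz
        rw [D.t_mul _ _ h1, D.t_mul _ _ h2]
      · rw [if_neg hz, if_neg hz, mul_zero, zero_mul]
    rw [e]
    refine D.lat_sum _ _ fun z _ => ?_
    have h1 : DegLe 0 (D.t.repr (D.c w) z) := D.lat_c w z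
    have h2 : D.Lat 0 (if spt cs z = K then D.t (x * z * y) else 0) := by
      split_ifs
      · exact D.lat_t _
      · exact D.lat_zero 0
    have h3 := D.lat_smul h1 h2
    rw [zero_add] at h3
    exact h3
  have h1 : D.Lat (av cs L w : ℤ)
      ((T (av cs L w : ℤ) : Lau) • (D.t x * tr D.toHecke K (D.c w) * D.t y)) := by
    have h2 := D.lat_smul (DegLe.T (le_refl (av cs L w : ℤ))) h0
    rw [add_zero] at h2
    exact h2
  have h2 := gd_of_lat D (m := m) h1
  refine ⟨gd_mono D h2 (by exact_mod_cast hm), ?_⟩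
  rintro ⟨u, hu, hau, hm'⟩
  have huJ : u ∈ WP cs J := wp_suf cs hu hw
  have hruy : Rd cs u y := lm_len cs hy huJ
  have h3 : av cs L u ≤ av cs L (u * y) := av_mono cs L (fac_left cs hruy)
  refine gd_mono D h2 ?_
  have h4 : av cs L w < m := by rw [← hau]; exact lt_of_le_of_lt h3 hm'
  omega

/-- the combinatorial part of the reduction of `Cy` -/
theorem cy_reduce {m : ℕ} {J K J' : Set B} (hc : Cm M K J') {u y q y₁ a b u' u₂ : W}
    (hu : u ∈ WP cs J) (hy : LM cs J y) (hyq : y = q * y₁) (hy₁ : LM cs J' y₁)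
    (hq : q ∈ WP cs J') (hua : u = a * u') (hra : Rd cs a u') (hu' : u' ∈ WP cs K)
    (hqb : q = b * u₂) (hrb : Rd cs b u₂) (ha : av cs L (u * y) < m) :
    av cs L (u' * u₂ * y₁) < m := by
  have hb : b ∈ WP cs J' := by
    rw [wp_iff_spt]
    rw [wp_iff_spt, hqb, spt_mul cs hrb] at hq
    exact fun i hi => hq (Or.inl hi)
  have hcomm : u' * b = b * u' := cm_comm cs hc hu' hb
  have h1 : Rd cs u y := lm_len cs hy hu
  have h2 : Rd cs q y₁ := lm_len cs hy₁ hq
  have e : u * y = (a * b) * (u' * u₂ * y₁) := by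
    rw [hua, hyq, hqb]
    calc a * u' * (b * u₂ * y₁) = a * (u' * b) * (u₂ * y₁) := by simp only [mul_assoc]
      _ = a * (b * u') * (u₂ * y₁) := by rw [hcomm]
      _ = (a * b) * (u' * u₂ * y₁) := by simp only [mul_assoc]
  have h3 : Rd cs (a * b) (u' * u₂ * y₁) := by
    unfold Rd at *
    rw [← e]
    have l1 := cs.length_mul_le (a * b) (u' * u₂ * y₁)
    have l2 := cs.length_mul_le a b
    have l3 := cs.length_mul_le (u' * u₂) y₁
    have l4 := cs.length_mul_le u' u₂
    rw [← e] at l1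
    rw [← hua] at hra
    rw [← hyq] at h2
    rw [← hqb] at hrb
    omega
  have h4 : av cs L (u' * u₂ * y₁) ≤ av cs L (u * y) := by
    rw [e]
    exact av_mono cs L (fac_right cs h3)
  exact lt_of_le_of_lt h4 ha

end Pool.Agent.Lib.KLT
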