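import Pool.Agent.Lib.MP_754fa1_al.T.M02a
import Pool.Agent.Lib.MP_754fa1_al.T.T03

/-!
# M02b. The upper bound: case A

`cy_reduce` (M02a): `u y` is reduced (`lm_len`), `u y = a u' b u₂ y₁ = (a b) (u' u₂ y₁)` as `u' b = b u'` (`cm_comm`; `b ∈ WP J'`: a prefix of `q`, supports), and
`ℓ(u y) = ℓ(a) + ℓ(u') + ℓ(b) + ℓ(u₂) + ℓ(y₁)`, so `(a b)(u' u₂ y₁)` is reduced (both factors have at most the obvious length); `av_mono`.

`ur_A`: `K ⊆ J`, `CaseA K x y`: `J'`, `x = x₁ p`, `y = q y₁`, `Dih J'`, `Cm J' K`. `T_x = T_{x₁} T_p`, `T_y = T_q T_{y₁}` (`rm_len`, `lm_len`), `T_p` commutes with `tr K C_w` (`hp_comm`, `hp_tr`, `hp_t`), so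
`v^{av w} T_x tr K C_w T_y = T_{x₁} (h₁ h₂) T_{y₁}` with `h₁ = v^{av w} tr K C_w`, `h₂ = T_p T_q`. For a suffix `u` of `w` with `av u = av w`: `LL K P₁ h₁` (`L4`), `LL J' (Cs · q) h₂` (`o1_t`, `sph_dih`), so
`LL (K ∪ J') _ (h₁ h₂)` (`ll_mul`, `cm_symm`). `K ∪ J'` is spherical (`sph_union`, `sph_mono`), `RM (K ∪ J') x₁` and `LM (K ∪ J') y₁` (`cm_rm`, `cm_lm'` with `J'`, `K`; `Set.union_comm`), `p ≠ 1` (else `p q` would be reduced), so `ℓ(x₁) + ℓ(y₁) < ℓ(x) + ℓ(y)`.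
`ur_ll` gives the first statement (take `u = w`). Second statement: take the `u` of `Cy m w y`. For `w'' = w' g` with `u'`: `Suf u' w'`, `av u' = av w'`, `Suf u' u`, and `u₂`: `Suf u₂ g`, `Suf u₂ q`, `av u₂ = av g`: `u'' = u' u₂` is a suffix of
`w''` with the same value (`cm_suf_mul`, `av_cm`; `u' ∈ WP K`, `u₂ ∈ WP J'` by `wp_suf`), and `av (u'' y₁) < m` by `cy_reduce` (`u ∈ WP J` by `wp_suf`). So `Cy m w'' y₁`.
-/

open LaurentPolynomial
open Pool.Agent.Lib.MP_754fa1_al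

namespace Pool.Agent.Lib.KLT

universe u v w

variable {B : Type u} {W : Type v} [Group W] {M : CoxeterMatrix B} [Finite B]
variable {cs : CoxeterSystem M W} {L : B → ℕ} {H : Type w} [Ring H] [Algebra Lau H]
variable (D : KL cs L H)

theorem ur_A (hL : ∀ i, 0 < L i) (hE : OddEq M L) (hM : Tri M) {m N : ℕ} (hU : UR D m N)
    {J K : Set B} (hJ : Sph M J) (hK : K ⊆ J) {w x y : W} (hw : w ∈ WP cs J)
    (hx : RM cs J x) (hy : LM cs J y) (hN : cs.length x + cs.length y < N + 1)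
    (hA : CaseA cs K x y) :
    Gd D m m ((T (av cs L w : ℤ) : Lau) • (D.t x * tr D.toHecke K (D.c w) * D.t y)) ∧
      (Cy cs L m w y → Gd D m ((m : ℤ) - 1)
        ((T (av cs L w : ℤ) : Lau) • (D.t x * tr D.toHecke K (D.c w) * D.t y))) := by
  obtain ⟨J', x₁, p, q, y₁, hd, hcm, hxe, hx₁, hp, hye, hy₁, hq, hpq⟩ := hA
  have hcm' : Cm M K J' := cm_symm hcm
  have rx : Rd cs x₁ p := rm_len cs hx₁ hp
  have ry : Rd cs q y₁ := lm_len cs hy₁ hq
  have hxK : RM cs K x := fun j hj => hx j (hK hj)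
  have hyK : LM cs K y := fun j hj => hy j (hK hj)
  have hX : RM cs (K ∪ J') x₁ := by
    rw [Set.union_comm]
    exact cm_rm cs hcm hxK hxe hx₁ hp
  have hY : LM cs (K ∪ J') y₁ := by
    rw [Set.union_comm]
    exact cm_lm' cs hcm hyK hye hy₁ hq
  have hS : Sph M (K ∪ J') := sph_union (sph_mono hJ hK) (sph_dih hd) hcm'
  have hp1 : p ≠ 1 := by
    rintro rfl
    apply hpq
    unfold Rd
    rw [one_mul, cs.length_one, zero_add]
  have hp0 : cs.length p ≠ 0 := fun h => hp1 (cs.length_eq_zero_iff.1 h)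
  have hlen : cs.length x₁ + cs.length y₁ < N := by
    have e1 : cs.length x = cs.length x₁ + cs.length p := by rw [hxe]; exact rx
    have e2 : cs.length y = cs.length q + cs.length y₁ := by rw [hye]; exact ry
    omega
  have hcom : D.t p * tr D.toHecke K (D.c w) = tr D.toHecke K (D.c w) * D.t p :=
    hp_comm D.toHecke hcm (hp_t D.toHecke hp) (hp_tr D.toHecke K (D.c w))
  have heq : (T (av cs L w : ℤ) : Lau) • (D.t x * tr D.toHecke K (D.c w) * D.t y) =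
      D.t x₁ * (((T (av cs L w : ℤ) : Lau) • tr D.toHecke K (D.c w)) * (D.t p * D.t q)) *
        D.t y₁ := by
    have e1 : D.t x = D.t x₁ * D.t p := by
      rw [hxe]
      exact (D.t_mul x₁ p rx).symm
    have e2 : D.t y = D.t q * D.t y₁ := by
      rw [hye]
      exact (D.t_mul q y₁ ry).symm
    have e3 : D.t x * tr D.toHecke K (D.c w) * D.t y =
        D.t x₁ * (tr D.toHecke K (D.c w) * (D.t p * D.t q)) * D.t y₁ := by
      calc D.t x * tr D.toHecke K (D.c w) * D.t y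
          = D.t x₁ * (D.t p * tr D.toHecke K (D.c w)) * D.t q * D.t y₁ := by
            rw [e1, e2]
            simp only [mul_assoc]
        _ = D.t x₁ * (tr D.toHecke K (D.c w) * D.t p) * D.t q * D.t y₁ := by rw [hcom]
        _ = _ := by simp only [mul_assoc]
    rw [e3, smul_mul_assoc, mul_smul_comm, smul_mul_assoc]
  have key : ∀ u, Suf cs u w → av cs L u = av cs L w →
      LL D (K ∪ J') (fun w'' => ∃ w' ∈ WP cs K, ∃ g ∈ WP cs J', w'' = w' * g ∧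
        (∃ u', Suf cs u' w' ∧ av cs L u' = av cs L w' ∧ Suf cs u' u) ∧ Cs cs L g q)
        (((T (av cs L w : ℤ) : Lau) • tr D.toHecke K (D.c w)) * (D.t p * D.t q)) :=
    fun u hu ha => ll_mul D hcm' (L4 D hL hE hM hJ hw hu ha hK)
      (o1_t D hL hE hM (sph_dih hd) hp hq)
  rw [heq]
  refine ⟨(ur_ll D hU hS hX hY hlen (key w (suf_refl cs w) rfl)).1, ?_⟩
  rintro ⟨u, hu, ha, hlt⟩
  refine (ur_ll D hU hS hX hY hlen (key u hu ha)).2 ?_
  rintro w'' - ⟨w', hw', g, hg, rfl, ⟨u', hu'w, hau', hu'u⟩, ⟨u₂, hu₂g, hu₂q, hau₂⟩⟩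
  have huJ : u ∈ WP cs J := wp_suf cs hu hw
  have hu'K : u' ∈ WP cs K := wp_suf cs hu'w hw'
  have hu₂J : u₂ ∈ WP cs J' := wp_suf cs hu₂g hg
  refine ⟨u' * u₂, cm_suf_mul cs hcm' hw' hg hu'w hu₂g, ?_, ?_⟩
  · rw [av_cm cs L hcm' hu'K hu₂J, av_cm cs L hcm' hw' hg, hau', hau₂]
  · obtain ⟨a, hua, hra⟩ := (suf_iff cs u' u).1 hu'u
    obtain ⟨b, hqb, hrb⟩ := (suf_iff cs u₂ q).1 hu₂q
    have hra' : Rd cs a u' := by unfold Rd; rw [← hua]; exact hra
    have hrb' : Rd cs b u₂ := by unfold Rd; rw [← hqb]; exact hrb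
    exact cy_reduce hcm' huJ hy hye hy₁ hq hua hra' hu'K hqb hrb' hlt

end Pool.Agent.Lib.KLT
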