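import Pool.Agent.Lib.MP_754fa1_al.T.X5
import Pool.Agent.Lib.MP_754fa1_al.T.X2

/-!
# X6. `C_δ C_δ` and `T_δ T_δ` for special `δ`

`eta_spv`: induction on `SpV`. `nil`: `C_1 = 1` (`c_one`), `η = 1`. `cons` (atom `α` on `J₁` with `η₁`, rest `ε` on `K₁` with `η₂`): `C_{αε} = C_α C_ε` (`c_cm`, `spv_mem`), `C_δ C_δ = (C_α C_α)(C_ε C_ε)`
(`hp_comm`) `= (η₁ C_α + x)(η₂ C_ε + y)`, `η = η₁ η₂`: `C_δ C_δ - η C_δ = η₁ C_α y + η₂ x C_ε + x y`; `x, y` in `H_{J₁}`, `H_{K₁}` (`hp_mul`, `hp_c`). By `cB_repr_cm` a non-zero coordinate of `C_α y` is at `p q` with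
`p = α`, `y_q ≠ 0`, so `av (p q) = n₁ + av q > n₁ + n₂` (`av_cm`, `atom_av`); similarly for the others (`spv_av`). (Outside `WP (J₁ ∪ K₁)`: `hp_cm`, `hp_iff_c`, `cm_union`.) Degrees and top coefficients: `coeff_mul_top`, `DegLe.mul`.

`tt_top`: `T_δ = C_δ + x`, `x ∈ H_J` with `C`-coordinates of degree `≤ -1`; `T_δ T_δ - C_δ C_δ = x C_δ + C_δ x + x x`, and by `ll_neg_mul` with `P = fun _ => False` its coordinate at `δ` has coefficient `0` at `av δ = n` (`spv_av`).
-/

open LaurentPolynomial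
open Pool.Agent.Lib.MP_754fa1_al

namespace Pool.Agent.Lib.KLT

universe u v w

variable {B : Type u} {W : Type v} [Group W] {M : CoxeterMatrix B} [Finite B]
variable {cs : CoxeterSystem M W} {L : B → ℕ} {H : Type w} [Ring H] [Algebra Lau H]
variable (D : KL cs L H)

omit [Finite B] in
private theorem X6_repr_c {α p : W} (h : D.cB.repr (D.c α) p ≠ 0) : p = α := by
  classical
  by_contra hne
  rw [← D.cB_apply, Module.Basis.repr_self, Finsupp.single_eq_of_ne hne] at h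
  exact h rfl

omit [Finite B] in
private theorem X6_cons {J K : Set B} {α ε : W} {n m : ℕ} (hα : α ∈ WP cs J) (hε : ε ∈ WP cs K)
    (hn : av cs L α = n) (hm : av cs L ε = m) (hc : Cm M J K) {η₁ η₂ : Lau}
    (e1 : Eta D J α n η₁) (e2 : Eta D K ε m η₂)
    (hav : ∀ p ∈ WP cs J, ∀ q ∈ WP cs K, av cs L (p * q) = av cs L p + av cs L q) :
    Eta D (J ∪ K) (α * ε) (n + m) (η₁ * η₂) := by
  obtain ⟨i1, d1, t1, r1⟩ := e1
  obtain ⟨i2, d2, t2, r2⟩ := e2
  refine ⟨by rw [map_mul, i1, i2], ?_, ?_, ?_⟩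
  · rw [Nat.cast_add]
    exact d1.mul d2
  · rw [Nat.cast_add, coeff_mul_top d1 d2]
    rcases t1 with t1 | t1 <;> rcases t2 with t2 | t2 <;> rw [t1, t2] <;> simp
  · intro z hz
    obtain ⟨a, ha⟩ : ∃ a, a = D.c α := ⟨_, rfl⟩
    obtain ⟨e, he⟩ : ∃ e, e = D.c ε := ⟨_, rfl⟩
    have hpa : HP D.toHecke J a := by rw [ha]; exact hp_c D hα
    have hpe : HP D.toHecke K e := by rw [he]; exact hp_c D hε
    rw [← ha] at r1
    rw [← he] at r2
    obtain ⟨x, hx⟩ : ∃ x, x = a * a - η₁ • a := ⟨_, rfl⟩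
    obtain ⟨y, hy⟩ : ∃ y, y = e * e - η₂ • e := ⟨_, rfl⟩
    rw [← hx] at r1
    rw [← hy] at r2
    have hpx : HP D.toHecke J x := by
      rw [hx]; exact hp_sub _ (hp_mul _ hpa hpa) (hp_smul _ _ hpa)
    have hpy : HP D.toHecke K y := by
      rw [hy]; exact hp_sub _ (hp_mul _ hpe hpe) (hp_smul _ _ hpe)
    have hae : D.c (α * ε) = a * e := by rw [c_cm D hc hα hε, ha, he]
    have hcomm : a * e = e * a := hp_comm D.toHecke hc hpa hpe
    have key : D.c (α * ε) * D.c (α * ε) - (η₁ * η₂) • D.c (α * ε) =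
        η₁ • (a * y) + η₂ • (x * e) + x * y := by
      have h1 : D.c (α * ε) * D.c (α * ε) = (a * a) * (e * e) := by
        rw [hae]
        calc a * e * (a * e) = a * (e * a) * e := by simp only [mul_assoc]
          _ = a * (a * e) * e := by rw [hcomm]
          _ = (a * a) * (e * e) := by simp only [mul_assoc]
      have h2 : a * a = η₁ • a + x := by rw [hx]; abel
      have h3 : e * e = η₂ • e + y := by rw [hy]; abel
      rw [h1, h2, h3, hae]
      simp only [add_mul, mul_add, smul_add, smul_mul_assoc, mul_smul_comm, smul_smul, mul_comm η₂ η₁]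
      abel
    rw [key] at hz
    have hP : HP D.toHecke (J ∪ K) (η₁ • (a * y) + η₂ • (x * e) + x * y) :=
      hp_add _ (hp_add _ (hp_smul _ _ (hp_cm D.toHecke hpa hpy))
        (hp_smul _ _ (hp_cm D.toHecke hpx hpe))) (hp_cm D.toHecke hpx hpy)
    have hzJ : z ∈ WP cs (J ∪ K) := by
      by_contra h4
      exact hz ((hp_iff_c D).1 hP z h4)
    refine ⟨hzJ, ?_⟩
    obtain ⟨p, hp, q, hq, rfl⟩ := (cm_union cs hc).1 hzJ
    rw [hav p hp q hq]
    rw [map_add, map_add, Finsupp.add_apply, Finsupp.add_apply, map_smul, map_smul,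
      Finsupp.smul_apply, Finsupp.smul_apply, smul_eq_mul, smul_eq_mul,
      cB_repr_cm D hc hpa hpy hp hq, cB_repr_cm D hc hpx hpe hp hq,
      cB_repr_cm D hc hpx hpy hp hq] at hz
    have f1 : D.cB.repr a p ≠ 0 → n ≤ av cs L p := by
      intro h5
      rw [ha] at h5
      rw [X6_repr_c D h5, hn]
    have f2 : D.cB.repr e q ≠ 0 → m ≤ av cs L q := by
      intro h5
      rw [he] at h5
      rw [X6_repr_c D h5, hm]
    have f3 : D.cB.repr x p ≠ 0 → n < av cs L p := fun h5 => (r1 p h5).2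
    have f4 : D.cB.repr y q ≠ 0 → m < av cs L q := fun h5 => (r2 q h5).2
    by_cases g3 : D.cB.repr x p = 0
    · rw [g3, zero_mul, zero_mul, mul_zero, add_zero, add_zero] at hz
      have g1 := f1 (fun h5 => hz (by rw [h5, zero_mul, mul_zero]))
      have g4 := f4 (fun h5 => hz (by rw [h5, mul_zero, mul_zero]))
      omega
    · have g1 := f3 g3
      by_cases g2 : D.cB.repr e q = 0
      · rw [g2, mul_zero, mul_zero, add_zero] at hz
        have g4 := f4 (fun h5 => hz (by rw [h5, mul_zero, mul_zero, mul_zero, add_zero]))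
        omega
      · have g5 := f2 g2
        omega

theorem eta_spv (hL : ∀ i, 0 < L i) (hE : OddEq M L) {J : Set B} {δ : W} {n : ℕ}
    (h : SpV cs L J δ n) : ∃ η, Eta D J δ n η := by
  induction h with
  | nil =>
    refine ⟨1, map_one _, DegLe.one, Or.inl lp_coeff_one, ?_⟩
    intro z hz
    exfalso
    apply hz
    rw [c_one, mul_one, one_smul, sub_self, map_zero, Finsupp.zero_apply]
  | @cons J K α ε n m ha hb hc ih =>
    obtain ⟨η₁, e1⟩ := eta_atom D hL hE ha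
    obtain ⟨η₂, e2⟩ := ih
    exact ⟨η₁ * η₂, X6_cons D (spv_mem (atom_spv ha)) (spv_mem hb) (atom_av hE ha)
      (spv_av hE hb) hc e1 e2 (fun p hp q hq => av_cm cs L hc hp hq)⟩

/-- the coordinate of `C_δ C_δ` at `δ` -/
theorem eta_coord (hE : OddEq M L) {J : Set B} {δ : W} {n : ℕ} (h : SpV cs L J δ n)
    {η : Lau} (he : Eta D J δ n η) : D.cB.repr (D.c δ * D.c δ) δ = η := by
  classical
  have h1 : D.cB.repr (D.c δ * D.c δ - η • D.c δ) δ = 0 := by
    by_contra h2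
    have h3 := (he.2.2.2 δ h2).2
    rw [spv_av hE h] at h3
    exact lt_irrefl _ h3
  rw [map_sub, Finsupp.sub_apply, map_smul, Finsupp.smul_apply] at h1
  have h4 : D.cB.repr (D.c δ) δ = 1 := by
    rw [← D.cB_apply, Module.Basis.repr_self, Finsupp.single_eq_same]
  rw [h4, smul_eq_mul, mul_one, sub_eq_zero] at h1
  exact h1

theorem tt_top (hL : ∀ i, 0 < L i) (hE : OddEq M L) (hM : Tri M) {J : Set B} {δ : W} {n : ℕ}
    (h : SpV cs L J δ n) {η : Lau} (he : Eta D J δ n η) :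
    (D.cB.repr (D.t δ * D.t δ) δ).coeff n = η.coeff n := by
  have hJ := spv_sph h
  have hδ := spv_mem h
  obtain ⟨x, hx⟩ : ∃ x, x = D.t δ - D.c δ := ⟨_, rfl⟩
  have hpx : HP D.toHecke J x := by rw [hx]; exact hp_sub _ (hp_t _ hδ) (hp_c D hδ)
  have hpc : HP D.toHecke J (D.c δ) := hp_c D hδ
  have dx : ∀ z, DegLe (-1) (D.cB.repr x z) := by
    refine D.lat_iff.1 ?_
    have h1 := D.lat_neg (D.lat_c_sub_t δ)
    rw [hx]
    rwa [neg_sub] at h1
  have dc : ∀ z, DegLe 0 (D.cB.repr (D.c δ) z) := D.lat_iff.1 (D.lat_c δ)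
  have key : D.t δ * D.t δ = D.c δ * D.c δ + (x * D.c δ + D.c δ * x + x * x) := by
    have h1 : D.t δ = D.c δ + x := by rw [hx]; abel
    rw [h1, add_mul, mul_add, mul_add]
    abel
  have hll : LL D J (fun _ => False) (x * D.c δ + D.c δ * x + x * x) :=
    ll_add D (ll_add D
      (ll_neg_mul D hL hE hM hJ hpx hpc dx dc (by norm_num) _)
      (ll_neg_mul D hL hE hM hJ hpc hpx dc dx (by norm_num) _))
      (ll_neg_mul D hL hE hM hJ hpx hpx dx dx (by norm_num) _)
  have h2 : (D.cB.repr (x * D.c δ + D.c δ * x + x * x) δ).coeff n = 0 := by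
    by_contra h3
    have h4 := (hll δ).2.2
    rw [spv_av hE h] at h4
    exact h4 h3
  rw [key, map_add, Finsupp.add_apply, lp_coeff_add, h2, add_zero, eta_coord D hE h he]

end Pool.Agent.Lib.KLT
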