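import Pool.Agent.Lib.MP_754fa1_al.T.M02
import Pool.Agent.Lib.MP_754fa1_al.T.X6

/-!
# M04a. The leading term (1)

`SpV J δ n`, `RM J x`, `LM J y`, `Tgt (δ y)`, `av (δ y) = n`, `TS D n`, `Eta D J δ n η`, `σ = η.coeff n`. Claim: `T_{xδ} T_{δy} - σ v^n T_x C_δ T_y ∈ v^{n-1} Λ + I_{>n}`.

`T_{xδ} T_{δy} = T_x (T_δ T_δ) T_y` (`rm_len`, `lm_len`). `T_δ T_δ = ∑_w a_w C_w`, `w ∈ WP J`, `DegLe (av w) a_w`, and `a_w.coeff (av w) ≠ 0` implies `Cs w δ` (`o1_t`). Summand `w ≠ δ`: `a_w T_x C_w T_y ∈ v^{n-1} Λ + I_{>n}`: if `n < av w`: `C_w ∈ Ia D n`, `TS`.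
Let `av w ≤ n`. By `ur_all`, `v^{av w} T_x C_w T_y ∈ v^n Λ + I_{>n}`; if `a_w.coeff (av w) = 0` then `a_w = r v^{av w}` with `DegLe (-1) r`: fine. If it is non-zero: there is `u'` with `Suf u' w`, `Suf u' δ`, `av u' = av w`. `u' ≠ δ`: otherwise `Suf δ w` and
`av w = av δ = n` (`spv_av`), so `w = δ` (`spv_suf_eq`). So `u' y` is a suffix of `δ y` (`δ y` reduced, `lm_len`) and `≠ δ y`, so `av (u' y) < n` (`Tgt`), i.e. `Cy n w y`, and `ur_all` gives `v^{av w} T_x C_w T_y ∈ v^{n-1} Λ + I_{>n}` (`DegLe 0 (a_w v^{-av w})`).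
Summand `w = δ`: `a_δ = σ v^n + r`, `DegLe (n - 1) r` (`tt_top`, `DegLe n a_δ`, `spv_av`); `r T_x C_δ T_y = (r v^{-n}) (v^n T_x C_δ T_y)`, `ur_all`, `gd_smul` with degree `-1`.
Here `σ v^n` is `((η.coeff n : ℤ) : Lau) * T n`.
-/

open LaurentPolynomial
open Pool.Agent.Lib.MP_754fa1_al

namespace Pool.Agent.Lib.KLT

universe u v w

variable {B : Type u} {W : Type v} [Group W] {M : CoxeterMatrix B} [Finite B]
variable {cs : CoxeterSystem M W} {L : B → ℕ} {H : Type w} [Ring H] [Algebra Lau H]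
variable (D : KL cs L H)

private theorem m04a_deg (σ : ℤ) (n : ℤ) : DegLe n (((σ : ℤ) : Lau) * T n) := by
  have h1 : ((σ : ℤ) : Lau) = LaurentPolynomial.C σ := by
    rw [← map_intCast (LaurentPolynomial.C : ℤ →+* Lau) σ, Int.cast_id]
  have h2 : DegLe 0 (LaurentPolynomial.C σ : Lau) := by
    intro k hk
    rw [C_apply, if_neg (by omega)]
  have h3 := h2.mul (DegLe.T (le_refl n))
  rw [zero_add] at h3
  rw [h1]
  exact h3

private theorem m04a_coeff (σ : ℤ) (n : ℤ) : (((σ : ℤ) : Lau) * T n).coeff n = σ := by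
  have h1 : ((σ : ℤ) : Lau) = LaurentPolynomial.C σ := by
    rw [← map_intCast (LaurentPolynomial.C : ℤ →+* Lau) σ, Int.cast_id]
  have h2 : DegLe 0 (LaurentPolynomial.C σ : Lau) := by
    intro k hk
    rw [C_apply, if_neg (by omega)]
  have h3 := coeff_mul_top h2 (DegLe.T (le_refl n))
  rw [zero_add] at h3
  rw [h1, h3, C_apply, if_pos rfl, T_apply, if_pos rfl, mul_one]

theorem lead_a (hL : ∀ i, 0 < L i) (hE : OddEq M L) (hM : Tri M) {n : ℕ} (hT : TS D n)
    {J : Set B} {δ x y : W} (h : SpV cs L J δ n) (hx : RM cs J x) (hy : LM cs J y)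
    (hu : Tgt cs L (δ * y)) (hau : av cs L (δ * y) = n) {η : Lau} (he : Eta D J δ n η) :
    Gd D n ((n : ℤ) - 1) (D.t (x * δ) * D.t (δ * y) -
      (((η.coeff n : ℤ) : Lau) * T (n : ℤ)) • (D.t x * D.c δ * D.t y)) := by
  classical
  have hδ : δ ∈ WP cs J := spv_mem h
  have hJ : Sph M J := spv_sph h
  have havδ : av cs L δ = n := spv_av hE h
  have e1 : D.t x * D.t δ = D.t (x * δ) := D.t_mul x δ (rm_len cs hx hδ)
  have e2 : D.t δ * D.t y = D.t (δ * y) := D.t_mul δ y (lm_len cs hy hδ)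
  set sv : Lau := ((η.coeff n : ℤ) : Lau) * T (n : ℤ) with hsv
  set k' : H := D.t δ * D.t δ - sv • D.c δ with hk'
  have e3 : D.t (x * δ) * D.t (δ * y) - sv • (D.t x * D.c δ * D.t y) = D.t x * k' * D.t y := by
    rw [← e1, ← e2, hk']
    simp only [mul_sub, sub_mul, mul_smul_comm, smul_mul_assoc, mul_assoc]
  rw [e3]
  have hLL := o1_t D hL hE hM hJ hδ hδ
  have hcoord : ∀ w, w ≠ δ → D.cB.repr k' w = D.cB.repr (D.t δ * D.t δ) w := by
    intro w hw
    rw [hk', map_sub, map_smul, ← D.cB_apply, Module.Basis.repr_self, Finsupp.sub_apply,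
      Finsupp.smul_apply, Finsupp.single_apply, if_neg (Ne.symm hw), smul_zero, sub_zero]
  have hcoordδ : D.cB.repr k' δ = D.cB.repr (D.t δ * D.t δ) δ - sv := by
    rw [hk', map_sub, map_smul, ← D.cB_apply, Module.Basis.repr_self, Finsupp.sub_apply,
      Finsupp.smul_apply, Finsupp.single_apply, if_pos rfl, smul_eq_mul, mul_one]
  have hexp : D.t x * k' * D.t y = ∑ w ∈ (D.cB.repr k').support,
      (D.cB.repr k' w) • (D.t x * D.c w * D.t y) := by
    conv_lhs => rw [← D.cB.linearCombination_repr k', Finsupp.linearCombination_apply, Finsupp.sum]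
    rw [Finset.mul_sum, Finset.sum_mul]
    refine Finset.sum_congr rfl (fun w _ => ?_)
    rw [D.cB_apply, mul_smul_comm, smul_mul_assoc]
  rw [hexp]
  refine gd_sum D _ _ (fun w hw => ?_)
  rw [Finsupp.mem_support_iff] at hw
  -- the coordinate lives in `W_J`
  have hwJ : w ∈ WP cs J := by
    by_contra hn
    have hwδ : w ≠ δ := fun e => hn (e ▸ hδ)
    exact hw ((hcoord w hwδ).trans ((hLL w).1 hn))
  by_cases hav : n < av cs L w
  · refine gd_of_ia D ?_
    refine Submodule.smul_mem _ _ ?_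
    have i1 : D.c w ∈ Ia D n := c_mem_ia D hav
    have i2 := (hT (D.t x) _ i1).1
    exact (hT (D.t y) _ i2).2
  · have hle : av cs L w ≤ n := not_lt.1 hav
    have hU := ur_all D hL hE hM hT (cs.length x + cs.length y + 1) J w x y hJ hwJ hx hy
      (Nat.lt_succ_self _)
    -- rewriting the scalar
    have hsc : (D.cB.repr k' w) • (D.t x * D.c w * D.t y) =
        (D.cB.repr k' w * T (-(av cs L w : ℤ))) •
          ((T (av cs L w : ℤ) : Lau) • (D.t x * D.c w * D.t y)) := by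
      rw [smul_smul, mul_assoc (D.cB.repr k' w), ← T_add, neg_add_cancel, T_zero, mul_one]
    rw [hsc]
    have hdeg : DegLe (av cs L w) (D.cB.repr k' w) := by
      by_cases hwδ : w = δ
      · subst hwδ
        rw [hcoordδ]
        refine ((hLL w).2.1).sub ?_
        rw [havδ]
        exact m04a_deg _ _
      · rw [hcoord w hwδ]
        exact (hLL w).2.1
    have hT1 : DegLe (-(av cs L w : ℤ)) (T (-(av cs L w : ℤ)) : Lau) := DegLe.T le_rfl
    by_cases htop : (D.cB.repr k' w).coeff (av cs L w) = 0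
    · have h5 := (hdeg.of_top htop).mul hT1
      have h6 := gd_smul D h5 hU.1
      refine gd_mono D h6 ?_
      omega
    · have hwδ : w ≠ δ := by
        rintro rfl
        apply htop
        rw [hcoordδ, lp_coeff_sub, havδ, hsv, m04a_coeff, tt_top D hL hE hM h he, sub_self]
      rw [hcoord w hwδ] at htop
      obtain ⟨u, hu1, hu2, hu3⟩ := (hLL w).2.2 htop
      have hune : u ≠ δ := by
        rintro rfl
        exact hwδ (spv_suf_eq hL hE h hwJ hu1 (by rw [← hu3, havδ]))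
      have huJ : u ∈ WP cs J := wp_suf cs hu2 hδ
      have hsuf : Suf cs (u * y) (δ * y) := by
        obtain ⟨z, hz1, hz2⟩ := (suf_iff cs u δ).1 hu2
        rw [suf_iff]
        refine ⟨z, by rw [hz1, mul_assoc], ?_⟩
        have l1 : cs.length (δ * y) = cs.length δ + cs.length y := lm_len cs hy hδ
        have l2 : cs.length (u * y) = cs.length u + cs.length y := lm_len cs hy huJ
        omega
      have hlt : av cs L (u * y) < n := by
        rw [← hau]
        exact hu _ hsuf (fun e => hune (mul_right_cancel e))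
      have hcy : Cy cs L n w y := ⟨u, hu1, hu3, hlt⟩
      have h5 := hdeg.mul hT1
      have h6 := gd_smul D h5 (hU.2 hcy)
      refine gd_mono D h6 ?_
      omega

end Pool.Agent.Lib.KLT
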