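import Pool.Agent.Lib.MP_754fa1_al.T.M04a
import Pool.Agent.Lib.MP_754fa1_al.T.A04

/-!
# M04b. The leading term (2)

In addition `av (x δ) = n`. Claim: `v^n T_x C_δ T_y - v^n T_{xδy} ∈ v^{n-1} Λ + I_{>n}`.

`C_δ = ∑_K tr K C_δ` (`tr_sum`). `K ⊄ J`: `0`. `K ⊆ J`, `K ≠ J`: `L4` with `w = u = δ` (`av δ = n`): `LL K P (v^n tr K C_δ)`, `P w' = ∃ u', Suf u' w' ∧ av u' = av w' ∧ Suf u' δ`. For `w' ∈ WP K` with such `u'`: `u' ∈ WP K` (`wp_suf`), `u' ≠ δ` (`spt δ = J ⊄ K`, `spv_spt`,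
`wp_iff_spt`), so `u' y` is a proper suffix of `δ y` and `av (u' y) < n`: `Cy n w' y`. `ur_ll` (with `ur_all`, `K` in place of `J`: `sph_mono`, `RM K x`, `LM K y`) gives `v^n T_x (tr K C_δ) T_y ∈ v^{n-1} Λ + I_{>n}`.
`K = J`: `tr J C_δ = ∑ p_z T_z` over `spt z = J`; `x z y` is reduced (`tight_red`), `x z` too (`rm_len`), so `T_x T_z T_y = T_{xzy}`. The term `z = δ` has `p_δ = 1` (`repr_c_one`): `v^n T_{xδy}`. The other terms: `v^n p_z T_{xzy} ∈ Lat (n - 1)` (`repr_c_ne`).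

`lead`: from `lead_a` and `lead_b` (`gd_smul` with `σ = ±1` of degree `0`).
-/

open LaurentPolynomial
open Pool.Agent.Lib.MP_754fa1_al

namespace Pool.Agent.Lib.KLT

universe u v w

variable {B : Type u} {W : Type v} [Group W] {M : CoxeterMatrix B} [Finite B]
variable {cs : CoxeterSystem M W} {L : B → ℕ} {H : Type w} [Ring H] [Algebra Lau H]
variable (D : KL cs L H)

private theorem M04b_small (hL : ∀ i, 0 < L i) (hE : OddEq M L) (hM : Tri M) {n : ℕ}
    (hT : TS D n) {J : Set B} {δ x y : W} (h : SpV cs L J δ n) (hx : RM cs J x)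
    (hy : LM cs J y) (hu : Tgt cs L (δ * y)) (hau : av cs L (δ * y) = n) {K : Set B}
    (hK : K ≠ J) :
    Gd D n ((n : ℤ) - 1)
      ((T (n : ℤ) : Lau) • (D.t x * tr D.toHecke K (D.c δ) * D.t y)) := by
  have hδ : δ ∈ WP cs J := spv_mem h
  have hJ : Sph M J := spv_sph h
  have havδ : av cs L δ = n := spv_av hE h
  by_cases hKJ : K ⊆ J
  · have hxK : RM cs K x := fun j hj => hx j (hKJ hj)
    have hyK : LM cs K y := fun j hj => hy j (hKJ hj)
    have hsuf : Suf cs δ δ := (suf_iff cs δ δ).2 ⟨1, by simp, by simp⟩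
    have hLL := L4 D hL hE hM hJ hδ hsuf rfl hKJ
    have hU := ur_all D hL hE hM hT (cs.length x + cs.length y + 1)
    have h1 := (ur_ll D hU (sph_mono hJ hKJ) hxK hyK (Nat.lt_succ_self _) hLL).2 ?_
    · rw [havδ, mul_smul_comm, smul_mul_assoc] at h1
      exact h1
    · rintro w hw ⟨u, hu1, hu2, hu3⟩
      have huK : u ∈ WP cs K := wp_suf cs hu1 hw
      have hune : u ≠ δ := by
        rintro rfl
        apply hK
        refine Set.Subset.antisymm hKJ ?_
        rw [← spv_spt h]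
        exact (wp_iff_spt cs).1 huK
      have huJ : u ∈ WP cs J := wp_suf cs hu3 hδ
      have hsuf' : Suf cs (u * y) (δ * y) := by
        obtain ⟨z, hz1, hz2⟩ := (suf_iff cs u δ).1 hu3
        rw [suf_iff]
        refine ⟨z, by rw [hz1, mul_assoc], ?_⟩
        have l1 : cs.length (δ * y) = cs.length δ + cs.length y := lm_len cs hy hδ
        have l2 : cs.length (u * y) = cs.length u + cs.length y := lm_len cs hy huJ
        omega
      refine ⟨u, hu1, hu2, ?_⟩
      rw [← hau]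
      exact hu _ hsuf' (fun e => hune (mul_right_cancel e))
  · rw [tr_zero_of_hp D.toHecke (hp_c D hδ) hKJ, mul_zero, zero_mul, smul_zero]
    exact gd_zero D _ _

private theorem M04b_top (hL : ∀ i, 0 < L i) (hE : OddEq M L) (hM : Tri M) {n : ℕ}
    {J : Set B} {δ x y : W} (h : SpV cs L J δ n) (hx : RM cs J x) (hy : LM cs J y)
    (hu : Tgt cs L (δ * y)) (hau : av cs L (δ * y) = n) (hax : av cs L (x * δ) = n) :
    Gd D n ((n : ℤ) - 1) ((T (n : ℤ) : Lau) • (D.t x * tr D.toHecke J (D.c δ) * D.t y) -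
      (T (n : ℤ) : Lau) • D.t (x * δ * y)) := by
  classical
  have hδ : δ ∈ WP cs J := spv_mem h
  have hred : ∀ z, spt cs z = J → D.t x * D.t z * D.t y = D.t (x * z * y) := by
    intro z hz
    have hzJ : z ∈ WP cs J := by rw [← hz]; exact mem_wp_spt cs z
    have h1 : Rd cs x z := rm_len cs hx hzJ
    have h2 : Rd cs (x * z) y := tight_red hL hE hM h hx hy hax hu hau hz
    rw [D.t_mul _ _ h1, D.t_mul _ _ h2]
  set k' : H := tr D.toHecke J (D.c δ) - D.t δ with hk'
  have e1 : (T (n : ℤ) : Lau) • (D.t x * tr D.toHecke J (D.c δ) * D.t y) -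
      (T (n : ℤ) : Lau) • D.t (x * δ * y) = (T (n : ℤ) : Lau) • (D.t x * k' * D.t y) := by
    rw [← smul_sub, ← hred δ (spv_spt h), hk', mul_sub, sub_mul]
  rw [e1]
  have hcoord : ∀ z, D.t.repr k' z =
      (if spt cs z = J then D.t.repr (D.c δ) z else 0) - (if δ = z then 1 else 0) := by
    intro z
    rw [hk', map_sub, Finsupp.sub_apply, repr_tr, Module.Basis.repr_self,
      Finsupp.single_apply]
  have hsp : ∀ z, D.t.repr k' z ≠ 0 → spt cs z = J := by
    intro z hz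
    by_contra hn
    apply hz
    rw [hcoord, if_neg hn, if_neg, sub_zero]
    rintro rfl
    exact hn (spv_spt h)
  have hdeg : ∀ z, DegLe (-1) (D.t.repr k' z) := by
    intro z
    by_cases hzδ : δ = z
    · subst hzδ
      rw [hcoord, if_pos (spv_spt h), if_pos rfl, repr_c_one, sub_self]
      exact DegLe.zero
    · rw [hcoord, if_neg hzδ, sub_zero]
      split_ifs
      · exact repr_c_ne D (Ne.symm hzδ)
      · exact DegLe.zero
  have hexp : D.t x * k' * D.t y = ∑ z ∈ (D.t.repr k').support,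
      (D.t.repr k' z) • D.t (x * z * y) := by
    conv_lhs => rw [← D.t.linearCombination_repr k', Finsupp.linearCombination_apply, Finsupp.sum]
    rw [Finset.mul_sum, Finset.sum_mul]
    refine Finset.sum_congr rfl (fun z hz => ?_)
    rw [mul_smul_comm, smul_mul_assoc, hred z (hsp z (Finsupp.mem_support_iff.1 hz))]
  have hlat : D.Lat (-1) (D.t x * k' * D.t y) := by
    rw [hexp]
    refine D.lat_sum _ _ fun z _ => ?_
    have h3 := D.lat_smul (hdeg z) (D.lat_t (x * z * y))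
    rw [add_zero] at h3
    exact h3
  have h2 := D.lat_smul (DegLe.T (le_refl (n : ℤ))) hlat
  exact gd_mono D (gd_of_lat D h2) (by omega)

theorem lead_b (hL : ∀ i, 0 < L i) (hE : OddEq M L) (hM : Tri M) {n : ℕ} (hT : TS D n)
    {J : Set B} {δ x y : W} (h : SpV cs L J δ n) (hx : RM cs J x) (hy : LM cs J y)
    (hu : Tgt cs L (δ * y)) (hau : av cs L (δ * y) = n) (hax : av cs L (x * δ) = n) :
    Gd D n ((n : ℤ) - 1) ((T (n : ℤ) : Lau) • (D.t x * D.c δ * D.t y) -
      (T (n : ℤ) : Lau) • D.t (x * δ * y)) := by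
  classical
  have hJm : J ∈ (Set.toFinite (Set.univ : Set (Set B))).toFinset := by simp
  have e0 : (T (n : ℤ) : Lau) • (D.t x * D.c δ * D.t y) =
      ∑ K ∈ (Set.toFinite (Set.univ : Set (Set B))).toFinset,
        (T (n : ℤ) : Lau) • (D.t x * tr D.toHecke K (D.c δ) * D.t y) := by
    conv_lhs => rw [← tr_sum D.toHecke (D.c δ)]
    rw [Finset.mul_sum, Finset.sum_mul, Finset.smul_sum]
  rw [e0, ← Finset.add_sum_erase _ _ hJm, add_sub_right_comm]
  refine gd_add D (M04b_top D hL hE hM h hx hy hu hau hax) (gd_sum D _ _ fun K hK => ?_)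
  exact M04b_small D hL hE hM hT h hx hy hu hau (Finset.ne_of_mem_erase hK)

theorem lead (hL : ∀ i, 0 < L i) (hE : OddEq M L) (hM : Tri M) {n : ℕ} (hT : TS D n)
    {J : Set B} {δ x y : W} (h : SpV cs L J δ n) (hx : RM cs J x) (hy : LM cs J y)
    (hu : Tgt cs L (δ * y)) (hau : av cs L (δ * y) = n) (hax : av cs L (x * δ) = n) {η : Lau}
    (he : Eta D J δ n η) :
    Gd D n ((n : ℤ) - 1) (D.t (x * δ) * D.t (δ * y) -
      (((η.coeff n : ℤ) : Lau) * T (n : ℤ)) • D.t (x * δ * y)) := by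
  have h1 := lead_a D hL hE hM hT h hx hy hu hau he
  have h2 := lead_b D hL hE hM hT h hx hy hu hau hax
  have h3 : DegLe 0 (((η.coeff n : ℤ) : Lau)) := by
    intro k hk
    rw [← map_intCast (LaurentPolynomial.C : ℤ →+* Lau) (η.coeff n), Int.cast_id, C_apply,
      if_neg (by omega)]
  have h4 := gd_smul D h3 h2
  rw [zero_add] at h4
  have h5 := gd_add D h1 h4
  have e : D.t (x * δ) * D.t (δ * y) - (((η.coeff n : ℤ) : Lau) * T (n : ℤ)) • D.t (x * δ * y) =
      D.t (x * δ) * D.t (δ * y) - (((η.coeff n : ℤ) : Lau) * T (n : ℤ)) •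
        (D.t x * D.c δ * D.t y) + ((η.coeff n : ℤ) : Lau) •
        ((T (n : ℤ) : Lau) • (D.t x * D.c δ * D.t y) - (T (n : ℤ) : Lau) • D.t (x * δ * y)) := by
    rw [smul_sub, smul_smul, smul_smul]
    abel
  rw [e]
  exact h5

end Pool.Agent.Lib.KLT
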