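import Pool.Agent.Lib.MP_754fa1_al.T.M05a
import Pool.Agent.Lib.MP_754fa1_al.T.M04b

/-!
# M05. The main relation

`SpV J δ n`, `TS D n`, `RM J x`, `LM J y`, `Tgt (δ y)`, `av (δ y) = n`, `av (x δ) = n`, `C_{xδ} - k C_δ ∈ Ia D n`. Claim: `k C_{δy} - C_{xδy} ∈ Ia D n`. (`main_big`: if `n < av (x δ)` then `k C_{δy} ∈ Ia D n`: `k C_δ ∈ Ia D n` as `C_{xδ} ∈ Ia D n`; `g_mem`.)

Proof. `η` from `eta_spv`, `σ = η.coeff n`. `E = C_{xδ} C_{δy}`. (1) `E - η k C_{δy} ∈ Ia D n` (`c_delta_mul`, `TS`): `E ≡ k C_δ C_{δy} ≡ η k C_{δy}`. (2) `E - T_{xδ} T_{δy} ∈ v^{n-1} Λ + I_{>n}` (`gd_mul` twice, `lat_c_sub_t`, `lat_c`, `lat_t`), so by `lead`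
`Gd n (n-1) (E - σ v^n T_{xδy})`. Let `av z ≤ n`, `ε = D.cB.repr E z`, `ζ = D.cB.repr (k * C_{δy}) z`. `ε = η ζ` by (1) (`ia_iff`). The coordinate of `T_w - C_w`, `w = x δ y`, has degree `≤ -1` (`D.lat_iff`), so the one of `T_w` is `[z = w]` up to degree `≤ -1`, and by
(2) and `gd_iff`: `DegLe n ε`, `ε.coeff n = σ [z = w]`. So `DegLe 0 ζ` (`lau_eta`), `ζ.coeff 0 = [z = w]` (`coeff_mul_top`, `σ = ±1`). `ε` is `bar`-invariant (`bar_coord`: `bar E = E`), `invert η = η`, so `η (invert ζ - ζ) = 0`, `invert ζ = ζ` (`eta_cancel`);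
`bar_const`: `ζ = C (ζ.coeff 0)`. So `ζ = 1` for `z = w`, `0` otherwise, for all `z` with `av z ≤ n`: `ia_iff`.

`main_E`: `E - η C_{xδy} ∈ Ia D n`: by (1) and the claim.
-/

open LaurentPolynomial
open Pool.Agent.Lib.MP_754fa1_al

namespace Pool.Agent.Lib.KLT

universe u v w

variable {B : Type u} {W : Type v} [Group W] {M : CoxeterMatrix B} [Finite B]
variable {cs : CoxeterSystem M W} {L : B → ℕ} {H : Type w} [Ring H] [Algebra Lau H]
variable (D : KL cs L H)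

omit [Finite B] in
private theorem M05_cast (a k : ℤ) : ((a : ℤ) : Lau).coeff k = if k = 0 then a else 0 := by
  have h1 : ((a : ℤ) : Lau) = C a := by
    rw [← map_intCast (C : ℤ →+* Lau) a, Int.cast_id]
  rw [h1, C_apply]

omit [Finite B] in
private theorem M05_deg (a : ℤ) : DegLe 0 ((a : ℤ) : Lau) := by
  intro k hk
  rw [M05_cast, if_neg (by omega)]

private theorem M05_one (hL : ∀ i, 0 < L i) (hE : OddEq M L) {n : ℕ} (hT : TS D n)
    {J : Set B} {δ x y : W} (h : SpV cs L J δ n) (hy : LM cs J y) {k : H}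
    (hk : D.c (x * δ) - k * D.c δ ∈ Ia D n) {η : Lau} (he : Eta D J δ n η) :
    D.c (x * δ) * D.c (δ * y) - η • (k * D.c (δ * y)) ∈ Ia D n := by
  have h1 := (hT (D.c (δ * y)) _ hk).2
  have h2 := (hT k _ (c_delta_mul D hL hE h hT hy he)).1
  have h3 := (Ia D n).add_mem h1 h2
  have e : D.c (x * δ) * D.c (δ * y) - η • (k * D.c (δ * y)) =
      (D.c (x * δ) - k * D.c δ) * D.c (δ * y) +
        k * (D.c δ * D.c (δ * y) - η • D.c (δ * y)) := by
    rw [sub_mul, mul_sub, mul_smul_comm, mul_assoc]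
    abel
  rw [e]
  exact h3

private theorem M05_two (hL : ∀ i, 0 < L i) (hE : OddEq M L) (hM : Tri M) {n : ℕ} (hT : TS D n)
    (a b : W) : Gd D n ((n : ℤ) - 1) (D.c a * D.c b - D.t a * D.t b) := by
  have h1 := gd_mul D hL hE hM hT (D.lat_c_sub_t a) (D.lat_c b)
  have h2 := gd_mul D hL hE hM hT (D.lat_t a) (D.lat_c_sub_t b)
  have h3 : Gd D n ((n : ℤ) - 1) ((D.c a - D.t a) * D.c b) := gd_mono D h1 (by omega)
  have h4 : Gd D n ((n : ℤ) - 1) (D.t a * (D.c b - D.t b)) := gd_mono D h2 (by omega)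
  have e : D.c a * D.c b - D.t a * D.t b =
      (D.c a - D.t a) * D.c b + D.t a * (D.c b - D.t b) := by
    rw [sub_mul, mul_sub]
    abel
  rw [e]
  exact gd_add D h3 h4

theorem main_eq (hL : ∀ i, 0 < L i) (hE : OddEq M L) (hM : Tri M) {n : ℕ} (hT : TS D n)
    {J : Set B} {δ x y : W} (h : SpV cs L J δ n) (hx : RM cs J x) (hy : LM cs J y)
    (hu : Tgt cs L (δ * y)) (hau : av cs L (δ * y) = n) (hax : av cs L (x * δ) = n) {k : H}
    (hk : D.c (x * δ) - k * D.c δ ∈ Ia D n) :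
    k * D.c (δ * y) - D.c (x * δ * y) ∈ Ia D n := by
  classical
  obtain ⟨η, he⟩ := eta_spv D hL hE h
  have he' := he
  obtain ⟨hi, hd, ht, _⟩ := he'
  have h1 := M05_one D hL hE hT h hy hk he
  have h2 := gd_add D (M05_two D hL hE hM hT (x * δ) (δ * y))
    (lead D hL hE hM hT h hx hy hu hau hax he)
  rw [sub_add_sub_cancel] at h2
  rw [gd_iff] at h2
  rw [ia_iff] at h1 ⊢
  intro z hz
  have h3 := h1 z hz
  have h4 := h2 z hz
  have h5 := D.lat_iff.1 (D.lat_c_sub_t (x * δ * y)) z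
  rw [map_sub, map_smul, Finsupp.sub_apply, Finsupp.smul_apply, smul_eq_mul, sub_eq_zero] at h3
  rw [map_sub, map_smul, Finsupp.sub_apply, Finsupp.smul_apply, smul_eq_mul] at h4
  rw [map_sub, Finsupp.sub_apply] at h5
  have hbar : D.bar (D.c (x * δ) * D.c (δ * y)) = D.c (x * δ) * D.c (δ * y) := by
    rw [map_mul, D.bar_c, D.bar_c]
  have h6 := D.bar_coord hbar z
  rw [map_sub, Finsupp.sub_apply, sub_eq_zero]
  generalize D.cB.repr (D.c (x * δ) * D.c (δ * y)) z = ε at h3 h4 h6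
  generalize D.cB.repr (k * D.c (δ * y)) z = ζ at h3 ⊢
  obtain ⟨c, hc⟩ : ∃ c : ℤ, D.cB.repr (D.c (x * δ * y)) z = ((c : ℤ) : Lau) := by
    rw [← D.cB_apply, Module.Basis.repr_self, Finsupp.single_apply]
    split_ifs
    · exact ⟨1, by rw [Int.cast_one]⟩
    · exact ⟨0, by rw [Int.cast_zero]⟩
  rw [hc] at h5 ⊢
  generalize D.cB.repr (D.t (x * δ * y)) z = τ at h4 h5
  generalize hσ : η.coeff (n : ℤ) = σ at h4 ht
  have hσT : DegLe (n : ℤ) (((σ : ℤ) : Lau) * T (n : ℤ)) := by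
    have := (M05_deg σ).mul (DegLe.T (le_refl (n : ℤ)))
    rwa [zero_add] at this
  have hσc : (((σ : ℤ) : Lau) * T (n : ℤ)).coeff (n : ℤ) = σ := by
    have h7 := coeff_mul_top (M05_deg σ) (DegLe.T (le_refl (n : ℤ)))
    rw [zero_add, M05_cast, if_pos rfl, T_apply, if_pos rfl, mul_one] at h7
    exact h7
  have h7 : DegLe ((n : ℤ) - 1) (ε - ((σ : ℤ) : Lau) * T (n : ℤ) * ((c : ℤ) : Lau)) := by
    have h8 := hσT.mul h5
    have h9 := h4.sub (h8.mono (by omega : (n : ℤ) + -1 ≤ (n : ℤ) - 1))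
    have e : ε - ((σ : ℤ) : Lau) * T (n : ℤ) * ((c : ℤ) : Lau) =
        ε - ((σ : ℤ) : Lau) * T (n : ℤ) * τ -
          ((σ : ℤ) : Lau) * T (n : ℤ) * (((c : ℤ) : Lau) - τ) := by ring
    rw [e]
    exact h9
  have h8 : DegLe ((n : ℤ) + 0) (((σ : ℤ) : Lau) * T (n : ℤ) * ((c : ℤ) : Lau)) :=
    hσT.mul (M05_deg c)
  have h9 : DegLe ((n : ℤ) + 0) ε := by
    have := (h7.mono (by omega : (n : ℤ) - 1 ≤ (n : ℤ) + 0)).add h8
    rwa [sub_add_cancel] at this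
  have h10 : ε.coeff ((n : ℤ) + 0) = σ * c := by
    have h11 := h7 ((n : ℤ) + 0) (by omega)
    rw [lp_coeff_sub, coeff_mul_top hσT (M05_deg c), hσc, M05_cast, if_pos rfl] at h11
    linarith
  rw [h3] at h9 h10
  have h12 : DegLe 0 ζ := lau_eta hd (by rw [hσ]; exact ht) h9
  rw [coeff_mul_top hd h12, hσ] at h10
  have h13 : ζ.coeff 0 = c := by
    rcases ht with ht | ht
    · rw [ht] at h10
      linarith
    · rw [ht] at h10
      linarith
  have h14 : invert ζ = ζ := by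
    rw [h3, map_mul, hi] at h6
    have h15 : η * (invert ζ - ζ) = 0 := by rw [mul_sub, h6, sub_self]
    exact sub_eq_zero.1 (eta_cancel (n := (n : ℤ)) (by rw [hσ]; exact ht) h15)
  rw [bar_const h14 h12, h13, ← map_intCast (C : ℤ →+* Lau) c, Int.cast_id]

theorem main_big (hL : ∀ i, 0 < L i) (hE : OddEq M L) {n : ℕ} (hT : TS D n)
    {J : Set B} {δ x y : W} (h : SpV cs L J δ n) (hy : LM cs J y)
    (hax : n < av cs L (x * δ)) {k : H}
    (hk : D.c (x * δ) - k * D.c δ ∈ Ia D n) : k * D.c (δ * y) ∈ Ia D n := by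
  have h1 := (Ia D n).sub_mem (c_mem_ia D hax) hk
  rw [sub_sub_cancel] at h1
  exact g_mem D hL hE h hT hy h1

theorem main_E (hL : ∀ i, 0 < L i) (hE : OddEq M L) (hM : Tri M) {n : ℕ} (hT : TS D n)
    {J : Set B} {δ x y : W} (h : SpV cs L J δ n) (hx : RM cs J x) (hy : LM cs J y)
    (hu : Tgt cs L (δ * y)) (hau : av cs L (δ * y) = n) (hax : av cs L (x * δ) = n) {η : Lau}
    (he : Eta D J δ n η) :
    D.c (x * δ) * D.c (δ * y) - η • D.c (x * δ * y) ∈ Ia D n := by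
  obtain ⟨k, hk⟩ := ri_k D hL hE h (fun g a ha => (hT g a ha).1) hx
  have h1 := M05_one D hL hE hT h hy hk he
  have h2 := (Ia D n).smul_mem η (main_eq D hL hE hM hT h hx hy hu hau hax hk)
  have h3 := (Ia D n).add_mem h1 h2
  rw [smul_sub, sub_add_sub_cancel] at h3
  exact h3

end Pool.Agent.Lib.KLT
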