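import Pool.Agent.Lib.MP_754fa1_al.T.R04
import Pool.Agent.Lib.MP_754fa1_al.T.M01

/-!
# R05. Consequences for special elements

`SpV J δ n`, `𝒞` from `blk_spv`. `C_δ = eJ δ` (`RM J 1`, `eJ_mul`, `t_one`).

`ri_coord`: `h C_δ ∈ U` (`u_left`) `= span {C_y | pJ y ∈ 𝒞}` (`u_span`); so if the coordinate of `h C_δ` at `y` is non-zero then `pJ y ∈ 𝒞`. `y = rJ y * pJ y`; if `pJ y = δ` then `y = x δ` with `RM J x`; otherwise
`n < av (pJ y) ≤ av y` (`av_mono`, `fac_right`, `rm_len`).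

`ri_k`: `C_{xδ} = ∑_y β_y T_{rJ y} C_{pJ y}` (`Module.Basis.sum_repr`-like, finite support), `pJ y ∈ 𝒞` (`ri_supp`, `rp_unique`). The terms with `pJ y = δ` sum to `k C_δ`, `k = ∑ β_y T_{rJ y}`. The other terms are in
`Ia D n`: `C_{pJ y} ∈ Ia D n` as `n < av (pJ y)` and `Ia D n` is a left ideal by hypothesis.

`p_one_ext`: `RM J x`, `x ≠ 1`: the coordinate of `C_{xδ}` at `1` has degree `≤ -n - 1`: it is `∑_y β_y c_y`, `c_y` the coordinate of `T_{rJ y} C_{pJ y}` at `1`, which is `0` if `rJ y ≠ 1` (`T_{rJ y} C_{pJ y} = ∑_q p_q T_{rJ y q}` over `q ∈ WP J` (`hp_c`, `rm_len`), and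
`rJ y q = 1` implies `rJ y = 1` by `rm_uniq`), and `= ` the coordinate of `C_{pJ y}` at `1` if `rJ y = 1`, of degree `≤ - av (pJ y) ≤ -n` (`p_one_sph`; `pJ y ∈ 𝒞`, `spv_av`). `β_y` has degree `≤ -1` as `y ≠ x δ` (`ri_deg`; `rJ (x δ) = x ≠ 1`).
-/

open LaurentPolynomial
open Pool.Agent.Lib.MP_754fa1_al

namespace Pool.Agent.Lib.KLT

universe u v w

variable {B : Type u} {W : Type v} [Group W] {M : CoxeterMatrix B} [Finite B]
variable {cs : CoxeterSystem M W} {L : B → ℕ} {H : Type w} [Ring H] [Algebra Lau H]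
variable (D : KL cs L H)

omit [Finite B] in
private theorem R05_rm_one (cs : CoxeterSystem M W) (J : Set B) : RM cs J 1 := by
  intro j _ hd
  have h : cs.length (1 * cs.simple j) < cs.length 1 := hd
  rw [cs.length_one] at h
  exact absurd h (Nat.not_lt_zero _)

omit [Finite B] in
private theorem R05_c_mem {J : Set B} {C : Set W} (hC : Blk D J C) {δ : W} (hδ : δ ∈ C) :
    D.c δ ∈ Submodule.span Lau (eJ D J '' {z | pJ cs J z ∈ C}) := by
  have h1 := rp_unique cs (R05_rm_one cs J) (hC.1 δ hδ)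
  have h2 := eJ_mul D (R05_rm_one cs J) (hC.1 δ hδ)
  rw [D.t_one, one_mul (D.c δ)] at h2
  rw [← h2]
  refine Submodule.subset_span ⟨1 * δ, ?_, rfl⟩
  show pJ cs J (1 * δ) ∈ C
  rw [h1.2]
  exact hδ

theorem ri_coord (hL : ∀ i, 0 < L i) (hE : OddEq M L) {J : Set B} {δ : W} {n : ℕ}
    (h : SpV cs L J δ n) (g : H) {y : W} (hy : D.cB.repr (g * D.c δ) y ≠ 0) :
    n < av cs L y ∨ ∃ x, RM cs J x ∧ y = x * δ := by
  obtain ⟨C, hC, hδ, hCn⟩ := blk_spv D hL hE h
  have h0 := u_left D hC g (R05_c_mem D hC hδ)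
  rw [u_span D hC] at h0
  have h1 : g * D.c δ ∈ Submodule.span Lau (D.cB '' {z | pJ cs J z ∈ C}) := by
    rw [D.coe_cB]
    exact h0
  rw [Module.Basis.mem_span_image] at h1
  have h2 : pJ cs J y ∈ C := h1 (Finset.mem_coe.2 (Finsupp.mem_support_iff.2 hy))
  obtain ⟨e, hr, hp⟩ := rp_spec cs J y
  by_cases h3 : pJ cs J y = δ
  · right
    exact ⟨rJ cs J y, hr, by rw [← h3]; exact e⟩
  · left
    refine lt_of_lt_of_le (hCn _ h2 h3) ?_
    have h4 := av_mono cs L (fac_right cs (rm_len cs hr hp))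
    rwa [← e] at h4

theorem ri_k (hL : ∀ i, 0 < L i) (hE : OddEq M L) {J : Set B} {δ : W} {n : ℕ}
    (h : SpV cs L J δ n) (hI : ∀ g : H, ∀ a ∈ Ia D n, g * a ∈ Ia D n) {x : W}
    (hx : RM cs J x) : ∃ k : H, D.c (x * δ) - k * D.c δ ∈ Ia D n := by
  classical
  obtain ⟨C, hC, hδ, hCn⟩ := blk_spv D hL hE h
  obtain ⟨β, hβ⟩ : ∃ β, β = (eJ D J).repr (D.c (x * δ)) := ⟨_, rfl⟩
  have hz : pJ cs J (x * δ) ∈ C := by
    rw [(rp_unique cs hx (hC.1 δ hδ)).2]
    exact hδ
  have e1 : D.c (x * δ) = ∑ y ∈ β.support, β y • (D.t (rJ cs J y) * D.c (pJ cs J y)) := by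
    conv_lhs => rw [← (eJ D J).linearCombination_repr (D.c (x * δ)), ← hβ,
      Finsupp.linearCombination_apply]
    refine Finset.sum_congr rfl fun y _ => ?_
    show β y • eJ D J y = _
    rw [eJ_apply]
  refine ⟨∑ y ∈ β.support.filter (fun y => pJ cs J y = δ), β y • D.t (rJ cs J y), ?_⟩
  have e2 : (∑ y ∈ β.support.filter (fun y => pJ cs J y = δ), β y • D.t (rJ cs J y)) * D.c δ =
      ∑ y ∈ β.support.filter (fun y => pJ cs J y = δ),
        β y • (D.t (rJ cs J y) * D.c (pJ cs J y)) := by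
    rw [Finset.sum_mul]
    refine Finset.sum_congr rfl fun y hy => ?_
    rw [(Finset.mem_filter.1 hy).2, smul_mul_assoc]
  have e3 : D.c (x * δ) - (∑ y ∈ β.support.filter (fun y => pJ cs J y = δ),
        β y • D.t (rJ cs J y)) * D.c δ =
      ∑ y ∈ β.support.filter (fun y => ¬ pJ cs J y = δ),
        β y • (D.t (rJ cs J y) * D.c (pJ cs J y)) := by
    rw [e2]
    conv_lhs => rw [e1]
    rw [← Finset.sum_filter_add_sum_filter_not β.support (fun y => pJ cs J y = δ)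
      (fun y => β y • (D.t (rJ cs J y) * D.c (pJ cs J y)))]
    rw [add_sub_cancel_left]
  rw [e3]
  refine Submodule.sum_mem _ fun y hy => ?_
  obtain ⟨hy1, hy2⟩ := Finset.mem_filter.1 hy
  have hyC : pJ cs J y ∈ C := by
    by_contra h5
    have h6 := ri_supp D hC hz h5
    rw [← hβ] at h6
    exact (Finsupp.mem_support_iff.1 hy1) h6
  exact Submodule.smul_mem _ _ (hI _ _ (c_mem_ia D (hCn _ hyC hy2)))

omit [Finite B] in
private theorem R05_coord_one {J : Set B} {x : W} (hx : RM cs J x) (h1 : x ≠ 1) {k : H}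
    (hk : HP D.toHecke J k) : D.t.repr (D.t x * k) 1 = 0 := by
  classical
  have h2 := (hp_iff_span D.toHecke).1 hk
  induction h2 using Submodule.span_induction with
  | mem a ha =>
    obtain ⟨q, hq, rfl⟩ := ha
    have hq' : q ∈ WP cs J := hq
    rw [D.t_mul x q (rm_len cs hx hq'), Module.Basis.repr_self, Finsupp.single_apply, if_neg]
    intro e
    have h3 := rm_uniq cs hx (R05_rm_one cs J) hq' (Subgroup.one_mem _) (by rw [e, one_mul])
    exact h1 h3.1
  | zero => rw [mul_zero, map_zero, Finsupp.zero_apply]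
  | add a b ha hb iha ihb =>
    rw [mul_add, map_add, Finsupp.add_apply, iha ((hp_iff_span D.toHecke).2 ha),
      ihb ((hp_iff_span D.toHecke).2 hb), add_zero]
  | smul r a ha iha =>
    rw [mul_smul_comm, map_smul, Finsupp.smul_apply, iha ((hp_iff_span D.toHecke).2 ha), smul_zero]

theorem p_one_ext (hL : ∀ i, 0 < L i) (hE : OddEq M L) (hM : Tri M) {J : Set B} {δ : W}
    {n : ℕ} (h : SpV cs L J δ n) {x : W} (hx : RM cs J x) (h1 : x ≠ 1) :
    DegLe (-(n : ℤ) - 1) (D.t.repr (D.c (x * δ)) 1) := by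
  classical
  obtain ⟨C, hC, hδ, hCn⟩ := blk_spv D hL hE h
  obtain ⟨β, hβ⟩ : ∃ β, β = (eJ D J).repr (D.c (x * δ)) := ⟨_, rfl⟩
  have hru := rp_unique cs hx (hC.1 δ hδ)
  have hz : pJ cs J (x * δ) ∈ C := by
    rw [hru.2]
    exact hδ
  have e1 : D.c (x * δ) = ∑ y ∈ β.support, β y • (D.t (rJ cs J y) * D.c (pJ cs J y)) := by
    conv_lhs => rw [← (eJ D J).linearCombination_repr (D.c (x * δ)), ← hβ,
      Finsupp.linearCombination_apply]
    refine Finset.sum_congr rfl fun y _ => ?_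
    show β y • eJ D J y = _
    rw [eJ_apply]
  rw [e1, map_sum, Finsupp.finsetSum_apply]
  refine DegLe.sum _ _ fun y hy => ?_
  rw [map_smul, Finsupp.smul_apply, smul_eq_mul]
  have hyC : pJ cs J y ∈ C := by
    by_contra h5
    have h6 := ri_supp D hC hz h5
    rw [← hβ] at h6
    exact (Finsupp.mem_support_iff.1 hy) h6
  obtain ⟨e, hr, hp⟩ := rp_spec cs J y
  by_cases hr1 : rJ cs J y = 1
  · rw [hr1, D.t_one, one_mul]
    have hne : y ≠ x * δ := by
      intro h7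
      rw [h7, hru.1] at hr1
      exact h1 hr1
    have h8 : DegLe (-1) (β y) := by
      rw [hβ]
      exact ri_deg D J hne
    have h9 := p_one_sph D hL hE hM (spv_sph h) hp
    have h10 : n ≤ av cs L (pJ cs J y) := by
      by_cases h11 : pJ cs J y = δ
      · rw [h11, spv_av hE h]
      · exact (hCn _ hyC h11).le
    exact (h8.mul h9).mono (by omega)
  · rw [R05_coord_one D hr hr1 (hp_c D hp), mul_zero]
    exact DegLe.zero

end Pool.Agent.Lib.KLT
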