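import Pool.Agent.Lib.MP_754fa1_al.T.M02
import Pool.Agent.Lib.MP_754fa1_al.T.X6
import Pool.Agent.Lib.MP_754fa1_al.T.R05
import Pool.Agent.Lib.MP_754fa1_al.OP

/-!
# M05a. The opposite algebra and `C_δ C_{δy}`

`ia_opp`: `D.opp.cB.repr h z = D.cB.repr (unop h) z⁻¹` (`opp_cB_repr`), `av z⁻¹ = av z`, `ia_iff`.
`ts_opp`: `TS D m` implies `TS D.opp m`.
`ri_k_right`: `LM J y`: there is `k` with `C_{δy} - C_δ k ∈ Ia D n`: `ri_k` for `D.opp` and `y⁻¹` (`RM J y⁻¹`, `(δ y)⁻¹ = y⁻¹ δ`, `spv_inv`, `D.opp.c x = op (D.c x⁻¹)`).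
`lau_eta`: `η` with `DegLe n η`, `η.coeff n = ±1`: `DegLe (n + d) (η ζ)` implies `DegLe d ζ`; `(η ζ).coeff (n + d) = η.coeff n * ζ.coeff d` if `DegLe d ζ`. (If `ζ ≠ 0` has degree `e` (`DegLe.exists_top`), the coefficient of `η ζ` at `n + e` is non-zero.)
`eta_ne_zero`, `eta_cancel`: `η ζ = 0` implies `ζ = 0` (`lau_mul_eq_zero`).

`c_delta_mul`: `C_δ C_{δy} - η C_{δy} ∈ Ia D n`: `C_{δy} = C_δ k + i`, `C_δ C_{δy} = (C_δ C_δ) k + C_δ i`, `C_δ C_δ - η C_δ ∈ Ia D n` (`Eta`, `ia_iff`), so `≡ η C_δ k ≡ η C_{δy}` (`TS`).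
`g_mem`: `g C_δ ∈ Ia D n` implies `g C_{δy} ∈ Ia D n`: `η g C_{δy} ≡ g C_δ C_{δy} ∈ Ia D n`; coordinates at `z` with `av z ≤ n`: `η ζ = 0`, so `ζ = 0`.
-/

open LaurentPolynomial
open Pool.Agent.Lib.MP_754fa1_al

namespace Pool.Agent.Lib.KLT

universe u v w

variable {B : Type u} {W : Type v} [Group W] {M : CoxeterMatrix B}
variable {cs : CoxeterSystem M W} {L : B → ℕ} {H : Type w} [Ring H] [Algebra Lau H]

theorem lau_eta {n : ℤ} {η ζ : Lau} (h1 : DegLe n η) (h2 : η.coeff n = 1 ∨ η.coeff n = -1)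
    {d : ℤ} (h : DegLe (n + d) (η * ζ)) : DegLe d ζ := by
  by_cases h0 : ζ = 0
  · rw [h0]; exact DegLe.zero
  · obtain ⟨e, he, he'⟩ := DegLe.exists_top h0
    have h3 := coeff_mul_top h1 he'
    have h4 : (η * ζ).coeff (n + e) ≠ 0 := by
      rw [h3]
      rcases h2 with h2 | h2 <;> rw [h2]
      · rw [one_mul]; exact he
      · rw [neg_one_mul]; exact neg_ne_zero.2 he
    have h5 : e ≤ d := by
      by_contra hc
      exact h4 (h (n + e) (by omega))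
    exact he'.mono h5

theorem eta_cancel {n : ℤ} {η ζ : Lau} (h2 : η.coeff n = 1 ∨ η.coeff n = -1)
    (h : η * ζ = 0) : ζ = 0 := by
  rcases lau_mul_eq_zero h with h3 | h3
  · exfalso
    rw [h3] at h2
    rcases h2 with h2 | h2 <;> simp at h2
  · exact h3

variable [Finite B] (D : KL cs L H)

theorem ia_opp {m : ℕ} {h : Hᵐᵒᵖ} : h ∈ Ia D.opp m ↔ MulOpposite.unop h ∈ Ia D m := by
  rw [ia_iff, ia_iff]
  constructor
  · intro hh z hz
    have h1 := hh z⁻¹ (by rw [av_inv]; exact hz)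
    rw [KL.opp_cB_repr, inv_inv] at h1
    exact h1
  · intro hh z hz
    rw [KL.opp_cB_repr]
    exact hh z⁻¹ (by rw [av_inv]; exact hz)

theorem ts_opp {m : ℕ} (h : TS D m) : TS D.opp m := by
  intro g a ha
  rw [ia_opp] at ha
  have h1 := h (MulOpposite.unop g) _ ha
  constructor
  · rw [ia_opp, MulOpposite.unop_mul]
    exact h1.2
  · rw [ia_opp, MulOpposite.unop_mul]
    exact h1.1

theorem ri_k_right (hL : ∀ i, 0 < L i) (hE : OddEq M L) {J : Set B} {δ : W} {n : ℕ}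
    (h : SpV cs L J δ n) (hT : TS D n) {y : W} (hy : LM cs J y) :
    ∃ k : H, D.c (δ * y) - D.c δ * k ∈ Ia D n := by
  obtain ⟨k, hk⟩ := ri_k D.opp hL hE h (fun g a ha => (ts_opp D hT g a ha).1)
    ((rm_inv_iff cs).2 hy)
  refine ⟨MulOpposite.unop k, ?_⟩
  rw [ia_opp, MulOpposite.unop_sub, MulOpposite.unop_mul, KL.opp_c, KL.opp_c,
    MulOpposite.unop_op, MulOpposite.unop_op, mul_inv_rev, inv_inv, spv_inv h] at hk
  exact hk

private theorem M05a_eta {J : Set B} {δ : W} {n : ℕ} {η : Lau} (he : Eta D J δ n η) :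
    D.c δ * D.c δ - η • D.c δ ∈ Ia D n := by
  rw [ia_iff]
  intro z hz
  by_contra hn
  have := (he.2.2.2 z hn).2
  omega

theorem c_delta_mul (hL : ∀ i, 0 < L i) (hE : OddEq M L) {J : Set B} {δ : W} {n : ℕ}
    (h : SpV cs L J δ n) (hT : TS D n) {y : W} (hy : LM cs J y) {η : Lau}
    (he : Eta D J δ n η) : D.c δ * D.c (δ * y) - η • D.c (δ * y) ∈ Ia D n := by
  obtain ⟨k, hk⟩ := ri_k_right D hL hE h hT hy
  have e : D.c δ * D.c (δ * y) - η • D.c (δ * y) =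
      (D.c δ * D.c δ - η • D.c δ) * k +
        (D.c δ * (D.c (δ * y) - D.c δ * k) - η • (D.c (δ * y) - D.c δ * k)) := by
    rw [sub_mul, mul_sub, smul_sub, smul_mul_assoc, mul_assoc]
    abel
  rw [e]
  refine add_mem (hT k _ (M05a_eta D he)).2 (sub_mem (hT _ _ hk).1 ?_)
  exact Submodule.smul_mem _ _ hk

theorem g_mem (hL : ∀ i, 0 < L i) (hE : OddEq M L) {J : Set B} {δ : W} {n : ℕ}
    (h : SpV cs L J δ n) (hT : TS D n) {y : W} (hy : LM cs J y) {g : H}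
    (hg : g * D.c δ ∈ Ia D n) : g * D.c (δ * y) ∈ Ia D n := by
  obtain ⟨η, he⟩ := eta_spv D hL hE h
  have h1 := (hT g _ (c_delta_mul D hL hE h hT hy he)).1
  have h2 := (hT (D.c (δ * y)) _ hg).2
  have e : η • (g * D.c (δ * y)) = g * D.c δ * D.c (δ * y) -
      g * (D.c δ * D.c (δ * y) - η • D.c (δ * y)) := by
    rw [mul_sub, mul_smul_comm, mul_assoc]
    abel
  have h3 : η • (g * D.c (δ * y)) ∈ Ia D n := by
    rw [e]
    exact sub_mem h2 h1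
  rw [ia_iff] at h3 ⊢
  intro z hz
  have h4 := h3 z hz
  rw [map_smul, Finsupp.smul_apply, smul_eq_mul] at h4
  exact eta_cancel he.2.2.1 h4

end Pool.Agent.Lib.KLT
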