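import Pool.Agent.Lib.MP_754fa1_al.T.M05

/-!
# M06. The left ideal generated by `C_u`, `u` tight

`SpV J δ n`, `TS D n`, `LM J y`, `Tgt (δ y)`, `av (δ y) = n`, `g : H`.

`lu_sum`: `g C_δ = ∑_z β_z C_z` (`β = D.cB.repr (g * D.c δ)`); for `z` in the finite support, `n < av z` or `z = x δ`, `RM J x` (`ri_coord`). For the `z` of the second kind let `x_z = z δ⁻¹`, choose `k_z` with `C_z - k_z C_δ ∈ Ia D n` (`ri_k`; `TS`). Put
`g' = g - ∑ β_z k_z` (sum over the `z` of the second kind). Then `g' C_δ = ∑_{first kind} β_z C_z + ∑_{second kind} β_z (C_z - k_z C_δ) ∈ Ia D n`, so `g' C_{δy} ∈ Ia D n` (`g_mem`), i.e. `g C_{δy} ≡ ∑ β_z k_z C_{δy}`, and `k_z C_{δy} ≡ C_{x_z δ y}` if `av z = n` (`main_eq`), `≡ 0` if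
`n < av z` (`main_big`) (`av z ≥ n` by `av_mono`, `spv_av`).
`lu_coord`: so a non-zero coordinate of `g C_{δy}` at `z'` with `av z' ≤ n` implies `z' = x δ y` with `RM J x`, `av (x δ) = n`.
`lu_value`: the coordinate at `x δ y` (`RM J x`, `av (x δ) = n`, `av (x δ y) ≤ n`) is `β_{xδ}`: `x ↦ x δ y` is injective.
-/

open LaurentPolynomial
open Pool.Agent.Lib.MP_754fa1_al

namespace Pool.Agent.Lib.KLT

universe u v w

variable {B : Type u} {W : Type v} [Group W] {M : CoxeterMatrix B} [Finite B]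
variable {cs : CoxeterSystem M W} {L : B → ℕ} {H : Type w} [Ring H] [Algebra Lau H]
variable (D : KL cs L H)

open Classical in
/-- the contribution of `z` -/
private noncomputable def M06F (n : ℕ) (y z : W) : H :=
  if av cs L z ≤ n then D.c (z * y) else 0

private theorem M06_k (hL : ∀ i, 0 < L i) (hE : OddEq M L) (hM : Tri M) {n : ℕ} (hT : TS D n)
    {J : Set B} {δ y : W} (h : SpV cs L J δ n) (hy : LM cs J y)
    (hu : Tgt cs L (δ * y)) (hau : av cs L (δ * y) = n) {g : H} {z : W}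
    (hz : D.cB.repr (g * D.c δ) z ≠ 0) :
    ∃ k : H, D.c z - k * D.c δ ∈ Ia D n ∧ k * D.c (δ * y) - M06F D n y z ∈ Ia D n := by
  classical
  by_cases hn : av cs L z ≤ n
  · rcases ri_coord D hL hE h g hz with h1 | ⟨x, hx, e⟩
    · omega
    · obtain ⟨k, hk⟩ := ri_k D hL hE h (fun g a ha => (hT g a ha).1) hx
      have h2 : n ≤ av cs L (x * δ) := by
        have h3 := av_mono (cs := cs) (L := L) (fac_right cs (rm_len cs hx (spv_mem h)))
        rwa [spv_av hE h] at h3
      have h4 : av cs L (x * δ) = n := by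
        rw [e] at hn
        omega
      refine ⟨k, by rw [e]; exact hk, ?_⟩
      rw [M06F, if_pos hn, e]
      exact main_eq D hL hE hM hT h hx hy hu hau h4 hk
  · refine ⟨0, ?_, ?_⟩
    · rw [zero_mul, sub_zero]
      exact c_mem_ia D (not_le.1 hn)
    · rw [M06F, if_neg hn, zero_mul, sub_zero]
      exact zero_mem _

private theorem M06_sum (hL : ∀ i, 0 < L i) (hE : OddEq M L) (hM : Tri M) {n : ℕ} (hT : TS D n)
    {J : Set B} {δ y : W} (h : SpV cs L J δ n) (hy : LM cs J y)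
    (hu : Tgt cs L (δ * y)) (hau : av cs L (δ * y) = n) (g : H) :
    g * D.c (δ * y) - ∑ z ∈ (D.cB.repr (g * D.c δ)).support,
      D.cB.repr (g * D.c δ) z • M06F D n y z ∈ Ia D n := by
  classical
  have hk : ∀ z : W, ∃ k : H, z ∈ (D.cB.repr (g * D.c δ)).support →
      D.c z - k * D.c δ ∈ Ia D n ∧ k * D.c (δ * y) - M06F D n y z ∈ Ia D n := by
    intro z
    by_cases hz : z ∈ (D.cB.repr (g * D.c δ)).support
    · obtain ⟨k, hk⟩ := M06_k D hL hE hM hT h hy hu hau (Finsupp.mem_support_iff.1 hz)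
      exact ⟨k, fun _ => hk⟩
    · exact ⟨0, fun h => absurd h hz⟩
  choose k hk using hk
  have h1 : g * D.c δ = ∑ z ∈ (D.cB.repr (g * D.c δ)).support,
      D.cB.repr (g * D.c δ) z • D.c z := by
    conv_lhs => rw [← D.cB.linearCombination_repr (g * D.c δ), Finsupp.linearCombination_apply]
    rw [Finsupp.sum]
    refine Finset.sum_congr rfl fun z _ => ?_
    rw [D.cB_apply]
  have h2 : (g - ∑ z ∈ (D.cB.repr (g * D.c δ)).support, D.cB.repr (g * D.c δ) z • k z) *
      D.c δ ∈ Ia D n := by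
    have e : (g - ∑ z ∈ (D.cB.repr (g * D.c δ)).support, D.cB.repr (g * D.c δ) z • k z) *
        D.c δ = ∑ z ∈ (D.cB.repr (g * D.c δ)).support,
          D.cB.repr (g * D.c δ) z • (D.c z - k z * D.c δ) := by
      rw [sub_mul, Finset.sum_mul]
      simp only [smul_sub, Finset.sum_sub_distrib, smul_mul_assoc]
      rw [← h1]
    rw [e]
    exact Submodule.sum_mem _ fun z hz => Submodule.smul_mem _ _ (hk z hz).1
  have h3 := g_mem D hL hE h hT hy h2
  have h4 : ∑ z ∈ (D.cB.repr (g * D.c δ)).support,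
      D.cB.repr (g * D.c δ) z • (k z * D.c (δ * y) - M06F D n y z) ∈ Ia D n :=
    Submodule.sum_mem _ fun z hz => Submodule.smul_mem _ _ (hk z hz).2
  have h5 := (Ia D n).add_mem h3 h4
  have e : (g - ∑ z ∈ (D.cB.repr (g * D.c δ)).support, D.cB.repr (g * D.c δ) z • k z) *
        D.c (δ * y) + ∑ z ∈ (D.cB.repr (g * D.c δ)).support,
          D.cB.repr (g * D.c δ) z • (k z * D.c (δ * y) - M06F D n y z) =
      g * D.c (δ * y) - ∑ z ∈ (D.cB.repr (g * D.c δ)).support,
        D.cB.repr (g * D.c δ) z • M06F D n y z := by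
    have e1 : ∑ z ∈ (D.cB.repr (g * D.c δ)).support,
        D.cB.repr (g * D.c δ) z • (k z * D.c (δ * y) - M06F D n y z) =
        (∑ z ∈ (D.cB.repr (g * D.c δ)).support, D.cB.repr (g * D.c δ) z • k z) *
          D.c (δ * y) - ∑ z ∈ (D.cB.repr (g * D.c δ)).support,
        D.cB.repr (g * D.c δ) z • M06F D n y z := by
      rw [Finset.sum_mul, ← Finset.sum_sub_distrib]
      refine Finset.sum_congr rfl fun z _ => ?_
      rw [smul_sub, smul_mul_assoc]
    rw [e1, sub_mul]
    abel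
  rw [e] at h5
  exact h5

private theorem M06_repr {n : ℕ} {y z z' : W} (h : D.cB.repr (M06F D n y z) z' ≠ 0) :
    av cs L z ≤ n ∧ z * y = z' := by
  classical
  rw [M06F] at h
  by_cases hn : av cs L z ≤ n
  · rw [if_pos hn, ← D.cB_apply, Module.Basis.repr_self, Finsupp.single_apply] at h
    refine ⟨hn, ?_⟩
    by_contra hne
    rw [if_neg hne] at h
    exact h rfl
  · rw [if_neg hn, map_zero] at h
    exact absurd rfl h

theorem lu_coord (hL : ∀ i, 0 < L i) (hE : OddEq M L) (hM : Tri M) {n : ℕ} (hT : TS D n)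
    {J : Set B} {δ y : W} (h : SpV cs L J δ n) (hy : LM cs J y)
    (hu : Tgt cs L (δ * y)) (hau : av cs L (δ * y) = n) (g : H) {z : W}
    (hz : D.cB.repr (g * D.c (δ * y)) z ≠ 0) :
    n < av cs L z ∨ ∃ x, RM cs J x ∧ av cs L (x * δ) = n ∧ z = x * δ * y := by
  classical
  by_cases hn : n < av cs L z
  · exact Or.inl hn
  right
  have h1 := (ia_iff D).1 (M06_sum D hL hE hM hT h hy hu hau g) z (not_lt.1 hn)
  rw [map_sub, Finsupp.sub_apply, sub_eq_zero, map_sum, Finsupp.finset_sum_apply] at h1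
  rw [h1] at hz
  obtain ⟨w, hw, hw'⟩ := Finset.exists_ne_zero_of_sum_ne_zero hz
  rw [map_smul, Finsupp.smul_apply, smul_eq_mul] at hw'
  obtain ⟨h2, h3⟩ := M06_repr D (right_ne_zero_of_mul hw')
  rcases ri_coord D hL hE h g (Finsupp.mem_support_iff.1 hw) with h4 | ⟨x, hx, e⟩
  · omega
  · have h5 : n ≤ av cs L (x * δ) := by
      have h6 := av_mono (cs := cs) (L := L) (fac_right cs (rm_len cs hx (spv_mem h)))
      rwa [spv_av hE h] at h6
    rw [e] at h2 h3
    exact ⟨x, hx, by omega, h3.symm⟩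

theorem lu_value (hL : ∀ i, 0 < L i) (hE : OddEq M L) (hM : Tri M) {n : ℕ} (hT : TS D n)
    {J : Set B} {δ y : W} (h : SpV cs L J δ n) (hy : LM cs J y)
    (hu : Tgt cs L (δ * y)) (hau : av cs L (δ * y) = n) (g : H) {x : W} (hx : RM cs J x)
    (hax : av cs L (x * δ) = n) (hz : av cs L (x * δ * y) ≤ n) :
    D.cB.repr (g * D.c (δ * y)) (x * δ * y) = D.cB.repr (g * D.c δ) (x * δ) := by
  classical
  have h1 := (ia_iff D).1 (M06_sum D hL hE hM hT h hy hu hau g) (x * δ * y) hz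
  rw [map_sub, Finsupp.sub_apply, sub_eq_zero, map_sum, Finsupp.finset_sum_apply] at h1
  rw [h1, Finset.sum_eq_single (x * δ)]
  · rw [map_smul, Finsupp.smul_apply, smul_eq_mul, M06F, if_pos hax.le,
      ← D.cB_apply (x * δ * y), Module.Basis.repr_self, Finsupp.single_eq_same, mul_one]
  · intro w _ hne
    by_contra h2
    rw [map_smul, Finsupp.smul_apply, smul_eq_mul] at h2
    obtain ⟨_, h3⟩ := M06_repr D (right_ne_zero_of_mul h2)
    exact hne (mul_right_cancel h3)
  · intro hns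
    rw [Finsupp.notMem_support_iff.1 hns, zero_smul, map_zero]
    rfl

end Pool.Agent.Lib.KLT
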