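import Pool.Agent.Lib.MP_754fa1_al.T.M06

/-!
# M07. All `Ia D m` are two-sided

`left_step`: `TS D n`, `av w = n`, a non-zero coordinate of `g C_w` at `z`: `n ≤ av z`. Proof: `exists_tgt`: `u` tight, `Suf u w`, `av u = n`; `tgt_form`: `u = δ y`, `SpV J δ n`, `LM J y`; `w = x u` reduced (`Suf`); `ext_form`: `RM J x`, `av (x δ) = n`. `ri_k`: `k`; `main_eq`: `C_w ≡ k C_{δy}` mod `Ia D n`.
So `g C_w ≡ (g k) C_{δy}`; `lu_coord`: `n < av z` or `z = x' δ y`; in the second case `δ y` is a suffix: `x' δ y` is reduced by `tight_red` (with `z = δ`) and `rm_len`, so `av z ≥ n`.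
`ts_step`: `TS D (n + 1)` implies `TS D n`: let `a ∈ Ia D n`; coordinates: `a` is a combination of `C_w`, `av w ≥ n + 1`; `av w > n + 1`: `TS D (n+1)`; `av w = n + 1`: `left_step` (with `n + 1`) gives `g C_w ∈ Ia D n`. Right multiplication: apply the left version to `D.opp` (`ts_opp`, `ia_opp`).
`ts_all`: `av_bound`: `Ia D m = ⊥` for `m ≥ N`, so `TS D m`; downward induction.
-/

open LaurentPolynomial
open Pool.Agent.Lib.MP_754fa1_al

namespace Pool.Agent.Lib.KLT

universe u v w

variable {B : Type u} {W : Type v} [Group W] {M : CoxeterMatrix B} [Finite B]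
variable {cs : CoxeterSystem M W} {L : B → ℕ} {H : Type w} [Ring H] [Algebra Lau H]
variable (D : KL cs L H)

theorem left_step (hL : ∀ i, 0 < L i) (hE : OddEq M L) (hM : Tri M) {n : ℕ} (hT : TS D n)
    {w : W} (hw : av cs L w = n) (g : H) {z : W} (hz : D.cB.repr (g * D.c w) z ≠ 0) :
    n ≤ av cs L z := by
  by_contra hcon
  push Not at hcon
  obtain ⟨u, hu, hs, hau⟩ := exists_tgt cs L w
  rw [hw] at hau
  obtain ⟨J, δ, y, hsp, rfl, hy⟩ := tgt_form hL hu
  rw [hau] at hsp
  rw [suf_iff] at hs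
  obtain ⟨x, rfl, hlen⟩ := hs
  obtain ⟨hx, hax⟩ := ext_form hL hsp hy hlen hw
  obtain ⟨k, hk⟩ := ri_k D hL hE hsp (fun g a ha => (hT g a ha).1) hx
  have hm := main_eq D hL hE hM hT hsp hx hy hu hau hax hk
  have e : g * D.c (x * (δ * y)) =
      (g * k) * D.c (δ * y) - g * (k * D.c (δ * y) - D.c (x * δ * y)) := by
    rw [mul_sub, mul_assoc g k, ← mul_assoc x δ y]
    abel
  have h0 := (ia_iff D).1 (hT g _ hm).1 z hcon.le
  rw [e, map_sub, Finsupp.sub_apply, h0, sub_zero] at hz
  rcases lu_coord D hL hE hM hT hsp hy hu hau (g * k) hz with h1 | ⟨x', hx', hax', rfl⟩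
  · omega
  · have hr : Rd cs (x' * δ) y := tight_red hL hE hM hsp hx' hy hax' hu hau (spv_spt hsp)
    have := av_mono cs L (fac_left cs hr)
    omega

theorem M07_key (hL : ∀ i, 0 < L i) (hE : OddEq M L) (hM : Tri M) {n : ℕ}
    (hT : TS D (n + 1)) (g : H) (a : H) (ha : a ∈ Ia D n) : g * a ∈ Ia D n := by
  have ha' : a ∈ Submodule.span Lau (D.c '' {z | n < av cs L z}) := ha
  induction ha' using Submodule.span_induction with
  | mem x hx =>
    obtain ⟨z, hz, rfl⟩ := hx
    have hz' : n < av cs L z := hz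
    rcases Nat.lt_or_ge (n + 1) (av cs L z) with h | h
    · have h1 := (hT g _ (c_mem_ia D h)).1
      rw [ia_iff] at h1 ⊢
      intro y hy
      exact h1 y (by omega)
    · rw [ia_iff]
      intro y hy
      by_contra hne
      have := left_step D hL hE hM hT (show av cs L z = n + 1 by omega) g hne
      omega
  | zero => rw [mul_zero]; exact Submodule.zero_mem _
  | add x y hx hy h1 h2 =>
    rw [mul_add]
    exact Submodule.add_mem _ (h1 hx) (h2 hy)
  | smul r x hx h1 =>
    rw [mul_smul_comm]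
    exact Submodule.smul_mem _ _ (h1 hx)

theorem ts_step (hL : ∀ i, 0 < L i) (hE : OddEq M L) (hM : Tri M) {n : ℕ}
    (hT : TS D (n + 1)) : TS D n := by
  intro g a ha
  refine ⟨M07_key D hL hE hM hT g a ha, ?_⟩
  have h1 : MulOpposite.op a ∈ Ia D.opp n := (ia_opp D).2 ha
  have h2 := M07_key D.opp hL hE hM (ts_opp D hT) (MulOpposite.op g) _ h1
  rw [ia_opp] at h2
  exact h2

theorem ts_all (hL : ∀ i, 0 < L i) (hE : OddEq M L) (hM : Tri M) (m : ℕ) : TS D m := by
  obtain ⟨N, hN⟩ := av_bound cs L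
  have key : ∀ k m : ℕ, N ≤ m + k → TS D m := by
    intro k
    induction k with
    | zero =>
      intro m hm g a ha
      have h0 : a = 0 := by
        apply D.cB.repr.injective
        rw [map_zero]
        ext1 z
        exact (ia_iff D).1 ha z ((hN z).trans (by omega))
      rw [h0, mul_zero, zero_mul]
      exact ⟨Submodule.zero_mem _, Submodule.zero_mem _⟩
    | succ k ih =>
      intro m hm
      exact ts_step D hL hE hM (ih (m + 1) (by omega))
  exact key N m (by omega)

end Pool.Agent.Lib.KLT
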