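import Pool.Agent.Lib.MP_754fa1_al.T.M07

/-!
# M08. The trace and the coefficients at `1`

`tau_tt`: the coordinate of `T_x T_y` at `1` is `1` if `x y = 1`, `0` otherwise. Induction on `ℓ(x)`: `x = x' s_i` reduced: `T_x T_y = T_{x'} T_i T_y`; `i` not a left descent of `y`: `= T_{x'} T_{s_i y}`; else `= T_{x'} T_{s_i y} + ξ T_{x'} T_y`, and `x' y ≠ 1`: otherwise
`x' = y⁻¹` would have the right descent `i`, but `x' s_i` is longer.
`tau_mul`: `D.t.repr (h * k) 1 = ∑_x h_x k_{x⁻¹}` (bilinearity).
`tau_deg`: `Lat 0 h`, `Lat 0 k`: `DegLe 0`. `tau_cc`: `C_{z⁻¹} C_z`: the term `x = z⁻¹` is `1` (`repr_c_one`), the others are products of two elements of degree `≤ -1`; so the coefficient at `0` is `1`.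

`p_one`: `DegLe (- av w) (D.t.repr (D.c w) 1)` for all `w`: strong downward induction on `av w` (`av_bound`). `exists_tgt`, `tgt_form`, `ext_form`: `w = x δ y`, `n = av w`; `E = C_{xδ} C_{δy}`; `main_E`: `E = η C_w + i`, `i ∈ Ia D n`. Coordinate at `1`:
`τ(E) = η p_{1,w} + ∑_{n < av z} ε_z p_{1,z}` where `ε_z = D.cB.repr E z` for `n < av z`, `z ≠ w` (`D.cB.repr i z`). `DegLe 0 (τ E)` (`tau_deg`, `lat_c`); `DegLe (av z) ε_z` (`gd_mul` with `m = av z`, `ts_all`, `gd_iff`), `DegLe (- av z) p_{1,z}` by induction. So `DegLe 0 (η p_{1,w})`, and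
`lau_eta` with `d = -n`.
-/

open LaurentPolynomial
open Pool.Agent.Lib.MP_754fa1_al

namespace Pool.Agent.Lib.KLT

universe u v w

variable {B : Type u} {W : Type v} [Group W] {M : CoxeterMatrix B}
variable {cs : CoxeterSystem M W} {L : B → ℕ} {H : Type w} [Ring H] [Algebra Lau H]

open Classical in
private theorem tau_tt_aux (D : Hecke cs L H) (n : ℕ) : ∀ x y : W, cs.length x = n →
    D.t.repr (D.t x * D.t y) 1 = if x * y = 1 then 1 else 0 := by
  induction n with
  | zero =>
    intro x y hx
    rw [cs.length_eq_zero_iff] at hx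
    rw [hx, D.t_one, one_mul, Module.Basis.repr_self, Finsupp.single_apply, one_mul]
  | succ n ih =>
    intro x y hx
    have hx1 : x ≠ 1 := by
      rintro rfl
      rw [cs.length_one] at hx
      omega
    obtain ⟨i, hi⟩ := cs.exists_rightDescent_of_ne_one hx1
    have hl := cs.isRightDescent_iff.1 hi
    have hx' : ¬ cs.IsRightDescent (x * cs.simple i) i :=
      cs.isRightDescent_iff_not_isRightDescent_mul.1 hi
    have e1 : D.t x = D.t (x * cs.simple i) * D.t (cs.simple i) := by
      rw [D.mul_s_up i _ hx', cs.simple_mul_simple_cancel_right]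
    have e2 : x * cs.simple i * (cs.simple i * y) = x * y := by
      rw [mul_assoc, cs.simple_mul_simple_cancel_left]
    rw [e1, mul_assoc]
    by_cases hy : cs.IsLeftDescent y i
    · rw [D.s_mul_down i y hy, mul_add, mul_smul_comm, map_add, Finsupp.add_apply, map_smul,
        Finsupp.smul_apply, ih _ _ (by omega), ih _ _ (by omega), e2]
      have h1 : x * cs.simple i * y ≠ 1 := by
        intro h
        have h2 : x * cs.simple i = y⁻¹ := mul_eq_one_iff_eq_inv.1 h
        rw [h2, cs.isRightDescent_inv_iff] at hx'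
        exact hx' hy
      rw [if_neg h1, smul_zero, add_zero]
    · rw [D.s_mul_up i y hy, ih _ _ (by omega), e2]

open Classical in
theorem tau_tt (D : Hecke cs L H) (x y : W) :
    D.t.repr (D.t x * D.t y) 1 = if x * y = 1 then 1 else 0 :=
  tau_tt_aux D _ x y rfl

theorem tau_mul (D : Hecke cs L H) (h k : H) :
    D.t.repr (h * k) 1 = (D.t.repr h).sum (fun x a => a * D.t.repr k x⁻¹) := by
  classical
  refine D.t_induction (p := fun h => D.t.repr (h * k) 1 =
    (D.t.repr h).sum (fun x a => a * D.t.repr k x⁻¹)) ?_ ?_ ?_ ?_ h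
  · intro x
    rw [Module.Basis.repr_self, Finsupp.sum_single_index (by rw [zero_mul]), one_mul]
    refine D.t_induction (p := fun k => D.t.repr (D.t x * k) 1 = D.t.repr k x⁻¹) ?_ ?_ ?_ ?_ k
    · intro y
      rw [tau_tt, Module.Basis.repr_self, Finsupp.single_apply]
      by_cases hxy : x * y = 1
      · rw [if_pos hxy, if_pos (eq_inv_of_mul_eq_one_right hxy)]
      · rw [if_neg hxy, if_neg]
        rintro rfl
        exact hxy (mul_inv_cancel x)
    · rw [mul_zero, map_zero, Finsupp.zero_apply, Finsupp.zero_apply]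
    · intro a b ha hb
      rw [mul_add, map_add, map_add, Finsupp.add_apply, Finsupp.add_apply, ha, hb]
    · intro r a ha
      rw [mul_smul_comm, map_smul, map_smul, Finsupp.smul_apply, Finsupp.smul_apply, ha]
  · rw [zero_mul, map_zero, Finsupp.zero_apply, Finsupp.sum_zero_index]
  · intro a b ha hb
    rw [add_mul, map_add, map_add, Finsupp.add_apply, ha, hb,
      Finsupp.sum_add_index' (by intro x; rw [zero_mul]) (by intro x a b; rw [add_mul])]
  · intro r a ha
    rw [smul_mul_assoc, map_smul, map_smul, Finsupp.smul_apply, ha,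
      Finsupp.sum_smul_index (by intro x; rw [zero_mul]), Finsupp.smul_sum]
    refine Finsupp.sum_congr fun x _ => ?_
    rw [smul_eq_mul, mul_assoc]

variable (D : KL cs L H)

theorem tau_deg {h k : H} (hh : D.Lat 0 h) (hk : D.Lat 0 k) :
    DegLe 0 (D.t.repr (h * k) 1) := by
  rw [tau_mul]
  refine DegLe.sum _ _ fun x _ => ?_
  have h1 := (hh x).mul (hk x⁻¹)
  rw [add_zero] at h1
  exact h1

theorem tau_cc (z : W) : (D.t.repr (D.c z⁻¹ * D.c z) 1).coeff 0 = 1 := by
  classical
  rw [tau_mul, Finsupp.sum]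
  have hmem : z⁻¹ ∈ (D.t.repr (D.c z⁻¹)).support := by
    rw [Finsupp.mem_support_iff, repr_c_one]
    exact one_ne_zero
  rw [← Finset.add_sum_erase _ _ hmem]
  have h1 : DegLe (-1) (∑ x ∈ (D.t.repr (D.c z⁻¹)).support.erase z⁻¹,
      (D.t.repr (D.c z⁻¹)) x * (D.t.repr (D.c z)) x⁻¹) := by
    refine DegLe.sum _ _ fun x hx => ?_
    have hx1 : x ≠ z⁻¹ := (Finset.mem_erase.1 hx).1
    have hx2 : x⁻¹ ≠ z := by
      rintro rfl
      exact hx1 (inv_inv x).symm
    exact ((repr_c_ne D hx1).mul (repr_c_ne D hx2)).mono (by omega)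
  rw [lp_coeff_add, h1 0 (by omega), add_zero]
  beta_reduce
  rw [repr_c_one, inv_inv, repr_c_one, mul_one, ← T_zero, T_apply, if_pos rfl]

variable [Finite B]

theorem p_one (hL : ∀ i, 0 < L i) (hE : OddEq M L) (hM : Tri M) (w : W) :
    DegLe (-(av cs L w : ℤ)) (D.t.repr (D.c w) 1) := by
  obtain ⟨N, hN⟩ := av_bound cs L
  have key : ∀ k : ℕ, ∀ w : W, N - av cs L w = k →
      DegLe (-(av cs L w : ℤ)) (D.t.repr (D.c w) 1) := by
    intro k
    induction k using Nat.strong_induction_on with
    | _ k ih =>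
      intro w hw
      obtain ⟨u, hu, hs, hau⟩ := exists_tgt cs L w
      obtain ⟨J, δ, y, hδ, hδy, hy⟩ := tgt_form hL hu
      rw [hau] at hδ
      have hxu : w * u⁻¹ * u = w := by group
      have hr : Rd cs (w * u⁻¹) (δ * y) := by
        unfold Rd
        rw [← hδy, hxu]
        exact hs
      have hxw : w * u⁻¹ * (δ * y) = w := by rw [← hδy, hxu]
      obtain ⟨hx, hax⟩ := ext_form hL hδ hy hr (by rw [hxw])
      rw [hδy] at hu hau
      obtain ⟨η, he⟩ := eta_spv D hL hE hδ
      have hmain := main_E D hL hE hM (ts_all D hL hE hM (av cs L w)) hδ hx hy hu hau hax he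
      have e1 : w * u⁻¹ * δ * y = w := by rw [mul_assoc, hxw]
      rw [e1] at hmain
      set E := D.c (w * u⁻¹ * δ) * D.c (δ * y) with hEdef
      set q := E - η • D.c w with hq
      have hE1 : E = η • D.c w + q := by rw [hq]; abel
      have hdE : DegLe 0 (D.t.repr E 1) := tau_deg D (D.lat_c _) (D.lat_c _)
      have hqsum : q = ∑ z ∈ (D.cB.repr q).support, D.cB.repr q z • D.c z := by
        conv_lhs => rw [← D.cB.linearCombination_repr q]
        rw [Finsupp.linearCombination_apply, Finsupp.sum]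
        exact Finset.sum_congr rfl fun z _ => by rw [D.cB_apply]
      have hdq : DegLe 0 (D.t.repr q 1) := by
        rw [hqsum, map_sum, Finsupp.finsetSum_apply]
        refine DegLe.sum _ _ fun z hz => ?_
        rw [Finsupp.mem_support_iff] at hz
        have hzn : av cs L w < av cs L z := by
          by_contra hcon
          exact hz ((ia_iff D).1 hmain z (not_lt.1 hcon))
        have hzw : z ≠ w := by
          rintro rfl
          exact lt_irrefl _ hzn
        have h2 : D.cB.repr q z = D.cB.repr E z := by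
          rw [hq, map_sub, map_smul, Finsupp.sub_apply, Finsupp.smul_apply, ← D.cB_apply w,
            Module.Basis.repr_self, Finsupp.single_eq_of_ne hzw, smul_zero, sub_zero]
        have h3 := gd_mul D hL hE hM (ts_all D hL hE hM (av cs L z)) (D.lat_c (w * u⁻¹ * δ))
          (D.lat_c (δ * y))
        have h4 := (gd_iff D).1 h3 z le_rfl
        rw [← hEdef, ← h2] at h4
        have h5 : DegLe (-(av cs L z : ℤ)) (D.t.repr (D.c z) 1) :=
          ih (N - av cs L z) (by have := hN z; omega) z rfl
        rw [map_smul, Finsupp.smul_apply, smul_eq_mul]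
        exact (h4.mul h5).mono (by omega)
      have h6 : η * D.t.repr (D.c w) 1 = D.t.repr E 1 - D.t.repr q 1 := by
        rw [hE1, map_add, map_smul, Finsupp.add_apply, Finsupp.smul_apply, smul_eq_mul]
        ring
      have h7 : DegLe ((av cs L w : ℤ) + (-(av cs L w : ℤ))) (η * D.t.repr (D.c w) 1) := by
        rw [h6]
        exact (hdE.sub hdq).mono (by omega)
      exact lau_eta he.2.1 he.2.2.1 h7
  exact key _ w rfl

end Pool.Agent.Lib.KLT
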