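import Pool.Agent.Lib.MP_754fa1_al.T.M08

/-!
# M09. A tight suffix with the same value lies below

`coord_delta`: `SpV J δ n`, `RM J x`, `z = x δ`, `av z = n`: the coordinate `γ_δ` of `C_{z⁻¹} C_z` at `δ` is non-zero. Proof: `1 = (τ(C_{z⁻¹} C_z)).coeff 0 = ∑_y (γ_y p_{1,y}).coeff 0` (`tau_cc`; `C_{z⁻¹} C_z = ∑ γ_y C_y`). For `y ≠ δ` the summand is `0`:
* `n < av y`: `gd_cc_small` (`m = av y`, `b = z`, `ts_all`): `DegLe (av y - 1) γ_y`; `p_one`: `DegLe (- av y) p_{1,y}`; product of degree `≤ -1`.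
* `av y ≤ n`, `γ_y ≠ 0`: `C_z = k C_δ + i` (`ri_k`), so `γ_y` is the coordinate of `C_{z⁻¹} k C_δ` at `y`; `ri_coord`: `y = x' δ`, `RM J x'`; `x' ≠ 1` as `y ≠ δ`; `DegLe (-n-1) p_{1,y}` (`p_one_ext`), `DegLe n γ_y` (`gd_mul` with `m = n`, `gd_iff`). Product of degree `≤ -1`.

`step_suf`: `Tgt u`, `Suf u w`, `av w = av u`: `D.Step u w`. `tgt_form`, `ext_form`: `u = δ y`, `w = x δ y`, `n = av u`. `z = x δ`. `k` from `ri_k`; `main_eq`: `C_w = k C_{δy} + i`. The coordinate of `C_{z⁻¹} C_w` at `u` is the one of `C_{z⁻¹} k C_{δy}` at `1 δ y` (`ia_iff`, `TS`, `av u = n`), by `lu_value` (`x = 1`,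
`av δ = n`) the one of `C_{z⁻¹} k C_δ` at `δ`, which is the one of `C_{z⁻¹} C_z` at `δ` (`C_z - k C_δ ∈ Ia D n`, `TS`, `av δ = n`), non-zero by `coord_delta`. `step_iff`.
-/

open LaurentPolynomial
open Pool.Agent.Lib.MP_754fa1_al

namespace Pool.Agent.Lib.KLT

universe u v w

variable {B : Type u} {W : Type v} [Group W] {M : CoxeterMatrix B} [Finite B]
variable {cs : CoxeterSystem M W} {L : B → ℕ} {H : Type w} [Ring H] [Algebra Lau H]
variable (D : KL cs L H)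

private theorem M09_rm_one {J : Set B} : RM cs J (1 : W) := fun _ _ h =>
  cs.not_isRightDescent_one _ h

theorem coord_delta (hL : ∀ i, 0 < L i) (hE : OddEq M L) (hM : Tri M) {n : ℕ}
    {J : Set B} {δ x : W} (h : SpV cs L J δ n) (hx : RM cs J x) (hax : av cs L (x * δ) = n) :
    D.cB.repr (D.c (x * δ)⁻¹ * D.c (x * δ)) δ ≠ 0 := by
  classical
  intro h0
  obtain ⟨z, hz⟩ : ∃ z, z = x * δ := ⟨_, rfl⟩
  rw [← hz] at h0 hax
  have hTn := ts_all D hL hE hM n
  obtain ⟨k, hk⟩ := ri_k D hL hE h (fun g a ha => (hTn g a ha).1) hx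
  rw [← hz] at hk
  obtain ⟨E, hEd⟩ : ∃ E, E = D.c z⁻¹ * D.c z := ⟨_, rfl⟩
  rw [← hEd] at h0
  have hsum : E = ∑ y ∈ (D.cB.repr E).support, D.cB.repr E y • D.c y := by
    conv_lhs => rw [← D.cB.linearCombination_repr E]
    rw [Finsupp.linearCombination_apply, Finsupp.sum]
    exact Finset.sum_congr rfl fun z _ => by rw [D.cB_apply]
  have hdeg : DegLe (-1) (D.t.repr E 1) := by
    rw [hsum, map_sum, Finsupp.finsetSum_apply]
    refine DegLe.sum _ _ fun y hy => ?_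
    rw [Finsupp.mem_support_iff] at hy
    have hyd : y ≠ δ := by
      rintro rfl
      exact hy h0
    rw [map_smul, Finsupp.smul_apply, smul_eq_mul]
    rcases Nat.lt_or_ge n (av cs L y) with hn | hn
    · have h1 := gd_cc_small D hL hE hM (ts_all D hL hE hM (av cs L y)) (a := z⁻¹) (b := z)
        (by rw [hax]; exact hn)
      have h2 := (gd_iff D).1 h1 y le_rfl
      rw [← hEd] at h2
      exact (h2.mul (p_one D hL hE hM y)).mono (by omega)
    · have h1 : D.cB.repr (D.c z⁻¹ * k * D.c δ) y ≠ 0 := by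
        have h2 : D.c z⁻¹ * (D.c z - k * D.c δ) ∈ Ia D n := (hTn _ _ hk).1
        have h3 := (ia_iff D).1 h2 y hn
        rw [mul_sub, map_sub, Finsupp.sub_apply, ← hEd, ← mul_assoc, sub_eq_zero] at h3
        rw [← h3]
        exact hy
      rcases ri_coord D hL hE h _ h1 with h2 | ⟨x', hx', hyx⟩
      · omega
      · have hx1 : x' ≠ 1 := by
          rintro rfl
          rw [one_mul] at hyx
          exact hyd hyx
        have h3 := p_one_ext D hL hE hM h hx' hx1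
        rw [← hyx] at h3
        have h4 := gd_mul D hL hE hM hTn (D.lat_c z⁻¹) (D.lat_c z)
        have h5 := (gd_iff D).1 h4 y hn
        rw [← hEd] at h5
        exact (h5.mul h3).mono (by omega)
  have h1 := tau_cc D z
  rw [← hEd, hdeg 0 (by omega)] at h1
  exact zero_ne_one h1

theorem step_suf (hL : ∀ i, 0 < L i) (hE : OddEq M L) (hM : Tri M) {u w : W}
    (hu : Tgt cs L u) (hs : Suf cs u w) (ha : av cs L w = av cs L u) : D.Step u w := by
  obtain ⟨J, δ, y, hδ, hδy, hy⟩ := tgt_form hL hu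
  obtain ⟨n, hn⟩ : ∃ n, n = av cs L u := ⟨_, rfl⟩
  rw [← hn] at hδ ha
  have hTn := ts_all D hL hE hM n
  have hxu : w * u⁻¹ * u = w := by group
  obtain ⟨x, hxd⟩ : ∃ x, x = w * u⁻¹ := ⟨_, rfl⟩
  rw [← hxd] at hxu
  have hr : Rd cs x (δ * y) := by
    unfold Rd
    rw [← hδy, hxu, hxd]
    exact hs
  have hxw : x * (δ * y) = w := by rw [← hδy, hxu]
  obtain ⟨hx, hax⟩ := ext_form hL hδ hy hr (by rw [hxw]; exact ha)
  obtain ⟨k, hk⟩ := ri_k D hL hE hδ (fun g a ha => (hTn g a ha).1) hx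
  have hau : av cs L (δ * y) = n := by rw [← hδy, hn]
  rw [hδy] at hu
  have hm := main_eq D hL hE hM hTn hδ hx hy hu hau hax hk
  have e1 : x * δ * y = w := by rw [mul_assoc, hxw]
  rw [e1] at hm
  have haδ : av cs L δ = n := by
    apply le_antisymm
    · rw [← hau]
      refine av_mono cs L ⟨1, y, by rw [one_mul], ?_⟩
      have h1 := lm_len cs hy (spv_mem hδ)
      unfold Rd at h1
      rw [h1, cs.length_one]
      omega
    · exact spv_le_av cs L hδ ⟨1, 1, by simp, by simp⟩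
  have hau' : av cs L u = n := hn.symm
  rw [D.step_iff]
  refine ⟨D.c (x * δ)⁻¹, ?_⟩
  have h1 : D.cB.repr (D.c (x * δ)⁻¹ * D.c w) u =
      D.cB.repr (D.c (x * δ)⁻¹ * k * D.c (δ * y)) u := by
    have h2 : D.c (x * δ)⁻¹ * (k * D.c (δ * y) - D.c w) ∈ Ia D n := (hTn _ _ hm).1
    have h3 := (ia_iff D).1 h2 u hau'.le
    rw [mul_sub, map_sub, Finsupp.sub_apply, ← mul_assoc, sub_eq_zero] at h3
    exact h3.symm
  have h2 := lu_value D hL hE hM hTn hδ hy hu hau (D.c (x * δ)⁻¹ * k) (x := 1) M09_rm_one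
    (by rw [one_mul]; exact haδ) (by rw [one_mul, hau])
  rw [one_mul, ← hδy] at h2
  rw [← hδy] at h1
  have h3 : D.cB.repr (D.c (x * δ)⁻¹ * k * D.c δ) δ =
      D.cB.repr (D.c (x * δ)⁻¹ * D.c (x * δ)) δ := by
    have h4 : D.c (x * δ)⁻¹ * (D.c (x * δ) - k * D.c δ) ∈ Ia D n := (hTn _ _ hk).1
    have h5 := (ia_iff D).1 h4 δ haδ.le
    rw [mul_sub, map_sub, Finsupp.sub_apply, ← mul_assoc, sub_eq_zero] at h5
    exact h5.symm
  rw [h1, h2, h3]
  exact coord_delta D hL hE hM hδ hx hax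

end Pool.Agent.Lib.KLT
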