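import Pool.Agent.Lib.MP_754fa1_al.T.M09
import Pool.Agent.Lib.MP_754fa1_al.CE

/-!
# M10. The left cells

As in `CE.lean` (right-angled case). `le_of_suf`: `KL.le_of_suf'` of `CE.lean` needs no hypothesis on `M` (`Suf u x` implies `D.Le x u`).

`le_char`: `Tgt u`, `D.Le x u` imply `av u < av x` or `Suf u x`. Induction along the chain (`Relation.ReflTransGen.head_induction_on`): step `a ← c`: `D.cB.repr (h * D.c c) a ≠ 0` (`step_iff`), and by induction `av u < av c` or `Suf u c`. Put `m = av u`. If `m < av c`: `C_c ∈ Ia D m`, `TS` (`ts_all`), so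
`av a > m` (`ia_iff`). If `Suf u c` and not `m < av c`, then `av c = m` (`av_mono`): `tgt_form` for `u = δ y`, `ext_form` for `c = x u`; `ri_k`, `main_eq`: `C_c = k C_{δy} + i`; so if `av a ≤ m` then `D.cB.repr ((h * k) * D.c (δ y)) a ≠ 0`, `lu_coord`: `a = x' δ y` with `RM J x'`, `av (x' δ) = n`, and `δ y` is a
suffix of it (`tight_red`, `rm_len`).

`cell_iff`, `tgt_unique`: formal, as in `CE.lean`, with `step_suf` for `le_suffix`.
-/

open LaurentPolynomial
open Pool.Agent.Lib.MP_754fa1_al

namespace Pool.Agent.Lib.KLT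

universe u v w

variable {B : Type u} {W : Type v} [Group W] {M : CoxeterMatrix B} [Finite B]
variable {cs : CoxeterSystem M W} {L : B → ℕ} {H : Type w} [Ring H] [Algebra Lau H]

omit [Finite B] in
/-- the combinatorial description of the left cells -/
def CellT (cs : CoxeterSystem M W) (L : B → ℕ) (x y : W) : Prop :=
  ∃ u, Tgt cs L u ∧ Suf cs u x ∧ Suf cs u y ∧ av cs L u = av cs L x ∧ av cs L u = av cs L y

variable (D : KL cs L H)

theorem le_char (hL : ∀ i, 0 < L i) (hE : OddEq M L) (hM : Tri M) {x u : W}
    (hu : Tgt cs L u) (h : D.Le x u) : av cs L u < av cs L x ∨ Suf cs u x := by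
  induction h using Relation.ReflTransGen.head_induction_on with
  | refl => exact Or.inr (suf_refl cs u)
  | @head a c h' _ ih =>
    rw [KL.step_iff] at h'
    obtain ⟨h, hne⟩ := h'
    have hT := ts_all D hL hE hM (av cs L u)
    by_contra hcon
    push Not at hcon
    obtain ⟨ha, hs⟩ := hcon
    rcases Nat.lt_or_ge (av cs L u) (av cs L c) with hc | hc
    · exact hne ((ia_iff D).1 (hT h _ (c_mem_ia D hc)).1 a ha)
    · have hsuf : Suf cs u c := ih.resolve_left (by omega)
      have hac : av cs L c = av cs L u := le_antisymm hc (av_mono cs L (fac_suf cs hsuf))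
      obtain ⟨J, δ, y, hsp, hu', hy⟩ := tgt_form hL hu
      rw [suf_iff] at hsuf
      obtain ⟨x, rfl, hlen⟩ := hsuf
      rw [hu'] at hlen hac
      generalize hn : av cs L u = n at *
      subst hu'
      rw [hn] at hac
      obtain ⟨hx, hax⟩ := ext_form hL hsp hy hlen hac
      obtain ⟨k, hk⟩ := ri_k D hL hE hsp (fun g a ha => (hT g a ha).1) hx
      have hm := main_eq D hL hE hM hT hsp hx hy hu hn hax hk
      have e : h * D.c (x * (δ * y)) =
          (h * k) * D.c (δ * y) - h * (k * D.c (δ * y) - D.c (x * δ * y)) := by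
        rw [mul_sub, mul_assoc h k, ← mul_assoc x δ y]
        abel
      have h0 := (ia_iff D).1 (hT h _ hm).1 a ha
      rw [e, map_sub, Finsupp.sub_apply, h0, sub_zero] at hne
      rcases lu_coord D hL hE hM hT hsp hy hu hn (h * k) hne with h1 | ⟨x', hx', hax', rfl⟩
      · omega
      · have hr : cs.length (x' * δ * y) = cs.length (x' * δ) + cs.length y :=
          tight_red hL hE hM hsp hx' hy hax' hu hn (spv_spt hsp)
        have hr' : cs.length (x' * δ) = cs.length x' + cs.length δ :=
          rm_len cs hx' (spv_mem hsp)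
        refine hs ((suf_iff _ _ _).2 ⟨x', mul_assoc _ _ _, ?_⟩)
        have l1 := cs.length_mul_le δ y
        have l2 := cs.length_mul_le x' (δ * y)
        rw [← mul_assoc] at l2
        omega

theorem cell_iff (hL : ∀ i, 0 < L i) (hE : OddEq M L) (hM : Tri M) (x y : W) :
    D.leftCells x y ↔ CellT cs L x y := by
  constructor
  · rintro ⟨hxy, hyx⟩
    obtain ⟨u, hu, hus, hua⟩ := exists_tgt cs L x
    obtain ⟨v, hv, hvs, hva⟩ := exists_tgt cs L y
    have h1 : D.Le y u := Relation.ReflTransGen.trans hyx (D.le_of_suf' _ x rfl hus)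
    have h2 : D.Le x v := Relation.ReflTransGen.trans hxy (D.le_of_suf' _ y rfl hvs)
    have k1 := le_char D hL hE hM hu h1
    have k2 := le_char D hL hE hM hv h2
    have k1' : Suf cs u y → av cs L u ≤ av cs L y := fun h => av_mono cs L (fac_suf cs h)
    have k2' : Suf cs v x → av cs L v ≤ av cs L x := fun h => av_mono cs L (fac_suf cs h)
    rcases k1 with k1 | k1
    · rcases k2 with k2 | k2
      · omega
      · have := k2' k2
        omega
    · have h3 := k1' k1
      rcases k2 with k2 | k2
      · omega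
      · have h4 := k2' k2
        exact ⟨u, hu, hus, k1, hua, by omega⟩
  · rintro ⟨u, hu, hx, hy, hax, hay⟩
    exact ⟨Relation.ReflTransGen.trans (D.le_of_suf' _ x rfl hx)
        (Relation.ReflTransGen.single (step_suf D hL hE hM hu hy hay.symm)),
      Relation.ReflTransGen.trans (D.le_of_suf' _ y rfl hy)
        (Relation.ReflTransGen.single (step_suf D hL hE hM hu hx hax.symm))⟩

include D in
theorem tgt_unique (hL : ∀ i, 0 < L i) (hE : OddEq M L) (hM : Tri M) {x u u' : W}
    (h1 : Tgt cs L u) (h2 : Suf cs u x) (h3 : av cs L u = av cs L x)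
    (h1' : Tgt cs L u') (h2' : Suf cs u' x) (h3' : av cs L u' = av cs L x) : u = u' := by
  have h : D.Le u u' :=
    Relation.ReflTransGen.trans (Relation.ReflTransGen.single (step_suf D hL hE hM h1 h2 h3.symm))
      (D.le_of_suf' _ x rfl h2')
  rcases le_char D hL hE hM h1' h with k | k
  · omega
  · by_contra hne
    have := h1 u' k (fun e => hne e.symm)
    omega

end Pool.Agent.Lib.KLT
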