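import Pool.Agent.Lib.MP_754fa1_al.T.D01b

/-!
# R01. Adapted bases

`f : W → H` is adapted if `f z - T_z` is a combination of `T_y` with `ℓ(y) < ℓ(z)`, and `Lat (-1) (f z - T_z)`. Then `f` is a basis and `Lat n h` iff all `f`-coordinates of `h` have degree `≤ n`.

Proof. Copy the construction of `cB` in `HB2.lean` (`toC`, `toC_sub`, `toC_inj`, `c_indep`, `spC`, `cB`), which uses only the triangularity. For the degrees copy `lat_iff` (`shadow`, `lat_sub_shadow`, `exists_deg`), which uses `Lat (-1) (C_z - T_z)`.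

`uniq_bar` (the uniqueness argument): `ρ : W → ℕ` with `bar (f z) - f z ∈ span {f y | ρ y < ρ z}`, `S ⊆ W` with `U = span {f y | y ∈ S}` stable under `bar`, `bar h = h`, and `DegLe (-1)` for the coordinates of `h` at all `y ∉ S`. Then these
coordinates are `0`: write `h = h₁ + h₂` (`h₁` the part in `U`, `h₂` the part on `y ∉ S`). `bar h₂ - h₂ = h₁ - bar h₁ ∈ U`. Suppose `h₂ ≠ 0`; let `y₀ ∉ S` be in its support with `ρ y₀ = N` maximal. The coordinate at `y₀` of
`bar h₂ = ∑_{y ∉ S} invert β_y bar (f y)` is `invert β_{y₀}` (`bar (f y) = f y + ` terms with `ρ < ρ y ≤ N`), and the one of `h₂` is `β_{y₀}`, and elements of `U` have coordinate `0` at `y₀`. So `invert β = β`, `DegLe (-1) β`, `β = 0`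
(`bar_neg`).
-/

open LaurentPolynomial
open Pool.Agent.Lib.MP_754fa1_al

namespace Pool.Agent.Lib.KLT

universe u v w

variable {B : Type u} {W : Type v} [Group W] {M : CoxeterMatrix B}
variable {cs : CoxeterSystem M W} {L : B → ℕ} {H : Type w} [Ring H] [Algebra Lau H]

private theorem R01_sp (D : Hecke cs L H) (f : W → H)
    (h1 : ∀ z, f z - D.t z ∈ Submodule.span Lau (D.t '' {y | cs.length y < cs.length z})) (n : ℕ) :
    D.Sp n ≤ Submodule.span Lau (f '' {y | cs.length y < n}) := by
  induction n with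
  | zero =>
    intro h hh
    rw [D.sp_zero hh]
    exact Submodule.zero_mem _
  | succ n ih =>
    rw [Hecke.Sp, Submodule.span_le]
    rintro _ ⟨y, hy, rfl⟩
    have h2 : D.t y = f y - (f y - D.t y) := by rw [sub_sub_cancel]
    rw [h2]
    refine Submodule.sub_mem _ (Submodule.subset_span ⟨y, hy, rfl⟩) ?_
    have hy' : cs.length y ≤ n := Nat.le_of_lt_succ hy
    have h3 : f y - D.t y ∈ D.Sp n := D.sp_mono hy' (h1 y)
    exact Submodule.span_mono (Set.image_mono fun _ hz => lt_of_lt_of_le hz (Nat.le_succ n)) (ih h3)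

private theorem R01_t_mem (D : Hecke cs L H) (f : W → H)
    (h1 : ∀ z, f z - D.t z ∈ Submodule.span Lau (D.t '' {y | cs.length y < cs.length z})) (x : W) :
    D.t x ∈ Submodule.span Lau (Set.range f) :=
  Submodule.span_mono (Set.image_subset_range _ _)
    (R01_sp D f h1 _ (D.t_mem_sp (Nat.lt_succ_self (cs.length x))))

private theorem R01_sub (D : Hecke cs L H) (f : W → H)
    (h1 : ∀ z, f z - D.t z ∈ Submodule.span Lau (D.t '' {y | cs.length y < cs.length z})) {n : ℕ}
    {h : H} (hh : h ∈ D.Sp (n + 1)) : D.t.constr ℕ f h - h ∈ D.Sp n := by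
  refine D.sp_induction (p := fun h => D.t.constr ℕ f h - h ∈ D.Sp n) ?_ ?_ ?_ ?_ hh
  · intro x hx
    rw [Module.Basis.constr_basis]
    exact D.sp_mono (Nat.le_of_lt_succ hx) (h1 x)
  · rw [map_zero, sub_zero]
    exact Submodule.zero_mem _
  · intro a b ha hb
    rw [map_add, add_sub_add_comm]
    exact Submodule.add_mem _ ha hb
  · intro r a ha
    rw [map_smul, ← smul_sub]
    exact Submodule.smul_mem _ r ha

private theorem R01_inj (D : Hecke cs L H) (f : W → H)
    (h1 : ∀ z, f z - D.t z ∈ Submodule.span Lau (D.t '' {y | cs.length y < cs.length z}))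
    {h : H} (h0 : D.t.constr ℕ f h = 0) : h = 0 := by
  obtain ⟨n, hn⟩ := D.exists_sp h
  induction n with
  | zero => exact D.sp_zero hn
  | succ n ih =>
    apply ih
    have h2 := R01_sub D f h1 hn
    rw [h0, zero_sub] at h2
    have h3 := Submodule.neg_mem _ h2
    rwa [neg_neg] at h3

private theorem R01_indep (D : Hecke cs L H) (f : W → H)
    (h1 : ∀ z, f z - D.t z ∈ Submodule.span Lau (D.t '' {y | cs.length y < cs.length z})) :
    LinearIndependent Lau f := by
  have h2 : f = D.t.constr ℕ f ∘ D.t := by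
    funext x
    rw [Function.comp_apply, Module.Basis.constr_basis]
  rw [h2]
  apply D.t.linearIndependent.map'
  rw [LinearMap.ker_eq_bot']
  intro h hh
  exact R01_inj D f h1 hh

theorem adapted_basis (D : Hecke cs L H) (f : W → H)
    (h1 : ∀ z, f z - D.t z ∈ Submodule.span Lau (D.t '' {y | cs.length y < cs.length z}))
    (h2 : ∀ z, D.Lat (-1) (f z - D.t z)) :
    ∃ b : Module.Basis W Lau H, (∀ z, b z = f z) ∧
      ∀ (n : ℤ) (h : H), D.Lat n h ↔ ∀ z, DegLe n (b.repr h z) := by
  obtain ⟨b, hb⟩ : ∃ b : Module.Basis W Lau H, ∀ z, b z = f z :=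
    ⟨Module.Basis.mk (R01_indep D f h1) (by
      intro h _
      rw [← D.t.linearCombination_repr h, Finsupp.linearCombination_apply]
      exact Submodule.sum_mem _ fun i _ => Submodule.smul_mem _ _ (R01_t_mem D f h1 i)),
      fun z => Module.Basis.mk_apply _ _ z⟩
  refine ⟨b, hb, ?_⟩
  have key : ∀ (d : ℤ) (h : H), (∀ z, DegLe d (b.repr h z)) →
      D.Lat (d - 1) (h - Finsupp.linearCombination Lau D.t (b.repr h)) := by
    intro d h hd
    have e1 : h - Finsupp.linearCombination Lau D.t (b.repr h) =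
        ∑ z ∈ (b.repr h).support, b.repr h z • (f z - D.t z) := by
      conv_lhs => rw [← b.linearCombination_repr h]
      rw [Module.Basis.repr_linearCombination, Finsupp.linearCombination_apply,
        Finsupp.linearCombination_apply, Finsupp.sum, Finsupp.sum, ← Finset.sum_sub_distrib]
      refine Finset.sum_congr rfl ?_
      intro z _
      rw [hb, smul_sub]
    rw [e1]
    apply D.lat_sum
    intro z _
    rw [sub_eq_add_neg]
    exact D.lat_smul (hd z) (h2 z)
  have shad : ∀ (h : H) (z : W),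
      D.t.repr (Finsupp.linearCombination Lau D.t (b.repr h)) z = b.repr h z := by
    intro h z
    rw [Module.Basis.repr_linearCombination]
  intro n h
  constructor
  · intro hl
    obtain ⟨d, hd⟩ : ∃ d, ∀ z, DegLe d (b.repr h z) := by
      obtain ⟨n, hn⟩ := D.lat_exists (Finsupp.linearCombination Lau D.t (b.repr h))
      refine ⟨n, ?_⟩
      intro z
      have h3 := hn z
      rwa [shad] at h3
    have h3 : ∀ z, DegLe (n + ((d - n).toNat : ℤ)) (b.repr h z) := by
      intro z
      exact (hd z).mono (by omega)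
    generalize (d - n).toNat = k at h3
    induction k with
    | zero =>
      intro z
      have h4 := h3 z
      rwa [Nat.cast_zero, add_zero] at h4
    | succ k ih =>
      apply ih
      intro z
      have h4 := key _ _ h3
      have h5 : D.Lat (n + (k : ℤ)) (h - (h - Finsupp.linearCombination Lau D.t (b.repr h))) := by
        apply D.lat_sub (D.lat_mono hl (by omega))
        apply D.lat_mono h4
        push_cast
        omega
      rw [sub_sub_cancel] at h5
      have h6 := h5 z
      rwa [shad] at h6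
  · intro hl
    have h3 := key _ _ hl
    have h4 : D.Lat n (Finsupp.linearCombination Lau D.t (b.repr h)) := by
      intro z
      rw [shad]
      exact hl z
    have h5 := D.lat_add (D.lat_mono h3 (by omega : n - 1 ≤ n)) h4
    rwa [sub_add_cancel] at h5

theorem uniq_bar (D : KL cs L H) (b : Module.Basis W Lau H) (ρ : W → ℕ)
    (hb : ∀ z, D.bar (b z) - b z ∈ Submodule.span Lau (b '' {y | ρ y < ρ z})) (S : Set W)
    (hS : ∀ g ∈ Submodule.span Lau (b '' S), D.bar g ∈ Submodule.span Lau (b '' S)) {h : H}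
    (hh : D.bar h = h) (hd : ∀ y, y ∉ S → DegLe (-1) (b.repr h y)) (y : W) (hy : y ∉ S) :
    b.repr h y = 0 := by
  classical
  by_contra hne
  obtain ⟨β, hβ⟩ : ∃ β, β = b.repr h := ⟨_, rfl⟩
  have hyT : y ∈ β.support.filter (fun z => z ∉ S) := by
    rw [Finset.mem_filter, Finsupp.mem_support_iff, hβ]
    exact ⟨hne, hy⟩
  obtain ⟨y₀, hy₀, hmax⟩ := Finset.exists_max_image (β.support.filter (fun z => z ∉ S)) ρ ⟨y, hyT⟩
  obtain ⟨hy₁, hy₂⟩ := Finset.mem_filter.1 hy₀
  have e1 : h = (∑ z ∈ β.support.filter (fun z => z ∈ S), β z • b z) +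
      ∑ z ∈ β.support.filter (fun z => z ∉ S), β z • b z := by
    rw [Finset.sum_filter_add_sum_filter_not]
    conv_lhs => rw [← b.linearCombination_repr h, ← hβ, Finsupp.linearCombination_apply]
    rfl
  obtain ⟨h₁, hh₁⟩ : ∃ h₁, h₁ = ∑ z ∈ β.support.filter (fun z => z ∈ S), β z • b z := ⟨_, rfl⟩
  obtain ⟨h₂, hh₂⟩ : ∃ h₂, h₂ = ∑ z ∈ β.support.filter (fun z => z ∉ S), β z • b z := ⟨_, rfl⟩
  rw [← hh₁, ← hh₂] at e1
  have m1 : h₁ ∈ Submodule.span Lau (b '' S) := by
    rw [hh₁]
    exact Submodule.sum_mem _ fun z hz => Submodule.smul_mem _ _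
      (Submodule.subset_span ⟨z, (Finset.mem_filter.1 hz).2, rfl⟩)
  have m2 : b.repr (D.bar h₁) y₀ = 0 := by
    have h3 := hS _ m1
    rw [Module.Basis.mem_span_image] at h3
    by_contra h4
    exact hy₂ (h3 (Finset.mem_coe.2 (Finsupp.mem_support_iff.2 h4)))
  have m3 : b.repr (D.bar h₂) y₀ = invert (β y₀) := by
    rw [hh₂, map_sum, map_sum, Finsupp.finsetSum_apply]
    rw [Finset.sum_eq_single y₀]
    · rw [D.bar_smul, map_smul, Finsupp.smul_apply, smul_eq_mul]
      have h5 := hb y₀
      rw [Module.Basis.mem_span_image] at h5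
      have h6 : b.repr (D.bar (b y₀) - b y₀) y₀ = 0 := by
        by_contra h7
        have h8 : ρ y₀ < ρ y₀ := h5 (Finset.mem_coe.2 (Finsupp.mem_support_iff.2 h7))
        exact lt_irrefl _ h8
      rw [map_sub, Finsupp.sub_apply, Module.Basis.repr_self, Finsupp.single_eq_same,
        sub_eq_zero] at h6
      rw [h6, mul_one]
    · intro z hz hzne
      rw [D.bar_smul, map_smul, Finsupp.smul_apply, smul_eq_mul]
      have h5 := hb z
      rw [Module.Basis.mem_span_image] at h5
      have h6 : b.repr (D.bar (b z) - b z) y₀ = 0 := by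
        by_contra h7
        have h8 : ρ y₀ < ρ z := h5 (Finset.mem_coe.2 (Finsupp.mem_support_iff.2 h7))
        exact absurd (hmax z hz) (not_le.2 h8)
      rw [map_sub, Finsupp.sub_apply, Module.Basis.repr_self,
        Finsupp.single_eq_of_ne hzne.symm, sub_zero] at h6
      rw [h6, mul_zero]
    · intro h5
      exact absurd hy₀ h5
  have m4 : b.repr (D.bar h) y₀ = invert (β y₀) := by
    rw [e1, map_add, map_add, Finsupp.add_apply, m2, m3, zero_add]
  rw [hh, ← hβ] at m4
  have m5 : β y₀ = 0 := by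
    refine bar_neg m4.symm ?_
    have h5 := hd y₀ hy₂
    rwa [← hβ] at h5
  exact (Finsupp.mem_support_iff.1 hy₁) m5

end Pool.Agent.Lib.KLT
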