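import Pool.Agent.Lib.MP_754fa1_al.T.R01

/-!
# R02. The basis `T_x C_w`

For `J : Set B` let `z = rJ z * pJ z` be the decomposition of `rm_exists` (`RM J (rJ z)`, `pJ z ∈ WP J`), chosen by `Classical.choose`; `eJ z = T_{rJ z} C_{pJ z}`. `rp_unique`: `rm_uniq`.
`t_mul_hp`: `RM J x`, `h ∈ H_J`: `T_x h = ∑_z h_z T_{xz}` (`rm_len`, `D.t_mul`).
`eJ_sub`: `eJ z - T_z = T_x (C_p - T_p)`, `x = rJ z`, `p = pJ z`, is the combination of the `T_{x y}`, `y ∈ WP J`, `ℓ(y) < ℓ(p)`, with coefficients of degree `≤ -1` (`hp_c`, `hp_iff_span`, `c_tri`, `repr_c_ne`).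
`exists_eJ`: `adapted_basis`.
`t_mul_mem`: for any `y` and `w ∈ WP J`: `T_y C_w ∈ span {eJ z | ℓ(rJ z) ≤ ℓ(y)}`: `y = x q` (`rm_exists`), `T_y = T_x T_q`, `T_q C_w ∈ H_J` (`hp_mul`), which is a combination of `C_{w'}` (`hp_iff_span_c`), and
`T_x C_{w'} = eJ (x w')` by uniqueness.
`bar_eJ`: `bar (T_x C_p) - T_x C_p = (bar T_x - T_x) C_p`, and `bar T_x - T_x` is a combination of `T_y`, `ℓ(y) < ℓ(x)` (`bar_tri`); `t_mul_mem`.
-/

open LaurentPolynomial
open Pool.Agent.Lib.MP_754fa1_al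

namespace Pool.Agent.Lib.KLT

universe u v w

variable {B : Type u} {W : Type v} [Group W] {M : CoxeterMatrix B}

/-- the `RM J` part -/
noncomputable def rJ (cs : CoxeterSystem M W) (J : Set B) (z : W) : W :=
  Classical.choose (rm_exists cs J z)

/-- the `WP J` part -/
noncomputable def pJ (cs : CoxeterSystem M W) (J : Set B) (z : W) : W :=
  Classical.choose (Classical.choose_spec (rm_exists cs J z))

theorem rp_spec (cs : CoxeterSystem M W) (J : Set B) (z : W) :
    z = rJ cs J z * pJ cs J z ∧ RM cs J (rJ cs J z) ∧ pJ cs J z ∈ WP cs J :=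
  Classical.choose_spec (Classical.choose_spec (rm_exists cs J z))

theorem rp_unique (cs : CoxeterSystem M W) {J : Set B} {x w : W} (hx : RM cs J x)
    (hw : w ∈ WP cs J) : rJ cs J (x * w) = x ∧ pJ cs J (x * w) = w := by
  obtain ⟨h1, h2, h3⟩ := rp_spec cs J (x * w)
  obtain ⟨h4, h5⟩ := rm_uniq cs hx h2 hw h3 h1
  exact ⟨h4.symm, h5.symm⟩

variable {cs : CoxeterSystem M W} {L : B → ℕ} {H : Type w} [Ring H] [Algebra Lau H]

private theorem R02_mul (D : Hecke cs L H) {J : Set B} {x : W} (hx : RM cs J x) {h : H}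
    (hh : HP D J h) : D.t x * h = ∑ y ∈ (D.t.repr h).support, D.t.repr h y • D.t (x * y) := by
  conv_lhs => rw [D.sum_repr h, Finsupp.sum, Finset.mul_sum]
  refine Finset.sum_congr rfl ?_
  intro y hy
  rw [mul_smul_comm, D.t_mul]
  apply rm_len cs hx
  by_contra h1
  exact Finsupp.mem_support_iff.1 hy (hh y h1)

private theorem R02_sp (D : Hecke cs L H) {J : Set B} {x : W} (hx : RM cs J x) {h : H}
    (hh : HP D J h) {n : ℕ} (hn : h ∈ D.Sp n) : D.t x * h ∈ D.Sp (cs.length x + n) := by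
  rw [R02_mul D hx hh]
  apply Submodule.sum_mem
  intro y hy
  apply Submodule.smul_mem
  apply D.t_mem_sp
  have h0 := Finsupp.mem_support_iff.1 hy
  have h1 : cs.length y < n := by
    by_contra h1
    exact h0 (D.mem_sp_iff.1 hn y (not_lt.1 h1))
  have h2 := cs.length_mul_le x y
  omega

private theorem R02_lat (D : Hecke cs L H) {J : Set B} {x : W} (hx : RM cs J x) {h : H}
    (hh : HP D J h) {n : ℤ} (hn : D.Lat n h) : D.Lat n (D.t x * h) := by
  rw [R02_mul D hx hh]
  apply D.lat_sum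
  intro y _
  have h1 := D.lat_smul (hn y) (D.lat_t (x * y))
  rwa [add_zero] at h1

private theorem R02_t (D : Hecke cs L H) (J : Set B) (z : W) :
    D.t z = D.t (rJ cs J z) * D.t (pJ cs J z) := by
  obtain ⟨h1, h2, h3⟩ := rp_spec cs J z
  rw [D.t_mul _ _ (rm_len cs h2 h3), ← h1]

private theorem R02_len (cs : CoxeterSystem M W) (J : Set B) (z : W) :
    cs.length z = cs.length (rJ cs J z) + cs.length (pJ cs J z) := by
  obtain ⟨h1, h2, h3⟩ := rp_spec cs J z
  have h4 := rm_len cs h2 h3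
  unfold Rd at h4
  rwa [← h1] at h4

theorem exists_eJ (D : KL cs L H) (J : Set B) :
    ∃ b : Module.Basis W Lau H, (∀ z, b z = D.t (rJ cs J z) * D.c (pJ cs J z)) ∧
      ∀ (n : ℤ) (h : H), D.Lat n h ↔ ∀ z, DegLe n (b.repr h z) := by
  have key : ∀ z, D.t (rJ cs J z) * D.c (pJ cs J z) - D.t z =
      D.t (rJ cs J z) * (D.c (pJ cs J z) - D.t (pJ cs J z)) := by
    intro z
    rw [mul_sub, ← R02_t D.toHecke J z]
  have hhp : ∀ z, HP D.toHecke J (D.c (pJ cs J z) - D.t (pJ cs J z)) := fun z =>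
    hp_sub D.toHecke (hp_c D (rp_spec cs J z).2.2) (hp_t D.toHecke (rp_spec cs J z).2.2)
  refine adapted_basis D.toHecke (fun z => D.t (rJ cs J z) * D.c (pJ cs J z)) ?_ ?_
  · intro z
    change D.t (rJ cs J z) * D.c (pJ cs J z) - D.t z ∈ D.Sp (cs.length z)
    rw [key, R02_len cs J z]
    exact R02_sp D.toHecke (rp_spec cs J z).2.1 (hhp z) (D.c_tri _)
  · intro z
    change D.Lat (-1) (D.t (rJ cs J z) * D.c (pJ cs J z) - D.t z)
    rw [key]
    exact R02_lat D.toHecke (rp_spec cs J z).2.1 (hhp z) (D.lat_c_sub_t _)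

/-- the basis `T_x C_w` -/
noncomputable def eJ (D : KL cs L H) (J : Set B) : Module.Basis W Lau H :=
  Classical.choose (exists_eJ D J)

variable (D : KL cs L H)

theorem eJ_apply (J : Set B) (z : W) : eJ D J z = D.t (rJ cs J z) * D.c (pJ cs J z) :=
  (Classical.choose_spec (exists_eJ D J)).1 z

theorem eJ_mul {J : Set B} {x w : W} (hx : RM cs J x) (hw : w ∈ WP cs J) :
    eJ D J (x * w) = D.t x * D.c w := by
  obtain ⟨h1, h2⟩ := rp_unique cs hx hw
  rw [eJ_apply, h1, h2]

theorem eJ_lat (J : Set B) (n : ℤ) (h : H) :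
    D.Lat n h ↔ ∀ z, DegLe n ((eJ D J).repr h z) :=
  (Classical.choose_spec (exists_eJ D J)).2 n h

private theorem R02_mem {J : Set B} {x : W} (hx : RM cs J x) {h : H}
    (hh : HP D.toHecke J h) :
    D.t x * h ∈ Submodule.span Lau (eJ D J '' {z | rJ cs J z = x}) := by
  have h1 := (hp_iff_span_c D).1 hh
  clear hh
  induction h1 using Submodule.span_induction with
  | mem k hk =>
    obtain ⟨w, hw, rfl⟩ := hk
    rw [← eJ_mul D hx hw]
    exact Submodule.subset_span ⟨x * w, (rp_unique cs hx hw).1, rfl⟩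
  | zero =>
    rw [mul_zero]
    exact Submodule.zero_mem _
  | add a b _ _ ha hb =>
    rw [mul_add]
    exact Submodule.add_mem _ ha hb
  | smul r a _ ha =>
    rw [mul_smul_comm]
    exact Submodule.smul_mem _ r ha

theorem t_mul_mem (J : Set B) (y : W) {w : W} (hw : w ∈ WP cs J) :
    D.t y * D.c w ∈ Submodule.span Lau (eJ D J '' {z | cs.length (rJ cs J z) ≤ cs.length y}) := by
  rw [R02_t D.toHecke J y, mul_assoc]
  have h1 := R02_mem D (rp_spec cs J y).2.1
    (hp_mul D.toHecke (hp_t D.toHecke (rp_spec cs J y).2.2) (hp_c D hw))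
  refine Submodule.span_mono (Set.image_mono ?_) h1
  intro z hz
  have h2 : rJ cs J z = rJ cs J y := hz
  have h3 := R02_len cs J y
  change cs.length (rJ cs J z) ≤ cs.length y
  rw [h2]
  omega

theorem bar_eJ (J : Set B) (z : W) : D.bar (eJ D J z) - eJ D J z ∈
    Submodule.span Lau (eJ D J '' {y | cs.length (rJ cs J y) < cs.length (rJ cs J z)}) := by
  rw [eJ_apply, map_mul, D.bar_c, ← sub_mul]
  refine D.sp_induction (p := fun h => h * D.c (pJ cs J z) ∈
    Submodule.span Lau (eJ D J '' {y | cs.length (rJ cs J y) < cs.length (rJ cs J z)}))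
    ?_ ?_ ?_ ?_ (D.bar_tri (rJ cs J z))
  · intro y hy
    refine Submodule.span_mono (Set.image_mono ?_) (t_mul_mem D J y (rp_spec cs J z).2.2)
    intro u hu
    exact lt_of_le_of_lt hu hy
  · rw [zero_mul]
    exact Submodule.zero_mem _
  · intro a b ha hb
    rw [add_mul]
    exact Submodule.add_mem _ ha hb
  · intro r a ha
    rw [smul_mul_assoc]
    exact Submodule.smul_mem _ r ha

end Pool.Agent.Lib.KLT
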