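import Pool.Agent.Lib.MP_754fa1_al.T.R02

/-!
# R03. Relative induction

`𝒞 ⊆ WP J` with `T_s C_w ∈ span {C_{w'} | w' ∈ 𝒞}` for `s ∈ J`, `w ∈ 𝒞` (`Blk J 𝒞`). `U = span {eJ z | pJ z ∈ 𝒞}`.

`u_left`: `h U ⊆ U`: it is enough that `T_s eJ z ∈ U` for `pJ z = w ∈ 𝒞`, `x = rJ z`, and every `s : B` (`gen_induction` or word induction for `T_y`). Cases: `s` a left descent of `x`: `s x` has `RM J`: if `j ∈ J` were a right descent of
`s_s x = y s_j` then `x s_j = s_s y` would be shorter than `x`. `T_s T_x = T_{sx} + ξ T_x` (`s_mul_down`), and `T_{sx} C_w = eJ (s x w)`. `s` not a left descent of `x` and `RM J (s_s x)`: `T_s T_x C_w = T_{sx} C_w`. Otherwise some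
`j ∈ J` is a right descent of `s_s x`: then `ℓ(s_s x s_j) = ℓ(x)`, `ℓ(x s_j) = ℓ(x) + 1`, so `s` is a left descent of `x s_j` and `fold` gives `s_s x = x s_j`; `T_s T_x C_w = T_{x s_j} C_w = T_x (T_j C_w)`, and `T_j C_w ∈ span {C_{w'} | w' ∈ 𝒞}`.
`u_bar`: `bar (T_x C_w) = bar (T_x) C_w`, `C_w = eJ w ∈ U` (`RM J 1`), `u_left`.

`ri_supp`: `pJ z ∈ 𝒞`: the coordinates of `C_z` (basis `eJ`) vanish at all `y` with `pJ y ∉ 𝒞`: `uniq_bar` with `ρ y = ℓ(rJ y)`, `S = {y | pJ y ∈ 𝒞}`. The degree condition: `C_z - eJ z ∈ Lat (-1)`: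
`C_z - T_z ∈ Lat (-1)` and `T_z - eJ z ∈ Lat (-1)`: the coordinates of `T_z` in the basis `eJ`... (use `eJ_lat`: `Lat (-1) (eJ z - T_z)`: it is `T_x (C_w - T_w)`, whose `T`-coordinates are those of `C_w - T_w`), and `eJ_lat` for `C_z - eJ z`.
`ri_len`: the coordinates of `C_z` vanish at all `y ≠ z` with `ℓ(rJ y) ≥ ℓ(rJ z)`: `uniq_bar` with `S = {z} ∪ {y | ρ y < ρ z}` (`bar`-stable by `bar_eJ`). `ri_self`: the coordinate at `z` is `1`: `DegLe (-1)` for `(coordinate) - 1`, and `bar C_z = C_z`
with `bar_eJ` gives `invert β = β` at `z` (all other coordinates are at smaller `ρ`). `ri_deg`: `DegLe (-1)` for `y ≠ z`.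
-/

open LaurentPolynomial
open Pool.Agent.Lib.MP_754fa1_al

namespace Pool.Agent.Lib.KLT

universe u v w

variable {B : Type u} {W : Type v} [Group W] {M : CoxeterMatrix B}
variable {cs : CoxeterSystem M W} {L : B → ℕ} {H : Type w} [Ring H] [Algebra Lau H]

/-- `{C_w | w ∈ 𝒞}` spans a left ideal of `H_J` -/
def Blk (D : KL cs L H) (J : Set B) (C : Set W) : Prop :=
  (∀ w ∈ C, w ∈ WP cs J) ∧
    ∀ s ∈ J, ∀ w ∈ C, D.t (cs.simple s) * D.c w ∈ Submodule.span Lau (D.c '' C)

variable (D : KL cs L H)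

omit [Group W] in
private theorem R03_coord {b : Module.Basis W Lau H} {S : Set W} {g : H}
    (hg : g ∈ Submodule.span Lau (b '' S)) {z : W} (hz : z ∉ S) : b.repr g z = 0 := by
  rw [Module.Basis.mem_span_image] at hg
  by_contra h
  exact hz (hg (Finset.mem_coe.2 (Finsupp.mem_support_iff.2 h)))

private theorem R03_mem {J : Set B} {C : Set W} {x w : W} (hx : RM cs J x) (hw : w ∈ WP cs J)
    (hC : w ∈ C) : D.t x * D.c w ∈ Submodule.span Lau (eJ D J '' {z | pJ cs J z ∈ C}) := by
  rw [← eJ_mul D hx hw]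
  refine Submodule.subset_span ⟨x * w, ?_, rfl⟩
  show pJ cs J (x * w) ∈ C
  rw [(rp_unique cs hx hw).2]
  exact hC

private theorem R03_rm_down {J : Set B} {x : W} {i : B} (hx : RM cs J x)
    (hi : cs.IsLeftDescent x i) : RM cs J (cs.simple i * x) := by
  intro j hj hd
  apply hx j hj
  have h1 := (cs.isRightDescent_iff).1 hd
  have h2 := (cs.isLeftDescent_iff).1 hi
  have h3 := cs.length_mul_le (cs.simple i) (cs.simple i * x * cs.simple j)
  have h4 : cs.simple i * (cs.simple i * x * cs.simple j) = x * cs.simple j := by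
    rw [mul_assoc, cs.simple_mul_simple_cancel_left]
  rw [h4, cs.length_simple] at h3
  unfold CoxeterSystem.IsRightDescent
  omega

private theorem R03_s {J : Set B} {C : Set W} (hC : Blk D J C) (i : B) {x w : W} (hx : RM cs J x)
    (hw : w ∈ C) : D.t (cs.simple i) * (D.t x * D.c w) ∈
      Submodule.span Lau (eJ D J '' {z | pJ cs J z ∈ C}) := by
  have hwJ : w ∈ WP cs J := hC.1 w hw
  rw [← mul_assoc]
  by_cases hi : cs.IsLeftDescent x i
  · rw [D.s_mul_down i x hi, add_mul, smul_mul_assoc]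
    exact Submodule.add_mem _ (R03_mem D (R03_rm_down hx hi) hwJ hw)
      (Submodule.smul_mem _ _ (R03_mem D hx hwJ hw))
  · rw [D.s_mul_up i x hi]
    by_cases hr : RM cs J (cs.simple i * x)
    · exact R03_mem D hr hwJ hw
    · unfold RM at hr
      push Not at hr
      obtain ⟨j, hj, hd⟩ := hr
      have h0 : ¬ cs.IsRightDescent x j := hx j hj
      have h1 := (cs.isRightDescent_iff).1 hd
      have h2 := (cs.not_isLeftDescent_iff).1 hi
      have h3 := (cs.not_isRightDescent_iff).1 h0
      have h4 : cs.IsLeftDescent (x * cs.simple j) i := by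
        unfold CoxeterSystem.IsLeftDescent
        rw [← mul_assoc]
        omega
      have h5 := fold cs hi h0 h4
      rw [h5, ← D.mul_s_up j x h0, mul_assoc]
      have h6 := hC.2 j hj w hw
      generalize D.t (cs.simple j) * D.c w = k at h6
      induction h6 using Submodule.span_induction with
      | mem g hg =>
        obtain ⟨w', hw', rfl⟩ := hg
        exact R03_mem D hx (hC.1 w' hw') hw'
      | zero => rw [mul_zero]; exact Submodule.zero_mem _
      | add a b _ _ ha hb => rw [mul_add]; exact Submodule.add_mem _ ha hb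
      | smul r a _ ha => rw [mul_smul_comm]; exact Submodule.smul_mem _ r ha

private theorem R03_s_left {J : Set B} {C : Set W} (hC : Blk D J C) (i : B) {g : H}
    (hg : g ∈ Submodule.span Lau (eJ D J '' {z | pJ cs J z ∈ C})) :
    D.t (cs.simple i) * g ∈ Submodule.span Lau (eJ D J '' {z | pJ cs J z ∈ C}) := by
  induction hg using Submodule.span_induction with
  | mem g hg =>
    obtain ⟨z, hz, rfl⟩ := hg
    rw [eJ_apply]
    exact R03_s D hC i (rp_spec cs J z).2.1 hz
  | zero => rw [mul_zero]; exact Submodule.zero_mem _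
  | add a b _ _ ha hb => rw [mul_add]; exact Submodule.add_mem _ ha hb
  | smul r a _ ha => rw [mul_smul_comm]; exact Submodule.smul_mem _ r ha

theorem u_left {J : Set B} {C : Set W} (hC : Blk D J C) (h : H) {g : H}
    (hg : g ∈ Submodule.span Lau (eJ D J '' {z | pJ cs J z ∈ C})) :
    h * g ∈ Submodule.span Lau (eJ D J '' {z | pJ cs J z ∈ C}) := by
  refine D.t_induction
    (p := fun h => h * g ∈ Submodule.span Lau (eJ D J '' {z | pJ cs J z ∈ C})) ?_ ?_ ?_ ?_ h
  · intro x
    induction x using len_induction_left cs with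
    | h1 => rw [D.t_one, one_mul]; exact hg
    | hs i x hx ih =>
      rw [← D.s_mul_up i x hx, mul_assoc]
      exact R03_s_left D hC i ih
  · rw [zero_mul]
    exact Submodule.zero_mem _
  · intro a b ha hb
    rw [add_mul]
    exact Submodule.add_mem _ ha hb
  · intro r a ha
    rw [smul_mul_assoc]
    exact Submodule.smul_mem _ r ha

theorem u_bar {J : Set B} {C : Set W} (hC : Blk D J C) {g : H}
    (hg : g ∈ Submodule.span Lau (eJ D J '' {z | pJ cs J z ∈ C})) :
    D.bar g ∈ Submodule.span Lau (eJ D J '' {z | pJ cs J z ∈ C}) := by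
  induction hg using Submodule.span_induction with
  | mem g hg =>
    obtain ⟨z, hz, rfl⟩ := hg
    rw [eJ_apply, map_mul, D.bar_c]
    apply u_left D hC
    have h1 : RM cs J 1 := by
      intro j _ hd
      have h2 := (cs.isRightDescent_iff).1 hd
      rw [cs.length_one] at h2
      omega
    have h2 := R03_mem D h1 (hC.1 _ hz) hz
    rwa [D.t_one, one_mul] at h2
  | zero => rw [map_zero]; exact Submodule.zero_mem _
  | add a b _ _ ha hb => rw [map_add]; exact Submodule.add_mem _ ha hb
  | smul r a _ ha => rw [D.bar_smul]; exact Submodule.smul_mem _ _ ha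

private theorem R03_t_mul_lat {J : Set B} {x : W} (hx : RM cs J x) {n : ℤ} {h : H}
    (hJ : HP D.toHecke J h) (hn : D.Lat n h) : D.Lat n (D.t x * h) := by
  rw [D.sum_repr h, Finsupp.sum, Finset.mul_sum]
  apply D.lat_sum
  intro y hy
  rw [mul_smul_comm]
  have h1 : y ∈ WP cs J := by
    by_contra h2
    exact (Finsupp.mem_support_iff.1 hy) (hJ y h2)
  rw [D.t_mul x y (rm_len cs hx h1)]
  have h3 := D.lat_smul (hn y) (D.lat_t (x * y))
  rwa [add_zero] at h3

private theorem R03_lat (J : Set B) (z : W) : D.Lat (-1) (D.c z - eJ D J z) := by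
  obtain ⟨h1, h2, h3⟩ := rp_spec cs J z
  have h4 : D.Lat (-1) (eJ D J z - D.t z) := by
    have e : eJ D J z - D.t z = D.t (rJ cs J z) * (D.c (pJ cs J z) - D.t (pJ cs J z)) := by
      rw [eJ_apply, mul_sub, D.t_mul _ _ (rm_len cs h2 h3), ← h1]
    rw [e]
    exact R03_t_mul_lat D h2 (hp_sub D.toHecke (hp_c D h3) (hp_t D.toHecke h3)) (D.lat_c_sub_t _)
  have h5 := D.lat_sub (D.lat_c_sub_t z) h4
  rwa [sub_sub_sub_cancel_right] at h5

theorem ri_deg (J : Set B) {z y : W} (h : y ≠ z) : DegLe (-1) ((eJ D J).repr (D.c z) y) := by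
  have h1 := (eJ_lat D J (-1) _).1 (R03_lat D J z) y
  rwa [map_sub, Finsupp.sub_apply, Module.Basis.repr_self, Finsupp.single_eq_of_ne h, sub_zero] at h1

theorem ri_supp {J : Set B} {C : Set W} (hC : Blk D J C) {z y : W} (hz : pJ cs J z ∈ C)
    (hy : pJ cs J y ∉ C) : (eJ D J).repr (D.c z) y = 0 := by
  refine uniq_bar D (eJ D J) (fun z => cs.length (rJ cs J z)) (bar_eJ D J) {z | pJ cs J z ∈ C}
    (fun g hg => u_bar D hC hg) (D.bar_c z) ?_ y hy
  intro y' hy'
  apply ri_deg
  rintro rfl
  exact hy' hz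

theorem ri_len (J : Set B) {z y : W} (h : y ≠ z)
    (hl : cs.length (rJ cs J z) ≤ cs.length (rJ cs J y)) : (eJ D J).repr (D.c z) y = 0 := by
  refine uniq_bar D (eJ D J) (fun z => cs.length (rJ cs J z)) (bar_eJ D J)
    {u | u = z ∨ cs.length (rJ cs J u) < cs.length (rJ cs J z)} ?_ (D.bar_c z) ?_ y ?_
  · intro g hg
    induction hg using Submodule.span_induction with
    | mem g hg =>
      obtain ⟨u, hu, rfl⟩ := hg
      have h1 : D.bar (eJ D J u) = eJ D J u + (D.bar (eJ D J u) - eJ D J u) := by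
        rw [add_sub_cancel]
      rw [h1]
      refine Submodule.add_mem _ (Submodule.subset_span ⟨u, hu, rfl⟩) ?_
      refine Submodule.span_mono (Set.image_mono ?_) (bar_eJ D J u)
      intro v hv
      have hv' : cs.length (rJ cs J v) < cs.length (rJ cs J u) := hv
      rcases hu with rfl | hu
      · exact Or.inr hv'
      · exact Or.inr (hv'.trans hu)
    | zero => rw [map_zero]; exact Submodule.zero_mem _
    | add a b _ _ ha hb => rw [map_add]; exact Submodule.add_mem _ ha hb
    | smul r a _ ha => rw [D.bar_smul]; exact Submodule.smul_mem _ _ ha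
  · intro y' hy'
    apply ri_deg
    rintro rfl
    exact hy' (Or.inl rfl)
  · rintro (h1 | h1)
    · exact h h1
    · omega

theorem ri_self (J : Set B) (z : W) : (eJ D J).repr (D.c z) z = 1 := by
  classical
  obtain ⟨V, hV⟩ : ∃ V : Submodule Lau H, V = Submodule.span Lau
      (eJ D J '' {y | cs.length (rJ cs J y) < cs.length (rJ cs J z)}) := ⟨_, rfl⟩
  have hbar : ∀ g ∈ V, D.bar g ∈ V := by
    intro g hg
    rw [hV] at hg ⊢
    induction hg using Submodule.span_induction with
    | mem g hg =>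
      obtain ⟨u, hu, rfl⟩ := hg
      have h1 : D.bar (eJ D J u) = eJ D J u + (D.bar (eJ D J u) - eJ D J u) := by
        rw [add_sub_cancel]
      rw [h1]
      refine Submodule.add_mem _ (Submodule.subset_span ⟨u, hu, rfl⟩) ?_
      refine Submodule.span_mono (Set.image_mono ?_) (bar_eJ D J u)
      intro v hv
      exact lt_trans (show cs.length (rJ cs J v) < cs.length (rJ cs J u) from hv) hu
    | zero => rw [map_zero]; exact Submodule.zero_mem _
    | add a b _ _ ha hb => rw [map_add]; exact Submodule.add_mem _ ha hb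
    | smul r a _ ha => rw [D.bar_smul]; exact Submodule.smul_mem _ _ ha
  obtain ⟨β, hβ⟩ : ∃ β : Lau, β = (eJ D J).repr (D.c z) z := ⟨_, rfl⟩
  rw [← hβ]
  have h1 : D.c z - β • eJ D J z ∈ V := by
    rw [hV, Module.Basis.mem_span_image]
    intro y hy
    rw [Finset.mem_coe, Finsupp.mem_support_iff, map_sub, map_smul, Finsupp.sub_apply,
      Finsupp.smul_apply, Module.Basis.repr_self] at hy
    show cs.length (rJ cs J y) < cs.length (rJ cs J z)
    by_contra hl
    apply hy
    by_cases hyz : y = z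
    · subst hyz
      rw [Finsupp.single_eq_same, hβ, smul_eq_mul, mul_one, sub_self]
    · rw [Finsupp.single_eq_of_ne hyz, smul_zero, sub_zero]
      exact ri_len D J hyz (not_lt.1 hl)
  have h2 := hbar _ h1
  rw [map_sub, D.bar_c, D.bar_smul] at h2
  have h3 : D.bar (eJ D J z) - eJ D J z ∈ V := by
    rw [hV]
    exact bar_eJ D J z
  have h4 : (invert β - β) • eJ D J z ∈ V := by
    have e : (invert β - β) • eJ D J z = (D.c z - β • eJ D J z) - (D.c z - invert β • D.bar (eJ D J z)) -
        invert β • (D.bar (eJ D J z) - eJ D J z) := by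
      rw [smul_sub, sub_smul]
      abel
    rw [e]
    exact Submodule.sub_mem _ (Submodule.sub_mem _ h1 h2) (Submodule.smul_mem _ _ h3)
  have h5 : invert β - β = 0 := by
    rw [hV] at h4
    have h6 := R03_coord h4 (z := z)
      (fun hz => lt_irrefl _ (show cs.length (rJ cs J z) < cs.length (rJ cs J z) from hz))
    rwa [map_smul, Finsupp.smul_apply, Module.Basis.repr_self, Finsupp.single_eq_same, smul_eq_mul,
      mul_one] at h6
  have h6 : DegLe (-1) (β - 1) := by
    have h7 := (eJ_lat D J (-1) _).1 (R03_lat D J z) z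
    rwa [map_sub, Finsupp.sub_apply, Module.Basis.repr_self, Finsupp.single_eq_same, ← hβ] at h7
  have h7 : invert (β - 1) = β - 1 := by
    rw [map_sub, map_one, sub_eq_zero.1 h5]
  exact sub_eq_zero.1 (bar_neg h7 h6)

end Pool.Agent.Lib.KLT
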