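import Pool.Agent.Lib.MP_754fa1_al.T.D01b
import Pool.Agent.Lib.MP_754fa1_al.T.C06b

/-!
# X1a. Commuting parabolic subalgebras

`hp_comm`: span induction in both arguments (`hp_iff_span`): `T_p T_q = T_{pq} = T_{qp} = T_q T_p` (`cm_comm`, `cm_rd`, `D.t_mul`).
`hp_cm`: `hp_mul`, `hp_mono`. `repr_cm`: span induction in both arguments; for `h = T_{p'}`, `k = T_{q'}`: `T_{p'q'}`, and `p' q' = p q` iff `p' = p`, `q' = q` (`cm_uniq`).
`c_cm`: `D.c_eq (p * q)`: `bar`-invariance is clear; `Lat (-1) (C_p C_q - T_{pq})`: the coordinates of `C_p C_q` are zero outside `WP (J ∪ K)`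
(`hp_cm`), and `p_{p'} p_{q'}` at `p' q'` (`repr_cm`, `cm_union`): this is `1` for `(p, q)` (`repr_c_one`) and of degree `≤ -1` otherwise (`repr_c_ne`; `DegLe 0` for the other factor: `lat_c`).
`cB_repr_cm`: by `hp_iff_span_c` span induction in both arguments with `C_{p'} C_{q'} = C_{p'q'}`.
-/

open LaurentPolynomial
open Pool.Agent.Lib.MP_754fa1_al

namespace Pool.Agent.Lib.KLT

universe u v w

variable {B : Type u} {W : Type v} [Group W] {M : CoxeterMatrix B}
variable {cs : CoxeterSystem M W} {L : B → ℕ} {H : Type w} [Ring H] [Algebra Lau H]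

private theorem X1a_ind (D : Hecke cs L H) {J : Set B} {p : H → Prop}
    (ht : ∀ z, z ∈ WP cs J → p (D.t z))
    (h0 : p 0) (ha : ∀ a b, p a → p b → p (a + b)) (hs : ∀ (r : Lau) a, p a → p (r • a)) {h : H}
    (hh : HP D J h) : p h := by
  have h1 := (hp_iff_span D).1 hh
  induction h1 using Submodule.span_induction with
  | mem x hx =>
    obtain ⟨y, hy, rfl⟩ := hx
    exact ht y hy
  | zero => exact h0
  | add x y hx' hy' hx hy =>
    exact ha x y (hx ((hp_iff_span D).2 hx')) (hy ((hp_iff_span D).2 hy'))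
  | smul r x hx' hx => exact hs r x (hx ((hp_iff_span D).2 hx'))

private theorem X1a_indc (D : KL cs L H) {J : Set B} {p : H → Prop}
    (ht : ∀ z, z ∈ WP cs J → p (D.c z))
    (h0 : p 0) (ha : ∀ a b, p a → p b → p (a + b)) (hs : ∀ (r : Lau) a, p a → p (r • a)) {h : H}
    (hh : HP D.toHecke J h) : p h := by
  have h1 := (hp_iff_span_c D).1 hh
  induction h1 using Submodule.span_induction with
  | mem x hx =>
    obtain ⟨y, hy, rfl⟩ := hx
    exact ht y hy
  | zero => exact h0
  | add x y hx' hy' hx hy =>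
    exact ha x y (hx ((hp_iff_span_c D).2 hx')) (hy ((hp_iff_span_c D).2 hy'))
  | smul r x hx' hx => exact hs r x (hx ((hp_iff_span_c D).2 hx'))

theorem hp_comm (D : Hecke cs L H) {J K : Set B} (hc : Cm M J K) {h k : H} (a : HP D J h)
    (b : HP D K k) : h * k = k * h := by
  refine X1a_ind D (J := J) (p := fun h => h * k = k * h) ?_ ?_ ?_ ?_ a
  · intro z hz
    refine X1a_ind D (J := K) (p := fun k => D.t z * k = k * D.t z) ?_ ?_ ?_ ?_ b
    · intro y hy
      rw [D.t_mul z y (cm_rd cs hc hz hy), D.t_mul y z (cm_rd cs (cm_symm hc) hy hz),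
        cm_comm cs hc hz hy]
    · rw [mul_zero, zero_mul]
    · intro x y hx hy
      rw [mul_add, add_mul, hx, hy]
    · intro r x hx
      rw [mul_smul_comm, smul_mul_assoc, hx]
  · rw [mul_zero, zero_mul]
  · intro x y hx hy
    rw [mul_add, add_mul, hx, hy]
  · intro r x hx
    rw [mul_smul_comm, smul_mul_assoc, hx]

theorem hp_cm (D : Hecke cs L H) {J K : Set B} {h k : H} (a : HP D J h)
    (b : HP D K k) : HP D (J ∪ K) (h * k) :=
  hp_mul D (hp_mono D Set.subset_union_left a) (hp_mono D Set.subset_union_right b)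

theorem repr_cm (D : Hecke cs L H) {J K : Set B} (hc : Cm M J K) {h k : H} (a : HP D J h)
    (b : HP D K k) {p q : W} (hp : p ∈ WP cs J) (hq : q ∈ WP cs K) :
    D.t.repr (h * k) (p * q) = D.t.repr h p * D.t.repr k q := by
  classical
  refine X1a_ind D (J := J) (p := fun h => D.t.repr (h * k) (p * q) =
    D.t.repr h p * D.t.repr k q) ?_ ?_ ?_ ?_ a
  · intro z hz
    refine X1a_ind D (J := K) (p := fun k => D.t.repr (D.t z * k) (p * q) =
      D.t.repr (D.t z) p * D.t.repr k q) ?_ ?_ ?_ ?_ b
    · intro y hy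
      rw [D.t_mul z y (cm_rd cs hc hz hy), Module.Basis.repr_self, Module.Basis.repr_self,
        Module.Basis.repr_self, Finsupp.single_apply, Finsupp.single_apply, Finsupp.single_apply]
      by_cases h1 : z = p
      · by_cases h2 : y = q
        · rw [if_pos (by rw [h1, h2]), if_pos h1, if_pos h2, mul_one]
        · rw [if_neg h2, mul_zero, if_neg]
          intro h3
          exact h2 (cm_uniq cs hc hz hy hp hq h3).2
      · rw [if_neg h1, zero_mul, if_neg]
        intro h3
        exact h1 (cm_uniq cs hc hz hy hp hq h3).1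
    · rw [mul_zero, map_zero, Finsupp.zero_apply, Finsupp.zero_apply, mul_zero]
    · intro x y hx hy
      rw [mul_add, map_add, map_add, Finsupp.add_apply, Finsupp.add_apply, hx, hy, mul_add]
    · intro r x hx
      rw [mul_smul_comm, map_smul, map_smul, Finsupp.smul_apply, Finsupp.smul_apply, hx,
        smul_eq_mul, smul_eq_mul]
      ring
  · rw [zero_mul, map_zero, Finsupp.zero_apply, Finsupp.zero_apply, zero_mul]
  · intro x y hx hy
    rw [add_mul, map_add, map_add, Finsupp.add_apply, Finsupp.add_apply, hx, hy, add_mul]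
  · intro r x hx
    rw [smul_mul_assoc, map_smul, map_smul, Finsupp.smul_apply, Finsupp.smul_apply, hx,
      smul_eq_mul, smul_eq_mul]
    ring

variable (D : KL cs L H)

theorem c_cm {J K : Set B} (hc : Cm M J K) {p q : W} (hp : p ∈ WP cs J) (hq : q ∈ WP cs K) :
    D.c (p * q) = D.c p * D.c q := by
  symm
  apply D.c_eq
  · rw [map_mul, D.bar_c, D.bar_c]
  · intro z
    rw [map_sub, Finsupp.sub_apply, Module.Basis.repr_self]
    by_cases hz : z ∈ WP cs (J ∪ K)
    · obtain ⟨p', hp', q', hq', rfl⟩ := (cm_union cs hc).1 hz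
      rw [repr_cm D.toHecke hc (hp_c D hp) (hp_c D hq) hp' hq']
      by_cases h1 : p' = p
      · by_cases h2 : q' = q
        · rw [h1, h2, repr_c_one, repr_c_one, Finsupp.single_eq_same, mul_one, sub_self]
          exact DegLe.zero
        · rw [Finsupp.single_eq_of_ne (fun h3 => h2 (cm_uniq cs hc hp' hq' hp hq h3).2), sub_zero]
          exact ((D.lat_c p p').mul (repr_c_ne D h2)).mono (by omega)
      · rw [Finsupp.single_eq_of_ne (fun h3 => h1 (cm_uniq cs hc hp' hq' hp hq h3).1), sub_zero]
        exact ((repr_c_ne D h1).mul (D.lat_c q q')).mono (by omega)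
    · have h1 : z ≠ p * q := by
        rintro rfl
        exact hz ((cm_union cs hc).2 ⟨p, hp, q, hq, rfl⟩)
      rw [Finsupp.single_eq_of_ne h1, hp_cm D.toHecke (hp_c D hp) (hp_c D hq) z hz, sub_zero]
      exact DegLe.zero

theorem cB_repr_cm {J K : Set B} (hc : Cm M J K) {h k : H} (a : HP D.toHecke J h)
    (b : HP D.toHecke K k) {p q : W} (hp : p ∈ WP cs J) (hq : q ∈ WP cs K) :
    D.cB.repr (h * k) (p * q) = D.cB.repr h p * D.cB.repr k q := by
  classical
  refine X1a_indc D (J := J) (p := fun h => D.cB.repr (h * k) (p * q) =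
    D.cB.repr h p * D.cB.repr k q) ?_ ?_ ?_ ?_ a
  · intro z hz
    refine X1a_indc D (J := K) (p := fun k => D.cB.repr (D.c z * k) (p * q) =
      D.cB.repr (D.c z) p * D.cB.repr k q) ?_ ?_ ?_ ?_ b
    · intro y hy
      rw [← c_cm D hc hz hy, ← D.cB_apply, ← D.cB_apply, ← D.cB_apply, Module.Basis.repr_self,
        Module.Basis.repr_self, Module.Basis.repr_self, Finsupp.single_apply,
        Finsupp.single_apply, Finsupp.single_apply]
      by_cases h1 : z = p
      · by_cases h2 : y = q
        · rw [if_pos (by rw [h1, h2]), if_pos h1, if_pos h2, mul_one]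
        · rw [if_neg h2, mul_zero, if_neg]
          intro h3
          exact h2 (cm_uniq cs hc hz hy hp hq h3).2
      · rw [if_neg h1, zero_mul, if_neg]
        intro h3
        exact h1 (cm_uniq cs hc hz hy hp hq h3).1
    · rw [mul_zero, map_zero, Finsupp.zero_apply, Finsupp.zero_apply, mul_zero]
    · intro x y hx hy
      rw [mul_add, map_add, map_add, Finsupp.add_apply, Finsupp.add_apply, hx, hy, mul_add]
    · intro r x hx
      rw [mul_smul_comm, map_smul, map_smul, Finsupp.smul_apply, Finsupp.smul_apply, hx,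
        smul_eq_mul, smul_eq_mul]
      ring
  · rw [zero_mul, map_zero, Finsupp.zero_apply, Finsupp.zero_apply, zero_mul]
  · intro x y hx hy
    rw [add_mul, map_add, map_add, Finsupp.add_apply, Finsupp.add_apply, hx, hy, add_mul]
  · intro r x hx
    rw [smul_mul_assoc, map_smul, map_smul, Finsupp.smul_apply, Finsupp.smul_apply, hx,
      smul_eq_mul, smul_eq_mul]
    ring

end Pool.Agent.Lib.KLT
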