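import Pool.Agent.Lib.MP_754fa1_al.T.R03
import Pool.Agent.Lib.MP_754fa1_al.T.D06
import Pool.Agent.Lib.MP_754fa1_al.T.A03c
import Pool.Agent.Lib.MP_754fa1_al.T.X1a

/-!
# R04. The span of `C_z`, `pJ z ∈ 𝒞`, and the blocks of special elements

`u_span`: `span {eJ z | pJ z ∈ 𝒞} = span {C_z | pJ z ∈ 𝒞}`: `⊇`: `ri_supp` (expand `C_z` in the basis `eJ`). `⊆`: strong induction on `ℓ(rJ z)`: `eJ z = C_z - ∑_{y ≠ z} β_y eJ y` with `pJ y ∈ 𝒞` (`ri_supp`), `ℓ(rJ y) < ℓ(rJ z)` (`ri_len`), `β_z = 1` (`ri_self`).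

`blk_atom`: `Atom J δ n`: `𝒞 = {δ}` for `one`, `full` (`t_mul_c`: all `s ∈ J` are left descents), `𝒞 = {δ, w₀}` for `mid i j k`: `T_i C_δ = v^a C_δ` (`t_mul_c`), `T_j C_δ = C_j C_δ - v^{-b} C_δ = C(w₀) - v^{-b} C_δ` (`c_simple`, `ue_mid_j`), and
`T_s C(w₀) = v^{L s} C(w₀)`. `av w₀ > n` (`av_full`, `sl_even`).
`blk_spv`: induction; `cons`: `𝒞 = {w w' | w ∈ 𝒞₁, w' ∈ 𝒞₂}`; `C_{ww'} = C_w C_{w'}` (`c_cm`); `T_s C_w C_{w'}`, `s ∈ J₁`: `span_induction`; `s ∈ K₁`: `T_s C_w = C_w T_s` (`hp_comm`). `av (w w') = av w + av w'` (`av_cm`), so if `w w' ≠ α ε` then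
`av (w w') > n + m` (each of `w`, `w'` has value `≥` that of `α`, `ε`, with equality only for `w = α`, `w' = ε`).

`p_one_sph`: `J` spherical, `w ∈ WP J`: `DegLe (- av w)` for the coordinate of `C_w` at `1`: `sph_induction` with `o2_one`, `c_cm`, `repr_cm` (at `1 = 1 * 1`), `av_cm`.
-/

open LaurentPolynomial
open Pool.Agent.Lib.MP_754fa1_al

namespace Pool.Agent.Lib.KLT

universe u v w

variable {B : Type u} {W : Type v} [Group W] {M : CoxeterMatrix B}
variable {cs : CoxeterSystem M W} {L : B → ℕ} {H : Type w} [Ring H] [Algebra Lau H]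
variable (D : KL cs L H)

theorem u_span {J : Set B} {C : Set W} (hC : Blk D J C) :
    Submodule.span Lau (eJ D J '' {z | pJ cs J z ∈ C}) =
      Submodule.span Lau (D.c '' {z | pJ cs J z ∈ C}) := by
  classical
  have hexp : ∀ z : W, D.c z = ∑ y ∈ ((eJ D J).repr (D.c z)).support,
      (eJ D J).repr (D.c z) y • eJ D J y := by
    intro z
    conv_lhs => rw [← (eJ D J).linearCombination_repr (D.c z)]
    rw [Finsupp.linearCombination_apply, Finsupp.sum]
  apply le_antisymm
  · rw [Submodule.span_le]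
    have key : ∀ (n : ℕ) (z : W), cs.length (rJ cs J z) = n → pJ cs J z ∈ C →
        eJ D J z ∈ Submodule.span Lau (D.c '' {z | pJ cs J z ∈ C}) := by
      intro n
      induction n using Nat.strong_induction_on with
      | _ n ih =>
        intro z hn hz
        have hzs : z ∈ ((eJ D J).repr (D.c z)).support := by
          rw [Finsupp.mem_support_iff, ri_self]
          exact one_ne_zero
        have h1 := hexp z
        rw [← Finset.add_sum_erase _ _ hzs, ri_self, one_smul] at h1
        rw [← sub_eq_iff_eq_add] at h1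
        rw [← h1]
        refine Submodule.sub_mem _ (Submodule.subset_span ⟨z, hz, rfl⟩)
          (Submodule.sum_mem _ fun y hy => Submodule.smul_mem _ _ ?_)
        rw [Finset.mem_erase, Finsupp.mem_support_iff] at hy
        have hyC : pJ cs J y ∈ C := by
          by_contra h2
          exact hy.2 (ri_supp D hC hz h2)
        have hyl : cs.length (rJ cs J y) < cs.length (rJ cs J z) := by
          by_contra h2
          exact hy.2 (ri_len D J hy.1 (not_lt.1 h2))
        exact ih _ (by omega) y rfl hyC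
    rintro _ ⟨z, hz, rfl⟩
    exact key _ z rfl hz
  · rw [Submodule.span_le]
    rintro _ ⟨z, hz, rfl⟩
    rw [SetLike.mem_coe, hexp z]
    refine Submodule.sum_mem _ fun y hy => Submodule.smul_mem _ _ ?_
    rw [Finsupp.mem_support_iff] at hy
    refine Submodule.subset_span ⟨y, ?_, rfl⟩
    by_contra h2
    exact hy (ri_supp D hC hz h2)

variable [Finite B]

private theorem R04_top {i j : B} {a b k : ℕ} (hb : 0 < b) (hk : 2 ≤ k) :
    k * a - (k - 1) * b < k * (a + b) := by
  have h1 : 0 < k * b := Nat.mul_pos (by omega) hb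
  have h2 : k * (a + b) = k * a + k * b := by ring
  omega

theorem blk_atom (hL : ∀ i, 0 < L i) (hE : OddEq M L) {J : Set B} {δ : W} {n : ℕ}
    (h : Atom cs L J δ n) :
    ∃ C : Set W, Blk D J C ∧ δ ∈ C ∧ ∀ w ∈ C, w ≠ δ → n < av cs L w := by
  cases h with
  | one i =>
    refine ⟨{cs.simple i}, ⟨?_, ?_⟩, rfl, fun w hw hne => absurd hw hne⟩
    · rintro w rfl
      exact (simple_mem_wp cs).2 rfl
    · rintro s hs w rfl
      rw [Set.mem_singleton_iff.1 hs]
      have hd : cs.IsLeftDescent (cs.simple i) i := by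
        unfold CoxeterSystem.IsLeftDescent
        rw [cs.simple_mul_simple_self, cs.length_one, cs.length_simple]
        exact one_pos
      rw [D.t_mul_c hL hd]
      exact Submodule.smul_mem _ _ (Submodule.subset_span ⟨_, rfl, rfl⟩)
  | full i j h3 =>
    refine ⟨{al cs i j (M i j)}, ⟨?_, ?_⟩, rfl, fun w hw hne => absurd hw hne⟩
    · rintro w rfl
      exact al_mem cs i j _
    · rintro s hs w rfl
      have h4 := (pair_top_rd cs (ne_of_three h3) (show M i j ≠ 0 by omega)).2.2
      have hd : cs.IsLeftDescent (al cs i j (M i j)) s := by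
        rcases hs with hs | hs
        · rw [hs]; exact h4.1
        · rw [Set.mem_singleton_iff.1 hs]; exact h4.2
      rw [D.t_mul_c hL hd]
      exact Submodule.smul_mem _ _ (Submodule.subset_span ⟨_, rfl, rfl⟩)
  | mid i j k hk hM hl =>
    have h3 : 3 ≤ M i j := by omega
    have hij := ne_of_three h3
    have hm0 : M i j ≠ 0 := by omega
    have hδ : D.c (al cs i j (2 * k - 1)) ∈
        Submodule.span Lau (D.c '' {al cs i j (2 * k - 1), al cs i j (2 * k)}) :=
      Submodule.subset_span ⟨_, Or.inl rfl, rfl⟩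
    have hw0 : D.c (al cs i j (2 * k)) ∈
        Submodule.span Lau (D.c '' {al cs i j (2 * k - 1), al cs i j (2 * k)}) :=
      Submodule.subset_span ⟨_, Or.inr rfl, rfl⟩
    refine ⟨{al cs i j (2 * k - 1), al cs i j (2 * k)}, ⟨?_, ?_⟩, Or.inl rfl, ?_⟩
    · rintro w (hw | hw)
      · rw [hw]; exact al_mem cs i j _
      · rw [Set.mem_singleton_iff.1 hw]; exact al_mem cs i j _
    · have h4 := (pair_top_rd cs hij hm0).2.2
      rw [hM] at h4
      rintro s hs w (hw | hw)
      · rw [hw]
        rcases hs with hs | hs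
        · rw [hs, D.t_mul_c hL (ld_al cs hij (by omega) (Or.inl (by omega)))]
          exact Submodule.smul_mem _ _ hδ
        · rw [Set.mem_singleton_iff.1 hs]
          have h5 := (ue_mid_j D hL h3 hM hl).1
          rw [D.c_simple hL j, add_mul, smul_mul_assoc, one_mul, ← eq_sub_iff_add_eq] at h5
          rw [h5]
          exact Submodule.sub_mem _ hw0 (Submodule.smul_mem _ _ hδ)
      · rw [Set.mem_singleton_iff.1 hw]
        have hd : cs.IsLeftDescent (al cs i j (2 * k)) s := by
          rcases hs with hs | hs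
          · rw [hs]; exact h4.1
          · rw [Set.mem_singleton_iff.1 hs]; exact h4.2
        rw [D.t_mul_c hL hd]
        exact Submodule.smul_mem _ _ hw0
    · rintro w (hw | hw) hne
      · exact absurd hw hne
      · rw [Set.mem_singleton_iff.1 hw]
        have h5 := av_full cs L hE h3
        rw [hM, sl_even] at h5
        rw [h5]
        exact R04_top (i := i) (j := j) (hL j) hk

theorem blk_spv (hL : ∀ i, 0 < L i) (hE : OddEq M L) {J : Set B} {δ : W} {n : ℕ}
    (h : SpV cs L J δ n) :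
    ∃ C : Set W, Blk D J C ∧ δ ∈ C ∧ ∀ w ∈ C, w ≠ δ → n < av cs L w := by
  induction h with
  | nil =>
    refine ⟨{1}, ⟨?_, fun s hs => absurd hs (Set.notMem_empty s)⟩, rfl,
      fun w hw hne => absurd hw hne⟩
    rintro w rfl
    exact Subgroup.one_mem _
  | @cons J K α ε n m ha hb hc ih =>
    obtain ⟨C₁, hC₁, h1, h1'⟩ := blk_atom D hL hE ha
    obtain ⟨C₂, hC₂, h2, h2'⟩ := ih
    have hsub : ∀ w ∈ C₁, ∀ w' ∈ C₂, D.c w * D.c w' ∈ Submodule.span Lau
        (D.c '' {z | ∃ w ∈ C₁, ∃ w' ∈ C₂, z = w * w'}) := by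
      intro w hw w' hw'
      rw [← c_cm D hc (hC₁.1 w hw) (hC₂.1 w' hw')]
      exact Submodule.subset_span ⟨_, ⟨w, hw, w', hw', rfl⟩, rfl⟩
    refine ⟨{z | ∃ w ∈ C₁, ∃ w' ∈ C₂, z = w * w'}, ⟨?_, ?_⟩, ⟨α, h1, ε, h2, rfl⟩, ?_⟩
    · rintro _ ⟨w, hw, w', hw', rfl⟩
      exact mul_mem (wp_mono cs Set.subset_union_left (hC₁.1 w hw))
        (wp_mono cs Set.subset_union_right (hC₂.1 w' hw'))
    · rintro s hs _ ⟨w, hw, w', hw', rfl⟩
      rw [c_cm D hc (hC₁.1 w hw) (hC₂.1 w' hw')]
      rcases hs with hs | hs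
      · rw [← mul_assoc]
        have h3 := hC₁.2 s hs w hw
        generalize D.t (cs.simple s) * D.c w = g at h3 ⊢
        induction h3 using Submodule.span_induction with
        | mem x hx =>
          obtain ⟨y, hy, rfl⟩ := hx
          exact hsub y hy w' hw'
        | zero =>
          rw [zero_mul]
          exact Submodule.zero_mem _
        | add x y _ _ hx hy =>
          rw [add_mul]
          exact Submodule.add_mem _ hx hy
        | smul r x _ hx =>
          rw [smul_mul_assoc]
          exact Submodule.smul_mem _ _ hx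
      · have h4 : D.t (cs.simple s) * (D.c w * D.c w') =
            D.c w * (D.t (cs.simple s) * D.c w') := by
          rw [← mul_assoc, ← mul_assoc, hp_comm D.toHecke hc (hp_c D (hC₁.1 w hw))
            (hp_t D.toHecke ((simple_mem_wp cs).2 hs))]
        rw [h4]
        have h3 := hC₂.2 s hs w' hw'
        generalize D.t (cs.simple s) * D.c w' = g at h3 ⊢
        induction h3 using Submodule.span_induction with
        | mem x hx =>
          obtain ⟨y, hy, rfl⟩ := hx
          exact hsub w hw y hy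
        | zero =>
          rw [mul_zero]
          exact Submodule.zero_mem _
        | add x y _ _ hx hy =>
          rw [mul_add]
          exact Submodule.add_mem _ hx hy
        | smul r x _ hx =>
          rw [mul_smul_comm]
          exact Submodule.smul_mem _ _ hx
    · rintro _ ⟨w, hw, w', hw', rfl⟩ hne
      rw [av_cm cs L hc (hC₁.1 w hw) (hC₂.1 w' hw')]
      by_cases e1 : w = α
      · by_cases e2 : w' = ε
        · exact absurd (by rw [e1, e2]) hne
        · have h3 := h2' w' hw' e2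
          rw [e1, atom_av hE ha]
          omega
      · have h3 := h1' w hw e1
        by_cases e2 : w' = ε
        · rw [e2, spv_av hE hb]
          omega
        · have h4 := h2' w' hw' e2
          omega

theorem p_one_sph (hL : ∀ i, 0 < L i) (hE : OddEq M L) (hM : Tri M) {J : Set B}
    (hJ : Sph M J) {w : W} (hw : w ∈ WP cs J) :
    DegLe (-(av cs L w : ℤ)) (D.t.repr (D.c w) 1) := by
  have hstep : ∀ (I J : Set B), Dih M I → Cm M I J →
      (∀ w ∈ WP cs J, DegLe (-(av cs L w : ℤ)) (D.t.repr (D.c w) 1)) →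
      ∀ w ∈ WP cs (I ∪ J), DegLe (-(av cs L w : ℤ)) (D.t.repr (D.c w) 1) := by
    intro I J hI hc ih w hw
    obtain ⟨p, hp, q, hq, rfl⟩ := (cm_union cs hc).1 hw
    rw [c_cm D hc hp hq, av_cm cs L hc hp hq]
    have h1 := repr_cm D.toHecke hc (hp_c D hp) (hp_c D hq) (Subgroup.one_mem _)
      (Subgroup.one_mem _)
    rw [mul_one] at h1
    rw [h1]
    exact DegLe.mono ((o2_one D hL hE hI hp).mul (ih q hq)) (by push_cast; omega)
  refine sph_induction hM
    (P := fun J => ∀ w ∈ WP cs J, DegLe (-(av cs L w : ℤ)) (D.t.repr (D.c w) 1))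
    ?_ ?_ ?_ J hJ w hw
  · intro w hw
    have h1 : w = 1 := by
      apply spt_empty cs
      exact Set.subset_empty_iff.1 ((wp_iff_spt cs).1 hw)
    rw [h1, repr_c_one D, av_one cs L]
    exact DegLe.one
  · intro i J _ hc ih
    exact hstep {i} J (Or.inl ⟨i, rfl⟩) hc ih
  · intro i j J _ h3 hc ih
    exact hstep {i, j} J (Or.inr ⟨i, j, h3, rfl⟩) hc ih

end Pool.Agent.Lib.KLT
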