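import Pool.Agent.Lib.MP_754fa1_al.T.A02

/-!
# S01. Special elements with linear functionals

`wt S₁ a b i = a` for `i ∈ S₁`, `b` otherwise (`Defs.lean`). An element of `SpF S₁ J δ α β` is a product of commuting atoms with the value `α a + β b` as a linear functional in `(a, b)`; the condition `L j < L i` of `mid` is dropped.

`sl_wt`: `sl (wt S₁ a b) i j k = a * sl (wt S₁ 1 0) i j k + b * sl (wt S₁ 0 1) i j k` (induction).
`oddEq_wt`: `hO` (`i ∈ S₁ ↔ j ∈ S₁` for odd `M i j`) gives `OddEq M (wt S₁ a b)`.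

`spv_spf`: induction on `SpV`; atoms: `one`, `full` by `sl_wt`, `mid`: the natural number `k L i - (k-1) L j` is the integer one as `L j < L i`.
`spf_reduce`: (`L = wt S₁ a b`) `SpF J δ α β` implies that there are `J' ⊆ J`, `δ'`, `n'` with `SpV cs L J' δ' n'`, `Fac δ' δ`, `α a + β b ≤ n'`: induction; atoms `one`, `full`, and `mid` with `L j < L i`: `δ' = δ`, equality. `mid` with `L i ≤ L j`: `δ' = s_i`, value
`L i ≥ k L i - (k-1) L j`, `s_i` is a factor of `al i j (2k-1)` (`fac_left`: `al_succ`, `len_al`). `cons`: `Cm` of the smaller sets (`cm_mono`), `cm_fac_mul` (the elements are in `WP J` by supports: `spf_mem`).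
`spf_le_av`: `spf_reduce`, `fac_trans`, `spv_le_av`. `av_spf`: `av_attained`, `spv_spf`.
`spf_mem`, `spf_spt`: as `spv_mem`, `spv_spt` (same atoms).
`spf_bound`: `|α|, |β| ≤ ℓ(δ)` (atoms: `1`, `sl (wt S₁ 1 0) i j m ≤ m` (`sl_le`), `|k x - (k-1) y| ≤ k ≤ 2 k - 1` for `x, y ∈ {0, 1}`; `cons`: `cm_rd`), and `ℓ(δ) ≤ D |J| ≤ D |B|` as in `spv_len`, `atom_len`.
-/

open Pool.Agent.Lib.MP_754fa1_al

namespace Pool.Agent.Lib.KLT

universe u v w

variable {B : Type u} {W : Type v} [Group W] {M : CoxeterMatrix B}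

/-- atoms with functionals -/
inductive AtomF (cs : CoxeterSystem M W) (S₁ : Set B) : Set B → W → ℤ → ℤ → Prop
  | one (i : B) : AtomF cs S₁ {i} (cs.simple i) (wt S₁ 1 0 i) (wt S₁ 0 1 i)
  | full (i j : B) (h : 3 ≤ M i j) : AtomF cs S₁ {i, j} (al cs i j (M i j))
      (sl (wt S₁ 1 0) i j (M i j)) (sl (wt S₁ 0 1) i j (M i j))
  | mid (i j : B) (k : ℕ) (hk : 2 ≤ k) (hM : M i j = 2 * k) :
      AtomF cs S₁ {i, j} (al cs i j (2 * k - 1))
        ((k : ℤ) * wt S₁ 1 0 i - ((k : ℤ) - 1) * wt S₁ 1 0 j)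
        ((k : ℤ) * wt S₁ 0 1 i - ((k : ℤ) - 1) * wt S₁ 0 1 j)

/-- products of commuting atoms with functionals -/
inductive SpF (cs : CoxeterSystem M W) (S₁ : Set B) : Set B → W → ℤ → ℤ → Prop
  | nil : SpF cs S₁ ∅ 1 0 0
  | cons {J K : Set B} {δ ε : W} {α β α' β' : ℤ} (h : AtomF cs S₁ J δ α β)
      (h' : SpF cs S₁ K ε α' β') (hc : Cm M J K) : SpF cs S₁ (J ∪ K) (δ * ε) (α + α') (β + β')

private theorem S01_wt (S₁ : Set B) (a b : ℕ) (i : B) :
    wt S₁ a b i = a * wt S₁ 1 0 i + b * wt S₁ 0 1 i := by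
  unfold wt
  by_cases h : i ∈ S₁
  · rw [if_pos h, if_pos h, if_pos h]
    omega
  · rw [if_neg h, if_neg h, if_neg h]
    omega

private theorem S01_wt10 (S₁ : Set B) (i : B) : wt S₁ 1 0 i = 0 ∨ wt S₁ 1 0 i = 1 := by
  unfold wt
  by_cases h : i ∈ S₁
  · rw [if_pos h]
    exact Or.inr rfl
  · rw [if_neg h]
    exact Or.inl rfl

private theorem S01_wt01 (S₁ : Set B) (i : B) : wt S₁ 0 1 i = 0 ∨ wt S₁ 0 1 i = 1 := by
  unfold wt
  by_cases h : i ∈ S₁
  · rw [if_pos h]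
    exact Or.inl rfl
  · rw [if_neg h]
    exact Or.inr rfl

theorem sl_wt (S₁ : Set B) (a b : ℕ) (i j : B) (k : ℕ) :
    sl (wt S₁ a b) i j k = a * sl (wt S₁ 1 0) i j k + b * sl (wt S₁ 0 1) i j k := by
  induction k generalizing i j with
  | zero => rfl
  | succ k ih =>
    show wt S₁ a b i + sl (wt S₁ a b) j i k =
      a * (wt S₁ 1 0 i + sl (wt S₁ 1 0) j i k) + b * (wt S₁ 0 1 i + sl (wt S₁ 0 1) j i k)
    rw [ih j i, S01_wt S₁ a b i]
    ring

theorem oddEq_wt {S₁ : Set B} (hO : ∀ i j : B, Odd (M i j) → (i ∈ S₁ ↔ j ∈ S₁)) (a b : ℕ) :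
    OddEq M (wt S₁ a b) := by
  intro i j h
  have h1 := hO i j h
  unfold wt
  by_cases h2 : i ∈ S₁
  · rw [if_pos h2, if_pos (h1.1 h2)]
  · rw [if_neg h2, if_neg fun h3 => h2 (h1.2 h3)]

variable {cs : CoxeterSystem M W} {S₁ : Set B}

private theorem S01_dih {J : Set B} {δ : W} {α β : ℤ} (h : AtomF cs S₁ J δ α β) : Dih M J := by
  cases h with
  | one i => exact Or.inl ⟨i, rfl⟩
  | full i j h3 => exact Or.inr ⟨i, j, h3, rfl⟩
  | mid i j k hk hM => exact Or.inr ⟨i, j, by omega, rfl⟩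

private theorem S01_aspt {J : Set B} {δ : W} {α β : ℤ} (h : AtomF cs S₁ J δ α β) :
    spt cs δ = J := by
  cases h with
  | one i => exact spt_simple cs i
  | full i j h3 => exact spt_al cs (ne_of_three h3) (by omega) (Or.inl le_rfl)
  | mid i j k hk hM =>
    exact spt_al cs (ne_of_three (M := M) (by omega)) (by omega) (Or.inl (by omega))

private theorem S01_amem {J : Set B} {δ : W} {α β : ℤ} (h : AtomF cs S₁ J δ α β) :
    δ ∈ WP cs J := by
  have h1 := mem_wp_spt cs δ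
  rw [S01_aspt h] at h1
  exact h1

theorem spf_spt {J : Set B} {δ : W} {α β : ℤ} (h : SpF cs S₁ J δ α β) : spt cs δ = J := by
  induction h with
  | nil => exact spt_one cs
  | @cons J K δ ε α β α' β' ha hb hc ih =>
    have h1 := mem_wp_spt cs ε
    rw [ih] at h1
    rw [spt_mul cs (cm_rd cs hc (S01_amem ha) h1), S01_aspt ha, ih]

theorem spf_mem {J : Set B} {δ : W} {α β : ℤ} (h : SpF cs S₁ J δ α β) : δ ∈ WP cs J := by
  have h1 := mem_wp_spt cs δ
  rw [spf_spt h] at h1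
  exact h1

private theorem S01_atom {a b : ℕ} {J : Set B} {δ : W} {n : ℕ}
    (h : Atom cs (wt S₁ a b) J δ n) :
    ∃ α β : ℤ, AtomF cs S₁ J δ α β ∧ (n : ℤ) = α * a + β * b := by
  cases h with
  | one i =>
    refine ⟨_, _, AtomF.one i, ?_⟩
    rw [S01_wt S₁ a b i]
    push_cast
    ring
  | full i j h3 =>
    refine ⟨_, _, AtomF.full i j h3, ?_⟩
    rw [sl_wt S₁ a b i j]
    push_cast
    ring
  | mid i j k hk hM hL =>
    refine ⟨_, _, AtomF.mid i j k hk hM, ?_⟩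
    have h1 : (k - 1) * wt S₁ a b j ≤ k * wt S₁ a b i :=
      Nat.mul_le_mul (Nat.sub_le k 1) hL.le
    rw [Nat.cast_sub h1, Nat.cast_mul, Nat.cast_mul, Nat.cast_sub (by omega : 1 ≤ k),
      S01_wt S₁ a b i, S01_wt S₁ a b j]
    push_cast
    ring

theorem spv_spf {a b : ℕ} {J : Set B} {δ : W} {n : ℕ} (h : SpV cs (wt S₁ a b) J δ n) :
    ∃ α β : ℤ, SpF cs S₁ J δ α β ∧ (n : ℤ) = α * a + β * b := by
  induction h with
  | nil => exact ⟨0, 0, SpF.nil, by simp⟩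
  | @cons J K δ ε n m ha hb hc ih =>
    obtain ⟨α, β, h1, e1⟩ := S01_atom ha
    obtain ⟨α', β', h2, e2⟩ := ih
    refine ⟨α + α', β + β', SpF.cons h1 h2 hc, ?_⟩
    rw [Nat.cast_add, e1, e2]
    ring

private theorem S01_absmid {k x y : ℕ} (hk : 2 ≤ k) (hx : x = 0 ∨ x = 1) (hy : y = 0 ∨ y = 1) :
    |(k : ℤ) * x - ((k : ℤ) - 1) * y| ≤ ((2 * k - 1 : ℕ) : ℤ) := by
  rw [abs_le]
  rcases hx with rfl | rfl <;> rcases hy with rfl | rfl <;> constructor <;> push_cast <;> omega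

private theorem S01_asl (S₁ : Set B) (i j : B) (m : ℕ) :
    |((sl (wt S₁ 1 0) i j m : ℕ) : ℤ)| ≤ (m : ℤ) ∧
      |((sl (wt S₁ 0 1) i j m : ℕ) : ℤ)| ≤ (m : ℤ) := by
  have h1 : sl (wt S₁ 1 0) i j m ≤ 1 * m := sl_le (fun c => by
    rcases S01_wt10 S₁ c with h | h <;> omega) i j m
  have h2 : sl (wt S₁ 0 1) i j m ≤ 1 * m := sl_le (fun c => by
    rcases S01_wt01 S₁ c with h | h <;> omega) i j m
  rw [Nat.abs_cast, Nat.abs_cast]
  constructor <;> omega

private theorem S01_alen {J : Set B} {δ : W} {α β : ℤ} (h : AtomF cs S₁ J δ α β) :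
    |α| ≤ cs.length δ ∧ |β| ≤ cs.length δ := by
  cases h with
  | one i =>
    rw [cs.length_simple, Nat.abs_cast, Nat.abs_cast]
    have h1 := S01_wt10 S₁ i
    have h2 := S01_wt01 S₁ i
    constructor <;> omega
  | full i j h3 =>
    rw [len_al cs (ne_of_three h3) (Or.inl le_rfl)]
    exact S01_asl S₁ i j (M i j)
  | mid i j k hk hM =>
    rw [len_al cs (ne_of_three (M := M) (show 3 ≤ M i j by omega)) (Or.inl (by omega))]
    exact ⟨S01_absmid hk (S01_wt10 S₁ i) (S01_wt10 S₁ j),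
      S01_absmid hk (S01_wt01 S₁ i) (S01_wt01 S₁ j)⟩

private theorem S01_acard [Finite B] {D : ℕ} (hD : ∀ i j, M i j ≤ D) {J : Set B} {δ : W}
    {α β : ℤ} (h : AtomF cs S₁ J δ α β) : cs.length δ ≤ D * J.ncard := by
  cases h with
  | one i =>
    rw [cs.length_simple, Set.ncard_singleton, Nat.mul_one]
    have h1 := hD i i
    rw [M.diagonal i] at h1
    exact h1
  | full i j h3 =>
    rw [len_al cs (ne_of_three h3) (Or.inl le_rfl), Set.ncard_pair (ne_of_three h3)]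
    have h1 := hD i j
    omega
  | mid i j k hk hM =>
    have h3 : 3 ≤ M i j := by omega
    rw [len_al cs (ne_of_three h3) (Or.inl (by omega)), Set.ncard_pair (ne_of_three h3)]
    have h1 := hD i j
    omega

theorem spf_bound [Finite B] (cs : CoxeterSystem M W) (S₁ : Set B) :
    ∃ N : ℕ, ∀ (J : Set B) (δ : W) (α β : ℤ), SpF cs S₁ J δ α β → |α| ≤ N ∧ |β| ≤ N := by
  obtain ⟨D, hD⟩ := Finite.exists_le (fun p : B × B => M p.1 p.2)
  have hD' : ∀ i j, M i j ≤ D := fun i j => hD (i, j)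
  refine ⟨D * (Set.univ : Set B).ncard, ?_⟩
  intro J δ α β h
  have key : (|α| ≤ cs.length δ ∧ |β| ≤ cs.length δ) ∧ cs.length δ ≤ D * J.ncard := by
    induction h with
    | nil =>
      rw [cs.length_one]
      refine ⟨⟨?_, ?_⟩, Nat.zero_le _⟩ <;> simp
    | @cons J K δ ε α β α' β' ha hb hc ih =>
      have hl : cs.length (δ * ε) = cs.length δ + cs.length ε :=
        cm_rd cs hc (S01_amem ha) (spf_mem hb)
      have h1 := S01_alen ha
      have h2 := S01_acard hD' ha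
      have h3 := abs_add_le α α'
      have h4 := abs_add_le β β'
      rw [hl, Set.ncard_union_eq (cm_disj hc) (Set.toFinite J) (Set.toFinite K), mul_add,
        Nat.cast_add]
      refine ⟨⟨?_, ?_⟩, ?_⟩
      · exact h3.trans (add_le_add h1.1 ih.1.1)
      · exact h4.trans (add_le_add h1.2 ih.1.2)
      · exact add_le_add h2 ih.2
  have h5 : cs.length δ ≤ D * (Set.univ : Set B).ncard :=
    key.2.trans (Nat.mul_le_mul_left D (Set.ncard_le_ncard (Set.subset_univ J)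
      (Set.toFinite _)))
  have h6 : ((cs.length δ : ℕ) : ℤ) ≤ ((D * (Set.univ : Set B).ncard : ℕ) : ℤ) :=
    Nat.cast_le.2 h5
  exact ⟨key.1.1.trans h6, key.1.2.trans h6⟩

private theorem S01_ared (a b : ℕ) {J : Set B} {δ : W} {α β : ℤ} (h : AtomF cs S₁ J δ α β) :
    ∃ (J' : Set B) (δ' : W) (n : ℕ), J' ⊆ J ∧ Atom cs (wt S₁ a b) J' δ' n ∧ Fac cs δ' δ ∧
      α * a + β * b ≤ n := by
  cases h with
  | one i =>
    refine ⟨{i}, cs.simple i, wt S₁ a b i, subset_rfl, Atom.one i, fac_refl cs _, ?_⟩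
    rw [S01_wt S₁ a b i]
    push_cast
    apply le_of_eq
    ring
  | full i j h3 =>
    refine ⟨{i, j}, al cs i j (M i j), sl (wt S₁ a b) i j (M i j), subset_rfl, Atom.full i j h3,
      fac_refl cs _, ?_⟩
    rw [sl_wt S₁ a b i j]
    push_cast
    apply le_of_eq
    ring
  | mid i j k hk hM =>
    have e : ((k : ℤ) * wt S₁ 1 0 i - ((k : ℤ) - 1) * wt S₁ 1 0 j) * a +
        ((k : ℤ) * wt S₁ 0 1 i - ((k : ℤ) - 1) * wt S₁ 0 1 j) * b =
        (k : ℤ) * wt S₁ a b i - ((k : ℤ) - 1) * wt S₁ a b j := by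
      rw [S01_wt S₁ a b i, S01_wt S₁ a b j]
      push_cast
      ring
    rw [e]
    have hk1 : (0 : ℤ) ≤ (k : ℤ) - 1 := by omega
    by_cases hL : wt S₁ a b j < wt S₁ a b i
    · refine ⟨{i, j}, al cs i j (2 * k - 1), k * wt S₁ a b i - (k - 1) * wt S₁ a b j,
        subset_rfl, Atom.mid i j k hk hM hL, fac_refl cs _, ?_⟩
      have h1 : (k - 1) * wt S₁ a b j ≤ k * wt S₁ a b i :=
        Nat.mul_le_mul (Nat.sub_le k 1) hL.le
      rw [Nat.cast_sub h1, Nat.cast_mul, Nat.cast_mul, Nat.cast_sub (by omega : 1 ≤ k)]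
      push_cast
      exact le_rfl
    · have h3 : 3 ≤ M i j := by omega
      refine ⟨{i}, cs.simple i, wt S₁ a b i, ?_, Atom.one i, ?_, ?_⟩
      · exact Set.singleton_subset_iff.2 (Set.mem_insert i {j})
      · obtain ⟨l, hl⟩ : ∃ l, 2 * k - 1 = l + 1 := ⟨2 * k - 2, by omega⟩
        rw [hl, al_succ]
        apply fac_left
        unfold Rd
        rw [← al_succ, len_al cs (ne_of_three h3) (Or.inl (by omega)), cs.length_simple,
          len_al cs (ne_of_three h3).symm (Or.inl (by rw [M.symmetric j i]; omega)), add_comm]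
      · have h4 : (wt S₁ a b i : ℤ) ≤ wt S₁ a b j := Nat.cast_le.2 (not_lt.1 hL)
        have h5 := mul_le_mul_of_nonneg_left h4 hk1
        have h6 : (k : ℤ) * wt S₁ a b i = ((k : ℤ) - 1) * wt S₁ a b i + wt S₁ a b i := by ring
        rw [h6]
        linarith

private theorem S01_reduce (a b : ℕ) {J : Set B} {δ : W} {α β : ℤ} (h : SpF cs S₁ J δ α β) :
    ∃ (J' : Set B) (δ' : W) (n : ℕ), J' ⊆ J ∧ SpV cs (wt S₁ a b) J' δ' n ∧ Fac cs δ' δ ∧
      α * a + β * b ≤ n := by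
  induction h with
  | nil => exact ⟨∅, 1, 0, subset_rfl, SpV.nil, fac_refl cs 1, by simp⟩
  | @cons J K δ ε α β α' β' ha hb hc ih =>
    obtain ⟨J', δ', n, h1, h2, h3, h4⟩ := S01_ared a b ha
    obtain ⟨K', ε', m, k1, k2, k3, k4⟩ := ih
    refine ⟨J' ∪ K', δ' * ε', n + m, Set.union_subset_union h1 k1,
      SpV.cons h2 k2 (cm_mono hc h1 k1), ?_, ?_⟩
    · exact cm_fac_mul cs hc (S01_amem ha) (spf_mem hb) h3 k3
    · rw [Nat.cast_add]
      have e : (α + α') * a + (β + β') * b = (α * a + β * b) + (α' * a + β' * b) := by ring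
      rw [e]
      exact add_le_add h4 k4

variable [Finite B]

theorem spf_le_av {a b : ℕ} {J : Set B} {δ x : W} {α β : ℤ} (h : SpF cs S₁ J δ α β)
    (hf : Fac cs δ x) : α * a + β * b ≤ av cs (wt S₁ a b) x := by
  obtain ⟨J', δ', n, _, h2, h3, h4⟩ := S01_reduce a b h
  exact h4.trans (Nat.cast_le.2 (spv_le_av cs _ h2 (fac_trans cs h3 hf)))

theorem av_spf (a b : ℕ) (x : W) : ∃ (J : Set B) (δ : W) (α β : ℤ), SpF cs S₁ J δ α β ∧
    Fac cs δ x ∧ (av cs (wt S₁ a b) x : ℤ) = α * a + β * b := by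
  obtain ⟨J, δ, h1, h2⟩ := av_attained cs (wt S₁ a b) x
  obtain ⟨α, β, h3, h4⟩ := spv_spf h1
  exact ⟨J, δ, α, β, h3, h2, h4⟩

end Pool.Agent.Lib.KLT
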