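import Pool.Agent.Lib.MP_754fa1_al.T.S01

/-!
# S02. The functional is determined by `δ`

`spf_split`: as `spv_split` (A01b). `spf_empty`, `spf_single`, `spf_pair`: as `spv_empty`, `spv_single`, `spv_sub_pair`.
`atomf_pair_unique`: two atoms with support `{i, j}`, `3 ≤ M i j`, and the same element have the same functional: the element is `al i j m` (also for `full j i`: `al_top`, and `sl_symm` for `wt S₁ 1 0`, `wt S₁ 0 1` (`oddEq_wt`)), or `al i j (2k-1)` (`mid i j k`), or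
`al j i (2k-1)` (`mid j i k`), `2 k = m`; these three elements are distinct (`len_al`, `al_ne`).
`spf_unique`: induction on the first `SpF J δ α β`. `nil`: `spf_empty`. `cons` (atom `a` on `J₁`, rest `ε` on `K₁`): `spf_split` of the second for `J₁`, `K₁` (`J = J₁ ∪ K₁`): `δ = δ₁ δ₂` with `δ₁ ∈ WP J₁`, `δ₂ ∈ WP K₁`, so `δ₁ = a`, `δ₂ = ε` (`cm_uniq`); the functional on `K₁` by induction, on `J₁`
by `spf_single` or `spf_pair`, `atomf_pair_unique`. (`(J₁ ∪ K₁) ∩ J₁ = J₁`, `(J₁ ∪ K₁) ∩ K₁ = K₁`.)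
-/

open Pool.Agent.Lib.MP_754fa1_al

namespace Pool.Agent.Lib.KLT

universe u v w

variable {B : Type u} {W : Type v} [Group W] {M : CoxeterMatrix B}
variable {cs : CoxeterSystem M W} {S₁ : Set B}

private theorem S02_atom_mem {J : Set B} {δ : W} {α β : ℤ} (h : AtomF cs S₁ J δ α β) :
    δ ∈ WP cs J := by
  cases h with
  | one i => exact (simple_mem_wp cs).2 rfl
  | full i j h => exact al_mem cs i j _
  | mid i j k hk hM => exact al_mem cs i j _

private theorem S02_dih {J : Set B} {δ : W} {α β : ℤ} (h : AtomF cs S₁ J δ α β) : Dih M J := by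
  cases h with
  | one i => exact Or.inl ⟨i, rfl⟩
  | full i j h => exact Or.inr ⟨i, j, h, rfl⟩
  | mid i j k hk hM => exact Or.inr ⟨i, j, by omega, rfl⟩

private theorem S02_dih_ne {J : Set B} (h : Dih M J) : J.Nonempty := by
  rcases h with ⟨c, hc⟩ | ⟨c, d, h3, hc⟩
  · exact ⟨c, by rw [hc]; exact Set.mem_singleton c⟩
  · exact ⟨c, by rw [hc]; exact Set.mem_insert c {d}⟩

theorem spf_split {I J K : Set B} {δ : W} {α β : ℤ} (hc : Cm M J K)
    (h : SpF cs S₁ I δ α β) (hI : I ⊆ J ∪ K) :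
    ∃ (δ₁ δ₂ : W) (α₁ β₁ α₂ β₂ : ℤ), SpF cs S₁ (I ∩ J) δ₁ α₁ β₁ ∧ SpF cs S₁ (I ∩ K) δ₂ α₂ β₂ ∧
      δ = δ₁ * δ₂ ∧ α = α₁ + α₂ ∧ β = β₁ + β₂ := by
  revert hI
  induction h with
  | nil =>
    intro _
    refine ⟨1, 1, 0, 0, 0, 0, ?_, ?_, (one_mul 1).symm, rfl, rfl⟩
    · rw [Set.empty_inter]
      exact SpF.nil
    · rw [Set.empty_inter]
      exact SpF.nil
  | @cons I₁ I₂ a ε α β α' β' ha hb hc₁ ih =>
    intro hI
    obtain ⟨δ₁, δ₂, α₁, β₁, α₂, β₂, h1, h2, e1, e2, e2'⟩ := ih (Set.subset_union_right.trans hI)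
    have hI₁ : I₁ ⊆ J ∪ K := Set.subset_union_left.trans hI
    have hdis := cm_disj hc
    have hcase : I₁ ⊆ J ∨ I₁ ⊆ K := by
      rcases S02_dih ha with ⟨c, hcc⟩ | ⟨c, d, h3, hcc⟩
      · rw [hcc] at hI₁ ⊢
        rcases hI₁ (Set.mem_singleton c) with h4 | h4
        · exact Or.inl (Set.singleton_subset_iff.mpr h4)
        · exact Or.inr (Set.singleton_subset_iff.mpr h4)
      · rw [hcc] at hI₁ ⊢
        rcases hI₁ (Set.mem_insert c {d}) with h4 | h4
        · rcases hI₁ (Set.mem_insert_of_mem c rfl) with h5 | h5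
          · exact Or.inl (Set.insert_subset h4 (Set.singleton_subset_iff.mpr h5))
          · exfalso
            have := hc c h4 d h5
            omega
        · rcases hI₁ (Set.mem_insert_of_mem c rfl) with h5 | h5
          · exfalso
            have h6 := hc d h5 c h4
            rw [M.symmetric d c] at h6
            omega
          · exact Or.inr (Set.insert_subset h4 (Set.singleton_subset_iff.mpr h5))
    rcases hcase with h4 | h4
    · have e3 : (I₁ ∪ I₂) ∩ J = I₁ ∪ (I₂ ∩ J) := by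
        rw [Set.union_inter_distrib_right, Set.inter_eq_left.mpr h4]
      have e4 : (I₁ ∪ I₂) ∩ K = I₂ ∩ K := by
        rw [Set.union_inter_distrib_right,
          Set.disjoint_iff_inter_eq_empty.mp (Set.disjoint_of_subset_left h4 hdis),
          Set.empty_union]
      refine ⟨a * δ₁, δ₂, α + α₁, β + β₁, α₂, β₂, ?_, ?_, ?_, ?_, ?_⟩
      · rw [e3]
        exact SpF.cons ha h1 (cm_mono hc₁ subset_rfl Set.inter_subset_left)
      · rw [e4]
        exact h2
      · rw [e1, mul_assoc]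
      · rw [e2, add_assoc]
      · rw [e2', add_assoc]
    · have e3 : (I₁ ∪ I₂) ∩ K = I₁ ∪ (I₂ ∩ K) := by
        rw [Set.union_inter_distrib_right, Set.inter_eq_left.mpr h4]
      have e4 : (I₁ ∪ I₂) ∩ J = I₂ ∩ J := by
        rw [Set.union_inter_distrib_right,
          Set.disjoint_iff_inter_eq_empty.mp (Set.disjoint_of_subset_left h4 hdis.symm),
          Set.empty_union]
      refine ⟨δ₁, a * δ₂, α₁, β₁, α + α₂, β + β₂, ?_, ?_, ?_, ?_, ?_⟩
      · rw [e4]
        exact h1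
      · rw [e3]
        exact SpF.cons ha h2 (cm_mono hc₁ subset_rfl Set.inter_subset_left)
      · have h5 := cm_comm cs (cm_mono hc₁ subset_rfl Set.inter_subset_left)
          (S02_atom_mem ha) (spf_mem h1)
        rw [e1, ← mul_assoc, ← mul_assoc, h5]
      · rw [e2]
        omega
      · rw [e2']
        omega

private theorem S02_empty {J : Set B} {δ : W} {α β : ℤ} (h : SpF cs S₁ J δ α β) (hJ : J = ∅) :
    δ = 1 ∧ α = 0 ∧ β = 0 := by
  cases h with
  | nil => exact ⟨rfl, rfl, rfl⟩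
  | cons ha hb hc =>
    exfalso
    obtain ⟨c, hcc⟩ := S02_dih_ne (S02_dih ha)
    have h1 := Set.union_empty_iff.1 hJ
    rw [h1.1] at hcc
    exact hcc

private theorem S02_single {J : Set B} {i : B} {δ : W} {α β : ℤ} (h : SpF cs S₁ J δ α β)
    (hJ : J = {i}) : α = wt S₁ 1 0 i ∧ β = wt S₁ 0 1 i := by
  cases h with
  | nil =>
    exfalso
    have h1 : i ∈ ({i} : Set B) := rfl
    rw [← hJ] at h1
    exact h1
  | @cons J₁ K₁ a ε α β α' β' ha hb hc =>
    have hsub : ∀ c ∈ J₁ ∪ K₁, c = i := by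
      intro c hcc
      rw [hJ] at hcc
      exact hcc
    have hK : K₁ = ∅ := by
      rw [Set.eq_empty_iff_forall_notMem]
      intro k hk
      obtain ⟨c, hcc⟩ := S02_dih_ne (S02_dih ha)
      have h1 := hsub c (Or.inl hcc)
      have h2 := hsub k (Or.inr hk)
      have h3 := hc c hcc k hk
      rw [h1, h2, M.diagonal] at h3
      omega
    obtain ⟨e1, e2, e3⟩ := S02_empty hb hK
    rw [e2, e3, add_zero, add_zero]
    cases ha with
    | one c =>
      have h1 : c = i := hsub c (Or.inl rfl)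
      rw [h1]
      exact ⟨rfl, rfl⟩
    | full c d h3 =>
      exfalso
      have h1 : c = i := hsub c (Or.inl (Set.mem_insert c {d}))
      have h2 : d = i := hsub d (Or.inl (Set.mem_insert_of_mem c rfl))
      rw [h1, h2, M.diagonal] at h3
      omega
    | mid c d k hk hM =>
      exfalso
      have h1 : c = i := hsub c (Or.inl (Set.mem_insert c {d}))
      have h2 : d = i := hsub d (Or.inl (Set.mem_insert_of_mem c rfl))
      rw [h1, h2, M.diagonal] at hM
      omega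

private theorem S02_pair {J : Set B} {i j : B} (h3 : 3 ≤ M i j) {δ : W} {α β : ℤ}
    (h : SpF cs S₁ J δ α β) (hJ : J = {i, j}) : AtomF cs S₁ {i, j} δ α β := by
  cases h with
  | nil =>
    exfalso
    have h1 : i ∈ ({i, j} : Set B) := Set.mem_insert i {j}
    rw [← hJ] at h1
    exact h1
  | @cons J₁ K₁ a ε α β α' β' ha hb hc =>
    have hsub : ∀ c ∈ J₁ ∪ K₁, c = i ∨ c = j := by
      intro c hcc
      rw [hJ] at hcc
      exact hcc
    have hK : K₁ = ∅ := by
      rw [Set.eq_empty_iff_forall_notMem]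
      intro k hk
      obtain ⟨c, hcc⟩ := S02_dih_ne (S02_dih ha)
      have h1 := hsub c (Or.inl hcc)
      have h2 := hsub k (Or.inr hk)
      have h4 := hc c hcc k hk
      rcases h1 with h1 | h1 <;> rcases h2 with h2 | h2
      · rw [h1, h2, M.diagonal] at h4
        omega
      · rw [h1, h2] at h4
        omega
      · rw [h1, h2, M.symmetric j i] at h4
        omega
      · rw [h1, h2, M.diagonal] at h4
        omega
    obtain ⟨e1, e2, e3⟩ := S02_empty hb hK
    rw [hK, Set.union_empty] at hJ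
    rw [e1, e2, e3, add_zero, add_zero, mul_one, ← hJ]
    exact ha

/-- the three forms of the atoms with support `{i, j}` -/
private theorem S02_form (hO : ∀ i j : B, Odd (M i j) → (i ∈ S₁ ↔ j ∈ S₁)) {J : Set B} {i j : B}
    (h3 : 3 ≤ M i j) {δ : W} {α β : ℤ} (h : AtomF cs S₁ J δ α β) (hJ : J = {i, j}) :
    (δ = al cs i j (M i j) ∧ α = sl (wt S₁ 1 0) i j (M i j) ∧
      β = sl (wt S₁ 0 1) i j (M i j)) ∨
    (∃ k : ℕ, 2 ≤ k ∧ M i j = 2 * k ∧ δ = al cs i j (2 * k - 1) ∧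
      α = (k : ℤ) * wt S₁ 1 0 i - ((k : ℤ) - 1) * wt S₁ 1 0 j ∧
      β = (k : ℤ) * wt S₁ 0 1 i - ((k : ℤ) - 1) * wt S₁ 0 1 j) ∨
    (∃ k : ℕ, 2 ≤ k ∧ M i j = 2 * k ∧ δ = al cs j i (2 * k - 1) ∧
      α = (k : ℤ) * wt S₁ 1 0 j - ((k : ℤ) - 1) * wt S₁ 1 0 i ∧
      β = (k : ℤ) * wt S₁ 0 1 j - ((k : ℤ) - 1) * wt S₁ 0 1 i) := by
  have hij : i ≠ j := by
    intro e
    rw [e, M.diagonal] at h3
    omega
  cases h with
  | one c =>
    exfalso
    have h1 : i ∈ ({i, j} : Set B) := Set.mem_insert i {j}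
    have h2 : j ∈ ({i, j} : Set B) := Set.mem_insert_of_mem i rfl
    rw [← hJ] at h1 h2
    exact hij (h1.trans h2.symm)
  | full c d h4 =>
    rcases Set.pair_eq_pair_iff.1 hJ with ⟨e1, e2⟩ | ⟨e1, e2⟩
    · subst e1
      subst e2
      exact Or.inl ⟨rfl, rfl, rfl⟩
    · subst e1
      subst e2
      refine Or.inl ⟨?_, ?_, ?_⟩
      · rw [M.symmetric d c]
        exact al_top cs c d (by omega)
      · rw [M.symmetric d c, sl_symm (oddEq_wt hO 1 0) c d]
      · rw [M.symmetric d c, sl_symm (oddEq_wt hO 0 1) c d]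
  | mid c d k hk hM =>
    rcases Set.pair_eq_pair_iff.1 hJ with ⟨e1, e2⟩ | ⟨e1, e2⟩
    · subst e1
      subst e2
      exact Or.inr (Or.inl ⟨k, hk, hM, rfl, rfl, rfl⟩)
    · subst e1
      subst e2
      exact Or.inr (Or.inr ⟨k, hk, (M.symmetric d c).trans hM, rfl, rfl, rfl⟩)

private theorem S02_atom_unique (hO : ∀ i j : B, Odd (M i j) → (i ∈ S₁ ↔ j ∈ S₁)) {i j : B}
    (h3 : 3 ≤ M i j) {δ : W} {α β α' β' : ℤ} (h : AtomF cs S₁ {i, j} δ α β)
    (h' : AtomF cs S₁ {i, j} δ α' β') : α = α' ∧ β = β' := by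
  have hij : i ≠ j := by
    intro e
    rw [e, M.diagonal] at h3
    omega
  have hs := M.symmetric i j
  rcases S02_form hO h3 h rfl with ⟨a1, a2, a3⟩ | ⟨k, hk, hM, a1, a2, a3⟩ | ⟨k, hk, hM, a1, a2, a3⟩ <;>
    rcases S02_form hO h3 h' rfl with ⟨b1, b2, b3⟩ | ⟨l, hl, hN, b1, b2, b3⟩ |
      ⟨l, hl, hN, b1, b2, b3⟩
  · exact ⟨a2.trans b2.symm, a3.trans b3.symm⟩
  · exfalso
    have h5 := len_al cs hij (k := M i j) (Or.inl le_rfl)
    have h6 := len_al cs hij (k := 2 * l - 1) (Or.inl (by omega))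
    rw [← a1, b1, h6] at h5
    omega
  · exfalso
    have h5 := len_al cs hij (k := M i j) (Or.inl le_rfl)
    have h6 := len_al cs hij.symm (k := 2 * l - 1) (Or.inl (by omega))
    rw [← a1, b1, h6] at h5
    omega
  · exfalso
    have h5 := len_al cs hij (k := M i j) (Or.inl le_rfl)
    have h6 := len_al cs hij (k := 2 * k - 1) (Or.inl (by omega))
    rw [← b1, a1, h6] at h5
    omega
  · have e : k = l := by omega
    subst e
    exact ⟨a2.trans b2.symm, a3.trans b3.symm⟩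
  · exfalso
    have e : k = l := by omega
    subst e
    exact al_ne cs hij (k := 2 * k - 1) (l := 2 * k - 1) (by omega) (Or.inl (by omega))
      (Or.inl (by omega)) (a1.symm.trans b1)
  · exfalso
    have h5 := len_al cs hij (k := M i j) (Or.inl le_rfl)
    have h6 := len_al cs hij.symm (k := 2 * k - 1) (Or.inl (by omega))
    rw [← b1, a1, h6] at h5
    omega
  · exfalso
    have e : k = l := by omega
    subst e
    exact al_ne cs hij (k := 2 * k - 1) (l := 2 * k - 1) (by omega) (Or.inl (by omega))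
      (Or.inl (by omega)) (b1.symm.trans a1)
  · have e : k = l := by omega
    subst e
    exact ⟨a2.trans b2.symm, a3.trans b3.symm⟩

theorem spf_unique (hO : ∀ i j : B, Odd (M i j) → (i ∈ S₁ ↔ j ∈ S₁)) {J : Set B} {δ : W}
    {α β α' β' : ℤ} (h : SpF cs S₁ J δ α β) (h' : SpF cs S₁ J δ α' β') : α = α' ∧ β = β' := by
  induction h generalizing α' β' with
  | nil =>
    obtain ⟨_, e1, e2⟩ := S02_empty h' rfl
    exact ⟨e1.symm, e2.symm⟩
  | @cons J₁ K₁ a ε α₀ β₀ α₁ β₁ ha hb hc ih =>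
    obtain ⟨δ₁, δ₂, u₁, v₁, u₂, v₂, h1, h2, e1, e2, e3⟩ := spf_split hc h' subset_rfl
    rw [Set.union_inter_cancel_left] at h1
    rw [Set.union_inter_cancel_right] at h2
    obtain ⟨f1, f2⟩ := cm_uniq cs hc (S02_atom_mem ha) (spf_mem hb) (spf_mem h1) (spf_mem h2) e1
    rw [← f1] at h1
    rw [← f2] at h2
    obtain ⟨g1, g2⟩ := ih h2
    have h4 : SpF cs S₁ J₁ a α₀ β₀ := by
      have h5 := SpF.cons ha SpF.nil
        (fun j _ k hk => absurd hk (Set.notMem_empty k) : Cm M J₁ ∅)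
      rw [Set.union_empty, mul_one, add_zero, add_zero] at h5
      exact h5
    have h6 : α₀ = u₁ ∧ β₀ = v₁ := by
      rcases S02_dih ha with ⟨c, hcc⟩ | ⟨c, d, h3, hcc⟩
      · obtain ⟨k1, k2⟩ := S02_single h4 hcc
        obtain ⟨l1, l2⟩ := S02_single h1 hcc
        exact ⟨k1.trans l1.symm, k2.trans l2.symm⟩
      · exact S02_atom_unique hO h3 (S02_pair h3 h4 hcc) (S02_pair h3 h1 hcc)
    rw [e2, e3, g1, g2, h6.1, h6.2]
    exact ⟨rfl, rfl⟩

end Pool.Agent.Lib.KLT
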