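import Pool.Agent.Lib.MP_754fa1_al.T.S03d
import Pool.Agent.Lib.MP_754fa1_al.T.S02
import Pool.Agent.Lib.MP_754fa1_al.T.A04

/-!
# S03. One functional for two weights

`x` tight for `L = wt S₁ a b` and for `L' = wt S₁ a' b'` (`a, b, a', b' > 0`). Then there are `J, δ, α, β` with `SpF J δ α β`, `Fac δ x`, `av_L x = α a + β b`, `av_{L'} x = α a' + β b'`.
Proof: `tgt_form` for both: `x = δ y = δ₂ y₂`, `SpV_L J δ (av_L x)`, `SpV_{L'} J₂ δ₂ (av_{L'} x)`. `sub_J` twice: `J₂ = J`. `lm_uniq`: `δ = δ₂`. `spv_spf` for both: `SpF J δ α β`, `SpF J δ α' β'`, and `spf_unique`.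
-/

open Pool.Agent.Lib.MP_754fa1_al

namespace Pool.Agent.Lib.KLT

universe u v w

variable {B : Type u} {W : Type v} [Group W] {M : CoxeterMatrix B}
variable [Finite B] {cs : CoxeterSystem M W} {S₁ : Set B}

omit [Finite B] in
private theorem S03_pos {a b : ℕ} (ha : 0 < a) (hb : 0 < b) (i : B) : 0 < wt S₁ a b i := by
  unfold wt
  by_cases h : i ∈ S₁
  · rw [if_pos h]
    exact ha
  · rw [if_neg h]
    exact hb

theorem common_functional (hM : Tri M) (hO : ∀ i j : B, Odd (M i j) → (i ∈ S₁ ↔ j ∈ S₁))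
    {a b a' b' : ℕ} (ha : 0 < a) (hb : 0 < b) (ha' : 0 < a') (hb' : 0 < b') {x : W}
    (h : Tgt cs (wt S₁ a b) x) (h' : Tgt cs (wt S₁ a' b') x) :
    ∃ (J : Set B) (δ : W) (α β : ℤ), SpF cs S₁ J δ α β ∧ Fac cs δ x ∧
      (av cs (wt S₁ a b) x : ℤ) = α * a + β * b ∧
      (av cs (wt S₁ a' b') x : ℤ) = α * a' + β * b' := by
  have hL : ∀ i, 0 < wt S₁ a b i := S03_pos ha hb
  have hL' : ∀ i, 0 < wt S₁ a' b' i := S03_pos ha' hb'
  have hE := oddEq_wt hO a b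
  have hE' := oddEq_wt hO a' b'
  obtain ⟨J, δ, y, h1, e1, hy⟩ := tgt_form hL h
  obtain ⟨J₂, δ₂, y₂, h2, e2, hy₂⟩ := tgt_form hL' h'
  have e : δ * y = δ₂ * y₂ := e1.symm.trans e2
  have s1 : J₂ ⊆ J := sub_J hL hE hL' hM h1 hy (by rw [← e1]) (by rw [← e1]; exact h) h2 hy₂ e (by rw [← e2])
  have s2 : J ⊆ J₂ := sub_J hL' hE' hL hM h2 hy₂ (by rw [← e2]) (by rw [← e2]; exact h') h1 hy e.symm (by rw [← e1])
  have s3 : J₂ = J := Set.Subset.antisymm s1 s2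
  subst s3
  obtain ⟨e3, _⟩ := lm_uniq cs hy hy₂ (spv_mem h1) (spv_mem h2) e
  rw [← e3] at h2
  obtain ⟨α, β, f1, g1⟩ := spv_spf h1
  obtain ⟨α', β', f2, g2⟩ := spv_spf h2
  obtain ⟨q1, q2⟩ := spf_unique hO f1 f2
  subst q1 q2
  refine ⟨J₂, δ, α, β, f1, ?_, g1, g2⟩
  rw [e1]
  exact fac_left cs (lm_len cs hy (spv_mem h1))

end Pool.Agent.Lib.KLT
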