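import Pool.Agent.Lib.MP_754fa1_al.T.C07
import Pool.Agent.Lib.MP_754fa1_al.T.C05b

/-!
# T01. Spherical subsets under `Tri`

`tri_partner`: `M i k ≠ 0` (`hJ`), `M i k ≠ 1` (`M.off_diagonal`). If `3 ≤ M i k` then `hM k i j` with
`3 ≤ M k i`, `3 ≤ M i j` gives `M k j = 0`, against `hJ`. So `M i k = 2`; the same with `i, j` exchanged.

`sph_cases`: if `i` has no `j ∈ J` with `3 ≤ M i j` then `M i k = 2` for all `k ∈ J`, `k ≠ i`. Otherwise `tri_partner`.

`sph_induction`: induction on the cardinality of `J` (`Finite B`): `J = ∅`: `h0`. Else take `i ∈ J` and use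
`sph_cases`: `J = {i} ∪ (J \ {i})` or `J = {i, j} ∪ (J \ {i, j})`.

`sph_union`: for `i ∈ J`, `j ∈ K` the label is `2`; `M.symmetric`.
-/

open Pool.Agent.Lib.MP_754fa1_al

namespace Pool.Agent.Lib.KLT

universe u v w

variable {B : Type u} {W : Type v} [Group W] {M : CoxeterMatrix B}

/-- `J` is a point or an edge with finite label `≥ 3` -/
def Dih (M : CoxeterMatrix B) (J : Set B) : Prop :=
  (∃ c, J = {c}) ∨ ∃ c d, 3 ≤ M c d ∧ J = {c, d}

/-- case A: `x = x₁ p`, `y = q y₁`, `p, q ∈ W_{J'}`, `J'` commutes with `J`, `p q` not reduced -/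
def CaseA (cs : CoxeterSystem M W) (J : Set B) (x y : W) : Prop :=
  ∃ (J' : Set B) (x₁ p q y₁ : W), Dih M J' ∧ Cm M J' J ∧ x = x₁ * p ∧ RM cs J' x₁ ∧
    p ∈ WP cs J' ∧ y = q * y₁ ∧ LM cs J' y₁ ∧ q ∈ WP cs J' ∧ ¬ Rd cs p q

/-- case B: `s ∈ J`, `r ∉ J`, `3 ≤ m r s`, `{r, s}` commutes with `J \ {s}`, `x = x₁ p`, `y = q y₁`,
`p, q ∈ W_{r s}` and `p s q` not reduced -/
def CaseB (cs : CoxeterSystem M W) (J : Set B) (x y : W) : Prop :=
  ∃ (r s : B) (x₁ p q y₁ : W), s ∈ J ∧ r ∉ J ∧ 3 ≤ M r s ∧ Cm M {r, s} (J \ {s}) ∧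
    x = x₁ * p ∧ RM cs {r, s} x₁ ∧ p ∈ WP cs {r, s} ∧ y = q * y₁ ∧ LM cs {r, s} y₁ ∧
    q ∈ WP cs {r, s} ∧ ¬ Rd cs (p * cs.simple s) q

theorem ne_of_three {i j : B} (h : 3 ≤ M i j) : i ≠ j := by
  rintro rfl
  rw [M.diagonal] at h
  omega

theorem tri_partner (hM : Tri M) {J : Set B} (hJ : Sph M J) {i j k : B} (hi : i ∈ J)
    (hj : j ∈ J) (hk : k ∈ J) (hij : 3 ≤ M i j) (hki : k ≠ i) (hkj : k ≠ j) :
    M i k = 2 ∧ M j k = 2 := by
  have hne : i ≠ j := ne_of_three hij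
  constructor
  · have h0 : M i k ≠ 0 := hJ i hi k hk
    have h1 : M i k ≠ 1 := M.off_diagonal i k hki.symm
    by_contra h2
    have h3 : 3 ≤ M k i := by
      rw [M.symmetric k i]; omega
    exact hJ k hk j hj (hM k i j hki hne hkj h3 hij)
  · have h0 : M j k ≠ 0 := hJ j hj k hk
    have h1 : M j k ≠ 1 := M.off_diagonal j k hkj.symm
    by_contra h2
    have h3 : 3 ≤ M k j := by
      rw [M.symmetric k j]; omega
    have h4 : 3 ≤ M j i := by
      rw [M.symmetric j i]; exact hij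
    exact hJ k hk i hi (hM k j i hkj hne.symm hki h3 h4)

theorem sph_cases (hM : Tri M) {J : Set B} (hJ : Sph M J) {i : B} (hi : i ∈ J) :
    Cm M {i} (J \ {i}) ∨ ∃ j ∈ J, 3 ≤ M i j ∧ Cm M {i, j} (J \ {i, j}) := by
  by_cases h : ∃ j ∈ J, 3 ≤ M i j
  · obtain ⟨j, hj, hij⟩ := h
    refine Or.inr ⟨j, hj, hij, ?_⟩
    intro a ha k hk
    have hk1 : k ≠ i := fun e => hk.2 (Or.inl e)
    have hk2 : k ≠ j := fun e => hk.2 (Or.inr e)
    obtain ⟨h1, h2⟩ := tri_partner hM hJ hi hj hk.1 hij hk1 hk2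
    rcases ha with e | e
    · rw [e]; exact h1
    · rw [Set.mem_singleton_iff.1 e]; exact h2
  · refine Or.inl ?_
    intro a ha k hk
    rw [Set.mem_singleton_iff.1 ha]
    have hki : k ≠ i := fun e => hk.2 e
    have h0 : M i k ≠ 0 := hJ i hi k hk.1
    have h1 : M i k ≠ 1 := M.off_diagonal i k hki.symm
    by_contra h2
    exact h ⟨k, hk.1, by omega⟩

theorem sph_mono {J K : Set B} (h : Sph M J) (hK : K ⊆ J) : Sph M K :=
  fun i hi j hj => h i (hK hi) j (hK hj)

theorem sph_union {J K : Set B} (hJ : Sph M J) (hK : Sph M K) (hc : Cm M J K) :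
    Sph M (J ∪ K) := by
  rintro i (hi | hi) j (hj | hj)
  · exact hJ i hi j hj
  · rw [hc i hi j hj]; omega
  · rw [M.symmetric i j, hc j hj i hi]; omega
  · exact hK i hi j hj

theorem sph_dih {J : Set B} (h : Dih M J) : Sph M J := by
  rcases h with ⟨c, rfl⟩ | ⟨c, d, hcd, rfl⟩
  · intro i hi j hj
    rw [Set.mem_singleton_iff.1 hi, Set.mem_singleton_iff.1 hj, M.diagonal]
    omega
  · rintro i (rfl | hi) j (rfl | hj)
    · rw [M.diagonal]; omega
    · rw [Set.mem_singleton_iff.1 hj]; omega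
    · rw [Set.mem_singleton_iff.1 hi, M.symmetric d j]; omega
    · rw [Set.mem_singleton_iff.1 hi, Set.mem_singleton_iff.1 hj, M.diagonal]; omega

theorem sph_induction [Finite B] (hM : Tri M) {P : Set B → Prop} (h0 : P ∅)
    (h1 : ∀ (i : B) (J : Set B), Sph M J → Cm M {i} J → P J → P ({i} ∪ J))
    (h2 : ∀ (i j : B) (J : Set B), Sph M J → 3 ≤ M i j → Cm M {i, j} J → P J → P ({i, j} ∪ J))
    (J : Set B) (hJ : Sph M J) : P J := by
  have key : ∀ (n : ℕ) (J : Set B), J.ncard ≤ n → Sph M J → P J := by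
    intro n
    induction n with
    | zero =>
      intro J hn _
      have : J = ∅ := (Set.ncard_eq_zero (Set.toFinite J)).1 (Nat.le_zero.1 hn)
      rw [this]; exact h0
    | succ n ih =>
      intro J hn hJ
      rcases J.eq_empty_or_nonempty with rfl | ⟨i, hi⟩
      · exact h0
      · rcases sph_cases hM hJ hi with hc | ⟨j, hj, hij, hc⟩
        · have hsub : J \ {i} ⊂ J :=
            ⟨Set.sdiff_subset, fun h => (h hi).2 rfl⟩
          have hlt : (J \ {i}).ncard < J.ncard := Set.ncard_lt_ncard hsub (Set.toFinite J)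
          have hS : Sph M (J \ {i}) := sph_mono hJ Set.sdiff_subset
          have hP := h1 i (J \ {i}) hS hc (ih _ (by omega) hS)
          have e : {i} ∪ (J \ {i}) = J := Set.union_sdiff_cancel (Set.singleton_subset_iff.2 hi)
          rw [e] at hP
          exact hP
        · have hss : ({i, j} : Set B) ⊆ J := by
            rintro a (rfl | ha)
            · exact hi
            · rw [Set.mem_singleton_iff.1 ha]; exact hj
          have hsub : J \ {i, j} ⊂ J :=
            ⟨Set.sdiff_subset, fun h => (h hi).2 (Or.inl rfl)⟩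
          have hlt : (J \ {i, j}).ncard < J.ncard := Set.ncard_lt_ncard hsub (Set.toFinite J)
          have hS : Sph M (J \ {i, j}) := sph_mono hJ Set.sdiff_subset
          have hP := h2 i j (J \ {i, j}) hS hij hc (ih _ (by omega) hS)
          have e : {i, j} ∪ (J \ {i, j}) = J := Set.union_sdiff_cancel hss
          rw [e] at hP
          exact hP
  exact key _ J le_rfl hJ

end Pool.Agent.Lib.KLT
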