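import Pool.Agent.Lib.MP_754fa1_al.T.A03b
import Pool.Agent.Lib.MP_754fa1_al.T.T01

/-!
# S03a. The left descents of a tight element

`u = δ y` reduced, `SpV J δ n`, `LM J y`, `av u = n` (`L > 0`, `OddEq`, `Tri`). Claim: a left descent `c` of `u` is a left descent of `δ`.
Proof. `c ∈ J`: `ld_lm_iff` (`δ ∈ WP J`). Let `c ∉ J`. `spt δ = J` (`spv_spt`). `peel_left` (`δ y` reduced by `lm_len`): `c` is a left descent of `y` and `M c e ≠ 0` for `e ∈ J`. `M c e ≠ 1`.
* `M c e = 2` for all `e ∈ J`: `δ s_c` has `SpV ({c} ∪ J) (s_c δ) (L c + n)` (`cons`, `one`; `s_c δ = δ s_c`), and it is a factor of `u = δ s_c (s_c y)`; so `av u ≥ n + L c > n` (`spv_le_av`).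
* `3 ≤ M c s`, `s ∈ J`: as in T03a: for `e ∈ J`, `e ≠ s`: `M s e = 2` (`3 ≤ M s e` would give `M c e = 0`) and `M c e = 2` (`3 ≤ M c e` would give `M s e = 0`, against `spv_sph`). `spv_iso`: `δ = s_s δ'`, `SpV K δ' n'`, `K = J \ {s}`, `n = L s + n'`. `δ = δ' s_s` (`cm_comm`), `u = δ' (s_s y)` reduced. `c ∉ spt δ' ⊆ K`, so `peel_left` : `c` is a
  left descent of `s_s y`; `s` too (`s_s y` is reduced). `two_ld`: `s_s y = w₀ y'` reduced, `w₀ = al s c m`, `m = M s c`. So `δ' w₀` is a factor of `u`, with `SpV ({s, c} ∪ K) (w₀ δ') (sl L s c m + n')`, and `sl L s c m > L s` (`sl_lt`: `sl L s c 1 = L s`), a contradiction.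
-/

open Pool.Agent.Lib.MP_754fa1_al

namespace Pool.Agent.Lib.KLT

universe u v w

variable {B : Type u} {W : Type v} [Group W] {M : CoxeterMatrix B}
variable [Finite B] {cs : CoxeterSystem M W} {L : B → ℕ}

theorem tight_ld (hL : ∀ i, 0 < L i) (hM : Tri M) {J : Set B} {δ y : W} {n : ℕ}
    (h : SpV cs L J δ n) (hy : LM cs J y) (ha : av cs L (δ * y) = n) (c : B) :
    cs.IsLeftDescent (δ * y) c ↔ cs.IsLeftDescent δ c := by
  have hδ : δ ∈ WP cs J := spv_mem h
  by_cases hcJ : c ∈ J
  · exact ld_lm_iff cs hy hδ hcJ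
  have hr : Rd cs δ y := lm_len cs hy hδ
  constructor
  swap
  · intro h1
    exact absurd (ld_wp cs hδ h1) hcJ
  intro hd
  exfalso
  obtain ⟨h1, h2⟩ := peel_left cs hr (by rw [spv_spt h]; exact hcJ) hd
  rw [spv_spt h] at h2
  have hne : ∀ e ∈ J, c ≠ e := fun e he hce => hcJ (hce ▸ he)
  have hne1 : ∀ e ∈ J, M c e ≠ 1 := fun e he => M.off_diagonal c e (hne e he)
  have ly := cs.isLeftDescent_iff.1 h1
  have lr : cs.length (δ * y) = cs.length δ + cs.length y := hr
  by_cases hall : ∀ e ∈ J, M c e = 2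
  · have hcm : Cm M {c} J := by
      rintro j rfl k hk
      exact hall k hk
    have hs := SpV.cons (Atom.one (cs := cs) (L := L) c) h hcm
    have hcc : cs.simple c ∈ WP cs {c} := (simple_mem_wp cs).2 rfl
    have hcom := cm_comm cs hcm hcc hδ
    have hrd : cs.length (cs.simple c * δ) = cs.length (cs.simple c) + cs.length δ :=
      cm_rd cs hcm hcc hδ
    rw [cs.length_simple] at hrd
    have e1 : δ * y = (cs.simple c * δ) * (cs.simple c * y) := by
      rw [hcom, mul_assoc, cs.simple_mul_simple_cancel_left]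
    have hf : Fac cs (cs.simple c * δ) (δ * y) := by
      rw [e1]
      apply fac_left
      unfold Rd
      rw [← e1]
      omega
    have h3 := spv_le_av cs L hs hf
    have h4 := hL c
    rw [ha] at h3
    omega
  · push Not at hall
    obtain ⟨s, hs, hs2⟩ := hall
    have hcs : 3 ≤ M c s := by
      have a1 := h2 s hs
      have a2 := hne1 s hs
      omega
    have hse : ∀ e ∈ J, e ≠ s → M s e = 2 := by
      intro e he hes
      have a1 := spv_sph h s hs e he
      have a2 := M.off_diagonal s e hes.symm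
      have a3 : ¬ 3 ≤ M s e := fun h3 =>
        h2 e he (hM c s e (hne s hs) hes.symm (hne e he) hcs h3)
      omega
    have hce : ∀ e ∈ J, e ≠ s → M c e = 2 := by
      intro e he hes
      have a1 := h2 e he
      have a2 := hne1 e he
      have a3 : ¬ 3 ≤ M c e := by
        intro h3
        have a4 := hM s c e (hne s hs).symm (hne e he) hes.symm
          (by rw [M.symmetric]; exact hcs) h3
        have a5 := hse e he hes
        omega
      omega
    have hcm : Cm M {c, s} (J \ {s}) := by
      intro j hj k hk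
      rcases hj with rfl | rfl
      · exact hce k hk.1 hk.2
      · exact hse k hk.1 hk.2
    have hcms : Cm M {s} (J \ {s}) := cm_mono hcm (by simp) (le_refl _)
    obtain ⟨δ', n', eδ, h', en⟩ := spv_iso h hs hcms
    have hδ' : δ' ∈ WP cs (J \ {s}) := spv_mem h'
    have hss : cs.simple s ∈ WP cs ({s} : Set B) := (simple_mem_wp cs).2 rfl
    have hcom : cs.simple s * δ' = δ' * cs.simple s := cm_comm cs hcms hss hδ'
    have l1 : cs.length (cs.simple s * δ') = cs.length (cs.simple s) + cs.length δ' :=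
      cm_rd cs hcms hss hδ'
    rw [← eδ, cs.length_simple] at l1
    have lsy : cs.length (cs.simple s * y) = cs.length y + 1 :=
      (cs.not_isLeftDescent_iff).1 (hy s hs)
    have e1 : δ * y = δ' * (cs.simple s * y) := by rw [eδ, hcom, mul_assoc]
    have hr1 : Rd cs δ' (cs.simple s * y) := by
      unfold Rd
      rw [← e1]
      omega
    have hcn : c ∉ spt cs δ' := by
      rw [spv_spt h']
      exact fun h5 => hcJ h5.1
    obtain ⟨h3, -⟩ := peel_left cs hr1 hcn (by rw [← e1]; exact hd)
    have h4 : cs.IsLeftDescent (cs.simple s * y) s := by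
      unfold CoxeterSystem.IsLeftDescent
      rw [cs.simple_mul_simple_cancel_left]
      omega
    obtain ⟨hm0, y', ey, hry⟩ := two_ld cs (i := s) (j := c) (hne s hs).symm h4 h3
    have hsc : 3 ≤ M s c := by
      rw [M.symmetric]
      exact hcs
    have h5 : Atom cs L {s, c} (al cs s c (M s c)) (sl L s c (M s c)) := Atom.full s c hsc
    have hcm' : Cm M {s, c} (J \ {s}) := by
      rw [Set.pair_comm]
      exact hcm
    have h6 := SpV.cons h5 h' hcm'
    have hw := al_mem cs s c (M s c)
    have hcom' := cm_comm cs hcm' hw hδ'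
    have hrd : cs.length (al cs s c (M s c) * δ') =
      cs.length (al cs s c (M s c)) + cs.length δ' := cm_rd cs hcm' hw hδ'
    have hry' : cs.length (al cs s c (M s c) * y') =
      cs.length (al cs s c (M s c)) + cs.length y' := hry
    have e2 : δ * y = (al cs s c (M s c) * δ') * y' := by
      rw [hcom', mul_assoc, ← ey, e1]
    have hf : Fac cs (al cs s c (M s c) * δ') (δ * y) := by
      rw [e2]
      apply fac_left
      unfold Rd
      rw [← e2, hrd]
      rw [← ey] at hry'
      omega
    have h7 := spv_le_av cs L h6 hf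
    have h8 := sl_lt hL s c (k := 1) (l := M s c) (by omega)
    have h9 : sl L s c 1 = L s := rfl
    rw [ha] at h7
    omega

end Pool.Agent.Lib.KLT
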