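import Pool.Agent.Lib.MP_754fa1_al.T.A03b

/-!
# S03b. A non-descent in the support of a special element

`SpV J δ n`, `j ∈ J` not a left descent of `δ`. Then there are `i ∈ J`, `k ≥ 2`, with `M i j = 2 k`, `L j < L i`, `{i, j}` commuting with `J \ {i, j}`, `δ = al i j (2k-1) * δ'`, `δ' ∈ WP (J \ {i, j})`. Induction on `SpV`, as in `upgrade` (A03b). `cons` (atom `α` on `J₁`, rest `ε` on `K₁`).
`j ∈ J₁`: `α` is `mid i j k` (the other atoms have all elements of the support as left descents, `pair_top_rd`; for `mid i' j' k`, `i'` is a left descent, so `j = j'`); `J₁ = {i, j}`, `δ' = ε`, `J \ {i, j} = K₁` (`cm_disj`).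
`j ∈ K₁`: `j` is not a left descent of `ε` (`cm_ld_iff`), induction: `ε = al i j (2k-1) ε'`; `δ = α ε = al i j (2k-1) (α ε')` (`cm_comm`), `J \ {i, j} = J₁ ∪ (K₁ \ {i, j})`, `Cm {i, j} J₁` as `i, j ∈ K₁`.
-/

open Pool.Agent.Lib.MP_754fa1_al

namespace Pool.Agent.Lib.KLT

universe u v w

variable {B : Type u} {W : Type v} [Group W] {M : CoxeterMatrix B}

theorem spv_mid_of_nd {cs : CoxeterSystem M W} {L : B → ℕ} {J : Set B} {δ : W} {n : ℕ}
    (h : SpV cs L J δ n) {j : B} (hj : j ∈ J) (hd : ¬ cs.IsLeftDescent δ j) :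
    ∃ (i : B) (k : ℕ) (δ' : W), i ∈ J ∧ 2 ≤ k ∧ M i j = 2 * k ∧ L j < L i ∧
      Cm M {i, j} (J \ {i, j}) ∧ δ = al cs i j (2 * k - 1) * δ' ∧ δ' ∈ WP cs (J \ {i, j}) := by
  induction h with
  | nil => exact absurd hj (Set.notMem_empty j)
  | @cons J₁ K α ε a m h₁ h' hc ih =>
    have hα : α ∈ WP cs J₁ := spv_mem (atom_spv h₁)
    have hε : ε ∈ WP cs K := spv_mem h'
    have hdis := cm_disj hc
    rw [cm_ld_iff cs hc hα hε, not_or] at hd
    rcases hj with hj | hj
    · cases h₁ with
      | one i =>
        rw [Set.mem_singleton_iff] at hj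
        subst hj
        exfalso
        apply hd.1
        show cs.length (cs.simple j * cs.simple j) < cs.length (cs.simple j)
        rw [cs.simple_mul_simple_self, cs.length_one, cs.length_simple]
        exact one_pos
      | full i i' h3 =>
        exfalso
        apply hd.1
        have h4 := pair_top_rd cs (ne_of_three h3) (show M i i' ≠ 0 by omega)
        rcases hj with rfl | hj
        · exact h4.2.2.1
        · rw [Set.mem_singleton_iff] at hj
          subst hj
          exact h4.2.2.2
      | mid i i' k hk hM hLt =>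
        have hne : i ≠ i' := ne_of_three (M := M) (show 3 ≤ M i i' by omega)
        rcases hj with rfl | hj
        · exfalso
          exact hd.1 (ld_al cs hne (by omega) (Or.inl (by omega)))
        · rw [Set.mem_singleton_iff] at hj
          subst hj
          have hK : ({i, j} ∪ K : Set B) \ {i, j} = K := by
            ext a
            constructor
            · rintro ⟨ha | ha, hb⟩
              · exact absurd ha hb
              · exact ha
            · intro ha
              exact ⟨Or.inr ha, fun hb => Set.disjoint_left.1 hdis hb ha⟩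
          refine ⟨i, k, ε, Or.inl (Or.inl rfl), hk, hM, hLt, ?_, rfl, ?_⟩
          · rw [hK]
            exact hc
          · rw [hK]
            exact hε
    · obtain ⟨i, k, ε', hi, hk, hM, hLt, hc', he, hε'⟩ := ih hj hd.2
      have hsub : ({i, j} : Set B) ⊆ K := by
        rintro a (rfl | rfl)
        · exact hi
        · exact hj
      have hJK : (J₁ ∪ K) \ {i, j} = J₁ ∪ (K \ {i, j}) := by
        ext a
        constructor
        · rintro ⟨ha | ha, hb⟩
          · exact Or.inl ha
          · exact Or.inr ⟨ha, hb⟩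
        · rintro (ha | ⟨ha, hb⟩)
          · exact ⟨Or.inl ha, fun hb => Set.disjoint_left.1 hdis ha (hsub hb)⟩
          · exact ⟨Or.inr ha, hb⟩
      have hcj : Cm M J₁ {i, j} := cm_mono hc (le_refl _) hsub
      refine ⟨i, k, α * ε', Or.inr hi, hk, hM, hLt, ?_, ?_, ?_⟩
      · rw [hJK]
        exact cm_symm (cm_union_left hcj (cm_symm hc'))
      · rw [he, ← mul_assoc, ← mul_assoc, cm_comm cs hcj hα (al_mem cs i j (2 * k - 1))]
      · rw [hJK]
        exact mul_mem (wp_mono cs Set.subset_union_left hα)
          (wp_mono cs Set.subset_union_right hε')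

end Pool.Agent.Lib.KLT
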