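import Pool.Agent.Lib.MP_754fa1_al.T.A03b

/-!
# S03c. The last step of the comparison of supports

`M i j = 2 k`, `k ≥ 2`, `q = al i j (2k-1)`, `Cm {i, j} K`, `SpV K δ' n'`, `x = δ' y₁` reduced, `x = q z` with `LM {i, j} z`, `av x = L i + n'`, `Tgt x`. This is impossible.

Proof. `x = g y'` with respect to `I = {i, j} ∪ K` (`lm_exists`), `g = g₁ g₂`, `g₁ ∈ WP {i, j}`, `g₂ ∈ WP K` (`cm_union`); `LM I y'`. `x = g₁ (g₂ y')` and `LM {i, j} (g₂ y')`: if `c ∈ {i, j}` were a left descent of `g₂ y'` (reduced, `lm_len`), then `c ∉ spt g₂ ⊆ K` (`cm_disj`), so by `peel_left` `c` is a left descent of `y'`, against `LM I y'`.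
So `g₁ = q` (`lm_uniq` for `{i, j}`). Similarly `x = g₂ (g₁ y')` with `LM K (g₁ y')`. Write `y₁ = g₃ y''` with `g₃ ∈ WP K`, `LM K y''`; `x = (δ' g₃) y''`, so `g₂ = δ' g₃` (`lm_uniq` for `K`), and `δ' g₃` is reduced (`ℓ(x) = ℓ(δ') + ℓ(g₃) + ℓ(y'') = ℓ(δ' g₃) + ℓ(y'')`). So
`x = q δ' g₃ y'` with lengths adding (`lm_len`, `cm_rd`).
(1) `q δ'` is a factor of `x`: `av q + n' = av (q δ') ≤ av x = L i + n'` (`av_cm`, `spv_av`, `spv_mem`), so `av q ≤ L i`.
(2) `s_i x = (s_i q) δ' g₃ y'`, `s_i q = al j i (2k-2)` (`al_succ`), lengths adding, is a proper suffix of `x`: `av (s_i q) + n' ≤ av (s_i x) < L i + n'` (`Tgt x`). `j ∈ spt (s_i q)` (`spt_al`), so `L j ≤ av (s_i q) < L i` (`av_ge_of_spt`).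
(3) So `av q = k L i - (k-1) L j > L i` (`av_mid`), against (1).
-/

open Pool.Agent.Lib.MP_754fa1_al

namespace Pool.Agent.Lib.KLT

universe u v w

variable {B : Type u} {W : Type v} [Group W] {M : CoxeterMatrix B}
variable [Finite B] {cs : CoxeterSystem M W} {L : B → ℕ}

theorem sub_c (hL : ∀ i, 0 < L i) (hE : OddEq M L) {i j : B} {k : ℕ} (hk : 2 ≤ k)
    (hm : M i j = 2 * k) {K : Set B} (hc : Cm M {i, j} K) {δ' x y₁ z : W} {n' : ℕ}
    (h : SpV cs L K δ' n') (e₁ : x = δ' * y₁) (r₁ : Rd cs δ' y₁)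
    (e₂ : x = al cs i j (2 * k - 1) * z) (hz : LM cs {i, j} z)
    (ha : av cs L x = L i + n') (ht : Tgt cs L x) : False := by
  have h3 : 3 ≤ M i j := by omega
  have hij : i ≠ j := ne_of_three h3
  have hδK : δ' ∈ WP cs K := spv_mem h
  have hq : al cs i j (2 * k - 1) ∈ WP cs {i, j} := al_mem cs i j _
  have hdisj := cm_disj hc
  obtain ⟨g, y', e, hy', hg⟩ := lm_exists cs ({i, j} ∪ K) x
  obtain ⟨g₁, hg₁, g₂, hg₂, rfl⟩ := (cm_union cs hc).1 hg
  obtain ⟨hy1, hy2⟩ := (lm_union cs).1 hy'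
  -- no left descents
  have hLM1 : LM cs {i, j} (g₂ * y') := by
    intro c hc' hd
    have hcs : c ∉ spt cs g₂ := fun h' =>
      Set.disjoint_left.1 hdisj hc' ((wp_iff_spt cs).1 hg₂ h')
    exact hy1 c hc' (peel_left cs (lm_len cs hy2 hg₂) hcs hd).1
  have hLM2 : LM cs K (g₁ * y') := by
    intro c hc' hd
    have hcs : c ∉ spt cs g₁ := fun h' =>
      Set.disjoint_left.1 hdisj ((wp_iff_spt cs).1 hg₁ h') hc'
    exact hy2 c hc' (peel_left cs (lm_len cs hy1 hg₁) hcs hd).1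
  obtain ⟨hgq, _⟩ := lm_uniq cs hLM1 hz hg₁ hq (by rw [← e₂, e, mul_assoc])
  obtain ⟨g₃, y'', e₃, hy'', hg₃⟩ := lm_exists cs K y₁
  have hδg : δ' * g₃ ∈ WP cs K := mul_mem hδK hg₃
  have ex2 : x = g₂ * (g₁ * y') := by
    rw [e, cm_comm cs hc hg₁ hg₂, mul_assoc]
  obtain ⟨hg2, hyy⟩ := lm_uniq cs hLM2 hy'' hg₂ hδg (by rw [← ex2, e₁, e₃, mul_assoc])
  have hrd : cs.length (δ' * g₃) = cs.length δ' + cs.length g₃ := by
    have l1 : cs.length (δ' * y₁) = cs.length δ' + cs.length y₁ := r₁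
    have l2 : cs.length (g₃ * y'') = cs.length g₃ + cs.length y'' := lm_len cs hy'' hg₃
    have l3 : cs.length (δ' * g₃ * y'') = cs.length (δ' * g₃) + cs.length y'' :=
      lm_len cs hy'' hδg
    rw [mul_assoc, ← e₃] at l3
    rw [← e₃] at l2
    omega
  -- factors
  have hfac : ∀ g₀ ∈ WP cs {i, j}, av cs L g₀ + n' ≤ av cs L (g₀ * (g₂ * y')) := by
    intro g₀ hg₀
    have l1 : cs.length (g₀ * (g₂ * y')) = cs.length g₀ + cs.length (g₂ * y') :=
      lm_len cs hLM1 hg₀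
    have l2 : cs.length (g₂ * y') = cs.length g₂ + cs.length y' := lm_len cs hy2 hg₂
    have l3 : cs.length (g₃ * y') = cs.length g₃ + cs.length y' := lm_len cs hy2 hg₃
    have l4 : cs.length (g₀ * δ') = cs.length g₀ + cs.length δ' := cm_rd cs hc hg₀ hδK
    have hf : Fac cs (g₀ * δ') (g₀ * (g₂ * y')) := by
      refine ⟨1, g₃ * y', ?_, ?_⟩
      · rw [hg2, one_mul, mul_assoc, mul_assoc]
      · rw [cs.length_one, l1, l2, l3, l4, hg2, hrd]
        omega
    have h1 := av_mono cs L hf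
    rw [av_cm cs L hc hg₀ hδK, spv_av hE h] at h1
    exact h1
  have ex1 : x = al cs i j (2 * k - 1) * (g₂ * y') := by rw [e, hgq, mul_assoc]
  have hav1 := hfac _ hq
  rw [← ex1, ha] at hav1
  -- the proper suffix
  have hdq : cs.IsLeftDescent (al cs i j (2 * k - 1)) i :=
    ld_al cs hij (by omega) (Or.inl (by omega))
  have hdx : cs.IsLeftDescent x i := by
    rw [ex1]
    exact (ld_lm_iff cs hLM1 hq (by simp)).2 hdq
  have hne : cs.simple i * x ≠ x := by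
    intro h0
    have h1 := cs.isLeftDescent_iff.1 hdx
    rw [h0] at h1
    omega
  have hlt := ht _ (suf_simple cs hdx) hne
  have hal : al cs i j (2 * k - 1) = cs.simple i * al cs j i (2 * k - 2) := by
    have h1 : 2 * k - 1 = (2 * k - 2) + 1 := by omega
    rw [h1, al_succ]
  have hq' : al cs j i (2 * k - 2) ∈ WP cs {i, j} := by
    rw [Set.pair_comm]; exact al_mem cs j i _
  have ex3 : cs.simple i * x = al cs j i (2 * k - 2) * (g₂ * y') := by
    rw [ex1, hal, mul_assoc, cs.simple_mul_simple_cancel_left]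
  have hav2 := hfac _ hq'
  rw [← ex3] at hav2
  have hspt : spt cs (al cs j i (2 * k - 2)) = {j, i} :=
    spt_al cs hij.symm (by omega) (Or.inl (by rw [M.symmetric j i]; omega))
  have hLj : L j ≤ av cs L (al cs j i (2 * k - 2)) :=
    av_ge_of_spt cs L (by rw [hspt]; simp)
  have hlt' : L j < L i := by omega
  rw [av_mid cs L hE hk hm hlt'] at hav1
  obtain ⟨l, rfl⟩ : ∃ l, k = l + 1 := ⟨k - 1, by omega⟩
  rw [Nat.add_sub_cancel] at hav1
  have h5 : l * L j < l * L i := Nat.mul_lt_mul_of_pos_left hlt' (by omega)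
  have h6 : (l + 1) * L i = l * L i + L i := by ring
  omega

end Pool.Agent.Lib.KLT
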