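import Pool.Agent.Lib.MP_754fa1_al.T.S03a
import Pool.Agent.Lib.MP_754fa1_al.T.S03b
import Pool.Agent.Lib.MP_754fa1_al.T.S03c

/-!
# S03d. Comparison of supports

`x = δ y`, `SpV_L J δ n`, `LM J y`, `av_L x = n`, `Tgt_L x`, and `x = δ₂ y₂`, `SpV_{L'} J₂ δ₂ n₂`, `LM J₂ y₂`, `av_{L'} x = n₂`. Claim `J₂ ⊆ J`.

By `tight_ld` (twice) `δ`, `δ₂`, `x` have the same left descents. Let `j ∈ J₂`. If `j` is a left descent of `δ₂`, it is one of `δ`, so `j ∈ J` (`ld_wp`). Otherwise `spv_mid_of_nd` (for `L'`): `i ∈ J₂`, `M i j = 2 k ≥ 4`, `δ₂ = q δ₂'`, `q = al i j (2k-1)`, `δ₂' ∈ WP (J₂ \ {i, j})`, `Cm {i, j} (J₂ \ {i, j})`.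
`i` is a left descent of `δ₂` (`ld_al`, `cm_rd`: `q δ₂'` is reduced), so of `δ`, so `i ∈ J`. `j` is a left descent of `s_i x` (`s_i x = al j i (2k-2) (δ₂' y₂)`, `x = q (δ₂' y₂)` reduced). Suppose `j ∉ J`.
(a) Some `e ∈ J`, `e ≠ i`, has `3 ≤ M i e`. `e ≠ j` as `j ∉ J`. `M j e = 0` (`hM j i e`). If `e` is a left descent of `δ`: then of `δ₂`, `e ∈ J₂`, against `spv_sph h₂`. If not: `spv_mid_of_nd` for `δ`, `e`: `i' ∈ J`, `δ = al i' e (2k'-1) δ'`, `Cm {i', e} (J \ {i', e})`; `i' = i`, since otherwise `i ∈ J \ {i', e}` and `M e i = 2`. So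
`s_i δ = al e i (2k'-2) δ'` and `e` is a left descent of `s_i δ` and of `s_i x = (s_i δ) y` (reduced). So `e ≠ j` are left descents of `s_i x`, `M e j ≠ 0` (`two_ld`), a contradiction.
(b) So `M i e = 2` for all `e ∈ J`, `e ≠ i` (`spv_sph h`, `M.off_diagonal`). `K = J \ {i}`. Claim: `M j e = 2` for all `e ∈ K`. First case: `e` a left descent of `δ`: then of `δ₂`, `e ∈ J₂`, `e ≠ i`, `e ≠ j`, so `M j e = 2` (`Cm {i, j} (J₂ \ {i, j})`). Second case: `spv_mid_of_nd` for `δ`, `e`: partner `f`, `4 ≤ M f e`,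
`δ = al f e (..) δ''`; `f ≠ i` as `M i e = 2`; `f` is a left descent of `δ`, so `f ∈ K` and `M j f = 2` by the first case. `e` is a left descent of `s_f δ`, so of `s_f x`. `i`, `f` are left descents of `x`, `M i f = 2`, `s_i s_f = s_f s_i`. `j`, `f` are left descents of `s_i x` (`two_ld_step` for `f`), `j ≠ f`, so `j` is a left
descent of `s_f s_i x` (`two_ld_step`). `e`, `i` are left descents of `s_f x`, so `e` is a left descent of `s_i s_f x = s_f s_i x`. `e ≠ j`. So `M e j ≠ 0` (`two_ld`). `3 ≤ M e j` would give `M f j = 0` (`hM f e j`), a contradiction. So `M e j = 2`.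
(c) So `Cm {i, j} K`. `spv_iso` (`Cm {i} (J \ {i})`): `δ = s_i δ'`, `SpV K δ' n'`, `n = L i + n'`. `x = δ' (s_i y)` reduced (`s_i δ' = δ' s_i`, lengths), `x = q (δ₂' y₂)` with `LM {i, j} (δ₂' y₂)`: a left descent `c ∈ {i, j}` of `δ₂' y₂` (reduced: `lm_len`) is not in `spt δ₂'`, so by `peel_left` a left descent of `y₂`, against `LM J₂ y₂`.
`sub_c` gives a contradiction.
-/

open Pool.Agent.Lib.MP_754fa1_al

namespace Pool.Agent.Lib.KLT

universe u v w

variable {B : Type u} {W : Type v} [Group W] {M : CoxeterMatrix B}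
private theorem sj_ld (cs : CoxeterSystem M W) {a b : W} {c : B} (h : Rd cs a b)
    (hd : cs.IsLeftDescent a c) : cs.IsLeftDescent (a * b) c := by
  have h1 : cs.length (cs.simple c * a) < cs.length a := hd
  have h2 := cs.length_mul_le (cs.simple c * a) b
  have h3 : cs.length (a * b) = cs.length a + cs.length b := h
  show cs.length (cs.simple c * (a * b)) < cs.length (a * b)
  rw [← mul_assoc]
  omega

private theorem sj_len (cs : CoxeterSystem M W) {a : W} {c : B} (hd : cs.IsLeftDescent a c) :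
    cs.length (cs.simple c * a) + 1 = cs.length a := by
  have h1 : cs.length (cs.simple c * a) < cs.length a := hd
  have h2 := cs.length_simple_mul a c
  omega

private theorem sj_rd (cs : CoxeterSystem M W) {a b : W} {c : B} (h : Rd cs a b)
    (hd : cs.IsLeftDescent a c) : Rd cs (cs.simple c * a) b := by
  have h1 := sj_len cs hd
  have h2 := sj_len cs (sj_ld cs h hd)
  have h3 : cs.length (a * b) = cs.length a + cs.length b := h
  unfold Rd
  rw [mul_assoc]
  omega

/-- `δ = al i j (2k-1) δ'` with commuting supports: `i` is a left descent of `δ`, and `j` one of `s_i δ` -/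
private theorem sj_mid (cs : CoxeterSystem M W) {i j : B} {k : ℕ} (hk : 2 ≤ k)
    (hm : M i j = 2 * k) {K : Set B} (hc : Cm M {i, j} K) {δ δ' : W}
    (e : δ = al cs i j (2 * k - 1) * δ') (hδ' : δ' ∈ WP cs K) :
    cs.IsLeftDescent δ i ∧ cs.IsLeftDescent (cs.simple i * δ) j := by
  have hij : i ≠ j := ne_of_three (M := M) (show 3 ≤ M i j by omega)
  have hq : al cs i j (2 * k - 1) ∈ WP cs {i, j} := al_mem cs i j _
  have hr : Rd cs (al cs i j (2 * k - 1)) δ' := cm_rd cs hc hq hδ'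
  have hi : cs.IsLeftDescent (al cs i j (2 * k - 1)) i := ld_al cs hij (by omega) (Or.inl (by omega))
  have h1 : cs.simple i * al cs i j (2 * k - 1) = al cs j i (2 * k - 2) := by
    obtain ⟨l, hl⟩ : ∃ l, 2 * k - 1 = l + 1 := ⟨2 * k - 2, by omega⟩
    have hl' : 2 * k - 2 = l := by omega
    rw [hl, hl', al_succ, ← mul_assoc, cs.simple_mul_simple_self, one_mul]
  have hr' := sj_rd cs hr hi
  rw [e]
  refine ⟨sj_ld cs hr hi, ?_⟩
  rw [← mul_assoc]
  apply sj_ld cs hr'
  rw [h1]
  exact ld_al cs hij.symm (by omega) (Or.inl (by rw [M.symmetric j i]; omega))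

variable [Finite B] {cs : CoxeterSystem M W} {L L' : B → ℕ}

theorem sub_J (hL : ∀ i, 0 < L i) (hE : OddEq M L) (hL' : ∀ i, 0 < L' i) (hM : Tri M)
    {J J₂ : Set B} {δ y δ₂ y₂ : W} {n n₂ : ℕ}
    (h : SpV cs L J δ n) (hy : LM cs J y) (ha : av cs L (δ * y) = n) (ht : Tgt cs L (δ * y))
    (h₂ : SpV cs L' J₂ δ₂ n₂) (hy₂ : LM cs J₂ y₂) (e : δ * y = δ₂ * y₂)
    (ha₂ : av cs L' (δ₂ * y₂) = n₂) : J₂ ⊆ J := by
  have hδ := spv_mem h
  have hδ₂ := spv_mem h₂
  have hS := spv_sph h
  have hS₂ := spv_sph h₂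
  have A1 := tight_ld hL hM h hy ha
  have A2 := tight_ld hL' hM h₂ hy₂ ha₂
  have AB : ∀ c, cs.IsLeftDescent δ c ↔ cs.IsLeftDescent δ₂ c := by
    intro c
    rw [← A1, ← A2, e]
  have rδ : Rd cs δ y := lm_len cs hy hδ
  have rδ₂ : Rd cs δ₂ y₂ := lm_len cs hy₂ hδ₂
  intro j hj
  by_cases hd : cs.IsLeftDescent δ₂ j
  · exact ld_wp cs hδ ((AB j).2 hd)
  obtain ⟨i, k, δ₂', hi₂, hk, hm, -, hc, hq, hδ₂'⟩ := spv_mid_of_nd h₂ hj hd
  have hij : i ≠ j := ne_of_three (M := M) (show 3 ≤ M i j by omega)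
  obtain ⟨hdi₂, hdj₂⟩ := sj_mid cs hk hm hc hq hδ₂'
  have hdi : cs.IsLeftDescent δ i := (AB i).2 hdi₂
  have hiJ : i ∈ J := ld_wp cs hδ hdi
  have hxi : cs.IsLeftDescent (δ * y) i := (A1 i).2 hdi
  have hxj : cs.IsLeftDescent (cs.simple i * (δ * y)) j := by
    rw [e, ← mul_assoc]
    exact sj_ld cs (sj_rd cs rδ₂ hdi₂) hdj₂
  by_contra hjJ
  have hji3 : 3 ≤ M j i := by rw [M.symmetric j i]; omega
  by_cases hcase : ∃ e ∈ J, 3 ≤ M i e
  · -- (a)
    obtain ⟨f, hf, hif⟩ := hcase
    have hne : i ≠ f := ne_of_three hif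
    have hjf : j ≠ f := fun h0 => hjJ (h0 ▸ hf)
    have h0 : M j f = 0 := hM j i f hij.symm hne hjf hji3 hif
    by_cases hdf : cs.IsLeftDescent δ f
    · exact hS₂ j hj f (ld_wp cs hδ₂ ((AB f).1 hdf)) h0
    · obtain ⟨i', k', δ', hi', hk', hm', -, hc', hq', hδ'⟩ := spv_mid_of_nd h hf hdf
      have hii : i' = i := by
        by_contra hii
        have h1 : i ∈ J \ {i', f} := by
          refine ⟨hiJ, ?_⟩
          rintro (h2 | h2)
          · exact hii h2.symm
          · exact hne h2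
        have h2 := hc' f (Or.inr rfl) i h1
        rw [M.symmetric f i] at h2
        omega
      subst hii
      obtain ⟨h3, h4⟩ := sj_mid cs hk' hm' hc' hq' hδ'
      have h5 : cs.IsLeftDescent (cs.simple i' * (δ * y)) f := by
        rw [← mul_assoc]
        exact sj_ld cs (sj_rd cs rδ h3) h4
      exact (two_ld cs hjf hxj h5).1 h0
  · -- (b)
    have hib : ∀ f ∈ J, f ≠ i → M i f = 2 := by
      intro f hf hfi
      have h1 := hS i hiJ f hf
      have h2 := M.off_diagonal i f hfi.symm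
      by_contra h3
      exact hcase ⟨f, hf, by omega⟩
    have first : ∀ f ∈ J, f ≠ i → cs.IsLeftDescent δ f → M j f = 2 := by
      intro f hf hfi hdf
      have hf₂ : f ∈ J₂ := ld_wp cs hδ₂ ((AB f).1 hdf)
      refine hc j (Or.inr rfl) f ⟨hf₂, ?_⟩
      rintro (h2 | h2)
      · exact hfi h2
      · rw [Set.mem_singleton_iff] at h2
        exact hjJ (h2 ▸ hf)
    have hjb : ∀ f ∈ J, f ≠ i → M j f = 2 := by
      intro f hf hfi
      by_cases hdf : cs.IsLeftDescent δ f
      · exact first f hf hfi hdf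
      · obtain ⟨g, k', δ', hg, hk', hm', -, hc', hq', hδ'⟩ := spv_mid_of_nd h hf hdf
        have hgf : g ≠ f := ne_of_three (M := M) (show 3 ≤ M g f by omega)
        have hgi : g ≠ i := by
          rintro rfl
          have := hib f hf hfi
          omega
        obtain ⟨h3, h4⟩ := sj_mid cs hk' hm' hc' hq' hδ'
        have hjg : M j g = 2 := first g hg hgi h3
        have hjg' : j ≠ g := fun h0 => hjJ (h0 ▸ hg)
        have hjf : j ≠ f := fun h0 => hjJ (h0 ▸ hf)
        have hxg : cs.IsLeftDescent (δ * y) g := (A1 g).2 h3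
        have hxf : cs.IsLeftDescent (cs.simple g * (δ * y)) f := by
          rw [← mul_assoc]
          exact sj_ld cs (sj_rd cs rδ h3) h4
        have h5 : cs.IsLeftDescent (cs.simple i * (δ * y)) g := two_ld_step cs hgi.symm hxi hxg
        have h6 : cs.IsLeftDescent (cs.simple g * (cs.simple i * (δ * y))) j :=
          two_ld_step cs hjg'.symm h5 hxj
        have h7 : cs.IsLeftDescent (cs.simple g * (δ * y)) i := two_ld_step cs hgi hxg hxi
        have h8 : cs.IsLeftDescent (cs.simple i * (cs.simple g * (δ * y))) f :=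
          two_ld_step cs hfi.symm h7 hxf
        have hcm : Cm M {i} {g} := by
          intro a ha b hb
          rw [Set.mem_singleton_iff.1 ha, Set.mem_singleton_iff.1 hb]
          exact hib g hg hgi
        have h9 : cs.simple i * cs.simple g = cs.simple g * cs.simple i :=
          cm_comm cs hcm ((simple_mem_wp cs).2 rfl) ((simple_mem_wp cs).2 rfl)
        rw [← mul_assoc, h9, mul_assoc] at h8
        have h10 := (two_ld cs hjf.symm h8 h6).1
        have h11 := M.off_diagonal f j hjf.symm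
        have h12 : ¬ 3 ≤ M f j := by
          intro h13
          have h14 := hM g f j hgf hjf.symm hjg'.symm (by omega) h13
          rw [M.symmetric g j] at h14
          omega
        rw [M.symmetric j f]
        omega
    -- (c)
    have hcK : Cm M {i, j} (J \ {i}) := by
      intro a ha b hb
      have hbi : b ≠ i := fun h0 => hb.2 h0
      rcases ha with ha | ha
      · rw [ha]; exact hib b hb.1 hbi
      · rw [Set.mem_singleton_iff.1 ha]; exact hjb b hb.1 hbi
    have hci : Cm M {i} (J \ {i}) := cm_mono hcK (by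
      intro a ha
      exact Or.inl ha) (le_refl _)
    obtain ⟨δ', n', e1, h1, e2⟩ := spv_iso h hiJ hci
    have hδ' := spv_mem h1
    have hsi : cs.simple i ∈ WP cs {i} := (simple_mem_wp cs).2 rfl
    have e3 : δ * y = δ' * (cs.simple i * y) := by
      rw [e1, cm_comm cs hci hsi hδ', mul_assoc]
    have r1 : Rd cs (cs.simple i) y := lm_len cs hy ((simple_mem_wp cs).2 hiJ)
    have r2 : Rd cs (cs.simple i) δ' := cm_rd cs hci hsi hδ'
    have r3 : Rd cs δ' (cs.simple i * y) := by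
      unfold Rd at r1 r2 rδ ⊢
      rw [← e3, rδ, r1, e1, r2]
      omega
    have hd2J : δ₂' ∈ WP cs J₂ := wp_mono cs Set.sdiff_subset hδ₂'
    have r4 : Rd cs δ₂' y₂ := lm_len cs hy₂ hd2J
    have hz : LM cs {i, j} (δ₂' * y₂) := by
      intro c hcc hdc
      have hcs : c ∉ spt cs δ₂' := by
        intro h0
        have h2 := (wp_iff_spt cs).1 hδ₂' h0
        exact h2.2 hcc
      have hcJ : c ∈ J₂ := by
        rcases hcc with h0 | h0
        · rw [h0]; exact hi₂
        · rw [Set.mem_singleton_iff.1 h0]; exact hj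
      exact hy₂ c hcJ (peel_left cs r4 hcs hdc).1
    refine sub_c hL hE hk hm hcK h1 e3 r3 (z := δ₂' * y₂) ?_ hz ?_ ht
    · rw [e, hq, mul_assoc]
    · rw [ha, e2]

end Pool.Agent.Lib.KLT
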