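import Pool.Agent.Lib.MP_754fa1_al.T.S03
import Pool.Agent.Lib.MP_754fa1_al.FR

/-!
# S04. Comparison of the combinatorial cells

`Lt S₁ a b a' b'`: for all `SpF` functionals `(α, β)`, `(α', β')`: `α' a + β' b < α a + β b` implies `α' a' + β' b' < α a' + β b'`.
`av_lt`: `Lt S₁ a b a' b'` and `av_L y < av_L x` imply `av_{L'} y < av_{L'} x`: `av_spf` for `x`, `L`: `(α, β)`; `av_spf` for `y`, `L'`: `(α', β')`, `Fac δ' y`. `α' a + β' b ≤ av_L y < av_L x = α a + β b` (`spf_le_av`), so `av_{L'} y = α' a' + β' b' < α a' + β b' ≤ av_{L'} x`.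
`cellT_of_lt`: if `Lt` holds in both directions then `av_L` and `av_{L'}` are order equivalent, so `Tgt`, equality of values, and `CellT'` are the same (as `cell_of_equiv` in `F.lean`).
`coarse`: (as `cell_coarse` in `F.lean`) if `Lt S₁ a b a₁ b₁` then `CellT' L₁ x y` implies `S x y` for a setoid `S` with `S x y ↔ CellT' L x y`: key: `Suf u x`, `av_{L₁} u = av_{L₁} x` imply `av_L u = av_L x` (`av_mono` and `av_lt`), `exists_tgt`.
`tight_both`: `x` tight for `L₁ = wt S₁ a₁ b₁`, `L₂ = wt S₁ a₂ b₂`, `b₁/a₁ < b/a < b₂/a₂`: `x` tight for `L = wt S₁ a b`: `common_functional`: `(α, β)`. Let `Suf y x`, `y ≠ x`; `av_spf`: `av_L y = α' a + β' b`, `Fac δ' y`; `α' a_i + β' b_i ≤ av_{L_i} y < av_{L_i} x = α a_i + β b_i`, `i = 1, 2`; so with `A = α - α'`, `C = β - β'`: `A + θ_i C > 0` for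
`θ_i = b_i / a_i`, `i = 1, 2`, so `A + θ C > 0` for `θ = b/a` between them; so `av_L y < α a + β b ≤ av_L x`.
`joinT`: as `join_eq` in `F.lean` with `coarse`, `tight_both` in place of `cell_coarse`, `tight_of_both`.
-/

open Pool.Agent.Lib.MP_754fa1_al

namespace Pool.Agent.Lib.KLT

universe u v w

variable {B : Type u} {W : Type v} [Group W] {M : CoxeterMatrix B}

/-- the combinatorial description of the cells -/
def CellC (cs : CoxeterSystem M W) (L : B → ℕ) (x y : W) : Prop :=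
  ∃ u, Tgt cs L u ∧ Suf cs u x ∧ Suf cs u y ∧ av cs L u = av cs L x ∧ av cs L u = av cs L y

/-- strict inequalities between functionals at `(a, b)` persist at `(a', b')` -/
def Lt (cs : CoxeterSystem M W) (S₁ : Set B) (a b a' b' : ℕ) : Prop :=
  ∀ (J J' : Set B) (δ δ' : W) (α β α' β' : ℤ), SpF cs S₁ J δ α β → SpF cs S₁ J' δ' α' β' →
    α' * a + β' * b < α * a + β * b → α' * a' + β' * b' < α * a' + β * b'

variable [Finite B] {cs : CoxeterSystem M W} {S₁ : Set B}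

theorem av_lt {a b a' b' : ℕ} (h : Lt cs S₁ a b a' b') {x y : W}
    (hl : av cs (wt S₁ a b) y < av cs (wt S₁ a b) x) :
    av cs (wt S₁ a' b') y < av cs (wt S₁ a' b') x := by
  obtain ⟨J, δ, α, β, h1, h2, h3⟩ := av_spf (cs := cs) (S₁ := S₁) a b x
  obtain ⟨J', δ', α', β', k1, k2, k3⟩ := av_spf (cs := cs) (S₁ := S₁) a' b' y
  have h4 := spf_le_av (a := a) (b := b) k1 k2
  have h5 := spf_le_av (a := a') (b := b') h1 h2
  have h6 : (av cs (wt S₁ a b) y : ℤ) < av cs (wt S₁ a b) x := by exact_mod_cast hl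
  have h7 := h J J' δ δ' α β α' β' h1 k1 (by linarith)
  have h8 : (av cs (wt S₁ a' b') y : ℤ) < av cs (wt S₁ a' b') x := by linarith
  exact_mod_cast h8

private theorem S04_cell {a b a' b' : ℕ} (h : Lt cs S₁ a b a' b') (h' : Lt cs S₁ a' b' a b)
    (x y : W) (hc : CellC cs (wt S₁ a b) x y) : CellC cs (wt S₁ a' b') x y := by
  have h3 : ∀ x y : W, av cs (wt S₁ a b) x = av cs (wt S₁ a b) y →
      av cs (wt S₁ a' b') x = av cs (wt S₁ a' b') y := by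
    intro x y he
    by_contra hne
    rcases lt_or_gt_of_ne hne with hlt | hlt
    · have := av_lt h' hlt
      omega
    · have := av_lt h' hlt
      omega
  obtain ⟨u, hu, a1, a2, a3, a4⟩ := hc
  exact ⟨u, fun z hz hne => av_lt h (hu z hz hne), a1, a2, h3 _ _ a3, h3 _ _ a4⟩

theorem cellC_of_lt {a b a' b' : ℕ} (h : Lt cs S₁ a b a' b') (h' : Lt cs S₁ a' b' a b)
    (x y : W) : CellC cs (wt S₁ a b) x y ↔ CellC cs (wt S₁ a' b') x y :=
  ⟨S04_cell h h' x y, S04_cell h' h x y⟩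

private theorem S04_pos {a b a₁ b₁ a₂ b₂ : ℤ} (h1 : b₁ * a < b * a₁) (h2 : b * a₂ < b₂ * a)
    (ha : 0 < a) (ha₁ : 0 < a₁) (ha₂ : 0 < a₂) {A C : ℤ}
    (k1 : 0 < A * a₁ + C * b₁) (k2 : 0 < A * a₂ + C * b₂) : 0 < A * a + C * b := by
  have hp : 0 < b₂ * a - b * a₂ := by linarith
  have hq : 0 < b * a₁ - b₁ * a := by linarith
  have h3 : (a₁ * b₂ - a₂ * b₁) * (A * a + C * b) =
      (b₂ * a - b * a₂) * (A * a₁ + C * b₁) + (b * a₁ - b₁ * a) * (A * a₂ + C * b₂) := by ring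
  have h4 : 0 < (a₁ * b₂ - a₂ * b₁) * (A * a + C * b) := by
    rw [h3]
    exact add_pos (mul_pos hp k1) (mul_pos hq k2)
  have h5 : a * (a₁ * b₂ - a₂ * b₁) = a₁ * (b₂ * a - b * a₂) + a₂ * (b * a₁ - b₁ * a) := by ring
  have h6 : 0 < a * (a₁ * b₂ - a₂ * b₁) := by
    rw [h5]
    exact add_pos (mul_pos ha₁ hp) (mul_pos ha₂ hq)
  exact (mul_pos_iff_of_pos_left ((mul_pos_iff_of_pos_left ha).1 h6)).1 h4

theorem tight_both (hM : Tri M) (hO : ∀ i j : B, Odd (M i j) → (i ∈ S₁ ↔ j ∈ S₁))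
    {a b a₁ b₁ a₂ b₂ : ℕ} (ha : 0 < a) (hb : 0 < b) (ha₁ : 0 < a₁) (hb₁ : 0 < b₁)
    (ha₂ : 0 < a₂) (hb₂ : 0 < b₂) (h1 : (b₁ : ℚ) / a₁ < (b : ℚ) / a)
    (h2 : (b : ℚ) / a < (b₂ : ℚ) / a₂) {x : W} (t1 : Tgt cs (wt S₁ a₁ b₁) x)
    (t2 : Tgt cs (wt S₁ a₂ b₂) x) : Tgt cs (wt S₁ a b) x := by
  obtain ⟨J, δ, α, β, hs, hf, e1, e2⟩ := common_functional hM hO ha₁ hb₁ ha₂ hb₂ t1 t2
  have haq : (0 : ℚ) < a := by exact_mod_cast ha
  have haq₁ : (0 : ℚ) < a₁ := by exact_mod_cast ha₁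
  have haq₂ : (0 : ℚ) < a₂ := by exact_mod_cast ha₂
  rw [div_lt_div_iff₀ haq₁ haq] at h1
  rw [div_lt_div_iff₀ haq haq₂] at h2
  have h1' : (b₁ : ℤ) * a < b * a₁ := by exact_mod_cast h1
  have h2' : (b : ℤ) * a₂ < b₂ * a := by exact_mod_cast h2
  intro y hy hne
  obtain ⟨J', δ', α', β', k1, k2, k3⟩ := av_spf (cs := cs) (S₁ := S₁) a b y
  have l1 := spf_le_av (a := a₁) (b := b₁) k1 k2
  have l2 := spf_le_av (a := a₂) (b := b₂) k1 k2
  have m1 : (av cs (wt S₁ a₁ b₁) y : ℤ) < av cs (wt S₁ a₁ b₁) x := by exact_mod_cast t1 y hy hne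
  have m2 : (av cs (wt S₁ a₂ b₂) y : ℤ) < av cs (wt S₁ a₂ b₂) x := by exact_mod_cast t2 y hy hne
  have h6 := S04_pos h1' h2' (by exact_mod_cast ha) (by exact_mod_cast ha₁)
    (by exact_mod_cast ha₂) (A := α - α') (C := β - β') (by linarith) (by linarith)
  have h7 := spf_le_av (a := a) (b := b) hs hf
  have h8 : (av cs (wt S₁ a b) y : ℤ) < av cs (wt S₁ a b) x := by
    rw [k3]
    linarith
  exact_mod_cast h8

private theorem S04_coarse {a b a₁ b₁ : ℕ} (l : Lt cs S₁ a b a₁ b₁)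
    (S : Setoid W) (hS : ∀ x y, S x y ↔ CellC cs (wt S₁ a b) x y) {x y : W}
    (h : CellC cs (wt S₁ a₁ b₁) x y) : S x y := by
  have key : ∀ u x, Suf cs u x → av cs (wt S₁ a₁ b₁) u = av cs (wt S₁ a₁ b₁) x → S x u := by
    intro u x hux he
    have h1 : av cs (wt S₁ a b) u = av cs (wt S₁ a b) x := by
      refine le_antisymm (av_mono cs _ (fac_suf cs hux)) ?_
      by_contra hlt
      rw [not_le] at hlt
      have := av_lt l hlt
      omega
    rw [hS]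
    obtain ⟨w, hw1, hw2, hw3⟩ := exists_tgt cs (wt S₁ a b) u
    exact ⟨w, hw1, suf_trans cs hw2 hux, hw2, hw3.trans h1, hw3⟩
  obtain ⟨u, -, a1, a2, a3, a4⟩ := h
  exact S.trans (key u x a1 a3) (S.symm (key u y a2 a4))

theorem joinT (hM : Tri M) (hO : ∀ i j : B, Odd (M i j) → (i ∈ S₁ ↔ j ∈ S₁))
    {a b a₁ b₁ a₂ b₂ : ℕ} (ha : 0 < a) (hb : 0 < b) (ha₁ : 0 < a₁) (hb₁ : 0 < b₁)
    (ha₂ : 0 < a₂) (hb₂ : 0 < b₂) (h1 : (b₁ : ℚ) / a₁ < (b : ℚ) / a)
    (h2 : (b : ℚ) / a < (b₂ : ℚ) / a₂)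
    (l1 : Lt cs S₁ a b a₁ b₁) (l2 : Lt cs S₁ a b a₂ b₂)
    (huniq : ∀ {x u u' : W}, Tgt cs (wt S₁ a b) u → Suf cs u x →
      av cs (wt S₁ a b) u = av cs (wt S₁ a b) x → Tgt cs (wt S₁ a b) u' → Suf cs u' x →
      av cs (wt S₁ a b) u' = av cs (wt S₁ a b) x → u = u')
    (S S' S'' : Setoid W) (hS : ∀ x y, S x y ↔ CellC cs (wt S₁ a b) x y)
    (hS' : ∀ x y, S' x y ↔ CellC cs (wt S₁ a₁ b₁) x y)
    (hS'' : ∀ x y, S'' x y ↔ CellC cs (wt S₁ a₂ b₂) x y) : S = S' ⊔ S'' := by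
  have le1 : S' ≤ S := fun {x y} h => S04_coarse l1 S hS ((hS' x y).1 h)
  have le2 : S'' ≤ S := fun {x y} h => S04_coarse l2 S hS ((hS'' x y).1 h)
  apply le_antisymm _ (sup_le le1 le2)
  have key : ∀ n : ℕ, ∀ x w : W, cs.length x = n → Tgt cs (wt S₁ a b) w → Suf cs w x →
      av cs (wt S₁ a b) w = av cs (wt S₁ a b) x → (S' ⊔ S'') x w := by
    intro n
    induction n using Nat.strong_induction_on with
    | _ n ih =>
      intro x w hn hw1 hw2 hw3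
      -- one step
      have step : ∀ {L' : B → ℕ} {S₃ : Setoid W}, S₃ ≤ S → S₃ ≤ S' ⊔ S'' →
          (∀ x y, S₃ x y ↔ CellC cs L' x y) → ¬ Tgt cs L' x → (S' ⊔ S'') x w := by
        intro L' S₃ hle hle' hS₃ hnt
        obtain ⟨u, hu1, hu2, hu3⟩ := exists_tgt cs L' x
        have hux : u ≠ x := by
          rintro rfl
          exact hnt hu1
        have hlen : cs.length u < n := by
          rw [← hn]
          by_contra hc
          exact hux (suf_eq cs hu2 (not_lt.1 hc))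
        have hxu' : S₃ x u := (hS₃ x u).2 ⟨u, hu1, hu2, suf_refl cs u, hu3, rfl⟩
        have hxu : S x u := hle hxu'
        obtain ⟨w', c1, c2, c3, c4, c5⟩ := (hS x u).1 hxu
        have hww : w' = w := huniq c1 c2 c4 hw1 hw2 hw3
        subst hww
        have h5 := ih _ hlen u w' rfl c1 c3 c5
        exact (S' ⊔ S'').trans (hle' hxu') h5
      by_cases t1 : Tgt cs (wt S₁ a₁ b₁) x
      · by_cases t2 : Tgt cs (wt S₁ a₂ b₂) x
        · have t := tight_both hM hO ha hb ha₁ hb₁ ha₂ hb₂ h1 h2 t1 t2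
          have e : w = x := huniq hw1 hw2 hw3 t (suf_refl cs x) rfl
          rw [e]
        · exact step le2 le_sup_right hS'' t2
      · exact step le1 le_sup_left hS' t1
  intro x y hxy
  obtain ⟨w, c1, c2, c3, c4, c5⟩ := (hS x y).1 hxy
  exact (S' ⊔ S'').trans (key _ x w rfl c1 c2 c4) ((S' ⊔ S'').symm (key _ y w rfl c1 c3 c5))

end Pool.Agent.Lib.KLT
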