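import Pool.Agent.Lib.MP_754fa1_al.T.T02b

/-!
# T02. Non-reduced products are seen in rank one or two

`red_pair`: `min_prefix`: `y = p y₂` reduced, `MinNR g p`. `min_form`: first case: `p = s_e`, `e` is a right descent of `g`
and a left descent of `y = s_e y₂`. Second case: `p ∈ WP {c, d}`, `3 ≤ M c d`. Write `g = g' p₁` (`rm_exists`), `y = q y'`
(`lm_exists`) with respect to `{c, d}`. Suppose `p₁ q` reduced. `y₂ = q₂ y₂'` (`lm_exists`), so `y = (p q₂) y₂'` and by `lm_uniq`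
`q = p q₂`; it is reduced: `ℓ(y) = ℓ(p) + ℓ(y₂) = ℓ(p) + ℓ(q₂) + ℓ(y₂')` and `ℓ(y) = ℓ(q) + ℓ(y')`. So
`ℓ(p₁ p) ≥ ℓ(p₁ q) - ℓ(q₂) = ℓ(p₁) + ℓ(p)` and `g p = g' (p₁ p)` is reduced (`rm_len`), a contradiction.
-/

open Pool.Agent.Lib.MP_754fa1_al

namespace Pool.Agent.Lib.KLT

universe u v w

variable {B : Type u} {W : Type v} [Group W] {M : CoxeterMatrix B}

theorem red_pair (cs : CoxeterSystem M W) (hM : Tri M) {g y : W} (h : ¬ Rd cs g y) :
    (∃ c, cs.IsRightDescent g c ∧ cs.IsLeftDescent y c) ∨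
    ∃ c d, 3 ≤ M c d ∧ ∃ g' p q y', g = g' * p ∧ RM cs {c, d} g' ∧ p ∈ WP cs {c, d} ∧
      y = q * y' ∧ LM cs {c, d} y' ∧ q ∈ WP cs {c, d} ∧ ¬ Rd cs p q := by
  obtain ⟨p, y₂, hy, hr, hmin⟩ := min_prefix cs h
  rcases min_form cs hM hmin with ⟨e, hp, he⟩ | ⟨c, d, hcd, hp⟩
  · refine Or.inl ⟨e, he, ?_⟩
    rw [cs.isLeftDescent_iff]
    unfold Rd at hr
    rw [hp, cs.length_simple] at hr
    rw [hy, hp, hr, ← mul_assoc, cs.simple_mul_simple_self, one_mul]
    omega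
  · right
    obtain ⟨g', p₁, hg, hg', hp₁⟩ := rm_exists cs {c, d} g
    obtain ⟨q, y', hqy, hy', hq⟩ := lm_exists cs {c, d} y
    refine ⟨c, d, hcd, g', p₁, q, y', hg, hg', hp₁, hqy, hy', hq, fun hRd => ?_⟩
    obtain ⟨q₂, y₂', hq₂y, hy₂', hq₂⟩ := lm_exists cs {c, d} y₂
    have e1 : q * y' = (p * q₂) * y₂' := by
      rw [← hqy, mul_assoc, ← hq₂y, ← hy]
    obtain ⟨e2, e3⟩ := lm_uniq cs hy' hy₂' hq (mul_mem hp hq₂) e1
    have l1 : cs.length y = cs.length p + cs.length y₂ := by rw [hy]; exact hr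
    have l2 : cs.length y₂ = cs.length q₂ + cs.length y₂' := by
      conv_lhs => rw [hq₂y]
      exact lm_len cs hy₂' hq₂
    have l3 : cs.length y = cs.length q + cs.length y' := by
      rw [hqy]; exact lm_len cs hy' hq
    have l4 : cs.length (p₁ * q) = cs.length p₁ + cs.length q := hRd
    have l5 := cs.length_mul_le (p₁ * p) q₂
    rw [mul_assoc, ← e2] at l5
    have l6 := cs.length_mul_le p₁ p
    have l7 : cs.length g = cs.length g' + cs.length p₁ := by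
      rw [hg]; exact rm_len cs hg' hp₁
    have l8 : cs.length (g' * (p₁ * p)) = cs.length g' + cs.length (p₁ * p) :=
      rm_len cs hg' (mul_mem hp₁ hp)
    have e4 : g * p = g' * (p₁ * p) := by rw [hg, mul_assoc]
    have e5 : cs.length y' = cs.length y₂' := by rw [e3]
    apply hmin.1
    unfold Rd
    rw [e4, l8]
    omega

end Pool.Agent.Lib.KLT
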