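import Pool.Agent.Lib.MP_754fa1_al.T.T01

/-!
# T02a. The shortest prefix `p` of `y` with `g p` not reduced

`min_prefix`: among the prefixes `p` of `y` (`y = p y₂` reduced) with `g p` not reduced (`y` itself is one) take one of minimal
length; a proper prefix `p'` of `p` (`p = p' r` reduced, `r ≠ 1`) is a shorter prefix of `y`.

`min_unique`: `p` has only one right descent. Suppose `e ≠ e'` are right descents of `p`. `two_rd`:
`m = M e e' ≠ 0`, `w = al e e' m`, `p = h w` reduced. `w s_e`, `w s_e'` have length `m - 1`, so `h`, `h (w s_e)`, `h (w s_e')` are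
proper prefixes of `p`, and the products with `g` are reduced. Write `g h = k u`, `RM {e, e'} k`, `u ∈ WP {e, e'}`
(`rm_exists`). `ℓ(g h (w s_e)) = ℓ(g h) + m - 1`, so (`rm_len`) `ℓ(u (w s_e)) = ℓ(u) + m - 1 ≤ m` (`pair_len_le`), so
`ℓ(u) ≤ 1`. If `u = 1` then `g h = k` and `ℓ(g p) = ℓ(g h w) = ℓ(g h) + m = ℓ(g) + ℓ(p)` by `rm_len`, a contradiction.
If `u = s_a` then `s_a w s_e` and `s_a w s_e'` both have length `m`, so both are `w` (`pair_len_eq`), so `s_e = s_e'`,
`e = e'` (`simple_inj`), a contradiction.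
-/

open Pool.Agent.Lib.MP_754fa1_al

namespace Pool.Agent.Lib.KLT

universe u v w

variable {B : Type u} {W : Type v} [Group W] {M : CoxeterMatrix B}

/-- `p` is minimal with `g p` not reduced -/
def MinNR (cs : CoxeterSystem M W) (g p : W) : Prop :=
  ¬ Rd cs g p ∧ ∀ p' r, p = p' * r → Rd cs p' r → r ≠ 1 → Rd cs g p'

theorem min_prefix (cs : CoxeterSystem M W) {g y : W} (h : ¬ Rd cs g y) :
    ∃ p y₂, y = p * y₂ ∧ Rd cs p y₂ ∧ MinNR cs g p := by
  have key : ∀ n : ℕ, ∀ p y₂ : W, cs.length p = n → y = p * y₂ → Rd cs p y₂ → ¬ Rd cs g p →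
      ∃ p y₂, y = p * y₂ ∧ Rd cs p y₂ ∧ MinNR cs g p := by
    intro n
    induction n using Nat.strong_induction_on with
    | _ n ih =>
      intro p y₂ hn hy hr hg
      by_cases hmin : ∀ p' r, p = p' * r → Rd cs p' r → r ≠ 1 → Rd cs g p'
      · exact ⟨p, y₂, hy, hr, hg, hmin⟩
      · push Not at hmin
        obtain ⟨p', r, hp, hr', hr1, hg'⟩ := hmin
        have hlr : 0 < cs.length r := by
          rw [Nat.pos_iff_ne_zero]
          intro h0
          exact hr1 (cs.length_eq_zero_iff.1 h0)
        have hlp : cs.length p = cs.length p' + cs.length r := by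
          rw [hp]; exact hr'
        refine ih (cs.length p') (by omega) p' (r * y₂) rfl ?_ ?_ hg'
        · rw [hy, hp, mul_assoc]
        · unfold Rd at hr ⊢
          have h1 : p' * (r * y₂) = p * y₂ := by rw [hp, mul_assoc]
          have h2 := cs.length_mul_le p' (r * y₂)
          have h3 := cs.length_mul_le r y₂
          rw [h1] at h2 ⊢
          omega
  exact key _ y 1 rfl (mul_one y).symm (by unfold Rd; rw [mul_one, cs.length_one, add_zero]) h

theorem min_unique (cs : CoxeterSystem M W) {g p : W} (h : MinNR cs g p) {e e' : B}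
    (he : cs.IsRightDescent p e) (he' : cs.IsRightDescent p e') : e = e' := by
  by_contra hne
  obtain ⟨hm, k₀, hp, hr⟩ := two_rd cs hne he he'
  obtain ⟨hwe, hwe', -, -⟩ := pair_top_rd cs hne hm
  have hw := al_mem cs e e' (M e e')
  have hlw : cs.length (al cs e e' (M e e')) = M e e' := len_al cs hne (Or.inl le_rfl)
  set w := al cs e e' (M e e') with hwdef
  have hlp : cs.length p = cs.length k₀ + M e e' := by
    rw [hp]
    unfold Rd at hr
    rw [hr, hlw]
  have hse : cs.simple e ∈ WP cs {e, e'} := (simple_mem_wp cs).2 (Set.mem_insert _ _)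
  have hse' : cs.simple e' ∈ WP cs {e, e'} :=
    (simple_mem_wp cs).2 (Set.mem_insert_of_mem _ (Set.mem_singleton _))
  have pre : ∀ c : B, cs.IsRightDescent w c →
      Rd cs g (k₀ * (w * cs.simple c)) ∧ cs.length (w * cs.simple c) + 1 = M e e' ∧
        cs.length (k₀ * (w * cs.simple c)) = cs.length k₀ + cs.length (w * cs.simple c) := by
    intro c hc
    have h1 := cs.isRightDescent_iff.1 hc
    rw [hlw] at h1
    have h2 : p = k₀ * (w * cs.simple c) * cs.simple c := by
      rw [hp, mul_assoc, mul_assoc, cs.simple_mul_simple_self, mul_one]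
    have h3 := cs.length_mul_le k₀ (w * cs.simple c)
    have h4 := cs.length_mul_le (k₀ * (w * cs.simple c)) (cs.simple c)
    rw [← h2, cs.length_simple] at h4
    have h5 : Rd cs (k₀ * (w * cs.simple c)) (cs.simple c) := by
      unfold Rd
      rw [← h2, cs.length_simple]
      omega
    refine ⟨h.2 _ _ h2 h5 ?_, h1, by omega⟩
    intro h6
    have h7 := cs.length_simple c
    rw [h6, cs.length_one] at h7
    exact zero_ne_one h7
  have hw1 : w ≠ 1 := by
    intro h1
    rw [h1, cs.length_one] at hlw
    exact hm hlw.symm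
  have hgk : Rd cs g k₀ := h.2 k₀ w hp hr hw1
  obtain ⟨k, u, hku, hk, hu⟩ := rm_exists cs {e, e'} (g * k₀)
  have hlku : cs.length (g * k₀) = cs.length k + cs.length u := by
    rw [hku]; exact rm_len cs hk hu
  have hlgk : cs.length (g * k₀) = cs.length g + cs.length k₀ := hgk
  have step : ∀ c : B, cs.simple c ∈ WP cs {e, e'} → cs.IsRightDescent w c →
      cs.length (u * (w * cs.simple c)) = cs.length u + (M e e' - 1) := by
    intro c hcm hc
    obtain ⟨h1, h2, h3⟩ := pre c hc
    have hmem : u * (w * cs.simple c) ∈ WP cs {e, e'} :=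
      mul_mem hu (mul_mem hw hcm)
    have h4 : g * (k₀ * (w * cs.simple c)) = k * (u * (w * cs.simple c)) := by
      rw [← mul_assoc, hku, mul_assoc]
    have h5 : cs.length (k * (u * (w * cs.simple c))) =
      cs.length k + cs.length (u * (w * cs.simple c)) := rm_len cs hk hmem
    unfold Rd at h1
    rw [h4, h5, h3] at h1
    omega
  have h1 := step e hse hwe
  have h2 := step e' hse' hwe'
  have hm1 : u * (w * cs.simple e) ∈ WP cs {e, e'} := mul_mem hu (mul_mem hw hse)
  have hm2 : u * (w * cs.simple e') ∈ WP cs {e, e'} := mul_mem hu (mul_mem hw hse')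
  have h3 := pair_len_le cs hne hm hm1
  have hpos : 0 < M e e' := Nat.pos_of_ne_zero hm
  have hu1 : cs.length u ≤ 1 := by omega
  rcases Nat.eq_zero_or_pos (cs.length u) with h0 | h0
  · have hu' : u = 1 := cs.length_eq_zero_iff.1 h0
    apply h.1
    have h4 : g * p = k * w := by
      rw [hp, ← mul_assoc, hku, hu', mul_one]
    have h5 : cs.length (k * w) = cs.length k + cs.length w := rm_len cs hk hw
    unfold Rd
    rw [h4, h5]
    omega
  · have e1 : u * (w * cs.simple e) = w := pair_len_eq cs hne hm hm1 (by omega)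
    have e2 : u * (w * cs.simple e') = w := pair_len_eq cs hne hm hm2 (by omega)
    have h4 : u * (w * cs.simple e) = u * (w * cs.simple e') := e1.trans e2.symm
    exact hne (simple_inj cs (mul_left_cancel (mul_left_cancel h4)))

end Pool.Agent.Lib.KLT
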