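import Pool.Agent.Lib.MP_754fa1_al.T.T02a

/-!
# T02b. The structure of the minimal prefix

`min_form`: let `MinNR g p`. Then either `p = s_e` with `e` a right descent of `g`, or there are `e, f` with
`3 ≤ M e f`, `p ∈ WP {e, f}`.

Proof. `p ≠ 1` (`g 1` is reduced). Let `e` be the right descent of `p` (unique by `min_unique`), `y₁ = p s_e`, `Rd g y₁`
(proper prefix), `e` is a right descent of `g y₁` (otherwise `g y₁ s_e = g p` would be reduced) and not of `y₁`.
If `y₁ = 1` then `p = s_e`, first case. Let `y₁ ≠ 1`.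
(1) Every right descent `f` of `y₁` has `3 ≤ M e f`: `f ≠ e`; `f` is a right descent of `g y₁` (as `g y₁` is reduced); so
`M e f ≠ 0` by `two_rd`. If `M e f = 2` then `p = y₁ s_e = (y₁ s_f) s_f s_e = (y₁ s_f) s_e s_f`, so `f` would be a right
descent of `p`, against uniqueness.
Fix a right descent `f` of `y₁`, `m = M e f`, `w = al e f m`, and write `y₁ = y₃ r`, `RM {e, f} y₃`, `r ∈ WP {e, f}`. By
`rd_rm_iff` `f` is and `e` is not a right descent of `r`; so `1 ≤ ℓ(r) < m`. `e`, `f` are right descents of `g y₁`, so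
(`two_rd`, `pair_top_rm`) `g y₁ = h w` reduced with `RM {e, f} h`; so `g y₃ = h p'`, `p' = w r⁻¹`, `ℓ(p') = m - ℓ(r) ≥ 1`
(`pair_suf`).
(2) `y₃ = 1`. Suppose not, let `f'` be a right descent of `y₃`; `f' ≠ e, f`; `f'` is a right descent of `g y₃` (reduced,
as `y₃` is a proper prefix of `p`). Let `b ∈ {e, f}` be a right descent of `p'`, `a` the other element of
`{e, f}`. `b` is a right descent of `g y₃ = h p'` (`rd_rm_iff`). `M b f' ≠ 0` (`two_rd`).
If `ℓ(p') = 1` then `ℓ(r) = m - 1`; `r s_e` has length `m` (`e` not a right descent of `r`), so `r s_e = w` (`pair_len_eq`) and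
`p = y₃ w` has the right descents `e` and `f`, against uniqueness. So `ℓ(p') ≥ 2` and `p' ≠ w` and `a` is a right descent of
`p' s_b` (`p' s_b ≠ 1`, and `b` is not one), hence of `g y₃ s_b = h (p' s_b)`. By `two_rd_step`, `f'` is a right descent of
`g y₃ s_b`. So `M a f' ≠ 0`. Since `3 ≤ M a b`: `3 ≤ M b f'` would give `M a f' = 0` (`hM a b f'`), `3 ≤ M a f'` would give
`M b f' = 0` (`hM b a f'`). So `M a f' = M b f' = 2`, i.e. `M e f' = M f f' = 2`, and `s_{f'}` commutes with `r`, so
`y₁ = y₃ r = (y₃ s_{f'}) r s_{f'}` and `f'` is a right descent of `y₁` (lengths), so `3 ≤ M e f'` by (1), a contradiction.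
(3) So `y₁ = r ∈ WP {e, f}` and `p = r s_e ∈ WP {e, f}`.
-/

open Pool.Agent.Lib.MP_754fa1_al

namespace Pool.Agent.Lib.KLT

universe u v w

variable {B : Type u} {W : Type v} [Group W] {M : CoxeterMatrix B}

private theorem T02b_step (cs : CoxeterSystem M W) {g y : W} (h : Rd cs g y) {f : B}
    (hf : cs.IsRightDescent y f) : cs.IsRightDescent (g * y) f := by
  rw [cs.isRightDescent_iff] at hf
  show cs.length (g * y * cs.simple f) < cs.length (g * y)
  unfold Rd at h
  have h1 := cs.length_mul_le g (y * cs.simple f)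
  rw [← mul_assoc] at h1
  omega

theorem min_form (cs : CoxeterSystem M W) (hM : Tri M) {g p : W} (h : MinNR cs g p) :
    (∃ e, p = cs.simple e ∧ cs.IsRightDescent g e) ∨
      ∃ e f, 3 ≤ M e f ∧ p ∈ WP cs {e, f} := by
  have hp1 : p ≠ 1 := by
    rintro rfl
    apply h.1
    unfold Rd
    rw [mul_one, cs.length_one, add_zero]
  obtain ⟨e, he⟩ := cs.exists_rightDescent_of_ne_one hp1
  obtain ⟨y₁, hy₁⟩ : ∃ y₁, y₁ = p * cs.simple e := ⟨_, rfl⟩
  have hpy : p = y₁ * cs.simple e := by
    rw [hy₁, mul_assoc, cs.simple_mul_simple_self, mul_one]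
  have hlp : cs.length y₁ + 1 = cs.length p := by
    rw [hy₁]; exact cs.isRightDescent_iff.1 he
  have hr1 : Rd cs y₁ (cs.simple e) := by
    unfold Rd
    rw [← hpy, cs.length_simple]; omega
  have hse : cs.simple e ≠ 1 := by
    intro h1
    have h2 := cs.length_simple e
    rw [h1, cs.length_one] at h2
    exact zero_ne_one h2
  have hgy : Rd cs g y₁ := h.2 _ _ hpy hr1 hse
  have hgy' : cs.length (g * y₁) = cs.length g + cs.length y₁ := hgy
  have hge : cs.IsRightDescent (g * y₁) e := by
    by_contra hn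
    have h1 := cs.not_isRightDescent_iff.1 hn
    apply h.1
    unfold Rd
    rw [hpy, ← mul_assoc, h1, ← hpy]
    omega
  have hye : ¬ cs.IsRightDescent y₁ e := by
    rw [cs.not_isRightDescent_iff, ← hpy]
    omega
  by_cases hy1 : y₁ = 1
  · refine Or.inl ⟨e, ?_, ?_⟩
    · rw [hpy, hy1, one_mul]
    · rw [hy1, mul_one] at hge
      exact hge
  right
  have key : ∀ f, cs.IsRightDescent y₁ f → f ≠ e ∧ 3 ≤ M e f ∧ cs.IsRightDescent (g * y₁) f := by
    intro f hf
    have hfe : f ≠ e := by
      rintro rfl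
      exact hye hf
    have hgf := T02b_step cs hgy hf
    obtain ⟨hm, -⟩ := two_rd cs hfe.symm hge hgf
    have hm1 : M e f ≠ 1 := M.off_diagonal e f hfe.symm
    refine ⟨hfe, ?_, hgf⟩
    by_contra h3
    have h2 : M e f = 2 := by omega
    have hc : Cm M ({e} : Set B) {f} := by
      intro i hi j hj
      rw [Set.mem_singleton_iff.1 hi, Set.mem_singleton_iff.1 hj]
      exact h2
    have hcm := cm_comm cs hc ((simple_mem_wp cs).2 (Set.mem_singleton e))
      ((simple_mem_wp cs).2 (Set.mem_singleton f))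
    have hpf : cs.IsRightDescent p f := by
      show cs.length (p * cs.simple f) < cs.length p
      rw [hpy, mul_assoc, hcm, ← mul_assoc, ← hpy]
      have h4 := cs.length_mul_le (y₁ * cs.simple f) (cs.simple e)
      rw [cs.length_simple] at h4
      have h5 := cs.isRightDescent_iff.1 hf
      omega
    exact hfe (min_unique cs h hpf he)
  obtain ⟨f, hf⟩ := cs.exists_rightDescent_of_ne_one hy1
  obtain ⟨hfe, hm3, hgf⟩ := key f hf
  have hef : e ≠ f := hfe.symm
  have hm0 : M e f ≠ 0 := by omega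
  obtain ⟨y₃, r, hyr, hy₃, hr⟩ := rm_exists cs {e, f} y₁
  have hle : cs.length y₁ = cs.length y₃ + cs.length r := by
    rw [hyr]; exact rm_len cs hy₃ hr
  have heJ : e ∈ ({e, f} : Set B) := Set.mem_insert _ _
  have hfJ : f ∈ ({e, f} : Set B) := Set.mem_insert_of_mem _ (Set.mem_singleton _)
  have hrf : cs.IsRightDescent r f := by
    rw [hyr] at hf
    exact (rd_rm_iff cs hy₃ hr hfJ).1 hf
  have hre : ¬ cs.IsRightDescent r e := by
    intro h1
    apply hye
    rw [hyr]
    exact (rd_rm_iff cs hy₃ hr heJ).2 h1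
  obtain ⟨hwe, hwf, -, -⟩ := pair_top_rd cs hef hm0
  have hwm := al_mem cs e f (M e f)
  have hwl : cs.length (al cs e f (M e f)) = M e f := len_al cs hef (Or.inl le_rfl)
  have hsuf := pair_suf cs hef hm0 hr
  obtain ⟨-, h₀, hgh, hrh⟩ := two_rd cs hef hge hgf
  have hRM := pair_top_rm cs hef hm0 hrh
  set w := al cs e f (M e f) with hw
  have hrl : cs.length r ≠ M e f := by
    intro h1
    apply hre
    rw [pair_len_eq cs hef hm0 hr h1]
    exact hwe
  have hrl' : cs.length r ≤ M e f := pair_len_le cs hef hm0 hr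
  obtain ⟨p', hp'⟩ : ∃ p', p' = w * r⁻¹ := ⟨_, rfl⟩
  have hp'm : p' ∈ WP cs {e, f} := by
    rw [hp']; exact mul_mem hwm (inv_mem hr)
  have hp'l : cs.length p' + cs.length r = M e f := by
    unfold Suf at hsuf
    rw [← hp', hwl] at hsuf
    omega
  have hgy₃ : g * y₃ = h₀ * p' := by
    have h1 : g * y₃ * r = h₀ * p' * r := by
      rw [mul_assoc, ← hyr, hgh, hp']
      group
    exact mul_right_cancel h1
  have hpr : p = y₃ * (r * cs.simple e) := by
    rw [hpy, hyr, mul_assoc]
  have hrse : r * cs.simple e ∈ WP cs {e, f} := mul_mem hr ((simple_mem_wp cs).2 heJ)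
  have hrsel : cs.length (r * cs.simple e) = cs.length r + 1 := cs.not_isRightDescent_iff.1 hre
  by_cases hy31 : y₃ = 1
  · refine ⟨e, f, hm3, ?_⟩
    rw [hpr, hy31, one_mul]
    exact hrse
  exfalso
  obtain ⟨f', hf'⟩ := cs.exists_rightDescent_of_ne_one hy31
  have hf'e : f' ≠ e := by
    rintro rfl
    exact hy₃ _ heJ hf'
  have hf'f : f' ≠ f := by
    rintro rfl
    exact hy₃ _ hfJ hf'
  have hgy3 : Rd cs g y₃ := by
    apply h.2 y₃ (r * cs.simple e) hpr
    · exact rm_len cs hy₃ hrse
    · intro h1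
      rw [h1, cs.length_one] at hrsel
      omega
  have hgf' := T02b_step cs hgy3 hf'
  have hp'1 : p' ≠ 1 := by
    rintro h1
    rw [h1, cs.length_one] at hp'l
    omega
  -- the length of `p'` is at least two
  have hp'2 : 2 ≤ cs.length p' := by
    by_contra h1
    have h2 : cs.length p' ≠ 0 := fun h3 => hp'1 (cs.length_eq_zero_iff.1 h3)
    have h3 : cs.length (r * cs.simple e) = M e f := by omega
    have h4 := pair_len_eq cs hef hm0 hrse h3
    rw [h4] at hpr
    have h5 : cs.IsRightDescent p e := by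
      rw [hpr]; exact (rd_rm_iff cs hy₃ hwm heJ).2 hwe
    have h6 : cs.IsRightDescent p f := by
      rw [hpr]; exact (rd_rm_iff cs hy₃ hwm hfJ).2 hwf
    exact hef (min_unique cs h h5 h6)
  have hp'w : p' ≠ w := by
    intro h1
    have h2 : cs.length p' = M e f := by rw [h1]; exact hwl
    have h3 : cs.length r = 0 := by omega
    have h4 := cs.length_eq_zero_iff.1 h3
    rw [h4] at hrf
    have h5 := cs.isRightDescent_iff.1 hrf
    rw [cs.length_one] at h5
    omega
  -- the two letters
  have main : ∀ a b : B, ({a, b} : Set B) = {e, f} → a ≠ b → 3 ≤ M a b →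
      cs.IsRightDescent p' b → ¬ cs.IsRightDescent p' a → False := by
    intro a b hab hne hmab hb ha
    have haJ : a ∈ ({e, f} : Set B) := by rw [← hab]; exact Set.mem_insert _ _
    have hbJ : b ∈ ({e, f} : Set B) := by
      rw [← hab]; exact Set.mem_insert_of_mem _ (Set.mem_singleton _)
    have hf'a : f' ≠ a := by
      rintro rfl
      exact hy₃ _ haJ hf'
    have hf'b : f' ≠ b := by
      rintro rfl
      exact hy₃ _ hbJ hf'
    have hgb : cs.IsRightDescent (g * y₃) b := by
      rw [hgy₃]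
      exact (rd_rm_iff cs hRM hp'm hbJ).2 hb
    have h1 := two_rd_step cs hf'b.symm hgb hgf'
    have hpb : cs.length (p' * cs.simple b) + 1 = cs.length p' := cs.isRightDescent_iff.1 hb
    have hpbm : p' * cs.simple b ∈ WP cs {e, f} := mul_mem hp'm ((simple_mem_wp cs).2 hbJ)
    have hpb1 : p' * cs.simple b ≠ 1 := by
      intro h2
      rw [h2, cs.length_one] at hpb
      omega
    have hpba : cs.IsRightDescent (p' * cs.simple b) a := by
      obtain ⟨c, hc⟩ := cs.exists_rightDescent_of_ne_one hpb1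
      have hcJ := rd_wp cs hpbm hc
      rw [← hab] at hcJ
      rcases hcJ with hc1 | hc1
      · rw [← hc1]; exact hc
      · exfalso
        rw [Set.mem_singleton_iff.1 hc1] at hc
        have h2 := cs.isRightDescent_iff.1 hc
        rw [mul_assoc, cs.simple_mul_simple_self, mul_one] at h2
        omega
    have hga : cs.IsRightDescent (g * y₃ * cs.simple b) a := by
      rw [hgy₃, mul_assoc]
      exact (rd_rm_iff cs hRM hpbm haJ).2 hpba
    obtain ⟨hM1, -⟩ := two_rd cs hf'a.symm hga h1
    obtain ⟨hM2, -⟩ := two_rd cs hf'b.symm hgb hgf'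
    have hM3 : M a f' ≠ 1 := M.off_diagonal a f' hf'a.symm
    have hM4 : M b f' ≠ 1 := M.off_diagonal b f' hf'b.symm
    have hM5 : M b f' = 2 := by
      by_contra h2
      exact hM1 (hM a b f' hne hf'b.symm hf'a.symm hmab (by omega))
    have hM6 : M a f' = 2 := by
      by_contra h2
      exact hM2 (hM b a f' hne.symm hf'a.symm hf'b.symm (by rw [M.symmetric b a]; exact hmab)
        (by omega))
    have hc : Cm M ({e, f} : Set B) {f'} := by
      rw [← hab]
      intro i hi j hj
      rw [Set.mem_singleton_iff.1 hj]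
      rcases hi with hi | hi
      · rw [hi]; exact hM6
      · rw [Set.mem_singleton_iff.1 hi]; exact hM5
    have hcm := cm_comm cs hc hr ((simple_mem_wp cs).2 (Set.mem_singleton f'))
    have h3 : cs.IsRightDescent y₁ f' := by
      show cs.length (y₁ * cs.simple f') < cs.length y₁
      have h4 : y₁ * cs.simple f' = y₃ * cs.simple f' * r := by
        rw [hyr, mul_assoc, hcm, mul_assoc]
      have h5 := cs.length_mul_le (y₃ * cs.simple f') r
      have h6 := cs.isRightDescent_iff.1 hf'
      rw [h4]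
      omega
    have h4 := (key f' h3).2.1
    have h5 : M e f' = 2 := hc e heJ f' (Set.mem_singleton _)
    omega
  rcases pair_rd_unique cs hef hm0 hp'm hp'1 hp'w with ⟨h1, h2⟩ | ⟨h1, h2⟩
  · exact main f e (Set.pair_comm f e) hfe (by rw [M.symmetric f e]; exact hm3) h1 h2
  · exact main e f rfl hef hm3 h2 h1

end Pool.Agent.Lib.KLT
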