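import Pool.Agent.Lib.MP_754fa1_al.T.T02

/-!
# T03a. The trichotomy: common descent

`J` spherical, `RM J x`, `LM J y`, `spt z = J`, `c` a right descent of `x z` and a left descent of `y`. Then case A or case B.

Proof. `c ∉ J` (`LM J y`). `x z` is reduced (`rm_len`, `mem_wp_spt`). `peel_right`: `c` is a right descent of `x` and
`M c e ≠ 0` for `e ∈ J`. (`M c e ≠ 1` as `c ≠ e`.)
* If `M c e = 2` for all `e ∈ J`: case A with `J' = {c}`, `p = q = s_c`, `x₁ = x s_c`, `y₁ = s_c y` (`s_c s_c = 1` is not
  reduced).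
* Otherwise `3 ≤ M c s` for some `s ∈ J`. For `e ∈ J`, `e ≠ s`: `3 ≤ M s e` would give `M c e = 0` (`hM c s e`), so
  `M s e = 2`; `3 ≤ M c e` would give `M s e = 0` (`hM s c e`), so `M c e = 2`. So with `r = c`, `K = J \ {s}`:
  `Cm {r, s} K`. Write `x = x₁ p`, `y = q y₁` with respect to `{r, s}`. `z = s_s z'` with `z' ∈ WP K`
  (`cm_union` for `{s}`, `K`: `z = a z'`, `a ∈ WP {s}`, `a ∈ {1, s_s}`, `a ≠ 1` as `s ∈ spt z`).
  `r` is a right descent of `x z = (x s_s) z'` (reduced, `r ∉ spt z'`), so by `peel_right` `r` is a right descent of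
  `x s_s = x₁ (p s_s)`, hence of `p s_s` (`rd_rm_iff`). `s` is not a right descent of `p` (as `RM J x`, `rd_rm_iff`), so it
  is one of `p s_s`. So `p s_s` is the longest element (`wp_two_ld` for the inverse, or `two_rd` and lengths).
  `r` is a left descent of `q` (`ld_lm_iff`). The longest element times `q` is not reduced as it has the right descent `r`
  (`pair_top_rd`) and `q` has the left descent `r`. So case B.
-/

open Pool.Agent.Lib.MP_754fa1_al

namespace Pool.Agent.Lib.KLT

universe u v w

variable {B : Type u} {W : Type v} [Group W] {M : CoxeterMatrix B}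

/-- a generator of the support which commutes with the others splits off -/
theorem split_iso (cs : CoxeterSystem M W) {J : Set B} {s : B} (hs : s ∈ J)
    (hc : Cm M {s} (J \ {s})) {z : W} (hz : spt cs z = J) :
    ∃ z' ∈ WP cs (J \ {s}), z = cs.simple s * z' ∧ spt cs z' = J \ {s} := by
  have hU : {s} ∪ (J \ {s}) = J := Set.union_diff_cancel (Set.singleton_subset_iff.2 hs)
  have hzJ : z ∈ WP cs ({s} ∪ (J \ {s})) := by
    rw [hU, wp_iff_spt cs, hz]
  obtain ⟨p, hp, q, hq, e⟩ := (cm_union cs hc).1 hzJ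
  rcases (wp_single cs).1 hp with h1 | h1
  · exfalso
    rw [h1, one_mul] at e
    rw [← e, wp_iff_spt cs, hz] at hq
    exact (hq hs).2 rfl
  · refine ⟨q, hq, by rw [e, h1], ?_⟩
    apply Set.Subset.antisymm ((wp_iff_spt cs).1 hq)
    intro j hj
    have h2 := spt_mul cs (cm_rd cs hc hp hq)
    rw [← e, hz, h1, spt_simple cs] at h2
    have h3 : j ∈ J := hj.1
    rw [h2] at h3
    rcases h3 with h3 | h3
    · exact absurd h3 hj.2
    · exact h3

theorem trich_common (cs : CoxeterSystem M W) (hM : Tri M) {J : Set B} (hJ : Sph M J)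
    {x y z : W} (hx : RM cs J x) (hy : LM cs J y) (hz : spt cs z = J) {c : B}
    (h : cs.IsRightDescent (x * z) c) (h' : cs.IsLeftDescent y c) :
    CaseA cs J x y ∨ CaseB cs J x y := by
  have hcJ : c ∉ J := fun hc => hy c hc h'
  have hzJ : z ∈ WP cs J := by
    rw [wp_iff_spt cs, hz]
  have hr : Rd cs x z := rm_len cs hx hzJ
  obtain ⟨h1, h2⟩ := peel_right cs hr (by rw [hz]; exact hcJ) h
  rw [hz] at h2
  have hne : ∀ e ∈ J, c ≠ e := fun e he hce => hcJ (hce ▸ he)
  have hne1 : ∀ e ∈ J, M c e ≠ 1 := fun e he => M.off_diagonal c e (hne e he)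
  have hsd : ∀ i : B, cs.IsRightDescent (cs.simple i) i ∧ cs.IsLeftDescent (cs.simple i) i := by
    intro i
    constructor
    · show cs.length (cs.simple i * cs.simple i) < cs.length (cs.simple i)
      rw [cs.simple_mul_simple_self, cs.length_one, cs.length_simple]
      exact Nat.one_pos
    · show cs.length (cs.simple i * cs.simple i) < cs.length (cs.simple i)
      rw [cs.simple_mul_simple_self, cs.length_one, cs.length_simple]
      exact Nat.one_pos
  by_cases hall : ∀ e ∈ J, M c e = 2
  · left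
    refine ⟨{c}, x * cs.simple c, cs.simple c, cs.simple c, cs.simple c * y,
      Or.inl ⟨c, rfl⟩, ?_, ?_, ?_, ?_, ?_, ?_, ?_, ?_⟩
    · rintro j rfl k hk
      exact hall k hk
    · rw [cs.simple_mul_simple_cancel_right]
    · rintro j rfl
      exact cs.isRightDescent_iff_not_isRightDescent_mul.1 h1
    · exact (simple_mem_wp cs).2 rfl
    · rw [cs.simple_mul_simple_cancel_left]
    · rintro j rfl
      exact cs.isLeftDescent_iff_not_isLeftDescent_mul.1 h'
    · exact (simple_mem_wp cs).2 rfl
    · exact not_rd_of_common cs (hsd c).1 (hsd c).2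
  · right
    push Not at hall
    obtain ⟨s, hs, hs2⟩ := hall
    have hcs : 3 ≤ M c s := by
      have a1 := h2 s hs
      have a2 := hne1 s hs
      omega
    have hse : ∀ e ∈ J, e ≠ s → M s e = 2 := by
      intro e he hes
      have a1 := hJ s hs e he
      have a2 := M.off_diagonal s e hes.symm
      have a3 : ¬ 3 ≤ M s e := fun h3 =>
        h2 e he (hM c s e (hne s hs) hes.symm (hne e he) hcs h3)
      omega
    have hce : ∀ e ∈ J, e ≠ s → M c e = 2 := by
      intro e he hes
      have a1 := h2 e he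
      have a2 := hne1 e he
      have a3 : ¬ 3 ≤ M c e := by
        intro h3
        have a4 := hM s c e (hne s hs).symm (hne e he) hes.symm
          (by rw [M.symmetric]; exact hcs) h3
        have a5 := hse e he hes
        omega
      omega
    have hcm : Cm M {c, s} (J \ {s}) := by
      intro j hj k hk
      rcases hj with rfl | rfl
      · exact hce k hk.1 hk.2
      · exact hse k hk.1 hk.2
    obtain ⟨x₁, p, e1, hx₁, hp⟩ := rm_exists cs {c, s} x
    obtain ⟨q, y₁, e2, hy₁, hq⟩ := lm_exists cs {c, s} y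
    have hcms : Cm M {s} (J \ {s}) := cm_mono hcm (by simp) (le_refl _)
    obtain ⟨z', hz', e3, hz's⟩ := split_iso cs hs hcms hz
    refine ⟨c, s, x₁, p, q, y₁, hs, hcJ, hcs, hcm, e1, hx₁, hp, e2, hy₁, hq, ?_⟩
    have hrs : Rd cs (cs.simple s) z' := cm_rd cs hcms ((simple_mem_wp cs).2 rfl) hz'
    have h3 : cs.IsRightDescent (x * cs.simple s) c := by
      refine peel_pre cs (z₂ := z') ?_ hrs ?_ ?_
      · rw [← e3]; exact hr
      · rw [← e3, hz]; exact hcJ
      · rw [← e3]; exact h
    have h4 : cs.IsRightDescent (p * cs.simple s) c := by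
      rw [e1, mul_assoc] at h3
      exact (rd_rm_iff cs hx₁ (Subgroup.mul_mem _ hp ((simple_mem_wp cs).2 (by simp)))
        (by simp)).1 h3
    have h5 : cs.IsLeftDescent q c := by
      rw [e2] at h'
      exact (ld_lm_iff cs hy₁ hq (by simp)).1 h'
    exact not_rd_of_common cs h4 h5

end Pool.Agent.Lib.KLT
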