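import Pool.Agent.Lib.MP_754fa1_al.T.T03a

/-!
# T03b. The trichotomy: a pair `{c, d}` disjoint from `J`

`J` spherical, `RM J x`, `LM J y`, `spt z = J`, `3 ≤ M c d`, `x z = g' p`, `RM {c, d} g'`, `p, q ∈ WP {c, d}`, `y = q y'`, `LM {c, d} y'`,
`p q` not reduced, no common right descent of `x z` / left descent of `y`, and `c, d ∉ J`. Then case A with `J' = {c, d}`.

Proof. `m = M c d`, `w = al c d m`. `p, q ≠ 1`. `p ≠ w` (else `p` has all right descents and `q` some left descent, giving a
common descent of `x z` and `y` by `rd_rm_iff`, `ld_lm_iff`), `q ≠ w` similarly. `ℓ(p) ≥ 2`: if `ℓ(p) = 1`, `p = s_a`, then `p q` not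
reduced means that `a` is a left descent of `q`, a common descent. Let `a ∈ {c, d}` be the right descent of `p`, `b` the other
element of `{c, d}`; `b` is a right descent of `p s_a`.
Claim: `e ∈ J` implies `M c e = M d e = 2`; and `x = x₁ p` with `RM {c, d} x₁`. Proof of the claim by induction on `ℓ(z)` in the following
form (`strip`): for all `z` with `Rd x z`, `c, d ∉ spt z`, `x z = g' p` (`RM {c, d} g'`, `p` as above: `ℓ(p) ≥ 2`, `p ≠ w`): all `e ∈ spt z` satisfy
`M c e = M d e = 2` and `x = x₁ p` for some `x₁` with `RM {c, d} x₁`.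
`z = 1`: clear. Let `e` be a right descent of `z`, `z = z₁ s_e`. `e` and `a` are right descents of `x z`, `e ≠ a, b`, so `M a e ≠ 0`
(`two_rd`), and `e` is a right descent of `x z s_a` (`two_rd_step`), as is `b` (`x z s_a = g' (p s_a)`); so `M b e ≠ 0`. `3 ≤ M a e`
would give `M b e = 0` (`hM b a e`), `3 ≤ M b e` would give `M a e = 0` (`hM a b e`). So `M a e = M b e = 2`, i.e. `M c e = M d e = 2`. Then
To see that `x z₁` has the same right part `p`, use `rm_uniq` with respect to `{c, d}`: write `x z₁ = g'' p''` with `RM {c, d} g''`, `p'' ∈ WP {c, d}`; `right_part` (`I = {c, d}`, `K = {e}`,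
`Rd (x z₁) s_e`) gives `RM {c, d} (g'' s_e)` and `x z = (g'' s_e) p''`; `rm_uniq`: `p'' = p`. So `x z₁ = g'' p`, and the
induction hypothesis applies to `z₁`.

With the claim: case A (`Cm {c, d} J`): `x = x₁ p`, `y = q y'`.
-/

open Pool.Agent.Lib.MP_754fa1_al

namespace Pool.Agent.Lib.KLT

universe u v w

variable {B : Type u} {W : Type v} [Group W] {M : CoxeterMatrix B}

/-- the step of `strip` -/
theorem T03b_step (cs : CoxeterSystem M W) (hM : Tri M) {a b : B} (hab : 3 ≤ M a b)
    {g p v : W} {f : B} (hg : RM cs {a, b} g) (hp : p ∈ WP cs {a, b})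
    (h2 : 2 ≤ cs.length p) (ha : cs.IsRightDescent p a) (hv : v = g * p)
    (hf : cs.IsRightDescent v f) (hfa : a ≠ f) (hfb : b ≠ f) : M a f = 2 ∧ M b f = 2 := by
  have hne : a ≠ b := ne_of_three hab
  have haI : a ∈ ({a, b} : Set B) := by simp
  have hbI : b ∈ ({a, b} : Set B) := by simp
  have hpa : p * cs.simple a ∈ WP cs {a, b} :=
    (WP cs {a, b}).mul_mem hp ((simple_mem_wp cs).mpr haI)
  have hla : cs.length (p * cs.simple a) + 1 = cs.length p := cs.isRightDescent_iff.mp ha
  have hpa1 : p * cs.simple a ≠ 1 := by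
    intro h0
    rw [h0, cs.length_one] at hla
    omega
  obtain ⟨b', hb'⟩ := cs.exists_rightDescent_of_ne_one hpa1
  have hb'I := rd_wp cs hpa hb'
  have hb'b : b' = b := by
    rcases hb'I with h | h
    · exfalso
      subst h
      exact (cs.isRightDescent_iff_not_isRightDescent_mul.mp ha) hb'
    · exact h
  subst hb'b
  have h3 : cs.IsRightDescent v a := by
    rw [hv]; exact (rd_rm_iff cs hg hp haI).mpr ha
  obtain ⟨h4, _⟩ := two_rd cs hfa h3 hf
  have h5 : cs.IsRightDescent (v * cs.simple a) f := two_rd_step cs hfa h3 hf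
  have h6 : cs.IsRightDescent (v * cs.simple a) b' := by
    rw [hv, mul_assoc]; exact (rd_rm_iff cs hg hpa hbI).mpr hb'
  obtain ⟨h7, _⟩ := two_rd cs hfb h6 h5
  have h8 : M a f ≠ 1 := M.off_diagonal a f hfa
  have h9 : M b' f ≠ 1 := M.off_diagonal b' f hfb
  have h10 : ¬ 3 ≤ M a f := fun h => h7 (hM b' a f hne.symm hfa hfb (by
    rw [M.symmetric b' a]; exact hab) h)
  have h11 : ¬ 3 ≤ M b' f := fun h => h4 (hM a b' f hne hfb hfa hab h)
  constructor <;> omega

theorem strip (cs : CoxeterSystem M W) (hM : Tri M) {c d : B} (hcd : 3 ≤ M c d) {x z g' p : W}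
    (hr : Rd cs x z) (hc : c ∉ spt cs z) (hd : d ∉ spt cs z) (e : x * z = g' * p)
    (hg : RM cs {c, d} g') (hp : p ∈ WP cs {c, d}) (h2 : 2 ≤ cs.length p)
    (hw : p ≠ al cs c d (M c d)) :
    (∀ e ∈ spt cs z, M c e = 2 ∧ M d e = 2) ∧ ∃ x₁, x = x₁ * p ∧ RM cs {c, d} x₁ := by
  have hne : c ≠ d := ne_of_three hcd
  have hm : M c d ≠ 0 := by omega
  have hp1 : p ≠ 1 := by
    intro h0
    rw [h0, cs.length_one] at h2
    omega
  have hdc : ({d, c} : Set B) = {c, d} := Set.pair_comm d c
  have hstep : ∀ (v g : W) (f : B), RM cs {c, d} g → v = g * p → cs.IsRightDescent v f →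
      c ≠ f → d ≠ f → M c f = 2 ∧ M d f = 2 := by
    intro v g f hg hv hf hfc hfd
    rcases pair_rd_unique cs hne hm hp hp1 hw with ⟨h, _⟩ | ⟨_, h⟩
    · exact T03b_step cs hM hcd hg hp h2 h hv hf hfc hfd
    · have h3 : 3 ≤ M d c := by rw [M.symmetric d c]; exact hcd
      have h4 := T03b_step cs hM h3 (g := g) (p := p) (v := v) (f := f)
        (by rw [hdc]; exact hg) (by rw [hdc]; exact hp) h2 h hv hf hfd hfc
      exact ⟨h4.2, h4.1⟩
  suffices hmain : ∀ (n : ℕ) (z g' : W), cs.length z = n → Rd cs x z → c ∉ spt cs z →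
      d ∉ spt cs z → x * z = g' * p → RM cs {c, d} g' →
      (∀ e ∈ spt cs z, M c e = 2 ∧ M d e = 2) ∧ ∃ x₁, x = x₁ * p ∧ RM cs {c, d} x₁ from
    hmain (cs.length z) z g' rfl hr hc hd e hg
  intro n
  induction n with
  | zero =>
    intro z g' hl _ _ _ e hg
    have hz : z = 1 := cs.length_eq_zero_iff.mp hl
    subst hz
    rw [mul_one] at e
    refine ⟨?_, g', e, hg⟩
    intro f hf
    rw [spt_one] at hf
    exact absurd hf (Set.notMem_empty f)
  | succ n ih =>
    intro z g' hl hr hc hd e hg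
    have hz1 : z ≠ 1 := by
      intro h0
      rw [h0, cs.length_one] at hl
      omega
    obtain ⟨f, hf⟩ := cs.exists_rightDescent_of_ne_one hz1
    have hlf : cs.length (z * cs.simple f) + 1 = cs.length z := cs.isRightDescent_iff.mp hf
    set z₁ := z * cs.simple f with hz₁
    have hzz : z = z₁ * cs.simple f := by
      rw [hz₁, mul_assoc, cs.simple_mul_simple_self, mul_one]
    have hrz : Rd cs z₁ (cs.simple f) := by
      unfold Rd
      rw [← hzz, cs.length_simple]
      exact hlf.symm
    have hspt : spt cs z = spt cs z₁ ∪ {f} := by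
      rw [hzz, spt_mul cs hrz, spt_simple]
    have hfz : f ∈ spt cs z := by rw [hspt]; simp
    have hcf : c ≠ f := by
      rintro rfl
      exact hc hfz
    have hdf : d ≠ f := by
      rintro rfl
      exact hd hfz
    have hr' : cs.length (x * z) = cs.length x + cs.length z := hr
    have e1 : x * z = (x * z₁) * cs.simple f := by
      rw [mul_assoc, ← hzz]
    have hl1 : cs.length (x * z) ≤ cs.length (x * z₁) + 1 := by
      rw [e1]
      have := cs.length_mul_le (x * z₁) (cs.simple f)
      rwa [cs.length_simple] at this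
    have hl2 := cs.length_mul_le x z₁
    have hrz1 : cs.length (x * z₁) = cs.length x + cs.length z₁ := by omega
    have hr2 : Rd cs (x * z₁) (cs.simple f) := by
      unfold Rd
      rw [← e1, cs.length_simple]
      omega
    have hfd : cs.IsRightDescent (x * z) f := by
      rw [cs.isRightDescent_iff]
      have h1 : x * z * cs.simple f = x * z₁ := by rw [hz₁, mul_assoc]
      rw [h1]
      omega
    have hMf := hstep (x * z) g' f hg e hfd hcf hdf
    obtain ⟨g'', p'', e2, hg'', hp''⟩ := rm_exists cs {c, d} (x * z₁)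
    have hcm : Cm M {c, d} {f} := by
      intro j hj k hk
      rw [Set.mem_singleton_iff] at hk
      subst hk
      rcases hj with h | h
      · rw [h]; exact hMf.1
      · rw [Set.mem_singleton_iff] at h
        rw [h]; exact hMf.2
    obtain ⟨h3, h4⟩ := right_part cs hcm ((simple_mem_wp cs).mpr (Set.mem_singleton f)) hr2 e2
      hg'' hp''
    have h5 : g'' * cs.simple f * p'' = g' * p := by
      rw [← h4, ← e1, e]
    obtain ⟨h6, h7⟩ := rm_uniq cs h3 hg hp'' hp h5
    have e3 : x * z₁ = g'' * p := by rw [e2, h7]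
    obtain ⟨h8, h9⟩ := ih z₁ g'' (by omega) hrz1
      (fun h => hc (by rw [hspt]; exact Or.inl h))
      (fun h => hd (by rw [hspt]; exact Or.inl h)) e3 hg''
    refine ⟨?_, h9⟩
    intro f' hf'
    rw [hspt] at hf'
    rcases hf' with h | h
    · exact h8 f' h
    · rw [Set.mem_singleton_iff] at h
      rw [h]; exact hMf

theorem trich_out (cs : CoxeterSystem M W) (hM : Tri M) {J : Set B}
    {x y z : W} (hx : RM cs J x) (hz : spt cs z = J) {c d : B}
    (hcd : 3 ≤ M c d) {g' p q y' : W} (e : x * z = g' * p) (hg : RM cs {c, d} g')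
    (hp : p ∈ WP cs {c, d}) (e' : y = q * y') (hy' : LM cs {c, d} y') (hq : q ∈ WP cs {c, d})
    (hpq : ¬ Rd cs p q) (hno : ∀ a, ¬ (cs.IsRightDescent (x * z) a ∧ cs.IsLeftDescent y a))
    (hc : c ∉ J) (hd : d ∉ J) : CaseA cs J x y := by
  have hne : c ≠ d := ne_of_three hcd
  have hm : M c d ≠ 0 := by omega
  have hp1 : p ≠ 1 := by
    rintro rfl
    apply hpq
    unfold Rd
    rw [one_mul, cs.length_one, zero_add]
  have hq1 : q ≠ 1 := by
    rintro rfl
    apply hpq
    unfold Rd
    rw [mul_one, cs.length_one, add_zero]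
  have hnc : ∀ a ∈ ({c, d} : Set B), cs.IsRightDescent p a → ¬ cs.IsLeftDescent q a := by
    intro a ha h1 h2
    apply hno a
    constructor
    · rw [e]; exact (rd_rm_iff cs hg hp ha).mpr h1
    · rw [e']; exact (ld_lm_iff cs hy' hq ha).mpr h2
  have hw : p ≠ al cs c d (M c d) := by
    intro h0
    obtain ⟨h1, h2, _, _⟩ := pair_top_rd cs hne hm
    obtain ⟨a, ha⟩ := cs.exists_leftDescent_of_ne_one hq1
    have haI := ld_wp cs hq ha
    apply hnc a haI _ ha
    rw [h0]
    rcases haI with h | h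
    · rw [h]; exact h1
    · rw [Set.mem_singleton_iff] at h
      rw [h]; exact h2
  have h2 : 2 ≤ cs.length p := by
    by_contra h0
    have h1 : cs.length p ≠ 0 := fun h => hp1 (cs.length_eq_zero_iff.mp h)
    have h3 : cs.length p = 1 := by omega
    obtain ⟨a, ha⟩ := cs.length_eq_one_iff.mp h3
    have haI : a ∈ ({c, d} : Set B) := by
      rw [ha] at hp
      exact (simple_mem_wp cs).mp hp
    have h4 : cs.IsRightDescent p a := by
      rw [cs.isRightDescent_iff, ha, cs.simple_mul_simple_self, cs.length_one, cs.length_simple]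
    apply hnc a haI h4
    rw [cs.isLeftDescent_iff]
    rcases cs.length_simple_mul q a with h5 | h5
    · exfalso
      apply hpq
      unfold Rd
      rw [ha, h5, cs.length_simple, add_comm]
    · exact h5
  have hzJ : z ∈ WP cs J := by
    rw [← hz]; exact mem_wp_spt cs z
  have hr : Rd cs x z := rm_len cs hx hzJ
  obtain ⟨h3, x₁, h4, h5⟩ := strip cs hM hcd hr (by rw [hz]; exact hc) (by rw [hz]; exact hd) e hg
    hp h2 hw
  refine ⟨{c, d}, x₁, p, q, y', Or.inr ⟨c, d, hcd, rfl⟩, ?_, h4, h5, hp, e', hy', hq, hpq⟩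
  intro j hj k hk
  rw [← hz] at hk
  rcases hj with h | h
  · rw [h]; exact (h3 k hk).1
  · rw [Set.mem_singleton_iff] at h
    rw [h]; exact (h3 k hk).2

end Pool.Agent.Lib.KLT
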