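import Pool.Agent.Lib.MP_754fa1_al.T.X1a
import Pool.Agent.Lib.MP_754fa1_al.T.A03a

/-!
# X1b. The condition `LL`

Everything is coordinatewise. `ll_hp`: `hp_iff_c`. `ll_smul`: `DegLe 0 r`: the coefficient of `r x` at `av w` is `r_0 x_{av w}` (`coeff_mul_top`), so if it is non-zero, so is the one of `x`.
`ll_smul_neg`: `DegLe (-1) r`: the coefficient at `av w` is `0`. `ll_sum`: induction (`Finset.induction_on`).
`ll_mul`: `w ∉ WP (J ∪ K)`: `hp_cm`, `hp_iff_c`. `w = p q` (`cm_union`): the coordinate is the product (`cB_repr_cm`), `av (p q) = av p + av q` (`av_cm`), `coeff_mul_top`.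
`ll_c`: the coordinates of `C_w`.
-/

open LaurentPolynomial
open Pool.Agent.Lib.MP_754fa1_al

namespace Pool.Agent.Lib.KLT

universe u v w

variable {B : Type u} {W : Type v} [Group W] {M : CoxeterMatrix B}
variable {cs : CoxeterSystem M W} {L : B → ℕ} {H : Type w} [Ring H] [Algebra Lau H]
variable (D : KL cs L H)

theorem ll_hp {J : Set B} {P : W → Prop} {h : H} (a : LL D J P h) : HP D.toHecke J h :=
  (hp_iff_c D).2 fun w hw => (a w).1 hw

theorem ll_zero (J : Set B) (P : W → Prop) : LL D J P 0 := by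
  intro w
  rw [map_zero, Finsupp.zero_apply]
  exact ⟨fun _ => rfl, DegLe.zero, fun h => absurd (lp_coeff_zero _) h⟩

theorem ll_add {J : Set B} {P : W → Prop} {h k : H} (a : LL D J P h) (b : LL D J P k) :
    LL D J P (h + k) := by
  intro w
  obtain ⟨a1, a2, a3⟩ := a w
  obtain ⟨b1, b2, b3⟩ := b w
  rw [map_add, Finsupp.add_apply]
  refine ⟨fun hw => by rw [a1 hw, b1 hw, add_zero], a2.add b2, fun hne => ?_⟩
  by_cases h0 : (D.cB.repr h w).coeff (av cs L w) = 0
  · apply b3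
    intro h1
    apply hne
    rw [lp_coeff_add, h0, h1, add_zero]
  · exact a3 h0

theorem ll_neg {J : Set B} {P : W → Prop} {h : H} (a : LL D J P h) : LL D J P (-h) := by
  intro w
  obtain ⟨a1, a2, a3⟩ := a w
  rw [map_neg, Finsupp.neg_apply]
  refine ⟨fun hw => by rw [a1 hw, neg_zero], a2.neg, fun hne => ?_⟩
  apply a3
  intro h1
  apply hne
  rw [lp_coeff_neg, h1, neg_zero]

theorem ll_sum {ι : Type*} {J : Set B} {P : W → Prop} (s : Finset ι) (f : ι → H)
    (h : ∀ i ∈ s, LL D J P (f i)) : LL D J P (∑ i ∈ s, f i) := by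
  classical
  induction s using Finset.induction_on with
  | empty => rw [Finset.sum_empty]; exact ll_zero D J P
  | insert a s ha ih =>
    rw [Finset.sum_insert ha]
    exact ll_add D (h a (Finset.mem_insert_self _ _))
      (ih fun i hi => h i (Finset.mem_insert_of_mem hi))

theorem ll_smul {J : Set B} {P : W → Prop} {r : Lau} (hr : DegLe 0 r) {h : H}
    (a : LL D J P h) : LL D J P (r • h) := by
  intro w
  obtain ⟨a1, a2, a3⟩ := a w
  rw [map_smul, Finsupp.smul_apply, smul_eq_mul]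
  refine ⟨fun hw => by rw [a1 hw, mul_zero], (hr.mul a2).mono (by omega), fun hne => ?_⟩
  apply a3
  intro h1
  apply hne
  have h2 := coeff_mul_top hr a2
  rw [zero_add] at h2
  rw [h2, h1, mul_zero]

theorem ll_smul_neg {J : Set B} {P Q : W → Prop} {r : Lau} (hr : DegLe (-1) r) {h : H}
    (a : LL D J P h) : LL D J Q (r • h) := by
  intro w
  obtain ⟨a1, a2, _⟩ := a w
  rw [map_smul, Finsupp.smul_apply, smul_eq_mul]
  have h1 := hr.mul a2
  refine ⟨fun hw => by rw [a1 hw, mul_zero], h1.mono (by omega), fun hne => ?_⟩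
  exact absurd (h1 _ (by omega)) hne

theorem ll_mono {J K : Set B} (hJ : J ⊆ K) {P Q : W → Prop} (hP : ∀ w ∈ WP cs J, P w → Q w)
    {h : H} (a : LL D J P h) : LL D K Q h := by
  intro w
  obtain ⟨a1, a2, a3⟩ := a w
  refine ⟨fun hw => a1 fun h' => hw (wp_mono cs hJ h'), a2, fun hne => ?_⟩
  by_cases hw : w ∈ WP cs J
  · exact hP w hw (a3 hne)
  · rw [a1 hw] at hne
    exact absurd (lp_coeff_zero _) hne

variable [Finite B]

theorem ll_mul {J K : Set B} (hc : Cm M J K) {P Q : W → Prop} {h k : H} (a : LL D J P h)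
    (b : LL D K Q k) :
    LL D (J ∪ K) (fun w => ∃ p ∈ WP cs J, ∃ q ∈ WP cs K, w = p * q ∧ P p ∧ Q q) (h * k) := by
  have ha := ll_hp D a
  have hb := ll_hp D b
  intro w
  by_cases hw : w ∈ WP cs (J ∪ K)
  · obtain ⟨p, hp, q, hq, rfl⟩ := (cm_union cs hc).1 hw
    obtain ⟨_, a2, a3⟩ := a p
    obtain ⟨_, b2, b3⟩ := b q
    rw [cB_repr_cm D hc ha hb hp hq, av_cm cs L hc hp hq, Nat.cast_add]
    refine ⟨fun h' => absurd hw h', a2.mul b2, fun hne => ?_⟩
    rw [coeff_mul_top a2 b2] at hne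
    exact ⟨p, hp, q, hq, rfl, a3 (left_ne_zero_of_mul hne), b3 (right_ne_zero_of_mul hne)⟩
  · have h0 : D.cB.repr (h * k) w = 0 := (hp_iff_c D).1 (hp_cm D.toHecke ha hb) w hw
    rw [h0]
    exact ⟨fun _ => rfl, DegLe.zero, fun h => absurd (lp_coeff_zero _) h⟩

end Pool.Agent.Lib.KLT
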