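import Pool.Agent.Lib.MP_754fa1_al.T.X1a

/-!
# X3. The parts `tr K h`

`repr_tr`: it suffices to check `h = T_y` (both sides linear; `Module.Basis.constr_basis`, `Module.Basis.repr_self`), or span induction. `tr_t`: definition. `hp_tr`: `repr_tr`, `mem_wp_spt`.
`tr_zero_of_hp`: `h ∈ H_J`, `K ⊄ J`: if `spt z = K` then `z ∉ WP J` (`wp_iff_spt`). `tr_sum`: coordinates: for each `z` exactly one `K` counts.
`tr_cm`: span induction in both arguments: `h = T_p`, `k = T_q`, `p ∈ WP J`, `q ∈ WP K`: `spt (p q) = spt p ∪ spt q` (`spt_mul`, `cm_rd`); since `J`, `K` are disjoint (`cm_disj`), `spt p ⊆ J`, `spt q ⊆ K`,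
`I ⊆ J`, `I' ⊆ K`: `spt p ∪ spt q = I ∪ I'` iff `spt p = I` and `spt q = I'`.
`tr_empty`, `tr_single`: `spt z = ∅` iff `z = 1` (`spt_empty`); `spt z = {s}` iff `z = s_s` (`wp_single`). `tr_pair`: `h ∈ H_{ij}`: coordinates: `z ∈ WP {i, j}` has support `∅`, `{i}`, `{j}` or `{i, j}`.
-/

open LaurentPolynomial
open Pool.Agent.Lib.MP_754fa1_al

namespace Pool.Agent.Lib.KLT

universe u v w

variable {B : Type u} {W : Type v} [Group W] {M : CoxeterMatrix B}
variable {cs : CoxeterSystem M W} {L : B → ℕ} {H : Type w} [Ring H] [Algebra Lau H]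
variable (D : Hecke cs L H)

open Classical in
theorem tr_t (K : Set B) (z : W) : tr D K (D.t z) = if spt cs z = K then D.t z else 0 := by
  unfold tr
  rw [Module.Basis.constr_basis]

open Classical in
theorem repr_tr (K : Set B) (h : H) (z : W) :
    D.t.repr (tr D K h) z = if spt cs z = K then D.t.repr h z else 0 := by
  have key : (Finsupp.lapply z) ∘ₗ (D.t.repr : H →ₗ[Lau] W →₀ Lau) ∘ₗ tr D K =
      if spt cs z = K then (Finsupp.lapply z) ∘ₗ (D.t.repr : H →ₗ[Lau] W →₀ Lau) else 0 := by
    apply D.t.ext
    intro y
    have h1 : ((Finsupp.lapply z) ∘ₗ (D.t.repr : H →ₗ[Lau] W →₀ Lau) ∘ₗ tr D K) (D.t y) =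
        D.t.repr (tr D K (D.t y)) z := rfl
    rw [h1, tr_t]
    by_cases hy : spt cs y = K
    · rw [if_pos hy]
      by_cases hz : spt cs z = K
      · rw [if_pos hz]; rfl
      · rw [if_neg hz, D.t.repr_self_apply, if_neg]
        · rfl
        · rintro rfl; exact hz hy
    · rw [if_neg hy, map_zero]
      by_cases hz : spt cs z = K
      · rw [if_pos hz]
        show (0 : Lau) = D.t.repr (D.t y) z
        rw [D.t.repr_self_apply, if_neg]
        rintro rfl; exact hy hz
      · rw [if_neg hz]; rfl
  have h2 := LinearMap.congr_fun key h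
  have h3 : ((Finsupp.lapply z) ∘ₗ (D.t.repr : H →ₗ[Lau] W →₀ Lau) ∘ₗ tr D K) h =
      D.t.repr (tr D K h) z := rfl
  rw [h3] at h2
  rw [h2]
  by_cases hz : spt cs z = K
  · rw [if_pos hz, if_pos hz]; rfl
  · rw [if_neg hz, if_neg hz]; rfl

theorem hp_tr (K : Set B) (h : H) : HP D K (tr D K h) := by
  classical
  intro z hz
  rw [repr_tr, if_neg]
  rintro rfl
  exact hz (mem_wp_spt cs z)

theorem tr_zero_of_hp {J K : Set B} {h : H} (a : HP D J h) (hK : ¬ K ⊆ J) : tr D K h = 0 := by
  classical
  apply D.t.repr.injective
  ext1 z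
  rw [repr_tr, map_zero]
  by_cases hz : spt cs z = K
  · rw [if_pos hz]
    apply a
    intro h1
    apply hK
    rw [← hz]
    exact (wp_iff_spt cs).1 h1
  · rw [if_neg hz]; rfl

theorem tr_sum [Finite B] (h : H) :
    ∑ K ∈ (Set.toFinite (Set.univ : Set (Set B))).toFinset, tr D K h = h := by
  classical
  apply D.t.repr.injective
  ext1 z
  rw [map_sum, Finsupp.finset_sum_apply]
  rw [Finset.sum_congr rfl fun K _ => repr_tr D K h z]
  rw [Finset.sum_ite_eq]
  rw [if_pos]
  rw [Set.Finite.mem_toFinset]
  exact Set.mem_univ _

private theorem X3_mono {J K : Set B} (h : J ⊆ K) {x : H} (a : HP D J x) : HP D K x :=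
  fun z hz => a z fun h1 => hz (wp_mono cs h h1)

theorem tr_cm {J K : Set B} (hc : Cm M J K) {h k : H} (a : HP D J h) (b : HP D K k)
    {I I' : Set B} (hI : I ⊆ J) (hI' : I' ⊆ K) :
    tr D (I ∪ I') (h * k) = tr D I h * tr D I' k := by
  classical
  apply D.t.repr.injective
  ext1 z
  have a' := X3_mono D hI (hp_tr D I h)
  have b' := X3_mono D hI' (hp_tr D I' k)
  by_cases hz : z ∈ WP cs (J ∪ K)
  · obtain ⟨p, hp, q, hq, rfl⟩ := (cm_union cs hc).1 hz
    rw [repr_cm D hc a' b' hp hq, repr_tr, repr_tr, repr_tr, repr_cm D hc a b hp hq,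
      spt_mul cs (cm_rd cs hc hp hq)]
    have hsp := (wp_iff_spt cs).1 hp
    have hsq := (wp_iff_spt cs).1 hq
    have hdis := cm_disj hc
    have hiff : spt cs p ∪ spt cs q = I ∪ I' ↔ spt cs p = I ∧ spt cs q = I' := by
      constructor
      · intro e
        constructor
        · ext x
          constructor
          · intro hx
            have h1 : x ∈ I ∪ I' := by rw [← e]; exact Or.inl hx
            rcases h1 with h1 | h1
            · exact h1
            · exact absurd (hI' h1) (Set.disjoint_left.1 hdis (hsp hx))
          · intro hx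
            have h1 : x ∈ spt cs p ∪ spt cs q := by rw [e]; exact Or.inl hx
            rcases h1 with h1 | h1
            · exact h1
            · exact absurd (hsq h1) (Set.disjoint_left.1 hdis (hI hx))
        · ext x
          constructor
          · intro hx
            have h1 : x ∈ I ∪ I' := by rw [← e]; exact Or.inr hx
            rcases h1 with h1 | h1
            · exact absurd (hsq hx) (Set.disjoint_left.1 hdis (hI h1))
            · exact h1
          · intro hx
            have h1 : x ∈ spt cs p ∪ spt cs q := by rw [e]; exact Or.inr hx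
            rcases h1 with h1 | h1
            · exact absurd (hI' hx) (Set.disjoint_left.1 hdis (hsp h1))
            · exact h1
      · rintro ⟨rfl, rfl⟩; rfl
    by_cases h1 : spt cs p = I
    · by_cases h2 : spt cs q = I'
      · rw [if_pos (hiff.2 ⟨h1, h2⟩), if_pos h1, if_pos h2]
      · rw [if_neg (fun e => h2 (hiff.1 e).2), if_neg h2, mul_zero]
    · rw [if_neg (fun e => h1 (hiff.1 e).1), if_neg h1, zero_mul]
  · rw [hp_cm D a' b' z hz, repr_tr]
    by_cases h1 : spt cs z = I ∪ I'
    · rw [if_pos h1]
      exact hp_cm D a b z hz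
    · rw [if_neg h1]

theorem tr_empty (h : H) : tr D ∅ h = D.t.repr h 1 • (1 : H) := by
  classical
  apply D.t.repr.injective
  ext1 z
  rw [repr_tr, map_smul, Finsupp.smul_apply, ← D.t_one, D.t.repr_self_apply]
  by_cases h1 : spt cs z = ∅
  · have h2 := spt_empty cs h1
    rw [if_pos h1, h2, if_pos rfl, smul_eq_mul, mul_one]
  · rw [if_neg h1, if_neg, smul_zero]
    rintro rfl
    exact h1 (spt_one cs)

theorem tr_single (s : B) (h : H) :
    tr D {s} h = D.t.repr h (cs.simple s) • D.t (cs.simple s) := by
  classical
  apply D.t.repr.injective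
  ext1 z
  rw [repr_tr, map_smul, Finsupp.smul_apply, D.t.repr_self_apply]
  by_cases h1 : spt cs z = {s}
  · have h2 : z ∈ WP cs {s} := (wp_iff_spt cs).2 h1.le
    rcases (wp_single cs).1 h2 with h3 | h3
    · exfalso
      rw [h3, spt_one] at h1
      exact Set.singleton_ne_empty s h1.symm
    · rw [if_pos h1, h3, if_pos rfl, smul_eq_mul, mul_one]
  · rw [if_neg h1, if_neg, smul_zero]
    rintro rfl
    exact h1 (spt_simple cs s)

theorem tr_pair {i j : B} (hij : i ≠ j) {h : H} (a : HP D {i, j} h) :
    tr D {i, j} h = h - D.t.repr h 1 • (1 : H) - D.t.repr h (cs.simple i) • D.t (cs.simple i) -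
      D.t.repr h (cs.simple j) • D.t (cs.simple j) := by
  classical
  apply D.t.repr.injective
  ext1 z
  rw [repr_tr, map_sub, map_sub, map_sub, Finsupp.sub_apply, Finsupp.sub_apply,
    Finsupp.sub_apply, map_smul, map_smul, map_smul, Finsupp.smul_apply, Finsupp.smul_apply,
    Finsupp.smul_apply, ← D.t_one, D.t.repr_self_apply, D.t.repr_self_apply,
    D.t.repr_self_apply]
  have hiJ : i ∈ ({i, j} : Set B) := Set.mem_insert _ _
  have hjJ : j ∈ ({i, j} : Set B) := Set.mem_insert_of_mem _ (Set.mem_singleton _)
  have h1i : cs.simple i ≠ 1 := by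
    intro e
    have := spt_simple cs i
    rw [e, spt_one] at this
    exact Set.singleton_ne_empty i this.symm
  have h1j : cs.simple j ≠ 1 := by
    intro e
    have := spt_simple cs j
    rw [e, spt_one] at this
    exact Set.singleton_ne_empty j this.symm
  have hsij : cs.simple i ≠ cs.simple j := by
    intro e
    have h1 := spt_simple cs i
    rw [e, spt_simple] at h1
    exact hij (Set.singleton_injective h1).symm
  by_cases hz : z ∈ WP cs {i, j}
  · have hsub := (wp_iff_spt cs).1 hz
    by_cases c1 : z = 1
    · subst c1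
      rw [if_neg (by rw [spt_one]; exact (Set.insert_nonempty i {j}).ne_empty.symm), if_pos rfl,
        if_neg h1i, if_neg h1j, smul_zero, smul_zero, smul_eq_mul, mul_one]
      simp
    · by_cases c2 : z = cs.simple i
      · subst c2
        have h2 : ¬ spt cs (cs.simple i) = {i, j} := by
          rw [spt_simple]
          intro e
          have : j ∈ ({i} : Set B) := by rw [e]; exact hjJ
          exact hij (Set.mem_singleton_iff.1 this).symm
        rw [if_neg h2, if_neg h1i.symm, if_pos rfl, if_neg hsij.symm, smul_zero, smul_zero,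
          smul_eq_mul, mul_one]
        simp
      · by_cases c3 : z = cs.simple j
        · subst c3
          have h2 : ¬ spt cs (cs.simple j) = {i, j} := by
            rw [spt_simple]
            intro e
            have : i ∈ ({j} : Set B) := by rw [e]; exact hiJ
            exact hij (Set.mem_singleton_iff.1 this)
          rw [if_neg h2, if_neg h1j.symm, if_neg hsij, if_pos rfl, smul_zero, smul_zero,
            smul_eq_mul, mul_one]
          simp
        · have h2 : spt cs z = {i, j} := by
            apply Set.Subset.antisymm hsub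
            by_contra h3
            by_cases h4 : i ∈ spt cs z
            · have h5 : j ∉ spt cs z := by
                intro h6
                apply h3
                rintro x (rfl | hx)
                · exact h4
                · rw [Set.mem_singleton_iff.1 hx]; exact h6
              have h6 : z ∈ WP cs {i} := by
                rw [wp_iff_spt]
                intro x hx
                rcases hsub hx with h7 | h7
                · exact h7
                · exact absurd (by rw [← Set.mem_singleton_iff.1 h7]; exact hx) h5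
              rcases (wp_single cs).1 h6 with h7 | h7
              · exact c1 h7
              · exact c2 h7
            · have h6 : z ∈ WP cs {j} := by
                rw [wp_iff_spt]
                intro x hx
                rcases hsub hx with h7 | h7
                · exact absurd (by rw [← h7]; exact hx) h4
                · exact h7
              rcases (wp_single cs).1 h6 with h7 | h7
              · exact c1 h7
              · exact c3 h7
          rw [if_pos h2, if_neg (Ne.symm c1), if_neg (Ne.symm c2), if_neg (Ne.symm c3)]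
          simp
  · have h2 : ¬ spt cs z = {i, j} := fun e => hz ((wp_iff_spt cs).2 e.le)
    rw [if_neg h2, a z hz, if_neg, if_neg, if_neg]
    · simp
    · rintro rfl; exact hz ((simple_mem_wp cs).2 hjJ)
    · rintro rfl; exact hz ((simple_mem_wp cs).2 hiJ)
    · rintro rfl; exact hz (one_mem _)

end Pool.Agent.Lib.KLT
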