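import Pool.Agent.Lib.MP_754fa1_al.T.X1b
import Pool.Agent.Lib.MP_754fa1_al.T.X3
import Pool.Agent.Lib.MP_754fa1_al.T.D05
import Pool.Agent.Lib.MP_754fa1_al.T.A03c

/-!
# X4a. The parts of `C_w` for rank at most two

`J` is `{c}` or `{i, j}` with `3 ≤ M i j` (`Dih`), `w ∈ WP J`, `Suf u w`, `av u = av w`.

`dih_suf_rd`: `w ≠ 1`, `s` a right descent of `w`: then `s` is a right descent of `u`. `u ≠ 1` (`av_pos`, `av_one`). `J = {c}`: `u = w = s_c`. `J = {i, j}`: if `w = w₀` then `u = w₀`
(`atom_tgt`: `w₀` is tight: a proper suffix has smaller value) and `pair_top_rd`. If `w ≠ w₀`: `u` has a right descent `s'` (`u ≠ 1`), which is a right descent of `w` (`Suf u w`), so `s' = s` by `pair_rd_unique`.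

`L4_dih`: `K ⊆ J`. Then `LL K P (v^{av w} tr K C_w)` with `P w' := ∃ u', Suf u' w' ∧ av u' = av w' ∧ Suf u' u`. Let `p(z) = D.t.repr (D.c w) z`.
* `K = ∅`: `v^{av w} p(1) • 1` (`tr_empty`), `C_1 = 1` (`c_one`): degree `≤ 0 = av 1` (`o2_one`); `P 1` by `u' = 1`.
* `K = {s}` (`s ∈ J`): `tr = p(s) T_s = p(s) C_s - v^{-L s} p(s) C_1` (`tr_single`, `D.c_simple`). Coordinate at `s`: `v^{av w} p(s)`, degree `≤ L s = av s` (`o2_s`, `av_simple`); if its coefficient at `L s` is non-zero
  then `s` is a right descent of `w` (`o2_s`), so of `u` (`dih_suf_rd`; `w ≠ 1`), and `P s` with `u' = s_s` (`Suf s_s u` from the right descent). Coordinate at `1`: degree `≤ 0`; `P 1`.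
* `K = {i, j}` (so `J = K`): `tr_pair`: `v^{av w} C_w - v^{av w} p(1) C_1 - ...`: the coordinate at `w` gets `v^{av w}` (degree `av w`, `P w` with `u' = u`); the other terms as before (`ll_add`, `ll_neg`); if `w = 1` or `w = s` the
  element `tr K C_w` is `0`.
-/

open LaurentPolynomial
open Pool.Agent.Lib.MP_754fa1_al

namespace Pool.Agent.Lib.KLT

universe u v w

variable {B : Type u} {W : Type v} [Group W] {M : CoxeterMatrix B} [Finite B]
variable {cs : CoxeterSystem M W} {L : B → ℕ} {H : Type w} [Ring H] [Algebra Lau H]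

omit [Finite B] in
private theorem X4a_suf_rd {u w : W} {s : B} (h : Suf cs u w) (hs : cs.IsRightDescent u s) :
    cs.IsRightDescent w s := by
  obtain ⟨z, rfl, hz⟩ := (suf_iff cs u w).1 h
  have h1 := cs.isRightDescent_iff.1 hs
  have h2 := cs.length_mul_le z (u * cs.simple s)
  unfold CoxeterSystem.IsRightDescent
  rw [mul_assoc]
  omega

omit [Finite B] in
private theorem X4a_simple_suf {u : W} {s : B} (hs : cs.IsRightDescent u s) :
    Suf cs (cs.simple s) u := by
  rw [suf_iff]
  refine ⟨u * cs.simple s, by simp, ?_⟩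
  have h1 := cs.isRightDescent_iff.1 hs
  rw [cs.length_simple]
  omega

theorem dih_suf_rd (hL : ∀ i, 0 < L i) (hE : OddEq M L) {J : Set B} (hJ : Dih M J) {w u : W}
    (hw : w ∈ WP cs J) (hu : Suf cs u w) (ha : av cs L u = av cs L w) {s : B}
    (hs : cs.IsRightDescent w s) : cs.IsRightDescent u s := by
  have hw1 : w ≠ 1 := by
    rintro rfl
    unfold CoxeterSystem.IsRightDescent at hs
    rw [cs.length_one] at hs
    exact absurd hs (Nat.not_lt_zero _)
  have hu1 : u ≠ 1 := by
    rintro rfl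
    have h1 := av_pos cs L hL hw1
    rw [← ha, av_one] at h1
    exact lt_irrefl _ h1
  have huJ : u ∈ WP cs J := wp_suf cs hu hw
  rcases hJ with ⟨c, rfl⟩ | ⟨c, d, h3, rfl⟩
  · have e1 := ((wp_single cs).1 hw).resolve_left hw1
    have e2 := ((wp_single cs).1 huJ).resolve_left hu1
    rw [e2, ← e1]
    exact hs
  · have hcd : c ≠ d := ne_of_three h3
    have hm : M c d ≠ 0 := by omega
    by_cases htop : w = al cs c d (M c d)
    · have h1 : Tgt cs L w := by
        rw [htop]
        exact atom_tgt hL hE (Atom.full c d h3)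
      by_cases huw : u = w
      · rw [huw]; exact hs
      · exact absurd ha (ne_of_lt (h1 u hu huw))
    · obtain ⟨s', hs'⟩ := cs.exists_rightDescent_of_ne_one hu1
      have h1 : cs.IsRightDescent w s' := X4a_suf_rd hu hs'
      have m1 : s ∈ ({c, d} : Set B) := rd_wp cs hw hs
      have m2 : s' ∈ ({c, d} : Set B) := rd_wp cs hw h1
      have h2 := pair_rd_unique cs hcd hm hw hw1 htop
      have e : s = s' := by
        rcases m1 with m1 | m1 <;> rcases m2 with m2 | m2
        · rw [m1, m2]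
        · rw [Set.mem_singleton_iff] at m2
          subst m1 m2
          rcases h2 with h2 | h2
          · exact absurd h1 h2.2
          · exact absurd hs h2.1
        · rw [Set.mem_singleton_iff] at m1
          subst m1 m2
          rcases h2 with h2 | h2
          · exact absurd hs h2.2
          · exact absurd h1 h2.1
        · rw [Set.mem_singleton_iff] at m1 m2
          rw [m1, m2]
      rw [e]
      exact hs'

variable (D : KL cs L H)

omit [Finite B] in
private theorem X4a_pt {J : Set B} {P : W → Prop} {z : W} (hz : z ∈ WP cs J) {r : Lau}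
    (hr : DegLe (av cs L z) r) (hP : r.coeff (av cs L z) ≠ 0 → P z) : LL D J P (r • D.c z) := by
  classical
  intro w
  have e : D.cB.repr (r • D.c z) w = if z = w then r else 0 := by
    rw [map_smul, ← D.cB_apply, Module.Basis.repr_self, Finsupp.smul_apply,
      Finsupp.single_apply, smul_eq_mul]
    split_ifs
    · rw [mul_one]
    · rw [mul_zero]
  rw [e]
  by_cases hzw : z = w
  · subst hzw
    rw [if_pos rfl]
    exact ⟨fun h => absurd hz h, hr, hP⟩
  · rw [if_neg hzw]
    exact ⟨fun _ => rfl, DegLe.zero, fun h => absurd rfl h⟩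

theorem L4_dih (hL : ∀ i, 0 < L i) (hE : OddEq M L) {J : Set B} (hJ : Dih M J) {w u : W}
    (hw : w ∈ WP cs J) (hu : Suf cs u w) (ha : av cs L u = av cs L w) {K : Set B} (hK : K ⊆ J) :
    LL D K (fun w' => ∃ u', Suf cs u' w' ∧ av cs L u' = av cs L w' ∧ Suf cs u' u)
      ((T (av cs L w : ℤ) : Lau) • tr D.toHecke K (D.c w)) := by
  have hP1 : ∃ u', Suf cs u' (1 : W) ∧ av cs L u' = av cs L (1 : W) ∧ Suf cs u' u := by
    refine ⟨1, suf_refl cs 1, rfl, ?_⟩
    rw [suf_iff]
    exact ⟨u, by rw [mul_one], by rw [cs.length_one]; omega⟩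
  have hone : ∀ (K : Set B) (r : Lau), DegLe 0 r →
      LL D K (fun w' => ∃ u', Suf cs u' w' ∧ av cs L u' = av cs L w' ∧ Suf cs u' u)
        (r • (1 : H)) := by
    intro K r hr
    rw [← c_one D]
    apply X4a_pt D (one_mem _)
    · rw [av_one]; exact hr
    · intro _; exact hP1
  have base : ∀ K : Set B,
      LL D K (fun w' => ∃ u', Suf cs u' w' ∧ av cs L u' = av cs L w' ∧ Suf cs u' u)
        ((T (av cs L w : ℤ) : Lau) • (D.t.repr (D.c w) 1 • (1 : H))) := by
    intro K
    rw [smul_smul]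
    apply hone
    have h1 := (DegLe.T (le_refl (av cs L w : ℤ))).mul (o2_one D hL hE hJ hw)
    rwa [add_neg_cancel] at h1
  have gen : ∀ s ∈ J, ∀ K : Set B, s ∈ K →
      LL D K (fun w' => ∃ u', Suf cs u' w' ∧ av cs L u' = av cs L w' ∧ Suf cs u' u)
        ((T (av cs L w : ℤ) : Lau) • (D.t.repr (D.c w) (cs.simple s) • D.t (cs.simple s))) := by
    intro s hs K hsK
    obtain ⟨h1, h2⟩ := o2_s D hL hE hJ hw hs
    have h3 := (DegLe.T (le_refl (av cs L w : ℤ))).mul h1
    rw [add_sub_cancel] at h3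
    have e1 : D.t (cs.simple s) = D.c (cs.simple s) - (T (-(L s : ℤ)) : Lau) • (1 : H) := by
      rw [D.c_simple hL, add_sub_cancel_right]
    have e2 : (T (av cs L w : ℤ) : Lau) •
        (D.t.repr (D.c w) (cs.simple s) • D.t (cs.simple s)) =
        (T (av cs L w : ℤ) * D.t.repr (D.c w) (cs.simple s)) • D.c (cs.simple s) +
        -(((T (av cs L w : ℤ) * D.t.repr (D.c w) (cs.simple s)) * T (-(L s : ℤ))) • (1 : H)) := by
      rw [e1, smul_smul, smul_sub, smul_smul, sub_eq_add_neg]
    rw [e2]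
    apply ll_add
    · apply X4a_pt D ((simple_mem_wp cs).2 hsK)
      · rw [av_simple]; exact h3
      · rw [av_simple]
        intro h4
        have h5 := coeff_mul_top (DegLe.T (le_refl (av cs L w : ℤ))) h1
        rw [add_sub_cancel] at h5
        rw [h5] at h4
        have h6 := h2 (right_ne_zero_of_mul h4)
        exact ⟨cs.simple s, suf_refl cs _, av_simple cs L s,
          X4a_simple_suf (dih_suf_rd hL hE hJ hw hu ha h6)⟩
    · apply ll_neg
      apply hone
      have h4 := h3.mul (DegLe.T (le_refl (-(L s : ℤ))))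
      rwa [add_neg_cancel] at h4
  have hcase : K = ∅ ∨ (∃ s ∈ J, K = {s}) ∨ ∃ c d, c ≠ d ∧ J = {c, d} ∧ K = {c, d} := by
    rcases hJ with ⟨c, rfl⟩ | ⟨c, d, h3, rfl⟩
    · rcases Set.subset_singleton_iff_eq.1 hK with h | h
      · exact Or.inl h
      · exact Or.inr (Or.inl ⟨c, rfl, h⟩)
    · rcases Set.subset_pair_iff_eq.1 hK with h | h | h | h
      · exact Or.inl h
      · exact Or.inr (Or.inl ⟨c, Or.inl rfl, h⟩)
      · exact Or.inr (Or.inl ⟨d, Or.inr rfl, h⟩)
      · exact Or.inr (Or.inr ⟨c, d, ne_of_three h3, rfl, h⟩)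
  rcases hcase with rfl | ⟨s, hs, rfl⟩ | ⟨c, d, hcd, rfl, rfl⟩
  · rw [tr_empty]
    exact base _
  · rw [tr_single]
    exact gen s hs _ rfl
  · rw [tr_pair D.toHecke hcd (hp_c D hw), smul_sub, smul_sub, smul_sub]
    rw [sub_eq_add_neg, sub_eq_add_neg, sub_eq_add_neg]
    apply ll_add
    · apply ll_add
      · apply ll_add
        · apply X4a_pt D hw
          · exact DegLe.T le_rfl
          · intro _
            exact ⟨u, hu, ha, suf_refl cs u⟩
        · exact ll_neg D (base _)
      · exact ll_neg D (gen c (Or.inl rfl) _ (Or.inl rfl))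
    · exact ll_neg D (gen d (Or.inr rfl) _ (Or.inr rfl))

end Pool.Agent.Lib.KLT
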