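import Pool.Agent.Lib.MP_754fa1_al.T.D06
import Pool.Agent.Lib.MP_754fa1_al.T.A03b

/-!
# X5. `C_δ C_δ` for atoms

`Eta J δ n`: there is `η` with `invert η = η`, `DegLe n η`, `η.coeff n = ±1`, and `C_δ C_δ - η C_δ` has only coordinates at `z ∈ WP J` with `n < av z`.

`one i`: `C_i C_i = η_i C_i` (`cs_mul_c`), `coeff_eta_top`.
`full i j`: `w₀ = al i j m`. `T_z C(w₀) = v^{L(z)} C(w₀)` where `L(al i j l) = sl L i j l` etc. (`t_mul_c`, `pair_top_rd`, induction on the word), `C(w₀) = ∑_z p_z T_z` over `z ∈ WP {i, j}` (`hp_c`, `Hecke.sum_repr`), so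
`C(w₀) C(w₀) = p C(w₀)` with `p = ∑ p_z v^{L(z)}`: the term `z = w₀` is `v^{sl L i j m}` (`repr_c_one`), the other terms have degree `≤ -1 + sl L i j m` (`repr_c_ne`, `sl_lt`, `sl_symm`). So `DegLe n p`, `p.coeff n = 1`,
`n = sl L i j m`. `invert p = p`: `bar_coord` for the `bar`-invariant element `C(w₀) C(w₀)`.
`mid i j n'` (`M i j = 2 n'`, `b = L j < a = L i`, `δ = al i j (2n'-1) = S_{n'-1} C_i` (`sk_i`)): by two-step induction `S_k C_δ = s_k C_δ + f_k C(w₀)` with `DegLe (k (a-b)) s_k`, `s_k.coeff (k (a-b)) = (-1)^k`: `s_0 = 1`,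
`s_1 = -η_{a-b}`, `s_{k+2} = -η_{a-b} s_{k+1} - s_k` (`zc_mid`, `z_top`). `C_δ C_δ = S_{n'-1} C_i C_δ = η_i S_{n'-1} C_δ` (`cs_mul_c`, `ld_al`), so `η = η_i s_{n'-1}`, of degree `a + (n'-1)(a-b) = n' a - (n'-1) b`, top coefficient
`(-1)^{n'-1}` (`coeff_mul_top`); the rest is a multiple of `C(w₀)`, `av w₀ = n' (a+b) > n` (`av_full`, `sl_even`). `invert η = η`: `bar_coord` at `δ`.
-/

open LaurentPolynomial
open Pool.Agent.Lib.MP_754fa1_al

namespace Pool.Agent.Lib.KLT

universe u v w

variable {B : Type u} {W : Type v} [Group W] {M : CoxeterMatrix B} [Finite B]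
variable {cs : CoxeterSystem M W} {L : B → ℕ} {H : Type w} [Ring H] [Algebra Lau H]

omit [Finite B] in
/-- `C_δ C_δ = η C_δ` up to larger elements -/
def Eta (D : KL cs L H) (J : Set B) (δ : W) (n : ℕ) (η : Lau) : Prop :=
  invert η = η ∧ DegLe n η ∧ (η.coeff n = 1 ∨ η.coeff n = -1) ∧
    ∀ z, D.cB.repr (D.c δ * D.c δ - η • D.c δ) z ≠ 0 → z ∈ WP cs J ∧ n < av cs L z

variable (D : KL cs L H)

omit [Finite B] in
private theorem X5_ne {i j : B} (h3 : 3 ≤ M i j) : i ≠ j := by
  rintro rfl
  rw [M.diagonal] at h3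
  omega

omit [Finite B] in
private theorem X5_inv (n : ℕ) : invert (eta n) = eta n := by
  have h := invert_etaL (fun _ : Unit => n) [()]
  rw [etaL_cons, etaL_nil, mul_one] at h
  exact h

omit [Finite B] in
private theorem X5_bar (x y : W) : D.bar (D.c x * D.c y) = D.c x * D.c y := by
  rw [map_mul, D.bar_c, D.bar_c]

omit [Finite B] in
open Classical in
private theorem X5_repr (x z : W) : D.cB.repr (D.c x) z = if x = z then 1 else 0 := by
  rw [← D.cB_apply x, Module.Basis.repr_self, Finsupp.single_apply]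

omit [Finite B] in
/-- the eigenvalue of `T_z` on `C_w` when `i`, `j` are left descents of `w` -/
private theorem X5_t (hL : ∀ i, 0 < L i) (w : W) (k : ℕ) : ∀ (i j : B), i ≠ j →
    (k ≤ M i j ∨ M i j = 0) → cs.IsLeftDescent w i → cs.IsLeftDescent w j →
    D.t (al cs i j k) * D.c w = (T (sl L i j k : ℤ) : Lau) • D.c w := by
  induction k with
  | zero =>
    intro i j _ _ _ _
    have h1 : sl L i j 0 = 0 := rfl
    rw [al_zero, D.t_one, one_mul, h1, Nat.cast_zero, T_zero, one_smul]
  | succ k ih =>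
    intro i j hij hk hi hj
    have hji : M j i = M i j := M.symmetric j i
    have h1 : sl L i j (k + 1) = L i + sl L j i k := rfl
    have hk' : k ≤ M j i ∨ M j i = 0 := by
      rcases hk with h2 | h2
      · left
        omega
      · right
        omega
    have h2 : D.t (al cs i j (k + 1)) = D.t (cs.simple i) * D.t (al cs j i k) := by
      rw [al_succ, D.t_mul]
      rw [← al_succ, len_al cs hij hk, len_al cs hij.symm hk', cs.length_simple]
      ring
    rw [h2, mul_assoc, ih j i hij.symm hk' hj hi, mul_smul_comm, D.t_mul_c hL hi, smul_smul,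
      ← T_add, h1]
    push_cast
    rw [add_comm]

private theorem X5_full (hL : ∀ i, 0 < L i) (hE : OddEq M L) {i j : B} (h3 : 3 ≤ M i j) :
    ∃ p : Lau, DegLe ((sl L i j (M i j) : ℤ) - 1) p ∧
      D.c (al cs i j (M i j)) * D.c (al cs i j (M i j)) =
        ((T (sl L i j (M i j) : ℤ) : Lau) + p) • D.c (al cs i j (M i j)) := by
  classical
  have hij := X5_ne h3
  have hji : M j i = M i j := M.symmetric j i
  have hm : M i j ≠ 0 := by omega
  obtain ⟨_, _, hdi, hdj⟩ := pair_top_rd cs hij hm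
  set w := al cs i j (M i j) with hw
  set n := sl L i j (M i j) with hn
  have hwp : w ∈ WP cs {i, j} := al_mem cs i j _
  -- eigenvalues
  have hev : ∀ z ∈ WP cs {i, j}, ∃ l : ℕ, (z ≠ w → (l : ℤ) ≤ n - 1) ∧ (z = w → l = n) ∧
      D.t z * D.c w = (T (l : ℤ) : Lau) • D.c w := by
    intro z hz
    obtain ⟨l, hl, h1⟩ := (wp_pair cs hij).1 hz
    have hl' : l ≤ M i j := by
      rcases hl with h | h
      · exact h
      · omega
    rcases h1 with h1 | h1
    · refine ⟨sl L i j l, ?_, ?_, ?_⟩
      · intro h2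
        have h4 : l < M i j := by
          rcases Nat.lt_or_ge l (M i j) with h4 | h4
          · exact h4
          · exfalso
            have h5 : l = M i j := by omega
            subst h5
            exact h2 h1
        have h5 := sl_lt hL i j h4
        rw [← hn] at h5
        omega
      · intro h2
        have h4 : cs.length (al cs i j l) = l := len_al cs hij (Or.inl hl')
        have h5 : cs.length w = M i j := len_al cs hij (Or.inl le_rfl)
        rw [← h1, h2, h5] at h4
        rw [← h4]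
      · rw [h1]
        exact X5_t D hL w l i j hij (Or.inl hl') hdi hdj
    · refine ⟨sl L j i l, ?_, ?_, ?_⟩
      · intro h2
        have h4 : l < M j i := by
          rcases Nat.lt_or_ge l (M i j) with h4 | h4
          · omega
          · exfalso
            have h5 : l = M i j := by omega
            subst h5
            exact h2 (h1.trans (al_top cs i j hm).symm)
        have h5 := sl_lt hL j i h4
        rw [hji, ← sl_symm hE i j, ← hn] at h5
        omega
      · intro h2
        have h4 : cs.length (al cs j i l) = l := len_al cs hij.symm (Or.inl (by omega))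
        have h5 : cs.length w = M i j := len_al cs hij (Or.inl le_rfl)
        rw [← h1, h2, h5] at h4
        rw [← h4, hn, sl_symm hE i j]
      · rw [h1]
        exact X5_t D hL w l j i hij.symm (Or.inl (by omega)) hdj hdi
  have hc : D.c w * D.c w = ∑ z ∈ (D.t.repr (D.c w)).support,
      D.t.repr (D.c w) z • (D.t z * D.c w) := by
    conv_lhs =>
      enter [1]
      rw [← D.t.linearCombination_repr (D.c w)]
    rw [Finsupp.linearCombination_apply, Finsupp.sum, Finset.sum_mul]
    exact Finset.sum_congr rfl fun z _ => smul_mul_assoc _ _ _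
  have hz : ∀ z ∈ (D.t.repr (D.c w)).support, z ∈ WP cs {i, j} := by
    intro z hz
    by_contra hcon
    exact (Finsupp.mem_support_iff.1 hz) (hp_c D hwp z hcon)
  have hws : w ∈ (D.t.repr (D.c w)).support := by
    rw [Finsupp.mem_support_iff, repr_c_one D]
    exact one_ne_zero
  have hterm : ∀ z ∈ (D.t.repr (D.c w)).support.erase w, ∃ p : Lau, DegLe ((n : ℤ) - 1) p ∧
      D.t.repr (D.c w) z • (D.t z * D.c w) = p • D.c w := by
    intro z hzz
    obtain ⟨h1, h2⟩ := Finset.mem_erase.1 hzz
    obtain ⟨l, hl1, _, hl3⟩ := hev z (hz z h2)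
    refine ⟨D.t.repr (D.c w) z * T (l : ℤ), ?_, ?_⟩
    · have h4 := (repr_c_ne D h1).mul (DegLe.T (le_refl (l : ℤ)))
      exact h4.mono (by have := hl1 h1; omega)
    · rw [hl3, smul_smul]
  choose! f hf1 hf2 using hterm
  refine ⟨∑ z ∈ (D.t.repr (D.c w)).support.erase w, f z, DegLe.sum _ _ hf1, ?_⟩
  rw [hc, ← Finset.add_sum_erase _ _ hws, add_smul]
  congr 1
  · obtain ⟨l, _, hl2, hl3⟩ := hev w hwp
    rw [hl3, repr_c_one D, one_smul, hl2 rfl]
  · rw [Finset.sum_smul]
    exact Finset.sum_congr rfl hf2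

omit [Finite B] in
private theorem X5_sk (hL : ∀ i, 0 < L i) {i j : B} {n : ℕ} (h3 : 3 ≤ M i j)
    (hn : M i j = 2 * n) (hl : L j < L i) (k : ℕ) :
    (∃ s f : Lau, Sk D i j k * D.c (al cs i j (2 * n - 1)) =
      s • D.c (al cs i j (2 * n - 1)) + f • D.c (al cs i j (2 * n)) ∧
      DegLe ((k * (L i - L j) : ℕ) : ℤ) s ∧ s.coeff ((k * (L i - L j) : ℕ) : ℤ) = (-1) ^ k) ∧
    (∃ s f : Lau, Sk D i j (k + 1) * D.c (al cs i j (2 * n - 1)) =
      s • D.c (al cs i j (2 * n - 1)) + f • D.c (al cs i j (2 * n)) ∧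
      DegLe (((k + 1) * (L i - L j) : ℕ) : ℤ) s ∧
      s.coeff (((k + 1) * (L i - L j) : ℕ) : ℤ) = (-1) ^ (k + 1)) := by
  have hd : 0 < L i - L j := by omega
  have hz := zc_mid D hL h3 hn hl
  obtain ⟨p, hp⟩ := z_top D hL h3 hn
  induction k with
  | zero =>
    refine ⟨⟨1, 0, ?_, ?_, ?_⟩, ⟨-eta (L i - L j), eta (L i), ?_, ?_, ?_⟩⟩
    · show (1 : H) * _ = _
      rw [one_mul, one_smul, zero_smul, add_zero]
    · rw [Nat.zero_mul]
      exact DegLe.one
    · rw [Nat.zero_mul, pow_zero]
      exact lp_coeff_one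
    · show Zc D i j * _ = _
      rw [hz, neg_smul]
      abel
    · rw [Nat.zero_add, Nat.one_mul]
      exact (DegLe.eta _).neg
    · rw [Nat.zero_add, Nat.one_mul, lp_coeff_neg, coeff_eta_top _ hd]
      norm_num
  | succ k ih =>
    obtain ⟨⟨s, f, h1, h2, h4⟩, ⟨s', f', h5, h6, h7⟩⟩ := ih
    refine ⟨⟨s', f', h5, h6, h7⟩, ⟨-(eta (L i - L j) * s') - s, s' * eta (L i) + f' * p - f,
      ?_, ?_, ?_⟩⟩
    · show (Zc D i j * Sk D i j (k + 1) - Sk D i j k) * _ = _
      rw [sub_mul, mul_assoc, h5, h1, mul_add, mul_smul_comm, mul_smul_comm, hz, hp]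
      simp only [smul_sub, smul_smul, sub_smul, add_smul, neg_smul]
      rw [mul_comm (eta (L i - L j)) s']
      abel
    · refine DegLe.sub ?_ ?_
      · have h8 := ((DegLe.eta (L i - L j)).mul h6).neg
        refine h8.mono ?_
        push_cast
        nlinarith
      · refine h2.mono ?_
        exact_mod_cast Nat.mul_le_mul_right _ (by omega)
    · have e1 : (((k + 1 + 1) * (L i - L j) : ℕ) : ℤ) =
          ((L i - L j : ℕ) : ℤ) + (((k + 1) * (L i - L j) : ℕ) : ℤ) := by
        push_cast
        ring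
      have e2 : s.coeff (((k + 1 + 1) * (L i - L j) : ℕ) : ℤ) = 0 := by
        refine h2 _ ?_
        have : k * (L i - L j) < (k + 1 + 1) * (L i - L j) :=
          Nat.mul_lt_mul_of_pos_right (by omega) hd
        exact_mod_cast this
      rw [lp_coeff_sub, e2, sub_zero, lp_coeff_neg, e1,
        coeff_mul_top (DegLe.eta (L i - L j)) h6, coeff_eta_top _ hd, h7]
      ring

theorem eta_atom (hL : ∀ i, 0 < L i) (hE : OddEq M L) {J : Set B} {δ : W} {n : ℕ}
    (h : Atom cs L J δ n) : ∃ η, Eta D J δ n η := by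
  classical
  cases h with
  | one i =>
    refine ⟨eta (L i), X5_inv _, DegLe.eta _, Or.inl (coeff_eta_top _ (hL i)), ?_⟩
    intro z hz
    exfalso
    apply hz
    have hd : cs.IsLeftDescent (cs.simple i) i := by
      show cs.length _ < cs.length _
      rw [cs.simple_mul_simple_self, cs.length_one, cs.length_simple]
      exact Nat.one_pos
    rw [D.cs_mul_c hL hd, sub_self, map_zero]
    rfl
  | full i j h3 =>
    obtain ⟨p, hp, he⟩ := X5_full D hL hE h3
    refine ⟨(T (sl L i j (M i j) : ℤ) : Lau) + p, ?_, ?_, ?_, ?_⟩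
    · have h1 := D.bar_coord (X5_bar D (al cs i j (M i j)) (al cs i j (M i j)))
        (al cs i j (M i j))
      rw [he, map_smul, Finsupp.smul_apply, X5_repr, if_pos rfl, smul_eq_mul, mul_one] at h1
      exact h1
    · exact (DegLe.T le_rfl).add (hp.mono (by omega))
    · left
      rw [lp_coeff_add, hp _ (by omega), add_zero, T_apply, if_pos rfl]
    · intro z hz
      exfalso
      apply hz
      rw [he, sub_self, map_zero]
      rfl
  | mid i j k hk hM hl =>
    have h3 : 3 ≤ M i j := by omega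
    have hij := X5_ne h3
    obtain ⟨l, rfl⟩ : ∃ l, k = l + 1 := ⟨k - 1, by omega⟩
    obtain ⟨⟨s, f, h1, h2, h4⟩, _⟩ := X5_sk D hL h3 hM hl l
    have hodd : 2 * (l + 1) - 1 = 2 * l + 1 := by omega
    have hsk := sk_i D hL h3 hM hl (k := l) (by omega)
    rw [← hodd] at hsk
    have hdd : cs.IsLeftDescent (al cs i j (2 * (l + 1) - 1)) i :=
      ld_al cs hij (by omega) (Or.inl (by omega))
    have hprod : D.c (al cs i j (2 * (l + 1) - 1)) * D.c (al cs i j (2 * (l + 1) - 1)) =
        (eta (L i) * s) • D.c (al cs i j (2 * (l + 1) - 1)) +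
          (eta (L i) * f) • D.c (al cs i j (2 * (l + 1))) := by
      conv_lhs =>
        enter [1]
        rw [← hsk]
      rw [mul_assoc, D.cs_mul_c hL hdd, mul_smul_comm, h1, smul_add, smul_smul, smul_smul]
    have hne : al cs i j (2 * (l + 1)) ≠ al cs i j (2 * (l + 1) - 1) := by
      intro h5
      have h6 : cs.length (al cs i j (2 * (l + 1))) = 2 * (l + 1) :=
        len_al cs hij (Or.inl (by omega))
      have h7 : cs.length (al cs i j (2 * (l + 1) - 1)) = 2 * (l + 1) - 1 :=
        len_al cs hij (Or.inl (by omega))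
      rw [h5, h7] at h6
      omega
    have hcast : (((l + 1) * L i - (l + 1 - 1) * L j : ℕ) : ℤ) =
        (L i : ℤ) + ((l * (L i - L j) : ℕ) : ℤ) := by
      have h5 : (l + 1 - 1) * L j ≤ (l + 1) * L i := Nat.mul_le_mul (by omega) hl.le
      rw [Nat.cast_sub h5, Nat.add_sub_cancel]
      push_cast [hl.le]
      ring
    refine ⟨eta (L i) * s, ?_, ?_, ?_, ?_⟩
    · have h5 := D.bar_coord (X5_bar D (al cs i j (2 * (l + 1) - 1)) (al cs i j (2 * (l + 1) - 1)))
        (al cs i j (2 * (l + 1) - 1))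
      rw [hprod, map_add, map_smul, map_smul, Finsupp.add_apply, Finsupp.smul_apply,
        Finsupp.smul_apply, X5_repr, X5_repr, if_pos rfl, if_neg hne, smul_zero, add_zero,
        smul_eq_mul, mul_one] at h5
      exact h5
    · rw [hcast]
      exact (DegLe.eta _).mul h2
    · rw [hcast, coeff_mul_top (DegLe.eta _) h2, coeff_eta_top _ (hL i), h4, one_mul]
      exact neg_one_pow_eq_or ℤ l
    · intro z hz
      have h5 : D.c (al cs i j (2 * (l + 1) - 1)) * D.c (al cs i j (2 * (l + 1) - 1)) -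
          (eta (L i) * s) • D.c (al cs i j (2 * (l + 1) - 1)) =
          (eta (L i) * f) • D.c (al cs i j (2 * (l + 1))) := by
        rw [hprod]
        abel
      rw [h5, map_smul, Finsupp.smul_apply, X5_repr] at hz
      by_cases h6 : al cs i j (2 * (l + 1)) = z
      · rw [← h6]
        refine ⟨al_mem cs i j _, ?_⟩
        have h7 := av_full (cs := cs) (L := L) hE h3
        rw [hM, sl_even] at h7
        rw [h7, Nat.add_sub_cancel]
        have h8 : 0 < (l + 1) * L j := Nat.mul_pos (by omega) (hL j)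
        have h9 : (l + 1) * (L i + L j) = (l + 1) * L i + (l + 1) * L j := Nat.mul_add _ _ _
        omega
      · exfalso
        apply hz
        rw [if_neg h6, smul_zero]

end Pool.Agent.Lib.KLT
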